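import Pool.Agent.Lib.MP_688fd0_co.SQ3.Small.Iface

/-!
Board `sqs_modules`, row AR: the choice of the numbers of copies.
-/

set_option autoImplicit false

namespace Pool.Agent.Lib.MP_688fd0_co.SQ3.Small

namespace Ar

theorem choose_one (κ : Type) [Fintype κ] (p : κ → ℕ) (b d : ∀ c, ZMod (p c))
    (hp : ∀ c, (p c).Prime ∧ Fintype.card κ < p c) :
    ∃ t : ℕ, t ≤ Fintype.card κ ∧ ∀ c, d c ≠ 0 → b c + (t : ZMod (p c)) * d c ≠ 0 := by
  classical
  by_contra hcon
  push Not at hcon
  have h1 : ∀ t : Fin (Fintype.card κ + 1), ∃ c, d c ≠ 0 ∧ b c + ((t : ℕ) : ZMod (p c)) * d c = 0 :=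
    fun t => hcon t (Nat.lt_succ_iff.mp t.2)
  choose f hf using h1
  have hlt : Fintype.card κ < Fintype.card (Fin (Fintype.card κ + 1)) := by simp
  obtain ⟨t, t', hne, heq⟩ := Fintype.exists_ne_map_eq_of_card_lt f hlt
  obtain ⟨hd, h0⟩ := hf t
  obtain ⟨_, h0'⟩ := hf t'
  rw [← heq] at h0'
  haveI : Fact (p (f t)).Prime := ⟨(hp (f t)).1⟩
  have hm : ((t : ℕ) : ZMod (p (f t))) * d (f t) = ((t' : ℕ) : ZMod (p (f t))) * d (f t) :=
    add_left_cancel (h0.trans h0'.symm)
  have hc : ((t : ℕ) : ZMod (p (f t))) = ((t' : ℕ) : ZMod (p (f t))) := mul_right_cancel₀ hd hm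
  have hlt1 : (t : ℕ) < p (f t) := lt_of_le_of_lt (Nat.lt_succ_iff.mp t.2) (hp (f t)).2
  have hlt2 : (t' : ℕ) < p (f t) := lt_of_le_of_lt (Nat.lt_succ_iff.mp t'.2) (hp (f t)).2
  have hmod := (ZMod.natCast_eq_natCast_iff' _ _ _).mp hc
  rw [Nat.mod_eq_of_lt hlt1, Nat.mod_eq_of_lt hlt2] at hmod
  exact hne (Fin.ext hmod)

end Ar

theorem ar : ArS := by
  classical
  intro κ ι _ _ p b D hp
  have key : ∀ (s : Finset ι) (b : ∀ c, ZMod (p c)),
      ∃ j : ι → ℕ, (∀ i, j i ≤ Fintype.card κ) ∧
        ∀ c, (b c ≠ 0 ∨ ∃ i ∈ s, D i c ≠ 0) → b c + ∑ i ∈ s, (j i : ZMod (p c)) * D i c ≠ 0 := by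
    intro s
    induction s using Finset.induction_on with
    | empty =>
      intro b
      refine ⟨fun _ => 0, fun _ => Nat.zero_le _, ?_⟩
      rintro c (h | ⟨i, hi, _⟩)
      · simpa using h
      · exact absurd hi (Finset.notMem_empty i)
    | insert a s ha ih =>
      intro b
      obtain ⟨t, ht, htc⟩ := Ar.choose_one κ p b (D a) hp
      obtain ⟨j, hj, hjc⟩ := ih (fun c => b c + (t : ZMod (p c)) * D a c)
      refine ⟨fun i => if i = a then t else j i, ?_, ?_⟩
      · intro i
        by_cases h : i = a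
        · simpa [h] using ht
        · simpa [h] using hj i
      · intro c hc
        have hsum : ∑ i ∈ s, ((if i = a then t else j i : ℕ) : ZMod (p c)) * D i c =
            ∑ i ∈ s, (j i : ZMod (p c)) * D i c := by
          refine Finset.sum_congr rfl ?_
          intro i hi
          have hia : i ≠ a := fun h => ha (h ▸ hi)
          rw [if_neg hia]
        have hgoal : b c + (t : ZMod (p c)) * D a c + ∑ i ∈ s, (j i : ZMod (p c)) * D i c ≠ 0 := by
          refine hjc c ?_
          rcases hc with h | ⟨i, hi, h⟩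
          · by_cases hd : D a c = 0
            · left
              simpa [hd] using h
            · left
              exact htc c hd
          · rcases Finset.mem_insert.mp hi with rfl | hi
            · left
              exact htc c h
            · right
              exact ⟨i, hi, h⟩
        rw [Finset.sum_insert ha]
        simp only [if_true]
        rw [hsum, ← add_assoc]
        exact hgoal
  obtain ⟨j, hj, hjc⟩ := key Finset.univ b
  refine ⟨j, hj, ?_⟩
  intro c hc
  refine hjc c ?_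
  rcases hc with h | ⟨i, h⟩
  · exact Or.inl h
  · exact Or.inr ⟨i, Finset.mem_univ i, h⟩

end Pool.Agent.Lib.MP_688fd0_co.SQ3.Small
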