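import Pool.Agent.Lib.MP_688fd0_co.SQ3.Small.R1A

/-!
Row ASM of board `sqs_modules`: families of slots, a tail, and T1.
-/

set_option autoImplicit false

namespace Pool.Agent.Lib.MP_688fd0_co.SQ3.Small

open Pool.Agent.Lib.MP_688fd0_co.OSF Pool.Agent.Lib.MP_688fd0_co.SQ2
open Subgroup (zpowers)

namespace AsmAux

section

variable {Q : Type} [Group Q] {B : Lb.{0, 0} Q}

theorem fin_rep (x : Q) (g : B.L) (n : ℕ) : B.fin x (List.replicate n g) = x * B.q g ^ n := by
  induction n generalizing x with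
  | zero => simp [Lb.fin]
  | succ n ih =>
    show B.fin (x * B.q g) (List.replicate n g) = _
    rw [ih, pow_succ', mul_assoc]

theorem src_rep (f : ℕ → Q) (g : B.L) (hf : ∀ j, f j * B.q g = f (j + 1)) (s n : ℕ) :
    src B (f s) (List.replicate n g) = (List.range' s n).map f := by
  induction n generalizing s with
  | zero => rfl
  | succ n ih =>
    show f s :: src B (f s * B.q g) (List.replicate n g) = _
    rw [hf, ih, List.range'_succ]
    rfl

theorem fin_run (f : ℕ → Q) (g : B.L) (hf : ∀ j, f j * B.q g = f (j + 1)) (s n : ℕ) :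
    B.fin (f s) (List.replicate n g) = f (s + n) := by
  induction n generalizing s with
  | zero => rfl
  | succ n ih =>
    show B.fin (f s * B.q g) (List.replicate n g) = _
    rw [hf, ih, Nat.add_right_comm, Nat.add_assoc]

/-- The straight slot. -/
theorem straight (a e : B.L) (y₀ : Q) (he : ∀ j : ℤ, B.q a ^ j * y₀ * B.q e = B.q a ^ (j + 1) * y₀) (L : ℕ) :
    ∃ s : Slot B (B.q a) y₀ L, s.lx = List.replicate L a ∧ s.ly = List.replicate L e := by
  have hx : ∀ j : ℕ, B.q a ^ j * B.q a = B.q a ^ (j + 1) := fun j => (pow_succ _ _).symm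
  have hy : ∀ j : ℕ, B.q a ^ j * y₀ * B.q e = B.q a ^ (j + 1) * y₀ := fun j => by
    have := he j
    rw [← Int.natCast_succ, zpow_natCast, zpow_natCast] at this
    exact this
  refine ⟨⟨List.replicate L a, List.replicate L e, ?_, ?_, ?_⟩, rfl, rfl⟩
  · have := fin_run (fun j => B.q a ^ j) a hx 0 L
    simpa using this
  · have := fin_run (fun j => B.q a ^ j * y₀) e hy 0 L
    simpa using this
  · have h1 := src_rep (fun j => B.q a ^ j) a hx 0 L
    have h2 := src_rep (fun j => B.q a ^ j * y₀) e hy 0 L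
    simp only [pow_zero, one_mul] at h1 h2
    rw [h1, h2, ← List.range_eq_range']
    exact List.Perm.refl _

/-- Volume of a long straight run. -/
theorem vol_mul_rep {R : Type} [CommRing R] (V : Vd B R) (x : Q) (g : B.L) (L N : ℕ) (h : V.chi (B.q g) ^ L = 1) :
    V.vol x (List.replicate (L * N) g) = N * V.vol x (List.replicate L g) := by
  induction N with
  | zero => simp [Vd.vol]
  | succ N ih =>
    rw [Nat.mul_succ, List.replicate_add, vol_append, ih, fin_rep]
    have h1 : V.vol (x * B.q g ^ (L * N)) (List.replicate L g) = V.vol x (List.replicate L g) := by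
      have h2 : ∀ (y : Q) (l : List B.L), V.vol y l = V.chi y * V.vol 1 l := fun y l => by
        rw [← vol_tr, mul_one]
      rw [h2, h2 x, map_mul, map_pow, pow_mul, h, one_pow, mul_one]
    rw [h1]
    push_cast
    ring

end

end AsmAux

open AsmAux

theorem asm (hs : SlotS) (ha : ArS) (h1 : T1S) : AsmS := by
  intro Q _ _ B m V a e s₀ gX gY k c L N ι _ s dX dY tX tY H hkL hL hN he hdX hdY hnd hcov hgX hgY hend hp
  have : NeZero m := ⟨H.m0⟩
  set ω := m.primeFactors.card with hω
  have hchi : V.chi (B.q a) ^ L = 1 := by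
    obtain ⟨t, rfl⟩ := hkL
    rw [pow_mul, H.per, one_pow]
  have hqe : V.chi (B.q e) = V.chi (B.q a) := by
    have h2 := congrArg V.chi (he 0)
    rw [zpow_zero, one_mul, zero_add, zpow_one, map_mul, map_mul] at h2
    have h3 : V.chi (B.q s₀) * V.chi (B.q s₀)⁻¹ = 1 := by rw [← map_mul, mul_inv_cancel, map_one]
    calc V.chi (B.q e) = V.chi (B.q s₀) * V.chi (B.q e) * V.chi (B.q s₀)⁻¹ := by
          rw [mul_comm (V.chi (B.q s₀)), mul_assoc, h3, mul_one]
      _ = V.chi (B.q a) * V.chi (B.q s₀) * V.chi (B.q s₀)⁻¹ := by rw [h2]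
      _ = V.chi (B.q a) := by rw [mul_assoc, h3, mul_one]
  have hchie : V.chi (B.q e) ^ L = 1 := by rw [hqe, hchi]
  -- the conditions
  set bX := V.vol 1 (List.replicate (L * N) a ++ (tX ++ [gX])) with hbX
  set bY := V.vol (B.q s₀) (List.replicate (L * N) e ++ (tY ++ [gY])) with hbY
  obtain ⟨j, hj, hjc⟩ := ha ({p // p ∈ m.primeFactors} × Bool) ι (fun c => c.1.1)
    (fun c => rd c.1.1 (if c.2 = true then bX else bY)) (fun i c => rd c.1.1 (if c.2 = true then dX i else dY i))
    (fun c => ⟨Nat.prime_of_mem_primeFactors c.1.2, by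
      have h2 := H.prm _ c.1.2
      rw [Fintype.card_prod, Fintype.card_coe, Fintype.card_bool, ← hω]
      nlinarith⟩)
  have hcard : Fintype.card ({p // p ∈ m.primeFactors} × Bool) = 2 * ω := by
    rw [Fintype.card_prod, Fintype.card_coe, Fintype.card_bool, ← hω, Nat.mul_comm]
  rw [hcard] at hj
  have hsum : ∑ i, j i ≤ N := by
    rw [hN]
    calc ∑ i, j i ≤ ∑ _i : ι, 2 * ω := Finset.sum_le_sum fun i _ => hj i
      _ = 2 * ω * Fintype.card ι := by rw [Finset.sum_const, Finset.card_univ, smul_eq_mul, Nat.mul_comm]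
  obtain ⟨st, hstx, hsty⟩ := straight (B := B) a e (B.q s₀) he L
  -- the list of slots
  set l : List (Slot B (B.q a) (B.q s₀) L) :=
    (Finset.univ : Finset ι).toList.flatMap (fun i => List.replicate (j i) (s i)) ++
      List.replicate (N - ∑ i, j i) st with hl
  have hsuml : ∀ f : Slot B (B.q a) (B.q s₀) L → ZMod m, (l.map f).sum =
      ∑ i, (j i : ZMod m) * f (s i) + ((N - ∑ i, j i : ℕ) : ZMod m) * f st := by
    intro f
    rw [hl, List.map_append, List.sum_append, List.map_replicate, List.sum_replicate, nsmul_eq_mul]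
    congr 1
    rw [← Finset.sum_map_toList, List.map_flatMap]
    induction (Finset.univ : Finset ι).toList with
    | nil => rfl
    | cons i t ih =>
      rw [List.flatMap_cons, List.sum_append, ih, List.map_replicate, List.sum_replicate, nsmul_eq_mul,
        List.map_cons, List.sum_cons]
  have hlen : l.length = N := by
    have h2 : ∀ t : List ι, (t.flatMap (fun i => List.replicate (j i) (s i))).length = (t.map j).sum := by
      intro t
      induction t with
      | nil => rfl
      | cons i t ih =>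
        rw [List.flatMap_cons, List.length_append, ih, List.length_replicate, List.map_cons, List.sum_cons]
    rw [hl, List.length_append, List.length_replicate, h2, Finset.sum_map_toList]
    exact Nat.add_sub_of_le hsum
  obtain ⟨k1, k2, k3, k4⟩ := hs Q B (B.q a) (B.q s₀) L l
  rw [hlen] at k1 k2 k3
  obtain ⟨k5, k6⟩ := k4 (ZMod m) V hchi
  set wX := l.flatMap Slot.lx with hwX
  set wY := l.flatMap Slot.ly with hwY
  have hNs : ((N - ∑ i, j i : ℕ) : ZMod m) = N - ∑ i, (j i : ZMod m) := by
    rw [Nat.cast_sub hsum, Nat.cast_sum]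
  have vX : V.vol 1 wX = V.vol 1 (List.replicate (L * N) a) + ∑ i, (j i : ZMod m) * dX i := by
    rw [k5, hsuml, hstx, vol_mul_rep V 1 a L N hchi, hNs]
    simp only [hdX, mul_add, Finset.sum_add_distrib, ← Finset.sum_mul]
    ring
  have vY : V.vol (B.q s₀) wY = V.vol (B.q s₀) (List.replicate (L * N) e) + ∑ i, (j i : ZMod m) * dY i := by
    rw [k6, hsuml, hsty, vol_mul_rep V _ e L N hchie, hNs]
    simp only [hdY, mul_add, Finset.sum_add_distrib, ← Finset.sum_mul]
    ring
  set xN := B.q a ^ (L * N) with hxN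
  set yN := B.q a ^ (L * N) * B.q s₀ with hyN
  set xT := B.fin xN tX with hxT
  set yT := B.fin yN tY with hyT
  have eX : B.fin 1 (wX ++ tX) = xT := by rw [fin_append, k1]
  have eY : B.fin (B.q s₀) (wY ++ tY) = yT := by rw [fin_append, k2]
  have eY' : B.fin yT (B.rev (wY ++ tY)) = B.q s₀ := by rw [← eY, fin_rev]
  have gX1 : xT * B.q gX = 1 := by
    rw [fin_append] at hgX
    exact hgX
  have gY1 : yT * B.q gY = B.q s₀ := by
    rw [fin_append] at hgY
    exact hgY
  have hX0 : bX = V.vol 1 (List.replicate (L * N) a) + (V.vol xN tX + V.chi xT * V.n gX) := by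
    rw [hbX, vol_append, fin_rep, one_mul, vol_append, ← hxN, ← hxT]
    simp [Vd.vol]
  have hY0 : bY = V.vol (B.q s₀) (List.replicate (L * N) e) + (V.vol yN tY + V.chi yT * V.n gY) := by
    have h3 : B.fin (B.q s₀) (List.replicate (L * N) e) = yN := by
      have h4 := fin_run (fun j : ℕ => B.q a ^ j * B.q s₀) e (fun j => by
        have := he j
        rw [← Int.natCast_succ, zpow_natCast, zpow_natCast] at this
        exact this) 0 (L * N)
      simpa using h4
    rw [hbY, vol_append, h3, vol_append, ← hyT]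
    simp [Vd.vol]
  have VX : V.vol 1 (wX ++ tX ++ [gX]) = bX + ∑ i, (j i : ZMod m) * dX i := by
    rw [hbX, List.append_assoc, vol_append, k1, vol_append _ _ (List.replicate (L * N) a), fin_rep, one_mul, vX]
    ring
  have VY : V.vol yT (B.rev (wY ++ tY) ++ [B.inv gY]) = -(bY + ∑ i, (j i : ZMod m) * dY i) := by
    have h2 : V.chi (B.q s₀) * V.n (B.inv gY) = -(V.chi yT * V.n gY) := by
      rw [V.n_inv, mul_neg, ← mul_assoc, ← map_mul, ← gY1, mul_inv_cancel_right]
    have h5 : V.vol yT (B.rev (wY ++ tY)) = -V.vol (B.q s₀) (wY ++ tY) := by rw [← eY, vol_rev]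
    rw [vol_append, eY', h5, vol_append, k2, vY, hY0]
    show _ + (V.chi (B.q s₀) * V.n (B.inv gY) + 0) = _
    rw [h2]
    ring
  have hva : ∀ (x : Q) (l l' : List B.L), B.verts x (l ++ l') = src B x l ++ B.verts (B.fin x l) l' := by
    intro x l l'
    rw [verts_eq, verts_eq, src_append, fin_append, List.append_assoc]
  have hperm : (B.verts 1 (wX ++ tX) ++ B.verts yT (B.rev (wY ++ tY))).Perm
      (strip (B.q a) (B.q s₀) (L * N) ++ (B.verts xN tX ++ B.verts yN tY)) := by
    have h2 : B.verts yT (B.rev (wY ++ tY)) = (B.verts (B.q s₀) (wY ++ tY)).reverse := by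
      rw [← eY, verts_rev]
    rw [h2, hva, hva, k1, k2, ← Multiset.coe_eq_coe]
    rw [← Multiset.coe_eq_coe] at k3
    simp only [← Multiset.coe_add, Multiset.coe_reverse] at k3 ⊢
    rw [← k3]
    abel
  refine h1 Q B m V 1 yT (wX ++ tX) (B.rev (wY ++ tY)) gX (B.inv gY) {t | B.q t = B.q s₀} (B.inv s₀) H.sq ?_ ?_ ?_ ?_
    ?_ ?_ ?_ ⟨s₀, rfl⟩
  · rw [fin_append, eX]
    exact gX1
  · rw [fin_append, eY']
    show B.q s₀ * B.q (B.inv gY) = yT
    rw [B.q_inv, ← gY1, mul_inv_cancel_right]
  · exact hperm.nodup_iff.2 hnd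
  · intro q
    have h2 := hperm.mem_iff.2 (hcov q)
    exact List.mem_append.1 h2
  · intro t ht
    have ht' : B.q t = B.q s₀ := ht
    rw [eX, ht']
    exact hend
  · rw [eY', B.q_inv, mul_inv_cancel]
  · intro p hpm
    have hd := Nat.dvd_of_mem_primeFactors hpm
    rw [VX, VY, rd_neg hd, neg_ne_zero, neg_eq_zero]
    rcases hp p hpm with ⟨q1, q2⟩ | ⟨q1, q2, q3, q4, q5, q6, q7, t, q8, q9⟩
    · left
      have c1 := hjc (⟨p, hpm⟩, true)
      have c2 := hjc (⟨p, hpm⟩, false)
      simp only [if_true] at c1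
      simp only [Bool.false_eq_true, if_false] at c2
      have e1 : rd p (bX + ∑ i, (j i : ZMod m) * dX i) = rd p bX + ∑ i, (j i : ZMod p) * rd p (dX i) := by
        rw [rd_add hd, rd_sum hd]
        simp only [rd_mul hd, rd_natCast hd]
      have e2 : rd p (bY + ∑ i, (j i : ZMod m) * dY i) = rd p bY + ∑ i, (j i : ZMod p) * rd p (dY i) := by
        rw [rd_add hd, rd_sum hd]
        simp only [rd_mul hd, rd_natCast hd]
      rw [e1, e2]
      exact ⟨c1 q1, c2 q2⟩
    · right
      have z1 : rd p (∑ i, (j i : ZMod m) * dX i) = 0 := by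
        rw [rd_sum hd]
        exact Finset.sum_eq_zero fun i _ => by rw [rd_mul hd, (q1 i).1, mul_zero]
      have z2 : rd p (∑ i, (j i : ZMod m) * dY i) = 0 := by
        rw [rd_sum hd]
        exact Finset.sum_eq_zero fun i _ => by rw [rd_mul hd, (q1 i).2, mul_zero]
      have z3 : rd p (V.vol 1 (List.replicate (L * N) a)) = 0 := rd_vol_replicate V hd a q2 _ _
      have z4 : rd p (V.vol (B.q s₀) (List.replicate (L * N) e)) = 0 := rd_vol_replicate V hd e q3 _ _
      refine ⟨?_, ?_, t, q8, ?_⟩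
      · rw [rd_add hd, z1, hX0, rd_add hd, z3, rd_add hd, q4, rd_mul hd, q6]
        simp
      · rw [rd_add hd, z2, hY0, rd_add hd, z4, rd_add hd, q5, rd_mul hd, q7]
        simp
      · have e1 : V.vol 1 ((wX ++ tX) ++ t :: (B.rev (wY ++ tY) ++ [B.inv s₀])) =
            (V.vol 1 (wX ++ tX) - V.vol (B.q s₀) (wY ++ tY)) + (V.chi xT * V.n t - V.n s₀) := by
          rw [vol_append V 1 (wX ++ tX), eX]
          show _ + (V.chi xT * V.n t + V.vol (xT * B.q t) (B.rev (wY ++ tY) ++ [B.inv s₀])) = _
          have h2 : xT * B.q t = yT := by rw [q8]; exact hend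
          have h3 : V.vol yT (B.rev (wY ++ tY)) = -V.vol (B.q s₀) (wY ++ tY) := by rw [← eY, vol_rev]
          rw [h2, vol_append V yT, eY', h3]
          show _ + (_ + (_ + (V.chi (B.q s₀) * V.n (B.inv s₀) + 0))) = _
          have h4 : V.chi (B.q s₀) * V.n (B.inv s₀) = -V.n s₀ := by
            rw [V.n_inv, mul_neg, ← mul_assoc, ← map_mul, mul_inv_cancel, map_one, one_mul]
          rw [h4]
          ring
        have z5 : rd p (V.vol 1 (wX ++ tX)) = 0 := by
          rw [vol_append, k1, vX, rd_add hd, rd_add hd, z3, z1, q4]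
          simp
        have z6 : rd p (V.vol (B.q s₀) (wY ++ tY)) = 0 := by
          rw [vol_append, k2, vY, rd_add hd, rd_add hd, z4, z2, q5]
          simp
        rw [e1, rd_add hd, rd_sub hd, z5, z6, sub_zero, zero_add]
        exact q9

end Pool.Agent.Lib.MP_688fd0_co.SQ3.Small
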