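import Pool.Agent.Lib.MP_688fd0_co.SQ3.Small.Iface

/-!
Row BW: two blocks, traversed alternately. (helper39)
-/

set_option autoImplicit false

namespace Pool.Agent.Lib.MP_688fd0_co.SQ3.Small

open Pool.Agent.Lib.MP_688fd0_co.OSF Pool.Agent.Lib.MP_688fd0_co.SQ2

universe u v w

section

variable {Q : Type u} [Group Q] {B : Lb.{u, v} Q} {R : Type w} [CommRing R] (V : Vd B R)

theorem ev_append_cons (x : Q × R) (l l' : List B.L) (g : B.L) :
    ev V x (l ++ g :: l') = ev V x l ++ ev V (ef V x (l ++ [g])) l' := by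
  rw [ev_append, ef_append, ev_eq V x l]
  simp only [ev, ef, List.append_assoc, List.cons_append, List.nil_append]

/-- The alternating walk: `X, s₁, Y, s', X, s₂, Y, s', X, ...`. -/
def altw (lX lY : List B.L) (s' : B.L) : List B.L → List B.L
  | [] => lX
  | s :: ss => lX ++ s :: (lY ++ s' :: altw lX lY s' ss)

theorem ef_xs (x₀ y₀ : Q) (lX lY : List B.L) (s s' : B.L) (h : B.fin x₀ lX * B.q s = y₀) (t : R) :
    ef V (x₀, t) (lX ++ [s]) =
      (y₀, t + V.vol x₀ (lX ++ s :: (lY ++ [s'])) - V.vol y₀ (lY ++ [s'])) := by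
  have e1 : lX ++ s :: (lY ++ [s']) = (lX ++ [s]) ++ (lY ++ [s']) := by simp
  have h1 := ef_eq V (x₀, (0 : R)) ((lX ++ [s]) ++ (lY ++ [s']))
  rw [ef_append, ef_eq, ef_eq] at h1
  have hf : B.fin x₀ (lX ++ [s]) = y₀ := by
    rw [fin_append]; exact h
  simp only [hf, Prod.mk.injEq] at h1
  rw [ef_eq, e1]
  simp only [hf, Prod.mk.injEq, true_and]
  linear_combination h1.2

theorem ef_ys (x₀ y₀ : Q) (lY : List B.L) (s' : B.L) (h : B.fin y₀ lY * B.q s' = x₀) (t : R) :
    ef V (y₀, t - V.vol y₀ (lY ++ [s'])) (lY ++ [s']) = (x₀, t) := by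
  have hf : B.fin y₀ (lY ++ [s']) = x₀ := by
    rw [fin_append]; exact h
  rw [ef_eq]
  simp only [hf, Prod.mk.injEq, true_and]
  ring

theorem altw_ev (x₀ y₀ : Q) (lX lY : List B.L) (s' : B.L) (hs' : B.fin y₀ lY * B.q s' = x₀) :
    ∀ (ss : List B.L), (∀ s ∈ ss, B.fin x₀ lX * B.q s = y₀) → ∀ t : R,
      ev V (y₀, t - V.vol y₀ (lY ++ [s'])) lY ++ ev V (x₀, t) (altw lX lY s' ss) =
        (ss.scanl (fun t s => t + V.vol x₀ (lX ++ s :: (lY ++ [s']))) t).flatMap fun t =>
          ev V (y₀, t - V.vol y₀ (lY ++ [s'])) lY ++ ev V (x₀, t) lX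
  | [], _, t => by simp [altw]
  | s :: ss, h, t => by
    have ih := altw_ev x₀ y₀ lX lY s' hs' ss (fun r hr => h r (List.mem_cons_of_mem _ hr))
      (t + V.vol x₀ (lX ++ s :: (lY ++ [s'])))
    rw [altw, ev_append_cons, ef_xs V x₀ y₀ lX lY s s' (h s List.mem_cons_self), ev_append_cons,
      ef_ys V x₀ y₀ lY s' hs', List.scanl_cons, List.flatMap_cons, ih.symm]
    simp only [List.append_assoc]

end

theorem scanl_map_add {α Γ : Type*} [AddCommMonoid Γ] {R : Type*} [Add R] (f : R → Γ)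
    (hf : ∀ a b, f (a + b) = f a + f b) (d : α → R) : ∀ (l : List α) (t : R),
    (l.scanl (fun t s => t + d s) t).map f = (l.map fun s => f (d s)).scanl (fun x y => x + y) (f t)
  | [], t => by simp
  | a :: l, t => by
    rw [List.scanl_cons, List.map_cons, List.map_cons, List.scanl_cons, scanl_map_add f hf d l, hf]

theorem bw (h : HsS) : BwS := by
  intro Q _ B R _ _ V H x₀ y₀ lX lY S s' hX hY hX2 hY2 hXY hcov hS hs' hK
  -- the quotient
  have hfin : Finite (R ⧸ H) := Finite.of_surjective (QuotientAddGroup.mk' H)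
    (QuotientAddGroup.mk'_surjective H)
  set d : B.L → R := fun s => V.vol x₀ (lX ++ s :: (lY ++ [s'])) with hd
  set S' : Set (R ⧸ H) := (fun s => QuotientAddGroup.mk' H (d s)) '' S with hS'
  have hcl : AddSubgroup.closure S' = ⊤ := by
    have h1 := hK ((AddSubgroup.closure S').comap (QuotientAddGroup.mk' H)) (by
      intro r hr
      rw [AddSubgroup.mem_comap]
      have : QuotientAddGroup.mk' H r = 0 := (QuotientAddGroup.eq_zero_iff r).2 hr
      rw [this]; exact AddSubgroup.zero_mem _) (fun s hs => by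
      rw [AddSubgroup.mem_comap]
      exact AddSubgroup.subset_closure ⟨s, hs, rfl⟩)
    rw [eq_top_iff]
    intro y _
    obtain ⟨r, rfl⟩ := QuotientAddGroup.mk'_surjective H y
    have : r ∈ (AddSubgroup.closure S').comap (QuotientAddGroup.mk' H) := by rw [h1]; trivial
    exact this
  obtain ⟨l, hl1, hl2, hl3⟩ := h (R ⧸ H) S' hcl
  -- lift to labels
  have hlift : ∃ ss : List B.L, (∀ s ∈ ss, s ∈ S) ∧
      (ss.map fun s => QuotientAddGroup.mk' H (d s)) = l := by
    clear hl2 hl3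
    induction l with
    | nil => exact ⟨[], by simp, rfl⟩
    | cons a l ih =>
      obtain ⟨ss, h1, h2⟩ := ih (fun x hx => hl1 x (List.mem_cons_of_mem _ hx))
      obtain ⟨s, hs, hsa⟩ := hl1 a List.mem_cons_self
      refine ⟨s :: ss, ?_, ?_⟩
      · intro r hr
        rcases List.mem_cons.1 hr with rfl | hr
        · exact hs
        · exact h1 r hr
      · rw [List.map_cons, h2]; exact congrArg (· :: l) hsa
  obtain ⟨ss, hss, hmap⟩ := hlift
  set ts : List R := ss.scanl (fun t s => t + d s) 0 with hts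
  have hmk : ts.map (QuotientAddGroup.mk' H) = l.scanl (fun x y => x + y) 0 := by
    rw [hts, scanl_map_add (QuotientAddGroup.mk' H) (map_add _) d ss 0, hmap, map_zero]
  set c : R := V.vol y₀ (lY ++ [s']) with hc
  have hpath := altw_ev V x₀ y₀ lX lY s' hs' ss (fun s hs => hS s (hss s hs)) 0
  -- translated blocks
  have tX : ∀ t q r, (q, r) ∈ ev V (x₀, t) lX ↔ (q, r - t) ∈ ev V (x₀, 0) lX := by
    intro t q r
    have e := ev_add V (x₀, (0 : R)) t lX
    simp only [zero_add] at e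
    rw [e, List.mem_map]
    constructor
    · rintro ⟨⟨a, b⟩, hab, he⟩
      simp only [Prod.mk.injEq] at he
      rw [← he.1, ← he.2, add_sub_cancel_right]; exact hab
    · intro hh
      exact ⟨_, hh, by simp⟩
  have tY : ∀ t q r, (q, r) ∈ ev V (y₀, t) lY ↔ (q, r - t) ∈ ev V (y₀, 0) lY := by
    intro t q r
    have e := ev_add V (y₀, (0 : R)) t lY
    simp only [zero_add] at e
    rw [e, List.mem_map]
    constructor
    · rintro ⟨⟨a, b⟩, hab, he⟩
      simp only [Prod.mk.injEq] at he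
      rw [← he.1, ← he.2, add_sub_cancel_right]; exact hab
    · intro hh
      exact ⟨_, hh, by simp⟩
  have nX : ∀ t, (ev V (x₀, t) lX).Nodup := by
    intro t
    have e := ev_add V (x₀, (0 : R)) t lX
    simp only [zero_add] at e
    rw [e]
    refine hX.map ?_
    rintro ⟨a, b⟩ ⟨a', b'⟩ hab
    simpa using hab
  have nY : ∀ t, (ev V (y₀, t) lY).Nodup := by
    intro t
    have e := ev_add V (y₀, (0 : R)) t lY
    simp only [zero_add] at e
    rw [e]
    refine hY.map ?_
    rintro ⟨a, b⟩ ⟨a', b'⟩ hab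
    simpa using hab
  -- no vertex in two blocks with different translations
  have dX : ∀ t t' q r, (q, r) ∈ ev V (x₀, t) lX → (q, r) ∈ ev V (x₀, t') lX →
      QuotientAddGroup.mk' H t = QuotientAddGroup.mk' H t' := by
    intro t t' q r h1 h2
    rw [tX] at h1 h2
    have h3 : (q, (r - t) + (t - t')) ∈ ev V (x₀, 0) lX := by
      rw [sub_add_sub_cancel]; exact h2
    have h4 := (hX2 q (r - t) (t - t') h1).1 h3
    have h5 : QuotientAddGroup.mk' H (t - t') = 0 := (QuotientAddGroup.eq_zero_iff _).2 h4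
    rw [map_sub, sub_eq_zero] at h5
    exact h5
  have dY : ∀ t t' q r, (q, r) ∈ ev V (y₀, t - c) lY → (q, r) ∈ ev V (y₀, t' - c) lY →
      QuotientAddGroup.mk' H t = QuotientAddGroup.mk' H t' := by
    intro t t' q r h1 h2
    rw [tY] at h1 h2
    have h3 : (q, (r - (t - c)) + (t - t')) ∈ ev V (y₀, 0) lY := by
      have : r - (t - c) + (t - t') = r - (t' - c) := by ring
      rw [this]; exact h2
    have h4 := (hY2 q _ (t - t') h1).1 h3
    have h5 : QuotientAddGroup.mk' H (t - t') = 0 := (QuotientAddGroup.eq_zero_iff _).2 h4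
    rw [map_sub, sub_eq_zero] at h5
    exact h5
  have dXY : ∀ t t' q r, (q, r) ∈ ev V (x₀, t) lX → (q, r) ∈ ev V (y₀, t') lY → False := by
    intro t t' q r h1 h2
    rw [tX] at h1
    rw [tY] at h2
    exact hXY _ _ _ h1 h2
  refine ⟨(y₀, 0 - c), lY ++ s' :: altw lX lY s' ss, ?_, ?_⟩
  · rw [ev_append_cons, hc, ef_ys V x₀ y₀ lY s' hs', hpath, ← hc, List.nodup_flatMap]
    constructor
    · intro t _
      rw [List.nodup_append]
      refine ⟨nY _, nX _, ?_⟩
      rintro ⟨q, r⟩ h1 b h2 rfl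
      exact dXY _ _ _ _ h2 h1
    · have hnd : (ts.map (QuotientAddGroup.mk' H)).Nodup := by rw [hmk]; exact hl2
      rw [List.Nodup, List.pairwise_map] at hnd
      refine hnd.imp ?_
      intro t t' htt
      rw [Function.onFun, List.disjoint_left]
      rintro ⟨q, r⟩ h1 h2
      rw [List.mem_append] at h1 h2
      rcases h1 with h1 | h1 <;> rcases h2 with h2 | h2
      · exact htt (dY _ _ _ _ h1 h2)
      · exact dXY _ _ _ _ h2 h1
      · exact dXY _ _ _ _ h1 h2
      · exact htt (dX _ _ _ _ h1 h2)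
  · rintro ⟨q, r⟩
    rw [ev_append_cons, hc, ef_ys V x₀ y₀ lY s' hs', hpath, ← hc, List.mem_flatMap]
    have hex : ∀ u : R, ∃ t ∈ ts, t - u ∈ H := by
      intro u
      have h1 := hl3 (QuotientAddGroup.mk' H u)
      rw [← hmk, List.mem_map] at h1
      obtain ⟨t, ht, he⟩ := h1
      refine ⟨t, ht, (QuotientAddGroup.eq_zero_iff _).1 ?_⟩
      have : QuotientAddGroup.mk' H (t - u) = 0 := by rw [map_sub, he, sub_self]
      exact this
    obtain ⟨r₀, h1 | h1⟩ := hcov q
    · obtain ⟨t, ht, hH⟩ := hex (r - r₀)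
      refine ⟨t, ht, List.mem_append_right _ ?_⟩
      rw [tX]
      have : r - t = r₀ + -(t - (r - r₀)) := by ring
      rw [this]
      exact (hX2 q r₀ _ h1).2 (H.neg_mem hH)
    · obtain ⟨t, ht, hH⟩ := hex (r - r₀ + c)
      refine ⟨t, ht, List.mem_append_left _ ?_⟩
      rw [tY]
      have : r - (t - c) = r₀ + -(t - (r - r₀ + c)) := by ring
      rw [this]
      exact (hY2 q r₀ _ h1).2 (H.neg_mem hH)

end Pool.Agent.Lib.MP_688fd0_co.SQ3.Small
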