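import Pool.Agent.Lib.MP_688fd0_co.SQ3.Small.Sq
import Pool.Agent.Lib.MP_688fd0_co.SQ3.H94.Front

/-!
S-CN1: the context of the case of one line.
-/

set_option autoImplicit false

namespace Pool.Agent.Lib.MP_688fd0_co.SQ3.Small

open Pool.Agent.Lib.MP_688fd0_co.OSF Pool.Agent.Lib.MP_688fd0_co.SQ2
open Subgroup (zpowers)

namespace Cn1

section

variable {Q : Type} [Group Q] {B : Lb.{0, 0} Q} {a : B.L} {eps : Q →* ℤˣ} {D : Subgroup Q} {z : Q} {k : ℕ}

/-- A position on the line. -/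
theorem pos (H : Hyp B a eps D z k) (hall : ∀ v : Q, v ∈ zpowers (B.q a)) {x s : Q} (hs : s ≠ x) :
    ∃ e : ℕ, 0 < e ∧ e < orderOf (B.q a) ∧ (H.up.U ^ e) x = s := by
  have := H.fin
  obtain ⟨t, ht⟩ := (line_iff H x s).1 (hall _)
  have h1 : (H.up.U ^ (t % orderOf (B.q a))) x = s := by
    rw [ht]
    conv_rhs => rw [← Nat.mod_add_div t (orderOf (B.q a)), H.up.U_pow_add]
    exact ((up_fix H _ _).2 (dvd_mul_right _ _)).symm
  refine ⟨t % orderOf (B.q a), Nat.pos_of_ne_zero fun h => ?_, Nat.mod_lt _ (orderOf_pos _), h1⟩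
  rw [h, pow_zero] at h1
  exact hs h1.symm

end

end Cn1

open Cn1

theorem cn1 : CN1S := by
  intro Q _ B a eps D z k c W H hSi hSe hLe hlam hidx hev hodd hR
  have hfin := H.fin
  have hall : ∀ v : Q, v ∈ zpowers (B.q a) := fun v => by rw [Subgroup.index_eq_one.1 hidx]; trivial
  have hcomm : ∀ u v : Q, u * v = v * u := by
    intro u v
    obtain ⟨i, rfl⟩ := Subgroup.mem_zpowers_iff.1 (hall u)
    obtain ⟨j, rfl⟩ := Subgroup.mem_zpowers_iff.1 (hall v)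
    exact ((Commute.refl _).zpow_zpow i j).eq
  have heps : ∀ v : Q, eps v = 1 := by
    intro v
    obtain ⟨i, rfl⟩ := Subgroup.mem_zpowers_iff.1 (hall v)
    rw [map_zpow, H.ea, one_zpow]
  -- the order of `A`
  have hM : Nat.card Q = orderOf (B.q a) := by
    rw [← Nat.card_zpowers, Subgroup.index_eq_one.1 hidx, Subgroup.card_top]
  set M := orderOf (B.q a) with hMdef
  rw [hM] at hev
  obtain ⟨N, hN⟩ := hev
  have hM0 : 0 < M := orderOf_pos _
  have hN0 : 0 < N := by omega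
  -- the involution
  set τ : Q := B.q a ^ N with hτ
  have hτ2 : τ * τ = 1 := by
    rw [hτ, ← pow_add, ← hN]
    exact pow_orderOf_eq_one _
  have hτD : τ ∈ D := by
    set r := orderOf z with hr
    -- `A ^ r ∈ D`
    have h1 : B.q a ^ r ∈ D := by
      have h2 : B.q a = z * (z⁻¹ * B.q a) := (mul_inv_cancel_left _ _).symm
      have h3 : Commute z (z⁻¹ * B.q a) := hcomm _ _
      rw [h2, h3.mul_pow, pow_orderOf_eq_one, one_mul]
      exact pow_mem H.mem r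
    -- `r N = N + M s`
    obtain ⟨s, hs⟩ := hodd
    have h2 : (B.q a ^ r) ^ N = τ := by
      rw [← pow_mul, hs]
      have h3 : (2 * s + 1) * N = N + M * s := by rw [hN]; ring
      rw [h3, pow_add, pow_mul, pow_orderOf_eq_one, one_pow, mul_one]
    rw [← h2]
    exact pow_mem h1 N
  -- involutions
  have hinv : ∀ v : Q, v * v = 1 → v = 1 ∨ v = τ := by
    intro v hv
    obtain ⟨n, hn, rfl⟩ : ∃ n : ℕ, n < M ∧ B.q a ^ n = v := by
      obtain ⟨n, hn⟩ := (isOfFinOrder_of_finite (B.q a)).mem_powers_iff_mem_zpowers.2 (hall v)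
      exact ⟨n % M, Nat.mod_lt _ hM0, by rw [← hn]; exact pow_mod_orderOf _ _⟩
    rw [← pow_add] at hv
    have h1 : M ∣ n + n := orderOf_dvd_of_pow_eq_one hv
    obtain ⟨q, hq⟩ := h1
    have hq2 : q < 2 := by
      by_contra h
      push Not at h
      have : M * 2 ≤ M * q := Nat.mul_le_mul_left _ h
      omega
    interval_cases q
    · left
      have : n = 0 := by omega
      rw [this, pow_zero]
    · right
      have : n = N := by omega
      rw [this]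
  -- the label
  obtain ⟨b, hb₁, hb₂, hb₃⟩ : ∃ b, B.q b ≠ B.q a ∧ B.q b ≠ (B.q a)⁻¹ ∧
      ∀ i : ℤ, |i| ≤ 1 → B.q b ≠ B.q a ^ i * τ := by
    by_contra hcon
    push Not at hcon
    refine hR ⟨τ, hτ2, fun b => ?_⟩
    by_cases h1 : B.q b = B.q a
    · exact Or.inl h1
    · by_cases h2 : B.q b = (B.q a)⁻¹
      · exact Or.inr (Or.inl h2)
      · exact Or.inr (Or.inr (hcon b h1 h2))
  have hW := (lam_ge _ _ _).trans hlam
  have hcW : 10 * c + 10 * k ≤ W := by unfold hgt at hW; omega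
  -- the frontier
  obtain ⟨F, hfr, hxF, hsh, -, hFc⟩ := H94.one_front H c W hSe (by omega) 1
  -- strands
  obtain ⟨o₁, ho₁, hm₁⟩ := hsh [b] (by simp)
  obtain ⟨o₂, ho₂, hm₂⟩ := hsh [B.inv b] (by simp)
  have e₁ : B.fin 1 [b] = B.q b := one_mul _
  have e₂ : B.fin 1 [B.inv b] = (B.q b)⁻¹ := by
    show 1 * B.q (B.inv b) = _
    rw [one_mul, B.q_inv]
  rw [e₁] at hm₁
  rw [e₂] at hm₂
  have hU : ∀ (v : Q) (o : ℤ), (H.up.U ^ o) v = v * B.q a ^ o := by
    intro v o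
    rw [H.zpow_eq, heps, Units.val_one, one_mul]
  have hns : ∀ o : ℤ, |o| ≤ c → B.q b ≠ B.q a ^ o := fun o ho =>
    not_small hSi b hb₁ hb₂ o (by omega)
  obtain ⟨y, hy⟩ : ∃ y : Q, y = (H.up.U ^ o₁) (B.q b) := ⟨_, rfl⟩
  obtain ⟨y', hy'⟩ : ∃ y' : Q, y' = (H.up.U ^ o₂) (B.q b)⁻¹ := ⟨_, rfl⟩
  rw [← hy] at hm₁
  rw [← hy'] at hm₂
  have hy1 : y ≠ 1 := by
    intro h
    rw [hy, hU] at h
    apply hns (-o₁) (by rw [abs_neg]; exact ho₁)
    rw [zpow_neg]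
    exact eq_inv_of_mul_eq_one_left h
  have hy1' : y' ≠ 1 := by
    intro h
    rw [hy', hU] at h
    apply hns o₂ ho₂
    have := inv_mul_eq_one.1 h
    exact this
  have hyy : y ≠ y' := by
    intro h
    rw [hy, hy', hU, hU] at h
    -- `b² = A ^ i`
    obtain ⟨i, hi, hi2⟩ : ∃ i : ℤ, |i| ≤ 2 * c ∧ B.q b * B.q b = B.q a ^ i := by
      refine ⟨o₂ - o₁, ?_, ?_⟩
      · have := abs_le.1 ho₁
        have := abs_le.1 ho₂
        exact abs_le.2 ⟨by omega, by omega⟩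
      · rw [zpow_sub, eq_mul_inv_iff_mul_eq, mul_assoc, h, mul_inv_cancel_left]
    obtain ⟨β, hβ⟩ := Subgroup.mem_zpowers_iff.1 (hall (B.q b))
    rcases Int.even_or_odd i with ⟨j, hj⟩ | ⟨j, hj⟩
    · -- even
      have h1 : (B.q b * B.q a ^ (-j)) * (B.q b * B.q a ^ (-j)) = 1 := by
        have h2 : (B.q b * B.q a ^ (-j)) * (B.q b * B.q a ^ (-j)) =
            (B.q b * B.q b) * (B.q a ^ (-j) * B.q a ^ (-j)) := by
          rw [mul_assoc, mul_assoc, ← mul_assoc (B.q a ^ (-j)), hcomm (B.q a ^ (-j)) (B.q b)]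
          simp only [mul_assoc]
        rw [h2, hi2, ← zpow_add, ← zpow_add, hj]
        have : j + j + (-j + -j) = 0 := by ring
        rw [this, zpow_zero]
      have hj' : |j| ≤ c := by
        rw [hj] at hi
        have := abs_le.1 hi
        exact abs_le.2 ⟨by omega, by omega⟩
      rcases hinv _ h1 with h3 | h3
      · apply hns j hj'
        rw [zpow_neg, mul_inv_eq_one] at h3
        exact h3
      · have h4 : B.q b = B.q a ^ j * τ := by
          rw [← h3, hcomm (B.q b), zpow_neg, mul_inv_cancel_left]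
        by_cases hj1 : |j| ≤ 1
        · exact hb₃ j hj1 h4
        · refine hSi b j (by omega) (by omega) ?_
          rw [h4, inv_mul_cancel_left]
          exact hτD
    · -- odd
      rw [← hβ, ← zpow_add] at hi2
      have h1 : B.q a ^ (β + β - i) = 1 := by rw [zpow_sub, hi2, mul_inv_cancel]
      have h2 : (M : ℤ) ∣ β + β - i := orderOf_dvd_iff_zpow_eq_one.2 h1
      obtain ⟨q, hq⟩ := h2
      rw [hN, hj] at hq
      have h3 : β + β - (2 * j + 1) = 2 * (N * q) := by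
        rw [hq]; push_cast; ring
      omega
  -- positions
  obtain ⟨e, he0, heM, hey⟩ := pos H hall (x := (1 : Q)) hy1
  obtain ⟨e', he0', heM', hey'⟩ := pos H hall (x := (1 : Q)) hy1'
  have hee : e ≠ e' := by
    intro h
    rw [h, hey'] at hey
    exact hyy hey.symm
  have hcomb : ∀ b : B.L, Com H.up b := by
    intro b v
    have h1 : ∀ v, H.up.U v = v * B.q a := fun v => by
      have := hU v 1
      rw [zpow_one, zpow_one] at this
      exact this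
    rw [h1, h1, mul_assoc, hcomm (B.q b), mul_assoc]
  have hlv₁ : (1 : Q) * B.q b = (H.up.U ^ (-o₁)) y := by
    rw [one_mul, hy, H.up.zneg]
  have hlv₂ : (1 : Q) * B.q (B.inv b) = (H.up.U ^ (-o₂)) y' := by
    rw [one_mul, hy', H.up.zneg, B.q_inv]
  have key : ∀ (s₁ s₂ : Q) (b₁ b₂ : B.L) (o o' : ℤ) (d₁ d₂ : ℕ), s₁ ∈ F → s₂ ∈ F → s₁ ≠ 1 → s₂ ≠ 1 → s₂ ≠ s₁ →
      |o| ≤ c → |o'| ≤ c → (1 : Q) * B.q b₁ = (H.up.U ^ o) s₁ → (1 : Q) * B.q b₂ = (H.up.U ^ o') s₂ → 0 < d₁ →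
      d₁ < d₂ → d₂ < M → (H.up.U ^ d₁) 1 = s₂ → (H.up.U ^ d₂) 1 = s₁ →
      ∃ (x s₁ s₂ : Q) (b₁ b₂ : B.L) (F : Finset Q) (d₁ d₂ : ℕ), F.card ≤ (Nat.card B.L + 2) ^ 4 * k ∧
      SCtx B a H.up D k c W x s₁ s₂ b₁ b₂ 0 F ∧ Pos1 B a H.up x s₁ s₂ d₁ d₂ := by
    intro s₁ s₂ b₁ b₂ o o' d₁ d₂ h1 h2 h3 h4 h5 h6 h7 h8 h9 h10 h11 h12 h13 h14
    refine ⟨1, s₁, s₂, b₁, b₂, F, d₁, d₂, hFc, ⟨hSi, hSe, hLe, (lam_mono hFc).trans hlam, hfr, hxF, hsh, H.kpos,
      ⟨h1, h2, ⟨o, h6, h8⟩, ⟨o', by push_cast; omega, ?_⟩⟩, h3, h4, h5⟩, ⟨hcomb, h10, h11, h12, h13, h14⟩⟩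
    rw [pow_zero]
    exact h9
  rcases Nat.lt_or_gt_of_ne hee with h | h
  · exact key y' y (B.inv b) b (-o₂) (-o₁) e e' hm₂ hm₁ hy1' hy1 hyy (by rw [abs_neg]; exact ho₂)
      (by rw [abs_neg]; exact ho₁) hlv₂ hlv₁ he0 h heM' hey hey'
  · exact key y y' b (B.inv b) (-o₁) (-o₂) e' e hm₁ hm₂ hy1 hy1' hyy.symm (by rw [abs_neg]; exact ho₁)
      (by rw [abs_neg]; exact ho₂) hlv₁ hlv₂ he0' h heM hey' hey

end Pool.Agent.Lib.MP_688fd0_co.SQ3.Small
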