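import Pool.Agent.Lib.MP_688fd0_co.SQ3.Small.IfaceS
import Pool.Agent.Lib.MP_688fd0_co.SQ3.H94.Front
import Pool.Agent.Lib.MP_688fd0_co.SQ3.H23.HeartA
import Pool.Agent.Lib.MP_688fd0_co.SQ2.H23.HeartA

/-!
S-CN2: the context of the case 2 (two lines, all labels commute with `U`, a far label in the group of the lines).
-/

set_option autoImplicit false

namespace Pool.Agent.Lib.MP_688fd0_co.SQ3.Small

open Pool.Agent.Lib.MP_688fd0_co.OSF Pool.Agent.Lib.MP_688fd0_co.SQ2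
open Subgroup (zpowers)

theorem cn2 : CN2S := by
  intro Q _ B a eps D z k c W H hSi hSe hLe hlam hidx hcm hfar
  classical
  have hfin : Finite Q := H.fin
  have hcW : 10 * c + 10 * k ≤ W := by
    have h1 := (lam_ge ((Nat.card B.L + 2) ^ 4 * k) k c).trans hlam
    unfold hgt at h1
    omega
  -- an outside label
  have hout : ∃ b₁ : B.L, B.q b₁ ∉ zpowers (B.q a) := by
    by_contra hcon
    push Not at hcon
    have h1 : (⊤ : Subgroup Q) ≤ zpowers (B.q a) := by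
      rw [← H.gen, Subgroup.closure_le]
      rintro _ ⟨b, rfl⟩
      exact hcon b
    rw [top_le_iff] at h1
    rw [h1, Subgroup.index_top] at hidx
    omega
  obtain ⟨b₁, hb₁⟩ := hout
  obtain ⟨b₂, hb₂, n₁, n₂⟩ := hfar
  -- eps is one inside
  have heps : ∀ y ∈ zpowers (B.q a), eps y = 1 := by
    rintro y ⟨n, rfl⟩
    show eps (B.q a ^ n) = 1
    rw [map_zpow, H.ea, one_zpow]
  -- all labels commute
  have hcom : ∀ b : B.L, Com H.up b := by
    intro b y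
    have h1 : (B.q b)⁻¹ * B.q a * B.q b = B.q a ^ ((eps (B.q b) : ℤˣ) : ℤ) := by
      by_cases hb : B.q b ∈ zpowers (B.q a)
      · obtain ⟨n, hn⟩ := hb
        have hn : B.q a ^ n = B.q b := hn
        rw [heps _ ⟨n, hn⟩, ← hn, Units.val_one, zpow_one]
        group
      · exact hcm b hb
    have h2 : ∀ n : ℤ, (B.q b)⁻¹ * B.q a ^ n * B.q b = B.q a ^ (((eps (B.q b) : ℤˣ) : ℤ) * n) := by
      intro n
      rw [zpow_mul, ← h1]
      have h3 := (conj_zpow (a := (B.q b)⁻¹) (b := B.q a) (i := n)).symm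
      rw [inv_inv] at h3
      exact h3
    rw [H.U_def, H.U_def, map_mul, Units.val_mul, mul_comm ((eps y : ℤˣ) : ℤ), ← h2]
    group
  obtain ⟨F, hF, h1F, hsh, -, hcard⟩ := H94.one_front H c W hSe (by omega) 1
  obtain ⟨o₁, ho₁, hs₁⟩ := hsh [b₁] (by simp)
  obtain ⟨o₂, ho₂, hs₂⟩ := hsh [b₂] (by simp)
  have f₁ : B.fin 1 [b₁] = 1 * B.q b₁ := rfl
  have f₂ : B.fin 1 [b₂] = 1 * B.q b₂ := rfl
  rw [f₁] at hs₁
  rw [f₂] at hs₂
  have neg : ∀ (o : ℤ) (y : Q), (H.up.U ^ (-o)) ((H.up.U ^ o) y) = y := by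
    intro o y
    rw [← H94.U_zpow_add, add_neg_cancel, zpow_zero]; rfl
  set s₁ := (H.up.U ^ o₁) (1 * B.q b₁) with hs₁d
  set s₂ := (H.up.U ^ o₂) (1 * B.q b₂) with hs₂d
  have e₁ : s₁ = B.q b₁ * B.q a ^ (((eps (B.q b₁) : ℤˣ) : ℤ) * o₁) := by
    rw [hs₁d, H.U_zpow, one_mul]
  have e₂ : s₂ = B.q b₂ * B.q a ^ o₂ := by
    rw [hs₂d, H.U_zpow, one_mul, heps _ hb₂, Units.val_one, one_mul]
  have out₁ : s₁ ∉ zpowers (B.q a) := by
    intro h
    rw [e₁] at h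
    exact hb₁ ((Subgroup.mul_mem_cancel_right _ (Subgroup.zpow_mem_zpowers _ _)).1 h)
  have in₂ : s₂ ∈ zpowers (B.q a) := by
    rw [e₂]
    exact Subgroup.mul_mem _ hb₂ (Subgroup.zpow_mem_zpowers _ _)
  have ne₂ : s₂ ≠ 1 := by
    intro h
    rw [e₂] at h
    have h1 : B.q b₂ = B.q a ^ (-o₂) := by
      rw [zpow_neg]
      exact eq_inv_of_mul_eq_one_left h
    refine not_small hSi b₂ n₁ n₂ (-o₂) ?_ h1
    rw [abs_neg]
    omega
  obtain ⟨d, hd, hd'⟩ : ∃ d : ℕ, d < orderOf (B.q a) ∧ B.q a ^ d = s₂ := by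
    have h1 := (mem_zpowers_iff_mem_range_orderOf (x := B.q a) (y := s₂)).1 in₂
    obtain ⟨d, hd, h2⟩ := Finset.mem_image.1 h1
    exact ⟨d, Finset.mem_range.1 hd, h2⟩
  refine ⟨1, s₁, s₂, b₁, b₂, F, d, hcard, ?_, ?_⟩
  · refine ⟨hSi, hSe, hLe, (lam_mono hcard).trans hlam, hF, h1F, hsh, H.kpos, ⟨hs₁, hs₂, ⟨-o₁, ?_, ?_⟩, ⟨-o₂, ?_, ?_⟩⟩,
      ?_, ne₂, ?_⟩
    · rw [abs_neg]; exact ho₁
    · rw [hs₁d, neg]
    · rw [abs_neg]; push_cast; omega
    · rw [hs₂d, neg, pow_zero]; rfl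
    · intro h
      exact out₁ (by rw [h]; exact Subgroup.one_mem _)
    · intro h
      exact out₁ (by rw [← h]; exact in₂)
  · refine ⟨hcom, ?_, hb₂, n₁, n₂, ?_, hd, ?_⟩
    · rw [inv_one, one_mul]; exact out₁
    · rcases Nat.eq_zero_or_pos d with h | h
      · exfalso
        rw [h, pow_zero] at hd'
        exact ne₂ hd'.symm
      · exact h
    · rw [H.U_pow, one_mul, map_one, Units.val_one, one_mul, zpow_natCast, hd']

end Pool.Agent.Lib.MP_688fd0_co.SQ3.Small
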