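import Pool.Agent.Lib.MP_688fd0_co.SQ3.Small.IfaceS
import Pool.Agent.Lib.MP_688fd0_co.SQ3.H94.Front
import Pool.Agent.Lib.MP_688fd0_co.SQ3.H23.HeartA

/-!
S-CN3: the context of the third case (two lines, the centre has two neighbours on the other line).
-/

set_option autoImplicit false

namespace Pool.Agent.Lib.MP_688fd0_co.SQ3.Small

open Pool.Agent.Lib.MP_688fd0_co.OSF Pool.Agent.Lib.MP_688fd0_co.SQ2
open Subgroup (zpowers)

namespace Cn3

theorem Rng.sh {Q : Type} [Group Q] {B : Lb.{0, 0} Q} {U : Up B} {c : ℕ} {s s' : Q} (h : Rng U c s s') (t : ℤ) :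
    Rng U c ((U.U ^ t) s) ((U.U ^ t) s') := by
  obtain ⟨m, b, o, ho, he⟩ := h
  refine ⟨m - t, b, o, ho, ?_⟩
  rw [← U.zadd, ← U.zadd, sub_add_cancel, show m - t + o + t = m + o by ring]
  exact he

theorem mem_im_z {Q : Type} [Group Q] {B : Lb.{0, 0} Q} {U : Up B} {m : ℤ} {F : Finset Q} {s : Q} :
    s ∈ im (U.U ^ m) F ↔ (U.U ^ (-m)) s ∈ F := by
  rw [mem_im, zpow_neg]

section

variable {Q : Type} [Group Q] {B : Lb.{0, 0} Q} {a : B.L} {eps : Q →* ℤˣ} {D : Subgroup Q} {z : Q}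
  {k c W : ℕ} (H : Hyp B a eps D z k) {F : Finset Q} {x : Q}

/-- The next strand: the change of the level does not depend on the level. -/
theorem next' (hF : Fr H.up D W F) {s y : Q} {t : ℤ}
    (hs : Ats H.up D s y t) (b : Q) (hy : ∃ o : ℤ, |o| ≤ c ∧ (H.up.U ^ o) (y * b) ∈ F) :
    ∃ o : ℤ, |o| ≤ c + |t| ∧ ∀ n : ℤ, ∃ s' ∈ F, ∃ t' : ℤ, |t'| ≤ c ∧
      (H.up.U ^ n) s * b = (H.up.U ^ (n + o)) s' ∧ Ats H.up D s' (y * b) t' := by
  have := H.nrm
  obtain ⟨o', ho', hm⟩ := hy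
  have h2 : QuotientGroup.mk' D y = QuotientGroup.mk' D z ^ t * QuotientGroup.mk' D s := by
    rw [← H.dat.mk_zpow]
    exact Up.Dat.mk_iff.1 hs
  refine ⟨-(o' + t), ?_, fun n => ?_⟩
  · rw [abs_neg]
    calc |o' + t| ≤ |o'| + |t| := abs_add_le _ _
      _ ≤ c + |t| := by omega
  set s' : Q := (H.up.U ^ (o' + t - n)) ((H.up.U ^ n) s * b) with hs'
  have h4 : QuotientGroup.mk' D ((H.up.U ^ o') (y * b)) = QuotientGroup.mk' D s' := by
    rw [hs', H.dat.mk_zpow, H.dat.mk_zpow, map_mul, map_mul, H.dat.mk_zpow, h2]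
    generalize QuotientGroup.mk' D z = Z
    generalize QuotientGroup.mk' D s = S
    generalize QuotientGroup.mk' D b = T
    have e1 : Z ^ (o' + t - n) * (Z ^ n * S * T) = Z ^ (o' + t - n + n) * (S * T) := by
      rw [zpow_add]; group
    rw [e1, sub_add_cancel, zpow_add]
    group
  have h5 : s' ∈ F := by
    have h6 := hF.inv _ hm _ (Up.Dat.mk_iff.2 h4)
    rwa [mul_inv_cancel_left] at h6
  refine ⟨s', h5, -o', by rw [abs_neg]; exact ho', ?_, ?_⟩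
  · rw [hs']
    have e1 : n + -(o' + t) = -(o' + t - n) := by ring
    rw [e1, H.up.zneg]
  · show (y * b)⁻¹ * (H.up.U ^ (-o')) s' ∈ D
    rw [Up.Dat.mk_iff, H.dat.mk_zpow, ← h4, H.dat.mk_zpow, ← mul_assoc, ← zpow_add, neg_add_cancel, zpow_zero,
      one_mul]

/-- A frontier around `x`. -/
structure FD (H : Hyp B a eps D z k) (c W : ℕ) (F : Finset Q) (x : Q) : Prop where
  fr : Fr H.up D W F
  fx : x ∈ F
  fsh : ∀ l : List B.L, l.length ≤ 4 → ∃ o : ℤ, |o| ≤ c ∧ (H.up.U ^ o) (B.fin x l) ∈ F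

variable {H}

theorem FD.dep_x (C : FD H c W F x) : Dep H.up D F x c 0 x := by
  refine ⟨C.fx, [], le_rfl, 0, by simp, ?_⟩
  show x⁻¹ * (H.up.U ^ (0 : ℤ)) x ∈ D
  rw [H.up.zero, inv_mul_cancel]
  exact D.one_mem

theorem FD.step (C : FD H c W F x) {n : ℕ} {s : Q} (hs : Dep H.up D F x c n s) (hn : n + 1 ≤ 4) (b : B.L) :
    ∃ o : ℤ, |o| ≤ 2 * c ∧ ∀ m : ℤ, ∃ s', Dep H.up D F x c (n + 1) s' ∧
      (H.up.U ^ m) s * B.q b = (H.up.U ^ (m + o)) s' := by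
  obtain ⟨-, l, hl, t, ht, hat⟩ := hs
  have hfin : B.fin x (l ++ [b]) = B.fin x l * B.q b := by rw [fin_append]; rfl
  obtain ⟨o, h1, h2⟩ := next' H C.fr hat (B.q b) (by
    obtain ⟨o, h1, h2⟩ := C.fsh (l ++ [b]) (by simp; omega)
    rw [hfin] at h2
    exact ⟨o, h1, h2⟩)
  refine ⟨o, by omega, fun m => ?_⟩
  obtain ⟨s', hs', t', h3, h4, h5⟩ := h2 m
  rw [← hfin] at h5
  exact ⟨s', ⟨hs', l ++ [b], by simp; omega, t', h3, h5⟩, h4⟩

/-- Shift of a frontier. -/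
theorem FD.sh (C : FD H c W F x) (m : ℤ) : FD H c W (im (H.up.U ^ m) F) ((H.up.U ^ m) x) where
  fr := ⟨fun s hs δ hδ => by
      rw [mem_im_z] at hs ⊢
      have h1 := H.dat.sheet (x := s) (y := s * δ) (by rwa [inv_mul_cancel_left]) (-m)
      have h2 := C.fr.inv _ hs _ h1
      rwa [mul_inv_cancel_left] at h2,
    fun s hs t ht h => by
      rw [mem_im_z] at hs h
      refine C.fr.disj _ hs t ht ?_
      rw [← H.up.zadd, add_comm, H.up.zadd]
      exact h⟩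
  fx := map_mem_im.2 C.fx
  fsh := fun l hl => by
    have := H.nrm
    obtain ⟨o, ho, hm⟩ := C.fsh l hl
    refine ⟨o, ho, ?_⟩
    rw [mem_im_z]
    have h1 : QuotientGroup.mk' D ((H.up.U ^ o) (B.fin x l)) =
        QuotientGroup.mk' D ((H.up.U ^ (-m)) ((H.up.U ^ o) (B.fin ((H.up.U ^ m) x) l))) := by
      rw [H.dat.mk_zpow, H.dat.mk_zpow, H.dat.mk_zpow, SQ2.H35.fin_mul x l, SQ2.H35.fin_mul ((H.up.U ^ m) x) l,
        map_mul, map_mul, H.dat.mk_zpow]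
      generalize QuotientGroup.mk' D z = Z
      generalize QuotientGroup.mk' D x = S
      generalize QuotientGroup.mk' D (B.fin 1 l) = T
      have e1 : Z ^ (-m) * (Z ^ o * (Z ^ m * S * T)) = Z ^ (-m + o + m) * (S * T) := by
        rw [zpow_add, zpow_add]; group
      rw [e1]
      congr 2
      ring
    have h2 := C.fr.inv _ hm _ (Up.Dat.mk_iff.2 h1)
    rwa [mul_inv_cancel_left] at h2

/-- Rungs and lines. -/
theorem off_iff {s s' b : Q} {m m' : ℤ} (h : (H.up.U ^ m) s * b = (H.up.U ^ m') s') :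
    s⁻¹ * s' ∈ zpowers (B.q a) ↔ b ∈ zpowers (B.q a) := by
  rw [H.zpow_eq, H.zpow_eq] at h
  have h1 : s⁻¹ * s' = B.q a ^ (((eps s : ℤˣ) : ℤ) * m) * b * (B.q a ^ (((eps s' : ℤˣ) : ℤ) * m'))⁻¹ := by
    rw [eq_mul_inv_iff_mul_eq, mul_assoc s⁻¹, ← h]
    group
  rw [h1, Subgroup.mul_mem_cancel_right _ (inv_mem (Subgroup.zpow_mem_zpowers _ _)),
    Subgroup.mul_mem_cancel_left _ (Subgroup.zpow_mem_zpowers _ _)]

/-- Two neighbours. -/
theorem two (C : FD H c W F 1) (hsep : Sep B a D c W) (hcW : 10 * (c : ℤ) + 10 * k ≤ W)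
    (h : (∃ b, B.q b ∉ zpowers (B.q a) ∧ ¬ Cm B a eps b) ∨
      ((∀ b, B.q b ∉ zpowers (B.q a) → Cm B a eps b) ∧ ∃ b b', B.q b ∉ zpowers (B.q a) ∧
        B.q b' ∉ zpowers (B.q a) ∧ ∀ i : ℤ, |i| ≤ c → B.q b' ≠ B.q a ^ i * B.q b)) :
    ∃ s ∈ F, ∃ s' ∈ F, s ≠ s' ∧ ((1 : Q)⁻¹ * s ∉ zpowers (B.q a) ∧ Rng H.up c 1 s) ∧
      (1 : Q)⁻¹ * s' ∉ zpowers (B.q a) ∧ Rng H.up c 1 s' := by
  rcases h with ⟨b, hb, hnc⟩ | ⟨hC, b, b', hb, hb', hfar⟩
  · obtain ⟨o, ho, hm⟩ := C.step C.dep_x (by omega) b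
    obtain ⟨s, hs, e⟩ := hm 0
    obtain ⟨s', hs', e'⟩ := hm 1
    refine ⟨s, hs.1, s', hs'.1, ?_, ⟨fun h => hb ((off_iff e).1 h), ⟨0, b, o, ho, e⟩⟩,
      fun h => hb ((off_iff e').1 h), ⟨1, b, o, ho, e'⟩⟩
    rintro rfl
    apply hnc
    rw [H.up.zero, one_mul, zero_add] at e
    rw [H.up.zadd, ← e, H.zpow_eq, H.zpow_eq] at e'
    simp only [map_one, one_mul, mul_one, Units.val_one, zpow_one] at e'
    show (B.q b)⁻¹ * B.q a * B.q b = _
    rw [mul_assoc, e', inv_mul_cancel_left]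
  · obtain ⟨o, ho, hm⟩ := C.step C.dep_x (by omega) b
    obtain ⟨o', ho', hm'⟩ := C.step C.dep_x (by omega) b'
    obtain ⟨s, hs, e⟩ := hm 0
    obtain ⟨s', hs', e'⟩ := hm' 0
    refine ⟨s, hs.1, s', hs'.1, ?_, ⟨fun h => hb ((off_iff e).1 h), ⟨0, b, o, ho, e⟩⟩,
      fun h => hb' ((off_iff e').1 h), ⟨0, b', o', ho', e'⟩⟩
    rintro rfl
    rw [H.up.zero, one_mul, zero_add] at e e'
    have h1 : B.q b' = (H.up.U ^ (o' - o)) (B.q b) := by
      rw [e, ← H.up.zadd, sub_add_cancel]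
      exact e'
    have h2 : B.q b' = B.q a ^ (o' - o) * B.q b := by
      have h3 := hC b hb
      unfold Cm at h3
      have h4 : (B.q b)⁻¹ * B.q a ^ (o' - o) * B.q b = B.q a ^ (((eps (B.q b) : ℤˣ) : ℤ) * (o' - o)) := by
        rw [zpow_mul, ← h3]
        have h5 := conj_zpow (i := o' - o) (a := (B.q b)⁻¹) (b := B.q a)
        rw [inv_inv] at h5
        exact h5.symm
      rw [h1, H.zpow_eq, ← h4, mul_assoc, mul_inv_cancel_left]
    have h3 : |o' - o| ≤ 4 * c := by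
      have := abs_le.1 ho
      have := abs_le.1 ho'
      exact abs_le.2 ⟨by omega, by omega⟩
    rcases le_or_gt |o' - o| (c : ℤ) with h4 | h4
    · exact hfar _ h4 h2
    · refine hsep [b', B.inv b] (o' - o) (by simp) h4 (by omega) ?_
      have h5 : B.fin 1 [b', B.inv b] = B.q a ^ (o' - o) := by
        show 1 * B.q b' * B.q (B.inv b) = _
        rw [one_mul, B.q_inv, h2, mul_inv_cancel_right]
      rw [h5, inv_mul_cancel]
      exact D.one_mem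

theorem U_ord (y : Q) : (H.up.U ^ orderOf (B.q a)) y = y := by
  rw [H.U_pow, mul_comm, zpow_mul, zpow_natCast, pow_orderOf_eq_one, one_zpow, mul_one]

/-- The minimal arc. -/
theorem min_arc (hi : (zpowers (B.q a)).index = 2) (P : Q → Prop) (hP : ∀ s, P s → x⁻¹ * s ∉ zpowers (B.q a))
    (h : ∃ s, P s ∧ ∃ s', P s' ∧ s ≠ s') :
    ∃ (s₂ s₁ : Q) (d : ℕ), P s₂ ∧ P s₁ ∧ s₂ ≠ s₁ ∧ 0 < d ∧ (H.up.U ^ d) s₂ = s₁ ∧ 2 * d ≤ orderOf (B.q a) ∧
      ∀ t : ℕ, 0 < t → t < d → ¬ P ((H.up.U ^ t) s₂) := by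
  classical
  have hfin := H.fin
  have hpos : 0 < orderOf (B.q a) := orderOf_pos _
  have hex : ∃ d : ℕ, ∃ s s' : Q, P s ∧ P s' ∧ s ≠ s' ∧ (H.up.U ^ d) s = s' := by
    obtain ⟨s, hs, s', hs', hne⟩ := h
    have h1 : s⁻¹ * s' ∈ zpowers (B.q a) := by
      have h2 := Subgroup.mul_mem_iff_of_index_two hi (a := (x⁻¹ * s)⁻¹) (b := x⁻¹ * s')
      have h3 : (x⁻¹ * s)⁻¹ ∉ zpowers (B.q a) := fun h => hP s hs (inv_mem_iff.1 h)
      have h4 := h2.2 (iff_of_false h3 (hP s' hs'))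
      have e : (x⁻¹ * s)⁻¹ * (x⁻¹ * s') = s⁻¹ * s' := by group
      rwa [e] at h4
    obtain ⟨m, hm⟩ := H.ln_eq (x := s) (y := s') (QuotientGroup.eq.2 h1)
    exact ⟨m, s, s', hs, hs', hne, hm.symm⟩
  obtain ⟨s, s', hs, hs', hne, hd⟩ := Nat.find_spec hex
  have hmin := fun d' (h : d' < Nat.find hex) => Nat.find_min hex h
  set d := Nat.find hex with hdd
  have hmod : ∀ n : ℕ, ∀ y : Q, (H.up.U ^ (n % orderOf (B.q a))) y = (H.up.U ^ n) y := by
    intro n y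
    conv_rhs => rw [← Nat.mod_add_div n (orderOf (B.q a)), pow_add, pow_mul, Equiv.Perm.mul_apply]
    congr 1
    have h1 : ∀ q : ℕ, ((H.up.U ^ orderOf (B.q a)) ^ q) y = y := by
      intro q
      induction q with
      | zero => rfl
      | succ q ih => rw [pow_succ', Equiv.Perm.mul_apply, ih, U_ord]
    exact (h1 _).symm
  have hd0 : 0 < d := by
    rcases Nat.eq_zero_or_pos d with h0 | h0
    · rw [h0, pow_zero] at hd
      exact absurd hd hne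
    · exact h0
  have hlt : d < orderOf (B.q a) := by
    by_contra hge
    push Not at hge
    have h1 : d % orderOf (B.q a) < d := lt_of_lt_of_le (Nat.mod_lt _ hpos) hge
    exact hmin _ h1 ⟨s, s', hs, hs', hne, by rw [hmod]; exact hd⟩
  refine ⟨s, s', d, hs, hs', hne, hd0, hd, ?_, ?_⟩
  · by_contra hgt
    push Not at hgt
    have h1 : orderOf (B.q a) - d < d := by omega
    refine hmin _ h1 ⟨s', s, hs', hs, hne.symm, ?_⟩
    rw [← hd, ← H.up.U_pow_add, Nat.add_sub_cancel' hlt.le, U_ord]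
  · intro t ht0 htd hPt
    refine hmin t htd ⟨s, _, hs, hPt, ?_, rfl⟩
    intro h1
    -- `U ^ t` has a fixed point, so `orderOf` divides `t`
    rw [H.U_pow] at h1
    have h2 : B.q a ^ (((eps s : ℤˣ) : ℤ) * t) = 1 := by
      have h3 : s * B.q a ^ (((eps s : ℤˣ) : ℤ) * t) = s * 1 := by rw [mul_one]; exact h1.symm
      exact mul_left_cancel h3
    have h3 : B.q a ^ (t : ℤ) = 1 := by
      rcases Int.units_eq_one_or (eps s) with h | h
      · rwa [h, Units.val_one, one_mul] at h2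
      · rw [h, Units.val_neg, Units.val_one, neg_one_mul, zpow_neg, inv_eq_one] at h2
        exact h2
    rw [zpow_natCast] at h3
    have h4 := orderOf_dvd_of_pow_eq_one h3
    have := Nat.le_of_dvd ht0 h4
    omega

end

end Cn3

open Cn3 in
theorem cn3 : CN3S := by
  intro Q _ B a eps D z k c W H hsink hsep hlev hlam hi h
  classical
  obtain ⟨F, hF1, hF2, hF3, -, hF5⟩ := H94.one_front H c W hsep (by
    have := (lam_ge _ _ _).trans hlam
    unfold hgt at this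
    omega) 1
  have hlamF : lam F.card k c ≤ W := (lam_mono hF5).trans hlam
  have hcW : 10 * (c : ℤ) + 10 * k ≤ W := by
    have hW : 10000 * (hgt F.card (c + k) + 4 * k + 4) ≤ W := (lam_ge _ _ _).trans hlamF
    have hW2 : 10 * c + 10 * k ≤ W := by unfold hgt at hW; omega
    exact_mod_cast hW2
  have C : FD H c W F 1 := ⟨hF1, hF2, hF3⟩
  obtain ⟨s, hs, s', hs', hne, ⟨h1, h2⟩, h3, h4⟩ := two C hsep hcW h
  obtain ⟨s₂, s₁, d, ⟨hs₂, hl₂, hr₂⟩, ⟨hs₁, hl₁, hr₁⟩, hne', hd0, hd, hhalf, hmin⟩ :=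
    min_arc (H := H) (x := 1) hi (fun s => s ∈ F ∧ (1 : Q)⁻¹ * s ∉ zpowers (B.q a) ∧ Rng H.up c 1 s)
      (fun s hs => hs.2.1) ⟨s, ⟨hs, h1, h2⟩, s', ⟨hs', h3, h4⟩, hne⟩
  obtain ⟨m₁, b₁, o₁, ho₁, he₁⟩ := hr₁
  obtain ⟨m₂, b₂, o₂, ho₂, he₂⟩ := hr₂
  have hb₁ : B.q b₁ ∉ zpowers (B.q a) := fun h => hl₁ ((off_iff he₁).2 h)
  -- the shift
  have C' := C.sh m₁
  have hs₁' : (H.up.U ^ m₁) s₁ ∈ im (H.up.U ^ m₁) F := map_mem_im.2 hs₁
  have hs₂' : (H.up.U ^ m₁) s₂ ∈ im (H.up.U ^ m₁) F := map_mem_im.2 hs₂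
  have he₁' : (H.up.U ^ m₁) 1 * B.q b₁ = (H.up.U ^ o₁) ((H.up.U ^ m₁) s₁) := by
    rw [he₁, ← H.up.zadd, add_comm]
  obtain ⟨j, q, hjk, hjq⟩ := H.level (m₂ - m₁)
  have he₂' : (H.up.U ^ j) ((H.up.U ^ m₁) 1) * B.q b₂ = (H.up.U ^ ((j : ℤ) + o₂)) ((H.up.U ^ m₁) s₂) := by
    have e1 : (H.up.U ^ m₂) (1 : Q) = z ^ ((k : ℤ) * q) * (H.up.U ^ j) ((H.up.U ^ m₁) 1) := by
      rw [← H.per_z, ← zpow_natCast, ← H.up.zadd, ← H.up.zadd]
      congr 2
      linarith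
    have e2 : (H.up.U ^ (m₂ + o₂)) s₂ = z ^ ((k : ℤ) * q) * (H.up.U ^ ((j : ℤ) + o₂)) ((H.up.U ^ m₁) s₂) := by
      rw [← H.per_z, ← H.up.zadd, ← H.up.zadd]
      congr 2
      linarith
    rw [e1, e2, mul_assoc] at he₂
    exact mul_left_cancel he₂
  obtain ⟨r₁, r₂, hL⟩ := leavesU H C'.fr (x := (H.up.U ^ m₁) 1) (b₁ := b₁) (b₂ := b₂) (j := j)
    (by obtain ⟨o, h1, h2⟩ := C'.fsh [b₁] (by simp); exact ⟨o, h1, h2⟩)
    (by obtain ⟨o, h1, h2⟩ := C'.fsh [b₂] (by simp); exact ⟨o, h1, h2⟩)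
  have hr₁ : r₁ = (H.up.U ^ m₁) s₁ := by
    obtain ⟨o, ho, e⟩ := hL.e₁
    refine (C'.fr.eq hL.h₁ hs₁' (e.symm.trans he₁') ?_).2
    have := abs_le.1 ho
    have := abs_le.1 ho₁
    exact abs_le.2 ⟨by omega, by omega⟩
  have hr₂ : r₂ = (H.up.U ^ m₁) s₂ := by
    obtain ⟨o, ho, e⟩ := hL.e₂
    have hj : (j : ℤ) < k := by exact_mod_cast hjk
    refine (C'.fr.eq hL.h₂ hs₂' (e.symm.trans he₂') ?_).2
    have := abs_le.1 ho
    have := abs_le.1 ho₂
    exact abs_le.2 ⟨by omega, by omega⟩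
  rw [hr₁, hr₂] at hL
  -- the strand `u`
  have hdep₂ : Dep H.up D F 1 c 1 s₂ := by
    obtain ⟨o, ho, hm⟩ := C.step C.dep_x (by omega) b₂
    obtain ⟨r, hr, e⟩ := hm m₂
    have h5 := (C.fr.eq hs₂ hr.1 (he₂.symm.trans e) (by
      have := abs_le.1 ho
      have := abs_le.1 ho₂
      exact abs_le.2 ⟨by omega, by omega⟩)).2
    rw [h5]
    exact hr
  obtain ⟨o, ho, hm⟩ := C.step hdep₂ (by omega) (B.inv b₁)
  obtain ⟨u, hu, eu⟩ := hm (m₁ - o)
  have hcard : (im (H.up.U ^ m₁) F).card = F.card := Finset.card_map _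
  have hline : ∀ y : Q, ((H.up.U ^ m₁) 1)⁻¹ * (H.up.U ^ m₁) y ∈ zpowers (B.q a) ↔ (1 : Q)⁻¹ * y ∈ zpowers (B.q a) := by
    intro y
    have e : (H.up.U ^ m₁) (1 : Q) * (((H.up.U ^ m₁) 1)⁻¹ * (H.up.U ^ m₁) y) = (H.up.U ^ m₁) y :=
      mul_inv_cancel_left _ _
    exact (off_iff e).symm
  have hinj : ∀ y y' : Q, (H.up.U ^ m₁) y = (H.up.U ^ m₁) y' → y = y' := fun y y' h =>
    (H.up.U ^ m₁).injective h
  refine ⟨(H.up.U ^ m₁) 1, (H.up.U ^ m₁) s₁, (H.up.U ^ m₁) s₂, (H.up.U ^ m₁) u, b₁, b₂, j, im (H.up.U ^ m₁) F, d,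
    by rw [hcard]; exact hF5, ?_, ?_⟩
  · exact {
      sink := hsink
      sep := hsep
      lev := hlev
      hlam := by rw [hcard]; exact hlamF
      fr := C'.fr
      fx := C'.fx
      fsh := C'.fsh
      j_lt := hjk
      lv := hL
      n₀₁ := fun h => hl₁ (by rw [hinj _ _ h, inv_mul_cancel]; exact one_mem _)
      n₀₂ := fun h => hl₂ (by rw [hinj _ _ h, inv_mul_cancel]; exact one_mem _)
      n₁₂ := fun h => hne' (hinj _ _ h) }
  · exact {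
      l₂ := fun h => hl₂ ((hline _).1 h)
      p₁ := hd0
      h₁ := by
        rw [← zpow_natCast, ← H.up.zadd, add_comm, H.up.zadd, zpow_natCast, hd]
      half := hhalf
      nb := fun s hs hr t ht0 htd he => by
        have hs0 := mem_im_z.1 hs
        have e1 : s = (H.up.U ^ m₁) ((H.up.U ^ (-m₁)) s) := (H.up.zneg' _ _).symm
        have hr' := Rng.sh hr (-m₁)
        rw [H.up.zneg] at hr'
        have e2 : (H.up.U ^ (-m₁)) s = (H.up.U ^ t) s₂ := by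
          rw [he, ← zpow_natCast, ← H.up.zadd, ← H.up.zadd]
          congr 2
          ring
        rw [e2] at hs0 hr'
        refine hmin t ht0 htd ⟨hs0, ?_, hr'⟩
        intro h5
        refine hl₂ ?_
        rw [← zpow_natCast, H.zpow_eq, ← mul_assoc] at h5
        exact (Subgroup.mul_mem_cancel_right _ (Subgroup.zpow_mem_zpowers _ _)).1 h5
      u_mem := map_mem_im.2 hu.1
      u_ne := fun h => by
        have h5 := hinj _ _ h
        rw [h5, B.q_inv, sub_add_cancel, mul_inv_eq_iff_eq_mul, he₁] at eu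
        have h6 := (C.fr.eq hs₂ hs₁ eu (by
          have := abs_le.1 ho
          have := abs_le.1 ho₁
          exact abs_le.2 ⟨by omega, by omega⟩)).2
        exact hne' h6
      u_line := by
        rw [hline]
        have h5 : s₂⁻¹ * u ∉ zpowers (B.q a) := by
          intro h5
          have h6 := (off_iff eu).1 h5
          rw [B.q_inv] at h6
          exact hb₁ (inv_mem_iff.1 h6)
        have h6 := Subgroup.mul_mem_iff_of_index_two hi (a := (1 : Q)⁻¹ * s₂) (b := s₂⁻¹ * u)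
        have h7 := h6.2 (iff_of_false hl₂ h5)
        rwa [mul_assoc, mul_inv_cancel_left] at h7
      u_rng := by
        refine Rng.sh ⟨m₁ - o, B.inv b₁, o, ho, eu⟩ m₁ }

end Pool.Agent.Lib.MP_688fd0_co.SQ3.Small
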