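import Pool.Agent.Lib.MP_688fd0_co.SQ3.Small.Iface

/-!
CR: two crossings at distance `g`.
-/

set_option autoImplicit false

namespace Pool.Agent.Lib.MP_688fd0_co.SQ3.Small

open Pool.Agent.Lib.MP_688fd0_co.OSF Pool.Agent.Lib.MP_688fd0_co.SQ2

namespace CrAux

universe u v

variable {Q : Type u} [Group Q] {B : Lb.{u, v} Q}

theorem fin_rep (a : B.L) (x : Q) (k : ℕ) : B.fin x (List.replicate k a) = x * B.q a ^ k := by
  induction k generalizing x with
  | zero => simp [Lb.fin]
  | succ k ih => rw [List.replicate_succ, Lb.fin, ih, pow_succ', mul_assoc]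

theorem src_rep (a : B.L) (x : Q) (k : ℕ) :
    src B x (List.replicate k a) = (List.range k).map fun i => x * B.q a ^ i := by
  induction k generalizing x with
  | zero => rfl
  | succ k ih =>
    rw [List.replicate_succ, List.range_succ_eq_map, List.map_cons, List.map_map]
    show x :: src B (x * B.q a) (List.replicate k a) = _
    rw [ih, pow_zero, mul_one]
    congr 1
    apply List.map_congr_left
    intro i _
    show x * B.q a * B.q a ^ i = x * B.q a ^ (i + 1)
    rw [pow_succ', mul_assoc]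

theorem vol_app {R : Type*} [CommRing R] (V : Vd B R) (x : Q) (l l' : List B.L) :
    V.vol x (l ++ l') = V.vol x l + V.vol (B.fin x l) l' := by
  induction l generalizing x with
  | nil => simp [Vd.vol, Lb.fin]
  | cons g l ih =>
    show V.chi x * V.n g + V.vol (x * B.q g) (l ++ l') = V.chi x * V.n g + V.vol (x * B.q g) l + _
    rw [ih, add_assoc]; rfl

/-- The label list. -/
def wd (a b : B.L) (g L : ℕ) : List B.L :=
  b :: (List.replicate (g - 1) a ++ b :: List.replicate (L - g - 1) a)

theorem fin_app (x : Q) (l l' : List B.L) : B.fin x (l ++ l') = B.fin (B.fin x l) l' := by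
  induction l generalizing x with
  | nil => rfl
  | cons g l ih => exact ih _

theorem src_app (x : Q) (l l' : List B.L) : src B x (l ++ l') = src B x l ++ src B (B.fin x l) l' := by
  induction l generalizing x with
  | nil => rfl
  | cons g l ih => exact congrArg (List.cons x) (ih _)

theorem fin_wd (a b : B.L) (x : Q) (g L : ℕ) :
    B.fin x (wd a b g L) = x * B.q b * B.q a ^ (g - 1) * B.q b * B.q a ^ (L - g - 1) := by
  show B.fin (x * B.q b) (List.replicate (g - 1) a ++ b :: List.replicate (L - g - 1) a) = _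
  rw [fin_app, fin_rep]
  show B.fin (x * B.q b * B.q a ^ (g - 1) * B.q b) (List.replicate (L - g - 1) a) = _
  rw [fin_rep]

theorem src_wd (a b : B.L) (x : Q) (g L : ℕ) :
    src B x (wd a b g L) = x :: ((List.range (g - 1)).map (fun i => x * B.q b * B.q a ^ i) ++
      (x * B.q b * B.q a ^ (g - 1)) ::
        (List.range (L - g - 1)).map (fun i => x * B.q b * B.q a ^ (g - 1) * B.q b * B.q a ^ i)) := by
  show x :: src B (x * B.q b) (List.replicate (g - 1) a ++ b :: List.replicate (L - g - 1) a) = _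
  rw [src_app, fin_rep, src_rep]
  show x :: (_ ++ (x * B.q b * B.q a ^ (g - 1)) ::
    src B (x * B.q b * B.q a ^ (g - 1) * B.q b) (List.replicate (L - g - 1) a)) = _
  rw [src_rep]

theorem vol_wd {R : Type*} [CommRing R] (V : Vd B R) (a b : B.L) (x : Q) (g L : ℕ) :
    V.vol x (wd a b g L) = V.chi x * V.n b + V.vol (x * B.q b) (List.replicate (g - 1) a) +
      V.chi (x * B.q b * B.q a ^ (g - 1)) * V.n b +
      V.vol (x * B.q b * B.q a ^ (g - 1) * B.q b) (List.replicate (L - g - 1) a) := by
  show V.chi x * V.n b + V.vol (x * B.q b) (List.replicate (g - 1) a ++ b :: List.replicate (L - g - 1) a) = _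
  rw [vol_app, fin_rep]
  show V.chi x * V.n b + (_ + (V.chi (x * B.q b * B.q a ^ (g - 1)) * V.n b +
    V.vol (x * B.q b * B.q a ^ (g - 1) * B.q b) (List.replicate (L - g - 1) a))) = _
  ring

theorem vol_split {R : Type*} [CommRing R] (V : Vd B R) (a : B.L) (x : Q) {g L : ℕ} (h : g + 2 ≤ L) :
    V.vol x (List.replicate L a) = V.vol x (List.replicate (g + 1) a) +
      V.vol (x * B.q a ^ (g + 1)) (List.replicate (L - g - 1) a) := by
  have e : List.replicate L a = List.replicate (g + 1) a ++ List.replicate (L - g - 1) a := by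
    rw [← List.replicate_add]; congr 1; omega
  rw [e, vol_app, fin_rep]

end CrAux

open CrAux

theorem cr : CrS := by
  intro Q _ B a b y₀ g L hc hy hb hg hL
  obtain ⟨g, rfl⟩ : ∃ k, g = k + 1 := ⟨g - 1, by omega⟩
  have hC : Commute (B.q a) y₀ := hc
  have hp : ∀ n : ℕ, y₀ * B.q a ^ n = B.q a ^ n * y₀ := fun n => ((hC.pow_left n).eq).symm
  -- the vertices
  have e1 : ∀ i : ℕ, (1 : Q) * B.q b * B.q a ^ i = B.q a ^ (i + 1) * y₀ := fun i => by
    rw [one_mul, hb, mul_assoc, hp, ← mul_assoc, ← pow_succ']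
  have e2 : ∀ i : ℕ, y₀ * B.q b * B.q a ^ i = B.q a ^ (i + 1) := fun i => by
    rw [hb, ← mul_assoc, ← hc, mul_assoc (B.q a), hy, mul_one, ← pow_succ']
  have f1 : (1 : Q) * B.q b * B.q a ^ g * B.q b = B.q a ^ (g + 2) := by
    rw [e1, hb, hc, ← mul_assoc, mul_assoc _ y₀ y₀, hy, mul_one, ← pow_succ]
  have f2 : y₀ * B.q b * B.q a ^ g * B.q b = B.q a ^ (g + 2) * y₀ := by
    rw [e2, hb, ← mul_assoc, ← pow_succ]
  have hgs : g + 1 - 1 = g := by omega
  have hlen : ∀ i : ℕ, B.q a ^ (g + 2) * B.q a ^ i = B.q a ^ (g + 2 + i) := fun i => (pow_add _ _ _).symm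
  have hlen' : ∀ i : ℕ, B.q a ^ (g + 2) * y₀ * B.q a ^ i = B.q a ^ (g + 2 + i) * y₀ := fun i => by
    rw [mul_assoc, hp, ← mul_assoc, ← pow_add]
  refine ⟨⟨wd a b (g + 1) L, wd a b (g + 1) L, ?_, ?_, ?_⟩, ?_⟩
  · rw [fin_wd, hgs, f1, hlen]; congr 1; omega
  · rw [fin_wd, hgs, f2, hlen']; congr 2; omega
  · rw [src_wd, src_wd, hgs]
    rw [f1, f2, e1, e2]
    simp only [e1, e2, hlen, hlen']
    -- count
    have hs : ∀ (f : ℕ → Q), (List.range L).map f =
        f 0 :: ((List.range g).map (fun i => f (i + 1)) ++ f (g + 1) ::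
          (List.range (L - (g + 1) - 1)).map (fun i => f (g + 2 + i))) := by
      intro f
      have h1 : List.range L = List.range (g + 2) ++ (List.range (L - (g + 1) - 1)).map (g + 2 + ·) := by
        conv_lhs => rw [show L = (g + 2) + (L - (g + 1) - 1) by omega]
        rw [List.range_add]
      have h2 : List.range (g + 2) = 0 :: ((List.range g).map (· + 1) ++ [g + 1]) := by
        rw [List.range_succ, List.range_succ_eq_map]; rfl
      rw [h1, h2]
      simp [List.map_append, List.map_map, Function.comp_def]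
    unfold strip
    rw [hs (fun i => B.q a ^ i), hs (fun i => B.q a ^ i * y₀), pow_zero, one_mul]
    classical
    rw [List.perm_iff_count]
    intro t
    simp only [List.count_append, List.count_cons]
    omega
  · intro R _ V
    refine ⟨?_, ?_⟩
    · show V.vol 1 (wd a b (g + 1) L) = _
      rw [vol_wd, hgs, f1, vol_split V a 1 hL, e1, one_mul, one_mul, hb, map_one, map_mul, map_pow]
      show _ = _ + V.vol (B.q a ^ (g + 2)) _ + _
      ring
    · show V.vol y₀ (wd a b (g + 1) L) = _
      rw [vol_wd, hgs, f2, vol_split V a y₀ hL, e2, map_pow]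
      have h3 : y₀ * B.q a ^ (g + 1 + 1) = B.q a ^ (g + 2) * y₀ := hp _
      have h4 : y₀ * B.q b = B.q a := by rw [hb, ← mul_assoc, ← hc, mul_assoc, hy, mul_one]
      rw [h3, h4]
      ring

end Pool.Agent.Lib.MP_688fd0_co.SQ3.Small
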