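import Pool.Agent.Lib.MP_688fd0_co.SQ3.Small.Fw1

/-!
Row S-F3A: case 3, class I, a label which commutes with `U`.
-/

set_option autoImplicit false

namespace Pool.Agent.Lib.MP_688fd0_co.SQ3.Small

open Pool.Agent.Lib.MP_688fd0_co.OSF Pool.Agent.Lib.MP_688fd0_co.SQ2
open Subgroup (zpowers)
open V (Puz)
open Fw

theorem f3a : F3AS := by
  intro Q _ _ B a eps D z k c W H x s₁ s₂ u b₁ b₂ j F C P d hidx T p hp hkp V hz w hw t hcom hI hI' γ
  have hfin := H.fin
  have hp1 : Fact (1 < p) := ⟨hp.one_lt⟩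
  have hcW := cW' C
  have hk : (0 : ℤ) < k := by exact_mod_cast H.kpos
  obtain ⟨M, hM⟩ : ∃ M : ℕ, M = orderOf (B.q a) := ⟨_, rfl⟩
  have hMpos : 0 < M := hM ▸ orderOf_pos _
  -- the order is large
  have hMW : (W : ℤ) < M := by
    by_contra h
    push Not at h
    have h1 : (H.up.U ^ (M : ℤ)) x = x := by
      have := U_ord H x 1
      rw [mul_one, ← hM] at this
      exact this
    have h2 := C.fr.disj x C.fx M (by rw [abs_of_nonneg (by omega)]; exact h) (by rw [h1]; exact C.fx)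
    omega
  have hhalf : 2 * d ≤ M := hM ▸ T.half
  have hd := T.p₁
  -- small distances
  have hsmall : ∀ (y : Q) (n : ℤ), y ∈ F → (H.up.U ^ n) y ∈ F → |n| ≤ 4 * c → n = 0 := fun y n hy hn h =>
    C.fr.disj y hy n (by omega) hn
  -- membership in the line of the centre
  have hs₂ := T.l₂
  have hs₁ : x⁻¹ * s₁ ∉ zpowers (B.q a) := by
    rw [← T.h₁, ← zpow_natCast, line_iff H]
    exact hs₂
  have hx0 : x⁻¹ * x ∈ zpowers (B.q a) := by rw [inv_mul_cancel]; exact one_mem _
  -- the weights of the strands of the other line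
  have hother : ∀ y ∈ F, x⁻¹ * y ∉ zpowers (B.q a) → ∃ τ : ℕ, 0 < τ ∧ τ ≤ M ∧ (H.up.U ^ τ) s₂ = y ∧
      w false y = (if τ ≤ d then -1 else 0) ∧ w true y = (if τ ≤ d then 0 else 1) := by
    intro y hy hyl
    have h1 : s₂⁻¹ * y ∈ zpowers (B.q a) := by
      have h2 : s₂⁻¹ * y = (x⁻¹ * s₂)⁻¹ * (x⁻¹ * y) := by group
      rw [h2, Subgroup.mul_mem_iff_of_index_two hidx, inv_mem_iff]
      exact ⟨fun h => absurd h hs₂, fun h => absurd h hyl⟩
    obtain ⟨τ, h2, h3, h4⟩ := pos H h1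
    have h5 := hw.w₂ τ h2 h3 (by rw [h4]; exact hy)
    rw [h4] at h5
    exact ⟨τ, h2, hM ▸ h3, h4, h5⟩
  have hws₂ : w true s₂ = 1 := by
    obtain ⟨τ, h1, h2, h3, h4, h5⟩ := hother s₂ C.lv.h₂ hs₂
    have h6 : ¬ τ ≤ d := by
      intro h
      have h7 := U_eq_iff H s₂ (τ : ℤ) 0 (by rw [zpow_natCast, h3, H.up.zero])
      rw [← hM, sub_zero] at h7
      have := Int.le_of_dvd (by omega) h7
      omega
    rw [h5, if_neg h6]
  have hne1 : (1 : ZMod p) ≠ 0 := one_ne_zero
  have hmem : ∀ y : F, (y : Q) ∈ F := fun y => y.2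
  -- strands on the line of the centre
  have hl1 : ∀ y : F, x⁻¹ * (y : Q) ∈ zpowers (B.q a) → y ≠ P.l₁ := fun y hy h => by
    rw [h] at hy
    exact hs₁ hy
  have hl2 : ∀ y : F, x⁻¹ * (y : Q) ∈ zpowers (B.q a) → y ≠ P.l₂ := fun y hy h => by
    rw [h] at hy
    exact hs₂ hy
  have hl0 : ∀ y : F, x⁻¹ * (y : Q) ∉ zpowers (B.q a) → y ≠ P.l₀ := fun y hy h => by
    rw [h] at hy
    exact hy hx0
  -- the strand of an edge
  have hstr : ∀ (s : F) (n : ℕ), Dep H.up D F x c n (s : Q) → n + 1 ≤ 4 → ∀ b : B.L, Com H.up b → ∃ (y : F) (o : ℤ),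
      |o| ≤ 2 * c ∧ (s : Q) * B.q b = (H.up.U ^ o) (y : Q) := by
    intro s n hs hn b hb
    obtain ⟨y, hy, o, ho, he⟩ := dep_next C hs hn b 0
    rw [H.up.zero, zero_add] at he
    exact ⟨⟨y, hy.1⟩, o, ho, he⟩
  have hnes : ∀ (s y : F) (b : B.L) (o : ℤ), B.q b ≠ B.q a → B.q b ≠ (B.q a)⁻¹ → |o| ≤ 2 * c →
      (s : Q) * B.q b = (H.up.U ^ o) (y : Q) → s ≠ y := by
    intro s y b o h1 h2 ho he h
    exact ne_strand C (m := 0) (s := (s : Q)) (s' := (y : Q)) h1 h2 ho (by rw [H.up.zero, zero_add]; exact he)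
      (congrArg Subtype.val h).symm
  by_cases ht : B.q t = B.q a ∨ B.q t = (B.q a)⁻¹
  · -- a straight label
    cases γ with
    | true => exact oneS P hp hkp V hz (hw.lw true) ht hI hI' P.l₂ P.n₀₂ P.n₁₂ (by
        show w true s₂ ≠ 0
        rw [hws₂]; exact hne1)
    | false =>
      exact oneS P hp hkp V hz (hw.lw false) ht hI hI' ⟨u, T.u_mem⟩ (fun h => T.u_ne (congrArg Subtype.val h))
        (hl1 ⟨u, T.u_mem⟩ T.u_line) (by
          show w false u ≠ 0
          rw [(hw.w₁ u T.u_mem T.u_line).1]; exact hne1)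
  push Not at ht
  have hti : B.q (B.inv t) ≠ B.q a ∧ B.q (B.inv t) ≠ (B.q a)⁻¹ := by
    rw [B.q_inv]
    refine ⟨fun h => ht.2 ?_, fun h => ht.1 (inv_injective h)⟩
    rw [← h, inv_inv]
  by_cases htA : B.q t ∈ zpowers (B.q a)
  · -- a far label on the line
    cases γ with
    | false =>
      obtain ⟨y, o, ho, he⟩ := hstr P.l₀ 0 (dep_x C) (by omega) t hcom
      have hne := hnes _ _ t o ht.1 ht.2 ho he
      have hyl : x⁻¹ * (y : Q) ∈ zpowers (B.q a) := (line_b H he).2 htA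
      obtain ⟨G, p₀, p₁, hGx, hGy, hC, hO⟩ := exists_CG0 cgadS C hcom hne ho he
      refine stepS P hp hkp V hz (hw.lw false) hI hC hO (Or.inl hGx) (by rw [hGy]; exact hne.symm)
        (by rw [hGy]; exact hl2 y hyl) (fun h => absurd (hGy.symm.trans h) (hl1 y hyl)) (fun _ => ?_)
      rw [hGy, (hw.w₁ y y.2 hyl).1]
      exact hne1
    | true =>
      obtain ⟨y, o, ho, he⟩ := hstr P.l₂ 1 (dep₂ C) (by omega) t hcom
      obtain ⟨y', o', ho', he'⟩ := hstr P.l₂ 1 (dep₂ C) (by omega) (B.inv t) (com_inv hcom)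
      have hyl : x⁻¹ * (y : Q) ∉ zpowers (B.q a) := by
        intro h
        have h1 : s₂⁻¹ * (y : Q) ∈ zpowers (B.q a) := (line_b H he).2 htA
        have h2 : x⁻¹ * s₂ = x⁻¹ * (y : Q) * (s₂⁻¹ * (y : Q))⁻¹ := by group
        exact hs₂ (h2 ▸ mul_mem h (inv_mem h1))
      have hyl' : x⁻¹ * (y' : Q) ∉ zpowers (B.q a) := by
        intro h
        have h1 : s₂⁻¹ * (y' : Q) ∈ zpowers (B.q a) := (line_b H he').2 (by rw [B.q_inv]; exact inv_mem htA)
        have h2 : x⁻¹ * s₂ = x⁻¹ * (y' : Q) * (s₂⁻¹ * (y' : Q))⁻¹ := by group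
        exact hs₂ (h2 ▸ mul_mem h (inv_mem h1))
      obtain ⟨τ, g1, g2, g3, g4, g5⟩ := hother y y.2 hyl
      obtain ⟨τ', g1', g2', g3', g4', g5'⟩ := hother y' y'.2 hyl'
      have hfinish : ∀ (b : B.L) (y : F) (o : ℤ) (τ : ℕ), Com H.up b → B.q b ≠ B.q a → B.q b ≠ (B.q a)⁻¹ →
          CaseI H.up V b → |o| ≤ 2 * c → s₂ * B.q b = (H.up.U ^ o) (y : Q) → x⁻¹ * (y : Q) ∉ zpowers (B.q a) →
          (H.up.U ^ τ) s₂ = y → w true (y : Q) = (if τ ≤ d then 0 else 1) → ¬ τ < d → P.Suc V (w true) := by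
        intro b y o τ hcb hb₁ hb₂ hIb ho he hyl g3 g5 hτ
        have hne := hnes P.l₂ y b o hb₁ hb₂ ho he
        obtain ⟨G, p₀, p₁, hGx, hGy, hC, hO⟩ := exists_CG0 cgadS C (s := P.l₂) hcb hne ho he
        refine stepS P hp hkp V hz (hw.lw true) hIb hC hO (Or.inr hGx) (by rw [hGy]; exact hl0 y hyl)
          (by rw [hGy]; exact hne.symm) (fun _ => by rw [hws₂]; exact hne1) (fun h => ?_)
        rw [hGy] at h
        have h1 : τ ≠ d := fun h' => h (Subtype.ext (by rw [← g3, h']; exact T.h₁))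
        rw [hGy, g5, if_neg (by omega)]
        exact hne1
      by_cases hτ : τ < d
      · by_cases hτ' : τ' < d
        · exfalso
          obtain ⟨n, hn⟩ := Subgroup.mem_zpowers_iff.1 htA
          -- positions
          have e1 : (H.up.U ^ ((o : ℤ) + τ)) s₂ = s₂ * B.q t := by
            rw [H.up.zadd, zpow_natCast, g3]
            exact he.symm
          have e2 : (H.up.U ^ ((o' : ℤ) + τ')) s₂ = s₂ * (B.q t)⁻¹ := by
            rw [H.up.zadd, zpow_natCast, g3', ← B.q_inv]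
            exact he'.symm
          have e3 : (H.up.U ^ (((eps s₂ : ℤˣ) : ℤ) * n)) s₂ = s₂ * B.q t := by rw [← H.mul_zpow, hn]
          have e4 : (H.up.U ^ (((eps s₂ : ℤˣ) : ℤ) * -n)) s₂ = s₂ * (B.q t)⁻¹ := by
            rw [← H.mul_zpow, zpow_neg, hn]
          have k1 := U_eq_iff H _ _ _ (e1.trans e3.symm)
          have k2 := U_eq_iff H _ _ _ (e2.trans e4.symm)
          rw [← hM] at k1 k2
          have k3 : (M : ℤ) ∣ (o + τ) + (o' + τ') := by
            have := dvd_add k1 k2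
            have e5 : o + τ - ((eps s₂ : ℤˣ) : ℤ) * n + (o' + τ' - ((eps s₂ : ℤˣ) : ℤ) * -n) =
              (o + τ) + (o' + τ') := by ring
            rwa [e5] at this
          obtain ⟨q, hq⟩ := k3
          have b1 := abs_le.1 ho
          have b2 := abs_le.1 ho'
          have hq0 : q = 0 ∨ q = 1 := by
            have h1 : -(M : ℤ) < M * q := by rw [← hq]; omega
            have h2 : (M : ℤ) * q < M * 2 := by rw [← hq]; omega
            have h3 : -1 < q := by nlinarith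
            have h4 : q < 2 := by nlinarith
            omega
          rcases hq0 with rfl | rfl
          · rw [mul_zero] at hq
            have h1 := hsmall s₂ τ C.lv.h₂ (by rw [zpow_natCast, g3]; exact y.2) (by
              rw [abs_of_nonneg (by omega)]; omega)
            omega
          · rw [mul_one] at hq
            have h1 := hsmall (y : Q) ((d : ℤ) - τ) y.2 (by
              have h2 : (H.up.U ^ ((d : ℤ) - τ)) (y : Q) = s₁ := by
                rw [← g3, ← zpow_natCast, ← H.up.zadd, sub_add_cancel, zpow_natCast]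
                exact T.h₁
              rw [h2]; exact C.lv.h₁) (by rw [abs_of_nonneg (by omega)]; omega)
            omega
        · exact hfinish (B.inv t) y' o' τ' (com_inv hcom) hti.1 hti.2 hI' ho' he' hyl' g3' g5' hτ'
      · exact hfinish t y o τ hcom ht.1 ht.2 hI ho he hyl g3 g5 hτ
  · -- a label to the other line
    obtain ⟨y, o, ho, he⟩ := hstr P.l₀ 0 (dep_x C) (by omega) t hcom
    have hne := hnes _ _ t o ht.1 ht.2 ho he
    have hyl : x⁻¹ * (y : Q) ∉ zpowers (B.q a) := fun h => htA ((line_b H he).1 h)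
    obtain ⟨τ, g1, g2, g3, g4, g5⟩ := hother y y.2 hyl
    obtain ⟨G, p₀, p₁, hGx, hGy, hC, hO⟩ := exists_CG0 cgadS C hcom hne ho he
    -- an edge back
    have hback : ∀ (s y' : F) (o' : ℤ), |o'| ≤ 2 * c → x⁻¹ * (s : Q) ∉ zpowers (B.q a) →
        (s : Q) * B.q (B.inv t) = (H.up.U ^ o') (y' : Q) → y ≠ s →
        x⁻¹ * (y' : Q) ∈ zpowers (B.q a) ∧ y' ≠ P.l₀ := by
      intro s y' o' ho' hs he' hys
      constructor
      · have h1 : (s : Q)⁻¹ * (y' : Q) ∉ zpowers (B.q a) := by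
          rw [line_b H he', B.q_inv, inv_mem_iff]
          exact htA
        have h2 : x⁻¹ * (y' : Q) = x⁻¹ * (s : Q) * ((s : Q)⁻¹ * (y' : Q)) := by group
        rw [h2, Subgroup.mul_mem_iff_of_index_two hidx]
        exact ⟨fun h => absurd h hs, fun h => absurd h h1⟩
      · rintro rfl
        have h1 : (s : Q) = (H.up.U ^ o') (((P.l₀ : F) : Q) * B.q t) := by
          rw [com_zpow hcom, ← he', B.q_inv, inv_mul_cancel_right]
        rw [he, ← H.up.zadd] at h1
        have h2 : (H.up.U ^ (0 : ℤ)) (s : Q) = (H.up.U ^ (o' + o)) (y : Q) := by rw [H.up.zero]; exact h1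
        have h3 := (C.fr.eq s.2 y.2 h2 (by
          have b1 := abs_le.1 ho
          have b2 := abs_le.1 ho'
          exact abs_le.2 ⟨by omega, by omega⟩)).2
        exact hys (Subtype.ext h3.symm)
    by_cases hy2 : y = P.l₂
    · cases γ with
      | true =>
        refine homeS P hp hkp V hz (hw.lw true) hI hC hO hC hO hGx (hGy.trans hy2) (Or.inl hGx)
          (by rw [hGy]; exact hne.symm) (by rw [hGy, hy2]; exact P.n₁₂) ?_
        rw [hGy, hy2]
        show w true s₂ ≠ 0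
        rw [hws₂]
        exact hne1
      | false =>
        obtain ⟨y', o', ho', he'⟩ := hstr P.l₁ 1 (dep₁ C) (by omega) (B.inv t) (com_inv hcom)
        obtain ⟨h1, h2⟩ := hback P.l₁ y' o' ho' hs₁ he' (by rw [hy2]; exact P.n₁₂)
        obtain ⟨G', p₀', p₁', hGx', hGy', hC', hO'⟩ := exists_CG0 cgadS C (com_inv hcom)
          (hnes _ _ (B.inv t) o' hti.1 hti.2 ho' he') ho' he'
        refine homeS P hp hkp V hz (hw.lw false) hI' hC' hO' hC hO hGx (hGy.trans hy2) (Or.inr hGx')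
          (by rw [hGy']; exact h2) (by rw [hGy']; exact hl1 y' h1) ?_
        rw [hGy', (hw.w₁ y' y'.2 h1).1]
        exact hne1
    · cases γ with
      | true =>
        refine stepS P hp hkp V hz (hw.lw true) hI hC hO (Or.inl hGx) (by rw [hGy]; exact hne.symm)
          (by rw [hGy]; exact hy2) (fun _ => by rw [hws₂]; exact hne1) (fun h => ?_)
        rw [hGy] at h
        have h1 : τ ≠ d := fun h' => h (Subtype.ext (by rw [← g3, h']; exact T.h₁))
        have h2 : ¬ τ < d := fun h' => T.nb y y.2 ⟨0, t, o, ho, by rw [H.up.zero, zero_add]; exact he⟩ τ g1 h' g3.symm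
        rw [hGy, g5, if_neg (by omega)]
        exact hne1
      | false =>
        obtain ⟨y', o', ho', he'⟩ := hstr P.l₂ 1 (dep₂ C) (by omega) (B.inv t) (com_inv hcom)
        obtain ⟨h1, h2⟩ := hback P.l₂ y' o' ho' hs₂ he' hy2
        obtain ⟨G', p₀', p₁', hGx', hGy', hC', hO'⟩ := exists_CG0 cgadS C (com_inv hcom)
          (hnes _ _ (B.inv t) o' hti.1 hti.2 ho' he') ho' he'
        refine stepS P hp hkp V hz (hw.lw false) hI' hC' hO' (Or.inr hGx') (by rw [hGy']; exact h2)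
          (by rw [hGy']; exact hl2 y' h1) (fun h => absurd (hGy'.symm.trans h) (hl1 y' h1)) (fun _ => ?_)
        rw [hGy', (hw.w₁ y' y'.2 h1).1]
        exact hne1

end Pool.Agent.Lib.MP_688fd0_co.SQ3.Small
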