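import Pool.Agent.Lib.MP_688fd0_co.SQ3.Small.Gam0
import Pool.Agent.Lib.MP_688fd0_co.SQ3.V.CGad
import Pool.Agent.Lib.MP_688fd0_co.SQ3.H98.GadN

/-!
Case 3, class II: waiting at `stb` before the rung from `s₂` to `u`.
-/

set_option autoImplicit false

namespace Pool.Agent.Lib.MP_688fd0_co.SQ3.Small

open Pool.Agent.Lib.MP_688fd0_co.OSF Pool.Agent.Lib.MP_688fd0_co.SQ2
open Subgroup (zpowers)
open V (Puz)

theorem f3b : F3BS := by
  intro Q _ _ B a eps D z k c W H x s₁ s₂ u b₁ b₂ j F C P d hi h3 p hp hkp V hz w hw t hII γ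
  have hp0 : Fact p.Prime := ⟨hp⟩
  have hfin := H.fin
  have hord : 0 < orderOf (B.q a) := orderOf_pos _
  obtain ⟨m, b, o, ho, he⟩ := h3.u_rng
  -- the strands
  have hline : ∀ y : Q, x⁻¹ * y ∈ zpowers (B.q a) → y ≠ s₂ := by
    rintro _ h rfl
    exact h3.l₂ h
  have hline₁ : ∀ y : Q, x⁻¹ * y ∈ zpowers (B.q a) → y ≠ s₁ := by
    rintro _ h rfl
    apply h3.l₂
    rw [← h3.h₁, ← zpow_natCast, H.zpow_eq, ← mul_assoc] at h
    have := mul_mem h (inv_mem (Subgroup.zpow_mem_zpowers (B.q a) (((eps s₂ : ℤˣ) : ℤ) * (d : ℤ))))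
    rwa [mul_inv_cancel_right] at this
  have hus : (⟨u, h3.u_mem⟩ : F) ≠ P.l₂ := fun h => hline u h3.u_line (congrArg Subtype.val h)
  have hu0 : (⟨u, h3.u_mem⟩ : F) ≠ P.l₀ := fun h => h3.u_ne (congrArg Subtype.val h)
  have hu1 : (⟨u, h3.u_mem⟩ : F) ≠ P.l₁ := fun h => hline₁ u h3.u_line (congrArg Subtype.val h)
  obtain ⟨G, g, hg1, hg2, hO⟩ := exists_GR0 gadN1 gadN2 cgadS C (s := P.l₂) (s' := ⟨u, h3.u_mem⟩) (n := 1)
    (dep₂ C) (by omega) hus.symm ho he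
  have hLC := P.lc hO P.ok₀ P.ok₀ hp hkp V hz (hw.lw γ)
  refine ⟨G, P.G₀, P.G₀, hO, P.ok₀, P.ok₀, ?_⟩
  have hxr : (bigP (fam0 P G P.G₀ P.G₀)).x ⟨2, g⟩ = P.l₂ := hg1
  have hyr : (bigP (fam0 P G P.G₀ P.G₀)).y ⟨2, g⟩ = ⟨u, h3.u_mem⟩ := hg2
  have hoth : (bigP (fam0 P G P.G₀ P.G₀)).oth ⟨2, g⟩ P.l₂ = ⟨u, h3.u_mem⟩ := by
    unfold Puz.oth
    rw [hxr, if_pos rfl, hyr]
  have hadj : (bigP (fam0 P G P.G₀ P.G₀)).Adj P.g ⟨2, g⟩ P.l₂ :=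
    ⟨P.ong₂ _ _ _, Or.inl hxr.symm, by rw [P.othg₂, hoth]; exact hu0.symm⟩
  have hnf : ¬ (bigP (fam0 P G P.G₀ P.G₀)).On P.f ⟨u, h3.u_mem⟩ := by
    rw [P.onf_iff]
    rintro (h | h)
    · exact hu0 h
    · exact hu1 h
  refine wait0 hLC hII.om (P.rb _ _ _) (r' := ⟨2, g⟩) (v := P.l₂) hadj ?_
  have e1 := gam_stb_u (P := bigP (fam0 P G P.G₀ P.G₀)) (fun s : F => H.up.wt V (s : Q))
    (fun s : F => w γ (s : Q)) (P.adj G P.G₀ P.G₀) hoth hnf (by rw [P.othg]; exact hus)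
  have e2 := gam_stb_f (P := bigP (fam0 P G P.G₀ P.G₀)) (fun s : F => H.up.wt V (s : Q))
    (fun s : F => w γ (s : Q)) (P.adj G P.G₀ P.G₀)
  rw [P.othg, P.othf, P.othg₂] at e1
  rw [P.othg, P.othf] at e2
  rw [e1, e2]
  -- the weights
  have hws : w γ u + w γ s₂ = 1 := by
    obtain ⟨a1, a2⟩ := hw.w₁ u h3.u_mem h3.u_line
    have hs : (H.up.U ^ orderOf (B.q a)) s₂ = s₂ := by
      rw [← zpow_natCast, H.zpow_eq]
      have : B.q a ^ (((eps s₂ : ℤˣ) : ℤ) * (orderOf (B.q a) : ℤ)) = 1 := by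
        rw [mul_comm, zpow_mul, zpow_natCast, pow_orderOf_eq_one, one_zpow]
      rw [this, mul_one]
    obtain ⟨a3, a4⟩ := hw.w₂ (orderOf (B.q a)) hord le_rfl (by rw [hs]; exact C.lv.h₂)
    have hd : ¬ orderOf (B.q a) ≤ d := by
      have := h3.half
      omega
    rw [hs, if_neg hd] at a3 a4
    cases γ with
    | false => rw [a1, a3, add_zero]
    | true => rw [a2, a4, zero_add]
  have hne := wt_ne H hi hII h3.l₂
  intro h0
  apply hne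
  have h1 : ((P.l₀ : F) : Q) = x := rfl
  have h2 : ((P.l₂ : F) : Q) = s₂ := rfl
  simp only [h1, h2] at h0
  have h4 : (w γ u + w γ s₂) * (H.up.wt V x - H.up.wt V s₂) = 0 := by linear_combination h0
  rw [hws, one_mul] at h4
  exact sub_eq_zero.1 h4

end Pool.Agent.Lib.MP_688fd0_co.SQ3.Small
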