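import Pool.Agent.Lib.MP_688fd0_co.SQ3.Small.Sq
import Pool.Agent.Lib.MP_688fd0_co.SQ3.V.NC2
import Pool.Agent.Lib.MP_688fd0_co.SQ3.V.Key

/-!
S-F3N: case 3, class I, a label which does not commute with `U`.
-/

set_option autoImplicit false

namespace Pool.Agent.Lib.MP_688fd0_co.SQ3.Small

open Pool.Agent.Lib.MP_688fd0_co.OSF Pool.Agent.Lib.MP_688fd0_co.SQ2
open Subgroup (zpowers)
open V (Puz)

/-! ### Sums over the tokens -/

section puz

variable {S R : Type} [DecidableEq S] {P : Puz S R}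

/-- The place of the token `t` at `stb`. -/
def hb (P : Puz S R) (f g : R) (l₀ t : S) : S := if t = P.oth g l₀ then P.oth f l₀ else t

/-- Moved tokens. -/
theorem J_hb_two {f g r : R} {l₀ : S} (hne : P.oth f l₀ ≠ P.oth g l₀) :
    P.J g r l₀ (hb P f g l₀ (P.oth g l₀)) = if P.oth f l₀ = P.oth r l₀ then P.oth g l₀ else P.oth f l₀ := by
  unfold hb Puz.J
  rw [if_pos rfl]
  by_cases h : P.oth f l₀ = P.oth r l₀
  · rw [if_pos h, h, Equiv.swap_apply_left]
  · rw [if_neg h, Equiv.swap_apply_of_ne_of_ne h hne]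

theorem J_hb_z {f g r : R} {l₀ : S} (hz : P.oth r l₀ ≠ P.oth g l₀) :
    P.J g r l₀ (hb P f g l₀ (P.oth r l₀)) = P.oth g l₀ := by
  unfold hb Puz.J
  rw [if_neg hz, Equiv.swap_apply_left]

theorem J_hb_else {f g r : R} {l₀ t : S} (h₁ : t ≠ P.oth r l₀) (h₂ : t ≠ P.oth g l₀) :
    P.J g r l₀ (hb P f g l₀ t) = t := by
  unfold hb Puz.J
  rw [if_neg h₂, Equiv.swap_apply_of_ne_of_ne h₁ h₂]

/-- The positions after the jump are good. -/
theorem good_J {Tok : Type} {s : Puz.St S R Tok} {r : R} {v : S} (ha : P.Adj s.1 r v) (hg : P.Good s) :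
    P.Good ((r, fun t => P.J s.1 r v (s.2 t)) : Puz.St S R Tok) := by
  constructor
  · intro t t' e
    exact hg.1 ((P.J s.1 r v).injective e)
  · intro L
    show (∃ t, P.J s.1 r v (s.2 t) = L) ↔ ¬ P.On r L
    rw [← Puz.on_J ha L, ← hg.2]
    constructor
    · rintro ⟨t, ht⟩
      exact ⟨t, by rw [← ht, Puz.J_J]⟩
    · rintro ⟨t, ht⟩
      exact ⟨t, by rw [ht, Puz.J_J]⟩

/-- The sum of a function with total `0` on `A` over the tokens in `A`. -/
theorem sum_lam [Fintype S] {Tok F : Type} [Fintype Tok] [CommRing F] {s : Puz.St S R Tok} (hg : P.Good s) (A : Set S)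
    [DecidablePred (· ∈ A)] (lam : S → F) {v : S} (hv : P.On s.1 v) (hvA : v ∈ A) (hwA : P.oth s.1 v ∈ A)
    (h0 : lam v + lam (P.oth s.1 v) = 0) (hA : (∑ L, if L ∈ A then lam L else 0) = 0) :
    (∑ t, if s.2 t ∈ A then lam (s.2 t) else 0) = 0 := by
  have h1 := V.Start.sum_good P hg (fun L => if L ∈ A then lam L else 0)
  rw [h1]
  have h2 : ∀ L : S, (if P.On s.1 L then (0 : F) else if L ∈ A then lam L else 0) =
      (if L ∈ A then lam L else 0) - ((if L = v then lam v else 0) +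
        (if L = P.oth s.1 v then lam (P.oth s.1 v) else 0)) := by
    intro L
    have h3 := Puz.oth_ne hv
    by_cases h4 : L = v
    · subst h4
      rw [if_pos hv, if_pos hvA, if_pos rfl, if_neg h3.symm]
      ring
    · by_cases h5 : L = P.oth s.1 v
      · rw [if_pos ((Puz.on_iff hv L).2 (Or.inr h5)), if_neg h4, if_pos h5, h5, if_pos hwA]
        ring
      · have h6 : ¬ P.On s.1 L := fun h => by
          rcases (Puz.on_iff hv L).1 h with h | h
          · exact h4 h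
          · exact h5 h
        rw [if_neg h6, if_neg h4, if_neg h5]
        ring
  rw [Finset.sum_congr rfl fun L _ => h2 L, Finset.sum_sub_distrib, Finset.sum_add_distrib, hA,
    Finset.sum_ite_eq' Finset.univ v fun _ => lam v, Finset.sum_ite_eq' Finset.univ _ fun _ => lam (P.oth s.1 v),
    if_pos (Finset.mem_univ _), if_pos (Finset.mem_univ _), h0, sub_zero]

/-- Counting. -/
theorem sum_ne {S Tok : Type} [Fintype S] [Fintype Tok] {p : ℕ} (hp : p.Prime) (pos : Tok → S)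
    (hinj : Function.Injective pos) (A : Set S) [DecidablePred (· ∈ A)] (w : Tok → ZMod p)
    (h01 : ∀ t, w t = 0 ∨ w t = 1) (hex : ∃ t, pos t ∈ A ∧ w t = 1)
    (hc : (Finset.univ.filter (· ∈ A)).card < p) : (∑ t, if pos t ∈ A then w t else 0) ≠ 0 := by
  classical
  have : Fact p.Prime := ⟨hp⟩
  have h1 : (∑ t, if pos t ∈ A then w t else 0) =
      (((Finset.univ.filter fun t => pos t ∈ A ∧ w t = 1).card : ℕ) : ZMod p) := by
    rw [Finset.card_filter, Nat.cast_sum]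
    refine Finset.sum_congr rfl fun t _ => ?_
    by_cases h : pos t ∈ A
    · rcases h01 t with h2 | h2
      · rw [if_pos h, h2, if_neg (fun h3 => zero_ne_one h3.2), Nat.cast_zero]
      · rw [if_pos h, h2, if_pos ⟨h, rfl⟩, Nat.cast_one]
    · rw [if_neg h, if_neg (fun h3 => h h3.1), Nat.cast_zero]
  rw [h1, Ne, ZMod.natCast_eq_zero_iff]
  intro h2
  have h3 : 0 < (Finset.univ.filter fun t => pos t ∈ A ∧ w t = 1).card := by
    obtain ⟨t, h4⟩ := hex
    exact Finset.card_pos.2 ⟨t, Finset.mem_filter.2 ⟨Finset.mem_univ _, h4⟩⟩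
  have h4 : (Finset.univ.filter fun t => pos t ∈ A ∧ w t = 1).card ≤ (Finset.univ.filter (· ∈ A)).card :=
    Finset.card_le_card_of_injOn pos
      (fun t ht => by
        rw [Finset.mem_coe, Finset.mem_filter] at ht ⊢
        exact ⟨Finset.mem_univ _, ht.2.1⟩) hinj.injOn
  have := Nat.le_of_dvd h3 h2
  omega

end puz

/-! ### The component -/

section comp

variable {Q : Type} [Group Q] [DecidableEq Q] {B : Lb.{0, 0} Q} {U : Up B} {P D : Subgroup Q} {z : Q}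
  {F : Finset Q} {e : ℕ}

/-- The gadget preserves the component. -/
theorem T_pres {h : FrD U P D z F e} {ι : Type} {G : ι → BGad h.toFrt} {i : ι} {b : B.L} {p₀ p₁ : ℕ}
    {Γ : Subgroup (Sy h.toFrt)} (gok : GOK h (G i) b p₀ p₁ Γ) {A : Set F}
    (hA : ∀ v, v ∈ A ↔ ∃ g ∈ Γ, g • (G i).x = v ∨ g • (G i).y = v) {q : Sy h.toFrt} (hq : q ∈ Γ) (L : F) :
    (bigP G).T ⟨i, q⟩ L ∈ A ↔ L ∈ A := by
  have hfix : ∀ L : F, L ∉ A → (bigP G).T ⟨i, q⟩ L = L := by
    intro s hs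
    show q • (G i).T (q⁻¹ • s) = s
    rw [gok.out, smul_inv_smul]
    intro g hg
    constructor
    · intro h0
      apply hs
      rw [hA]
      exact ⟨q * g, Γ.mul_mem hq hg, Or.inl (by rw [mul_smul, h0, smul_inv_smul])⟩
    · intro h0
      apply hs
      rw [hA]
      exact ⟨q * g, Γ.mul_mem hq hg, Or.inr (by rw [mul_smul, h0, smul_inv_smul])⟩
  constructor
  · intro h1
    by_contra h2
    rw [hfix L h2] at h1
    exact h2 h1
  · intro h1
    by_contra h2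
    have h3 := hfix _ h2
    have h4 := ((bigP G).T ⟨i, q⟩).injective h3
    rw [h4] at h2
    exact h2 h1

omit [DecidableEq Q] in
/-- The size of the component. -/
theorem card_comp (h : FrD U P D z F e) [Finite Q] (Γ : Subgroup (Sy h.toFrt)) (x y : F) (A : Set F)
    (hA : ∀ v, v ∈ A ↔ ∃ g ∈ Γ, g • x = v ∨ g • y = v) [DecidablePred (· ∈ A)] :
    (Finset.univ.filter (· ∈ A)).card ≤ 2 * Nat.card D := by
  classical
  have key : ∀ v ∈ A, (x : Q)⁻¹ * v ∈ D ∨ (y : Q)⁻¹ * v ∈ D := by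
    intro v hv
    obtain ⟨g, -, rfl | rfl⟩ := (hA v).1 hv
    · exact Or.inl (h.smul_mem g x)
    · exact Or.inr (h.smul_mem g y)
  let f : {v : F // v ∈ Finset.univ.filter (· ∈ A)} → D ⊕ D := fun v =>
    if hv : (x : Q)⁻¹ * (v : F) ∈ D then Sum.inl ⟨_, hv⟩ else
      Sum.inr ⟨_, (key v (Finset.mem_filter.1 v.2).2).resolve_left hv⟩
  have hf : Function.Injective f := by
    intro v v' hvv
    by_cases h1 : (x : Q)⁻¹ * (v : F) ∈ D <;> by_cases h2 : (x : Q)⁻¹ * (v' : F) ∈ D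
    · have h3 : f v = Sum.inl ⟨_, h1⟩ := dif_pos h1
      have h4 : f v' = Sum.inl ⟨_, h2⟩ := dif_pos h2
      rw [h3, h4] at hvv
      have h5 := congrArg Subtype.val (Sum.inl.inj hvv)
      exact Subtype.ext (Subtype.ext (mul_left_cancel h5))
    · have h3 : f v = Sum.inl ⟨_, h1⟩ := dif_pos h1
      have h4 : f v' = Sum.inr ⟨_, _⟩ := dif_neg h2
      rw [h3, h4] at hvv
      exact absurd hvv (by simp)
    · have h3 : f v = Sum.inr ⟨_, _⟩ := dif_neg h1
      have h4 : f v' = Sum.inl ⟨_, h2⟩ := dif_pos h2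
      rw [h3, h4] at hvv
      exact absurd hvv (by simp)
    · have h3 : f v = Sum.inr ⟨_, _⟩ := dif_neg h1
      have h4 : f v' = Sum.inr ⟨_, _⟩ := dif_neg h2
      rw [h3, h4] at hvv
      have h5 := congrArg Subtype.val (Sum.inr.inj hvv)
      exact Subtype.ext (Subtype.ext (mul_left_cancel h5))
  have h1 := Nat.card_le_card_of_injective f hf
  rw [Nat.card_sum, Nat.card_eq_fintype_card, Fintype.card_coe] at h1
  omega

/-- Two sheets: the same number of strands on both lines. -/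
theorem bal2 (h : FrD U P D z F e) [Finite Q] (x y : F) (hxy : ∀ k : Sy h.toFrt, k • x ≠ y) (A : Set F)
    (hA : ∀ v, v ∈ A ↔ ∃ g ∈ Gc2 h x y, g • x = v ∨ g • y = v) [DecidablePred (· ∈ A)] {R : Type} [CommRing R]
    (lam : F → R) (hx : ∀ g ∈ Gc2 h x y, lam (g • x) = 1) (hy : ∀ g ∈ Gc2 h x y, lam (g • y) = -1) :
    (∑ L, if L ∈ A then lam L else 0) = 0 := by
  classical
  have hNe : NeZero e := ⟨h.he.ne'⟩
  have : Fintype (SQ2.V.S2 (gx h x y) (gy h x y)) := Fintype.ofFinite _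
  have : Fintype (Gc2 h x y ⧸ Subgroup.zpowers (gx h x y)) := Fintype.ofFinite _
  have : Fintype (Gc2 h x y ⧸ Subgroup.zpowers (gy h x y)) := Fintype.ofFinite _
  have hAr : A = Set.range (iS2 h x y) := by
    ext v
    rw [hA, iS2_range]
  subst hAr
  rw [V.Start.sum_range (iS2_inj h x y hxy)]
  have hc : Fintype.card (Gc2 h x y ⧸ Subgroup.zpowers (gx h x y)) =
      Fintype.card (Gc2 h x y ⧸ Subgroup.zpowers (gy h x y)) := by
    have h1 := Subgroup.card_eq_card_quotient_mul_card_subgroup (Subgroup.zpowers (gx h x y))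
    have h2 := Subgroup.card_eq_card_quotient_mul_card_subgroup (Subgroup.zpowers (gy h x y))
    have hofa : orderOf (gx h x y) = e := by
      rw [gx, Subgroup.orderOf_mk]; exact h.cj_order x
    have hofc : orderOf (gy h x y) = e := by
      rw [gy, Subgroup.orderOf_mk]; exact h.cj_order y
    rw [Nat.card_zpowers, hofa] at h1
    rw [Nat.card_zpowers, hofc, h1] at h2
    have h3 := Nat.eq_of_mul_eq_mul_right h.he h2
    rwa [Nat.card_eq_fintype_card, Nat.card_eq_fintype_card] at h3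
  have e1 : (∑ s : SQ2.V.S2 (gx h x y) (gy h x y), lam (iS2 h x y s)) =
      (∑ q : Gc2 h x y ⧸ Subgroup.zpowers (gx h x y), lam (iS2 h x y (Sum.inl q))) +
      ∑ q : Gc2 h x y ⧸ Subgroup.zpowers (gy h x y), lam (iS2 h x y (Sum.inr q)) := by
    have := Fintype.sum_sum_type (fun s : SQ2.V.S2 (gx h x y) (gy h x y) => lam (iS2 h x y s))
    rw [← this]
    refine Finset.sum_congr ?_ fun _ _ => rfl
    ext s
    simp
  rw [e1]
  have e2 : ∀ q : Gc2 h x y ⧸ Subgroup.zpowers (gx h x y), lam (iS2 h x y (Sum.inl q)) = 1 := by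
    intro q
    obtain ⟨g, rfl⟩ := QuotientGroup.mk_surjective q
    rw [iS2_inl]
    exact hx g g.2
  have e3 : ∀ q : Gc2 h x y ⧸ Subgroup.zpowers (gy h x y), lam (iS2 h x y (Sum.inr q)) = -1 := by
    intro q
    obtain ⟨g, rfl⟩ := QuotientGroup.mk_surjective q
    rw [iS2_inr]
    exact hy g g.2
  rw [Finset.sum_congr rfl fun q _ => e2 q, Finset.sum_congr rfl fun q _ => e3 q]
  simp [hc]

omit [DecidableEq Q] in
/-- One sheet. -/
theorem bal1 {h : FrD U P D z F e} {Γ : Subgroup (Sy h.toFrt)} {x y : F} (A : Set F)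
    (hA : ∀ v, v ∈ A ↔ ∃ g ∈ Γ, g • x = v ∨ g • y = v) [DecidablePred (· ∈ A)] {R : Type} [CommRing R]
    (lam : F → R) {η : Sy h.toFrt} (hη : η ∈ Γ) (hsw : ∀ v, lam (η • v) = - lam v) :
    2 * (∑ L, if L ∈ A then lam L else 0) = 0 := by
  have hmem : ∀ v, η • v ∈ A ↔ v ∈ A := by
    intro v
    rw [hA, hA]
    constructor
    · rintro ⟨g, hg, h1 | h1⟩
      · exact ⟨η⁻¹ * g, Γ.mul_mem (Γ.inv_mem hη) hg, Or.inl (by rw [mul_smul, h1, inv_smul_smul])⟩
      · exact ⟨η⁻¹ * g, Γ.mul_mem (Γ.inv_mem hη) hg, Or.inr (by rw [mul_smul, h1, inv_smul_smul])⟩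
    · rintro ⟨g, hg, h1 | h1⟩
      · exact ⟨η * g, Γ.mul_mem hη hg, Or.inl (by rw [mul_smul, h1])⟩
      · exact ⟨η * g, Γ.mul_mem hη hg, Or.inr (by rw [mul_smul, h1])⟩
  have h1 : (∑ L, if L ∈ A then lam L else 0) = ∑ L, if η • L ∈ A then lam (η • L) else 0 :=
    (Equiv.sum_comp (MulAction.toPerm η) fun L => if L ∈ A then lam L else 0).symm
  have h2 : (∑ L, if η • L ∈ A then lam (η • L) else 0) = - ∑ L, if L ∈ A then lam L else 0 := by
    rw [← Finset.sum_neg_distrib]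
    refine Finset.sum_congr rfl fun L _ => ?_
    by_cases h3 : L ∈ A
    · rw [if_pos h3, if_pos ((hmem L).2 h3), hsw]
    · rw [if_neg h3, if_neg (fun h4 => h3 ((hmem L).1 h4)), neg_zero]
  have h3 := h1.trans h2
  linear_combination h3

end comp

/-! ### Lines -/

section lines

variable {Q : Type} [Group Q] {B : Lb.{0, 0} Q} {a : B.L} {eps : Q →* ℤˣ} {D : Subgroup Q} {z : Q} {k : ℕ}

/-- A label commutes with `U` everywhere or nowhere. -/
theorem com_all (H : Hyp B a eps D z k) {b : Q} {x : Q} (h : H.up.U (x * b) = H.up.U x * b) (y : Q) :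
    H.up.U (y * b) = H.up.U y * b := by
  have h0 : ∀ v : Q, H.up.U v = v * B.q a ^ ((eps v : ℤˣ) : ℤ) := fun _ => rfl
  have key : ∀ v : Q, H.up.U (v * b) = H.up.U v * b ↔
      b * B.q a ^ (((eps b : ℤˣ) : ℤ)) * b⁻¹ = B.q a := by
    intro v
    rw [h0, h0, map_mul]
    have h1 : (b * B.q a ^ (((eps b : ℤˣ) : ℤ)) * b⁻¹) ^ ((eps v : ℤˣ) : ℤ) =
        b * B.q a ^ (((eps v * eps b : ℤˣ) : ℤ)) * b⁻¹ := by
      rw [conj_zpow, ← zpow_mul, mul_comm ((eps b : ℤˣ) : ℤ), ← Units.val_mul]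
    constructor
    · intro h2
      have h3 : b * B.q a ^ (((eps v * eps b : ℤˣ) : ℤ)) * b⁻¹ = B.q a ^ ((eps v : ℤˣ) : ℤ) := by
        rw [mul_assoc, mul_assoc] at h2
        rw [mul_left_cancel h2, mul_inv_cancel_right]
      rw [← h1] at h3
      rcases Int.units_eq_one_or (eps v) with h4 | h4
      · rw [h4, Units.val_one, zpow_one, zpow_one] at h3
        exact h3
      · rw [h4, Units.val_neg, Units.val_one, zpow_neg_one, zpow_neg_one] at h3
        exact inv_injective h3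
    · intro h2
      rw [h2] at h1
      rw [mul_assoc, mul_assoc, h1, inv_mul_cancel_right]
  exact (key y).2 ((key x).1 h)

theorem ncom (H : Hyp B a eps D z k) {t : B.L} (ht : ¬ Com H.up t) (x : Q) :
    H.up.U (x * B.q t) ≠ H.up.U x * B.q t := fun h => ht (com_all H h)

/-- A label which does not commute with `U` is not a power of `a`. -/
theorem ncom_zp (H : Hyp B a eps D z k) {t : B.L} (ht : ¬ Com H.up t) : B.q t ∉ zpowers (B.q a) := by
  intro h
  obtain ⟨n, hn⟩ := Subgroup.mem_zpowers_iff.1 h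
  apply ht
  intro x
  show x * B.q t * B.q a ^ ((eps (x * B.q t) : ℤˣ) : ℤ) = x * B.q a ^ ((eps x : ℤˣ) : ℤ) * B.q t
  have h1 : eps (B.q t) = 1 := by rw [← hn, map_zpow, H.ea, one_zpow]
  rw [map_mul, h1, mul_one, ← hn, mul_assoc, mul_assoc, ← zpow_add, ← zpow_add, add_comm]

section norm

variable (hi : (zpowers (B.q a)).index = 2)

include hi

theorem zp_conj {v w : Q} (h : v ∈ zpowers (B.q a)) : w⁻¹ * v * w ∈ zpowers (B.q a) := by
  have hn : (zpowers (B.q a)).Normal := Subgroup.normal_of_index_eq_two hi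
  have := hn.conj_mem v h w⁻¹
  rwa [inv_inv] at this

theorem zp_conj_iff {v : Q} (w : Q) : w⁻¹ * v * w ∈ zpowers (B.q a) ↔ v ∈ zpowers (B.q a) := by
  constructor
  · intro h
    have h1 := zp_conj hi (w := w⁻¹) h
    have h2 : w⁻¹⁻¹ * (w⁻¹ * v * w) * w⁻¹ = v := by group
    rwa [h2] at h1
  · exact fun h => zp_conj hi h

omit hi in
theorem up_zp (H : Hyp B a eps D z k) (n : ℤ) (v : Q) : v⁻¹ * (H.up.U ^ n) v ∈ zpowers (B.q a) := by
  rw [H.zpow_eq, inv_mul_cancel_left]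
  exact Subgroup.zpow_mem _ (Subgroup.mem_zpowers _) _

omit hi in
theorem up_zp' (H : Hyp B a eps D z k) (n : ℤ) (v w : Q) :
    w⁻¹ * (H.up.U ^ n) v ∈ zpowers (B.q a) ↔ w⁻¹ * v ∈ zpowers (B.q a) := by
  have h1 := up_zp H n v
  have h2 : w⁻¹ * (H.up.U ^ n) v = (w⁻¹ * v) * (v⁻¹ * (H.up.U ^ n) v) := by group
  rw [h2]
  exact Subgroup.mul_mem_cancel_right _ h1

/-- Symmetries `cj w` preserve the lines. -/
theorem cj_line (H : Hyp B a eps D z k) {F : Finset Q} (h : FrD H.up eps.ker D z F k) (w : Q) (s : F) :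
    (s : Q)⁻¹ * ((h.cj w • s : F) : Q) ∈ zpowers (B.q a) := by
  have h1 : (s : Q)⁻¹ * H.up.U ((h.cj w • s : F) : Q) ∈ zpowers (B.q a) := by
    rw [h.cj_up]
    have h2 : (s : Q)⁻¹ * (H.up.gen w * s) = (s : Q)⁻¹ * H.up.gen w * s := by group
    rw [h2]
    refine zp_conj hi ?_
    have h3 : H.up.gen w = w⁻¹⁻¹ * (w⁻¹ * H.up.U w) * w⁻¹ := by unfold Up.gen; group
    rw [h3]
    refine zp_conj hi ?_
    have := up_zp H 1 w
    rwa [zpow_one] at this
  have := (up_zp' H 1 ((h.cj w • s : F) : Q) (s : Q)).1 (by rwa [zpow_one])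
  exact this

/-- The subgroup of the symmetries that preserve the lines. -/
theorem cl_line (H : Hyp B a eps D z k) {F : Finset Q} (h : FrD H.up eps.ker D z F k) (w w' : Q)
    {g : Sy h.toFrt} (hg : g ∈ Subgroup.closure {h.cj w, h.cj w'}) (s : F) :
    (s : Q)⁻¹ * ((g • s : F) : Q) ∈ zpowers (B.q a) := by
  induction hg using Subgroup.closure_induction generalizing s with
  | mem g hg =>
    rcases hg with rfl | hg
    · exact cj_line hi H h w s
    · rw [Set.mem_singleton_iff] at hg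
      subst hg
      exact cj_line hi H h w' s
  | one => rw [one_smul, inv_mul_cancel]; exact Subgroup.one_mem _
  | mul g g' _ _ ih ih' =>
    have h1 := Subgroup.mul_mem _ (ih' s) (ih (g' • s))
    have h2 : (s : Q)⁻¹ * ((g' • s : F) : Q) * (((g' • s : F) : Q)⁻¹ * ((g • g' • s : F) : Q)) =
        (s : Q)⁻¹ * (((g * g') • s : F) : Q) := by rw [mul_smul]; group
    rwa [h2] at h1
  | inv g _ ih =>
    have h1 := Subgroup.inv_mem _ (ih (g⁻¹ • s))
    rw [smul_inv_smul, mul_inv_rev, inv_inv] at h1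
    exact h1

/-- A symmetry which moves one strand to the other line moves all strands to the other line. -/
theorem sw_line (H : Hyp B a eps D z k) {F : Finset Q} (h : FrD H.up eps.ker D z F k) (η : Sy h.toFrt) (x : F)
    (hx : (x : Q)⁻¹ * ((η • x : F) : Q) ∉ zpowers (B.q a)) (s : F) :
    (s : Q)⁻¹ * ((η • s : F) : Q) ∉ zpowers (B.q a) := by
  have hNe : NeZero k := ⟨H.kpos.ne'⟩
  obtain ⟨t, ht⟩ : ∃ t : ℕ, (t : ZMod k) = lv η := ⟨_, ZMod.natCast_zmod_val _⟩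
  obtain ⟨d, hd⟩ := exists_d η t ht
  have key : ∀ s : F, (s : Q)⁻¹ * ((η • s : F) : Q) ∈ zpowers (B.q a) ↔ d * z ^ t ∈ zpowers (B.q a) := by
    intro s
    have h1 : d * z ^ t * (s : Q) = (H.up.U ^ t) ((η • s : F) : Q) := hd.2 s
    have h2 := up_zp' H t ((η • s : F) : Q) (s : Q)
    rw [zpow_natCast, ← h1] at h2
    rw [← h2, ← mul_assoc]
    exact zp_conj_iff hi (s : Q)
  rw [key]
  rwa [key] at hx

theorem line_sw {x s y : Q} (h : s⁻¹ * y ∉ zpowers (B.q a)) :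
    x⁻¹ * y ∈ zpowers (B.q a) ↔ ¬ x⁻¹ * s ∈ zpowers (B.q a) := by
  have h1 : x⁻¹ * y = (x⁻¹ * s) * (s⁻¹ * y) := by group
  rw [h1, Subgroup.mul_mem_iff_of_index_two hi]
  tauto

end norm

end lines

/-! ### The weights -/

section wt

variable {Q : Type} [Group Q] {B : Lb.{0, 0} Q} {a : B.L} {eps : Q →* ℤˣ} {D : Subgroup Q} {z : Q}
  {k c : ℕ} {x s₁ s₂ u : Q} {F : Finset Q} {d : ℕ}

open Classical in
/-- The difference of the two weights. -/
noncomputable def lamx (B : Lb.{0, 0} Q) (a : B.L) (x : Q) (p : ℕ) (v : Q) : ZMod p :=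
  if x⁻¹ * v ∈ zpowers (B.q a) then 1 else -1

theorem lamx_one {p : ℕ} {v : Q} (h : x⁻¹ * v ∈ zpowers (B.q a)) : lamx B a x p v = 1 := if_pos h

theorem lamx_neg {p : ℕ} {v : Q} (h : x⁻¹ * v ∉ zpowers (B.q a)) : lamx B a x p v = -1 := if_neg h

theorem two_line (H : Hyp B a eps D z k) (hi : (zpowers (B.q a)).index = 2) (h₂ : x⁻¹ * s₂ ∉ zpowers (B.q a)) {v : Q}
    (hv : x⁻¹ * v ∉ zpowers (B.q a)) : ∃ t : ℕ, 0 < t ∧ t ≤ orderOf (B.q a) ∧ v = (H.up.U ^ t) s₂ := by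
  have := H.fin
  have hM : 0 < orderOf (B.q a) := orderOf_pos _
  obtain ⟨t, ht⟩ := (line_iff H s₂ v).1 (line_two hi h₂ hv)
  have h1 : (H.up.U ^ (t % orderOf (B.q a))) s₂ = v := by
    rw [ht]
    conv_rhs => rw [← Nat.mod_add_div t (orderOf (B.q a)), H.up.U_pow_add]
    exact ((up_fix H _ _).2 (dvd_mul_right _ _)).symm
  rcases Nat.eq_zero_or_pos (t % orderOf (B.q a)) with h2 | h2
  · refine ⟨orderOf (B.q a), hM, le_rfl, ?_⟩
    rw [h2, pow_zero, Equiv.Perm.one_apply] at h1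
    rw [← h1]
    exact ((up_fix H _ _).2 dvd_rfl).symm
  · exact ⟨_, h2, (Nat.mod_lt _ hM).le, h1.symm⟩

variable {p : ℕ} {w : Bool → Q → ZMod p} (H : Hyp B a eps D z k) (hi : (zpowers (B.q a)).index = 2)
  (E : Pos3 B a H.up c F x s₁ s₂ u d) (hW : Wt3 B a H.up k F x s₂ d w)

include hi E hW

theorem w_diff {v : Q} (hv : v ∈ F) : w false v = w true v + lamx B a x p v := by
  by_cases h : x⁻¹ * v ∈ zpowers (B.q a)
  · rw [lamx_one h, (hW.w₁ v hv h).1, (hW.w₁ v hv h).2, zero_add]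
  · obtain ⟨t, h1, h2, rfl⟩ := two_line H hi E.l₂ h
    rw [lamx_neg h, (hW.w₂ t h1 h2 hv).1, (hW.w₂ t h1 h2 hv).2]
    by_cases h3 : t ≤ d
    · rw [if_pos h3, if_pos h3, zero_add]
    · rw [if_neg h3, if_neg h3, add_neg_cancel]

theorem w_01 {v : Q} (hv : v ∈ F) : w true v = 0 ∨ w true v = 1 := by
  by_cases h : x⁻¹ * v ∈ zpowers (B.q a)
  · exact Or.inl (hW.w₁ v hv h).2
  · obtain ⟨t, h1, h2, rfl⟩ := two_line H hi E.l₂ h
    rw [(hW.w₂ t h1 h2 hv).2]
    by_cases h3 : t ≤ d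
    · rw [if_pos h3]; exact Or.inl rfl
    · rw [if_neg h3]; exact Or.inr rfl

omit hi in
theorem w_two (hs : s₂ ∈ F) : w true s₂ = 1 := by
  have := H.fin
  have hM : 0 < orderOf (B.q a) := orderOf_pos _
  have h1 : (H.up.U ^ orderOf (B.q a)) s₂ = s₂ := (up_fix H _ _).2 dvd_rfl
  have h2 := (hW.w₂ _ hM le_rfl (by rw [h1]; exact hs)).2
  rw [h1] at h2
  rw [h2, if_neg]
  have := E.half
  have := E.p₁
  omega

theorem w_nb {v : Q} (hv : v ∈ F) (hl : x⁻¹ * v ∉ zpowers (B.q a)) (hr : Rng H.up c x v) (hne : v ≠ s₁) :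
    w true v = 1 := by
  obtain ⟨t, h1, h2, h3⟩ := two_line H hi E.l₂ hl
  have h4 : ¬ t < d := fun h => E.nb v hv hr t h1 h h3
  have h5 : t ≠ d := by
    rintro rfl
    exact hne (h3.trans E.h₁)
  subst h3
  rw [(hW.w₂ t h1 h2 hv).2, if_neg (by omega)]

end wt

/-! ### The state -/

section main

variable {Q : Type} [Group Q] [DecidableEq Q] {B : Lb.{0, 0} Q} {a : B.L} {eps : Q →* ℤˣ} {D : Subgroup Q} {z : Q}
  {k c W : ℕ} {H : Hyp B a eps D z k} {x s₁ s₂ u : Q} {b₁ b₂ : B.L} {j : ℕ} {F : Finset Q} {d : ℕ}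
  {C : SCtx B a H.up D k c W x s₁ s₂ b₁ b₂ j F}

theorem core (P : PS H C) (hi : (zpowers (B.q a)).index = 2) (E : Pos3 B a H.up c F x s₁ s₂ u d) {p : ℕ}
    (hp : p.Prime) (hkp : 4 * k < p) {w : Bool → Q → ZMod p} (hW : Wt3 B a H.up k F x s₂ d w) {t : B.L}
    (ht : ¬ Com H.up t) (G : BGad (H.frd C.fr).toFrt) {p₀ p₁ : ℕ} {Γ : Subgroup (Sy (H.frd C.fr).toFrt)}
    (gok : GOK (H.frd C.fr) G t p₀ p₁ Γ) (hGx : G.x = ⟨x, C.fx⟩) (hoff : |(p₁ : ℤ) - p₀| ≤ 2 * c)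
    (hxΓ : (H.frd C.fr).cj (G.x : Q) ∈ Γ)
    (hbal : ∀ (A : Set F) [DecidablePred (· ∈ A)], (∀ v, v ∈ A ↔ ∃ g ∈ Γ, g • G.x = v ∨ g • G.y = v) →
      (∑ L : F, if L ∈ A then lamx B a x p (L : Q) else 0) = 0) (γ : Bool) :
    ∃ (s : Puz.St F (Rg (Fin 5) (Sy (H.frd C.fr).toFrt)) ((bigP (fam0 P G P.G₀ P.G₀)).TokOf P.f))
      (q : Sy (H.frd C.fr).toFrt), q ∈ Γ ∧
      (bigP (fam0 P G P.G₀ P.G₀)).WReach ((bigP (fam0 P G P.G₀ P.G₀)).st₁ P.f) s ∧ s.1 = ⟨2, q⟩ ∧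
      Function.Injective s.2 ∧
      (∀ L, (∃ t, s.2 t = L) ↔ ¬ (bigP (fam0 P G P.G₀ P.G₀)).On s.1 L) ∧
      (∀ S : Set F, (∀ v, v ∈ S ↔ ∃ g ∈ Γ, g • G.x = v ∨ g • G.y = v) → ∀ [DecidablePred (· ∈ S)],
        (∑ t : (bigP (fam0 P G P.G₀ P.G₀)).TokOf P.f, if s.2 t ∈ S then w γ ((t : F) : Q) else 0) ≠ 0) := by
  classical
  have hfin := H.fin
  have hpf : Fact p.Prime := ⟨hp⟩
  have htn := ncom_zp H ht
  have hnc := ncom H ht
  have hx0 : (G.x : Q) = x := congrArg Subtype.val hGx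
  obtain ⟨X, hX⟩ : ∃ X, X = bigP (fam0 P G P.G₀ P.G₀) := ⟨_, rfl⟩
  obtain ⟨zz, hzz⟩ : ∃ zz : ℕ → F, zz = fun n => (H.frd C.fr).cj (G.x : Q) ^ n • G.y := ⟨_, rfl⟩
  obtain ⟨rr, hrr⟩ : ∃ rr : ℕ → Rg (Fin 5) (Sy (H.frd C.fr).toFrt), rr = fun n => ⟨2, (H.frd C.fr).cj (G.x : Q) ^ n⟩ :=
    ⟨_, rfl⟩
  have hxr : ∀ n, X.x (rr n) = P.l₀ := by
    intro n
    rw [hX, hrr]
    show (H.frd C.fr).cj (G.x : Q) ^ n • G.x = P.l₀
    rw [(H.frd C.fr).cj_pow_self]
    exact hGx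
  have hyr : ∀ n, X.y (rr n) = zz n := by
    intro n
    rw [hX, hrr, hzz]
    rfl
  have honr : ∀ n, X.On (rr n) P.l₀ := fun n => Or.inl (hxr n).symm
  have hothr : ∀ n, X.oth (rr n) P.l₀ = zz n := by
    intro n
    unfold Puz.oth
    rw [if_pos (hxr n).symm]
    exact hyr n
  have hothf : X.oth P.f P.l₀ = P.l₁ := by rw [hX]; exact P.othf _ _ _
  have hothg : X.oth P.g P.l₀ = P.l₂ := by rw [hX]; exact P.othg _ _ _
  have honf : ∀ L, X.On P.f L ↔ L = P.l₀ ∨ L = P.l₁ := by rw [hX]; exact P.onf_iff _ _ _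
  have hadj : X.Adj P.g P.f P.l₀ := by rw [hX]; exact P.adj _ _ _
  have hwr : X.WReach (X.st₁ P.f) (X.stb P.f P.g P.l₀) := by subst hX; exact P.rb _ _ _
  have hrng : ∀ n, Rng H.up c x (zz n) ∧ x⁻¹ * (zz n : Q) ∉ zpowers (B.q a) := by
    intro n
    have h1 : (H.up.U ^ ((n + p₀) % k)) (G.x : Q) * B.q t =
        (H.up.U ^ ((p₁ : ℤ) - p₀ + ((n + p₀) % k : ℕ))) (zz n : Q) := by
      rw [hzz]
      exact (H.frd C.fr).rungY (n := n) (m := (n + p₀) % k) (q := (n + p₀) / k) gok.edge (Nat.div_add_mod _ _).symm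
    rw [hx0] at h1
    refine ⟨⟨((n + p₀) % k : ℕ), t, (p₁ : ℤ) - p₀, hoff, ?_⟩, ?_⟩
    · rw [zpow_natCast, h1, add_comm]
    · intro h2
      apply htn
      have h3 := (up_zp' H ((p₁ : ℤ) - p₀ + ((n + p₀) % k : ℕ)) _ x).2 h2
      rw [← h1] at h3
      have h4 := up_zp H (((n + p₀) % k : ℕ) : ℤ) x
      rw [zpow_natCast] at h4
      have h5 : x⁻¹ * ((H.up.U ^ ((n + p₀) % k)) x * B.q t) = x⁻¹ * (H.up.U ^ ((n + p₀) % k)) x * B.q t := by group
      rw [h5] at h3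
      exact (Subgroup.mul_mem_cancel_left _ h4).1 h3
  have h01 : zz 0 ≠ zz 1 := by
    rw [hzz]
    intro h1
    have h2 : (H.frd C.fr).cj (G.x : Q) • G.y = G.y := by
      have h3 : (H.frd C.fr).cj (G.x : Q) ^ 0 • G.y = (H.frd C.fr).cj (G.x : Q) ^ 1 • G.y := h1
      rw [pow_zero, pow_one, one_smul] at h3
      exact h3.symm
    exact gen_ne (H.frd C.fr).dat gok.edge hnc (cj_fix (H.frd C.fr) G.x G.y h2)
  have hw₂ : w true (P.l₂ : Q) = 1 := w_two H E hW C.lv.h₂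
  have hnz : ∀ n, zz n ≠ P.l₀ := by
    intro n h1
    apply (hrng n).2
    have h2 : (zz n : Q) = x := congrArg Subtype.val h1
    rw [h2, inv_mul_cancel]
    exact Subgroup.one_mem _
  have hwz : ∀ n, zz n ≠ P.l₁ → w true (zz n : Q) = 1 := by
    intro n h1
    exact w_nb H hi E hW (zz n).2 (hrng n).2 (hrng n).1 fun h2 => h1 (Subtype.ext h2)
  obtain ⟨A, hA⟩ : ∃ A : Set F, ∀ v, v ∈ A ↔ ∃ g ∈ Γ, g • G.x = v ∨ g • G.y = v :=
    ⟨{v | ∃ g ∈ Γ, g • G.x = v ∨ g • G.y = v}, fun v => Iff.rfl⟩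
  have hxA : P.l₀ ∈ A := (hA _).2 ⟨1, Γ.one_mem, Or.inl (by rw [one_smul]; exact hGx)⟩
  have hzA : ∀ n, zz n ∈ A := fun n => (hA _).2 ⟨_, Γ.pow_mem hxΓ n, Or.inr (by rw [hzz])⟩
  have hexn : ∀ v : F, ∃ n, zz n ≠ v := by
    intro v
    by_cases h1 : zz 0 = v
    · exact ⟨1, fun h2 => h01 (h1.trans h2.symm)⟩
    · exact ⟨0, h1⟩
  have htok : ∀ v : F, v ≠ P.l₀ → v ≠ P.l₁ → ¬ X.On P.f v := by
    intro v h1 h2 h3
    rcases (honf v).1 h3 with h | h
    · exact h1 h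
    · exact h2 h
  have hne12 : X.oth P.f P.l₀ ≠ X.oth P.g P.l₀ := by rw [hothf, hothg]; exact P.n₁₂.symm
  -- the rung
  obtain ⟨n, hn, tk, htk₁, htk₂⟩ : ∃ n, zz n ≠ P.l₂ ∧ ∃ tk : X.TokOf P.f,
      X.J P.g (rr n) P.l₀ (hb X P.f P.g P.l₀ tk) ∈ A ∧ w true ((tk : F) : Q) = 1 := by
    by_cases c2 : P.l₂ ∈ A
    · obtain ⟨n, hn⟩ := hexn P.l₂
      refine ⟨n, hn, ?_⟩
      by_cases c1 : zz n = P.l₁
      · refine ⟨⟨P.l₂, htok _ P.n₀₂ P.n₁₂⟩, ?_, hw₂⟩
        show X.J P.g (rr n) P.l₀ (hb X P.f P.g P.l₀ P.l₂) ∈ A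
        have h1 := J_hb_two (r := rr n) hne12
        rw [hothf, hothg, hothr, if_pos c1.symm] at h1
        rw [h1]
        exact c2
      · refine ⟨⟨zz n, htok _ (hnz n) c1⟩, ?_, hwz n c1⟩
        show X.J P.g (rr n) P.l₀ (hb X P.f P.g P.l₀ (zz n)) ∈ A
        have h1 := J_hb_z (P := X) (f := P.f) (g := P.g) (r := rr n) (l₀ := P.l₀) (by rw [hothr, hothg]; exact hn)
        rw [hothg, hothr] at h1
        rw [h1]
        exact c2
    · have hz2 : ∀ n, zz n ≠ P.l₂ := fun n h1 => c2 (by rw [← h1]; exact hzA n)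
      by_cases c1 : P.l₁ ∈ A
      · obtain ⟨n, hn⟩ := hexn P.l₁
        refine ⟨n, hz2 n, ⟨P.l₂, htok _ P.n₀₂ P.n₁₂⟩, ?_, hw₂⟩
        show X.J P.g (rr n) P.l₀ (hb X P.f P.g P.l₀ P.l₂) ∈ A
        have h1 := J_hb_two (r := rr n) hne12
        rw [hothf, hothg, hothr, if_neg hn.symm] at h1
        rw [h1]
        exact c1
      · have hz1 : ∀ n, zz n ≠ P.l₁ := fun n h1 => c1 (by rw [← h1]; exact hzA n)
        refine ⟨0, hz2 0, ⟨zz 1, htok _ (hnz 1) (hz1 1)⟩, ?_, hwz 1 (hz1 1)⟩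
        show X.J P.g (rr 0) P.l₀ (hb X P.f P.g P.l₀ (zz 1)) ∈ A
        rw [J_hb_else (by rw [hothr]; exact h01.symm) (by rw [hothg]; exact hz2 1)]
        exact hzA 1
  -- the step
  have hadj' : X.Adj P.g (rr n) P.l₀ := ⟨hadj.1, honr n, by rw [hothg, hothr]; exact hn.symm⟩
  have hgb : X.Good (X.stb P.f P.g P.l₀) := V.Start.good_stb hadj
  have hgJ := good_J (s := X.stb P.f P.g P.l₀) (r := rr n) (v := P.l₀) hadj' hgb
  have hgs := Puz.good_step (s := X.stb P.f P.g P.l₀) (r' := rr n) (v := P.l₀) hadj' hgb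
  have hT : ∀ L, X.T (rr n) L ∈ A ↔ L ∈ A := by
    intro L
    rw [hX, hrr]
    exact T_pres (G := fam0 P G P.G₀ P.G₀) (i := 2) (Γ := Γ) gok hA (Γ.pow_mem hxΓ n) L
  -- the sum
  have hsum : ∀ (S : Set F), (∀ v, v ∈ S ↔ ∃ g ∈ Γ, g • G.x = v ∨ g • G.y = v) → ∀ [DecidablePred (· ∈ S)],
      (∑ t : X.TokOf P.f, if (X.step (rr n) P.l₀ (X.stb P.f P.g P.l₀)).2 t ∈ S then w γ ((t : F) : Q) else 0) ≠ 0 := by
    intro S hS hdec
    have hSA : S = A := by
      ext v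
      rw [hS, hA]
    subst hSA
    have e0 : ∀ t : X.TokOf P.f, (X.step (rr n) P.l₀ (X.stb P.f P.g P.l₀)).2 t =
        X.T (rr n) (X.J P.g (rr n) P.l₀ (hb X P.f P.g P.l₀ t)) := fun t => rfl
    have e1 : ∀ t : X.TokOf P.f, (if (X.step (rr n) P.l₀ (X.stb P.f P.g P.l₀)).2 t ∈ S then w γ ((t : F) : Q) else 0) =
        if X.J P.g (rr n) P.l₀ (hb X P.f P.g P.l₀ t) ∈ S then w γ ((t : F) : Q) else 0 := by
      intro t
      rw [e0]
      by_cases h1 : X.J P.g (rr n) P.l₀ (hb X P.f P.g P.l₀ t) ∈ S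
      · rw [if_pos h1, if_pos ((hT _).2 h1)]
      · rw [if_neg h1, if_neg (fun h2 => h1 ((hT _).1 h2))]
    rw [Finset.sum_congr rfl fun t _ => e1 t]
    have hcard : (Finset.univ.filter (· ∈ S)).card < p := by
      have h1 := card_comp (H.frd C.fr) Γ G.x G.y S hA
      have h2 : Nat.card D ≤ k := Nat.le_of_dvd H.kpos H.card
      have := H.kpos
      omega
    have htrue : (∑ t : X.TokOf P.f, if X.J P.g (rr n) P.l₀ (hb X P.f P.g P.l₀ t) ∈ S then w true ((t : F) : Q) else 0) ≠ 0 :=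
      sum_ne hp (fun t : X.TokOf P.f => X.J P.g (rr n) P.l₀ (hb X P.f P.g P.l₀ t)) hgJ.1 S (fun t => w true ((t : F) : Q))
        (fun t => w_01 H hi E hW (t : F).2) ⟨tk, htk₁, htk₂⟩ hcard
    cases γ with
    | true => exact htrue
    | false =>
      have hlz : ∀ v : F, v = P.l₁ ∨ v = P.l₂ ∨ v = zz n → lamx B a x p (v : Q) = -1 := by
        have h2 : lamx B a x p (P.l₂ : Q) = -1 := lamx_neg E.l₂
        rintro v (rfl | rfl | rfl)
        · refine lamx_neg ?_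
          show x⁻¹ * s₁ ∉ zpowers (B.q a)
          rw [← E.h₁, ← zpow_natCast, up_zp' H]
          exact E.l₂
        · exact h2
        · exact lamx_neg (hrng n).2
      have hlJ : ∀ t : X.TokOf P.f, lamx B a x p ((X.J P.g (rr n) P.l₀ (hb X P.f P.g P.l₀ t) : F) : Q) =
          lamx B a x p ((t : F) : Q) := by
        intro t
        by_cases c2 : (t : F) = P.l₂
        · rw [c2, hlz P.l₂ (Or.inr (Or.inl rfl))]
          have h1 := J_hb_two (r := rr n) hne12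
          rw [hothf, hothg, hothr] at h1
          rw [h1]
          by_cases c1 : P.l₁ = zz n
          · rw [if_pos c1]
            exact hlz _ (Or.inr (Or.inl rfl))
          · rw [if_neg c1]
            exact hlz _ (Or.inl rfl)
        · by_cases c1 : (t : F) = zz n
          · rw [c1, hlz (zz n) (Or.inr (Or.inr rfl))]
            have h1 := J_hb_z (P := X) (f := P.f) (g := P.g) (r := rr n) (l₀ := P.l₀) (by rw [hothr, hothg]; exact hn)
            rw [hothg, hothr] at h1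
            rw [h1]
            exact hlz _ (Or.inr (Or.inl rfl))
          · rw [J_hb_else (by rw [hothr]; exact c1) (by rw [hothg]; exact c2)]
      have e2 : ∀ t : X.TokOf P.f, (if X.J P.g (rr n) P.l₀ (hb X P.f P.g P.l₀ t) ∈ S then w false ((t : F) : Q) else 0) =
          (if X.J P.g (rr n) P.l₀ (hb X P.f P.g P.l₀ t) ∈ S then w true ((t : F) : Q) else 0) +
          if X.J P.g (rr n) P.l₀ (hb X P.f P.g P.l₀ t) ∈ S then
            lamx B a x p ((X.J P.g (rr n) P.l₀ (hb X P.f P.g P.l₀ t) : F) : Q) else 0 := by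
        intro t
        by_cases h1 : X.J P.g (rr n) P.l₀ (hb X P.f P.g P.l₀ t) ∈ S
        · rw [if_pos h1, if_pos h1, if_pos h1, hlJ, w_diff H hi E hW (t : F).2]
        · rw [if_neg h1, if_neg h1, if_neg h1, add_zero]
      rw [Finset.sum_congr rfl fun t _ => e2 t, Finset.sum_add_distrib]
      have e3 := sum_lam (F := ZMod p) hgJ S (fun v : F => lamx B a x p (v : Q)) (v := P.l₀) (honr n) hxA
        (by show X.oth (rr n) P.l₀ ∈ S; rw [hothr]; exact hzA n)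
        (by
          show lamx B a x p (P.l₀ : Q) + lamx B a x p ((X.oth (rr n) P.l₀ : F) : Q) = 0
          rw [hothr, hlz (zz n) (Or.inr (Or.inr rfl)), lamx_one (by
            show x⁻¹ * x ∈ zpowers (B.q a)
            rw [inv_mul_cancel]
            exact Subgroup.one_mem _)]
          ring) (hbal S hA)
      rw [show (∑ t : X.TokOf P.f, if X.J P.g (rr n) P.l₀ (hb X P.f P.g P.l₀ t) ∈ S then
            lamx B a x p ((X.J P.g (rr n) P.l₀ (hb X P.f P.g P.l₀ t) : F) : Q) else 0) = 0 from e3, add_zero]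
      exact htrue
  subst hX
  subst hrr
  exact ⟨_, (H.frd C.fr).cj (G.x : Q) ^ n * G.δ, Γ.mul_mem (Γ.pow_mem hxΓ n) gok.del,
    hwr.trans (Puz.WReach.step hadj'), rfl, hgs.1, hgs.2, hsum⟩

theorem exists_GN (_ : PS H C) {t : B.L} (ht : ¬ Com H.up t) :
    ∃ (G : BGad (H.frd C.fr).toFrt) (p₀ p₁ : ℕ), G.x = ⟨x, C.fx⟩ ∧ |(p₁ : ℤ) - p₀| ≤ 2 * c ∧
      OKG (H.frd C.fr) (hgt F.card (2 * c + 2 * k)) G ∧
      (((∀ q : Sy (H.frd C.fr).toFrt, q • G.x ≠ G.y) ∧ GOK (H.frd C.fr) G t p₀ p₁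
          (Subgroup.closure {(H.frd C.fr).cj (G.x : Q), (H.frd C.fr).cj (G.y : Q)})) ∨
        ∃ η : Sy (H.frd C.fr).toFrt, η • G.x = G.y ∧ GOK (H.frd C.fr) G t p₀ p₁
          (Subgroup.closure {(H.frd C.fr).cj (G.x : Q), η})) := by
  have hW := hgtW C
  have hcW := cW' C
  obtain ⟨s', hs', o, ho, e0⟩ := dep_next C (dep_x C) (by omega) t 0
  rw [H.up.zero, zero_add] at e0
  have hs₁ : (H.up.U ^ (-o)) ((x : Q) * B.q t) = s' := by rw [e0, H.up.zneg]
  have hne : s' ≠ x := by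
    rintro rfl
    apply ncom_zp H ht
    have h1 := up_zp H o s'
    rwa [← e0, inv_mul_cancel_left] at h1
  have hF := C.fr
  by_cases hD : x⁻¹ * s' ∈ D
  · rw [← hs₁] at hD
    have ho1 := H.small_lev C.sink (c := 2 * c) (by omega) t x o (by push_cast; exact ho) hD
    obtain ⟨G, p, p', η, h1, h2, h3, h4, h5, h6⟩ := SQ3.gadN1 Q B H.up eps.ker D z F k (H.frd C.fr) (2 * c + 2 * k) t o
      ho1 ⟨x, C.fx⟩ hD (by rw [hs₁]; exact hne)
    exact ⟨G, p, p', h1, by rw [h3]; exact ho, h6.okg h2, Or.inr ⟨η, h4, h6⟩⟩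
  · rw [← hs₁] at hD
    obtain ⟨G, p, p', h1, h2, h3, h4, h5⟩ := SQ3.gadN2 Q B H.up eps.ker D z F k (H.frd C.fr) (2 * c + 2 * k) W hF.disj
      (by omega) t ⟨x, C.fx⟩ o (by push_cast; omega) (by rw [hs₁]; exact hs'.1) hD
    exact ⟨G, p, p', h1, by rw [h3]; exact ho, h5.okg h2, Or.inl ⟨h4, h5⟩⟩

end main

/-- S-F3N. -/
theorem f3n (h : NC0S) : F3NS := by
  intro Q _ _ B a eps D z k c W H x s₁ s₂ u b₁ b₂ j F C P d hi E p hp hkp V hz w hW t ht hI γ
  have hpf : Fact p.Prime := ⟨hp⟩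
  have hfin := H.fin
  obtain ⟨G, p₀, p₁, hGx, hoff, hok, hc⟩ := exists_GN P ht
  have hx0 : (G.x : Q) = x := congrArg Subtype.val hGx
  have hyG : ∀ Γ : Subgroup (Sy (H.frd C.fr).toFrt), GOK (H.frd C.fr) G t p₀ p₁ Γ →
      x⁻¹ * (G.y : Q) ∉ zpowers (B.q a) := by
    intro Γ gok h2
    apply ncom_zp H ht
    have h1 := gok.edge
    rw [hx0] at h1
    have h3 := (up_zp' H (p₁ : ℤ) _ x).2 h2
    rw [zpow_natCast, ← h1] at h3
    have h4 := up_zp H (p₀ : ℤ) x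
    rw [zpow_natCast] at h4
    have h5 : x⁻¹ * ((H.up.U ^ p₀) x * B.q t) = x⁻¹ * (H.up.U ^ p₀) x * B.q t := by group
    rw [h5] at h3
    exact (Subgroup.mul_mem_cancel_left _ h4).1 h3
  refine ⟨G, P.G₀, P.G₀, hok, P.ok₀, P.ok₀, ?_⟩
  have lc := P.lc hok P.ok₀ P.ok₀ hp hkp V hz (hW.lw γ)
  rcases hc with ⟨hxy, gok⟩ | ⟨η, hη, gok⟩
  · obtain ⟨s, q, hq, h1, h2, h3, h4, h5⟩ := core P hi E hp hkp hW ht G gok hGx hoff
      (Subgroup.subset_closure (by simp)) (fun A _ hA => bal2 (H.frd C.fr) G.x G.y hxy A hA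
        (fun v : F => lamx B a x p (v : Q)) (fun g hg => by
          refine lamx_one ?_
          have h6 := cl_line hi H (H.frd C.fr) _ _ hg G.x
          have h7 : x⁻¹ * ((g • G.x : F) : Q) = (G.x : Q)⁻¹ * ((g • G.x : F) : Q) := by rw [hx0]
          rw [h7]
          exact h6) (fun g hg => by
          refine lamx_neg fun h7 => hyG _ gok ?_
          have h6 := cl_line hi H (H.frd C.fr) _ _ hg G.y
          have h8 : x⁻¹ * ((g • G.y : F) : Q) = x⁻¹ * (G.y : Q) * ((G.y : Q)⁻¹ * ((g • G.y : F) : Q)) := by group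
          rw [h8] at h7
          exact (Subgroup.mul_mem_cancel_right _ h6).1 h7)) γ
    exact h.1 Q B H.up eps.ker D z F k (H.frd C.fr) (Fin 5) (fam0 P G P.G₀ P.G₀) _ P.f P.g P.l₀ p V (w γ) lc 2 t p₀ p₁ _
      rfl gok hxy (ncom H ht) hI s q hq h1 h2 h3 h4 h5
  · obtain ⟨s, q, hq, h1, h2, h3, h4, h5⟩ := core P hi E hp hkp hW ht G gok hGx hoff
      (Subgroup.subset_closure (by simp)) (fun A _ hA => by
        have hη' : η ∈ Subgroup.closure {(H.frd C.fr).cj (G.x : Q), η} := Subgroup.subset_closure (by simp)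
        have h6 := bal1 (h := H.frd C.fr) A hA (fun v : F => lamx B a x p (v : Q)) hη' (fun v => by
          have h7 := sw_line hi H (H.frd C.fr) η G.x (by
            rw [hη]
            have h8 : (G.x : Q)⁻¹ * (G.y : Q) = x⁻¹ * (G.y : Q) := by rw [hx0]
            rw [h8]
            exact hyG _ gok) v
          have h8 := line_sw hi (x := x) h7
          show lamx B a x p ((η • v : F) : Q) = - lamx B a x p (v : Q)
          by_cases h9 : x⁻¹ * (v : Q) ∈ zpowers (B.q a)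
          · rw [lamx_one h9, lamx_neg (fun h10 => h8.1 h10 h9)]
          · rw [lamx_neg h9, lamx_one (h8.2 h9), neg_neg])
        have h10 : (2 : ZMod p) ≠ 0 := by
          have h11 : ((2 : ℕ) : ZMod p) ≠ 0 := by
            rw [Ne, ZMod.natCast_eq_zero_iff]
            intro h12
            have := Nat.le_of_dvd (by norm_num) h12
            have := H.kpos
            omega
          exact_mod_cast h11
        exact (mul_eq_zero.1 h6).resolve_left h10) γ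
    exact h.2 Q B H.up eps.ker D z F k (H.frd C.fr) (Fin 5) (fam0 P G P.G₀ P.G₀) _ P.f P.g P.l₀ p V (w γ) lc 2 t p₀ p₁ η _
      rfl gok hη (ncom H ht) hI s q hq h1 h2 h3 h4 h5

end Pool.Agent.Lib.MP_688fd0_co.SQ3.Small
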