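import Pool.Agent.Lib.MP_688fd0_co.SQ3.Small.Iface

/-!
Row FAC: go round a closed walk several times.
-/

set_option autoImplicit false

namespace Pool.Agent.Lib.MP_688fd0_co.SQ3.Small

open Pool.Agent.Lib.MP_688fd0_co.OSF Pool.Agent.Lib.MP_688fd0_co.SQ2

namespace H94

universe u v w z

section

variable {Q : Type u} [Group Q] {B : Lb.{u, v} Q} {R : Type w} [CommRing R] (V : Vd B R)

theorem es_map {R' : Type z} [CommRing R'] (f : R →+* R') (x : Q × R) (l : List B.L) :
    es (V.map f) (x.1, f x.2) l = (es V x l).map fun y => (y.1, f y.2) := by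
  induction l generalizing x with
  | nil => rfl
  | cons g l ih =>
    have h := ih (x.1 * B.q g, x.2 + V.chi x.1 * V.n g)
    simp only [es, List.map_cons, List.cons.injEq, true_and]
    rw [← h]
    simp only [map_add, map_mul]
    rfl

theorem ef_map {R' : Type z} [CommRing R'] (f : R →+* R') (x : Q × R) (l : List B.L) :
    ef (V.map f) (x.1, f x.2) l = ((ef V x l).1, f (ef V x l).2) := by
  induction l generalizing x with
  | nil => rfl
  | cons g l ih =>
    have h := ih (x.1 * B.q g, x.2 + V.chi x.1 * V.n g)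
    simp only [ef]
    rw [← h]
    simp only [map_add, map_mul]
    rfl

/-- Several rounds. -/
theorem mem_rounds (x : Q × R) (l : List B.L) (hl : B.fin x.1 l = x.1) (j : ℕ) :
    ∀ i < j, ∀ y ∈ es V x l, (y.1, y.2 + i * V.vol x.1 l) ∈ es V x (List.replicate j l).flatten := by
  induction j with
  | zero => intro i hi; exact absurd hi (Nat.not_lt_zero _)
  | succ j ih =>
    intro i hi y hy
    rw [List.replicate_succ, List.flatten_cons, es_append, List.mem_append]
    rcases i with _ | i
    · left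
      simpa using hy
    · right
      have h := ih i (by omega) y hy
      rw [ef_eq, hl, es_add, List.mem_map]
      refine ⟨_, h, ?_⟩
      simp only [Prod.mk.injEq, true_and]
      push_cast
      ring

theorem length_rounds (l : List B.L) (j : ℕ) : (List.replicate j l).flatten.length = j * l.length := by
  simp

/-- A closed walk through all vertices gives a path. -/
theorem hp_of_closed (x : Q × R) (l : List B.L) (h1 : (es V x l).Nodup) (h2 : ∀ y, y ∈ es V x l) : HP V := by
  rcases List.eq_nil_or_concat l with h | ⟨l', g, h⟩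
  · subst h
    exact absurd (h2 x) (by simp [es])
  · subst h
    have e : es V x (l'.concat g) = ev V x l' := by
      rw [List.concat_eq_append, es_append, ev_eq]; rfl
    rw [e] at h1 h2
    exact ⟨x, l', h1, h2⟩

end

/-- The multiples of the volume. -/
theorem mult {m r : ℕ} [NeZero m] (hr : r ∣ m) (hsq : Squarefree m) (v t : ZMod m)
    (hv : ZMod.castHom hr (ZMod r) v = 0) (ht : ZMod.castHom hr (ZMod r) t = 0)
    (hp : ∀ p ∈ m.primeFactors, ¬ p ∣ r → rd p v ≠ 0) : ∃ j < m / r, t = (j : ZMod m) * v := by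
  have hm : m ≠ 0 := NeZero.ne m
  have hr0 : r ≠ 0 := fun h => hm (by rw [h] at hr; exact Nat.eq_zero_of_zero_dvd hr)
  have key : ∀ x : ZMod m, ZMod.castHom hr (ZMod r) x = 0 → r ∣ x.val := by
    intro x hx
    rw [ZMod.castHom_apply, ← ZMod.natCast_val] at hx
    exact (ZMod.natCast_eq_zero_iff _ _).1 hx
  have hv' := key v hv
  have ht' := key t ht
  clear key hv ht
  obtain ⟨s, hs⟩ := hr
  obtain ⟨v', hv'⟩ := hv'
  obtain ⟨t', ht'⟩ := ht'
  have hs0 : s ≠ 0 := by rintro rfl; exact hm (by simpa using hs)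
  have : NeZero s := ⟨hs0⟩
  have hcop : Nat.Coprime v' s := by
    apply Nat.coprime_of_dvd
    intro k hk h1 h2
    have hkm : k ∣ m := hs ▸ (h2.trans (Dvd.intro_left _ rfl))
    refine hp k (Nat.mem_primeFactors.2 ⟨hk, hkm, hm⟩) ?_ ?_
    · intro h3
      have h4 : k * k ∣ m := hs ▸ Nat.mul_dvd_mul h3 h2
      exact hk.one_lt.ne' (Nat.isUnit_iff.1 (hsq k h4))
    · unfold rd
      rw [← ZMod.natCast_val, ZMod.natCast_eq_zero_iff, hv']
      exact h1.trans (Dvd.intro_left _ rfl)
  have hq : m / r = s := by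
    rw [hs]; exact Nat.mul_div_cancel_left _ (Nat.pos_of_ne_zero hr0)
  refine ⟨((t' : ZMod s) * (v' : ZMod s)⁻¹).val, by rw [hq]; exact ZMod.val_lt _, ?_⟩
  have h1 : ((((t' : ZMod s) * (v' : ZMod s)⁻¹).val * v' : ℕ) : ZMod s) = (t' : ZMod s) := by
    rw [Nat.cast_mul, ZMod.natCast_zmod_val, mul_assoc, mul_comm (v' : ZMod s)⁻¹,
      ZMod.coe_mul_inv_eq_one _ hcop, mul_one]
  have h2 := (ZMod.natCast_eq_natCast_iff _ _ _).1 h1
  have h3 := Nat.ModEq.mul_left' r h2
  rw [← hs] at h3
  have h4 := (ZMod.natCast_eq_natCast_iff _ _ _).2 h3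
  have ev : v = ((r * v' : ℕ) : ZMod m) := by rw [← hv']; exact (ZMod.natCast_zmod_val v).symm
  have et : t = ((r * t' : ℕ) : ZMod m) := by rw [← ht']; exact (ZMod.natCast_zmod_val t).symm
  rw [et, ev, ← Nat.cast_mul, ← h4]
  congr 1
  ring

end H94

open H94

theorem fac : FacS := by
  intro Q _ _ B m r _ V hr x₀ w hsq h1 h2 h3 h4
  classical
  have hm : m ≠ 0 := NeZero.ne m
  have hr0 : r ≠ 0 := fun h => hm (by rw [h] at hr; exact Nat.eq_zero_of_zero_dvd hr)
  have : NeZero r := ⟨hr0⟩
  have := Fintype.ofFinite Q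
  set f := ZMod.castHom hr (ZMod r) with hf
  have h0 : f 0 = 0 := map_zero f
  have e1 := es_map V f (x₀, 0) w
  have e2 := ef_map V f (x₀, 0) w
  simp only [h0] at e1 e2
  rw [e2, ef_eq, Prod.mk.injEq, zero_add] at h3
  obtain ⟨hfin, hvol⟩ := h3
  rw [e1] at h2
  have hlen : w.length = Fintype.card Q * r := by
    have a1 : (es (V.map f) (x₀, 0) w).toFinset = Finset.univ := by
      ext y
      simp only [List.mem_toFinset, Finset.mem_univ, iff_true]
      rw [e1]; exact h2 y
    have a2 := List.toFinset_card_of_nodup h1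
    rw [a1, es_length, Finset.card_univ, Fintype.card_prod, ZMod.card] at a2
    exact a2.symm
  have hcov : ∀ y : Q × ZMod m, y ∈ es V (x₀, 0) (List.replicate (m / r) w).flatten := by
    intro y
    obtain ⟨z, hz, hzy⟩ := List.mem_map.1 (h2 (y.1, f y.2))
    rw [Prod.mk.injEq] at hzy
    have hd : f (y.2 - z.2) = 0 := by rw [map_sub, hzy.2, sub_self]
    obtain ⟨j, hj, hj'⟩ := mult hr hsq (V.vol x₀ w) (y.2 - z.2) hvol hd h4
    have := mem_rounds V (x₀, 0) w hfin (m / r) j hj z hz
    rw [← hj', hzy.1, add_sub_cancel] at this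
    exact this
  have hnd : (es V (x₀, 0) (List.replicate (m / r) w).flatten).Nodup := by
    have a1 : (es V (x₀, 0) (List.replicate (m / r) w).flatten).toFinset = Finset.univ := by
      ext y
      simp only [List.mem_toFinset, Finset.mem_univ, iff_true]
      exact hcov y
    have a2 : (es V (x₀, 0) (List.replicate (m / r) w).flatten).toFinset.card =
        (es V (x₀, 0) (List.replicate (m / r) w).flatten).length := by
      rw [a1, es_length, length_rounds, hlen, Finset.card_univ, Fintype.card_prod, ZMod.card,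
        Nat.mul_comm (Fintype.card Q) r, ← Nat.mul_assoc, Nat.div_mul_cancel hr, Nat.mul_comm]
    exact Multiset.toFinset_card_eq_card_iff_nodup.1 a2
  exact hp_of_closed V _ _ hnd hcov

end Pool.Agent.Lib.MP_688fd0_co.SQ3.Small
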