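import Pool.Agent.Lib.MP_688fd0_co.SQ3.Small.IfaceS
import Pool.Agent.Lib.MP_688fd0_co.SQ3.V.CGad
import Pool.Agent.Lib.MP_688fd0_co.SQ3.V.Key

/-!
Rows S-FW1 and S-F3A: one window, class I, a label which commutes with `U`.
-/

set_option autoImplicit false

namespace Pool.Agent.Lib.MP_688fd0_co.SQ3.Small

open Pool.Agent.Lib.MP_688fd0_co.OSF Pool.Agent.Lib.MP_688fd0_co.SQ2
open Subgroup (zpowers)
open V (Puz)

namespace Fw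

section

variable {Q : Type} [Group Q] [DecidableEq Q] {B : Lb.{0, 0} Q} {a : B.L} {eps : Q →* ℤˣ} {D : Subgroup Q} {z : Q}
  {k c W : ℕ} {H : Hyp B a eps D z k} {x s₁ s₂ : Q} {b₁ b₂ : B.L} {j : ℕ} {F : Finset Q}
  {C : SCtx B a H.up D k c W x s₁ s₂ b₁ b₂ j F}

theorem not_on (P : PS H C) (G₂ G₃ G₄ : BGad (H.frd C.fr).toFrt) {u : F} (h0 : u ≠ P.l₀) (h1 : u ≠ P.l₁) :
    ¬ (bigP (fam0 P G₂ G₃ G₄)).On P.f u := by
  rw [P.onf_iff]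
  rintro (h | h)
  · exact h0 h
  · exact h1 h

/-- The rungs of a commuting gadget are straight. -/
theorem T_one {P : PS H C} {G₂ G₃ G₄ : BGad (H.frd C.fr).toFrt} {i : Fin 5} {b : B.L} {p₀ p₁ : ℕ}
    (hC : COK (H.frd C.fr) (fam0 P G₂ G₃ G₄ i) b p₀ p₁) (g : Sy (H.frd C.fr).toFrt) :
    (bigP (fam0 P G₂ G₃ G₄)).T ⟨i, g⟩ = 1 := by
  apply Equiv.ext
  intro s
  show g • (fam0 P G₂ G₃ G₄ i).T (g⁻¹ • s) = s
  rw [hC.T, Equiv.Perm.one_apply, smul_inv_smul]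

/-- At the cap, a commuting rung at an end of the cap. -/
theorem stepS (P : PS H C) {p : ℕ} (hp : p.Prime) (hkp : 4 * k < p) (V : Vd B (ZMod p))
    (hz : V.chi z = 1) {w : Q → ZMod p} (hw : LW H.up F k w) {b : B.L} (hI : CaseI H.up V b)
    {G : BGad (H.frd C.fr).toFrt} {p₀ p₁ : ℕ} (hC : COK (H.frd C.fr) G b p₀ p₁)
    (hO : OKG (H.frd C.fr) (hgt F.card (2 * c + 2 * k)) G)
    (hv : G.x = P.l₀ ∨ G.x = P.l₂) (h0 : G.y ≠ P.l₀) (h2 : G.y ≠ P.l₂)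
    (hy1 : G.y = P.l₁ → w s₂ ≠ 0) (hy2 : G.y ≠ P.l₁ → w (G.y : Q) ≠ 0) : P.Suc V w := by
  refine ⟨G, P.G₀, P.G₀, hO, P.ok₀, P.ok₀, ?_⟩
  have hLC := P.lc hO P.ok₀ P.ok₀ hp hkp V hz hw
  have hothg := P.othg G P.G₀ P.G₀
  have hothf := P.othf G P.G₀ P.G₀
  obtain ⟨t, ht, hwt⟩ : ∃ t : (bigP (fam0 P G P.G₀ P.G₀)).TokOf P.f,
      ((bigP (fam0 P G P.G₀ P.G₀)).stb P.f P.g P.l₀).2 t = G.y ∧ w ((t : F) : Q) ≠ 0 := by
    by_cases h1 : G.y = P.l₁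
    · refine ⟨⟨P.l₂, not_on P G P.G₀ P.G₀ P.n₀₂ P.n₁₂⟩, ?_, hy1 h1⟩
      show (if P.l₂ = (bigP (fam0 P G P.G₀ P.G₀)).oth P.g P.l₀ then
        (bigP (fam0 P G P.G₀ P.G₀)).oth P.f P.l₀ else P.l₂) = G.y
      rw [hothg, if_pos rfl, hothf, h1]
    · refine ⟨⟨G.y, not_on P G P.G₀ P.G₀ h0 h1⟩, ?_, hy2 h1⟩
      show (if G.y = (bigP (fam0 P G P.G₀ P.G₀)).oth P.g P.l₀ then
        (bigP (fam0 P G P.G₀ P.G₀)).oth P.f P.l₀ else G.y) = G.y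
      rw [hothg, if_neg h2]
  refine cma0 SQ3.V.keyA hLC (i := 2) hC hI (P.rb G P.G₀ P.G₀) ?_ ?_ ht hwt
  · show (bigP (fam0 P G P.G₀ P.G₀)).On P.g G.x
    rcases hv with h | h
    · rw [h]; exact P.ong G P.G₀ P.G₀
    · rw [h]; exact P.ong₂ G P.G₀ P.G₀
  · show (bigP (fam0 P G P.G₀ P.G₀)).oth P.g G.x ≠ G.y
    rcases hv with h | h
    · rw [h, hothg]; exact fun h' => h2 h'.symm
    · rw [h, P.othg₂]
      exact fun h' => h0 h'.symm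

/-- All tokens home, a commuting rung at an end of the cup; `Gh` is the commuting rung from the centre to the second
leaf. -/
theorem homeS (P : PS H C) {p : ℕ} (hp : p.Prime) (hkp : 4 * k < p) (V : Vd B (ZMod p))
    (hz : V.chi z = 1) {w : Q → ZMod p} (hw : LW H.up F k w) {b b' : B.L} (hI : CaseI H.up V b)
    {G Gh : BGad (H.frd C.fr).toFrt} {p₀ p₁ p₂ p₃ : ℕ} (hC : COK (H.frd C.fr) G b p₀ p₁)
    (hO : OKG (H.frd C.fr) (hgt F.card (2 * c + 2 * k)) G) (hCh : COK (H.frd C.fr) Gh b' p₂ p₃)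
    (hOh : OKG (H.frd C.fr) (hgt F.card (2 * c + 2 * k)) Gh) (hxh : Gh.x = P.l₀) (hyh : Gh.y = P.l₂)
    (hv : G.x = P.l₀ ∨ G.x = P.l₁) (h0 : G.y ≠ P.l₀) (h1 : G.y ≠ P.l₁) (hwy : w (G.y : Q) ≠ 0) : P.Suc V w := by
  refine ⟨G, Gh, P.G₀, hO, hOh, P.ok₀, ?_⟩
  have hLC := P.lc hO hOh P.ok₀ hp hkp V hz hw
  have hothf := P.othf G Gh P.G₀
  have hT : (bigP (fam0 P G Gh P.G₀)).T ⟨3, 1⟩ = 1 := T_one (P := P) (G₂ := G) (G₃ := Gh) (G₄ := P.G₀) (i := 3) hCh 1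
  have hx1 : (bigP (fam0 P G Gh P.G₀)).x ⟨3, 1⟩ = Gh.x := one_smul _ _
  have hon1 : (bigP (fam0 P G Gh P.G₀)).On ⟨3, 1⟩ P.l₀ := Or.inl (by rw [hx1, hxh])
  have hoth1 : (bigP (fam0 P G Gh P.G₀)).oth ⟨3, 1⟩ P.l₀ = P.l₂ := by
    unfold Puz.oth
    rw [hx1, if_pos hxh.symm, ← hyh]
    show (1 : Sy (H.frd C.fr).toFrt) • Gh.y = Gh.y
    rw [one_smul]
  have hadj : (bigP (fam0 P G Gh P.G₀)).Adj P.f ⟨3, 1⟩ P.l₀ :=
    ⟨P.onf G Gh P.G₀, hon1, by rw [hoth1, hothf]; exact P.n₁₂.symm⟩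
  have ht1 := SQ2.V.FC1.tau_on (bigP (fam0 P G Gh P.G₀)) hT hon1
  have hreach := SQ3.V.home (P.ret G Gh P.G₀) hadj hT ht1.1 ht1.2
  refine cma0 SQ3.V.keyA hLC (i := 2) hC hI (s := (P.f, fun t => (t : F)))
    (t := ⟨G.y, not_on P G Gh P.G₀ h0 h1⟩) hreach ?_ ?_ rfl hwy
  · show (bigP (fam0 P G Gh P.G₀)).On P.f G.x
    rcases hv with h | h
    · rw [h]; exact P.onf G Gh P.G₀
    · rw [h]; exact P.onf₁ G Gh P.G₀
  · show (bigP (fam0 P G Gh P.G₀)).oth P.f G.x ≠ G.y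
    rcases hv with h | h
    · rw [h, hothf]; exact fun h' => h1 h'.symm
    · rw [h, P.othf₁]; exact fun h' => h0 h'.symm

/-- The state after the cup, if the label of the cup commutes; a commuting rung from the centre to the second leaf. -/
theorem st1S (P : PS H C) {p : ℕ} (hp : p.Prime) (hkp : 4 * k < p) (V : Vd B (ZMod p))
    (hz : V.chi z = 1) {w : Q → ZMod p} (hw : LW H.up F k w) (hb₁ : Com H.up b₁) {b : B.L} (hI : CaseI H.up V b)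
    {G : BGad (H.frd C.fr).toFrt} {p₀ p₁ : ℕ} (hC : COK (H.frd C.fr) G b p₀ p₁)
    (hO : OKG (H.frd C.fr) (hgt F.card (2 * c + 2 * k)) G) (hx : G.x = P.l₀) (hy : G.y = P.l₂) (hwy : w s₂ ≠ 0) :
    P.Suc V w := by
  refine ⟨G, P.G₀, P.G₀, hO, P.ok₀, P.ok₀, ?_⟩
  have hLC := P.lc hO P.ok₀ P.ok₀ hp hkp V hz hw
  have hT : (bigP (fam0 P G P.G₀ P.G₀)).T P.f = 1 := T_one (P := P) (G₂ := G) (G₃ := P.G₀) (G₄ := P.G₀) (i := 0) (P.co₀ hb₁) _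
  have ht1 := SQ2.V.FC1.tau_on (bigP (fam0 P G P.G₀ P.G₀)) hT (P.onf G P.G₀ P.G₀)
  refine cma0 SQ3.V.keyA hLC (i := 2) hC hI (s := (bigP (fam0 P G P.G₀ P.G₀)).st₁ P.f)
    (t := ⟨P.l₂, not_on P G P.G₀ P.G₀ P.n₀₂ P.n₁₂⟩) (Puz.WReach.refl _) ?_ ?_ ?_ hwy
  · show (bigP (fam0 P G P.G₀ P.G₀)).On ((bigP (fam0 P G P.G₀ P.G₀)).tau P.f) G.x
    rw [hx]
    exact ht1.1
  · show (bigP (fam0 P G P.G₀ P.G₀)).oth ((bigP (fam0 P G P.G₀ P.G₀)).tau P.f) G.x ≠ G.y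
    rw [hx, hy, ht1.2, P.othf]
    exact P.n₁₂.symm
  · show (bigP (fam0 P G P.G₀ P.G₀)).T P.f P.l₂ = G.y
    rw [hT, hy]
    rfl

/-- A label with the image `A` or `A⁻¹`. -/
theorem oneS (P : PS H C) {p : ℕ} (hp : p.Prime) (hkp : 4 * k < p) (V : Vd B (ZMod p))
    (hz : V.chi z = 1) {w : Q → ZMod p} (hw : LW H.up F k w) {t : B.L} (ht : B.q t = B.q a ∨ B.q t = (B.q a)⁻¹)
    (hI : CaseI H.up V t) (hI' : CaseI H.up V (B.inv t)) (s : F) (h0 : s ≠ P.l₀) (h1 : s ≠ P.l₁)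
    (hws : w (s : Q) ≠ 0) : P.Suc V w := by
  refine ⟨P.G₀, P.G₀, P.G₀, P.ok₀, P.ok₀, P.ok₀, ?_⟩
  have hLC := P.lc P.ok₀ P.ok₀ P.ok₀ hp hkp V hz hw
  refine one0 hLC hI.up ?_ s h0 (by rw [P.othf]; exact h1) hws
  intro y
  have h2 : B.q (H.up.up y) = B.q a ∨ B.q (H.up.up y) = (B.q a)⁻¹ := by
    show B.q (if eps y = 1 then a else B.inv a) = B.q a ∨ B.q (if eps y = 1 then a else B.inv a) = (B.q a)⁻¹
    by_cases h : eps y = 1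
    · rw [if_pos h]; exact Or.inl rfl
    · rw [if_neg h, B.q_inv]; exact Or.inr rfl
  rcases ht with h | h <;> rcases h2 with h3 | h3
  · exact ⟨t, h.trans h3.symm, hI.nb⟩
  · exact ⟨B.inv t, by rw [B.q_inv, h, h3], hI'.nb⟩
  · exact ⟨B.inv t, by rw [B.q_inv, h, h3, inv_inv], hI'.nb⟩
  · exact ⟨t, h.trans h3.symm, hI.nb⟩

end

section

variable {Q : Type} [Group Q] {B : Lb.{0, 0} Q} {a : B.L} {eps : Q →* ℤˣ} {D : Subgroup Q} {z : Q}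
  {k : ℕ} (H : Hyp B a eps D z k)

theorem com_inv {U : Up B} {b : B.L} (h : Com U b) : Com U (B.inv b) := by
  intro x
  have h1 := h (x * (B.q b)⁻¹)
  rw [inv_mul_cancel_right] at h1
  rw [B.q_inv, h1, mul_inv_cancel_right]

include H in
theorem line (y : Q) (n : ℤ) : y⁻¹ * (H.up.U ^ n) y ∈ zpowers (B.q a) := by
  rw [H.zpow_eq, inv_mul_cancel_left]
  exact Subgroup.zpow_mem_zpowers _ _

include H in
theorem line_iff (x y : Q) (n : ℤ) : x⁻¹ * (H.up.U ^ n) y ∈ zpowers (B.q a) ↔ x⁻¹ * y ∈ zpowers (B.q a) := by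
  have h1 : x⁻¹ * (H.up.U ^ n) y = x⁻¹ * y * (y⁻¹ * (H.up.U ^ n) y) := by group
  rw [h1]
  exact Subgroup.mul_mem_cancel_right _ (line H y n)

include H in
/-- The strand of `s b`. -/
theorem line_b {s s' b : Q} {o : ℤ} (h : s * b = (H.up.U ^ o) s') :
    s⁻¹ * s' ∈ zpowers (B.q a) ↔ b ∈ zpowers (B.q a) := by
  rw [← line_iff H s s' o, ← h, inv_mul_cancel_left]

include H in
theorem U_ord (y : Q) (n : ℤ) : (H.up.U ^ ((orderOf (B.q a) : ℤ) * n)) y = y := by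
  rw [H.zpow_eq, mul_left_comm, zpow_mul, zpow_natCast, pow_orderOf_eq_one, one_zpow, mul_one]

include H in
theorem U_eq_iff (y : Q) (m n : ℤ) : (H.up.U ^ m) y = (H.up.U ^ n) y → (orderOf (B.q a) : ℤ) ∣ m - n := by
  intro h
  rw [H.zpow_eq, H.zpow_eq] at h
  have h1 := mul_left_cancel h
  have h2 := zpow_eq_zpow_iff_modEq.1 h1
  have h3 : (orderOf (B.q a) : ℤ) ∣ ((eps y : ℤˣ) : ℤ) * n - ((eps y : ℤˣ) : ℤ) * m := (Int.modEq_iff_dvd).1 h2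
  have h4 : m - n = -(((eps y : ℤˣ) : ℤ) * (((eps y : ℤˣ) : ℤ) * n - ((eps y : ℤˣ) : ℤ) * m)) := by
    rw [mul_sub, eps_eps, eps_eps]
    ring
  rw [h4]
  exact (dvd_neg).2 (Dvd.dvd.mul_left h3 _)

include H in
/-- The position on a line. -/
theorem pos {y y' : Q} (h : y⁻¹ * y' ∈ zpowers (B.q a)) :
    ∃ τ : ℕ, 0 < τ ∧ τ ≤ orderOf (B.q a) ∧ (H.up.U ^ τ) y = y' := by
  have := H.fin
  have hM : (0 : ℤ) < orderOf (B.q a) := by exact_mod_cast orderOf_pos (B.q a)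
  obtain ⟨n, hn⟩ := Subgroup.mem_zpowers_iff.1 h
  obtain ⟨m, hm⟩ : ∃ m : ℤ, m = ((eps y : ℤˣ) : ℤ) * n := ⟨_, rfl⟩
  have h1 : y' = (H.up.U ^ m) y := by
    rw [hm, ← H.mul_zpow, hn, mul_inv_cancel_left]
  have h2 := Int.emod_add_mul_ediv (m - 1) (orderOf (B.q a))
  have h3 := Int.emod_nonneg (m - 1) hM.ne'
  have h4 := Int.emod_lt_of_pos (m - 1) hM
  refine ⟨((m - 1) % (orderOf (B.q a)) + 1).toNat, by omega, by omega, ?_⟩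
  rw [← zpow_natCast, Int.toNat_of_nonneg (by omega), h1]
  have h5 : m = ((m - 1) % (orderOf (B.q a)) + 1) + (orderOf (B.q a)) * ((m - 1) / (orderOf (B.q a))) := by linarith
  conv_rhs => rw [h5, H.up.zadd, U_ord H]

end

end Fw

open Fw

theorem fw1 : FW1S := by
  intro Q _ _ B a eps D z k c W H x s₁ s₂ b₁ b₂ j F C P p hp hkp V hz w hw hne hcom t hI hI'
  by_cases ht : B.q t = B.q a ∨ B.q t = (B.q a)⁻¹
  · exact oneS P hp hkp V hz hw ht hI hI' P.l₂ P.n₀₂ P.n₁₂ (hne _ C.lv.h₂)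
  · push Not at ht
    obtain ⟨y, hy, o, ho, he⟩ := dep_next C (dep_x C) (by omega) t 0
    have hyx : y ≠ x := ne_strand C ht.1 ht.2 ho he
    rw [H.up.zero, zero_add] at he
    obtain ⟨G, p₀, p₁, hGx, hGy, hC, hO⟩ := exists_CG0 cgadS C (s := P.l₀) (s' := ⟨y, hy.1⟩) (hcom t)
      (fun h => hyx (congrArg Subtype.val h).symm) ho he
    by_cases h2 : y = s₂
    · exact st1S P hp hkp V hz hw (hcom b₁) hI hC hO hGx (by rw [hGy]; exact Subtype.ext h2) (hne _ C.lv.h₂)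
    · refine stepS P hp hkp V hz hw hI hC hO (Or.inl hGx) ?_ ?_ (fun _ => hne _ C.lv.h₂)
        (fun _ => hne _ (Subtype.property _))
      · rw [hGy]; exact fun h => hyx (congrArg Subtype.val h)
      · rw [hGy]; exact fun h => h2 (congrArg Subtype.val h)

end Pool.Agent.Lib.MP_688fd0_co.SQ3.Small
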