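import Pool.Agent.Lib.MP_688fd0_co.SQ3.Small.Gam0
import Pool.Agent.Lib.MP_688fd0_co.SQ3.V.CGad
import Pool.Agent.Lib.MP_688fd0_co.SQ3.H98.GadN

/-!
Case 2, class II: waiting at `st₁` before the rung of the label `b₂` from `s₁` to `s₃`.
-/

set_option autoImplicit false

namespace Pool.Agent.Lib.MP_688fd0_co.SQ3.Small

open Pool.Agent.Lib.MP_688fd0_co.OSF Pool.Agent.Lib.MP_688fd0_co.SQ2
open Subgroup (zpowers)
open V (Puz)

theorem fw2 : FW2S := by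
  intro Q _ _ B a eps D z k c W H x s₁ s₂ b₁ b₂ j F C P d hi h2 p hp hkp V hz w hw hw2 hw1 t hII
  have hp0 : Fact p.Prime := ⟨hp⟩
  have hfin := H.fin
  have h20 : (2 : ZMod p) ≠ 0 := by
    intro h
    have h1 : ((2 : ℕ) : ZMod p) = 0 := by exact_mod_cast h
    rw [ZMod.natCast_eq_zero_iff] at h1
    have := Nat.le_of_dvd (by omega) h1
    have := H.kpos
    omega
  -- the strand `s₃`
  obtain ⟨s₃, hs₃, o, ho, he⟩ := dep_next C (dep₁ C) (by omega) b₂ 0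
  have hne : s₃ ≠ s₁ := ne_strand C h2.n₁ h2.n₂ ho he
  rw [H.up.zero, zero_add] at he
  have hl₃ : x⁻¹ * s₃ ∉ zpowers (B.q a) := by
    intro h
    apply h2.l₁
    have h3 : s₁ = s₃ * B.q a ^ (((eps s₃ : ℤˣ) : ℤ) * o) * (B.q b₂)⁻¹ := by
      rw [← H.zpow_eq, ← he, mul_inv_cancel_right]
    rw [h3, ← mul_assoc, ← mul_assoc]
    exact mul_mem (mul_mem h (Subgroup.zpow_mem_zpowers _ _)) (inv_mem h2.hb₂)
  have h30 : s₃ ≠ x := by
    rintro rfl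
    apply hl₃
    rw [inv_mul_cancel]
    exact one_mem _
  have hw3 : w s₃ = 1 := hw1 s₃ hs₃.1 hl₃
  have hu0 : (⟨s₃, hs₃.1⟩ : F) ≠ P.l₀ := fun h => h30 (congrArg Subtype.val h)
  have hu1 : (⟨s₃, hs₃.1⟩ : F) ≠ P.l₁ := fun h => hne (congrArg Subtype.val h)
  obtain ⟨G, q, q', hGx, hGy, -, hO⟩ := exists_CG0 cgadS C (s := P.l₁) (s' := ⟨s₃, hs₃.1⟩) (b := b₂)
    (h2.com b₂) hu1.symm ho he
  have hLC := P.lc hO P.ok₀ P.ok₀ hp hkp V hz hw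
  refine ⟨G, P.G₀, P.G₀, hO, P.ok₀, P.ok₀, ?_⟩
  -- the cap after the gadget of `f`
  have hT : (bigP (fam0 P G P.G₀ P.G₀)).T P.f = 1 := by
    apply Equiv.ext
    intro s
    have hC := P.co₀ (h2.com b₁)
    show (P.f).h • P.G₀.T ((P.f).h⁻¹ • s) = s
    rw [hC.T, Equiv.Perm.one_apply, smul_inv_smul]
  have hends := (bigP (fam0 P G P.G₀ P.G₀)).T_ends P.f
  rw [hT, Equiv.Perm.one_apply, Equiv.Perm.one_apply, P.xf, P.yf] at hends
  have hon1 : (bigP (fam0 P G P.G₀ P.G₀)).On ((bigP (fam0 P G P.G₀ P.G₀)).tau P.f) P.l₁ := by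
    rcases hends with h | h
    · exact Or.inr h.2
    · exact Or.inl h.2
  have hoth1 : (bigP (fam0 P G P.G₀ P.G₀)).oth ((bigP (fam0 P G P.G₀ P.G₀)).tau P.f) P.l₁ = P.l₀ := by
    unfold Puz.oth
    rcases hends with h | h
    · rw [← h.1, if_neg P.n₀₁]
    · rw [if_pos h.2]
      exact h.1.symm
  have hst : (bigP (fam0 P G P.G₀ P.G₀)).st₁ P.f =
      ((bigP (fam0 P G P.G₀ P.G₀)).tau P.f,
        fun t : (bigP (fam0 P G P.G₀ P.G₀)).TokOf P.f => (t : F)) := by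
    refine Prod.ext rfl (funext fun t => ?_)
    show (bigP (fam0 P G P.G₀ P.G₀)).T P.f (t : F) = t
    rw [hT, Equiv.Perm.one_apply]
  have hxr : (bigP (fam0 P G P.G₀ P.G₀)).x ⟨2, 1⟩ = P.l₁ := by
    show (1 : Sy (H.frd C.fr).toFrt) • G.x = _
    rw [one_smul, hGx]
  have hyr : (bigP (fam0 P G P.G₀ P.G₀)).y ⟨2, 1⟩ = ⟨s₃, hs₃.1⟩ := by
    show (1 : Sy (H.frd C.fr).toFrt) • G.y = _
    rw [one_smul, hGy]
  have hoth : (bigP (fam0 P G P.G₀ P.G₀)).oth ⟨2, 1⟩ P.l₁ = ⟨s₃, hs₃.1⟩ := by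
    unfold Puz.oth
    rw [hxr, if_pos rfl, hyr]
  have hadj : (bigP (fam0 P G P.G₀ P.G₀)).Adj ((bigP (fam0 P G P.G₀ P.G₀)).tau P.f) ⟨2, 1⟩ P.l₁ :=
    ⟨hon1, Or.inl hxr.symm, by rw [hoth1, hoth]; exact hu0.symm⟩
  have hnf : ¬ (bigP (fam0 P G P.G₀ P.G₀)).On P.f ⟨s₃, hs₃.1⟩ := by
    rw [P.onf_iff]
    rintro (h | h)
    · exact hu0 h
    · exact hu1 h
  refine wait0 hLC hII.om (s := (bigP (fam0 P G P.G₀ P.G₀)).st₁ P.f) (Puz.WReach.refl _) (r' := ⟨2, 1⟩)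
    (v := P.l₁) hadj ?_
  have e1 := gam_home (P := bigP (fam0 P G P.G₀ P.G₀)) (fun s : F => H.up.wt V (s : Q))
    (fun s : F => w (s : Q)) (f := P.f) (r' := (bigP (fam0 P G P.G₀ P.G₀)).tau P.f) hoth hnf
  have e2 := gam_stb_f (P := bigP (fam0 P G P.G₀ P.G₀)) (fun s : F => H.up.wt V (s : Q))
    (fun s : F => w (s : Q)) (P.adj G P.G₀ P.G₀)
  rw [hoth1] at e1
  rw [P.othg, P.othf] at e2
  rw [hst, e1, e2]
  have hne := wt_ne H hi hII h2.l₁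
  intro h0
  apply hne
  have a0 : ((P.l₀ : F) : Q) = x := rfl
  have a1 : ((P.l₁ : F) : Q) = s₁ := rfl
  have a2 : ((P.l₂ : F) : Q) = s₂ := rfl
  simp only [a0, a1, a2, hw3, hw2] at h0
  have h4 : 2 * (H.up.wt V x - H.up.wt V s₁) = 0 := by linear_combination h0
  exact sub_eq_zero.1 ((mul_eq_zero.1 h4).resolve_left h20)

end Pool.Agent.Lib.MP_688fd0_co.SQ3.Small
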