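import Pool.Agent.Lib.MP_688fd0_co.SQ3.Small.Iface

/-! Module GAU: change of gauge (helper49). -/

set_option autoImplicit false

namespace Pool.Agent.Lib.MP_688fd0_co.SQ3.Small

open Pool.Agent.Lib.MP_688fd0_co.OSF Pool.Agent.Lib.MP_688fd0_co.SQ2

theorem gau : GauS := by
  intro Q _ B R _ V V' t hchi hn ⟨x, l, hnd, hall⟩
  let Φ : Q × R → Q × R := fun y => (y.1, y.2 + t * (V.chi y.1 - 1))
  have hinj : Function.Injective Φ := by
    rintro ⟨a, b⟩ ⟨c, d⟩ h
    simp only [Φ, Prod.mk.injEq] at h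
    obtain ⟨rfl, h2⟩ := h
    rw [add_right_cancel h2]
  have hmap : ∀ (l : List B.L) (x : Q × R), ev V (Φ x) l = (ev V' x l).map Φ := by
    intro l
    induction l with
    | nil => intro x; rfl
    | cons g l ih =>
      intro x
      have h1 : ((Φ x).1 * B.q g, (Φ x).2 + V.chi (Φ x).1 * V.n g) =
          Φ (x.1 * B.q g, x.2 + V'.chi x.1 * V'.n g) := by
        simp only [Φ, Prod.mk.injEq, true_and, map_mul, hn, hchi]
        ring
      show Φ x :: ev V ((Φ x).1 * B.q g, (Φ x).2 + V.chi (Φ x).1 * V.n g) l = _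
      rw [h1, ih]
      rfl
  refine ⟨Φ x, l, ?_, fun y => ?_⟩
  · rw [hmap]
    exact hnd.map hinj
  · rw [hmap, List.mem_map]
    refine ⟨(y.1, y.2 - t * (V.chi y.1 - 1)), hall _, ?_⟩
    simp [Φ]

end Pool.Agent.Lib.MP_688fd0_co.SQ3.Small
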