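import Pool.Agent.Lib.MP_688fd0_co.SQ3.Small.Iface

/-!
HS: a directed Hamiltonian path in a finite abelian group (Holsztynski - Strube).
-/

set_option autoImplicit false

namespace Pool.Agent.Lib.MP_688fd0_co.SQ3.Small

namespace HS

variable {Γ : Type} [AddCommGroup Γ]

theorem sc_append (x : Γ) (l : List Γ) (s : Γ) (l' : List Γ) :
    (l ++ s :: l').scanl (fun x y : Γ => x + y) x =
      l.scanl (fun x y : Γ => x + y) x ++ l'.scanl (fun x y : Γ => x + y) (x + l.sum + s) := by
  induction l generalizing x with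
  | nil => simp [List.scanl]
  | cons g l ih =>
    simp only [List.cons_append, List.scanl_cons, List.sum_cons, ih, List.cons.injEq, true_and]
    rw [show x + g + l.sum + s = x + (g + l.sum) + s by abel]

theorem sc_map (x y : Γ) (l : List Γ) :
    l.scanl (fun x y : Γ => x + y) (x + y) = (l.scanl (fun x y : Γ => x + y) y).map (fun z => x + z) := by
  induction l generalizing y with
  | nil => simp
  | cons g l ih =>
    simp only [List.scanl_cons, List.map_cons, List.cons.injEq, true_and]
    rw [← ih, add_assoc]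

theorem key (H : AddSubgroup Γ) (L : List Γ) (hn : (L.scanl (fun x y : Γ => x + y) 0).Nodup)
    (hm : ∀ y, y ∈ L.scanl (fun x y : Γ => x + y) 0 ↔ y ∈ H) (hs : L.sum ∈ H) (s : Γ) (n : ℕ)
    (hj : ∀ j : ℕ, 0 < j → j ≤ n → j • s ∉ H) :
    ∃ P : List Γ, (∀ x ∈ P, x ∈ L ∨ x = s) ∧ (P.scanl (fun x y : Γ => x + y) 0).Nodup ∧
      (∀ y, y ∈ P.scanl (fun x y : Γ => x + y) 0 ↔ ∃ j : ℕ, j ≤ n ∧ y - j • s ∈ H) ∧ P.sum - n • s ∈ H := by
  induction n with
  | zero =>
    refine ⟨L, fun x hx => Or.inl hx, hn, fun y => ?_, by simpa using hs⟩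
    rw [hm]
    constructor
    · intro h
      exact ⟨0, le_refl _, by simpa using h⟩
    · rintro ⟨j, hj0, h⟩
      have : j = 0 := by omega
      subst this
      simpa using h
  | succ n ih =>
    obtain ⟨P, hP1, hP2, hP3, hP4⟩ := ih (fun j h1 h2 => hj j h1 (by omega))
    have hmem : ∀ y, y ∈ L.scanl (fun x y : Γ => x + y) (0 + P.sum + s) ↔ y - (n + 1) • s ∈ H := by
      intro y
      have e : (0 + P.sum + s : Γ) = (P.sum + s) + 0 := by abel
      rw [e, sc_map, List.mem_map]
      constructor
      · rintro ⟨z, hz, rfl⟩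
        have e2 : P.sum + s + z - (n + 1) • s = (P.sum - n • s) + z := by
          rw [add_smul, one_smul]; abel
        rw [e2]
        exact H.add_mem hP4 ((hm z).1 hz)
      · intro h
        refine ⟨y - (P.sum + s), (hm _).2 ?_, by abel⟩
        have e2 : y - (P.sum + s) = (y - (n + 1) • s) - (P.sum - n • s) := by
          rw [add_smul, one_smul]; abel
        rw [e2]
        exact H.sub_mem h hP4
    refine ⟨P ++ s :: L, ?_, ?_, ?_, ?_⟩
    · intro x hx
      rw [List.mem_append, List.mem_cons] at hx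
      rcases hx with hx | hx | hx
      · exact hP1 x hx
      · exact Or.inr hx
      · exact Or.inl hx
    · rw [sc_append, List.nodup_append']
      refine ⟨hP2, ?_, ?_⟩
      · have e : (0 + P.sum + s : Γ) = (P.sum + s) + 0 := by abel
        rw [e, sc_map]
        exact hn.map (add_right_injective _)
      · intro y h1 h2
        obtain ⟨j, hj1, hj2⟩ := (hP3 y).1 h1
        have h3 := (hmem y).1 h2
        refine hj (n + 1 - j) (by omega) (by omega) ?_
        have e2 : (n + 1 - j) • s = (y - j • s) - (y - (n + 1) • s) := by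
          rw [show (n + 1 : ℕ) • s = (n + 1 - j) • s + j • s by
            rw [← add_smul]; congr 1; omega]
          abel
        rw [e2]
        exact H.sub_mem hj2 h3
    · intro y
      rw [sc_append, List.mem_append, hP3, hmem]
      constructor
      · rintro (⟨j, h1, h2⟩ | h)
        · exact ⟨j, by omega, h2⟩
        · exact ⟨n + 1, le_refl _, h⟩
      · rintro ⟨j, h1, h2⟩
        by_cases h : j ≤ n
        · exact Or.inl ⟨j, h, h2⟩
        · have : j = n + 1 := by omega
          subst this
          exact Or.inr h2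
    · have e2 : (P ++ s :: L).sum - (n + 1) • s = (P.sum - n • s) + L.sum := by
        rw [List.sum_append, List.sum_cons, add_smul, one_smul]; abel
      rw [e2]
      exact H.add_mem hP4 hs

theorem fin [Finite Γ] (T : Finset Γ) :
    ∃ L : List Γ, (∀ x ∈ L, x ∈ T) ∧ (L.scanl (fun x y : Γ => x + y) 0).Nodup ∧
      ∀ y, y ∈ L.scanl (fun x y : Γ => x + y) 0 ↔ y ∈ AddSubgroup.closure (T : Set Γ) := by
  classical
  induction T using Finset.induction_on with
  | empty =>
    refine ⟨[], by simp, by simp, fun y => ?_⟩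
    simp
  | insert s T hs ih =>
    obtain ⟨L, h1, h2, h3⟩ := ih
    have hex : ∃ n : ℕ, 0 < n ∧ n • s ∈ AddSubgroup.closure (T : Set Γ) :=
      ⟨addOrderOf s, addOrderOf_pos s, by rw [addOrderOf_nsmul_eq_zero]; exact zero_mem _⟩
    obtain ⟨N, ⟨hN0, hN1⟩, hN2⟩ :
        ∃ N : ℕ, (0 < N ∧ N • s ∈ AddSubgroup.closure (T : Set Γ)) ∧
          ∀ j : ℕ, j < N → ¬ (0 < j ∧ j • s ∈ AddSubgroup.closure (T : Set Γ)) :=
      ⟨Nat.find hex, Nat.find_spec hex, fun j hj => Nat.find_min hex hj⟩
    have hsum : L.sum ∈ AddSubgroup.closure (T : Set Γ) :=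
      AddSubgroup.list_sum_mem _ (fun x hx => AddSubgroup.subset_closure (h1 x hx))
    obtain ⟨P, hP1, hP2, hP3, -⟩ := key (AddSubgroup.closure (T : Set Γ)) L h2 h3 hsum s (N - 1)
      (fun j hj hj' hm => hN2 j (by omega) ⟨hj, hm⟩)
    refine ⟨P, ?_, hP2, ?_⟩
    · intro x hx
      rcases hP1 x hx with h | h
      · exact Finset.mem_insert_of_mem (h1 x h)
      · rw [h]; exact Finset.mem_insert_self _ _
    · intro y
      rw [hP3, Finset.coe_insert, Set.insert_eq, AddSubgroup.closure_union, AddSubgroup.mem_sup]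
      constructor
      · rintro ⟨j, -, h⟩
        refine ⟨j • s, ?_, y - j • s, h, by abel⟩
        exact AddSubgroup.mem_closure_singleton.2 ⟨(j : ℤ), natCast_zsmul s j⟩
      · rintro ⟨z, hz, w, hw, rfl⟩
        obtain ⟨k, rfl⟩ := AddSubgroup.mem_closure_singleton.1 hz
        have hNz : (0 : ℤ) < N := by exact_mod_cast hN0
        have hk1 := Int.emod_nonneg k hNz.ne'
        have hk2 := Int.emod_lt_of_pos k hNz
        refine ⟨(k % N).toNat, by omega, ?_⟩
        have e1 : ((k % N).toNat : ℕ) • s = (k % N) • s := by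
          rw [← natCast_zsmul, Int.toNat_of_nonneg hk1]
        have e2 : k • s = (k % N) • s + (k / N) • (N • s) := by
          rw [← natCast_zsmul s N, smul_smul, ← add_smul]
          congr 1
          have := Int.emod_add_mul_ediv k N
          linarith [mul_comm (N : ℤ) (k / N)]
        rw [e1, e2, show (k % N) • s + (k / N) • (N • s) + w - (k % N) • s = (k / N) • (N • s) + w by abel]
        exact AddSubgroup.add_mem _ (AddSubgroup.zsmul_mem _ hN1 _) hw

end HS

theorem hs : HsS := by
  intro Γ _ _ S hS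
  classical
  obtain ⟨L, h1, h2, h3⟩ := HS.fin (Set.toFinite S).toFinset
  refine ⟨L, fun x hx => by simpa using h1 x hx, h2, fun y => ?_⟩
  rw [h3, Set.Finite.coe_toFinset, hS]
  trivial

end Pool.Agent.Lib.MP_688fd0_co.SQ3.Small
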