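import Pool.Agent.Lib.MP_688fd0_co.SQ3.Small.Iface

/-!
LIFT (board `sqs_modules`): a Hamiltonian path of the extension gives a listing sequence (helper28).
-/

set_option autoImplicit false

namespace Pool.Agent.Lib.MP_688fd0_co.SQ3.Small

open Pool.Agent.Lib.MP_688fd0_co.OSF Pool.Agent.Lib.MP_688fd0_co.SQ2

theorem lift : LiftS := by
  intro G _ _ Q _ _ m π s z chi ν hm0 hs hz hm hker hchi hν A B V lab hA hne hπ hνn hVc hHP
  haveI : NeZero m := ⟨hm0.ne'⟩
  obtain ⟨x, l, hnd, hcov⟩ := hHP
  obtain ⟨g0⟩ := hne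
  have hmod : ∀ n : ℕ, z ^ (n % m) = z ^ n := by
    intro n
    rw [← hm, pow_mod_orderOf]
  have zadd : ∀ a b : ZMod m, z ^ (a + b).val = z ^ a.val * z ^ b.val := by
    intro a b
    rw [ZMod.val_add, ← pow_add, hmod]
  have zmul : ∀ a b : ZMod m, z ^ (a * b).val = (z ^ a.val) ^ b.val := by
    intro a b
    rw [ZMod.val_mul, ← pow_mul, hmod]
  let Φ : Q × ZMod m → G := fun y => z ^ y.2.val * s y.1
  have step : ∀ (y : Q × ZMod m) (g : B.L),
      Φ (y.1 * B.q g, y.2 + V.chi y.1 * V.n g) = Φ y * lab g := by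
    intro y g
    show z ^ (y.2 + V.chi y.1 * V.n g).val * s (y.1 * B.q g) = z ^ y.2.val * s y.1 * lab g
    rw [zadd, zmul, hVc, ← hchi, conj_pow, ← hνn, map_mul]
    conv_rhs => rw [hν (lab g), hπ]
    group
  have hπΦ : ∀ y, π (Φ y) = y.1 := by
    intro y
    show π (z ^ y.2.val * s y.1) = y.1
    rw [map_mul, map_pow, hz, one_pow, one_mul, hs]
  have hinj : Function.Injective Φ := by
    intro y y' h
    have h1 : y.1 = y'.1 := by rw [← hπΦ y, h, hπΦ]
    have h2 : z ^ y.2.val = z ^ y'.2.val := by
      have h3 : z ^ y.2.val * s y.1 = z ^ y'.2.val * s y'.1 := h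
      rw [h1] at h3
      exact mul_right_cancel h3
    have h4 : y.2.val = y'.2.val := by
      refine pow_injOn_Iio_orderOf ?_ ?_ h2
      · rw [hm]; exact ZMod.val_lt _
      · rw [hm]; exact ZMod.val_lt _
    exact Prod.ext h1 (ZMod.val_injective m h4)
  have hsurj : Function.Surjective Φ := fun g => ⟨(π g, ν g), (hν g).symm⟩
  have walk : ∀ (l : List B.L) (x : Q × ZMod m) (k : ℕ) (hk : k < (ev V x l).length),
      Φ ((ev V x l)[k]) = Φ x * ((l.map lab).take k).prod := by
    intro l
    induction l with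
    | nil =>
      intro x k hk
      have : k = 0 := by
        have h1 : (ev V x []).length = 1 := rfl
        omega
      subst this
      simp [ev]
    | cons g l ih =>
      intro x k hk
      cases k with
      | zero => simp [ev]
      | succ k =>
        have h1 := ih (x.1 * B.q g, x.2 + V.chi x.1 * V.n g) k (by
          have h2 : (ev V x (g :: l)).length = (ev V (x.1 * B.q g, x.2 + V.chi x.1 * V.n g) l).length + 1 := rfl
          omega)
        have h3 : (ev V x (g :: l))[k + 1] = (ev V (x.1 * B.q g, x.2 + V.chi x.1 * V.n g) l)[k]'(by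
          have h2 : (ev V x (g :: l)).length = (ev V (x.1 * B.q g, x.2 + V.chi x.1 * V.n g) l).length + 1 := rfl
          omega) := rfl
        rw [h3, h1, step, List.map_cons, List.take_succ_cons, List.prod_cons, mul_assoc]
  have hcard : Nat.card G = l.length + 1 := by
    rw [← Nat.card_congr (Equiv.ofBijective Φ ⟨hinj, hsurj⟩), ← ev_length V x l]
    classical
    haveI : Fintype Q := Fintype.ofFinite Q
    rw [Nat.card_eq_fintype_card, ← Finset.card_univ, ← List.toFinset_card_of_nodup hnd]
    congr 1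
    ext y
    simp [hcov y]
  let w : List G := lab g0 :: l.map lab
  have hw : w.length = Nat.card G := by
    rw [hcard]
    simp [w]
  have hwA : ∀ y ∈ w, y ∈ A := by
    intro y hy
    rcases List.mem_cons.1 hy with rfl | hy
    · exact hA _
    · obtain ⟨g, _, rfl⟩ := List.mem_map.1 hy
      exact hA _
  refine ⟨fun i => w.get (i.cast hw.symm), fun i => hwA _ (List.get_mem _ _), ?_⟩
  have hof : List.ofFn (fun i : Fin (Nat.card G) => w.get (i.cast hw.symm)) = w := by
    apply List.ext_getElem
    · simp [hw]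
    · intro i h1 h2
      simp
  rw [hof]
  intro i j hij
  have hev : (ev V x l).length = Nat.card G := by rw [ev_length, hcard]
  have key : ∀ k : Fin (Nat.card G), ((w.take (k + 1)).prod : G) =
      lab g0 * (Φ x)⁻¹ * Φ ((ev V x l)[(k : ℕ)]'(by rw [hev]; exact k.2)) := by
    intro k
    rw [walk, List.take_succ_cons, List.prod_cons]
    group
  have hij' : (w.take (i + 1)).prod = (w.take (j + 1)).prod := hij
  rw [key, key] at hij'
  have h1 := hinj (mul_left_cancel hij')
  exact Fin.ext ((List.Nodup.getElem_inj_iff hnd).1 h1)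

end Pool.Agent.Lib.MP_688fd0_co.SQ3.Small
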