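import Pool.Agent.Lib.MP_688fd0_co.SQ3.Small.IfaceN

/-!
Row N-M3: MERGE with a property of the labels.
-/

set_option autoImplicit false

namespace Pool.Agent.Lib.MP_688fd0_co.SQ3.Small

open Pool.Agent.Lib.MP_688fd0_co.OSF Pool.Agent.Lib.MP_688fd0_co.SQ2
open Pool.Agent.Lib.MP_688fd0_co.OSF.H59 (dd fin_eq vol_eq)
open Pool.Agent.MP_688fd0_co.OSF.H59 (darts Reads oldS newS wt)

universe u v w

variable {Q : Type u} [Group Q] {B : Lb.{u, v} Q}

theorem mem_rev {l : List B.L} {b : B.L} (h : b ∈ B.rev l) : ∃ c ∈ l, b = B.inv c := by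
  unfold Lb.rev at h
  obtain ⟨c, hc, h1⟩ := List.mem_map.1 (List.mem_reverse.1 h)
  exact ⟨c, hc, h1.symm⟩

theorem reads_mem {A L : Type*} {f : A → L → A} {lab : A → L} {x : A} {l : List L} (h : Reads f lab x l) {y : A}
    (hy : y ∈ Pool.Agent.MP_688fd0_co.OSF.H59.src f x l) : lab y ∈ l := by
  induction l generalizing x with
  | nil => exact absurd hy (List.not_mem_nil)
  | cons a l ih =>
    obtain ⟨h1, h2⟩ := h.cons
    rcases List.mem_cons.1 hy with rfl | hy
    · rw [h1]; exact List.mem_cons_self
    · exact List.mem_cons_of_mem _ (ih h2 hy)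

variable [DecidableEq Q]

/-- MERGE, with a property of the labels. -/
theorem mergeP [Fintype Q] (U : Up B) {Λ : Type w} (ln : Q → Λ) (d : Q → Bool) {κ : Type} [DecidableEq κ]
    (k : Q → κ) {ι : Type} [Fintype ι] (X : ι → TW B) (n : ι → ℕ) (xs : ι → Q) (rk : ι → ℕ)
    (hln : ∀ x, ln (U.U x) = ln x) (hln' : ∀ x y, ln x = ln y → ∃ m : ℕ, y = (U.U ^ m) x)
    (hsurj : Function.Surjective ln) (hd : ∀ x, d (U.U x) = d x) (hk : ∀ x, k (U.U x) = k x)
    (hF : ∀ i, Flat U (X i) (n i) (xs i))
    (hdir : ∀ i, d (X i).u₀ = !d (X i).u₁ ∧ d (xs i) = !d (X i).u₁)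
    (hP : PosU U.U (fun i => (X i).L₀) n (fun i => (X i).u₁) (fun i => (X i).u₀) xs)
    (hT : TreeK ln k (fun i => (X i).u₁) (fun i => (X i).u₀) xs rk) :
    ∃ T : TourS B κ, (∀ x, ∃ y, T.cls x = k y) ∧
      (∀ P : B.L → Prop, (∀ b, P b → P (B.inv b)) →
        (∀ x, (∀ i, ∀ y ∈ (X i).L₀, ∀ s < n i, x ≠ (U.U ^ s) y) → P (U.up x)) →
        (∀ i, (∀ b ∈ (X i).cup, P b) ∧ (∀ b ∈ (X i).cap, P b) ∧ ∀ x ∈ (X i).tok₀, ∀ b ∈ (X i).path x, P b) →
        ∀ x, P (T.lab x)) ∧
      ∀ (R : Type) [CommRing R] (V : Vd B R) (γ : κ),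
      T.vol V γ = bvol V U d k (fun i => (X i).L₀) n γ + ∑ i, wvol V d k γ (X i) := by
  classical
  have hdA : ∀ x (m : ℕ), d ((U.U ^ m) x) = d x := by
    intro x m
    induction m with
    | zero => rfl
    | succ m ih => rw [perm_succ, hd, ih]
  have hkA : ∀ x (m : ℕ), k ((U.U ^ m) x) = k x := by
    intro x m
    induction m with
    | zero => rfl
    | succ m ih => rw [perm_succ, hk, ih]
  have hUi : ∀ x, U.U (U.U⁻¹ x) = x := fun x => by simp
  have hUi' : ∀ x, U.U⁻¹ (U.U x) = x := fun x => by simp
  have hd' : ∀ x, d (U.U⁻¹ x) = d x := fun x => by rw [← hd, hUi]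
  have hk' : ∀ x, k (U.U⁻¹ x) = k x := fun x => by rw [← hk, hUi]
  let lab : Q → B.L := lab0 U d
  have hlab1 : ∀ x, d x = true → dd B x (lab x) = U.U x := fun x h => by
    simp only [dd, lab, lab0, h, if_true, U.hU]
  have hlab2 : ∀ x, d x = false → dd B x (lab x) = U.U⁻¹ x := fun x h => by
    simp only [dd, lab, lab0, h, Bool.false_eq_true, if_false, B.q_inv]
    rw [mul_inv_eq_iff_eq_mul, ← U.hU, hUi]
  have hdf : ∀ x, d (dd B x (lab x)) = d x := by
    intro x
    rcases h : d x with _ | _
    · rw [hlab2 x h, hd', h]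
    · rw [hlab1 x h, hd, h]
  have hkf : ∀ x, k (dd B x (lab x)) = k x := by
    intro x
    rcases h : d x with _ | _
    · rw [hlab2 x h, hk']
    · rw [hlab1 x h, hk]
  have hb : Function.Bijective fun z => dd B z (lab z) := by
    rw [← Finite.injective_iff_bijective]
    intro x y hxy
    simp only at hxy
    have h1 : d x = d y := by rw [← hdf x, ← hdf y, hxy]
    rcases h : d x with _ | _
    · rw [hlab2 x h, hlab2 y (by rw [← h1, h])] at hxy
      exact U.U⁻¹.injective hxy
    · rw [hlab1 x h, hlab1 y (by rw [← h1, h])] at hxy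
      exact U.U.injective hxy
  let I : Finset (ι × Q) := Finset.univ.filter fun p => p.2 ∈ (X p.1).L₀
  have hI : ∀ p, p ∈ I ↔ p.2 ∈ (X p.1).L₀ := fun p => by simp [I]
  let F : ι × Q → Q × List B.L × List B.L := fun p =>
    (sta U d (n p.1) p.2, oldW U d (n p.1) p.2, newW d (X p.1) (xs p.1) p.2)
  let S : List (Q × List B.L × List B.L) := I.toList.map F
  have hS : ∀ s ∈ S, ∃ p ∈ I, F p = s := fun s hs => by
    obtain ⟨p, hp, h⟩ := List.mem_map.1 hs
    exact ⟨p, Finset.mem_toList.1 hp, h⟩
  have hS' : ∀ p ∈ I, F p ∈ S := fun p hp => List.mem_map_of_mem (Finset.mem_toList.2 hp)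
  -- sums over I
  have hsum : ∀ g : ι → Q → Multiset Q, ∑ p ∈ I, g p.1 p.2 = ∑ i, ∑ x ∈ (X i).L₀, g i x := by
    intro g
    rw [Finset.sum_filter, ← Finset.univ_product_univ, Finset.sum_product]
    refine Finset.sum_congr rfl fun i _ => ?_
    rw [← Finset.sum_filter]
    refine Finset.sum_congr ?_ fun _ _ => rfl
    ext x; simp
  have hsumR : ∀ {R : Type} [AddCommMonoid R] (g : ι → Q → R),
      ∑ p ∈ I, g p.1 p.2 = ∑ i, ∑ x ∈ (X i).L₀, g i x := by
    intro R _ g
    rw [Finset.sum_filter, ← Finset.univ_product_univ, Finset.sum_product]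
    refine Finset.sum_congr rfl fun i _ => ?_
    rw [← Finset.sum_filter]
    refine Finset.sum_congr ?_ fun _ _ => rfl
    ext x; simp
  have hfinold : ∀ p ∈ I, Pool.Agent.MP_688fd0_co.OSF.H59.fin (dd B) (F p).1 (F p).2.1 =
      exi U d (n p.1) p.2 := fun p _ => by rw [fin_eq]; exact fin_old _
  have hfinnew : ∀ p ∈ I, Pool.Agent.MP_688fd0_co.OSF.H59.fin (dd B) (F p).1 (F p).2.2 =
      newE U d (X p.1) (n p.1) (xs p.1) p.2 := fun p hp => by
    rw [fin_eq]; exact fin_new (hF p.1) (hdir p.1).1 (hdir p.1).2 ((hI p).1 hp)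
  have hoS : (oldS (dd B) S : Multiset Q) = ∑ p ∈ I, (src B (F p).1 (F p).2.1 : Multiset Q) := by
    rw [oldS, List.flatMap_map, coe_flatMap]
    exact Finset.sum_congr rfl fun p _ => by rw [src_eq]
  have hnS : (newS (dd B) S : Multiset Q) = ∑ p ∈ I, (src B (F p).1 (F p).2.2 : Multiset Q) := by
    rw [newS, List.flatMap_map, coe_flatMap]
    exact Finset.sum_congr rfl fun p _ => by rw [src_eq]
  have hso : ∀ i y z, z ∈ src B (sta U d (n i) y) (oldW U d (n i) y) ↔
      ∃ s < n i, z = (U.U ^ (if d y then s else s + 1)) y := by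
    intro i y z
    rw [← Multiset.mem_coe, src_old, Multiset.mem_map]
    constructor
    · rintro ⟨s, hs, rfl⟩
      exact ⟨s, Finset.mem_range.1 (Finset.mem_def.2 hs), rfl⟩
    · rintro ⟨s, hs, rfl⟩
      exact ⟨s, Finset.mem_def.1 (Finset.mem_range.2 hs), rfl⟩
  have hmem : ∀ z, z ∈ oldS (dd B) S ↔ ∃ i, ∃ y ∈ (X i).L₀, ∃ s < n i,
      z = (U.U ^ (if d y then s else s + 1)) y := by
    intro z
    rw [← Multiset.mem_coe, hoS, Multiset.mem_sum]
    constructor
    · rintro ⟨⟨i, y⟩, hp, hz⟩
      exact ⟨i, y, (hI _).1 hp, (hso i y z).1 hz⟩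
    · rintro ⟨i, y, hy, h⟩
      exact ⟨(i, y), (hI _).2 hy, (hso i y z).2 h⟩
  have hends : (S.map fun s => Pool.Agent.MP_688fd0_co.OSF.H59.fin (dd B) s.1 s.2.1).Perm
      (S.map fun s => Pool.Agent.MP_688fd0_co.OSF.H59.fin (dd B) s.1 s.2.2) := by
    rw [← Multiset.coe_eq_coe, List.map_map, List.map_map, coe_map_toList, coe_map_toList]
    have e1 : ∑ p ∈ I, ({((fun s : Q × List B.L × List B.L =>
        Pool.Agent.MP_688fd0_co.OSF.H59.fin (dd B) s.1 s.2.1) ∘ F) p} : Multiset Q) =
        ∑ p ∈ I, ({exi U d (n p.1) p.2} : Multiset Q) :=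
      Finset.sum_congr rfl fun p hp => by rw [← hfinold p hp]; rfl
    have e2 : ∑ p ∈ I, ({((fun s : Q × List B.L × List B.L =>
        Pool.Agent.MP_688fd0_co.OSF.H59.fin (dd B) s.1 s.2.2) ∘ F) p} : Multiset Q) =
        ∑ p ∈ I, ({newE U d (X p.1) (n p.1) (xs p.1) p.2} : Multiset Q) :=
      Finset.sum_congr rfl fun p hp => by rw [← hfinnew p hp]; rfl
    rw [e1, e2, hsum fun i x => {exi U d (n i) x}, hsum fun i x => {newE U d (X i) (n i) (xs i) x}]
    exact Finset.sum_congr rfl fun i _ => ends_eq (hF i) (hdir i).1 (hdir i).2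
  have hperm : (oldS (dd B) S).Perm (newS (dd B) S) := by
    rw [← Multiset.coe_eq_coe, hoS, hnS]
    have h1 : ∑ p ∈ I, (B.verts (F p).1 (F p).2.1 : Multiset Q) =
        ∑ p ∈ I, (B.verts (F p).1 (F p).2.2 : Multiset Q) := by
      rw [hsum fun i x => (B.verts (sta U d (n i) x) (oldW U d (n i) x) : Multiset Q),
        hsum fun i x => (B.verts (sta U d (n i) x) (newW d (X i) (xs i) x) : Multiset Q)]
      exact Finset.sum_congr rfl fun i _ => (verts_new (hF i) (hdir i).1 (hdir i).2).symm
    have h2 : ∑ p ∈ I, (B.verts (F p).1 (F p).2.1 : Multiset Q) =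
        ∑ p ∈ I, (src B (F p).1 (F p).2.1 : Multiset Q) + ∑ p ∈ I, ({exi U d (n p.1) p.2} : Multiset Q) := by
      rw [← Finset.sum_add_distrib]
      refine Finset.sum_congr rfl fun p hp => ?_
      rw [verts_eq, ← Multiset.coe_add]
      congr 1
      have := hfinold p hp
      rw [fin_eq] at this
      rw [this]; rfl
    have h3 : ∑ p ∈ I, (B.verts (F p).1 (F p).2.2 : Multiset Q) =
        ∑ p ∈ I, (src B (F p).1 (F p).2.2 : Multiset Q) +
        ∑ p ∈ I, ({newE U d (X p.1) (n p.1) (xs p.1) p.2} : Multiset Q) := by
      rw [← Finset.sum_add_distrib]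
      refine Finset.sum_congr rfl fun p hp => ?_
      rw [verts_eq, ← Multiset.coe_add]
      congr 1
      have := hfinnew p hp
      rw [fin_eq] at this
      rw [this]; rfl
    have h4 : ∑ p ∈ I, ({exi U d (n p.1) p.2} : Multiset Q) =
        ∑ p ∈ I, ({newE U d (X p.1) (n p.1) (xs p.1) p.2} : Multiset Q) := by
      rw [hsum fun i x => {exi U d (n i) x}, hsum fun i x => {newE U d (X i) (n i) (xs i) x}]
      exact Finset.sum_congr rfl fun i _ => ends_eq (hF i) (hdir i).1 (hdir i).2
    rw [h2, h3, h4] at h1
    exact add_right_cancel h1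
  have hnd : (oldS (dd B) S).Nodup := by
    rw [oldS, List.flatMap_map, List.nodup_flatMap]
    constructor
    · rintro ⟨i, y⟩ hp
      rw [src_eq]
      show (src B (sta U d (n i) y) (oldW U d (n i) y)).Nodup
      have hy := (hI _).1 (Finset.mem_toList.1 hp)
      have hinj : ∀ s t, s ≤ n i → t ≤ n i → (U.U ^ s) y = (U.U ^ t) y → s = t := fun s t hs ht h =>
        (hP.disj i i y y s t hy hy hs ht h).2.2
      rw [← Multiset.coe_nodup, src_old]
      refine Multiset.Nodup.map_on ?_ (Finset.range (n i)).nodup
      intro s hs t ht hst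
      have hs := Finset.mem_range.1 (Finset.mem_def.2 hs)
      have ht := Finset.mem_range.1 (Finset.mem_def.2 ht)
      rcases h : d y with _ | _
      · rw [h] at hst
        simp only [Bool.false_eq_true, if_false] at hst
        have := hinj (s + 1) (t + 1) hs ht hst
        omega
      · rw [h] at hst
        simp only [if_true] at hst
        exact hinj s t hs.le ht.le hst
    · refine List.Nodup.pairwise_of_forall_ne (Finset.nodup_toList I) ?_
      rintro ⟨i, y⟩ hp ⟨j, z⟩ hq hne
      have hy := (hI _).1 (Finset.mem_toList.1 hp)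
      have hz := (hI _).1 (Finset.mem_toList.1 hq)
      have hm : ∀ i y w, w ∈ src B (sta U d (n i) y) (oldW U d (n i) y) → ∃ s ≤ n i, w = (U.U ^ s) y := by
        intro i y w hw
        obtain ⟨s, hs, h⟩ := (hso i y w).1 hw
        refine ⟨if d y then s else s + 1, ?_, h⟩
        split_ifs
        · exact hs.le
        · exact hs
      intro w hw1 hw2
      simp only at hw1 hw2
      rw [src_eq] at hw1 hw2
      obtain ⟨s, hs, h1⟩ := hm i y w hw1
      obtain ⟨t, ht, h2⟩ := hm j z w hw2
      have := hP.disj i j y z s t hy hz hs ht (by rw [← h1, h2])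
      exact hne (by rw [this.1, this.2.1])
  -- the new ends
  have hE : ∀ i, ∀ y ∈ (X i).L₀, ∃ z ∈ (X i).L₀,
      newE U d (X i) (n i) (xs i) y = (U.U ^ (if d z then n i else 0)) z ∧ k z = k y := by
    intro i y hy
    have m0 := hP.hl i
    have m1 := hP.hc i
    have m2 := hP.hm i
    obtain ⟨hd0, hd1⟩ := hdir i
    have k0 := hT.kl i
    have k1 := hT.km i
    unfold newE
    by_cases g1 : y = (X i).u₀
    · rw [if_pos g1]
      rcases h : d y with _ | _
      · refine ⟨xs i, m2, ?_, by rw [k1, g1, k0]⟩
        have h2 : d (xs i) = false := by rw [hd1, ← hd0, ← g1, h]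
        rw [h2]; rfl
      · refine ⟨(X i).u₁, m1, ?_, by rw [g1, k0]⟩
        have h2 : d (X i).u₁ = false := by
          have : (!d (X i).u₁) = true := by rw [← hd0, ← g1, h]
          simpa using this
        rw [h2]; rfl
    rw [if_neg g1]
    by_cases g2 : y = (X i).u₁
    · rw [if_pos g2]
      rcases h : d y with _ | _
      · refine ⟨xs i, m2, ?_, by rw [k1, g2]⟩
        have h2 : d (xs i) = true := by rw [hd1, ← g2, h]; rfl
        rw [h2]; rfl
      · refine ⟨(X i).u₀, m0, ?_, by rw [g2, k0]⟩
        have h2 : d (X i).u₀ = false := by rw [hd0, ← g2, h]; rfl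
        rw [h2]; rfl
    rw [if_neg g2]
    by_cases g3 : y = xs i
    · rw [if_pos g3]
      rcases h : d y with _ | _
      · refine ⟨(X i).u₁, m1, ?_, by rw [g3, k1]⟩
        have h2 : d (X i).u₁ = true := by
          have : (!d (X i).u₁) = false := by rw [← hd1, ← g3, h]
          simpa using this
        rw [h2]; rfl
      · refine ⟨(X i).u₀, m0, ?_, by rw [g3, k1, k0]⟩
        have h2 : d (X i).u₀ = true := by rw [hd0, ← hd1, ← g3, h]
        rw [h2]; rfl
    rw [if_neg g3]
    refine ⟨y, hy, ?_, rfl⟩
    unfold exi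
    rcases h : d y with _ | _
    · rfl
    · rfl
  have hksta : ∀ i y, k (sta U d (n i) y) = k y := by
    intro i y
    unfold sta
    rcases d y with _ | _
    · exact hkA y (n i)
    · rfl
  obtain ⟨lab', k', hbij, hstep, htrans, hlout, hkout, hknew, hreads, hvol⟩ := rewireK (d := dd B) (lab := lab) k hb hkf S (by
      intro s hs
      obtain ⟨⟨i, y⟩, hp, rfl⟩ := hS s hs
      show oldW U d (n i) y ≠ []
      intro h0
      have h1 := src_old (U := U) (d := d) (n := n i) y
      rw [h0] at h1
      have h2 : ((Finset.range (n i)).val.map fun s => (U.U ^ (if d y then s else s + 1)) y) = 0 := h1.symm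
      rw [Multiset.map_eq_zero, Finset.val_eq_zero, Finset.range_eq_empty_iff] at h2
      have := hP.pos i
      omega) (by
      intro s hs
      obtain ⟨⟨i, y⟩, hp, rfl⟩ := hS s hs
      show newW d (X i) (xs i) y ≠ []
      intro h0
      have hy : y ∈ (X i).L₀ := (hI _).1 hp
      have h1 := fin_new (hF i) (hdir i).1 (hdir i).2 hy
      rw [h0] at h1
      have h2 : sta U d (n i) y = newE U d (X i) (n i) (xs i) y := h1
      obtain ⟨z, hz, h3, -⟩ := hE i y hy
      have hn := hP.pos i
      rw [h3] at h2
      unfold sta at h2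
      have key : ∀ s t, s ≤ n i → t ≤ n i → (U.U ^ s) y = (U.U ^ t) z → y = z ∧ s = t := fun s t hs ht h =>
        (hP.disj i i y z s t hy hz hs ht h).2
      rcases h : d y with _ | _
      · rw [h] at h2
        simp only [Bool.false_eq_true, if_false] at h2
        obtain ⟨rfl, h5⟩ := key (n i) (if d z then n i else 0) le_rfl (by split_ifs <;> omega) h2
        rw [h] at h5
        simp only [Bool.false_eq_true, if_false] at h5
        omega
      · rw [h] at h2
        simp only [if_true] at h2
        obtain ⟨rfl, h5⟩ := key 0 (if d z then n i else 0) (by omega) (by split_ifs <;> omega) h2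
        rw [h] at h5
        simp only [if_true] at h5
        omega) (by
      intro s hs
      obtain ⟨⟨i, y⟩, hp, rfl⟩ := hS s hs
      show Reads (dd B) lab (sta U d (n i) y) (oldW U d (n i) y)
      have h1 : ∀ (m : ℕ) (x : Q), d x = true → Reads (dd B) lab x (U.str m x) := by
        intro m
        induction m with
        | zero => intro x _ p hp; simp [darts] at hp
        | succ m ih =>
          intro x hx p hp
          rw [U.str_succ, darts] at hp
          rcases List.mem_cons.1 hp with rfl | hp
          · simp only [lab, lab0, hx, if_true]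
          · have e : dd B x (U.up x) = U.U x := by rw [U.hU]; rfl
            rw [e] at hp
            exact ih _ (by rw [hd, hx]) p hp
      have h2 : ∀ (m : ℕ) (x : Q), d x = false → Reads (dd B) lab ((U.U ^ m) x) (U.dn m x) := by
        intro m
        induction m with
        | zero => intro x _ p hp; simp [darts, U.dn_zero] at hp
        | succ m ih =>
          intro x hx p hp
          have e0 : U.dn (m + 1) x = B.inv (U.up ((U.U ^ m) x)) :: U.dn m x := by
            unfold Up.dn
            rw [U.str_succ']
            simp [Lb.rev]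
          rw [e0, darts] at hp
          rcases List.mem_cons.1 hp with rfl | hp
          · have e1 : d ((U.U ^ (m + 1)) x) = false := by rw [hdA, hx]
            simp only [lab, lab0, e1, Bool.false_eq_true, if_false]
            rw [perm_succ, hUi']
          · have e : dd B ((U.U ^ (m + 1)) x) (B.inv (U.up ((U.U ^ m) x))) = (U.U ^ m) x := by
              unfold dd
              rw [B.q_inv, perm_succ, U.hU, mul_inv_cancel_right]
            rw [e] at hp
            exact ih x hx p hp
      unfold sta oldW
      rcases h : d y with _ | _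
      · simp only [Bool.false_eq_true, if_false]
        exact h2 _ _ h
      · simp only [if_true]
        exact h1 _ _ h) hends hnd hperm (by
      intro s hs
      obtain ⟨⟨i, y⟩, hp, rfl⟩ := hS s hs
      have hy : y ∈ (X i).L₀ := (hI _).1 hp
      rw [hfinnew (i, y) hp]
      show k (newE U d (X i) (n i) (xs i) y) = k (sta U d (n i) y)
      obtain ⟨z, hz, h3, h4⟩ := hE i y hy
      rw [h3, hkA, h4, hksta]) (by
      intro s hs
      obtain ⟨⟨i, y⟩, hp, rfl⟩ := hS s hs
      have hy : y ∈ (X i).L₀ := (hI _).1 hp
      rw [hfinnew (i, y) hp]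
      show newE U d (X i) (n i) (xs i) y ∉ oldS (dd B) S
      obtain ⟨z, hz, h3, h4⟩ := hE i y hy
      rw [h3, hmem]
      rintro ⟨j, w, hw, s, hs, h5⟩
      obtain ⟨rfl, rfl, h6⟩ := hP.disj i j z w _ _ hz hw (by split_ifs <;> omega)
        (by split_ifs <;> omega) h5
      rcases h : d z with _ | _
      · rw [h] at h6
        simp only [Bool.false_eq_true, if_false] at h6
        omega
      · rw [h] at h6
        simp only [if_true] at h6
        omega) (by
      intro r hr hout hstr
      have hstr' : ∀ i, ∀ y ∈ (X i).L₀, r (sta U d (n i) y) (newE U d (X i) (n i) (xs i) y) := by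
        intro i y hy
        have := hstr _ (hS' (i, y) ((hI _).2 hy))
        rw [hfinnew (i, y) ((hI _).2 hy)] at this
        exact this
      have hconn := conn_lines (σ := U.U) (ln := ln) hln hln' hP hT hsurj r hr (by
        intro x hx
        rcases h : d x with _ | _
        · have h1 : U.U x ∉ oldS (dd B) S := by
            rw [hmem]
            rintro ⟨i, y, hy, s, hs, h2⟩
            rcases h1 : d y with _ | _
            · rw [h1] at h2
              simp only [Bool.false_eq_true, if_false] at h2
              rw [perm_succ] at h2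
              exact hx i y s ⟨hy, hs, U.U.injective h2⟩
            · rw [h1] at h2
              simp only [if_true] at h2
              have := hdA y s
              rw [← h2, hd, h, h1] at this
              exact Bool.noConfusion this
          have h2 := hout _ h1
          rw [hlab2 _ (by rw [hd, h]), hUi'] at h2
          exact hr.symm h2
        · have h1 : x ∉ oldS (dd B) S := by
            rw [hmem]
            rintro ⟨i, y, hy, s, hs, h2⟩
            rcases h1 : d y with _ | _
            · rw [h1] at h2
              simp only [Bool.false_eq_true, if_false] at h2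
              have := hdA y (s + 1)
              rw [← h2, h, h1] at this
              exact Bool.noConfusion this
            · rw [h1] at h2
              simp only [if_true] at h2
              exact hx i y s ⟨hy, hs, h2⟩
          have h2 := hout _ h1
          rwa [hlab1 _ h] at h2) (by
        intro i x hx h1 h0 h2
        have := hstr' i x hx
        unfold newE sta exi at this
        rw [if_neg h0, if_neg h1, if_neg h2] at this
        rcases h : d x with _ | _
        · rw [h] at this
          simp only [Bool.false_eq_true, if_false] at this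
          exact hr.symm this
        · rw [h] at this
          simp only [if_true] at this
          exact this) (by
        intro i
        rcases h : d (X i).u₀ with _ | _
        · have h1 : d (X i).u₁ = true := by have := (hdir i).1; rw [h] at this; simpa using this.symm
          have := hstr' i _ (X i).hu₁
          unfold newE sta at this
          rw [h1, if_neg (X i).hu.symm, if_pos rfl] at this
          simp only [if_true] at this
          exact hr.symm this
        · have := hstr' i _ (X i).hu₀
          unfold newE sta at this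
          rw [h, if_pos rfl] at this
          simp only [if_true] at this
          exact this) (by
        intro i
        rcases h : d (X i).u₀ with _ | _
        · have h1 : d (X i).u₁ = true := by have := (hdir i).1; rw [h] at this; simpa using this.symm
          have h2 : d (xs i) = false := by rw [(hdir i).2, h1]; rfl
          have := hstr' i _ (hP.hm i)
          unfold newE sta at this
          rw [h2, if_neg (hF i).ne₀, if_neg (hF i).ne₁, if_pos rfl] at this
          simp only [Bool.false_eq_true, if_false] at this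
          exact hr.symm this
        · have h1 : d (X i).u₁ = false := by have := (hdir i).1; rw [h] at this; simpa using this.symm
          have := hstr' i _ (X i).hu₁
          unfold newE sta at this
          rw [h1, if_neg (X i).hu.symm, if_pos rfl] at this
          simp only [Bool.false_eq_true, if_false] at this
          exact this) (by
        intro i
        rcases h : d (X i).u₀ with _ | _
        · have := hstr' i _ (X i).hu₀
          unfold newE sta at this
          rw [h, if_pos rfl] at this
          simp only [Bool.false_eq_true, if_false] at this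
          exact hr.symm this
        · have h1 : d (X i).u₁ = false := by have := (hdir i).1; rw [h] at this; simpa using this.symm
          have h2 : d (xs i) = true := by rw [(hdir i).2, h1]; rfl
          have := hstr' i _ (hP.hm i)
          unfold newE sta at this
          rw [h2, if_neg (hF i).ne₀, if_neg (hF i).ne₁, if_pos rfl] at this
          simp only [if_true] at this
          exact this)
      have hgood : ∀ x, (x ∉ oldS (dd B) S ∨ ∃ s ∈ S, x = s.1) →
          ∀ i y s, InS U.U (fun i => (X i).L₀) n x i y s → s = 0 := by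
        rintro x (hx | ⟨s, hs, rfl⟩) i y t ⟨hy, ht, hxy⟩
        · by_contra h0
          apply hx
          rw [hmem]
          rcases h : d y with _ | _
          · refine ⟨i, y, hy, t - 1, by omega, ?_⟩
            rw [h, hxy]
            simp only [Bool.false_eq_true, if_false]
            congr 2; omega
          · refine ⟨i, y, hy, t, ht, ?_⟩
            rw [h, hxy]
            simp only [if_true]
        · obtain ⟨⟨j, z⟩, hp, rfl⟩ := hS s hs
          have hz : z ∈ (X j).L₀ := (hI _).1 hp
          have hxy : sta U d (n j) z = (U.U ^ t) y := hxy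
          unfold sta at hxy
          rcases h : d z with _ | _
          · rw [h] at hxy
            simp only [Bool.false_eq_true, if_false] at hxy
            obtain ⟨rfl, _, h3⟩ := hP.disj j i z y (n j) t hz hy le_rfl ht.le hxy
            omega
          · rw [h] at hxy
            simp only [if_true] at hxy
            have := hP.disj j i z y 0 t hz hy (by omega) ht.le hxy
            exact this.2.2.symm
      intro x y hx hy hxy
      exact hconn x y (hgood x hx) (hgood y hy) hxy)
  refine ⟨⟨lab', k', hbij, hstep, htrans⟩, ?_, ?_, ?_⟩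
  · intro x
    show ∃ y, k' x = k y
    by_cases hx : x ∈ oldS (dd B) S
    · obtain ⟨s, hs, hxs⟩ := List.mem_flatMap.1 (hperm.mem_iff.1 hx)
      exact ⟨s.1, hknew s hs x hxs⟩
    · exact ⟨x, hkout x hx⟩
  · intro P hinv hPo hPw x
    show P (lab' x)
    have hrev : ∀ l : List B.L, (∀ b ∈ l, P b) → ∀ b ∈ B.rev l, P b := fun l h b hb' => by
      obtain ⟨c, hc, rfl⟩ := mem_rev hb'
      exact hinv _ (h c hc)
    by_cases hx : x ∈ oldS (dd B) S
    · obtain ⟨s, hs, hxs⟩ := List.mem_flatMap.1 (hperm.mem_iff.1 hx)
      have h1 := reads_mem (hreads s hs) hxs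
      obtain ⟨⟨i, y⟩, hp, rfl⟩ := hS s hs
      have hy : y ∈ (X i).L₀ := (hI _).1 hp
      have h2 : lab' x ∈ newW d (X i) (xs i) y := h1
      obtain ⟨w1, w2, w3⟩ := hPw i
      have hxs' : xs i ∈ (X i).tok₀ := (hF i).xs_mem
      unfold newW at h2
      split_ifs at h2 with g1 g2 g3 g4 g5 g6
      · exact w1 _ h2
      · exact hrev _ w1 _ h2
      · exact w3 y (TW.mem_tok₀.2 ⟨hy, g2, g3⟩) _ h2
      · exact w2 _ h2
      · exact hrev _ w2 _ h2
      · exact hrev _ (w3 _ hxs') _ h2
      · exact hrev _ (w3 y (TW.mem_tok₀.2 ⟨hy, g6, g4⟩)) _ h2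
    · rw [hlout x hx]
      rw [hmem] at hx
      show P (lab0 U d x)
      unfold lab0
      rcases h : d x with _ | _
      · simp only [Bool.false_eq_true, if_false]
        refine hinv _ (hPo _ fun i y hy s hs h1 => hx ⟨i, y, hy, s, hs, ?_⟩)
        have h2 : x = (U.U ^ (s + 1)) y := by rw [perm_succ, ← h1, hUi]
        have h3 : d y = false := by rw [← hdA y (s + 1), ← h2, h]
        rw [h3]
        simp only [Bool.false_eq_true, if_false]
        exact h2
      · simp only [if_true]
        refine hPo _ fun i y hy s hs h1 => hx ⟨i, y, hy, s, hs, ?_⟩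
        have h3 : d y = true := by rw [← hdA y s, ← h1, h]
        rw [h3]
        simp only [if_true]
        exact h1
  · intro R _ V γ
    have h1 := hvol (fun γ' x g => if γ' = γ then V.chi x * V.n g else 0)
    have hw : ∀ (c : κ) (x : Q) (l : List B.L), wt (dd B) (fun x g => if c = γ then V.chi x * V.n g else 0) x l =
        if c = γ then V.vol x l else 0 := by
      intro c x l
      by_cases hc : c = γ
      · simp only [if_pos hc]
        exact vol_eq B V x l
      · simp only [if_neg hc]
        induction l generalizing x with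
        | nil => rfl
        | cons g l ih =>
          show (0 : R) + wt (dd B) (fun _ _ => 0) (dd B x g) l = 0
          rw [ih, add_zero]
    have h2 : (S.map fun s => wt (dd B) ((fun γ' x g => if γ' = γ then V.chi x * V.n g else 0) (k s.1)) s.1
        s.2.1).sum = ∑ i, ∑ x ∈ (X i).L₀, (if k x = γ then V.vol (sta U d (n i) x) (oldW U d (n i) x) else 0) := by
      rw [← hsumR fun i x => if k x = γ then V.vol (sta U d (n i) x) (oldW U d (n i) x) else 0, List.map_map,
        Finset.sum_map_toList]
      refine Finset.sum_congr rfl fun p _ => ?_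
      show wt (dd B) (fun x g => if k (sta U d (n p.1) p.2) = γ then V.chi x * V.n g else 0) _ _ = _
      rw [hw, hksta]
    have h3 : (S.map fun s => wt (dd B) ((fun γ' x g => if γ' = γ then V.chi x * V.n g else 0) (k s.1)) s.1
        s.2.2).sum = ∑ i, ∑ x ∈ (X i).L₀, (if k x = γ then V.vol (sta U d (n i) x) (newW d (X i) (xs i) x) else 0) := by
      rw [← hsumR fun i x => if k x = γ then V.vol (sta U d (n i) x) (newW d (X i) (xs i) x) else 0, List.map_map,
        Finset.sum_map_toList]
      refine Finset.sum_congr rfl fun p _ => ?_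
      show wt (dd B) (fun x g => if k (sta U d (n p.1) p.2) = γ then V.chi x * V.n g else 0) _ _ = _
      rw [hw, hksta]
    rw [h2, h3] at h1
    have h4 : ∀ i, ∑ x ∈ (X i).L₀, (if k x = γ then V.vol (sta U d (n i) x) (newW d (X i) (xs i) x) else 0) =
        wvol V d k γ (X i) := fun i => vol_new V k γ (hF i) (hdir i).1 (hdir i).2 (hT.kl i) (hT.km i)
    rw [Finset.sum_congr rfl fun i _ => h4 i] at h1
    unfold TourS.vol bvol
    show ∑ x, (if k' x = γ then V.chi x * V.n (lab' x) else 0) = _
    rw [sub_add_eq_add_sub, eq_sub_iff_add_eq]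
    exact h1

theorem merge3 : Merge3S := by
  intro Q _ _ _ B U Λ ln d k ι _ X n xs rk h1 h2 h3 h4 h5 h6 h7 h8 h9
  exact mergeP U ln d k X n xs rk h1 h2 h3 h4 h5 h6 h7 h8 h9

end Pool.Agent.Lib.MP_688fd0_co.SQ3.Small
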