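import Pool.Agent.Lib.MP_688fd0_co.SQ3.Small.IfaceN

/-!
Row N-MK1: one window on one line gives one tour.
-/

set_option autoImplicit false

namespace Pool.Agent.Lib.MP_688fd0_co.SQ3.Small

open Pool.Agent.Lib.MP_688fd0_co.OSF Pool.Agent.Lib.MP_688fd0_co.SQ2

theorem lvd_zero {Q : Type} [Group Q] {B : Lb.{0, 0} Q} {U : Up B} {n : ℕ} {L : Finset Q} (hD : LvD U n L) {y : Q}
    (hy : y ∈ L) {j : ℕ} (hj : j ≤ n) (h : (U.U ^ j) y ∈ L) : j = 0 :=
  ((hD _ h _ hy 0 j (Nat.zero_le _) hj rfl).2).symm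

theorem pow_eq_iff {Q : Type} [Group Q] {B : Lb.{0, 0} Q} {U : Up B} {M : ℕ}
    (hM : ∀ (v : Q) (t : ℕ), (U.U ^ t) v = v ↔ M ∣ t) (v : Q) (s t : ℕ) :
    (U.U ^ s) v = (U.U ^ t) v ↔ s ≡ t [MOD M] := by
  wlog h : s ≤ t generalizing s t
  · rw [eq_comm, this t s (by omega)]
    exact ⟨fun h => h.symm, fun h => h.symm⟩
  · obtain ⟨e, rfl⟩ := Nat.exists_eq_add_of_le h
    rw [U.U_pow_add, eq_comm, hM]
    constructor
    · intro h1
      have h2 : 0 ≡ e [MOD M] := ((Nat.modEq_zero_iff_dvd.2 h1)).symm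
      exact Nat.ModEq.add_left s h2
    · intro h1
      have h2 : s + 0 ≡ s + e [MOD M] := h1
      exact Nat.modEq_zero_iff_dvd.1 (Nat.ModEq.add_left_cancel' s h2).symm

theorem ex_pos {Q : Type} [Group Q] {B : Lb.{0, 0} Q} {U : Up B} {M : ℕ}
    (hM : ∀ (v : Q) (t : ℕ), (U.U ^ t) v = v ↔ M ∣ t) (hM0 : 0 < M) (n : ℕ) (x v : Q) (h : ∃ t : ℕ, v = (U.U ^ t) x) :
    ∃ τ < M, v = (U.U ^ (n + τ)) x := by
  obtain ⟨t, rfl⟩ := h
  refine ⟨(t + (M * n - n)) % M, Nat.mod_lt _ hM0, ?_⟩
  rw [pow_eq_iff hM]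
  have h1 : n ≤ M * n := Nat.le_mul_of_pos_left n hM0
  have h2 : n + (t + (M * n - n)) % M ≡ n + (t + (M * n - n)) [MOD M] := Nat.ModEq.add_left _ (Nat.mod_modEq _ _)
  have h3 : n + (t + (M * n - n)) = t + M * n := by omega
  rw [h3] at h2
  have h4 : t + M * n ≡ t [MOD M] := by
    rw [Nat.mul_comm]
    exact Nat.add_mul_modulus_modEq_iff.2 rfl
  exact (h2.trans h4).symm

theorem eq_pos {Q : Type} [Group Q] {B : Lb.{0, 0} Q} {U : Up B} {M : ℕ}
    (hM : ∀ (v : Q) (t : ℕ), (U.U ^ t) v = v ↔ M ∣ t) (n : ℕ) (x : Q) {s t : ℕ} (hs : s < M) (ht : t < M)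
    (h : (U.U ^ (n + s)) x = (U.U ^ (n + t)) x) : s = t := by
  rw [pow_eq_iff hM] at h
  have h1 := Nat.ModEq.add_left_cancel' n h
  have h2 : s % M = t % M := h1
  rwa [Nat.mod_eq_of_lt hs, Nat.mod_eq_of_lt ht] at h2

/-- Cup and cap reversed. -/
theorem flip2_R {Q : Type} [Group Q] [DecidableEq Q] {B : Lb.{0, 0} Q} (X : TW B) : X.flipCup.flipCap.R = X.R := by
  rw [TW.flipCap_R, TW.flipCup_R]

theorem flip2_tok {Q : Type} [Group Q] [DecidableEq Q] {B : Lb.{0, 0} Q} (X : TW B) :
    X.flipCup.flipCap.tok₀ = X.tok₀ := by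
  have h : X.flipCup.flipCap.tok₀ = X.flipCup.tok₀ := rfl
  rw [h, TW.flipCup_tok₀]

theorem mk1 (h : OneWS) : Mk1S := by
  intro Q _ _ _ B U L₀ M n d₁ d₂ x w hn hD hM hcov hx hx1 hx2 h1 h12 h2 hw
  classical
  have hM0 : 0 < M := by omega
  have hb1 : n < d₁ := by
    by_contra hc
    have := lvd_zero hD hx (by omega) hx1
    omega
  have hb2 : n < d₂ - d₁ := by
    by_contra hc
    have := lvd_zero hD hx1 (j := d₂ - d₁) (by omega) (by
      rw [← U.U_pow_add, show d₁ + (d₂ - d₁) = d₂ by omega]; exact hx2)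
    omega
  have hMx : (U.U ^ M) x = x := (hM x M).2 dvd_rfl
  have hb3 : n < M - d₂ := by
    by_contra hc
    have := lvd_zero hD hx2 (j := M - d₂) (by omega) (by
      rw [← U.U_pow_add, show d₂ + (M - d₂) = M by omega, hMx]; exact hx)
    omega
  choose pos hp1 hp2 using fun v => ex_pos hM hM0 n x v (hcov v)
  let ar : Q → Fin 3 := fun v => if pos v < d₁ then 0 else if pos v < d₂ then 1 else 2
  let s : Fin 3 → Q := ![x, (U.U ^ d₁) x, (U.U ^ d₂) x]
  let nx : Equiv.Perm (Fin 3) := finRotate 3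
  let g : Fin 3 → ℕ := ![d₁, d₂ - d₁, M - d₂]
  let off : Fin 3 → ℕ := ![0, d₁, d₂]
  let d : Fin 3 → Bool := ![true, false, true]
  have n0 : nx.symm 0 = 2 := by decide
  have n1 : nx.symm 1 = 0 := by decide
  have n2 : nx.symm 2 = 1 := by decide
  have hs : ∀ i, s i = (U.U ^ off i) x := by
    intro i
    fin_cases i <;> rfl
  have hoff : ∀ i, off i + g i ≤ M := by
    intro i
    fin_cases i
    · show 0 + d₁ ≤ M; omega
    · show d₁ + (d₂ - d₁) ≤ M; omega
    · show d₂ + (M - d₂) ≤ M; omega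
  have hsn : ∀ i (t : ℕ), (U.U ^ (n + t)) (s i) = (U.U ^ (n + (off i + t))) x := by
    intro i t
    rw [hs, ← U.U_pow_add]
    congr 2
    omega
  have hpos : ∀ i, ∀ t < g i, pos ((U.U ^ (n + t)) (s i)) = off i + t := by
    intro i t ht
    have e1 := hp2 ((U.U ^ (n + t)) (s i))
    have e2 : (U.U ^ (n + (off i + t))) x = (U.U ^ (n + pos ((U.U ^ (n + t)) (s i)))) x := by
      rw [← e1, hsn]
    have := hoff i
    exact (eq_pos hM n x (by omega) (hp1 _) e2).symm
  have hA : Arcs U n s nx g ar := by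
    refine ⟨hn, ?_, ?_, ?_, ?_, ?_⟩
    · intro i
      fin_cases i
      · exact hb1
      · exact hb2
      · exact hb3
    · intro i
      rw [hs, ← U.U_pow_add]
      fin_cases i
      · show (U.U ^ (0 + d₁)) x = (U.U ^ d₁) x
        rw [zero_add]
      · show (U.U ^ (d₁ + (d₂ - d₁))) x = (U.U ^ d₂) x
        congr 2; omega
      · show (U.U ^ (d₂ + (M - d₂))) x = x
        rw [show d₂ + (M - d₂) = M by omega, hMx]
    · intro i t ht
      have e := hpos i t ht
      show (if pos _ < d₁ then (0 : Fin 3) else if pos _ < d₂ then 1 else 2) = i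
      rw [e]
      fin_cases i
      · have ht' : t < d₁ := ht
        show (if 0 + t < d₁ then (0 : Fin 3) else if 0 + t < d₂ then 1 else 2) = 0
        rw [if_pos (by omega)]
      · have ht' : t < d₂ - d₁ := ht
        show (if d₁ + t < d₁ then (0 : Fin 3) else if d₁ + t < d₂ then 1 else 2) = 1
        rw [if_neg (by omega), if_pos (by omega)]
      · show (if d₂ + t < d₁ then (0 : Fin 3) else if d₂ + t < d₂ then 1 else 2) = 2
        rw [if_neg (by omega), if_neg (by omega)]
    · intro y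
      have e := hp2 y
      have hlt := hp1 y
      have key : ∀ i, off i ≤ pos y → pos y < off i + g i → ar y = i →
          ∃ t < g (ar y), y = (U.U ^ (n + t)) (s (ar y)) := by
        intro i a1 a2 a3
        rw [a3]
        refine ⟨pos y - off i, by omega, ?_⟩
        rw [hsn, show off i + (pos y - off i) = pos y by omega]
        exact e
      by_cases c1 : pos y < d₁
      · exact key 0 (Nat.zero_le _) (by show pos y < 0 + d₁; omega) (by
          show (if pos y < d₁ then (0 : Fin 3) else if pos y < d₂ then 1 else 2) = 0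
          rw [if_pos c1])
      · by_cases c2 : pos y < d₂
        · exact key 1 (by show d₁ ≤ pos y; omega) (by show pos y < d₁ + (d₂ - d₁); omega) (by
            show (if pos y < d₁ then (0 : Fin 3) else if pos y < d₂ then 1 else 2) = 1
            rw [if_neg c1, if_pos c2])
        · exact key 2 (by show d₂ ≤ pos y; omega) (by show pos y < d₂ + (M - d₂); omega) (by
            show (if pos y < d₁ then (0 : Fin 3) else if pos y < d₂ then 1 else 2) = 2
            rw [if_neg c1, if_neg c2])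
    · intro i t ht t' ht' he
      have e1 := hpos i t ht
      have e2 := hpos i t' ht'
      rw [he, e2] at e1
      omega
  have hsL : ∀ i, s i ∈ L₀ := by
    intro i
    fin_cases i
    · exact hx
    · exact hx1
    · exact hx2
  obtain ⟨bv, hbv⟩ := h Q B U (Fin 3) s nx g n ar L₀ d (fun _ => false) 0 2 1 hA hD hsL (by decide) (by decide)
    (by decide) (by rw [n0, n2]; rfl) (by rw [n1, n2]; rfl) rfl rfl (by
      intro i j _
      rw [n0, n1, n2]
      right
      constructor
      · fin_cases i <;> decide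
      · fin_cases j <;> decide)
  rw [n0, n1, n2] at hbv
  refine ⟨fun R _ V γ cup cap => bv R V γ + (if (false : Bool) = γ then
    (if d 2 then 1 else -1) * (V.vol x (B.rev cup) + V.vol ((U.U ^ n) ((U.U ^ d₁) x)) (B.rev cap)) else 0), ?_⟩
  intro X hF hX0 hXu0 hXu1
  obtain ⟨T, hT1, hT2⟩ := hbv X.flipCup.flipCap hX0 hXu1 hXu0 (by rw [← hX0]; exact hF.top) (by
      rw [flip2_R, hF.reg, hX0]; rfl) hF.w₁ (by
      show X.w₀ = (U.U ^ n) x
      rw [hF.w₀, hXu1]) (by
      show X.f ((U.U ^ d₁) x) = (U.U ^ n) ((U.U ^ d₂) x)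
      rw [hF.f_xs, hXu0]) (by
      intro i i0 i1 i2
      exfalso
      fin_cases i
      · exact i0 rfl
      · exact i2 rfl
      · exact i1 rfl) (by
      intro y hy hne
      refine hF.f y (TW.mem_tok₀.2 ⟨by rw [hX0]; exact hy, ?_, ?_⟩) ?_
      · rw [hXu0]; exact hne 2
      · rw [hXu1]; exact hne 0
      · exact hne 1)
  refine ⟨T, fun y => ⟨y, ?_⟩, ?_⟩
  · obtain ⟨i, hi⟩ := hT1 y
    exact hi
  · intro R _ V γ ⟨_, hγ⟩
    have hγ : γ = false := hγ.symm
    subst hγ
    rw [hT2, flip2_tok]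
    have e1 : ∀ y ∈ X.tok₀, (sgc d (fun _ => false) false (ar y) : ℤ) = w false y := by
      intro y hy
      have hyL : y ∈ L₀ := by rw [← hX0]; exact (TW.mem_tok₀.1 hy).1
      have e := hp2 y
      have hlt := hp1 y
      have hyL' : (U.U ^ (n + pos y)) x ∈ L₀ := by rw [← e]; exact hyL
      have c0 : n + pos y ≤ M := by
        by_contra hc
        have e2 : (U.U ^ (n + pos y - M)) x = (U.U ^ (n + pos y)) x := by
          rw [pow_eq_iff hM]
          have e3 : n + pos y = (n + pos y - M) + M := by omega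
          have e4 : (n + pos y - M) + M ≡ (n + pos y - M) [MOD M] := Nat.add_modEq_right
          rw [← e3] at e4
          exact e4.symm
        have := lvd_zero hD hx (j := n + pos y - M) (by omega) (by rw [e2]; exact hyL')
        omega
      have hw' := hw (n + pos y) (by omega) c0 hyL'
      rw [← e] at hw'
      rw [hw']
      have c1 : n + pos y ≤ d₁ ↔ pos y < d₁ := by
        constructor
        · intro; omega
        · intro hc
          by_contra hc'
          have := lvd_zero hD hx1 (j := n + pos y - d₁) (by omega) (by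
            rw [← U.U_pow_add, show d₁ + (n + pos y - d₁) = n + pos y by omega]; exact hyL')
          omega
      have c2 : n + pos y ≤ d₂ ↔ pos y < d₂ := by
        constructor
        · intro; omega
        · intro hc
          by_contra hc'
          have := lvd_zero hD hx2 (j := n + pos y - d₂) (by omega) (by
            rw [← U.U_pow_add, show d₂ + (n + pos y - d₂) = n + pos y by omega]; exact hyL')
          omega
      show (if (false : Bool) = false then (if d (if pos y < d₁ then (0 : Fin 3) else if pos y < d₂ then 1 else 2)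
        then (1 : ℤ) else -1) else 0) = _
      rw [if_pos rfl]
      by_cases k1 : pos y < d₁
      · rw [if_pos k1, if_pos (c1.2 k1)]; rfl
      · rw [if_neg k1, if_neg (fun hh => k1 (c1.1 hh))]
        by_cases k2 : pos y < d₂
        · rw [if_pos k2, if_pos (c2.2 k2)]; rfl
        · rw [if_neg k2, if_neg (fun hh => k2 (c2.1 hh))]; rfl
    have e2 : ∑ y ∈ X.tok₀, ((sgc d (fun _ => false) false (ar y) : ℤ) : R) *
        V.vol y (X.flipCup.flipCap.path y) = ∑ y ∈ X.tok₀, ((w false y : ℤ) : R) * V.vol y (X.path y) :=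
      Finset.sum_congr rfl fun y hy => by rw [e1 y hy]; rfl
    rw [e2]
    have e3 : V.vol X.flipCup.flipCap.u₀ X.flipCup.flipCap.cup + V.vol X.flipCup.flipCap.w₀ X.flipCup.flipCap.cap =
        V.vol x (B.rev X.cup) + V.vol ((U.U ^ n) ((U.U ^ d₁) x)) (B.rev X.cap) := by
      show V.vol X.u₁ (B.rev X.cup) + V.vol X.w₁ (B.rev X.cap) = _
      rw [hXu1, hF.w₁]
    rw [e3]
    ring

end Pool.Agent.Lib.MP_688fd0_co.SQ3.Small
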