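import Pool.Agent.Lib.MP_688fd0_co.SQ3.Small.IfaceN

/-!
Row N-MK2 of `sqs_modules`: the tour maker for two lines, from ONEW. The special strands are `x`, `U ^ d x`, `y`, the
arcs are those from `x` to `U ^ d x`, from `U ^ d x` to `x` and the line of `y`; the cap is run in the other direction.
-/

set_option autoImplicit false

namespace Pool.Agent.Lib.MP_688fd0_co.SQ3.Small

open Pool.Agent.Lib.MP_688fd0_co.OSF Pool.Agent.Lib.MP_688fd0_co.SQ2

namespace H73

variable {Q : Type} [Group Q] {B : Lb.{0, 0} Q} (U : Up B)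

theorem pw_add (a b : ℕ) (v : Q) : (U.U ^ a) ((U.U ^ b) v) = (U.U ^ (a + b)) v := by
  rw [Up.U_pow_add, ← Up.U_pow_add, ← Up.U_pow_add, add_comm]

theorem pw_zero (v : Q) : (U.U ^ 0) v = v := rfl

variable {U}

theorem pw_mod {M : ℕ} (hM : ∀ (v : Q) (t : ℕ), (U.U ^ t) v = v ↔ M ∣ t) (t : ℕ) (v : Q) :
    (U.U ^ t) v = (U.U ^ (t % M)) v := by
  have h1 : (U.U ^ (M * (t / M))) v = v := (hM v _).2 (Dvd.intro _ rfl)
  conv_lhs => rw [← Nat.mod_add_div t M, ← pw_add, h1]

theorem pw_inj {M : ℕ} (hM : ∀ (v : Q) (t : ℕ), (U.U ^ t) v = v ↔ M ∣ t) {a b : ℕ} {v : Q}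
    (h : (U.U ^ a) v = (U.U ^ b) v) (hab : a ≤ b) : M ∣ b - a := by
  have h1 : (U.U ^ a) ((U.U ^ (b - a)) v) = (U.U ^ a) v := by
    rw [pw_add, show a + (b - a) = b by omega, h]
  exact (hM v _).1 ((U.U ^ a).injective h1)

/-- Going back along a line. -/
theorem pw_back {M : ℕ} (hM : ∀ (v : Q) (t : ℕ), (U.U ^ t) v = v ↔ M ∣ t) {a b : ℕ} {v w : Q}
    (h : (U.U ^ a) v = (U.U ^ b) w) (hM0 : 0 < M) : ∃ c : ℕ, v = (U.U ^ c) w := by
  refine ⟨b + (M * a - a), ?_⟩
  rw [add_comm, ← pw_add, ← h, pw_add]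
  have h1 : M * a - a + a = M * a := Nat.sub_add_cancel (Nat.le_mul_of_pos_left a hM0)
  rw [h1, (hM v _).2 (Dvd.intro _ rfl)]

end H73

open H73 in
theorem mk2 (h : OneWS) : Mk2S := by
  intro Q _ _ _ B U L₀ M n d x y w hn hL hM hcov hne hx hdx hy hd hdM hwx hwy
  have hM0 : 0 < M := by omega
  classical
  -- the arcs
  let s : Fin 3 → Q := ![x, (U.U ^ d) x, y]
  let nx : Equiv.Perm (Fin 3) := Equiv.swap 0 1
  let g : Fin 3 → ℕ := ![d, M - d, M]
  let ar : Q → Fin 3 := fun v => if ∃ t : ℕ, v = (U.U ^ t) y then 2 else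
    if ∃ t < d, v = (U.U ^ (n + t)) x then 0 else 1
  have nx0 : nx 0 = 1 := by decide
  have nx1 : nx 1 = 0 := by decide
  have nx2 : nx 2 = 2 := by decide
  have nxs0 : nx.symm 0 = 1 := by decide
  have nxs1 : nx.symm 1 = 0 := by decide
  have nxs2 : nx.symm 2 = 2 := by decide
  have s0 : s 0 = x := rfl
  have s1 : s 1 = (U.U ^ d) x := rfl
  have s2 : s 2 = y := rfl
  -- the lengths of the arcs
  have hnd : n < d := by
    by_contra hcon
    have := (hL x hx _ hdx d 0 (by omega) (by omega) rfl).2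
    omega
  have hnM : n < M - d := by
    by_contra hcon
    have h1 : (U.U ^ (M - d)) ((U.U ^ d) x) = (U.U ^ 0) x := by
      rw [pw_add, show M - d + d = M by omega, (hM x M).2 dvd_rfl]; rfl
    have := (hL _ hdx x hx (M - d) 0 (by omega) (by omega) h1).2
    omega
  -- the lines are different
  have hne' : ∀ a b : ℕ, (U.U ^ a) x ≠ (U.U ^ b) y := fun a b hab => by
    obtain ⟨c, hc⟩ := pw_back hM hab.symm hM0
    exact hne c hc
  have ar2 : ∀ t : ℕ, ar ((U.U ^ t) y) = 2 := fun t => by
    show (if ∃ t' : ℕ, (U.U ^ t) y = (U.U ^ t') y then (2 : Fin 3) else _) = 2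
    rw [if_pos ⟨t, rfl⟩]
  have arx : ∀ t : ℕ, ar ((U.U ^ t) x) = if ∃ t' < d, (U.U ^ t) x = (U.U ^ (n + t')) x then 0 else 1 := fun t => by
    show (if ∃ t' : ℕ, (U.U ^ t) x = (U.U ^ t') y then (2 : Fin 3) else _) = _
    rw [if_neg (by rintro ⟨t', h'⟩; exact hne' t t' h')]
  have ar0 : ∀ t < d, ar ((U.U ^ (n + t)) x) = 0 := fun t ht => by
    rw [arx, if_pos ⟨t, ht, rfl⟩]
  have ar1 : ∀ t < M - d, ar ((U.U ^ (n + t)) ((U.U ^ d) x)) = 1 := fun t ht => by
    rw [pw_add, arx, if_neg]
    rintro ⟨t', ht', h'⟩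
    have h1 := pw_inj hM h'.symm (by omega)
    have h2 := Nat.le_of_dvd (by omega) h1
    omega
  have hA : Arcs U n s nx g ar := by
    refine ⟨hn, ?_, ?_, ?_, ?_, ?_⟩
    · intro i
      fin_cases i
      · exact hnd
      · exact hnM
      · show n < M
        omega
    · intro i
      fin_cases i
      · show (U.U ^ d) x = s (nx 0)
        rw [nx0, s1]
      · show (U.U ^ (M - d)) ((U.U ^ d) x) = s (nx 1)
        rw [nx1, pw_add, show M - d + d = M by omega, (hM x M).2 dvd_rfl, s0]
      · show (U.U ^ M) y = s (nx 2)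
        rw [nx2, (hM y M).2 dvd_rfl, s2]
    · intro i
      fin_cases i
      · exact fun t ht => ar0 t ht
      · exact fun t ht => ar1 t ht
      · exact fun t _ => ar2 (n + t)
    · intro v
      rcases hcov v with ⟨t, rfl⟩ | ⟨t, rfl⟩
      · -- write `t` as `n + t'` with `t' < M`
        obtain ⟨t', ht', h'⟩ : ∃ t' < M, (U.U ^ t) x = (U.U ^ (n + t')) x := by
          refine ⟨(t + (M * n - n)) % M, Nat.mod_lt _ hM0, ?_⟩
          rw [← pw_add, ← pw_mod hM, pw_add]
          have h2 : n + (t + (M * n - n)) = M * n + t := by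
            have : n ≤ M * n := Nat.le_mul_of_pos_left n hM0
            omega
          rw [h2, ← pw_add, (hM _ _).2 (Dvd.intro _ rfl)]
        rw [h']
        by_cases h2 : t' < d
        · rw [ar0 t' h2]
          exact ⟨t', h2, rfl⟩
        · have h3 : (U.U ^ (n + t')) x = (U.U ^ (n + (t' - d))) ((U.U ^ d) x) := by
            rw [pw_add]
            congr 2
            omega
          have h4 : t' - d < M - d := by omega
          rw [h3, ar1 _ h4]
          exact ⟨t' - d, h4, rfl⟩
      · rw [ar2]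
        refine ⟨(t + (M * n - n)) % M, Nat.mod_lt _ hM0, ?_⟩
        show (U.U ^ t) y = (U.U ^ (n + (t + (M * n - n)) % M)) y
        rw [← pw_add, ← pw_mod hM, pw_add]
        have h2 : n + (t + (M * n - n)) = M * n + t := by
          have : n ≤ M * n := Nat.le_mul_of_pos_left n hM0
          omega
        rw [h2, ← pw_add, (hM _ _).2 (Dvd.intro _ rfl)]
    · intro i t ht t' ht' h'
      have hg : g i ≤ M := by
        fin_cases i
        · show d ≤ M
          omega
        · show M - d ≤ M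
          omega
        · exact le_rfl
      rcases le_total t t' with h1 | h1
      · have h2 := pw_inj hM h' (by omega)
        rcases Nat.eq_zero_or_pos (n + t' - (n + t)) with h3 | h3
        · omega
        · have := Nat.le_of_dvd h3 h2
          omega
      · have h2 := pw_inj hM h'.symm (by omega)
        rcases Nat.eq_zero_or_pos (n + t - (n + t')) with h3 | h3
        · omega
        · have := Nat.le_of_dvd h3 h2
          omega
  -- the tour
  let dr : Fin 3 → Bool := ![true, false, true]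
  obtain ⟨bv, hbv⟩ := h Q B U (Fin 3) s nx g n ar L₀ dr (fun _ => false) 2 0 1 hA hL
    (by
      intro i
      fin_cases i
      · exact hx
      · exact hdx
      · exact hy)
    (by decide) (by decide) (by decide)
    (by rw [nxs2, nxs0]; rfl) (by rw [nxs1, nxs0]; rfl) rfl rfl
    (by
      intro i j _
      right
      rw [nxs0, nxs1, nxs2]
      constructor
      · fin_cases i <;> decide
      · fin_cases j <;> decide)
  refine ⟨fun R _ V γ cup cap => bv R V γ + (if false = γ then
    (if dr (nx.symm 2) then 1 else -1) * (V.vol y cup + V.vol ((U.U ^ n) ((U.U ^ d) x)) (B.rev cap)) else 0), ?_⟩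
  intro X hX hL₀ hu₀ hu₁
  have hw₀ : X.flipCap.w₀ = (U.U ^ n) ((U.U ^ d) x) := hX.w₁
  obtain ⟨T, hT1, hT2⟩ := hbv X.flipCap hL₀ hu₀ hu₁ (by rw [← hL₀]; exact hX.top)
    (by rw [TW.flipCap_R, ← hL₀]; exact hX.reg')
    (by rw [nxs0]; exact hw₀)
    (by
      rw [nxs1]
      show X.w₀ = (U.U ^ n) x
      rw [hX.w₀, hu₁])
    (by
      rw [nxs2]
      show X.f ((U.U ^ d) x) = (U.U ^ n) y
      rw [hX.f_xs, hu₀])
    (by
      intro i h2 h0 h1
      exfalso
      fin_cases i
      · exact h0 rfl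
      · exact h1 rfl
      · exact h2 rfl)
    (by
      intro z hz hzs
      refine hX.f z (TW.mem_tok₀.2 ⟨?_, ?_, ?_⟩) (hzs 1)
      · rw [hL₀]; exact hz
      · rw [hu₀]; exact hzs 2
      · rw [hu₁]; exact hzs 0)
  refine ⟨T, fun z => ⟨z, (hT1 z).choose_spec⟩, ?_⟩
  intro R _ V γ hγ
  obtain ⟨_, hγ⟩ := hγ
  subst hγ
  rw [hT2 R V false]
  have e1 : ∑ z ∈ X.flipCap.tok₀, (sgc dr (fun _ => false) false (ar z) : R) * V.vol z (X.flipCap.path z) =
      ∑ z ∈ X.tok₀, (w false z : R) * V.vol z (X.path z) := by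
    refine Finset.sum_congr rfl fun z hz => ?_
    have hz := TW.mem_tok₀.1 hz
    have hz1 : z ∈ L₀ := by rw [← hL₀]; exact hz.1
    have hz3 : z ≠ x := by rw [← hu₁]; exact hz.2.2
    have e2 : sgc dr (fun _ => false) false (ar z) = w false z := by
      rcases hcov z with ⟨t, rfl⟩ | ⟨t, rfl⟩
      · obtain ⟨t', ht', h'⟩ : ∃ t' < M, (U.U ^ t) x = (U.U ^ t') x :=
          ⟨t % M, Nat.mod_lt _ hM0, pw_mod hM t x⟩
        rw [h'] at hz1 hz3 ⊢
        have ht0 : 0 < t' := by
          rcases Nat.eq_zero_or_pos t' with h0 | h0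
          · exact absurd (by rw [h0]; rfl) hz3
          · exact h0
        rw [hwx t' ht0 ht'.le hz1]
        have hnt : n < t' := by
          by_contra hcon
          have := (hL x hx _ hz1 t' 0 (by omega) (by omega) rfl).2
          omega
        by_cases h2 : t' ≤ d
        · have h3 := ar0 (t' - n) (by omega)
          rw [show n + (t' - n) = t' by omega] at h3
          rw [h3, if_pos h2]
          rfl
        · have h4 : (U.U ^ (t' - d)) ((U.U ^ d) x) = (U.U ^ t') x := by
            rw [pw_add]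
            congr 2
            omega
          have h5 : n < t' - d := by
            by_contra hcon
            have := (hL _ hdx _ hz1 (t' - d) 0 (by omega) (by omega) h4).2
            omega
          have h3 := ar1 (t' - d - n) (by omega)
          rw [show n + (t' - d - n) = t' - d by omega, h4] at h3
          rw [h3, if_neg h2]
          rfl
      · rw [ar2, hwy t hz1]
        rfl
    rw [e2]
    rfl
  rw [e1]
  have e3 : (if (fun _ : Fin 3 => false) (nx.symm 0) = false then
      ((if dr (nx.symm 2) then 1 else -1) * (V.vol X.flipCap.u₀ X.flipCap.cup +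
        V.vol X.flipCap.w₀ X.flipCap.cap) : R) else 0) =
      if false = false then
    ((if dr (nx.symm 2) then 1 else -1) * (V.vol y X.cup + V.vol ((U.U ^ n) ((U.U ^ d) x)) (B.rev X.cap)) : R) else 0 := by
    rw [hw₀]
    have e4 : X.flipCap.u₀ = y := hu₀
    rw [e4]
    rfl
  rw [e3]
  ring

end Pool.Agent.Lib.MP_688fd0_co.SQ3.Small
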