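import Pool.Agent.Lib.MP_688fd0_co.SQ3.Small.Arc

/-!
N-MK3: the tour maker for two lines, two tours.
-/

set_option autoImplicit false

namespace Pool.Agent.Lib.MP_688fd0_co.SQ3.Small

open Pool.Agent.Lib.MP_688fd0_co.OSF Pool.Agent.Lib.MP_688fd0_co.SQ2

theorem mk3 (oneW : OneWS) : Mk3S := by
  intro Q _ _ _ B U L₀ M n d e x l w cl hn hL hper hcov hdis hx hex he heM hl hdl hd hdM hwx hwl hT hF
  have hM : 0 < M := by omega
  have hper' : Per U M := hper
  have h1 : n < e := hL.gap hx hex he
  have h2 : n < M - e := hL.gap hex (by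
    rw [← U.U_pow_add, Nat.add_sub_cancel' heM.le, (hper x M).2 dvd_rfl]; exact hx) (by omega)
  have h3 : n < d := hL.gap hl hdl hd
  have h4 : n < M - d := hL.gap hdl (by
    rw [← U.U_pow_add, Nat.add_sub_cancel' hdM.le, (hper l M).2 dvd_rfl]; exact hl) (by omega)
  let p : Bool → Q := fun c => if c then l else x
  let b : Fin 4 → Bool := ![false, false, true, true]
  let o : Fin 4 → ℕ := ![0, e, d, 0]
  let s : Fin 4 → Q := ![x, (U.U ^ e) x, (U.U ^ d) l, l]
  let g : Fin 4 → ℕ := ![e, M - e, M - d, d]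
  let nx : Equiv.Perm (Fin 4) := Equiv.swap 0 1 * Equiv.swap 2 3
  let dd : Fin 4 → Bool := ![true, true, true, false]
  let cc : Fin 4 → Bool := ![false, false, true, false]
  obtain ⟨ar, hA⟩ := exists_arcs (n := n) hper' hM p (by
      intro c c' t h
      cases c <;> cases c'
      · rfl
      · exact absurd h (hdis t)
      · exfalso
        have h5 : x = (U.U ^ t) l := h
        obtain ⟨t', ht'⟩ := hper'.symm (a := t) (b := 0) hM (by rw [← h5, pow_zero]; rfl)
        exact hdis t' ht'
      · rfl)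
    (by
      intro v
      rcases hcov v with ⟨t, ht⟩ | ⟨t, ht⟩
      · exact ⟨false, t, ht⟩
      · exact ⟨true, t, ht⟩)
    b o (s := s) (nx := nx) (g := g)
    (by
      intro i
      fin_cases i
      · show x = (U.U ^ 0) x; rw [pow_zero]; rfl
      · rfl
      · rfl
      · show l = (U.U ^ 0) l; rw [pow_zero]; rfl)
    (by
      intro i
      fin_cases i
      · show 0 + e ≤ M; omega
      · show e + (M - e) ≤ M; omega
      · show d + (M - d) ≤ M; omega
      · show 0 + d ≤ M; omega)
    (by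
      intro c t ht
      cases c
      · by_cases h : t < e
        · exact ⟨0, rfl, Nat.zero_le _, by show t < 0 + e; omega⟩
        · exact ⟨1, rfl, by show e ≤ t; omega, by show t < e + (M - e); omega⟩
      · by_cases h : t < d
        · exact ⟨3, rfl, Nat.zero_le _, by show t < 0 + d; omega⟩
        · exact ⟨2, rfl, by show d ≤ t; omega, by show t < d + (M - d); omega⟩)
    (by
      intro i j hb t h5 h6 h7 h8
      fin_cases i <;> fin_cases j <;>
        first
        | rfl
        | exact absurd hb (by decide)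
        | (exfalso
           simp [o, g] at h5 h6 h7 h8
           omega))
    hn
    (by
      intro i
      fin_cases i
      · exact h1
      · exact h2
      · exact h4
      · exact h3)
    (by
      intro i
      fin_cases i
      · rfl
      · show (U.U ^ (M - e)) ((U.U ^ e) x) = x
        rw [← U.U_pow_add, Nat.add_sub_cancel' heM.le, (hper x M).2 dvd_rfl]
      · show (U.U ^ (M - d)) ((U.U ^ d) l) = l
        rw [← U.U_pow_add, Nat.add_sub_cancel' hdM.le, (hper l M).2 dvd_rfl]
      · rfl)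
  have hsL : ∀ i, s i ∈ L₀ := by
    intro i
    fin_cases i
    · exact hx
    · exact hex
    · exact hdl
    · exact hl
  -- the weights
  have hw : ∀ v ∈ L₀, ∀ γ, sgc dd cc γ (ar v) = w γ v := by
    intro v hv γ
    rcases hcov v with ⟨t, ht⟩ | ⟨t, ht⟩
    · obtain ⟨t', h5, h6, h7⟩ := hper'.pos hM t x
      rw [h7] at ht
      subst ht
      have h8 : ar ((U.U ^ t') x) = 0 ∨ ar ((U.U ^ t') x) = 1 := by
        by_cases h : t' ≤ e
        · left
          exact hA.at hL (i := 0) hx h5 h hv
        · right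
          have h9 : (U.U ^ t') x = (U.U ^ (t' - e)) ((U.U ^ e) x) := by
            rw [← U.U_pow_add]; congr 2; omega
          rw [h9] at hv ⊢
          exact hA.at hL (i := 1) hex (by omega) (by show t' - e ≤ M - e; omega) hv
      obtain ⟨h9, h10⟩ := hwx t' hv
      cases γ
      · rw [h9]
        rcases h8 with h | h <;> rw [h] <;> rfl
      · rw [h10]
        rcases h8 with h | h <;> rw [h] <;> rfl
    · obtain ⟨t', h5, h6, h7⟩ := hper'.pos hM t l
      rw [h7] at ht
      subst ht
      obtain ⟨h9, h10⟩ := hwl t' h5 h6 hv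
      by_cases h : t' ≤ d
      · have h8 : ar ((U.U ^ t') l) = 3 := hA.at hL (i := 3) hl h5 h hv
        rw [h8]
        cases γ
        · rw [h9, if_pos h]; rfl
        · rw [h10, if_pos h]; rfl
      · have h8 : ar ((U.U ^ t') l) = 2 := by
          have h9 : (U.U ^ t') l = (U.U ^ (t' - d)) ((U.U ^ d) l) := by
            rw [← U.U_pow_add]; congr 2; omega
          rw [h9] at hv ⊢
          exact hA.at hL (i := 2) hdl (by omega) (by show t' - d ≤ M - d; omega) hv
        rw [h8]
        cases γ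
        · rw [h9, if_neg h]; rfl
        · rw [h10, if_neg h]; rfl
  have hs0 : nx.symm 0 = 1 := by decide
  have hs1 : nx.symm 1 = 0 := by decide
  have hs2 : nx.symm 2 = 3 := by decide
  have hs3 : nx.symm 3 = 2 := by decide
  obtain ⟨bv, hbv⟩ := oneW Q B U (Fin 4) s nx g n ar L₀ dd cc 0 2 1 hA hL hsL (by decide) (by decide) (by decide)
    (by rw [hs0, hs2]; rfl) (by rw [hs1, hs2]; rfl) (by rw [hs0, hs2]; rfl) (by rw [hs1, hs2]; rfl)
    (by rw [hs0, hs1, hs2]; decide)
  refine ⟨fun R _ V γ cup cap => bv R V γ + (if cc (nx.symm 2) = γ then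
    (if dd (nx.symm 0) then 1 else -1) * (V.vol x (B.rev cup) + V.vol ((U.U ^ n) l) (B.rev cap)) else 0), ?_⟩
  intro X hX h0 hu0 hu1
  have hnl : ∀ t : ℕ, l ≠ (U.U ^ t) x := hdis
  obtain ⟨T, hT1, hT2⟩ := hbv (rvW X) h0 hu1 hu0 (by rw [← h0]; exact hX.top)
    (by rw [rvW_R, ← h0]; exact hX.reg)
    (by rw [hs2]; exact hX.w₁)
    (by rw [hs1]; show X.w₀ = (U.U ^ n) x; rw [hX.w₀, hu1])
    (by
      rw [hs0]
      show X.f ((U.U ^ e) x) = (U.U ^ n) ((U.U ^ e) x)
      refine hX.f _ (TW.mem_tok₀.2 ⟨by rw [h0]; exact hex, ?_, ?_⟩) ?_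
      · rw [hu0]
        intro h
        obtain ⟨t, ht⟩ := hper'.symm hM h.symm
        exact hnl t ht
      · rw [hu1]
        intro h
        have h5 := (hper x e).1 h
        exact absurd (Nat.le_of_dvd he h5) (by omega)
      · exact fun h => hnl e h.symm)
    (by
      intro i hi0 hi2 hi1
      have hi : i = 3 := by
        fin_cases i
        · exact absurd rfl hi0
        · exact absurd rfl hi1
        · exact absurd rfl hi2
        · rfl
      subst hi
      rw [hs3]
      show X.f l = (U.U ^ n) ((U.U ^ d) l)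
      rw [hX.f_xs, hu0])
    (by
      intro v hv hvs
      show X.f v = (U.U ^ n) v
      refine hX.f _ (TW.mem_tok₀.2 ⟨by rw [h0]; exact hv, ?_, ?_⟩) ?_
      · rw [hu0]; exact hvs 2
      · rw [hu1]; exact hvs 0
      · exact hvs 3)
  refine ⟨T, ?_, ?_⟩
  · intro v
    cases T.cls v
    · obtain ⟨y, hy⟩ := hF
      exact ⟨y, hy.symm⟩
    · obtain ⟨y, hy⟩ := hT
      exact ⟨y, hy.symm⟩
  · intro R _ V γ _
    rw [hT2, rvW_tok]
    have h5 : ∑ v ∈ X.tok₀, (sgc dd cc γ (ar v) : R) * V.vol v ((rvW X).path v) =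
        ∑ v ∈ X.tok₀, (w γ v : R) * V.vol v (X.path v) := by
      refine Finset.sum_congr rfl fun v hv => ?_
      rw [hw v (by rw [← h0]; exact (TW.mem_tok₀.1 hv).1)]
      rfl
    rw [h5]
    have h6 : (rvW X).u₀ = x := hu1
    have h7 : (rvW X).w₀ = (U.U ^ n) l := hX.w₁
    have h8 : (rvW X).cup = B.rev X.cup := rfl
    have h9 : (rvW X).cap = B.rev X.cap := rfl
    rw [h6, h7, h8, h9]
    ring

end Pool.Agent.Lib.MP_688fd0_co.SQ3.Small
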