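import Pool.Agent.Lib.MP_688fd0_co.SQ3.Small.IfaceN
import Mathlib.GroupTheory.Perm.ViaEmbedding

/-!
ONEW: one window on the arcs, from MERGE3. The arcs are the orbits of the permutation `rho` which is `U` except that it
closes every arc; at the closing vertices `rho` has a label which is not a label of `B` (a fake label).
-/

set_option autoImplicit false

namespace Pool.Agent.Lib.MP_688fd0_co.SQ3.Small

open Pool.Agent.Lib.MP_688fd0_co.OSF Pool.Agent.Lib.MP_688fd0_co.SQ2

/-! ### Fake labels -/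

section fake

variable {Q : Type} [Group Q]

/-- The labels together with all elements. -/
def fk (B : Lb.{0, 0} Q) : Lb.{0, 0} Q where
  L := B.L ⊕ {g : Q // g ≠ 1}
  q := Sum.elim B.q fun g => g.1
  inv := Sum.map B.inv fun g => ⟨g.1⁻¹, inv_ne_one.2 g.2⟩
  q_inv := fun g => by
    rcases g with g | g
    · exact B.q_inv g
    · rfl
  ne_one := fun g => by
    rcases g with g | g
    · exact B.ne_one g
    · exact g.2

/-- The voltages, zero on the fake labels. -/
def fkV {B : Lb.{0, 0} Q} {R : Type} [CommRing R] (V : Vd B R) : Vd (fk B) R where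
  chi := V.chi
  n := Sum.elim V.n fun _ => 0
  n_inv := fun g => by
    rcases g with g | g
    · exact V.n_inv g
    · show (0 : R) = -(V.chi _ * 0)
      rw [mul_zero, neg_zero]

variable {B : Lb.{0, 0} Q}

theorem fk_fin (x : Q) (l : List B.L) : (fk B).fin x (l.map Sum.inl) = B.fin x l := by
  induction l generalizing x with
  | nil => rfl
  | cons g l ih => exact ih _

theorem fk_src (x : Q) (l : List B.L) : src (fk B) x (l.map Sum.inl) = src B x l := by
  induction l generalizing x with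
  | nil => rfl
  | cons g l ih => exact congrArg (List.cons x) (ih _)

theorem fk_verts (x : Q) (l : List B.L) : (fk B).verts x (l.map Sum.inl) = B.verts x l := by
  induction l generalizing x with
  | nil => rfl
  | cons g l ih => exact congrArg (List.cons x) (ih _)

theorem fk_vol {R : Type} [CommRing R] (V : Vd B R) (x : Q) (l : List B.L) :
    (fkV V).vol x (l.map Sum.inl) = V.vol x l := by
  induction l generalizing x with
  | nil => rfl
  | cons g l ih => exact congrArg (V.chi x * V.n g + ·) (ih _)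

/-- The window with real labels. -/
def fkW (X : TW B) : TW (fk B) where
  L₀ := X.L₀
  L₁ := X.L₁
  u₀ := X.u₀
  u₁ := X.u₁
  w₀ := X.w₀
  w₁ := X.w₁
  cup := X.cup.map Sum.inl
  cap := X.cap.map Sum.inl
  f := X.f
  path := fun x => (X.path x).map Sum.inl
  hu₀ := X.hu₀
  hu₁ := X.hu₁
  hu := X.hu
  hw₀ := X.hw₀
  hw₁ := X.hw₁
  hw := X.hw
  cup_fin := (fk_fin _ _).trans X.cup_fin
  cap_fin := (fk_fin _ _).trans X.cap_fin
  path_fin := fun x h h0 h1 => (fk_fin _ _).trans (X.path_fin x h h0 h1)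
  f_mem := X.f_mem
  f_inj := X.f_inj
  f_surj := X.f_surj

theorem fkW_tok₀ [DecidableEq Q] (X : TW B) : (fkW X).tok₀ = X.tok₀ := rfl

theorem fkW_R [DecidableEq Q] (X : TW B) : (fkW X).R = X.R := by
  unfold TW.R
  have h1 : ∀ x, src (fk B) x ((fkW X).path x) = src B x (X.path x) := fun x => fk_src x _
  have h2 : (fk B).verts (fkW X).u₀ (fkW X).cup = B.verts X.u₀ X.cup := fk_verts _ _
  have h3 : src (fk B) (fkW X).w₀ (fkW X).cap = src B X.w₀ X.cap := fk_src _ _
  rw [h2, h3, fkW_tok₀]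
  simp only [h1]

/-- A tour which uses real labels only. -/
theorem real_tour (T : TourS (fk B) Bool) (h : ∀ x, ∃ b : B.L, T.lab x = Sum.inl b) :
    ∃ T' : TourS B Bool, (∀ x, T.lab x = Sum.inl (T'.lab x)) ∧ T'.cls = T.cls := by
  choose lab hlab using h
  have e : (fun x => x * B.q (lab x)) = fun x => x * (fk B).q (T.lab x) := by
    funext x
    rw [hlab x]
    rfl
  refine ⟨⟨lab, T.cls, ?_, ?_, ?_⟩, hlab, rfl⟩
  · rw [e]; exact T.bij
  · intro x
    have := T.step x
    rw [hlab x] at this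
    exact this
  · intro x y hxy
    rw [e]
    exact T.trans x y hxy

end fake

/-! ### The permutation -/

section perm

variable {Q : Type} [Group Q] {B : Lb.{0, 0} Q} {U : Up B} {n : ℕ} {σ : Type} {s : σ → Q} {nx : Equiv.Perm σ}
  {g : σ → ℕ} {ar : Q → σ}

theorem Arcs.prev (h : Arcs U n s nx g ar) (i : σ) (t : ℕ) :
    (U.U ^ t) (s i) = (U.U ^ (t + g (nx.symm i))) (s (nx.symm i)) := by
  have h1 := h.nxt (nx.symm i)
  rw [Equiv.apply_symm_apply] at h1
  rw [← h1, add_comm, U.U_pow_add]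

/-- A vertex of the strand of `s i` belongs to the arc before. -/
theorem Arcs.ars (h : Arcs U n s nx g ar) (i : σ) {t : ℕ} (ht : t < n) : ar ((U.U ^ t) (s i)) = nx.symm i := by
  have hp := h.pos (nx.symm i)
  rw [h.prev i t]
  have e : t + g (nx.symm i) = n + (t + g (nx.symm i) - n) := by omega
  rw [e]
  exact h.har _ _ (by omega)

theorem Arcs.s_inj (h : Arcs U n s nx g ar) : Function.Injective s := by
  intro i j hij
  have h1 := h.ars i h.n0
  have h2 := h.ars j h.n0
  rw [hij] at h1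
  exact nx.symm.injective (h1.symm.trans h2)

/-- The last vertices of the arcs. -/
def Arcs.J (h : Arcs U n s nx g ar) : σ ↪ Q :=
  ⟨fun i => (U.U ^ (n - 1)) (s i), fun _ _ hij => h.s_inj ((U.U ^ (n - 1)).injective hij)⟩

theorem Arcs.J_apply (h : Arcs U n s nx g ar) (i : σ) : h.J i = (U.U ^ (n - 1)) (s i) := rfl

/-- The permutation whose orbits are the arcs. -/
noncomputable def Arcs.rho (h : Arcs U n s nx g ar) : Equiv.Perm Q :=
  U.U * (nx⁻¹ : Equiv.Perm σ).viaEmbedding h.J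

theorem Arcs.rho_J (h : Arcs U n s nx g ar) (i : σ) : h.rho (h.J i) = (U.U ^ n) (s (nx.symm i)) := by
  have h0 := h.n0
  have e : n = n - 1 + 1 := by omega
  show U.U (((nx⁻¹ : Equiv.Perm σ).viaEmbedding h.J) (h.J i)) = _
  rw [Equiv.Perm.viaEmbedding_apply]
  conv_rhs => rw [e, U.U_pow_succ']
  rfl

theorem Arcs.rho_out (h : Arcs U n s nx g ar) {x : Q} (hx : x ∉ Set.range h.J) : h.rho x = U.U x := by
  show U.U (((nx⁻¹ : Equiv.Perm σ).viaEmbedding h.J) x) = _
  rw [Equiv.Perm.viaEmbedding_apply_of_notMem _ _ _ hx]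

/-- The vertex number `t` of arc `i` is a last vertex only for `t = g i - 1`. -/
theorem Arcs.not_J (h : Arcs U n s nx g ar) (i : σ) {t : ℕ} (ht : t + 1 < g i) :
    (U.U ^ (n + t)) (s i) ∉ Set.range h.J := by
  rintro ⟨j, hj⟩
  have h0 := h.n0
  rw [h.J_apply] at hj
  have h1 := h.ars j (t := n - 1) (by omega)
  rw [hj, h.har i t (by omega)] at h1
  rw [h.prev j, ← h1] at hj
  have hp := h.pos i
  have e : n - 1 + g i = n + (g i - 1) := by omega
  rw [e] at hj
  have := h.inj i (g i - 1) (by omega) t (by omega) hj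
  omega

theorem Arcs.rho_mid (h : Arcs U n s nx g ar) (i : σ) {t : ℕ} (ht : t + 1 < g i) :
    h.rho ((U.U ^ (n + t)) (s i)) = (U.U ^ (n + (t + 1))) (s i) := by
  rw [h.rho_out (h.not_J i ht), ← U.U_pow_succ', add_assoc]

theorem Arcs.rho_last (h : Arcs U n s nx g ar) (i : σ) :
    h.rho ((U.U ^ (n + (g i - 1))) (s i)) = (U.U ^ n) (s i) := by
  have h0 := h.n0
  have hp := h.pos i
  have e : (U.U ^ (n + (g i - 1))) (s i) = h.J (nx i) := by
    rw [h.J_apply, h.prev (nx i), Equiv.symm_apply_apply]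
    congr 2; omega
  rw [e, h.rho_J, Equiv.symm_apply_apply]

theorem Arcs.rho_ne (h : Arcs U n s nx g ar) (x : Q) : h.rho x ≠ x := by
  intro hx
  obtain ⟨t, ht, he⟩ := h.cov x
  have h0 := h.n0
  have hp := h.pos (ar x)
  generalize ar x = i at he ht hp
  rw [he] at hx
  by_cases h1 : t + 1 < g i
  · rw [h.rho_mid _ h1] at hx
    have := h.inj i (t + 1) h1 t ht hx
    omega
  · have e : t = g i - 1 := by omega
    rw [e, h.rho_last] at hx
    have := h.inj i 0 (by omega) (g i - 1) (by omega) hx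
    omega

theorem Arcs.ar_rho (h : Arcs U n s nx g ar) (x : Q) : ar (h.rho x) = ar x := by
  obtain ⟨t, ht, he⟩ := h.cov x
  have hp := h.pos (ar x)
  generalize ar x = i at he ht hp ⊢
  by_cases h1 : t + 1 < g i
  · rw [he, h.rho_mid _ h1, h.har _ _ h1]
  · have e : t = g i - 1 := by omega
    rw [he, e, h.rho_last]
    exact h.har i 0 (by omega)

theorem Arcs.rho_pow (h : Arcs U n s nx g ar) (i : σ) {t : ℕ} (ht : t < g i) :
    (h.rho ^ t) ((U.U ^ n) (s i)) = (U.U ^ (n + t)) (s i) := by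
  induction t with
  | zero => rfl
  | succ t ih => rw [perm_succ, ih (by omega), h.rho_mid i ht]

theorem Arcs.rho_per (h : Arcs U n s nx g ar) (i : σ) :
    (h.rho ^ g i) ((U.U ^ n) (s i)) = (U.U ^ n) (s i) := by
  have hp := h.pos i
  have e : g i = g i - 1 + 1 := by omega
  rw [e, perm_succ, h.rho_pow i (by omega), h.rho_last i]

theorem Arcs.orb (h : Arcs U n s nx g ar) (x y : Q) (hxy : ar x = ar y) : ∃ m : ℕ, y = (h.rho ^ m) x := by
  obtain ⟨t, ht, hx⟩ := h.cov x
  obtain ⟨t', ht', hy⟩ := h.cov y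
  rw [← hxy] at ht' hy
  generalize ar x = i at hx ht hy ht'
  refine ⟨t' + (g i - t), ?_⟩
  rw [hy, hx, ← h.rho_pow i ht, ← h.rho_pow i ht', ← Equiv.Perm.mul_apply (h.rho ^ (t' + (g i - t))), ← pow_add]
  have e : t' + (g i - t) + t = t' + g i := by omega
  rw [e, pow_add, Equiv.Perm.mul_apply (h.rho ^ t'), h.rho_per]

/-- The labels of `rho`. -/
noncomputable def Arcs.up (h : Arcs U n s nx g ar) : Up (fk B) where
  up := open Classical in fun x => if x ∈ Set.range h.J then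
    Sum.inr ⟨x⁻¹ * h.rho x, fun e => h.rho_ne x (inv_mul_eq_one.1 e).symm⟩ else Sum.inl (U.up x)
  U := h.rho
  hU := fun x => by
    by_cases hx : x ∈ Set.range h.J
    · rw [if_pos hx]
      show h.rho x = x * (x⁻¹ * h.rho x)
      rw [mul_inv_cancel_left]
    · rw [if_neg hx, h.rho_out hx]
      exact U.hU x

theorem Arcs.up_out (h : Arcs U n s nx g ar) {x : Q} (hx : x ∉ Set.range h.J) : h.up.up x = Sum.inl (U.up x) := by
  unfold Arcs.up
  exact if_neg hx

theorem Arcs.up_U (h : Arcs U n s nx g ar) : h.up.U = h.rho := rfl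

/-! ### The levels -/

variable {L₀ : Finset Q}

theorem Arcs.low (h : Arcs U n s nx g ar) (hL : LvD U n L₀) (hs : ∀ i, s i ∈ L₀) {y : Q} (hy : y ∈ L₀) {t : ℕ}
    (ht : t < n) : (h.rho ^ t) y = (U.U ^ t) y := by
  induction t with
  | zero => rfl
  | succ t ih =>
    rw [perm_succ, ih (by omega), h.rho_out, ← U.U_pow_succ']
    rintro ⟨i, hi⟩
    rw [h.J_apply] at hi
    have := (hL _ (hs i) _ hy _ _ (by omega) (by omega) hi).2
    omega

theorem Arcs.top_s (h : Arcs U n s nx g ar) (hL : LvD U n L₀) (hs : ∀ i, s i ∈ L₀) (i : σ) :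
    (h.rho ^ n) (s i) = (U.U ^ n) (s (nx.symm i)) := by
  have h0 := h.n0
  have e : n = n - 1 + 1 := by omega
  have h1 : (h.rho ^ (n - 1 + 1)) (s i) = (U.U ^ n) (s (nx.symm i)) := by
    rw [perm_succ, h.low hL hs (hs i) (by omega), ← h.J_apply, h.rho_J]
  rwa [← e] at h1

theorem Arcs.top_o (h : Arcs U n s nx g ar) (hL : LvD U n L₀) (hs : ∀ i, s i ∈ L₀) {y : Q} (hy : y ∈ L₀)
    (hy' : ∀ i, y ≠ s i) : (h.rho ^ n) y = (U.U ^ n) y := by
  have h0 := h.n0
  have e : n = n - 1 + 1 := by omega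
  have h1 : (h.rho ^ (n - 1 + 1)) y = (U.U ^ (n - 1 + 1)) y := by
    rw [perm_succ, h.low hL hs hy (by omega), h.rho_out, ← U.U_pow_succ']
    rintro ⟨i, hi⟩
    exact hy' i ((U.U ^ (n - 1)).injective hi).symm
  rwa [← e] at h1

/-- The bottom vertex of the strand which is reached. -/
theorem Arcs.top (h : Arcs U n s nx g ar) (hL : LvD U n L₀) (hs : ∀ i, s i ∈ L₀) {y : Q} (hy : y ∈ L₀) :
    ∃ z ∈ L₀, (h.rho ^ n) y = (U.U ^ n) z := by
  by_cases h1 : ∃ i, y = s i
  · obtain ⟨i, rfl⟩ := h1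
    exact ⟨_, hs _, h.top_s hL hs i⟩
  · exact ⟨y, hy, h.top_o hL hs hy fun i hi => h1 ⟨i, hi⟩⟩

theorem Arcs.im_low (h : Arcs U n s nx g ar) (hL : LvD U n L₀) (hs : ∀ i, s i ∈ L₀) {t : ℕ} (ht : t < n) :
    im (h.rho ^ t) L₀ = im (U.U ^ t) L₀ := by
  ext x
  constructor
  · intro hx
    obtain ⟨y, hy, rfl⟩ := Finset.mem_map.1 hx
    exact Finset.mem_map.2 ⟨y, hy, (h.low hL hs hy ht).symm⟩
  · intro hx
    obtain ⟨y, hy, rfl⟩ := Finset.mem_map.1 hx
    exact Finset.mem_map.2 ⟨y, hy, h.low hL hs hy ht⟩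

theorem Arcs.im_top (h : Arcs U n s nx g ar) (hL : LvD U n L₀) (hs : ∀ i, s i ∈ L₀) :
    im (h.rho ^ n) L₀ = im (U.U ^ n) L₀ := by
  refine Finset.eq_of_subset_of_card_le ?_ ?_
  · intro x hx
    obtain ⟨y, hy, rfl⟩ := Finset.mem_map.1 hx
    obtain ⟨z, hz, h1⟩ := h.top hL hs hy
    exact Finset.mem_map.2 ⟨z, hz, h1.symm⟩
  · unfold im
    rw [Finset.card_map, Finset.card_map]

end perm

/-! ### ONEW -/

theorem oneW (hM : Merge3S) : OneWS := by
  intro Q _ _ _ B U σ _ s nx g n ar L₀ d cl i₀ i₁ i₂ h hL hs n01 n20 n21 hd0 hd2 hc0 hc2 hcl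
  have e0 : ∀ i, ar (s i) = nx.symm i := fun i => h.ars i h.n0
  refine ⟨fun R _ V γ => bvol (fkV V) h.up (fun x => d (ar x)) (fun x => cl (ar x)) (fun _ : Unit => L₀)
    (fun _ => n) γ, ?_⟩
  intro X hX0 hu0 hu1 hX1 hXR hw0 hw1 hf2 hfs hfo
  have hxs : s i₂ ∈ X.tok₀ := TW.mem_tok₀.2 ⟨by rw [hX0]; exact hs i₂,
    by rw [hu0]; exact fun e => n20 (h.s_inj e), by rw [hu1]; exact fun e => n21 (h.s_inj e)⟩
  have hF : Flat h.up (fkW X) n (s i₂) := by
    refine ⟨h.n0, ?_, ?_, hxs, ?_, ?_, ?_, ?_⟩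
    · show X.L₁ = im (h.rho ^ n) X.L₀
      rw [hX0, h.im_top hL hs, hX1]
    · rw [fkW_R, hXR]
      show U.lev L₀ n = ∑ i ∈ Finset.range n, (im (h.rho ^ i) X.L₀).val
      rw [hX0]
      unfold Up.lev
      refine Finset.sum_congr rfl fun i hi => ?_
      rw [h.im_low hL hs (Finset.mem_range.1 hi)]
    · show X.w₀ = (h.rho ^ n) X.u₁
      rw [hu1, h.top_s hL hs, hw0]
    · show X.w₁ = (h.rho ^ n) (s i₂)
      rw [h.top_s hL hs, hw1]
    · show X.f (s i₂) = (h.rho ^ n) X.u₀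
      rw [hu0, h.top_s hL hs, hf2]
    · intro x hx hne
      have hx := TW.mem_tok₀.1 (show x ∈ X.tok₀ from hx)
      show X.f x = (h.rho ^ n) x
      rw [hX0, hu0, hu1] at hx
      by_cases h1 : ∃ i, x = s i
      · obtain ⟨i, rfl⟩ := h1
        rw [h.top_s hL hs]
        exact hfs i (fun e => hx.2.1 (by rw [e])) (fun e => hx.2.2 (by rw [e])) (fun e => hne (by rw [e]))
      · rw [h.top_o hL hs hx.1 fun i hi => h1 ⟨i, hi⟩]
        exact hfo x hx.1 fun i hi => h1 ⟨i, hi⟩
  have hdisj : ∀ x ∈ L₀, ∀ y ∈ L₀, ∀ t t' : ℕ, t ≤ n → t' ≤ n → (h.rho ^ t) x = (h.rho ^ t') y →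
      x = y ∧ t = t' := by
    intro x hx y hy t t' ht ht' he
    have key : ∀ x ∈ L₀, ∀ t ≤ n, ∃ z ∈ L₀, (h.rho ^ t) x = (U.U ^ t) z := by
      intro x hx t ht
      rcases Nat.lt_or_ge t n with h1 | h1
      · exact ⟨x, hx, h.low hL hs hx h1⟩
      · have e : t = n := by omega
        rw [e]
        exact h.top hL hs hx
    obtain ⟨z, hz, h1⟩ := key x hx t ht
    obtain ⟨z', hz', h2⟩ := key y hy t' ht'
    have h3 := (hL z hz z' hz' t t' ht ht' (by rw [← h1, ← h2, he])).2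
    subst h3
    exact ⟨(h.rho ^ t).injective he, rfl⟩
  obtain ⟨T, hT1, hT2, hT3⟩ := hM Q (fk B) h.up σ ar (fun x => d (ar x)) (fun x => cl (ar x)) Unit
    (fun _ => fkW X) (fun _ => n) (fun _ => s i₂) (fun _ => 0) h.ar_rho h.orb
    (fun i => ⟨(U.U ^ (n + 0)) (s i), h.har i 0 (by have := h.pos i; omega)⟩)
    (fun x => congrArg d (h.ar_rho x)) (fun x => congrArg cl (h.ar_rho x)) (fun _ => hF)
    (fun _ => by
      show d (ar X.u₀) = !d (ar X.u₁) ∧ d (ar (s i₂)) = !d (ar X.u₁)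
      rw [hu0, hu1, e0, e0, e0]
      exact ⟨hd0, hd2⟩)
    ⟨fun _ => h.n0, fun _ => X.hu₁, fun _ => X.hu₀, fun _ => (TW.mem_tok₀.1 hxs).1, by
      intro _ _ x y t t' hx hy ht ht' he
      obtain ⟨h1, h2⟩ := hdisj x (by rw [← hX0]; exact hx) y (by rw [← hX0]; exact hy) t t' ht ht' he
      exact ⟨rfl, h1, h2⟩⟩
    ⟨fun _ => by
        show ar X.u₁ ≠ ar X.u₀
        rw [hu0, hu1, e0, e0]
        exact fun e => n01 (nx.symm.injective e).symm,
      fun _ => by
        show ar X.u₁ ≠ ar (s i₂)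
        rw [hu1, e0, e0]
        exact fun e => n21 (nx.symm.injective e).symm,
      fun _ => by
        show ar X.u₀ ≠ ar (s i₂)
        rw [hu0, e0, e0]
        exact fun e => n20 (nx.symm.injective e).symm,
      fun _ => by
        show cl (ar X.u₀) = cl (ar X.u₁)
        rw [hu0, hu1, e0, e0]
        exact hc0,
      fun _ => by
        show cl (ar (s i₂)) = cl (ar X.u₁)
        rw [hu1, e0, e0]
        exact hc2,
      fun _ => ⟨fun _ => True, Or.inl ⟨trivial, trivial⟩, fun _ _ j hj => absurd (Subsingleton.elim _ _) hj⟩,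
      fun ρ hρ hi x y hxy => by
        have hi := hi ()
        have h1 : ρ (nx.symm i₁) (nx.symm i₀) := by
          have := hi.1
          change ρ (ar X.u₁) (ar X.u₀) at this
          rwa [hu0, hu1, e0, e0] at this
        have h2 : ρ (nx.symm i₁) (nx.symm i₂) := by
          have := hi.2
          change ρ (ar X.u₁) (ar (s i₂)) at this
          rwa [hu1, e0, e0] at this
        have h3 : ∀ j, (j = nx.symm i₀ ∨ j = nx.symm i₁ ∨ j = nx.symm i₂) → ρ (nx.symm i₁) j := by
          rintro j (rfl | rfl | rfl)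
          · exact h1
          · exact hρ.refl _
          · exact h2
        rcases hcl (ar x) (ar y) hxy with h4 | ⟨h4, h5⟩
        · rw [h4]; exact hρ.refl _
        · exact hρ.trans (hρ.symm (h3 _ h4)) (h3 _ h5)⟩
  have hreal := hT2 (fun b => ∃ b', b = Sum.inl b') (by
      rintro b ⟨b', rfl⟩
      exact ⟨B.inv b', rfl⟩) (by
      intro x hx
      refine ⟨U.up x, h.up_out ?_⟩
      rintro ⟨i, hi⟩
      have h0 := h.n0
      refine hx () (s i) (by show s i ∈ X.L₀; rw [hX0]; exact hs i) (n - 1) (by show n - 1 < n; omega) ?_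
      rw [h.up_U, h.low hL hs (hs i) (by omega), ← hi, h.J_apply]) (by
      intro _
      refine ⟨?_, ?_, ?_⟩
      · intro b hb
        obtain ⟨b', _, rfl⟩ := List.mem_map.1 hb
        exact ⟨b', rfl⟩
      · intro b hb
        obtain ⟨b', _, rfl⟩ := List.mem_map.1 hb
        exact ⟨b', rfl⟩
      · intro x _ b hb
        obtain ⟨b', _, rfl⟩ := List.mem_map.1 hb
        exact ⟨b', rfl⟩)
  obtain ⟨T', h1, h2⟩ := real_tour T hreal
  refine ⟨T', fun x => ?_, fun R _ V γ => ?_⟩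
  · rw [h2]
    obtain ⟨y, hy⟩ := hT1 x
    exact ⟨ar y, hy⟩
  · have h3 := hT3 R (fkV V) γ
    have h4 : T'.vol V γ = T.vol (fkV V) γ := by
      unfold TourS.vol
      refine Finset.sum_congr rfl fun x _ => ?_
      rw [h2, h1 x]
      rfl
    rw [h4, h3]
    simp only [Finset.univ_unique, Finset.sum_singleton]
    have h5 : wvol (fkV V) (fun x => d (ar x)) (fun x => cl (ar x)) γ (fkW X) =
        ∑ x ∈ X.tok₀, (sgc d cl γ (ar x) : R) * V.vol x (X.path x) +
          (if cl (nx.symm i₁) = γ then (if d (nx.symm i₀) then 1 else -1) * (V.vol X.u₀ X.cup + V.vol X.w₀ X.cap)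
            else 0) := by
      unfold wvol
      congr 1
      · refine Finset.sum_congr rfl fun x _ => ?_
        have e1 : (fkV V).vol x ((fkW X).path x) = V.vol x (X.path x) := fk_vol V _ _
        rw [e1]
        congr 1
        unfold wcl sgc
        split_ifs <;> simp
      · have e1 : (fkV V).vol (fkW X).u₀ (fkW X).cup = V.vol X.u₀ X.cup := fk_vol V _ _
        have e2 : (fkV V).vol (fkW X).w₀ (fkW X).cap = V.vol X.w₀ X.cap := fk_vol V _ _
        rw [e1, e2]
        show (if cl (ar X.u₁) = γ then (if d (ar X.u₀) then 1 else -1) * _ else 0) = _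
        rw [hu0, hu1, e0, e0]
    have h6 : (fun _ : Unit => (fkW X).L₀) = fun _ => L₀ := funext fun _ => hX0
    rw [h5, h6, add_assoc]

end Pool.Agent.Lib.MP_688fd0_co.SQ3.Small
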