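import Pool.Agent.Lib.MP_688fd0_co.SQ3.Small.Iface

/-!
One line: R1 from R1A (all labels straight), R1C (a label of slope `1` or `-1`) and R1D (slope `0` only).
-/

set_option autoImplicit false

namespace Pool.Agent.Lib.MP_688fd0_co.SQ3.Small

open Pool.Agent.Lib.MP_688fd0_co.OSF Pool.Agent.Lib.MP_688fd0_co.SQ2
open Subgroup (zpowers)

theorem r1 (hA : R1AS) (hC : R1CS) (hD : R1DS) : R1S := by
  intro Q _ B m V a k c τ H hz hτ hb hp
  -- elements commute
  have hcom : B.q a * τ = τ * B.q a := by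
    obtain ⟨j, hj⟩ := Subgroup.mem_zpowers_iff.1 (hz τ)
    rw [← hj, (Commute.refl (B.q a)).zpow_right j |>.eq]
  have hτi : τ⁻¹ = τ := inv_eq_of_mul_eq_one_right hτ
  -- the three slopes
  have hb3 : ∀ b, B.q b = B.q a ∨ B.q b = (B.q a)⁻¹ ∨ B.q b = B.q a * τ ∨ B.q b = (B.q a)⁻¹ * τ ∨ B.q b = τ := by
    intro b
    rcases hb b with h | h | ⟨i, hi, h⟩
    · exact Or.inl h
    · exact Or.inr (Or.inl h)
    · have h3 : i = 1 ∨ i = -1 ∨ i = 0 := by
        have := abs_le.1 hi
        omega
      rcases h3 with rfl | rfl | rfl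
      · exact Or.inr (Or.inr (Or.inl (by rw [h, zpow_one])))
      · exact Or.inr (Or.inr (Or.inr (Or.inl (by rw [h, zpow_neg_one]))))
      · exact Or.inr (Or.inr (Or.inr (Or.inr (by rw [h, zpow_zero, one_mul]))))
  by_cases h1 : τ = 1
  · refine hA Q B m V a k c H (fun b => ?_) hp
    rcases hb3 b with h | h | h | h | h
    · exact Or.inl h
    · exact Or.inr h
    · exact Or.inl (by rw [h, h1, mul_one])
    · exact Or.inr (by rw [h, h1, mul_one])
    · exact absurd (h.trans h1) (B.ne_one b)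
  · by_cases hc : ∃ b, B.q b = B.q a * τ
    · obtain ⟨b, hb'⟩ := hc
      exact hC Q B m V a b k c τ H hz hτ h1 hb' hb hp
    · by_cases hc' : ∃ b, B.q b = (B.q a)⁻¹ * τ
      · obtain ⟨b, hb'⟩ := hc'
        refine absurd ⟨B.inv b, ?_⟩ hc
        rw [B.q_inv, hb', mul_inv_rev, inv_inv, hτi, hcom]
      · have hb4 : ∀ b, B.q b = B.q a ∨ B.q b = (B.q a)⁻¹ ∨ B.q b = τ := by
          intro b
          rcases hb3 b with h | h | h | h | h
          · exact Or.inl h
          · exact Or.inr (Or.inl h)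
          · exact absurd ⟨b, h⟩ hc
          · exact absurd ⟨b, h⟩ hc'
          · exact Or.inr (Or.inr h)
        by_cases hd : ∃ b, B.q b = τ
        · obtain ⟨b, hb'⟩ := hd
          exact hD Q B m V a b k c τ H hz hτ h1 hb' hb4 hp
        · refine hA Q B m V a k c H (fun b => ?_) hp
          rcases hb4 b with h | h | h
          · exact Or.inl h
          · exact Or.inr h
          · exact absurd ⟨b, h⟩ hd

end Pool.Agent.Lib.MP_688fd0_co.SQ3.Small
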