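import Pool.Agent.Lib.MP_688fd0_co.SQ3.Small.Iface
import Pool.Agent.Lib.MP_688fd0_co.SQ2.Words

/-!
R1A: one line, all labels are straight (1a of finding 4109): exchanges on the line.
-/

set_option autoImplicit false

namespace Pool.Agent.Lib.MP_688fd0_co.SQ3.Small

open Pool.Agent.Lib.MP_688fd0_co.OSF Pool.Agent.Lib.MP_688fd0_co.SQ2
open Subgroup (zpowers)

/-! ### Reduction modulo a prime divisor -/

theorem rd_hom {m p : ℕ} (h : p ∣ m) (x : ZMod m) : rd p x = ZMod.castHom h (ZMod p) x := rfl

theorem rd_add {m p : ℕ} (h : p ∣ m) (x y : ZMod m) : rd p (x + y) = rd p x + rd p y := by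
  rw [rd_hom h, rd_hom h, rd_hom h, map_add]

theorem rd_sub {m p : ℕ} (h : p ∣ m) (x y : ZMod m) : rd p (x - y) = rd p x - rd p y := by
  rw [rd_hom h, rd_hom h, rd_hom h, map_sub]

theorem rd_neg {m p : ℕ} (h : p ∣ m) (x : ZMod m) : rd p (-x) = -rd p x := by
  rw [rd_hom h, rd_hom h, map_neg]

theorem rd_mul {m p : ℕ} (h : p ∣ m) (x y : ZMod m) : rd p (x * y) = rd p x * rd p y := by
  rw [rd_hom h, rd_hom h, rd_hom h, map_mul]

theorem rd_pow {m p : ℕ} (h : p ∣ m) (x : ZMod m) (n : ℕ) : rd p (x ^ n) = rd p x ^ n := by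
  rw [rd_hom h, rd_hom h, map_pow]

theorem rd_zero {m p : ℕ} (h : p ∣ m) : rd p (0 : ZMod m) = 0 := by
  rw [rd_hom h, map_zero]

theorem rd_one {m p : ℕ} (h : p ∣ m) : rd p (1 : ZMod m) = 1 := by
  rw [rd_hom h, map_one]

theorem rd_natCast {m p : ℕ} (h : p ∣ m) (n : ℕ) : rd p (n : ZMod m) = n := by
  rw [rd_hom h, map_natCast]

theorem rd_sum {m p : ℕ} (h : p ∣ m) {ι : Type*} (s : Finset ι) (f : ι → ZMod m) :
    rd p (∑ i ∈ s, f i) = ∑ i ∈ s, rd p (f i) := by
  rw [rd_hom h, map_sum]
  exact Finset.sum_congr rfl fun i _ => (rd_hom h _).symm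

section

variable {Q : Type} [Group Q] {B : Lb.{0, 0} Q} {m : ℕ} (V : Vd B (ZMod m))

theorem rd_chi_ne {p : ℕ} (hp : p ∈ m.primeFactors) (x : Q) : rd p (V.chi x) ≠ 0 := by
  have hd := Nat.dvd_of_mem_primeFactors hp
  have : Fact p.Prime := ⟨Nat.prime_of_mem_primeFactors hp⟩
  intro h
  have h1 : rd p (V.chi x * V.chi x⁻¹) = 1 := by
    rw [← map_mul, mul_inv_cancel, map_one, rd_one hd]
  rw [rd_mul hd, h, zero_mul] at h1
  exact zero_ne_one h1

theorem rd_inv_ne {p : ℕ} (hp : p ∈ m.primeFactors) (b : B.L) (h : rd p (V.n b) ≠ 0) : rd p (V.n (B.inv b)) ≠ 0 := by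
  have hd := Nat.dvd_of_mem_primeFactors hp
  have : Fact p.Prime := ⟨Nat.prime_of_mem_primeFactors hp⟩
  rw [V.n_inv, rd_neg hd, rd_mul hd]
  exact neg_ne_zero.2 (mul_ne_zero (rd_chi_ne V hp _) h)

/-- The volume of a straight path if `n a = 0` modulo `p`. -/
theorem rd_vol_replicate {p : ℕ} (hd : p ∣ m) (a : B.L) (h : rd p (V.n a) = 0) (x : Q) (l : ℕ) :
    rd p (V.vol x (List.replicate l a)) = 0 := by
  induction l generalizing x with
  | zero => exact rd_zero hd
  | succ l ih =>
    rw [List.replicate_succ, Vd.vol, rd_add hd, rd_mul hd, h, mul_zero, zero_add, ih]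

end

section

variable {Q : Type} [Group Q] {B : Lb.{0, 0} Q} {R : Type*} [CommRing R] (V : Vd B R)

/-- Paths all whose labels have the same image. -/
theorem fin_same (a : B.L) (w : List B.L) (h : ∀ g ∈ w, B.q g = B.q a) (x : Q) : B.fin x w = x * B.q a ^ w.length := by
  induction w generalizing x with
  | nil => simp [Lb.fin]
  | cons g w ih =>
    rw [Lb.fin, ih (fun g hg => h g (List.mem_cons_of_mem _ hg)), h g List.mem_cons_self, List.length_cons, pow_succ',
      mul_assoc]

theorem src_same (a : B.L) (w : List B.L) (h : ∀ g ∈ w, B.q g = B.q a) (x : Q) :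
    src B x w = (List.range w.length).map fun i => x * B.q a ^ i := by
  induction w generalizing x with
  | nil => rfl
  | cons g w ih =>
    rw [src, ih (fun g hg => h g (List.mem_cons_of_mem _ hg)), h g List.mem_cons_self, List.length_cons,
      List.range_succ_eq_map, List.map_cons, List.map_map]
    refine congrArg₂ List.cons (by simp) (List.map_congr_left fun i _ => ?_)
    show x * B.q a * B.q a ^ i = x * B.q a ^ (i + 1)
    rw [pow_succ', mul_assoc]

/-- The word with the labels `l` at the levels `0, k, 2k, ..`. -/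
def exw (a : B.L) (k M : ℕ) (l : List B.L) : List B.L :=
  l.flatMap (fun g => g :: List.replicate (k - 1) a) ++ List.replicate (M - k * l.length) a

theorem exw_cons (a : B.L) (k M : ℕ) (g : B.L) (l : List B.L) :
    exw a k (k + M) (g :: l) = g :: (List.replicate (k - 1) a ++ exw a k M l) := by
  unfold exw
  rw [List.flatMap_cons, List.length_cons, List.cons_append, List.cons_append, List.append_assoc]
  congr 4
  rw [Nat.mul_succ]
  omega

theorem exw_length (a : B.L) (k : ℕ) (hk : 0 < k) (l : List B.L) (M : ℕ) (h : k * l.length ≤ M) :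
    (exw a k M l).length = M := by
  induction l generalizing M with
  | nil => simp [exw]
  | cons g l ih =>
    rw [List.length_cons, Nat.mul_succ] at h
    obtain ⟨M, rfl⟩ : ∃ M', M = k + M' := ⟨M - k, by omega⟩
    rw [exw_cons, List.length_cons, List.length_append, List.length_replicate, ih M (by omega)]
    omega

theorem mem_exw {a : B.L} {k M : ℕ} {l : List B.L} {g : B.L} (h : g ∈ exw a k M l) : g ∈ l ∨ g = a := by
  unfold exw at h
  rw [List.mem_append, List.mem_flatMap] at h
  rcases h with ⟨g', h1, h2⟩ | h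
  · rcases List.mem_cons.1 h2 with rfl | h2
    · exact Or.inl h1
    · exact Or.inr (List.eq_of_mem_replicate h2)
  · exact Or.inr (List.eq_of_mem_replicate h)

theorem vol_exw (a : B.L) (k : ℕ) (hk : 0 < k) (hc : V.chi (B.q a) ^ k = 1) (l : List B.L)
    (hl : ∀ g ∈ l, B.q g = B.q a) (M : ℕ) (h : k * l.length ≤ M) (x : Q) :
    V.vol x (exw a k M l) = V.vol x (List.replicate M a) + V.chi x * (l.map fun g => V.n g - V.n a).sum := by
  induction l generalizing M x with
  | nil => simp [exw]
  | cons g l ih =>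
    rw [List.length_cons, Nat.mul_succ] at h
    obtain ⟨M, rfl⟩ : ∃ M', M = k + M' := ⟨M - k, by omega⟩
    have e1 : List.replicate (k + M) a = a :: (List.replicate (k - 1) a ++ List.replicate M a) := by
      rw [List.replicate_append_replicate, ← List.replicate_succ]
      congr 1; omega
    rw [exw_cons, e1, Vd.vol, Vd.vol, hl g List.mem_cons_self, vol_append, vol_append,
      ih (fun g hg => hl g (List.mem_cons_of_mem _ hg)) M (by omega), List.map_cons, List.sum_cons]
    have e2 : V.chi (B.fin (x * B.q a) (List.replicate (k - 1) a)) = V.chi x := by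
      rw [fin_same a _ (fun g hg => by rw [List.eq_of_mem_replicate hg]), List.length_replicate, mul_assoc, ← pow_succ',
        show k - 1 + 1 = k by omega, map_mul, map_pow, hc, mul_one]
    rw [e2]
    ring

end

/-- In a cyclic group of order `M` the path is a tour. -/
theorem r1a (hf : FacS) (ha : ArS) : R1AS := by
  intro Q _ B m V a k c hy hs hp
  have := hy.fin
  have : NeZero m := ⟨hy.m0⟩
  classical
  set A := B.q a with hA
  set M := orderOf A with hM
  have hM0 : 0 < M := orderOf_pos A
  have hgen : ∀ x : Q, ∃ i < M, A ^ i = x := by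
    have h1 : (⊤ : Subgroup Q) ≤ zpowers A := by
      rw [← hy.gen, Subgroup.closure_le]
      rintro _ ⟨b, rfl⟩
      rcases hs b with h | h
      · show B.q b ∈ zpowers A
        rw [h]; exact Subgroup.mem_zpowers A
      · show B.q b ∈ zpowers A
        rw [h]; exact Subgroup.inv_mem _ (Subgroup.mem_zpowers A)
    intro x
    have h2 := h1 (Subgroup.mem_top x)
    rw [mem_zpowers_iff_mem_range_orderOf, Finset.mem_image] at h2
    obtain ⟨i, hi, e⟩ := h2
    exact ⟨i, Finset.mem_range.1 hi, e⟩
  -- labels for the exchanges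
  have hex : ∀ p : m.primeFactors, ∃ g : B.L, B.q g = A ∧ rd (p : ℕ) (V.n g) ≠ 0 := by
    rintro ⟨p, hpp⟩
    obtain ⟨-, -, b, hb⟩ := hp p hpp
    rcases hs b with h | h
    · exact ⟨b, h, hb⟩
    · exact ⟨B.inv b, by rw [B.q_inv, h, inv_inv], rd_inv_ne V hpp b hb⟩
  choose g hgA hgn using hex
  have hna : ∀ p : m.primeFactors, rd (p : ℕ) (V.n a) = 0 := fun p => (hp p p.2).2.1
  have hdv : ∀ p : m.primeFactors, (p : ℕ) ∣ m := fun p => Nat.dvd_of_mem_primeFactors p.2
  obtain ⟨j, hj1, hj2⟩ := ha m.primeFactors m.primeFactors (fun p => (p : ℕ)) (fun _ => 0)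
    (fun i c => rd (c : ℕ) (V.n (g i) - V.n a)) (fun p => ⟨Nat.prime_of_mem_primeFactors p.2, by
      have h1 := hy.prm p p.2
      rw [Fintype.card_coe]
      nlinarith [Nat.zero_le m.primeFactors.card]⟩)
  rw [Fintype.card_coe] at hj1
  -- the word
  set l : List B.L := (Finset.univ : Finset m.primeFactors).toList.flatMap fun i => List.replicate (j i) (g i) with hl
  have hlA : ∀ b ∈ l, B.q b = B.q a := by
    intro b hb
    rw [hl, List.mem_flatMap] at hb
    obtain ⟨i, -, hb⟩ := hb
    rw [List.eq_of_mem_replicate hb]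
    exact hgA i
  have hlen : l.length ≤ m.primeFactors.card * m.primeFactors.card := by
    rw [hl, List.length_flatMap]
    have h1 : ((Finset.univ : Finset m.primeFactors).toList.map fun i => (List.replicate (j i) (g i)).length).sum =
        ∑ i, j i := by
      rw [← Finset.sum_map_toList]
      simp
    rw [h1]
    calc ∑ i, j i ≤ ∑ _i : m.primeFactors, m.primeFactors.card := Finset.sum_le_sum fun i _ => hj1 i
      _ = _ := by rw [Finset.sum_const, Finset.card_univ, Fintype.card_coe, smul_eq_mul]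
  have hkM : k * l.length ≤ M := by
    have h1 := hy.big
    have h2 : k * l.length ≤ k * (m.primeFactors.card * m.primeFactors.card) := Nat.mul_le_mul_left _ hlen
    have h3 : m.primeFactors.card * m.primeFactors.card ≤ (m.primeFactors.card + 2) ^ 2 := by nlinarith
    have h4 : k * (m.primeFactors.card * m.primeFactors.card) ≤ k * (m.primeFactors.card + 2) ^ 2 :=
      Nat.mul_le_mul_left _ h3
    have h5 : k * (m.primeFactors.card + 2) ^ 2 ≤ 1000 * (m.primeFactors.card + 2) ^ 2 * k * (c + 10) := by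
      have : k * (m.primeFactors.card + 2) ^ 2 * 1 ≤ k * (m.primeFactors.card + 2) ^ 2 * (1000 * (c + 10)) :=
        Nat.mul_le_mul_left _ (by omega)
      calc _ = _ := (mul_one _).symm
        _ ≤ _ := this
        _ = _ := by ring
    exact h2.trans (h4.trans (h5.trans h1))
  set w := exw a k M l with hw
  have hwA : ∀ b ∈ w, B.q b = B.q a := by
    intro b hb
    rcases mem_exw hb with h | rfl
    · exact hlA b h
    · rfl
  have hwl : w.length = M := exw_length a k hy.k0 l M hkM
  have hsrc : src B 1 w = (List.range M).map fun i => A ^ i := by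
    rw [src_same a w hwA 1, hwl]
    exact List.map_congr_left fun i _ => one_mul _
  have hnd : (src B 1 w).Nodup := by
    rw [hsrc]
    refine (List.nodup_range).map_on ?_
    intro x hx y hy' e
    exact pow_injOn_Iio_orderOf (Set.mem_Iio.2 (List.mem_range.1 hx)) (Set.mem_Iio.2 (List.mem_range.1 hy')) e
  have hall : ∀ q, q ∈ src B 1 w := by
    intro q
    obtain ⟨i, hi, e⟩ := hgen q
    rw [hsrc, List.mem_map]
    exact ⟨i, List.mem_range.2 hi, e⟩
  have hfin : B.fin 1 w = 1 := by
    rw [fin_same a w hwA 1, hwl, one_mul, hM, pow_orderOf_eq_one]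
  -- FAC
  refine hf Q B m 1 V (one_dvd m) 1 w hy.sq ?_ ?_ ?_ ?_
  · refine List.Nodup.of_map Prod.fst ?_
    rw [es_fst]
    exact hnd
  · rintro ⟨q, v⟩
    have h1 : q ∈ (es (V.map (ZMod.castHom (one_dvd m) (ZMod 1))) (1, 0) w).map Prod.fst := by
      rw [es_fst]; exact hall q
    obtain ⟨⟨q', v'⟩, h2, rfl⟩ := List.mem_map.1 h1
    have : Subsingleton (ZMod 1) := inferInstanceAs (Subsingleton (Fin 1))
    rwa [Subsingleton.elim v v']
  · rw [ef_eq]
    have : Subsingleton (ZMod 1) := inferInstanceAs (Subsingleton (Fin 1))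
    exact Prod.ext hfin (Subsingleton.elim _ _)
  · intro p hpp _
    have hd := Nat.dvd_of_mem_primeFactors hpp
    rw [hw, vol_exw V a k hy.k0 hy.per l hlA M hkM 1, map_one, one_mul, rd_add hd,
      rd_vol_replicate V hd a (hna ⟨p, hpp⟩)]
    have h1 := hj2 ⟨p, hpp⟩ (Or.inr ⟨⟨p, hpp⟩, by
      show rd p (V.n (g ⟨p, hpp⟩) - V.n a) ≠ 0
      rw [rd_sub hd, hna ⟨p, hpp⟩, sub_zero]
      exact hgn ⟨p, hpp⟩⟩)
    intro h2
    have h3 : (l.map fun g => V.n g - V.n a).sum = ∑ i : m.primeFactors, (j i : ZMod m) * (V.n (g i) - V.n a) := by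
      rw [hl, List.map_flatMap, List.flatMap_def, List.sum_flatten, List.map_map, ← Finset.sum_map_toList]
      congr 1
      refine List.map_congr_left fun i _ => ?_
      rw [Function.comp_apply, List.map_replicate, List.sum_replicate, nsmul_eq_mul]
    rw [h3, rd_sum hd] at h2
    refine h1 (Eq.trans (congrArg (0 + ·) (Finset.sum_congr rfl fun i _ => ?_)) h2)
    rw [rd_mul hd, rd_natCast hd]

end Pool.Agent.Lib.MP_688fd0_co.SQ3.Small
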