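import Pool.Agent.Lib.MP_688fd0_co.SQ3.Small.R2A

/-!
R1C: one line, a label of slope `1` (1c of finding 4109). Two cycles, cut by one crossing at the level `n + δ`; if there
is no label of slope `0` the exits are the labels of slope `1` (`δ = 1`).
-/

set_option autoImplicit false

namespace Pool.Agent.Lib.MP_688fd0_co.SQ3.Small

open Pool.Agent.Lib.MP_688fd0_co.OSF Pool.Agent.Lib.MP_688fd0_co.SQ2
open Subgroup (zpowers)

section

variable {Q : Type} [Group Q] {B : Lb.{0, 0} Q} {m : ℕ} (V : Vd B (ZMod m)) {a : B.L}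

/-- Paths all whose labels vanish at `p`. -/
theorem rd_vol_nil {p : ℕ} (hd : p ∣ m) (l : List B.L) (h : ∀ g ∈ l, rd p (V.n g) = 0) (x : Q) :
    rd p (V.vol x l) = 0 := by
  induction l generalizing x with
  | nil => exact rd_zero hd
  | cons g l ih =>
    rw [Vd.vol, rd_add hd, rd_mul hd, h g List.mem_cons_self, mul_zero, zero_add,
      ih (fun g hg => h g (List.mem_cons_of_mem _ hg))]

/-- The slot one level higher on the `y`-side. -/
theorem slot_shift {y₀ : Q} (hc : B.q a * y₀ = y₀ * B.q a) {L : ℕ} (s : Slot B (B.q a) y₀ L) :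
    ∃ s' : Slot B (B.q a) (B.q a * y₀) (L + 1), s'.lx = a :: s.lx ∧ s'.ly = s.ly ++ [a] := by
  have e1 : B.fin (B.q a) s.lx = B.q a * B.q a ^ L := by
    have h := fin_tr (B := B) (B.q a) 1 s.lx
    rw [mul_one] at h
    rw [h, s.fx]
  have e2 : src B (B.q a) s.lx = (src B 1 s.lx).map (B.q a * ·) := by
    have h := src_tr (B := B) (B.q a) 1 s.lx
    rw [mul_one] at h
    exact h
  have e3 : B.fin (B.q a * y₀) s.ly = B.q a * (B.q a ^ L * y₀) := by
    rw [fin_tr, s.fy]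
  have h1 : B.fin 1 (a :: s.lx) = B.q a ^ (L + 1) := by
    show B.fin (1 * B.q a) s.lx = _
    rw [one_mul, e1, pow_succ']
  have h2 : B.fin (B.q a * y₀) (s.ly ++ [a]) = B.q a ^ (L + 1) * (B.q a * y₀) := by
    rw [fin_append, e3]
    show B.q a * (B.q a ^ L * y₀) * B.q a = _
    rw [hc, pow_succ', mul_assoc, mul_assoc, mul_assoc]
  have h3 : src B 1 (a :: s.lx) = 1 :: (src B 1 s.lx).map (B.q a * ·) := by
    show 1 :: src B (1 * B.q a) s.lx = _
    rw [one_mul, e2]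
  have h4 : src B (B.q a * y₀) (s.ly ++ [a]) = (src B y₀ s.ly).map (B.q a * ·) ++ [B.q a ^ L * (B.q a * y₀)] := by
    rw [src_append, e3, src_tr]
    show _ ++ [B.q a * (B.q a ^ L * y₀)] = _
    rw [← mul_assoc, ← mul_assoc, ← pow_succ', ← pow_succ]
  refine ⟨⟨a :: s.lx, s.ly ++ [a], h1, h2, ?_⟩, rfl, rfl⟩
  rw [h3, h4]
  have h5 := Multiset.coe_eq_coe.2 (s.perm.map (B.q a * ·))
  unfold strip at h5 ⊢
  rw [List.map_append, List.map_append, List.map_map, List.map_map] at h5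
  have h6 : (List.range (L + 1)).map (fun i => B.q a ^ i) =
      1 :: (List.range L).map ((B.q a * ·) ∘ fun i => B.q a ^ i) := by
    rw [List.range_succ_eq_map, List.map_cons, List.map_map, pow_zero]
    refine congrArg (List.cons 1) (List.map_congr_left fun i _ => ?_)
    show B.q a ^ (i + 1) = B.q a * B.q a ^ i
    exact pow_succ' _ _
  have h7 : (List.range (L + 1)).map (fun i => B.q a ^ i * (B.q a * y₀)) =
      (List.range L).map ((B.q a * ·) ∘ fun i => B.q a ^ i * y₀) ++ [B.q a ^ L * (B.q a * y₀)] := by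
    rw [List.range_succ, List.map_append]
    refine congrArg (· ++ [B.q a ^ L * (B.q a * y₀)]) (List.map_congr_left fun i _ => ?_)
    show B.q a ^ i * (B.q a * y₀) = B.q a * (B.q a ^ i * y₀)
    rw [← mul_assoc, ← mul_assoc, ← pow_succ, ← pow_succ']
  rw [h6, h7, ← Multiset.coe_eq_coe]
  simp only [← Multiset.coe_add, ← Multiset.cons_coe, ← Multiset.singleton_add] at h5 ⊢
  calc _ = {1} + (((src B 1 s.lx).map (B.q a * ·) : Multiset Q) + ((src B y₀ s.ly).map (B.q a * ·) : Multiset Q)) +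
      ([B.q a ^ L * (B.q a * y₀)] : Multiset Q) := by abel
    _ = _ := by rw [h5]; abel

theorem sd_shift {y₀ : Q} (hc : B.q a * y₀ = y₀ * B.q a) {L : ℕ} {t : Slot B (B.q a) y₀ L × ZMod m × ZMod m}
    (ht : SD V a y₀ L t) :
    ∃ t' : Slot B (B.q a) (B.q a * y₀) (L + 1) × ZMod m × ZMod m, SD V a (B.q a * y₀) (L + 1) t' ∧
      ∀ p, p ∣ m → rd p (V.n a) = 0 →
        rd p t'.2.1 = rd p (V.chi (B.q a)) * rd p t.2.1 ∧ rd p t'.2.2 = rd p (V.chi (B.q a)) * rd p t.2.2 := by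
  obtain ⟨s', h1, h2⟩ := slot_shift hc t.1
  refine ⟨⟨s', V.vol 1 s'.lx - V.vol 1 (List.replicate (L + 1) a),
    V.vol (B.q a * y₀) s'.ly - V.vol (B.q a * y₀) (List.replicate (L + 1) a)⟩, ⟨by ring, by ring⟩, fun p hd ha => ?_⟩
  have e1 : V.vol (B.q a) t.1.lx = V.chi (B.q a) * V.vol 1 t.1.lx := by
    have h := vol_tr V (B.q a) 1 t.1.lx
    rw [mul_one] at h
    exact h
  constructor
  · show rd p (V.vol 1 s'.lx - V.vol 1 (List.replicate (L + 1) a)) = _
    rw [rd_sub hd, rd_vol_replicate V hd _ ha, h1, Vd.vol, rd_add hd, rd_mul hd, ha, one_mul, e1, rd_mul hd, ht.1,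
      rd_add hd, rd_vol_replicate V hd _ ha]
    ring
  · show rd p (V.vol (B.q a * y₀) s'.ly - V.vol (B.q a * y₀) (List.replicate (L + 1) a)) = _
    rw [rd_sub hd, rd_vol_replicate V hd _ ha, h2, vol_append, rd_add hd, vol_tr, rd_mul hd, ht.2, rd_add hd,
      rd_vol_replicate V hd _ ha, rd_vol_nil V hd [a] (fun g hg => by rw [List.mem_singleton.1 hg]; exact ha)]
    ring

/-- All labels that can be used in slots vanish at `p`. -/
def NilC (a : B.L) (τ : Q) (p : ℕ) : Prop :=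
  ∀ g, (B.q g = B.q a ∨ B.q g = B.q a * τ) → rd p (V.n g) = 0

theorem sd_cr_c (hcr : CrS) {τ : Q} (hc : B.q a * τ = τ * B.q a) (hτ : τ * τ = 1) (δ : ℕ) (hδ : δ ≤ 1) (b : B.L)
    (g L : ℕ) (hb : B.q b = B.q a * τ) (hg : 1 ≤ g) (hL : g + 3 ≤ L) :
    ∃ t : Slot B (B.q a) (B.q a ^ δ * τ) L × ZMod m × ZMod m, SD V a (B.q a ^ δ * τ) L t ∧
      ∀ p, p ∣ m → rd p (V.n a) = 0 →
        rd p t.2.1 = rd p (V.chi (B.q a)) ^ δ * (rd p (V.n b) * (1 + rd p (V.chi τ) * rd p (V.chi (B.q a)) ^ g)) ∧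
        rd p t.2.2 = rd p (V.chi (B.q a)) ^ δ * (rd p (V.n b) * (rd p (V.chi τ) + rd p (V.chi (B.q a)) ^ g)) := by
  rcases Nat.le_one_iff_eq_zero_or_eq_one.1 hδ with rfl | rfl
  · rw [pow_zero, one_mul]
    obtain ⟨t, h1, h2⟩ := sd_cr V hcr hc hτ b g L hb hg (by omega)
    refine ⟨t, h1, fun p hd ha => ?_⟩
    rw [pow_zero, one_mul, one_mul]
    exact h2 p hd ha
  · rw [pow_one]
    obtain ⟨L, rfl⟩ : ∃ L', L = L' + 1 := ⟨L - 1, by omega⟩
    obtain ⟨t, h1, h2⟩ := sd_cr V hcr hc hτ b g L hb hg (by omega)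
    obtain ⟨t', h3, h4⟩ := sd_shift V hc h1
    refine ⟨t', h3, fun p hd ha => ?_⟩
    rw [pow_one, (h4 p hd ha).1, (h4 p hd ha).2, (h2 p hd ha).1, (h2 p hd ha).2]
    exact ⟨rfl, rfl⟩

theorem two_slots_c (hex : ExS) (hcr : CrS) {τ : Q} (hc : B.q a * τ = τ * B.q a) (hτ : τ * τ = 1) (δ : ℕ)
    (hδ : δ ≤ 1) {L : ℕ} (hL : 5 ≤ L) {p : ℕ} (hp : p ∈ m.primeFactors) (hα : rd p (V.chi (B.q a)) ≠ 1)
    (ha : rd p (V.n a) = 0) (h : ¬ NilC V a τ p) :
    ∃ t₁ t₂ : Slot B (B.q a) (B.q a ^ δ * τ) L × ZMod m × ZMod m,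
      (SD V a (B.q a ^ δ * τ) L t₁ ∧ SD V a (B.q a ^ δ * τ) L t₂) ∧
      ((rd p t₁.2.1 ≠ 0 ∨ rd p t₂.2.1 ≠ 0) ∧ (rd p t₁.2.2 ≠ 0 ∨ rd p t₂.2.2 ≠ 0)) ∧
      ∀ p', p' ∣ m → rd p' (V.n a) = 0 → NilC V a τ p' →
        rd p' t₁.2.1 = 0 ∧ rd p' t₁.2.2 = 0 ∧ rd p' t₂.2.1 = 0 ∧ rd p' t₂.2.2 = 0 := by
  have hd := Nat.dvd_of_mem_primeFactors hp
  have : Fact p.Prime := ⟨Nat.prime_of_mem_primeFactors hp⟩
  have hc₀ : B.q a * (B.q a ^ δ * τ) = B.q a ^ δ * τ * B.q a := by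
    rw [mul_assoc, ← hc, ← mul_assoc, ← mul_assoc, ← pow_succ, ← pow_succ']
  by_cases h1 : ∃ g, B.q g = B.q a ∧ rd p (V.n g) ≠ 0
  · obtain ⟨g, hg, hn⟩ := h1
    obtain ⟨s, s', e1, e2⟩ := sd_ex V hex hc₀ (by omega : 1 ≤ L) g hg
    have hne : rd p (V.n g - V.n a) ≠ 0 := by
      rw [rd_sub hd, ha, sub_zero]; exact hn
    refine ⟨_, _, ⟨e1, e2⟩, ⟨Or.inl hne, Or.inr ?_⟩, fun p' hd' ha' hN => ?_⟩
    · show rd p (V.chi (B.q a ^ δ * τ) * (V.n g - V.n a)) ≠ 0
      rw [rd_mul hd]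
      exact mul_ne_zero (rd_chi_ne V hp _) hne
    · have h2 : rd p' (V.n g - V.n a) = 0 := by
        rw [rd_sub hd', ha', sub_zero]; exact hN g (Or.inl hg)
      refine ⟨h2, rd_zero hd', rd_zero hd', ?_⟩
      show rd p' (V.chi (B.q a ^ δ * τ) * (V.n g - V.n a)) = 0
      rw [rd_mul hd', h2, mul_zero]
  have h2 : ∃ b, B.q b = B.q a * τ ∧ rd p (V.n b) ≠ 0 := by
    by_contra h2
    push Not at h1 h2
    exact h fun g hg => hg.elim (h1 g) (h2 g)
  obtain ⟨b, hb, hn⟩ := h2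
  have hα0 : rd p (V.chi (B.q a)) ≠ 0 := rd_chi_ne V hp _
  obtain ⟨t₁, s1, f1⟩ := sd_cr_c V hcr hc hτ δ hδ b 1 L hb le_rfl (by omega)
  obtain ⟨t₂, s2, f2⟩ := sd_cr_c V hcr hc hτ δ hδ b 2 L hb (by omega) (by omega)
  have hz := ar_cr (α := rd p (V.chi (B.q a))) (η := rd p (V.chi τ)) (n := rd p (V.n b)) hα hα0
    (rd_chi_ne V hp _) hn
  have hu : ∀ x : ZMod p, x ≠ 0 → rd p (V.chi (B.q a)) ^ δ * x ≠ 0 := fun x hx =>
    mul_ne_zero (pow_ne_zero _ hα0) hx
  refine ⟨t₁, t₂, ⟨s1, s2⟩, ⟨?_, ?_⟩, fun p' hd' ha' hN' => ?_⟩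
  · rw [(f1 p hd ha).1, (f2 p hd ha).1]; exact hz.1.imp (hu _) (hu _)
  · rw [(f1 p hd ha).2, (f2 p hd ha).2]; exact hz.2.imp (hu _) (hu _)
  · rw [(f1 p' hd' ha').1, (f2 p' hd' ha').1, (f1 p' hd' ha').2, (f2 p' hd' ha').2, hN' b (Or.inr hb)]
    simp

end

theorem r1c_num (w k c M : ℕ) (hk : 0 < k) (h : 1000 * (w + 2) ^ 2 * k * (c + 10) ≤ M) :
    2 * (k * 5 * (2 * w * (w * 2)) + 3) ≤ M := by
  have h1 : w * w ≤ (w + 2) ^ 2 := by nlinarith
  have h2 : 1 ≤ (w + 2) ^ 2 * k := Nat.mul_pos (by positivity) hk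
  have e1 : 2 * (k * 5 * (2 * w * (w * 2)) + 3) = (w * w) * (k * 40) + 6 := by ring
  have h3 : (w * w) * (k * 40) ≤ (w + 2) ^ 2 * (k * 40) := Nat.mul_le_mul_right _ h1
  have h4 : (w + 2) ^ 2 * k * 46 ≤ (w + 2) ^ 2 * k * (1000 * (c + 10)) :=
    Nat.mul_le_mul_left _ (by omega)
  have e2 : (w + 2) ^ 2 * k * 46 = (w + 2) ^ 2 * (k * 40) + 6 * ((w + 2) ^ 2 * k) := by ring
  have e3 : (w + 2) ^ 2 * k * (1000 * (c + 10)) = 1000 * (w + 2) ^ 2 * k * (c + 10) := by ring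
  omega

theorem r1c_core (hasm : AsmS) (hcr : CrS) (hex : ExS) (Q : Type) [Group Q] (B : Lb.{0, 0} Q) (m : ℕ)
    (V : Vd B (ZMod m)) (a b : B.L) (k c : ℕ) (τ : Q) (hy : Hy V a k c) (hz : ∀ x, x ∈ zpowers (B.q a))
    (hτ : τ * τ = 1) (hτ1 : τ ≠ 1) (hb : B.q b = B.q a * τ) (hI : ∀ p ∈ m.primeFactors, ClI V a p) (δ : ℕ)
    (hδ : δ ≤ 1) (s₀ : B.L) (hs₀ : B.q s₀ = B.q a ^ δ * τ)
    (hN : ∀ p ∈ m.primeFactors, NilC V a τ p → ∃ g, B.q g = B.q s₀ ∧ rd p (V.n g) ≠ 0) : HP V := by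
  classical
  have := hy.fin
  set M := orderOf (B.q a) with hMdef
  have hM0 : 0 < M := orderOf_pos _
  -- `τ` is the middle power
  obtain ⟨h, hh, hMh⟩ : ∃ h, B.q a ^ h = τ ∧ M = 2 * h := by
    have h1 := hz τ
    rw [mem_zpowers_iff_mem_range_orderOf, Finset.mem_image] at h1
    obtain ⟨i, hi, e⟩ := h1
    have hi := Finset.mem_range.1 hi
    refine ⟨i, e, ?_⟩
    have h2 : B.q a ^ (2 * i) = 1 := by rw [two_mul, pow_add, e, hτ]
    obtain ⟨j, hj⟩ := orderOf_dvd_of_pow_eq_one h2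
    rw [← hMdef] at hi hj
    have h3 : i ≠ 0 := by
      rintro rfl
      exact hτ1 (by rw [← e, pow_zero])
    have h4 : j < 2 := by
      by_contra h4
      have : M * 2 ≤ M * j := Nat.mul_le_mul_left _ (by omega)
      omega
    have h5 : j ≠ 0 := by
      rintro rfl
      omega
    have h6 : j = 1 := by omega
    rw [h6, mul_one] at hj
    exact hj.symm
  have hc : B.q a * τ = τ * B.q a := by rw [← hh, ← pow_succ, ← pow_succ']
  have hc₀ : B.q a * B.q s₀ = B.q s₀ * B.q a := by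
    rw [hs₀, mul_assoc, ← hc, ← mul_assoc, ← mul_assoc, ← pow_succ, ← pow_succ']
  have hs : B.q s₀ = B.q a ^ (h + δ) := by rw [hs₀, ← hh, ← pow_add, Nat.add_comm]
  have hbh : B.q b = B.q a ^ (h + 1) := by rw [hb, ← hh, ← pow_succ']
  have h2h : B.q a ^ (h + h) = 1 := by rw [pow_add, hh, hτ]
  have hred : ∀ i, B.q a ^ (h + h + i) = B.q a ^ i := fun i => by rw [pow_add, h2h, one_mul]
  -- slots
  set w := m.primeFactors.card with hw
  set L := k * 5 with hL
  have hL1 : 5 ≤ L := Nat.le_mul_of_pos_left _ hy.k0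
  have hsl : ∀ p : m.primeFactors, ∃ t₁ t₂ : Slot B (B.q a) (B.q s₀) L × ZMod m × ZMod m,
      (SD V a (B.q s₀) L t₁ ∧ SD V a (B.q s₀) L t₂) ∧
      (¬ NilC V a τ p →
        (rd (p : ℕ) t₁.2.1 ≠ 0 ∨ rd (p : ℕ) t₂.2.1 ≠ 0) ∧ (rd (p : ℕ) t₁.2.2 ≠ 0 ∨ rd (p : ℕ) t₂.2.2 ≠ 0)) ∧
      ∀ p', p' ∣ m → rd p' (V.n a) = 0 → NilC V a τ p' →
        rd p' t₁.2.1 = 0 ∧ rd p' t₁.2.2 = 0 ∧ rd p' t₂.2.1 = 0 ∧ rd p' t₂.2.2 = 0 := by
    intro p
    by_cases h : NilC V a τ p
    · obtain ⟨s, hs⟩ := sd_triv V hex hc₀ (by omega : 1 ≤ L)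
      exact ⟨_, _, ⟨hs, hs⟩, fun h' => absurd h h', fun p' hd' _ _ =>
        ⟨rd_zero hd', rd_zero hd', rd_zero hd', rd_zero hd'⟩⟩
    · have h1 := hI p p.2
      rw [hs₀]
      obtain ⟨t₁, t₂, s1, n1, hz⟩ := two_slots_c V hex hcr hc hτ δ hδ hL1 p.2 h1.1 h1.2.1 h
      exact ⟨t₁, t₂, s1, fun _ => n1, hz⟩
  choose t₁ t₂ hSD hne hze using hsl
  set t : m.primeFactors × Bool → Slot B (B.q a) (B.q s₀) L × ZMod m × ZMod m := fun x => cond x.2 (t₁ x.1) (t₂ x.1)
    with ht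
  have htSD : ∀ x, SD V a (B.q s₀) L (t x) := by
    rintro ⟨p, b⟩
    cases b
    · exact (hSD p).2
    · exact (hSD p).1
  have hcard : Fintype.card (m.primeFactors × Bool) = w * 2 := by
    rw [Fintype.card_prod, Fintype.card_coe, Fintype.card_bool]
  set N := 2 * w * Fintype.card (m.primeFactors × Bool) with hNd
  have hLNM : 2 * (L * N + 3) ≤ M := by rw [hNd, hcard]; exact r1c_num _ k c M hy.k0 hy.big
  set n := L * N with hn
  obtain ⟨d, hd⟩ : ∃ d, h = n + δ + 2 + d := ⟨h - (n + δ + 2), by omega⟩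
  -- the tails
  set tX : List B.L := List.replicate δ a ++ b :: List.replicate d a with htX
  set tY : List B.L := b :: List.replicate (d + δ) a with htY
  have hrep : ∀ x j, B.fin x (List.replicate j a) = x * B.q a ^ j := fun x j => by
    rw [fin_same a _ (fun g hg => by rw [List.eq_of_mem_replicate hg]), List.length_replicate]
  have hrep1 : ∀ x j, B.verts x (List.replicate j a) = (List.range (j + 1)).map fun i => x * B.q a ^ i := fun x j => by
    rw [verts_same a _ (fun g hg => by rw [List.eq_of_mem_replicate hg]), List.length_replicate]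
  have hrep2 : ∀ x j, src B x (List.replicate j a) = (List.range j).map fun i => x * B.q a ^ i := fun x j => by
    rw [src_same a _ (fun g hg => by rw [List.eq_of_mem_replicate hg]), List.length_replicate]
  have fX : B.fin (B.q a ^ n) tX = B.q a ^ (h + h - 1) := by
    rw [htX, fin_append, hrep]
    show B.fin (B.q a ^ n * B.q a ^ δ * B.q b) (List.replicate d a) = _
    rw [hrep, hbh, ← pow_add, ← pow_add, ← pow_add]
    congr 1; omega
  have fY : B.fin (B.q a ^ n * B.q s₀) tY = B.q a ^ (h + δ - 1) := by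
    show B.fin (B.q a ^ n * B.q s₀ * B.q b) (List.replicate (d + δ) a) = _
    rw [hrep, hbh, hs, ← pow_add, ← pow_add, ← pow_add,
      show n + (h + δ) + (h + 1) + (d + δ) = h + h + (h + δ - 1) by omega, hred]
  have vX : B.verts (B.q a ^ n) tX = (List.range (δ + 1)).map (fun i => B.q a ^ (n + i)) ++
      (List.range (d + 1)).map (fun i => B.q a ^ (h + δ + n + 1 + i)) := by
    have e1 : B.verts (B.q a ^ n) tX = src B (B.q a ^ n) (List.replicate δ a) ++
        (B.q a ^ n * B.q a ^ δ) :: B.verts (B.q a ^ n * B.q a ^ δ * B.q b) (List.replicate d a) := by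
      rw [htX, verts_eq, src_append, fin_append, hrep, List.append_assoc]
      show _ ++ ((B.q a ^ n * B.q a ^ δ) :: src B (B.q a ^ n * B.q a ^ δ * B.q b) (List.replicate d a) ++
        [B.fin (B.q a ^ n * B.q a ^ δ * B.q b) (List.replicate d a)]) = _
      rw [verts_eq]; rfl
    rw [e1, hrep2, hrep1, List.range_succ (n := δ), List.map_append, List.append_assoc]
    refine congrArg₂ (· ++ ·) (List.map_congr_left fun i _ => (pow_add _ _ _).symm) ?_
    show _ = B.q a ^ (n + δ) :: _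
    refine congrArg₂ List.cons (pow_add _ _ _).symm (List.map_congr_left fun i _ => ?_)
    rw [hbh, ← pow_add, ← pow_add, ← pow_add]
    congr 1; omega
  have vY : B.verts (B.q a ^ n * B.q s₀) tY = B.q a ^ (h + δ + n) ::
      (List.range (d + δ + 1)).map (fun i => B.q a ^ (n + δ + 1 + i)) := by
    show (B.q a ^ n * B.q s₀) :: B.verts (B.q a ^ n * B.q s₀ * B.q b) (List.replicate (d + δ) a) = _
    rw [hrep1]
    refine congrArg₂ List.cons ?_ (List.map_congr_left fun i _ => ?_)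
    · rw [hs, ← pow_add]; congr 1; omega
    · rw [hs, hbh, ← pow_add, ← pow_add, ← pow_add,
        show n + (h + δ) + (h + 1) + i = h + h + (n + δ + 1 + i) by omega, hred]
  have hstrip : strip (B.q a) (B.q s₀) n = (List.range n).map (fun i => B.q a ^ i) ++
      (List.range n).map (fun i => B.q a ^ (h + δ + i)) := by
    unfold strip
    refine congrArg₂ (· ++ ·) rfl (List.map_congr_left fun i _ => ?_)
    rw [hs, ← pow_add]; congr 1; omega
  have hperm : (strip (B.q a) (B.q s₀) n ++ (B.verts (B.q a ^ n) tX ++ B.verts (B.q a ^ n * B.q s₀) tY)).Perm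
      ((List.range M).map (fun i => B.q a ^ i)) := by
    have e1 : M = n + ((δ + 1) + ((d + δ + 1) + (n + (1 + (d + 1))))) := by omega
    have e2 : ∀ (f : ℕ → Q) (i j : ℕ), (List.range (i + j)).map f =
        (List.range i).map f ++ (List.range j).map (fun x => f (i + x)) := fun f i j => by
      rw [List.range_add, List.map_append, List.map_map]; rfl
    rw [vX, vY, hstrip, e1, e2 _ n _, e2 _ (δ + 1) _, e2 _ (d + δ + 1) (n + _), e2 _ n (1 + _), e2 _ 1 (d + 1)]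
    have e3 : (List.range (d + δ + 1)).map (fun x => B.q a ^ (n + (δ + 1 + x))) =
        (List.range (d + δ + 1)).map (fun i => B.q a ^ (n + δ + 1 + i)) :=
      List.map_congr_left fun i _ => by congr 1; omega
    have e4 : (List.range n).map (fun x => B.q a ^ (n + (δ + 1 + (d + δ + 1 + x)))) =
        (List.range n).map (fun i => B.q a ^ (h + δ + i)) :=
      List.map_congr_left fun i _ => by congr 1; omega
    have e5 : (List.range 1).map (fun x => B.q a ^ (n + (δ + 1 + (d + δ + 1 + (n + x))))) = [B.q a ^ (h + δ + n)] := by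
      show [B.q a ^ (n + (δ + 1 + (d + δ + 1 + (n + 0))))] = _
      congr 2; omega
    have e6 : (List.range (d + 1)).map (fun x => B.q a ^ (n + (δ + 1 + (d + δ + 1 + (n + (1 + x)))))) =
        (List.range (d + 1)).map (fun i => B.q a ^ (h + δ + n + 1 + i)) :=
      List.map_congr_left fun i _ => by congr 1; omega
    rw [e3, e4, e5, e6, ← Multiset.coe_eq_coe]
    simp only [← Multiset.coe_add, ← Multiset.cons_coe, ← Multiset.singleton_add, Multiset.coe_nil, add_zero]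
    abel
  have hlast : B.q a ^ (h + h - 1) * B.q a = 1 := by
    rw [← pow_succ, show h + h - 1 + 1 = h + h by omega, h2h]
  refine hasm Q B m V a a s₀ a a k c L N (m.primeFactors × Bool) (fun x => (t x).1) (fun x => (t x).2.1)
    (fun x => (t x).2.2) tX tY hy (Dvd.intro _ rfl) (by omega) rfl (comm_step hc₀) (fun x => (htSD x).1)
    (fun x => (htSD x).2) ?_ ?_ ?_ ?_ ?_ ?_
  · rw [hperm.nodup_iff]
    refine (List.nodup_range).map_on ?_
    intro x hx y' hy' e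
    exact pow_injOn_Iio_orderOf (Set.mem_Iio.2 (List.mem_range.1 hx)) (Set.mem_Iio.2 (List.mem_range.1 hy')) e
  · intro x
    rw [hperm.mem_iff, List.mem_map]
    have h1 := hz x
    rw [mem_zpowers_iff_mem_range_orderOf, Finset.mem_image] at h1
    obtain ⟨i, hi, e⟩ := h1
    exact ⟨i, List.mem_range.2 (Finset.mem_range.1 hi), e⟩
  · rw [fin_append, fX]; exact hlast
  · rw [fin_append, fY]
    show B.q a ^ (h + δ - 1) * B.q a = _
    rw [hs, ← pow_succ]
    congr 1; omega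
  · rw [fX, fY, hs, ← pow_add, show h + h - 1 + (h + δ) = h + h + (h + δ - 1) by omega, hred]
  · intro p hpp
    have hdv := Nat.dvd_of_mem_primeFactors hpp
    have : Fact p.Prime := ⟨Nat.prime_of_mem_primeFactors hpp⟩
    have hIp := hI p hpp
    by_cases hNil : NilC V a τ p
    · right
      have hz : ∀ x : m.primeFactors × Bool, rd p (t x).2.1 = 0 ∧ rd p (t x).2.2 = 0 := by
        rintro ⟨p', b⟩
        obtain ⟨z1, z2, z3, z4⟩ := hze p' p hdv hIp.2.1 hNil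
        cases b
        · exact ⟨z3, z4⟩
        · exact ⟨z1, z2⟩
      have hnb : rd p (V.n b) = 0 := hNil b (Or.inr hb)
      have hmem : ∀ g ∈ tX, rd p (V.n g) = 0 := by
        intro g hg
        rcases List.mem_append.1 hg with hg | hg
        · rw [List.eq_of_mem_replicate hg]; exact hIp.2.1
        · rcases List.mem_cons.1 hg with rfl | hg
          · exact hnb
          · rw [List.eq_of_mem_replicate hg]; exact hIp.2.1
      have hmemY : ∀ g ∈ tY, rd p (V.n g) = 0 := by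
        intro g hg
        rcases List.mem_cons.1 hg with rfl | hg
        · exact hnb
        · rw [List.eq_of_mem_replicate hg]; exact hIp.2.1
      refine ⟨hz, hIp.2.1, hIp.2.1, rd_vol_nil V hdv _ hmem _, rd_vol_nil V hdv _ hmemY _, hIp.2.1, hIp.2.1, ?_⟩
      obtain ⟨g, hg, hng⟩ := hN p hpp hNil
      rw [← hn, fX]
      by_cases hv : rd p (V.chi (B.q a ^ (h + h - 1)) * V.n g - V.n s₀) = 0
      · refine ⟨s₀, rfl, ?_⟩
        rw [rd_sub hdv, rd_mul hdv] at hv ⊢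
        set x := rd p (V.chi (B.q a ^ (h + h - 1))) with hx
        have hx0 : x ≠ 0 := rd_chi_ne V hpp _
        have hx1 : x * rd p (V.chi (B.q a)) = 1 := by
          rw [hx, ← rd_mul hdv, ← map_mul, hlast, map_one, rd_one hdv]
        have hn0 : rd p (V.n s₀) ≠ 0 := by
          rw [← sub_eq_zero.1 hv]; exact mul_ne_zero hx0 hng
        intro h5
        have h6 : (x - 1) * rd p (V.n s₀) = 0 := by linear_combination h5
        rcases mul_eq_zero.1 h6 with h7 | h7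
        · rw [sub_eq_zero.1 h7, one_mul] at hx1
          exact hIp.1 hx1
        · exact hn0 h7
      · exact ⟨g, hg, hv⟩
    · left
      obtain ⟨n1, n2⟩ := hne ⟨p, hpp⟩ hNil
      refine ⟨Or.inr ?_, Or.inr ?_⟩
      · rcases n1 with n1 | n1
        · exact ⟨(⟨p, hpp⟩, true), n1⟩
        · exact ⟨(⟨p, hpp⟩, false), n1⟩
      · rcases n2 with n2 | n2
        · exact ⟨(⟨p, hpp⟩, true), n2⟩
        · exact ⟨(⟨p, hpp⟩, false), n2⟩

/-- R1C. -/
theorem r1c (hasm : AsmS) (hcr : CrS) (hex : ExS) : R1CS := by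
  intro Q _ B m V a b k c τ hy hz hτ hτ1 hb hlab hI
  have hcom : B.q a * τ = τ * B.q a := by
    obtain ⟨j, hj⟩ := Subgroup.mem_zpowers_iff.1 (hz τ)
    rw [← hj, (Commute.refl (B.q a)).zpow_right j |>.eq]
  have hτi : τ⁻¹ = τ := inv_eq_of_mul_eq_one_right hτ
  -- a label with `n ≠ 0` and vanishing labels in the slots has slope `0`
  have hzero : ∀ p ∈ m.primeFactors, NilC V a τ p → ∃ g, B.q g = τ ∧ rd p (V.n g) ≠ 0 := by
    intro p hpp hN
    obtain ⟨-, -, g, hg⟩ := hI p hpp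
    rcases hlab g with h | h | ⟨i, hi, h⟩
    · exact absurd (hN g (Or.inl h)) hg
    · exact absurd (hN (B.inv g) (Or.inl (by rw [B.q_inv, h, inv_inv]))) (rd_inv_ne V hpp g hg)
    · have h3 : i = 1 ∨ i = -1 ∨ i = 0 := by
        have := abs_le.1 hi
        omega
      rcases h3 with rfl | rfl | rfl
      · exact absurd (hN g (Or.inr (by rw [h, zpow_one]))) hg
      · refine absurd (hN (B.inv g) (Or.inr ?_)) (rd_inv_ne V hpp g hg)
        rw [B.q_inv, h, zpow_neg_one, mul_inv_rev, inv_inv, hτi, hcom]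
      · exact ⟨g, by rw [h, zpow_zero, one_mul], hg⟩
  by_cases hs : ∃ s₀, B.q s₀ = τ
  · obtain ⟨s₀, hs⟩ := hs
    refine r1c_core hasm hcr hex Q B m V a b k c τ hy hz hτ hτ1 hb hI 0 (by omega) s₀ (by rw [pow_zero, one_mul, hs])
      fun p hpp hN => ?_
    rw [hs]
    exact hzero p hpp hN
  · refine r1c_core hasm hcr hex Q B m V a b k c τ hy hz hτ hτ1 hb hI 1 le_rfl b (by rw [pow_one, hb])
      fun p hpp hN => ?_
    obtain ⟨g, hg, -⟩ := hzero p hpp hN
    exact absurd ⟨g, hg⟩ hs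

end Pool.Agent.Lib.MP_688fd0_co.SQ3.Small
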