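import Pool.Agent.Lib.MP_688fd0_co.SQ3.Small.Iface

/-!
R1D: one line of even length, the labels are straight or over the involution. If there is a prime for which the
half-line walk does not move, the extension by these primes is a cubic graph: a torus of hexagons; we use an explicit
Hamiltonian cycle which goes twice through all lines but one.
-/

set_option autoImplicit false

namespace Pool.Agent.Lib.MP_688fd0_co.SQ3.Small.R1D

open Pool.Agent.Lib.MP_688fd0_co.OSF Pool.Agent.Lib.MP_688fd0_co.SQ2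
open Subgroup (zpowers)

universe u v w

section tools

variable {Q : Type u} [Group Q] {B : Lb.{u, v} Q}

theorem fin_rep (g : B.L) (x : Q) (k : ℕ) : B.fin x (List.replicate k g) = x * B.q g ^ k := by
  induction k generalizing x with
  | zero => rw [pow_zero, mul_one]; rfl
  | succ k ih =>
    rw [List.replicate_succ]
    show B.fin (x * B.q g) (List.replicate k g) = _
    rw [ih, pow_succ', mul_assoc]

/-- Labels with the same images give the same vertices. -/
theorem verts_congr {l l' : List B.L} (h : List.Forall₂ (fun g g' => B.q g = B.q g') l l') (x : Q) :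
    B.verts x l = B.verts x l' ∧ B.fin x l = B.fin x l' := by
  induction h generalizing x with
  | nil => exact ⟨rfl, rfl⟩
  | cons h1 _ ih =>
    constructor
    · show x :: B.verts (x * B.q _) _ = x :: B.verts (x * B.q _) _
      rw [h1, (ih _).1]
    · show B.fin (x * B.q _) _ = B.fin (x * B.q _) _
      rw [h1, (ih _).2]

variable {R : Type w} [CommRing R] (V : Vd B R)

theorem vol_app (x : Q) (l l' : List B.L) : V.vol x (l ++ l') = V.vol x l + V.vol (B.fin x l) l' := by
  induction l generalizing x with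
  | nil => show V.vol x l' = 0 + V.vol x l'; rw [zero_add]
  | cons g l ih =>
    show V.chi x * V.n g + V.vol (x * B.q g) (l ++ l') = V.chi x * V.n g + V.vol (x * B.q g) l + _
    rw [ih, add_assoc]; rfl

theorem vol_trl (y x : Q) (l : List B.L) : V.vol (y * x) l = V.chi y * V.vol x l := by
  induction l generalizing x with
  | nil => show (0 : R) = V.chi y * 0; rw [mul_zero]
  | cons g l ih =>
    show V.chi (y * x) * V.n g + V.vol (y * x * B.q g) l = V.chi y * (V.chi x * V.n g + V.vol (x * B.q g) l)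
    rw [mul_assoc y, ih, map_mul]; ring

theorem vol_one (x : Q) (l : List B.L) : V.vol x l = V.chi x * V.vol 1 l := by
  rw [← vol_trl, mul_one]

theorem vol_sing (x : Q) (g : B.L) : V.vol x [g] = V.chi x * V.n g := add_zero _

theorem vol_rep0 {a : B.L} (ha : V.n a = 0) (x : Q) (k : ℕ) : V.vol x (List.replicate k a) = 0 := by
  induction k generalizing x with
  | zero => rfl
  | succ k ih =>
    rw [List.replicate_succ]
    show V.chi x * V.n a + V.vol (x * B.q a) (List.replicate k a) = 0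
    rw [ih, ha, mul_zero, add_zero]

theorem fin_flat (l : List (List B.L)) (y : Q) (hl : ∀ w ∈ l, B.fin y w = y) : B.fin y l.flatten = y := by
  induction l with
  | nil => rfl
  | cons w l ih =>
    rw [List.flatten_cons, fin_append, hl w List.mem_cons_self]
    exact ih fun w' h' => hl w' (List.mem_cons_of_mem _ h')

theorem vol_flat (l : List (List B.L)) (hl : ∀ w ∈ l, V.chi (B.fin 1 w) = 1) (x : Q) :
    V.vol x l.flatten = V.chi x * (l.map (V.vol 1)).sum := by
  induction l generalizing x with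
  | nil => show (0 : R) = V.chi x * 0; rw [mul_zero]
  | cons w l ih =>
    have h1 : B.fin x w = x * B.fin 1 w := by rw [← fin_tr, mul_one]
    rw [List.flatten_cons, vol_app, ih fun w' h' => hl w' (List.mem_cons_of_mem _ h'), h1, map_mul,
      hl w List.mem_cons_self, mul_one, vol_one V x w, List.map_cons, List.sum_cons]
    ring

theorem vol_map {R' : Type*} [CommRing R'] (f : R →+* R') (x : Q) (l : List B.L) :
    (V.map f).vol x l = f (V.vol x l) := by
  induction l generalizing x with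
  | nil => exact (map_zero f).symm
  | cons g l ih =>
    show f (V.chi x) * f (V.n g) + (V.map f).vol (x * B.q g) l = f (V.chi x * V.n g + V.vol (x * B.q g) l)
    rw [ih, map_add, map_mul]

theorem es_congr {l l' : List B.L} (h : List.Forall₂ (fun g g' => B.q g = B.q g' ∧ V.n g = V.n g') l l')
    (x : Q × R) : es V x l = es V x l' ∧ ef V x l = ef V x l' := by
  induction h generalizing x with
  | nil => exact ⟨rfl, rfl⟩
  | cons h1 _ ih =>
    constructor
    · show x :: es V (x.1 * B.q _, x.2 + V.chi x.1 * V.n _) _ = x :: es V (x.1 * B.q _, x.2 + V.chi x.1 * V.n _) _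
      rw [h1.1, h1.2, (ih _).1]
    · show ef V (x.1 * B.q _, x.2 + V.chi x.1 * V.n _) _ = ef V (x.1 * B.q _, x.2 + V.chi x.1 * V.n _) _
      rw [h1.1, h1.2, (ih _).2]

/-- A run of `a`, then `g`. -/
def arc (n : ℕ) (a g : B.L) : List B.L := List.replicate n a ++ [g]

theorem arc_length (n : ℕ) (a g : B.L) : (arc n a g).length = n + 1 := by
  rw [arc, List.length_append, List.length_replicate, List.length_singleton]

theorem arc_fin (n : ℕ) (a g : B.L) (x : Q) : B.fin x (arc n a g) = x * B.q a ^ n * B.q g := by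
  rw [arc, fin_append, fin_rep]; rfl

theorem arc_vol {n : ℕ} {a g : B.L} (ha : V.n a = 0) (x : Q) :
    V.vol x (arc n a g) = V.chi x * V.chi (B.q a) ^ n * V.n g := by
  rw [arc, vol_app, vol_rep0 V ha, fin_rep, vol_sing, map_mul, map_pow, zero_add]

theorem ef_rep {a : B.L} (ha : V.n a = 0) (x : Q × R) (k : ℕ) :
    ef V x (List.replicate k a) = (x.1 * B.q a ^ k, x.2) := by
  rw [ef_eq, fin_rep, vol_rep0 V ha, add_zero]

theorem arc_ef {n : ℕ} {a g : B.L} (ha : V.n a = 0) (x : Q) (r : R) :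
    ef V (x, r) (arc n a g) = (x * B.q a ^ n * B.q g, r + V.chi x * V.chi (B.q a) ^ n * V.n g) := by
  rw [ef_eq, arc_vol V ha, arc_fin]

theorem arc_mem {n : ℕ} {a g : B.L} (ha : V.n a = 0) (x : Q) (r : R) {i : ℕ} (hi : i ≤ n) :
    (x * B.q a ^ i, r) ∈ es V (x, r) (arc n a g) := by
  rw [arc, es_append, ef_rep V ha]
  rcases hi.lt_or_eq with h | rfl
  · refine List.mem_append_left _ ?_
    clear hi
    induction n generalizing x i with
    | zero => exact absurd h (Nat.not_lt_zero _)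
    | succ n ih =>
      rw [List.replicate_succ]
      show _ ∈ (x, r) :: es V (x * B.q a, r + V.chi x * V.n a) (List.replicate n a)
      rcases i with _ | i
      · rw [pow_zero, mul_one]; exact List.mem_cons_self
      · refine List.mem_cons_of_mem _ ?_
        rw [ha, mul_zero, add_zero, pow_succ', ← mul_assoc]
        exact ih _ (Nat.lt_of_succ_lt_succ h)
  · exact List.mem_append_right _ List.mem_cons_self

end tools

/-! ### The blocks -/

section ring

variable {Q : Type u} [Group Q] {B : Lb.{u, v} Q} {R : Type w} [CommRing R]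

/-- The data modulo the product of the bad primes; `h = 2 e + 3`. -/
structure Rg (V : Vd B R) (a b : B.L) (e : ℕ) (u : R) : Prop where
  hA : V.chi (B.q a) = -1
  hn : V.n a = 0
  hb : V.n b = -u
  ht : B.q b = B.q a ^ (2 * e + 3)
  ho : B.q a ^ (4 * e + 6) = 1
  hz : ∀ x : Q, ∃ j < 4 * e + 6, x = B.q a ^ j

/-- A double block on the lines `c`, `c + u`. -/
structure Bk (V : Vd B R) (A : Q) (u : R) (e : ℕ) (w : List B.L × List B.L) : Prop where
  f : ∀ c, ef V (1, c) w.1 = (1, c + 2 * u)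
  g : ∀ c, ef V (A, c) w.2 = (A, c - 2 * u)
  c0 : ∀ c x, (x, c) ∈ es V (1, c) w.1 ∨ (x, c) ∈ es V (A, c + u) w.2
  c1 : ∀ c x, (x, c + u) ∈ es V (1, c) w.1 ∨ (x, c + u) ∈ es V (A, c + u) w.2
  len : w.1.length + w.2.length = 8 * e + 12

/-- The two basic blocks. -/
def bk1 (a b : B.L) (e : ℕ) : List B.L × List B.L :=
  (arc (2 * e + 3) a b ++ arc (2 * e + 3) (B.inv a) b, arc (2 * e + 1) a b ++ arc (2 * e + 1) (B.inv a) b)

def bk2 (a b : B.L) (e : ℕ) : List B.L × List B.L :=
  (arc (2 * e + 1) (B.inv a) b ++ arc (2 * e + 1) a b, arc (2 * e + 3) (B.inv a) b ++ arc (2 * e + 3) a b)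

theorem Rg.hn' {V : Vd B R} {a b : B.L} {e : ℕ} {u : R} (H : Rg V a b e u) : V.n (B.inv a) = 0 := by
  rw [V.n_inv, H.hn, mul_zero, neg_zero]

theorem Rg.hA' {V : Vd B R} {a b : B.L} {e : ℕ} {u : R} (H : Rg V a b e u) : V.chi (B.q (B.inv a)) = -1 := by
  have h1 : V.chi (B.q a) * V.chi (B.q (B.inv a)) = 1 := by rw [← map_mul, B.q_inv, mul_inv_cancel, map_one]
  rw [H.hA] at h1
  linear_combination -h1

theorem sub_pow {A x : Q} {i j : ℕ} (h : x = A ^ (j + i)) : x * A⁻¹ ^ i = A ^ j := by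
  rw [h, pow_add, inv_pow, mul_assoc, mul_inv_cancel, mul_one]

theorem neg_odd (n : ℕ) : (-1 : R) ^ (2 * n + 1) = -1 := by
  rw [pow_succ, pow_mul]; simp

theorem neg_odd3 (n : ℕ) : (-1 : R) ^ (2 * n + 3) = -1 := neg_odd (n + 1)

theorem Rg.bk1 {V : Vd B R} {a b : B.L} {e : ℕ} {u : R} (H : Rg V a b e u) :
    Bk V (B.q a) u e (bk1 a b e) := by
  have h1 : B.q a ^ (2 * e + 3) * B.q b = 1 := by
    rw [H.ht, ← pow_add]; exact (congrArg _ (by ring)).trans H.ho
  have h2 : B.q (B.inv a) ^ (2 * e + 3) * B.q b = 1 := by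
    rw [H.ht, B.q_inv, inv_pow, inv_mul_cancel]
  have h3 : B.q a * B.q a ^ (2 * e + 1) * B.q b = (B.q a)⁻¹ := by
    rw [H.ht, ← pow_succ', ← pow_add, eq_inv_iff_mul_eq_one, ← pow_succ]
    exact (congrArg _ (by ring)).trans H.ho
  have h4 : (B.q a)⁻¹ * B.q (B.inv a) ^ (2 * e + 1) * B.q b = B.q a := by
    rw [H.ht, B.q_inv, ← pow_succ', inv_pow, show 2 * e + 3 = (2 * e + 1 + 1) + 1 by ring,
      pow_succ (B.q a) (2 * e + 1 + 1), ← mul_assoc, inv_mul_cancel, one_mul]
  have e1 : ∀ c : R, ef V (1, c) (arc (2 * e + 3) a b) = (1, c + u) := by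
    intro c
    rw [arc_ef V H.hn, one_mul, h1, map_one, H.hA, H.hb, neg_odd3]
    congr 1; ring
  have e2 : ∀ c : R, ef V (1, c) (arc (2 * e + 3) (B.inv a) b) = (1, c + u) := by
    intro c
    rw [arc_ef V H.hn', one_mul, h2, map_one, H.hA', H.hb, neg_odd3]
    congr 1; ring
  have e3 : ∀ c : R, ef V (B.q a, c) (arc (2 * e + 1) a b) = ((B.q a)⁻¹, c - u) := by
    intro c
    rw [arc_ef V H.hn, h3, H.hA, H.hb, neg_odd]
    congr 1; ring
  have hc : V.chi (B.q a)⁻¹ = -1 := by rw [← B.q_inv, H.hA']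
  have e4 : ∀ c : R, ef V ((B.q a)⁻¹, c) (arc (2 * e + 1) (B.inv a) b) = (B.q a, c - u) := by
    intro c
    rw [arc_ef V H.hn', h4, hc, H.hA', H.hb, neg_odd]
    congr 1; ring
  refine ⟨?_, ?_, ?_, ?_, ?_⟩
  · intro c
    show ef V (1, c) (_ ++ _) = _
    rw [ef_append, e1, e2]
    congr 1; ring
  · intro c
    show ef V (B.q a, c) (_ ++ _) = _
    rw [ef_append, e3, e4]
    congr 1; ring
  · intro c x
    obtain ⟨j, hj, rfl⟩ := H.hz x
    rcases le_or_gt j (2 * e + 3) with h | h
    · left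
      show _ ∈ es V (1, c) (_ ++ _)
      rw [es_append]
      refine List.mem_append_left _ ?_
      have := arc_mem V (g := b) H.hn 1 c h
      rwa [one_mul] at this
    · right
      show _ ∈ es V (B.q a, c + u) (_ ++ _)
      rw [es_append, e3, add_sub_cancel_right]
      refine List.mem_append_right _ ?_
      have h5 := arc_mem V (n := 2 * e + 1) (g := b) H.hn' (B.q a)⁻¹ c (i := 4 * e + 5 - j) (by omega)
      rw [B.q_inv, sub_pow (j := j) ?_] at h5
      · exact h5
      · rw [show j + (4 * e + 5 - j) = 4 * e + 5 by omega, inv_eq_iff_mul_eq_one, ← pow_succ']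
        exact H.ho
  · intro c x
    obtain ⟨j, hj, rfl⟩ := H.hz x
    rcases Nat.eq_zero_or_pos j with rfl | h0
    · left
      show _ ∈ es V (1, c) (_ ++ _)
      rw [es_append, e1, pow_zero]
      refine List.mem_append_right _ ?_
      have := arc_mem V (n := 2 * e + 3) (g := b) H.hn' 1 (c + u) (i := 0) (Nat.zero_le _)
      rwa [pow_zero, mul_one] at this
    · rcases le_or_gt j (2 * e + 2) with h | h
      · right
        show _ ∈ es V (B.q a, c + u) (_ ++ _)
        rw [es_append]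
        refine List.mem_append_left _ ?_
        have := arc_mem V (n := 2 * e + 1) (g := b) H.hn (B.q a) (c + u) (i := j - 1) (by omega)
        rwa [← pow_succ', Nat.sub_add_cancel h0] at this
      · left
        show _ ∈ es V (1, c) (_ ++ _)
        rw [es_append, e1]
        refine List.mem_append_right _ ?_
        have h5 := arc_mem V (n := 2 * e + 3) (g := b) H.hn' 1 (c + u) (i := 4 * e + 6 - j) (by omega)
        rw [B.q_inv, sub_pow (j := j) ?_] at h5
        · exact h5
        · rw [show j + (4 * e + 6 - j) = 4 * e + 6 by omega]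
          exact H.ho.symm
  · simp only [R1D.bk1, List.length_append, arc_length]
    ring

theorem Rg.bk2 {V : Vd B R} {a b : B.L} {e : ℕ} {u : R} (H : Rg V a b e u) :
    Bk V (B.q a) u e (bk2 a b e) := by
  have h1 : B.q (B.inv a) ^ (2 * e + 1) * B.q b = B.q a ^ 2 := by
    rw [H.ht, B.q_inv, inv_pow, show 2 * e + 3 = (2 * e + 1) + 2 by ring, pow_add (B.q a) (2 * e + 1) 2, ← mul_assoc,
      inv_mul_cancel, one_mul]
  have h2 : B.q a ^ 2 * B.q a ^ (2 * e + 1) * B.q b = 1 := by
    rw [H.ht, ← pow_add, ← pow_add]; exact (congrArg _ (by ring)).trans H.ho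
  have h3 : B.q a * B.q (B.inv a) ^ (2 * e + 3) * B.q b = B.q a := by
    rw [H.ht, B.q_inv, inv_pow, mul_assoc, inv_mul_cancel, mul_one]
  have h4 : B.q a * B.q a ^ (2 * e + 3) * B.q b = B.q a := by
    rw [H.ht, mul_assoc, ← pow_add, show 2 * e + 3 + (2 * e + 3) = 4 * e + 6 by ring, H.ho, mul_one]
  have e1 : ∀ c : R, ef V (1, c) (arc (2 * e + 1) (B.inv a) b) = (B.q a ^ 2, c + u) := by
    intro c
    rw [arc_ef V H.hn', one_mul, h1, map_one, H.hA', H.hb, neg_odd]
    congr 1; ring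
  have e2 : ∀ c : R, ef V (B.q a ^ 2, c) (arc (2 * e + 1) a b) = (1, c + u) := by
    intro c
    rw [arc_ef V H.hn, h2, map_pow, H.hA, H.hb, neg_odd]
    congr 1; ring
  have e3 : ∀ c : R, ef V (B.q a, c) (arc (2 * e + 3) (B.inv a) b) = (B.q a, c - u) := by
    intro c
    rw [arc_ef V H.hn', h3, H.hA, H.hA', H.hb, neg_odd3]
    congr 1; ring
  have e4 : ∀ c : R, ef V (B.q a, c) (arc (2 * e + 3) a b) = (B.q a, c - u) := by
    intro c
    rw [arc_ef V H.hn, h4, H.hA, H.hb, neg_odd3]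
    congr 1; ring
  refine ⟨?_, ?_, ?_, ?_, ?_⟩
  · intro c
    show ef V (1, c) (_ ++ _) = _
    rw [ef_append, e1, e2]
    congr 1; ring
  · intro c
    show ef V (B.q a, c) (_ ++ _) = _
    rw [ef_append, e3, e4]
    congr 1; ring
  · intro c x
    obtain ⟨j, hj, rfl⟩ := H.hz x
    rcases Nat.eq_zero_or_pos j with rfl | h0
    · left
      show _ ∈ es V (1, c) (_ ++ _)
      rw [es_append, pow_zero]
      refine List.mem_append_left _ ?_
      have := arc_mem V (n := 2 * e + 1) (g := b) H.hn' 1 c (i := 0) (Nat.zero_le _)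
      rwa [pow_zero, mul_one] at this
    · rcases le_or_gt j (2 * e + 4) with h | h
      · right
        show _ ∈ es V (B.q a, c + u) (_ ++ _)
        rw [es_append, e3, add_sub_cancel_right]
        refine List.mem_append_right _ ?_
        have := arc_mem V (n := 2 * e + 3) (g := b) H.hn (B.q a) c (i := j - 1) (by omega)
        rwa [← pow_succ', Nat.sub_add_cancel h0] at this
      · left
        show _ ∈ es V (1, c) (_ ++ _)
        rw [es_append]
        refine List.mem_append_left _ ?_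
        have h5 := arc_mem V (n := 2 * e + 1) (g := b) H.hn' 1 c (i := 4 * e + 6 - j) (by omega)
        rw [B.q_inv, sub_pow (j := j) ?_] at h5
        · exact h5
        · rw [show j + (4 * e + 6 - j) = 4 * e + 6 by omega]
          exact H.ho.symm
  · intro c x
    obtain ⟨j, hj, rfl⟩ := H.hz x
    rcases Nat.lt_or_ge j 2 with h0 | h0
    · right
      show _ ∈ es V (B.q a, c + u) (_ ++ _)
      rw [es_append]
      refine List.mem_append_left _ ?_
      have h5 := arc_mem V (n := 2 * e + 3) (g := b) H.hn' (B.q a) (c + u) (i := 1 - j) (by omega)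
      rw [B.q_inv, sub_pow (j := j) ?_] at h5
      · exact h5
      · rw [show j + (1 - j) = 1 by omega, pow_one]
    · rcases le_or_gt j (2 * e + 3) with h | h
      · left
        show _ ∈ es V (1, c) (_ ++ _)
        rw [es_append, e1]
        refine List.mem_append_right _ ?_
        have := arc_mem V (n := 2 * e + 1) (g := b) H.hn (B.q a ^ 2) (c + u) (i := j - 2) (by omega)
        rwa [← pow_add, show 2 + (j - 2) = j by omega] at this
      · right
        show _ ∈ es V (B.q a, c + u) (_ ++ _)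
        rw [es_append]
        refine List.mem_append_left _ ?_
        have h5 := arc_mem V (n := 2 * e + 3) (g := b) H.hn' (B.q a) (c + u) (i := 4 * e + 7 - j) (by omega)
        rw [B.q_inv, sub_pow (j := j) ?_] at h5
        · exact h5
        · rw [show j + (4 * e + 7 - j) = 4 * e + 6 + 1 by omega, pow_succ, H.ho, one_mul]
  · simp only [R1D.bk2, List.length_append, arc_length]
    ring

theorem Bk.congr {V : Vd B R} {A : Q} {u : R} {e : ℕ} {w w' : List B.L × List B.L} (h : Bk V A u e w')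
    (h1 : List.Forall₂ (fun g g' => B.q g = B.q g' ∧ V.n g = V.n g') w.1 w'.1)
    (h2 : List.Forall₂ (fun g g' => B.q g = B.q g' ∧ V.n g = V.n g') w.2 w'.2) : Bk V A u e w := by
  refine ⟨fun c => ?_, fun c => ?_, fun c x => ?_, fun c x => ?_, ?_⟩
  · rw [(es_congr V h1 _).2]; exact h.f c
  · rw [(es_congr V h2 _).2]; exact h.g c
  · rw [(es_congr V h1 _).1, (es_congr V h2 _).1]; exact h.c0 c x
  · rw [(es_congr V h1 _).1, (es_congr V h2 _).1]; exact h.c1 c x
  · rw [h1.length_eq, h2.length_eq]; exact h.len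

/-- Chains of blocks. -/
theorem chain {V : Vd B R} {A : Q} {u : R} {e : ℕ} (ws : List (List B.L × List B.L)) (hw : ∀ w ∈ ws, Bk V A u e w)
    (c : R) :
    ef V (1, c) (ws.map Prod.fst).flatten = (1, c + 2 * ws.length * u) ∧
    ef V (A, c + (2 * ws.length - 1) * u) (ws.reverse.map Prod.snd).flatten = (A, c - u) ∧
    (∀ t < 2 * ws.length, ∀ x, (x, c + t * u) ∈ es V (1, c) (ws.map Prod.fst).flatten ∨
      (x, c + t * u) ∈ es V (A, c + (2 * ws.length - 1) * u) (ws.reverse.map Prod.snd).flatten) ∧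
    (ws.map Prod.fst).flatten.length + (ws.reverse.map Prod.snd).flatten.length = ws.length * (8 * e + 12) := by
  induction ws generalizing c with
  | nil =>
    refine ⟨?_, ?_, fun t ht => absurd ht (Nat.not_lt_zero _), ?_⟩
    · show (1, c) = _
      simp
    · show (A, _) = _
      congr 1
      simp [sub_eq_add_neg]
    · simp
  | cons w ws ih =>
    obtain ⟨i1, i2, i3, i4⟩ := ih (fun w' h' => hw w' (List.mem_cons_of_mem _ h')) (c + 2 * u)
    have hb := hw w List.mem_cons_self
    have hs : c + (2 * ((w :: ws).length : ℕ) - 1) * u = c + 2 * u + (2 * (ws.length : ℕ) - 1) * u := by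
      rw [List.length_cons]; push_cast; ring
    rw [hs]
    rw [List.map_cons, List.flatten_cons, List.reverse_cons, List.map_append, List.flatten_append, es_append,
      ef_append, es_append, ef_append, hb.f, i1, i2, List.length_append, List.length_append]
    have hl : (List.map Prod.snd [w]).flatten = w.2 := by simp
    rw [hl]
    have hc : c + 2 * u - u = c + u := by ring
    rw [hc]
    refine ⟨?_, ?_, ?_, ?_⟩
    · rw [List.length_cons]
      congr 1
      push_cast; ring
    · rw [hb.g]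
      congr 1
      ring
    · intro t ht x
      rcases t with _ | _ | t
      · rcases hb.c0 c x with h | h
        · left
          rw [Nat.cast_zero, zero_mul, add_zero]
          exact List.mem_append_left _ h
        · right
          rw [Nat.cast_zero, zero_mul, add_zero]
          exact List.mem_append_right _ h
      · rcases hb.c1 c x with h | h
        · left
          rw [zero_add, Nat.cast_one, one_mul]
          exact List.mem_append_left _ h
        · right
          rw [zero_add, Nat.cast_one, one_mul]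
          exact List.mem_append_right _ h
      · have ht' : t < 2 * ws.length := by rw [List.length_cons] at ht; omega
        have h5 : c + ((t + 1 + 1 : ℕ) : R) * u = c + 2 * u + t * u := by push_cast; ring
        rw [h5]
        rcases i3 t ht' x with h | h
        · exact Or.inl (List.mem_append_right _ h)
        · exact Or.inr (List.mem_append_left _ h)
    · have h6 := hb.len
      rw [List.length_cons, Nat.succ_mul, ← i4]
      omega

end ring

/-! ### The tour -/

theorem nodup_of_cover {α : Type u} (l : List α) (h : ∀ y, y ∈ l) (hl : l.length ≤ Nat.card α) (hf : Finite α) :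
    l.Nodup := by
  classical
  have := Fintype.ofFinite α
  have h1 : l.toFinset = Finset.univ := Finset.eq_univ_iff_forall.2 fun y => List.mem_toFinset.2 (h y)
  have h2 : l.toFinset.card = Nat.card α := by rw [h1, Finset.card_univ, Nat.card_eq_fintype_card]
  have h3 := List.toFinset_card_le l
  have h4 : l.toFinset.card = Multiset.card (l : Multiset α) := by
    rw [Multiset.coe_card]; omega
  exact (Multiset.toFinset_card_eq_card_iff_nodup (m := (l : Multiset α))).1 h4

/-- The tour. -/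
def tour {Q : Type u} [Group Q] {B : Lb.{u, v} Q} (a b : B.L) (e : ℕ) (ws : List (List B.L × List B.L)) : List B.L :=
  arc (2 * e + 2) (B.inv a) b ++ ((ws.reverse.map Prod.snd).flatten ++
    (arc (2 * e + 2) a b ++ (ws.map Prod.fst).flatten))

theorem neg_even (R : Type*) [CommRing R] (n : ℕ) : (-1 : R) ^ (2 * n + 2) = 1 := by
  rw [show 2 * n + 2 = 2 * (n + 1) by ring, pow_mul]; simp

theorem ring_hp (hf : FacS) (Q : Type) [Group Q] [Finite Q] (B : Lb.{0, 0} Q) (m r : ℕ) [NeZero m]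
    (V : Vd B (ZMod m)) (hr : r ∣ m) (hm : Squarefree m) (a b : B.L) (e q : ℕ) (u : (ZMod r)ˣ)
    (hq : r = 2 * q + 1) (hc : Nat.card Q = 4 * e + 6)
    (H : Rg (V.map (ZMod.castHom hr (ZMod r))) a b e (u : ZMod r)) (ws : List (List B.L × List B.L))
    (hw : ∀ w ∈ ws, Bk (V.map (ZMod.castHom hr (ZMod r))) (B.q a) (u : ZMod r) e w) (hl : ws.length = q)
    (hv : ∀ p ∈ m.primeFactors, ¬ p ∣ r → rd p (V.vol 1 (tour a b e ws)) ≠ 0) : HP V := by
  have : NeZero r := ⟨by omega⟩
  set W := V.map (ZMod.castHom hr (ZMod r)) with hW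
  obtain ⟨c1, c2, c3, c4⟩ := chain ws hw (u : ZMod r)
  have hr0 : (2 * (q : ZMod r) + 1) * u = 0 := by
    have : ((2 * q + 1 : ℕ) : ZMod r) = 0 := by rw [← hq]; exact ZMod.natCast_self r
    push_cast at this
    rw [this, zero_mul]
  have s1 : ef W (1, 0) (arc (2 * e + 2) (B.inv a) b) = (B.q a, (u : ZMod r) + (2 * ws.length - 1) * u) := by
    have h1 : B.q (B.inv a) ^ (2 * e + 2) * B.q b = B.q a := by
      rw [H.ht, B.q_inv, inv_pow, show 2 * e + 3 = (2 * e + 2) + 1 by ring, pow_add (B.q a) (2 * e + 2) 1, ← mul_assoc,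
        inv_mul_cancel, one_mul, pow_one]
    rw [arc_ef W H.hn', one_mul, h1, map_one, H.hA', H.hb, neg_even, hl]
    congr 1
    linear_combination -hr0
  have s2 : ef W (B.q a, (u : ZMod r) - u) (arc (2 * e + 2) a b) = (1, (u : ZMod r)) := by
    have h1 : B.q a * B.q a ^ (2 * e + 2) * B.q b = 1 := by
      rw [H.ht, ← pow_succ', ← pow_add]; exact (congrArg _ (by ring)).trans H.ho
    rw [arc_ef W H.hn, h1, H.hA, H.hb, neg_even]
    congr 1
    ring
  have hcov : ∀ y : Q × ZMod r, y ∈ es W (1, 0) (tour a b e ws) := by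
    rintro ⟨x, y⟩
    rw [tour, es_append, s1, es_append, c2, es_append, s2]
    obtain ⟨t, ht, rfl⟩ : ∃ t < r, y = (t : ZMod r) * u := by
      refine ⟨(y * ((u⁻¹ : (ZMod r)ˣ) : ZMod r)).val, ZMod.val_lt _, ?_⟩
      rw [ZMod.natCast_val, ZMod.cast_id', id_eq, mul_assoc, Units.inv_mul, mul_one]
    rcases t with _ | t
    · rw [Nat.cast_zero, zero_mul]
      obtain ⟨j, hj, rfl⟩ := H.hz x
      rcases Nat.eq_zero_or_pos j with rfl | h0
      · refine List.mem_append_left _ ?_
        have := arc_mem W (n := 2 * e + 2) (g := b) H.hn' 1 0 (i := 0) (Nat.zero_le _)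
        rw [pow_zero, mul_one] at this
        rwa [pow_zero]
      · rcases le_or_gt j (2 * e + 3) with h | h
        · refine List.mem_append_right _ (List.mem_append_right _ (List.mem_append_left _ ?_))
          rw [sub_self]
          have := arc_mem W (n := 2 * e + 2) (g := b) H.hn (B.q a) 0 (i := j - 1) (by omega)
          rwa [← pow_succ', Nat.sub_add_cancel h0] at this
        · refine List.mem_append_left _ ?_
          have h5 := arc_mem W (n := 2 * e + 2) (g := b) H.hn' 1 0 (i := 4 * e + 6 - j) (by omega)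
          rw [B.q_inv, sub_pow (j := j) ?_] at h5
          · exact h5
          · rw [show j + (4 * e + 6 - j) = 4 * e + 6 by omega]
            exact H.ho.symm
    · have h6 : ((t + 1 : ℕ) : ZMod r) * u = u + t * u := by push_cast; ring
      rw [h6]
      rcases c3 t (by omega) x with h | h
      · exact List.mem_append_right _ (List.mem_append_right _ (List.mem_append_right _ h))
      · exact List.mem_append_right _ (List.mem_append_left _ h)
  refine hf Q B m r V hr 1 (tour a b e ws) hm ?_ hcov ?_ hv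
  · refine nodup_of_cover _ hcov ?_ inferInstance
    rw [es_length, Nat.card_prod, Nat.card_zmod, hc, tour, List.length_append, List.length_append, List.length_append,
      arc_length, arc_length, hq]
    rw [hl] at c4
    have : (4 * e + 6) * (2 * q + 1) = q * (8 * e + 12) + (4 * e + 6) := by ring
    omega
  · rw [tour, ef_append, s1, ef_append, c2, ef_append, s2, c1, hl]
    congr 1
    linear_combination hr0

/-! ### Volumes -/

section vols

variable {Q : Type u} [Group Q] {B : Lb.{u, v} Q}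

/-- The volume of a double block. -/
def tv {R : Type w} [CommRing R] (V : Vd B R) (A : Q) (w : List B.L × List B.L) : R :=
  V.vol 1 w.1 + V.chi A * V.vol 1 w.2

theorem tour_vol {R : Type w} [CommRing R] (V : Vd B R) {a b : B.L} {e : ℕ} (ht : B.q b = B.q a ^ (2 * e + 3))
    (ho : B.q a ^ (4 * e + 6) = 1) (ws : List (List B.L × List B.L)) (h1 : ∀ w ∈ ws, B.fin 1 w.1 = 1)
    (h2 : ∀ w ∈ ws, B.fin (B.q a) w.2 = B.q a) :
    V.vol 1 (tour a b e ws) = V.vol 1 (tour a b e []) + (ws.map (tv V (B.q a))).sum := by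
  have f1 : B.fin 1 (arc (2 * e + 2) (B.inv a) b) = B.q a := by
    rw [arc_fin, one_mul, ht, B.q_inv, inv_pow, show 2 * e + 3 = (2 * e + 2) + 1 by ring,
      pow_add (B.q a) (2 * e + 2) 1, ← mul_assoc, inv_mul_cancel, one_mul, pow_one]
  have f2 : B.fin (B.q a) (arc (2 * e + 2) a b) = 1 := by
    rw [arc_fin, ht, ← pow_succ', ← pow_add]; exact (congrArg _ (by ring)).trans ho
  have f3 : B.fin (B.q a) (ws.reverse.map Prod.snd).flatten = B.q a := by
    refine fin_flat _ _ fun w hw => ?_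
    obtain ⟨w', hw', rfl⟩ := List.mem_map.1 hw
    exact h2 w' (List.mem_reverse.1 hw')
  have v1 : V.vol (B.q a) (ws.reverse.map Prod.snd).flatten = (ws.map fun w => V.chi (B.q a) * V.vol 1 w.2).sum := by
    rw [vol_flat V _ (fun w hw => ?_), List.map_map, ← List.sum_reverse, ← List.map_reverse, List.reverse_reverse,
      List.sum_map_mul_left]
    · rfl
    · obtain ⟨w', hw', rfl⟩ := List.mem_map.1 hw
      have h3 := h2 w' (List.mem_reverse.1 hw')
      rw [show B.fin (B.q a) w'.2 = B.q a * B.fin 1 w'.2 by rw [← fin_tr, mul_one]] at h3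
      rw [mul_eq_left.1 h3, map_one]
  have v2 : V.vol 1 (ws.map Prod.fst).flatten = (ws.map fun w => V.vol 1 w.1).sum := by
    rw [vol_flat V _ (fun w hw => ?_), List.map_map, map_one, one_mul]
    · rfl
    · obtain ⟨w', hw', rfl⟩ := List.mem_map.1 hw
      rw [h1 w' hw', map_one]
  have hs : (ws.map (tv V (B.q a))).sum =
      (ws.map fun w => V.vol 1 w.1).sum + (ws.map fun w => V.chi (B.q a) * V.vol 1 w.2).sum := by
    rw [← List.sum_map_add]; rfl
  rw [tour, tour, vol_app, vol_app, vol_app, f1, f3, f2, v1, v2, hs]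
  simp only [List.reverse_nil, List.map_nil, List.flatten_nil, List.nil_append, List.append_nil]
  rw [vol_app, f1]
  ring

/-- Exchange of a label over the involution. -/
def bkb (a b b' : B.L) (e : ℕ) : List B.L × List B.L :=
  (arc (2 * e + 3) a b ++ arc (2 * e + 3) (B.inv a) b', arc (2 * e + 1) a b ++ arc (2 * e + 1) (B.inv a) b)

/-- Exchange of a straight label. -/
def bka (a a' b : B.L) (e : ℕ) : List B.L × List B.L :=
  (a' :: (arc (2 * e + 2) a b ++ arc (2 * e + 3) (B.inv a) b), arc (2 * e + 1) a b ++ arc (2 * e + 1) (B.inv a) b)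

theorem tv_bkb {R : Type w} [CommRing R] (V : Vd B R) {a b b' : B.L} {e : ℕ} (ht : B.q b = B.q a ^ (2 * e + 3)) :
    tv V (B.q a) (bkb a b b' e) = tv V (B.q a) (bk1 a b e) + V.chi (B.q b) * (V.n b' - V.n b) := by
  have h : B.q a ^ (2 * e + 3) * B.q b * B.q (B.inv a) ^ (2 * e + 3) = B.q b := by
    rw [ht, B.q_inv, inv_pow, mul_assoc, mul_inv_cancel, mul_one]
  have h1 : ∀ g : B.L, V.vol 1 (arc (2 * e + 3) a b ++ arc (2 * e + 3) (B.inv a) g) =
      V.vol 1 (arc (2 * e + 3) a b) + (V.vol (B.q a ^ (2 * e + 3) * B.q b) (List.replicate (2 * e + 3) (B.inv a)) +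
        V.chi (B.q b) * V.n g) := by
    intro g
    have h2 : arc (2 * e + 3) (B.inv a) g = List.replicate (2 * e + 3) (B.inv a) ++ [g] := rfl
    rw [vol_app, arc_fin, one_mul, h2, vol_app _ _ (List.replicate _ (B.inv a)), fin_rep, h, vol_sing]
  simp only [tv, bkb, bk1]
  rw [h1, h1]
  ring

theorem tv_bka {R : Type w} [CommRing R] (V : Vd B R) {a a' b : B.L} {e : ℕ} (h : B.q a' = B.q a) :
    tv V (B.q a) (bka a a' b e) = tv V (B.q a) (bk1 a b e) + (V.n a' - V.n a) := by
  have h1 : arc (2 * e + 3) a b ++ arc (2 * e + 3) (B.inv a) b =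
      a :: (arc (2 * e + 2) a b ++ arc (2 * e + 3) (B.inv a) b) := rfl
  have h2 : ∀ g : B.L, B.q g = B.q a → V.vol 1 (g :: (arc (2 * e + 2) a b ++ arc (2 * e + 3) (B.inv a) b)) =
      V.n g + V.vol (B.q a) (arc (2 * e + 2) a b ++ arc (2 * e + 3) (B.inv a) b) := by
    intro g hg
    show V.chi 1 * V.n g + V.vol (1 * B.q g) _ = _
    rw [map_one, one_mul, one_mul, hg]
  simp only [tv, bka, bk1]
  rw [h1, h2 a' h, h2 a rfl]
  ring

theorem tv_bk2 {R : Type w} [CommRing R] (V : Vd B R) {a b : B.L} {e : ℕ} (ht : B.q b = B.q a ^ (2 * e + 3))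
    (ho : B.q a ^ (4 * e + 6) = 1) (ha : V.n a = 0) :
    tv V (B.q a) (bk2 a b e) = tv V (B.q a) (bk1 a b e) +
      V.chi (B.q b) * V.n b * (1 + V.chi (B.q a)) ^ 2 * (1 - V.chi (B.q a)⁻¹) := by
  have ha' : V.n (B.inv a) = 0 := by rw [V.n_inv, ha, mul_zero, neg_zero]
  set α := V.chi (B.q a) with hα
  set β := V.chi (B.q a)⁻¹ with hβ
  set η := V.chi (B.q b) with hη
  have e1 : α * β = 1 := by rw [hα, hβ, ← map_mul, mul_inv_cancel, map_one]
  have e2 : α ^ (2 * e + 3) = η := by rw [hα, hη, ht, map_pow]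
  have e3 : β ^ (2 * e + 3) = η := by
    rw [hβ, hη, ht, ← map_pow]
    congr 1
    rw [inv_pow, inv_eq_iff_mul_eq_one, ← pow_add]
    exact (congrArg _ (by ring)).trans ho
  have e4 : η * η = 1 := by rw [← e2, ← pow_add, ← map_pow]; rw [show 2 * e + 3 + (2 * e + 3) = 4 * e + 6 by ring, ho, map_one]
  have e5 : β ^ (2 * e + 1) = η * α ^ 2 := by
    rw [← e3, show 2 * e + 3 = (2 * e + 1) + 2 by ring, pow_add _ (2 * e + 1) 2, mul_assoc, ← mul_pow, mul_comm β, e1,
      one_pow, mul_one]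
  have e6 : α ^ (2 * e + 1) = η * β ^ 2 := by
    rw [← e2, show 2 * e + 3 = (2 * e + 1) + 2 by ring, pow_add _ (2 * e + 1) 2, mul_assoc, ← mul_pow, e1,
      one_pow, mul_one]
  simp only [tv, bk1, bk2]
  rw [vol_app, vol_app, vol_app, vol_app, arc_fin, arc_fin, arc_fin, arc_fin, arc_vol V ha, arc_vol V ha, arc_vol V ha',
    arc_vol V ha', arc_vol V ha, arc_vol V ha, arc_vol V ha', arc_vol V ha']
  simp only [map_mul, map_pow, map_one, one_mul, B.q_inv, ← hα, ← hβ, ← hη, e2, e3, e5, e6]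
  linear_combination (η * V.n b * (α * β + 3 - α * (α * β) - β)) * e1 +
    (η * V.n b * ((α * β) ^ 2 + α - 1 - α * (α * β) ^ 2)) * e4

end vols

/-! ### Arithmetic -/

theorem rd_eq {m p : ℕ} (h : p ∣ m) (x : ZMod m) : rd p x = ZMod.castHom h (ZMod p) x := rfl

/-- AR in `ZMod m`. -/
theorem ar' (ha : ArS) {m : ℕ} [NeZero m] (hp : ∀ p ∈ m.primeFactors, m.primeFactors.card < p) (ι : Type) [Fintype ι]
    (x : ZMod m) (D : ι → ZMod m) :
    ∃ j : ι → ℕ, (∀ i, j i ≤ m.primeFactors.card) ∧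
      ∀ p ∈ m.primeFactors, (rd p x ≠ 0 ∨ ∃ i, rd p (D i) ≠ 0) → rd p (x + ∑ i, (j i : ZMod m) * D i) ≠ 0 := by
  obtain ⟨j, h1, h2⟩ := ha {p // p ∈ m.primeFactors} ι (fun c => c.1) (fun c => rd c.1 x) (fun i c => rd c.1 (D i))
    (fun c => ⟨Nat.prime_of_mem_primeFactors c.2, by rw [Fintype.card_coe]; exact hp _ c.2⟩)
  refine ⟨j, fun i => by have := h1 i; rwa [Fintype.card_coe] at this, fun p hpm h => ?_⟩
  have h3 := h2 ⟨p, hpm⟩ h
  have hd := Nat.dvd_of_mem_primeFactors hpm
  simp only [rd_eq hd] at h3 ⊢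
  rw [map_add, map_sum]
  simpa only [map_mul, map_natCast] using h3

theorem cast_eq {m r : ℕ} [NeZero m] (hr : r ∣ m) (hs : ∃ s : Finset ℕ, (∀ p ∈ s, p.Prime) ∧ r = ∏ p ∈ s, p)
    {x y : ZMod m} (h : ∀ p, p.Prime → p ∣ r → rd p x = rd p y) :
    ZMod.castHom hr (ZMod r) x = ZMod.castHom hr (ZMod r) y := by
  obtain ⟨s, hs, h1⟩ := hs
  rw [← sub_eq_zero, ← map_sub, ZMod.castHom_apply, ZMod.cast_eq_val, ZMod.natCast_eq_zero_iff, h1]
  refine Finset.prod_primes_dvd _ (fun p hp => (hs p hp).prime) fun p hp => ?_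
  have h2 : p ∣ r := h1 ▸ Finset.dvd_prod_of_mem _ hp
  rw [← ZMod.natCast_eq_zero_iff, ← ZMod.cast_eq_val]
  have h3 := h p (hs p hp) h2
  rw [rd_eq (h2.trans hr), rd_eq (h2.trans hr), ← sub_eq_zero, ← map_sub] at h3
  exact h3

theorem cast_unit {m r : ℕ} [NeZero m] (hr : r ∣ m) (hs : ∃ s : Finset ℕ, (∀ p ∈ s, p.Prime) ∧ r = ∏ p ∈ s, p)
    {x : ZMod m} (h : ∀ p, p.Prime → p ∣ r → rd p x ≠ 0) : IsUnit (ZMod.castHom hr (ZMod r) x) := by
  obtain ⟨s, hs, h1⟩ := hs
  rw [ZMod.castHom_apply, ZMod.cast_eq_val, ZMod.isUnit_iff_coprime, h1]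
  refine Nat.Coprime.prod_right fun p hp => ?_
  rw [Nat.coprime_comm, (hs p hp).coprime_iff_not_dvd, ← ZMod.natCast_eq_zero_iff, ← ZMod.cast_eq_val]
  exact h p (hs p hp) (h1 ▸ Finset.dvd_prod_of_mem _ hp)

/-- The copies of the blocks. -/
theorem copies {α : Type v} {R : Type*} [CommRing R] {ι : Type} [Fintype ι] (blk : ι → α) (b0 : α) (j : ι → ℕ) (q : ℕ)
    (hj : ∑ i, j i ≤ q) (P : α → Prop) (h0 : P b0) (hP : ∀ i, P (blk i)) (f : α → R) :
    ∃ ws : List α, ws.length = q ∧ (∀ w ∈ ws, P w) ∧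
      (ws.map f).sum = (q : R) * f b0 + ∑ i, (j i : R) * (f (blk i) - f b0) := by
  refine ⟨(Finset.univ.toList.flatMap fun i => List.replicate (j i) (blk i)) ++ List.replicate (q - ∑ i, j i) b0,
    ?_, ?_, ?_⟩
  · rw [List.length_append, List.length_flatMap, List.length_replicate]
    have : (Finset.univ.toList.map fun i => (List.replicate (j i) (blk i)).length).sum = ∑ i, j i := by
      rw [Finset.sum_map_toList]
      exact Finset.sum_congr rfl fun i _ => List.length_replicate
    rw [this]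
    omega
  · intro w hw
    rcases List.mem_append.1 hw with h | h
    · obtain ⟨i, _, hi⟩ := List.mem_flatMap.1 h
      rw [List.eq_of_mem_replicate hi]; exact hP i
    · rw [List.eq_of_mem_replicate h]; exact h0
  · rw [List.map_append, List.sum_append, List.map_flatMap, List.map_replicate, List.sum_replicate, nsmul_eq_mul,
      Nat.cast_sub hj]
    have h1 : (Finset.univ.toList.flatMap fun i => (List.replicate (j i) (blk i)).map f).sum =
        ∑ i, (j i : R) * f (blk i) := by
      rw [List.flatMap, List.sum_flatten, List.map_map, Finset.sum_map_toList]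
      refine Finset.sum_congr rfl fun i _ => ?_
      show ((List.replicate (j i) (blk i)).map f).sum = _
      rw [List.map_replicate, List.sum_replicate, nsmul_eq_mul]
    rw [h1, Nat.cast_sum]
    simp only [mul_sub, Finset.sum_sub_distrib, ← Finset.sum_mul]
    ring

/-! ### The data of R1D -/

/-- A prime with which the half-line walk does not work. -/
def Zp {Q : Type} [Group Q] {B : Lb.{0, 0} Q} {m : ℕ} (V : Vd B (ZMod m)) (a b : B.L) (p : ℕ) : Prop :=
  rd p (V.chi (B.q a)) = -1 ∧ rd p (V.chi (B.q b)) = -1 ∧ (∀ b', B.q b' = B.q b → rd p (V.n b') = rd p (V.n b)) ∧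
    ∀ a', B.q a' = B.q a → rd p (V.n a') = 0

/-- What class I gives. -/
theorem clI {Q : Type} [Group Q] {B : Lb.{0, 0} Q} {m : ℕ} {V : Vd B (ZMod m)} {a b : B.L} {p : ℕ} (hp : p.Prime)
    (hd : p ∣ m) (h : ClI V a p) (hl : ∀ g, B.q g = B.q a ∨ B.q g = (B.q a)⁻¹ ∨ B.q g = B.q b)
    (h1 : ∀ b', B.q b' = B.q b → rd p (V.n b') = rd p (V.n b)) (h2 : ∀ a', B.q a' = B.q a → rd p (V.n a') = 0)
    (h3 : B.q b * B.q b = 1) : rd p (V.n b) ≠ 0 ∧ rd p (V.chi (B.q b)) = -1 := by
  have : Fact p.Prime := ⟨hp⟩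
  obtain ⟨_, _, g, hg⟩ := h
  have hb : rd p (V.n b) ≠ 0 := by
    intro h0
    rcases hl g with h | h | h
    · exact hg (h2 g h)
    · have h4 := h2 (B.inv g) (by rw [B.q_inv, h, inv_inv])
      rw [V.n_inv, rd_eq hd, map_neg, map_mul, neg_eq_zero, mul_eq_zero] at h4
      rcases h4 with h4 | h4
      · have h5 : ZMod.castHom hd (ZMod p) (V.chi (B.q g)⁻¹) * ZMod.castHom hd (ZMod p) (V.chi (B.q g)) = 1 := by
          rw [← map_mul, ← map_mul, inv_mul_cancel, map_one, map_one]
        rw [h4, zero_mul] at h5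
        exact zero_ne_one h5
      · exact hg h4
    · exact hg ((h1 g h).trans h0)
  refine ⟨hb, ?_⟩
  have h4 : (B.q b)⁻¹ = B.q b := inv_eq_of_mul_eq_one_left h3
  have h5 := h1 (B.inv b) (by rw [B.q_inv, h4])
  rw [V.n_inv, h4] at h5
  simp only [rd_eq hd, map_neg, map_mul] at h5 hb ⊢
  have h6 : (ZMod.castHom hd (ZMod p) (V.chi (B.q b)) + 1) * ZMod.castHom hd (ZMod p) (V.n b) = 0 := by
    linear_combination -h5
  exact eq_neg_of_add_eq_zero_left ((mul_eq_zero.1 h6).resolve_right hb)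

theorem sm_refl {α : Type*} {S : α → α → Prop} (hS : ∀ x, S x x) (l : List α) : List.Forall₂ S l l := by
  induction l with
  | nil => exact List.Forall₂.nil
  | cons x l ih => exact List.Forall₂.cons (hS x) ih

theorem sm_app {α : Type*} {S : α → α → Prop} {l₁ l₂ l₃ l₄ : List α} (h : List.Forall₂ S l₁ l₂)
    (h' : List.Forall₂ S l₃ l₄) : List.Forall₂ S (l₁ ++ l₃) (l₂ ++ l₄) := List.rel_append h h'

/-- The order is even. -/
theorem half {Q : Type} [Group Q] [Finite Q] {A τ : Q} (hz : ∀ x, x ∈ zpowers A) (h1 : τ * τ = 1) (h2 : τ ≠ 1) :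
    ∃ h, 0 < h ∧ Nat.card Q = 2 * h ∧ orderOf A = 2 * h ∧ τ = A ^ h ∧ A ^ (2 * h) = 1 ∧ ∀ x, ∃ j < 2 * h, x = A ^ j := by
  have hc : orderOf A = Nat.card Q := orderOf_eq_card_of_forall_mem_zpowers hz
  have hpos : 0 < orderOf A := orderOf_pos A
  have hall : ∀ x, ∃ j < orderOf A, x = A ^ j := by
    intro x
    obtain ⟨n, hn⟩ := mem_powers_iff_mem_zpowers.2 (hz x)
    exact ⟨n % orderOf A, Nat.mod_lt _ hpos, by rw [pow_mod_orderOf]; exact hn.symm⟩
  obtain ⟨i, hi, rfl⟩ := hall τ
  rw [← pow_add] at h1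
  have h3 : orderOf A ∣ i + i := orderOf_dvd_of_pow_eq_one h1
  have h4 : i ≠ 0 := fun h => h2 (by rw [h, pow_zero])
  obtain ⟨d, hd⟩ := h3
  have h5 : orderOf A = 2 * i := by
    have h6 : d < 2 := by
      by_contra h7
      have := Nat.mul_le_mul_left (orderOf A) (not_lt.1 h7)
      omega
    interval_cases d
    · omega
    · omega
  refine ⟨i, by omega, by rw [← hc, h5], h5, rfl, ?_, ?_⟩
  · rw [← h5, pow_orderOf_eq_one]
  · rw [← h5]; exact hall

theorem sq_aux {ω q : ℕ} (h : 8 * (ω + 2) ^ 2 < 2 * q + 1) : ω * ω ≤ q := by nlinarith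

theorem lt_aux (ω : ℕ) : ω ≤ 8 * (ω + 2) ^ 2 := by nlinarith

/-! ### A bad prime -/

theorem ring_case (hf : FacS) (har : ArS) (Q : Type) [Group Q] (B : Lb.{0, 0} Q) (m : ℕ) (V : Vd B (ZMod m)) (a b : B.L)
    (k c : ℕ) (hy : Hy V a k c) (hz : ∀ x, x ∈ zpowers (B.q a)) (h1 : B.q b * B.q b = 1) (h2 : B.q b ≠ 1)
    (hl : ∀ g, B.q g = B.q a ∨ B.q g = (B.q a)⁻¹ ∨ B.q g = B.q b) (hcl : ∀ p ∈ m.primeFactors, ClI V a p)
    (hZ : ∃ p ∈ m.primeFactors, Zp V a b p) : HP V := by
  classical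
  have : Finite Q := hy.fin
  have : NeZero m := ⟨hy.m0⟩
  obtain ⟨h, h0, hcard, hord, ht, ho, hall⟩ := half hz h1 h2
  set ω := m.primeFactors.card with hω
  have hbig : 4000 ≤ 2 * h := by
    have h3 := hy.big
    rw [hord] at h3
    refine le_trans ?_ h3
    calc 4000 = 1000 * (0 + 2) ^ 2 * 1 * 1 := by norm_num
      _ ≤ 1000 * (m.primeFactors.card + 2) ^ 2 * k * (c + 10) :=
        Nat.mul_le_mul (Nat.mul_le_mul (Nat.mul_le_mul_left _ (Nat.pow_le_pow_left (by omega) 2)) hy.k0) (by omega)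
  have hp32 : ∀ p ∈ m.primeFactors, 32 < p := fun p hp => by
    refine lt_of_le_of_lt ?_ (hy.prm p hp)
    calc 32 = 8 * (0 + 2) ^ 2 := by norm_num
      _ ≤ _ := Nat.mul_le_mul_left _ (Nat.pow_le_pow_left (by omega) 2)
  -- `h` is odd
  obtain ⟨p₀, hp₀, z1, z2, _⟩ := hZ
  have hodd : Odd h := by
    have hd := Nat.dvd_of_mem_primeFactors hp₀
    have : Fact p₀.Prime := ⟨Nat.prime_of_mem_primeFactors hp₀⟩
    by_contra hev
    have hev := Nat.not_odd_iff_even.1 hev
    rw [ht, map_pow, rd_eq hd, map_pow] at z2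
    rw [rd_eq hd] at z1
    rw [z1, hev.neg_one_pow] at z2
    have h3 : ((2 : ℕ) : ZMod p₀) = 0 := by push_cast; linear_combination z2
    rw [ZMod.natCast_eq_zero_iff] at h3
    have := Nat.le_of_dvd (by norm_num) h3
    have := hp32 p₀ hp₀
    omega
  obtain ⟨e, rfl⟩ : ∃ e, h = 2 * e + 3 := by
    obtain ⟨s, rfl⟩ := hodd
    exact ⟨s - 1, by omega⟩
  rw [show 2 * (2 * e + 3) = 4 * e + 6 by ring] at hcard hord ho hall
  -- the product of the bad primes
  set Z := m.primeFactors.filter (Zp V a b) with hZdef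
  set r := ∏ p ∈ Z, p with hr
  have hrm : r ∣ m := by
    conv_rhs => rw [← Nat.prod_primeFactors_of_squarefree hy.sq]
    exact Finset.prod_dvd_prod_of_subset _ _ _ (Finset.filter_subset _ _)
  have hZp : ∀ p ∈ Z, p.Prime := fun p hp => Nat.prime_of_mem_primeFactors (Finset.mem_filter.1 hp).1
  have hdv : ∀ p, p.Prime → (p ∣ r ↔ p ∈ Z) := by
    intro p hp
    constructor
    · intro h3
      obtain ⟨p', hp', h4⟩ := (Prime.dvd_finsetProd_iff hp.prime _).1 h3
      rw [(Nat.prime_dvd_prime_iff_eq hp (hZp p' hp')).1 h4]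
      exact hp'
    · intro h3
      exact Finset.dvd_prod_of_mem _ h3
  have hs : ∃ s : Finset ℕ, (∀ p ∈ s, p.Prime) ∧ r = ∏ p ∈ s, p := ⟨Z, hZp, rfl⟩
  have hp₀Z : p₀ ∈ Z := Finset.mem_filter.2 ⟨hp₀, z1, z2, by assumption⟩
  have hrpos : 0 < r := Nat.pos_of_dvd_of_pos hrm (Nat.pos_of_ne_zero hy.m0)
  have hrbig : 8 * (ω + 2) ^ 2 < r :=
    lt_of_lt_of_le (hy.prm p₀ hp₀) (Nat.le_of_dvd hrpos ((hdv _ (hZp _ hp₀Z)).2 hp₀Z))
  have hrodd : Odd r := by
    by_contra hev
    have h3 := (hdv 2 Nat.prime_two).1 (Nat.not_odd_iff_even.1 hev).two_dvd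
    have := hp32 2 (Finset.mem_filter.1 h3).1
    omega
  obtain ⟨q, hq⟩ := hrodd
  have hqbig : ω * ω ≤ q := sq_aux (hq ▸ hrbig)
  -- values
  have hz1 : ∀ p, p.Prime → p ∣ r → Zp V a b p := fun p hp h3 => (Finset.mem_filter.1 ((hdv p hp).1 h3)).2
  have hz2 : ∀ p, p.Prime → p ∣ r → p ∈ m.primeFactors := fun p hp h3 => (Finset.mem_filter.1 ((hdv p hp).1 h3)).1
  set W := V.map (ZMod.castHom hrm (ZMod r)) with hW
  have w1 : W.chi (B.q a) = -1 := by
    show ZMod.castHom hrm (ZMod r) (V.chi (B.q a)) = -1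
    rw [← map_one (ZMod.castHom hrm (ZMod r)), ← map_neg]
    refine cast_eq hrm hs fun p hp h3 => ?_
    rw [(hz1 p hp h3).1, rd_eq (h3.trans hrm), map_neg, map_one]
  have w2 : ∀ a', B.q a' = B.q a → W.n a' = 0 := by
    intro a' ha'
    show ZMod.castHom hrm (ZMod r) (V.n a') = 0
    rw [← map_zero (ZMod.castHom hrm (ZMod r))]
    refine cast_eq hrm hs fun p hp h3 => ?_
    rw [(hz1 p hp h3).2.2.2 a' ha', rd_eq (h3.trans hrm), map_zero]
  have w3 : ∀ b', B.q b' = B.q b → W.n b' = W.n b := by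
    intro b' hb'
    exact cast_eq hrm hs fun p hp h3 => (hz1 p hp h3).2.2.1 b' hb'
  obtain ⟨u, hu⟩ := cast_unit (x := -V.n b) hrm hs fun p hp h3 h4 => by
    have h5 := (clI hp (h3.trans hrm) (hcl p (hz2 p hp h3)) hl (hz1 p hp h3).2.2.1 (hz1 p hp h3).2.2.2 h1).1
    rw [rd_eq (h3.trans hrm)] at h4 h5
    rw [map_neg, neg_eq_zero] at h4
    exact h5 h4
  have H : Rg W a b e (u : ZMod r) := by
    refine ⟨w1, w2 a rfl, ?_, ht, ho, hall⟩
    show ZMod.castHom hrm (ZMod r) (V.n b) = -(u : ZMod r)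
    rw [hu, map_neg, neg_neg]
  have hS : ∀ g : B.L, B.q g = B.q g ∧ W.n g = W.n g := fun g => ⟨rfl, rfl⟩
  -- the family for the prime `p`
  have hfam : ∀ p : {p // p ∈ m.primeFactors}, ∃ w, Bk W (B.q a) (u : ZMod r) e w ∧
      (¬ p.1 ∣ r → rd p.1 (tv V (B.q a) w - tv V (B.q a) (bk1 a b e)) ≠ 0) := by
    rintro ⟨p, hp⟩
    have hpp := Nat.prime_of_mem_primeFactors hp
    have hd := Nat.dvd_of_mem_primeFactors hp
    have : Fact p.Prime := ⟨hpp⟩
    have hηu : ZMod.castHom hd (ZMod p) (V.chi (B.q b)) ≠ 0 := by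
      intro h3
      have h4 : ZMod.castHom hd (ZMod p) (V.chi (B.q b)) * ZMod.castHom hd (ZMod p) (V.chi (B.q b)) = 1 := by
        rw [← map_mul, ← map_mul, h1, map_one, map_one]
      rw [h3, zero_mul] at h4
      exact zero_ne_one h4
    by_cases c1 : ∀ b', B.q b' = B.q b → rd p (V.n b') = rd p (V.n b)
    swap
    · simp only [not_forall] at c1
      obtain ⟨b', hb', hn⟩ := c1
      refine ⟨bkb a b b' e, H.bk1.congr ?_ (sm_refl hS _), fun _ => ?_⟩
      · refine sm_app (sm_refl hS _) (sm_app (sm_refl hS _) (List.Forall₂.cons ⟨hb', w3 b' hb'⟩ List.Forall₂.nil))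
      · rw [tv_bkb V ht, add_sub_cancel_left, rd_eq hd, map_mul, map_sub]
        exact mul_ne_zero hηu (sub_ne_zero.2 hn)
    by_cases c2 : ∀ a', B.q a' = B.q a → rd p (V.n a') = 0
    swap
    · simp only [not_forall] at c2
      obtain ⟨a', ha', hn⟩ := c2
      refine ⟨bka a a' b e, H.bk1.congr ?_ (sm_refl hS _), fun _ => ?_⟩
      · exact List.Forall₂.cons ⟨ha', (w2 a' ha').trans (w2 a rfl).symm⟩ (sm_refl hS _)
      · rw [tv_bka V ha', add_sub_cancel_left, rd_eq hd, map_sub]
        have h3 : ZMod.castHom hd (ZMod p) (V.n a) = 0 := (hcl p hp).2.1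
        rw [h3, sub_zero]
        exact hn
    refine ⟨bk2 a b e, H.bk2, fun hnr => ?_⟩
    obtain ⟨hb, hη⟩ := clI hpp hd (hcl p hp) hl c1 c2 h1
    have hα : rd p (V.chi (B.q a)) ≠ -1 := fun h3 =>
      hnr ((hdv p hpp).2 (Finset.mem_filter.2 ⟨hp, h3, hη, c1, c2⟩))
    have hα1 := (hcl p hp).1
    have h3 : ZMod.castHom hd (ZMod p) (V.n a) = 0 := (hcl p hp).2.1
    have h4 := tv_bk2 (V.map (ZMod.castHom hd (ZMod p))) ht ho h3
    have h5 : ∀ w, tv (V.map (ZMod.castHom hd (ZMod p))) (B.q a) w = ZMod.castHom hd (ZMod p) (tv V (B.q a) w) := by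
      intro w
      show (V.map _).vol 1 w.1 + _ * (V.map _).vol 1 w.2 = _
      rw [vol_map, vol_map, tv, map_add, map_mul]; rfl
    rw [h5, h5] at h4
    rw [rd_eq hd, map_sub, h4, add_sub_cancel_left]
    have h6 : ZMod.castHom hd (ZMod p) (V.chi (B.q a)) * ZMod.castHom hd (ZMod p) (V.chi (B.q a)⁻¹) = 1 := by
      rw [← map_mul, ← map_mul, mul_inv_cancel, map_one, map_one]
    rw [rd_eq hd] at hα hα1 hb
    refine mul_ne_zero (mul_ne_zero (mul_ne_zero hηu hb) (pow_ne_zero 2 fun h7 => hα ?_)) fun h7 => hα1 ?_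
    · exact eq_neg_of_add_eq_zero_right h7
    · have h8 : (ZMod.castHom hd (ZMod p) (V.chi (B.q a)⁻¹)) = 1 := (sub_eq_zero.1 h7).symm
      rw [h8, mul_one] at h6
      exact h6
  choose blk hblk using hfam
  obtain ⟨j, hj1, hj2⟩ := ar' har (fun p hp => lt_of_le_of_lt (lt_aux _) (hy.prm p hp)) {p // p ∈ m.primeFactors}
    (V.vol 1 (tour a b e []) + (q : ZMod m) * tv V (B.q a) (bk1 a b e))
    (fun i => tv V (B.q a) (blk i) - tv V (B.q a) (bk1 a b e))
  have hsum : ∑ i, j i ≤ q := by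
    refine le_trans (Finset.sum_le_sum fun i _ => hj1 i) ?_
    rw [Finset.sum_const, smul_eq_mul, Finset.card_univ, Fintype.card_coe]
    exact hqbig
  obtain ⟨ws, ws1, ws2, ws3⟩ := copies blk (bk1 a b e) j q hsum (Bk W (B.q a) (u : ZMod r) e) H.bk1
    (fun i => (hblk i).1) (tv V (B.q a))
  refine ring_hp hf Q B m r V hrm hy.sq a b e q u hq hcard H ws ws2 ws1 fun p hp hpr => ?_
  rw [tour_vol V ht ho ws ?_ ?_, ws3, ← add_assoc]
  · exact hj2 p hp (Or.inr ⟨⟨p, hp⟩, (hblk ⟨p, hp⟩).2 hpr⟩)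
  · intro w hw
    have := (ws2 w hw).f 0
    rw [ef_eq] at this
    exact congrArg Prod.fst this
  · intro w hw
    have := (ws2 w hw).g 0
    rw [ef_eq] at this
    exact congrArg Prod.fst this

/-! ### No bad prime -/

theorem mem_verts_rep {Q : Type u} [Group Q] {B : Lb.{u, v} Q} (g : B.L) (x : Q) {n i : ℕ} (hi : i ≤ n) :
    x * B.q g ^ i ∈ B.verts x (List.replicate n g) := by
  induction n generalizing x i with
  | zero =>
    obtain rfl : i = 0 := by omega
    rw [pow_zero, mul_one]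
    exact List.mem_cons_self
  | succ n ih =>
    rw [List.replicate_succ]
    show _ ∈ x :: B.verts (x * B.q g) (List.replicate n g)
    rcases i with _ | i
    · rw [pow_zero, mul_one]; exact List.mem_cons_self
    · refine List.mem_cons_of_mem _ ?_
      rw [pow_succ', ← mul_assoc]
      exact ih _ (by omega)

theorem verts_length {Q : Type u} [Group Q] {B : Lb.{u, v} Q} (x : Q) (l : List B.L) :
    (B.verts x l).length = l.length + 1 := by
  rw [verts_eq, List.length_append, List.length_singleton]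
  congr 1
  induction l generalizing x with
  | nil => rfl
  | cons g l ih => exact congrArg Nat.succ (ih _)

theorem all_rep {Q : Type u} [Group Q] {B : Lb.{u, v} Q} {a : B.L} {l : List B.L} (h : ∀ g ∈ l, B.q g = B.q a) :
    List.Forall₂ (fun g g' => B.q g = B.q g') l (List.replicate l.length a) := by
  induction l with
  | nil => exact List.Forall₂.nil
  | cons g l ih =>
    rw [List.length_cons, List.replicate_succ]
    exact List.Forall₂.cons (h g List.mem_cons_self) (ih fun g' h' => h g' (List.mem_cons_of_mem _ h'))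

theorem line_case (ht1 : T1aS) (har : ArS) (Q : Type) [Group Q] (B : Lb.{0, 0} Q) (m : ℕ) (V : Vd B (ZMod m))
    (a b : B.L) (k c : ℕ) (hy : Hy V a k c) (hz : ∀ x, x ∈ zpowers (B.q a)) (h1 : B.q b * B.q b = 1) (h2 : B.q b ≠ 1)
    (hl : ∀ g, B.q g = B.q a ∨ B.q g = (B.q a)⁻¹ ∨ B.q g = B.q b) (hcl : ∀ p ∈ m.primeFactors, ClI V a p)
    (hZ : ∀ p ∈ m.primeFactors, ¬ Zp V a b p) : HP V := by
  classical
  have : Finite Q := hy.fin
  have : NeZero m := ⟨hy.m0⟩
  obtain ⟨h, h0, hcard, hord, ht, ho, hall⟩ := half hz h1 h2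
  set ω := m.primeFactors.card with hω
  -- room
  have hroom : k * (ω * ω) + 1 ≤ h := by
    have h3 := hy.big
    rw [hord, ← hω] at h3
    have h4 : 2 * (k * (ω * ω) + 1) ≤ 1000 * (ω + 2) ^ 2 * k * (c + 10) := by
      have h5 : k * (ω * ω) + 1 ≤ k * ((ω + 2) ^ 2) := by
        have : ω * ω + 1 ≤ (ω + 2) ^ 2 := by nlinarith
        calc k * (ω * ω) + 1 ≤ k * (ω * ω) + k := by have := hy.k0; omega
          _ = k * (ω * ω + 1) := by ring
          _ ≤ _ := Nat.mul_le_mul_left _ this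
      calc 2 * (k * (ω * ω) + 1) ≤ 2 * (k * ((ω + 2) ^ 2)) := Nat.mul_le_mul_left _ h5
        _ = 2 * (ω + 2) ^ 2 * k * 1 := by ring
        _ ≤ 1000 * (ω + 2) ^ 2 * k * (c + 10) :=
          Nat.mul_le_mul (Nat.mul_le_mul_right _ (Nat.mul_le_mul_right _ (by norm_num))) (by omega)
    omega
  -- the labels
  have hfam : ∀ p : {p // p ∈ m.primeFactors}, ∃ a', B.q a' = B.q a ∧
      ((∃ g, B.q g = B.q a ∧ rd p.1 (V.n g) ≠ 0) → rd p.1 (V.n a') ≠ 0) := by
    intro p
    by_cases h3 : ∃ g, B.q g = B.q a ∧ rd p.1 (V.n g) ≠ 0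
    · obtain ⟨g, hg1, hg2⟩ := h3
      exact ⟨g, hg1, fun _ => hg2⟩
    · exact ⟨a, rfl, fun h4 => absurd h4 h3⟩
  choose ex hex1 hex2 using hfam
  set x₀ : ZMod m := V.chi (B.q b) * (V.chi (B.q a)⁻¹ * V.n b + V.n b) with hx₀
  obtain ⟨j, hj1, hj2⟩ := ar' har (fun p hp => lt_of_le_of_lt (lt_aux _) (hy.prm p hp)) {p // p ∈ m.primeFactors}
    x₀ (fun i => V.n (ex i))
  have hsum : ∑ i, j i ≤ ω * ω := by
    refine le_trans (Finset.sum_le_sum fun i _ => hj1 i) ?_
    rw [Finset.sum_const, smul_eq_mul, Finset.card_univ, Fintype.card_coe]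
  obtain ⟨k', rfl⟩ : ∃ k', k = k' + 1 := ⟨k - 1, by have := hy.k0; omega⟩
  -- the blocks
  obtain ⟨ws, ws1, ws2, ws3⟩ := copies (R := ZMod m) (fun i => ex i :: List.replicate k' a) (a :: List.replicate k' a) j
    (ω * ω) hsum (fun w => w.length = k' + 1 ∧ ∀ g ∈ w, B.q g = B.q a)
    ⟨by simp, fun g hg => by
      rcases List.mem_cons.1 hg with rfl | hg
      · rfl
      · rw [List.eq_of_mem_replicate hg]⟩
    (fun i => ⟨by simp, fun g hg => by
      rcases List.mem_cons.1 hg with rfl | hg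
      · exact hex1 i
      · rw [List.eq_of_mem_replicate hg]⟩) (V.vol 1)
  set lX := ws.flatten ++ List.replicate (h - 1 - (k' + 1) * (ω * ω)) a with hlX
  have hlen : lX.length = h - 1 := by
    have h3 : (ws.map List.length) = List.replicate (ω * ω) (k' + 1) := by
      rw [List.eq_replicate_iff]
      refine ⟨by rw [List.length_map, ws1], fun n hn => ?_⟩
      obtain ⟨w, hw, rfl⟩ := List.mem_map.1 hn
      exact (ws2 w hw).1
    rw [hlX, List.length_append, List.length_flatten, h3, List.sum_replicate, List.length_replicate, smul_eq_mul,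
      mul_comm (ω * ω)]
    omega
  have hqX : ∀ g ∈ lX, B.q g = B.q a := by
    intro g hg
    rcases List.mem_append.1 hg with h3 | h3
    · obtain ⟨w, hw, hgw⟩ := List.mem_flatten.1 h3
      exact (ws2 w hw).2 g hgw
    · rw [List.eq_of_mem_replicate h3]
  have hvX := verts_congr (all_rep hqX)
  rw [hlen] at hvX
  have hfinX : B.fin 1 lX = B.q a ^ (h - 1) := by rw [(hvX 1).2, fin_rep, one_mul]
  set y₀ : Q := B.q a ^ (h - 1) * B.q b with hy₀
  have hy₀' : y₀ = B.q a ^ (2 * h - 1) := by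
    rw [hy₀, ht, ← pow_add]
    congr 1; omega
  have hfinY : B.fin y₀ (List.replicate (h - 1) (B.inv a)) = B.q b := by
    rw [fin_rep, hy₀', B.q_inv, ht]
    exact sub_pow (by congr 1; omega)
  have hcov : ∀ q : Q, q ∈ B.verts 1 lX ++ B.verts y₀ (List.replicate (h - 1) (B.inv a)) := by
    intro q
    obtain ⟨i, hi, rfl⟩ := hall q
    rcases le_or_gt i (h - 1) with h3 | h3
    · refine List.mem_append_left _ ?_
      rw [(hvX 1).1]
      have := mem_verts_rep a (1 : Q) h3
      rwa [one_mul] at this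
    · refine List.mem_append_right _ ?_
      have := mem_verts_rep (B.inv a) y₀ (n := h - 1) (i := 2 * h - 1 - i) (by omega)
      rw [B.q_inv, sub_pow (j := i)] at this
      · exact this
      · rw [hy₀']; congr 1; omega
  refine ht1 Q B m V 1 y₀ lX (List.replicate (h - 1) (B.inv a)) {s | B.q s = B.q b} b ?_
    (fun q => List.mem_append.1 (hcov q)) (fun s hs => ?_) ?_ (fun p hp => ?_) ⟨b, rfl⟩
  · refine nodup_of_cover _ hcov ?_ inferInstance
    rw [List.length_append, verts_length, verts_length, hlen, List.length_replicate, hcard]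
    omega
  · rw [hfinX, show B.q s = B.q b from hs]
  · rw [hfinY, h1]
  -- the volumes
  have hpp := Nat.prime_of_mem_primeFactors hp
  have hd := Nat.dvd_of_mem_primeFactors hp
  have : Fact p.Prime := ⟨hpp⟩
  set f := ZMod.castHom hd (ZMod p) with hf
  have hna : f (V.n a) = 0 := (hcl p hp).2.1
  have hna' : f (V.n (B.inv a)) = 0 := by rw [V.n_inv, map_neg, map_mul, hna, mul_zero, neg_zero]
  have hinv : f (V.chi (B.q a)) * f (V.chi (B.q a)⁻¹) = 1 := by
    rw [← map_mul, ← map_mul, mul_inv_cancel, map_one, map_one]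
  -- volume of `lX`
  have hvolX : f (V.vol 1 lX) = ∑ i, (j i : ZMod p) * f (V.n (ex i)) := by
    have h3 : ∀ (g : B.L), f (V.vol 1 (g :: List.replicate k' a)) = f (V.n g) := by
      intro g
      show f (V.chi 1 * V.n g + V.vol (1 * B.q g) (List.replicate k' a)) = _
      rw [map_one, one_mul, map_add, ← vol_map, vol_rep0 (V.map f) hna, add_zero]
    have h4 : f (V.vol 1 lX) = f ((ws.map (V.vol 1)).sum) := by
      rw [hlX, ← vol_map, vol_app, vol_rep0 (V.map f) hna, add_zero, vol_map, vol_flat V, map_one, one_mul]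
      intro w hw
      have h5 := (verts_congr (all_rep (ws2 w hw).2) 1).2
      rw [h5, (ws2 w hw).1, fin_rep, one_mul, map_pow]
      exact hy.per
    rw [h4, ws3, map_add, map_mul, h3 a, hna, mul_zero, zero_add, map_sum]
    refine Finset.sum_congr rfl fun i _ => ?_
    rw [map_mul, map_natCast, map_sub, h3, h3, hna, sub_zero]
  have hvol : ∀ s, B.q s = B.q b →
      f (V.vol 1 (lX ++ s :: (List.replicate (h - 1) (B.inv a) ++ [b]))) =
        ∑ i, (j i : ZMod p) * f (V.n (ex i)) +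
          f (V.chi (B.q b)) * (f (V.chi (B.q a)⁻¹) * f (V.n s) + f (V.n b)) := by
    intro s hs
    have h3 : V.chi (B.q a) ^ (h - 1) = V.chi (B.q b) * V.chi (B.q a)⁻¹ := by
      rw [← map_mul, ← map_pow]
      congr 1
      rw [ht, eq_mul_inv_iff_mul_eq, ← pow_succ]
      congr 1; omega
    rw [vol_app V 1 lX, hfinX]
    show f (_ + (V.chi (B.q a ^ (h - 1)) * V.n s + V.vol (B.q a ^ (h - 1) * B.q s) _)) = _
    rw [hs, ← hy₀, vol_app V y₀, hfinY, vol_sing, map_add, map_add, map_add, hvolX, ← vol_map V f y₀,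
      vol_rep0 (V.map f) hna', map_pow, h3, map_mul, map_mul, map_mul]
    ring
  by_cases c1 : ∀ b', B.q b' = B.q b → rd p (V.n b') = rd p (V.n b)
  · refine ⟨b, rfl, ?_⟩
    have h3 := hj2 p hp ?_
    · rw [rd_eq hd] at h3 ⊢
      rw [← hf] at h3 ⊢
      rw [hvol b rfl]
      intro h4
      apply h3
      rw [hx₀, map_add, map_mul, map_add, map_mul, map_sum, ← h4]
      simp only [map_mul, map_natCast]
      ring
    · by_cases c2 : ∀ a', B.q a' = B.q a → rd p (V.n a') = 0
      · left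
        obtain ⟨hb, hη⟩ := clI hpp hd (hcl p hp) hl c1 c2 h1
        have hα : rd p (V.chi (B.q a)) ≠ -1 := fun h3 => hZ p hp ⟨h3, hη, c1, c2⟩
        rw [rd_eq hd] at hb hη hα ⊢
        rw [← hf] at hb hη hα ⊢
        rw [hx₀, map_mul, map_add, map_mul, hη]
        intro h4
        apply hα
        have h5 : (f (V.chi (B.q a)⁻¹) + 1) * f (V.n b) = 0 := by linear_combination -h4
        have h6 := (mul_eq_zero.1 h5).resolve_right hb
        linear_combination -hinv + f (V.chi (B.q a)) * h6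
      · simp only [not_forall] at c2
        obtain ⟨a', ha', hn⟩ := c2
        exact Or.inr ⟨⟨p, hp⟩, hex2 ⟨p, hp⟩ ⟨a', ha', hn⟩⟩
  · simp only [not_forall] at c1
    obtain ⟨b', hb', hn⟩ := c1
    by_cases h3 : f (V.vol 1 (lX ++ b :: (List.replicate (h - 1) (B.inv a) ++ [b]))) = 0
    · refine ⟨b', hb', ?_⟩
      rw [rd_eq hd, ← hf, hvol b' hb']
      rw [hvol b rfl] at h3
      intro h4
      apply hn
      rw [rd_eq hd, rd_eq hd, ← hf]
      have hη : f (V.chi (B.q b)) * f (V.chi (B.q b)) = 1 := by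
        rw [← map_mul, ← map_mul, h1, map_one, map_one]
      linear_combination f (V.chi (B.q a)) * f (V.chi (B.q b)) * (h4 - h3) -
        (f (V.n b') - f (V.n b)) * hinv * (f (V.chi (B.q b)) * f (V.chi (B.q b))) -
        (f (V.n b') - f (V.n b)) * hη
    · exact ⟨b, rfl, h3⟩

end Pool.Agent.Lib.MP_688fd0_co.SQ3.Small.R1D

namespace Pool.Agent.Lib.MP_688fd0_co.SQ3.Small

open Pool.Agent.Lib.MP_688fd0_co.OSF Pool.Agent.Lib.MP_688fd0_co.SQ2

/-- R1D. -/
theorem r1d (ht1 : T1aS) (hf : FacS) (har : ArS) : R1DS := by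
  intro Q _ B m V a b k c τ hy hz h1 h2 hb hl hcl
  subst hb
  by_cases hZ : ∃ p ∈ m.primeFactors, R1D.Zp V a b p
  · exact R1D.ring_case hf har Q B m V a b k c hy hz h1 h2 hl hcl hZ
  · simp only [not_exists, not_and] at hZ
    exact R1D.line_case ht1 har Q B m V a b k c hy hz h1 h2 hl hcl hZ

end Pool.Agent.Lib.MP_688fd0_co.SQ3.Small
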