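import Pool.Agent.Lib.MP_688fd0_co.SQ3.Small.R2A

/-!
R2B: two lines, type B (2B of finding 4109).
-/

set_option autoImplicit false

namespace Pool.Agent.Lib.MP_688fd0_co.SQ3.Small

open Pool.Agent.Lib.MP_688fd0_co.OSF Pool.Agent.Lib.MP_688fd0_co.SQ2
open Subgroup (zpowers)

/-- A slot with its local changes. The labels of the second line are `e`. -/
def SE {Q : Type} [Group Q] {B : Lb.{0, 0} Q} {m : ℕ} (V : Vd B (ZMod m)) (a e : B.L) (y₀ : Q) (L : ℕ)
    (t : Slot B (B.q a) y₀ L × ZMod m × ZMod m) : Prop :=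
  V.vol 1 t.1.lx = V.vol 1 (List.replicate L a) + t.2.1 ∧
    V.vol y₀ t.1.ly = V.vol y₀ (List.replicate L e) + t.2.2

section

variable {Q : Type} [Group Q] {B : Lb.{0, 0} Q} {m : ℕ} (V : Vd B (ZMod m)) {a : B.L}

theorem conj_inv {A y₀ : Q} (h : y₀ * A * y₀⁻¹ = A⁻¹) : y₀ * A = A⁻¹ * y₀ := by
  rw [← h]; group

theorem conj_inv' {A y₀ : Q} (h : y₀ * A * y₀⁻¹ = A⁻¹) : y₀ * A⁻¹ = A * y₀ := by
  have h1 := conj_inv h
  calc y₀ * A⁻¹ = A * (A⁻¹ * y₀) * A⁻¹ := by group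
    _ = A * (y₀ * A) * A⁻¹ := by rw [h1]
    _ = A * y₀ := by group

theorem inv_step {y₀ : Q} (h : y₀ * B.q a * y₀⁻¹ = (B.q a)⁻¹) (j : ℤ) :
    B.q a ^ j * y₀ * B.q (B.inv a) = B.q a ^ (j + 1) * y₀ := by
  rw [B.q_inv, mul_assoc, conj_inv' h, zpow_add, zpow_one, mul_assoc]

theorem se_triv (hex : ExS) {y₀ : Q} (hc : y₀ * B.q a * y₀⁻¹ = (B.q a)⁻¹) {L : ℕ} (hL : 1 ≤ L) :
    ∃ s : Slot B (B.q a) y₀ L, SE V a (B.inv a) y₀ L (s, 0, 0) := by
  obtain ⟨s, s', h⟩ := hex Q B a (B.inv a) a (B.inv a) y₀ L (inv_step hc) rfl rfl hL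
  obtain ⟨h1, h2, -, -⟩ := h (ZMod m) V
  exact ⟨s, by rw [h1, sub_self], by rw [h2, add_zero]⟩

theorem se_ex (hex : ExS) {y₀ : Q} (hc : y₀ * B.q a * y₀⁻¹ = (B.q a)⁻¹) {L : ℕ} (hL : 1 ≤ L) (g : B.L)
    (hg : B.q g = B.q a) :
    ∃ s s' : Slot B (B.q a) y₀ L, SE V a (B.inv a) y₀ L (s, V.n g - V.n a, 0) ∧
      SE V a (B.inv a) y₀ L (s', 0, V.chi y₀ * (V.n (B.inv g) - V.n (B.inv a))) := by
  obtain ⟨s, s', h⟩ := hex Q B a (B.inv a) g (B.inv g) y₀ L (inv_step hc) hg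
    (by rw [B.q_inv, B.q_inv, hg]) hL
  obtain ⟨h1, h2, h3, h4⟩ := h (ZMod m) V
  exact ⟨s, s', ⟨h1, by rw [h2, add_zero]⟩, by rw [h3, add_zero], h4⟩

theorem se_win (hwin : WinS) {y₀ : Q} (hc : y₀ * B.q a * y₀⁻¹ = (B.q a)⁻¹) (b b' : B.L) (δ L : ℕ)
    (hb' : B.q b' = y₀) (hb : B.q b = B.q a ^ δ * y₀) (hδ : 2 ≤ δ) (hL : δ + 4 ≤ L) :
    ∃ t : Slot B (B.q a) y₀ L × ZMod m × ZMod m, SE V a (B.inv a) y₀ L t ∧ ∀ p, p ∣ m → rd p (V.n a) = 0 →
      rd p (V.chi (B.q a)) = -1 →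
      rd p t.2.1 = rd p (V.n b) - rd p (V.n b') ∧ rd p t.2.2 = -(rd p (V.n b) - rd p (V.n b')) := by
  obtain ⟨s, h⟩ := hwin Q B a (B.inv a) b b' y₀ 0 0 δ 1 L (inv_step hc) (by simp)
    (by rw [zpow_zero, one_mul, hb']) (by rw [zero_add, zpow_natCast, hb]) le_rfl (by omega) (by omega)
  obtain ⟨h1, h2⟩ := h (ZMod m) V
  refine ⟨⟨s, _, _⟩, ⟨h1, h2⟩, fun p hd ha hα => ?_⟩
  have hai := rd_n_inv_zero V hd ha
  have haii := rd_n_inv_zero V hd hai
  constructor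
  · show rd p (V.chi (B.q a) ^ 0 * (V.n b - V.chi (B.q a) ^ (1 + 1) * V.n b'
        + V.vol (B.q a ^ ((0 : ℤ) + δ) * y₀) (List.replicate (δ - 1 - 1) (B.inv (B.inv a)))
        - V.vol 1 (List.replicate (1 + 1) a))) = _
    rw [rd_mul hd, rd_sub hd, rd_add hd, rd_sub hd, rd_mul hd, rd_pow hd, rd_pow hd,
      rd_vol_replicate V hd _ haii, rd_vol_replicate V hd _ ha, hα]
    ring
  · show rd p (V.chi (B.q a) ^ 0 * (V.chi (B.q a) * V.n b
        - V.chi (B.q a) ^ 1 * V.n b' + V.vol (B.q a ^ 1) (List.replicate (1 - 1) (B.inv a))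
        - V.vol (B.q a ^ ((0 : ℤ) + (1 : ℕ)) * y₀) (List.replicate (δ + 1 - 1) (B.inv a)))) = _
    rw [rd_mul hd, rd_sub hd, rd_add hd, rd_sub hd, rd_mul hd, rd_mul hd, rd_pow hd, rd_pow hd,
      rd_vol_replicate V hd _ hai, rd_vol_replicate V hd _ hai, hα]
    ring

/-- The two slots of a prime. -/
theorem two_slots_b (hex : ExS) (hwin : WinS) {b₀ : B.L} {c L : ℕ}
    (hc : B.q b₀ * B.q a * (B.q b₀)⁻¹ = (B.q a)⁻¹) (hL : 2 * c + 4 ≤ L) {p : ℕ} (hp : p ∈ m.primeFactors)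
    (ha : rd p (V.n a) = 0) (hα : rd p (V.chi (B.q a)) = -1) (hn₀ : rd p (V.n b₀) = 0)
    (h : (∃ g, B.q g = B.q a ∧ rd p (V.n g) ≠ 0) ∨
      ∃ (b : B.L) (δ : ℕ), 2 ≤ δ ∧ δ ≤ 2 * c ∧ B.q b = B.q a ^ δ * B.q b₀ ∧ rd p (V.n b) ≠ 0) :
    ∃ t₁ t₂ : Slot B (B.q a) (B.q b₀) L × ZMod m × ZMod m, SE V a (B.inv a) (B.q b₀) L t₁ ∧
      SE V a (B.inv a) (B.q b₀) L t₂ ∧ rd p t₁.2.1 ≠ 0 ∧
      ∀ p' ∈ m.primeFactors, rd p' (V.n a) = 0 → rd p' (V.chi (B.q a)) = -1 →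
        ((rd p' t₁.2.1 ≠ 0 ∨ rd p' t₂.2.1 ≠ 0) ↔ (rd p' t₁.2.2 ≠ 0 ∨ rd p' t₂.2.2 ≠ 0)) := by
  have hd := Nat.dvd_of_mem_primeFactors hp
  rcases h with ⟨g, hg, hn⟩ | ⟨b, δ, h1, h2, hb, hn⟩
  · obtain ⟨s, s', e1, e2⟩ := se_ex V hex hc (by omega : 1 ≤ L) g hg
    refine ⟨_, _, e1, e2, ?_, fun p' hp' ha' hα' => ?_⟩
    · show rd p (V.n g - V.n a) ≠ 0
      rw [rd_sub hd, ha, sub_zero]; exact hn
    · have hd' := Nat.dvd_of_mem_primeFactors hp'
      have : Fact p'.Prime := ⟨Nat.prime_of_mem_primeFactors hp'⟩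
      have f1 : rd p' (V.n g - V.n a) = rd p' (V.n g) := by rw [rd_sub hd', ha', sub_zero]
      have f2 : rd p' (V.chi (B.q b₀) * (V.n (B.inv g) - V.n (B.inv a))) =
          rd p' (V.chi (B.q b₀)) * -(rd p' (V.chi (B.q g)⁻¹) * rd p' (V.n g)) := by
        rw [rd_mul hd', rd_sub hd', rd_n_inv_zero V hd' ha', sub_zero, rd_n_inv V hd']
      show (rd p' (V.n g - V.n a) ≠ 0 ∨ rd p' (0 : ZMod m) ≠ 0) ↔
        (rd p' (0 : ZMod m) ≠ 0 ∨ rd p' (V.chi (B.q b₀) * (V.n (B.inv g) - V.n (B.inv a))) ≠ 0)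
      rw [f1, f2, rd_zero hd']
      have c1 := rd_chi_ne V hp' (B.q b₀)
      have c2 := rd_chi_ne V hp' (B.q g)⁻¹
      simp [c1, c2]
  · obtain ⟨t, e1, e2⟩ := se_win V hwin hc b b₀ δ L rfl hb h1 (by omega)
    refine ⟨t, t, e1, e1, ?_, fun p' hp' ha' hα' => ?_⟩
    · rw [(e2 p hd ha hα).1, hn₀, sub_zero]; exact hn
    · have hd' := Nat.dvd_of_mem_primeFactors hp'
      rw [(e2 p' hd' ha' hα').1, (e2 p' hd' ha' hα').2]
      simp only [ne_eq, neg_eq_zero]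

end

theorem r2b_num (w k c M : ℕ) (hk : 0 < k) (h : 1000 * (w + 2) ^ 2 * k * (c + 10) ≤ M) :
    k * (2 * c + 4) * (2 * w * (w * 2)) + 1 ≤ M ∧ 3 ≤ M := by
  have h1 : w * w ≤ (w + 2) ^ 2 := by nlinarith
  have h2 : 1 ≤ (w + 2) ^ 2 * k := Nat.mul_pos (by positivity) hk
  have e1 : k * (2 * c + 4) * (2 * w * (w * 2)) = (w * w) * (k * (8 * c + 16)) := by ring
  have h3 : (w * w) * (k * (8 * c + 16)) ≤ (w + 2) ^ 2 * (k * (8 * c + 16)) := Nat.mul_le_mul_right _ h1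
  have h4 : (w + 2) ^ 2 * k * (8 * c + 17) ≤ (w + 2) ^ 2 * k * (1000 * (c + 10)) :=
    Nat.mul_le_mul_left _ (by omega)
  have e2 : (w + 2) ^ 2 * k * (8 * c + 17) = (w + 2) ^ 2 * (k * (8 * c + 16)) + (w + 2) ^ 2 * k := by ring
  have e3 : (w + 2) ^ 2 * k * (1000 * (c + 10)) = 1000 * (w + 2) ^ 2 * k * (c + 10) := by ring
  have h5 : 1 * (1000 * (c + 10)) ≤ (w + 2) ^ 2 * k * (1000 * (c + 10)) := Nat.mul_le_mul_right _ h2
  constructor
  · omega
  · omega

/-- No adjacent slopes. -/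
theorem r2b_far (hasm : AsmS) (hwin : WinS) (hex : ExS) (Q : Type) [Group Q] (B : Lb.{0, 0} Q) (m : ℕ)
    (V : Vd B (ZMod m)) (a : B.L) (k c : ℕ) (b₀ : B.L) (hy : Hy V a k c)
    (cop : ∀ p ∈ m.primeFactors, ¬ p ∣ orderOf (B.q a)) (hc : B.q b₀ * B.q a * (B.q b₀)⁻¹ = (B.q a)⁻¹)
    (hyn : B.q b₀ ∉ zpowers (B.q a)) (hxy : ∀ x, x ∈ zpowers (B.q a) ∨ x * (B.q b₀)⁻¹ ∈ zpowers (B.q a))
    (hlab : ∀ b, B.q b = B.q a ∨ B.q b = (B.q a)⁻¹ ∨ B.q b = B.q b₀ ∨
      ∃ δ : ℕ, 2 ≤ δ ∧ δ ≤ 2 * c ∧ B.q b = B.q a ^ δ * B.q b₀)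
    (hp : ∀ p ∈ m.primeFactors, ClI V a p ∨ (rd p (V.chi (B.q a)) = 1 ∧ rd p (V.n a) ≠ 0)) : HP V := by
  classical
  have := hy.fin
  set M := orderOf (B.q a) with hMdef
  obtain ⟨hLN, hM3⟩ := r2b_num _ k c M hy.k0 hy.big
  set y₀ := B.q b₀ with hy₀
  have hpw : ∀ i : ℕ, y₀ * (B.q a)⁻¹ ^ i = B.q a ^ i * y₀ := by
    intro i
    induction i with
    | zero => simp
    | succ i ih =>
      calc y₀ * (B.q a)⁻¹ ^ (i + 1) = y₀ * (B.q a)⁻¹ ^ i * (B.q a)⁻¹ := by rw [pow_succ, mul_assoc]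
        _ = B.q a ^ i * (y₀ * (B.q a)⁻¹) := by rw [ih, mul_assoc]
        _ = B.q a ^ (i + 1) * y₀ := by rw [conj_inv' hc, pow_succ, mul_assoc]
  -- the value of `chi a`
  have hchi : V.chi (B.q a) * V.chi (B.q a) = 1 := by
    have h1 : V.chi (B.q a)⁻¹ = V.chi (B.q a) := by
      rw [← hc, map_mul, map_mul, mul_comm (V.chi y₀), mul_assoc, ← map_mul, mul_inv_cancel, map_one, mul_one]
    calc V.chi (B.q a) * V.chi (B.q a) = V.chi (B.q a)⁻¹ * V.chi (B.q a) := by rw [h1]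
      _ = 1 := by rw [← map_mul, inv_mul_cancel, map_one]
  have hneg : ∀ p ∈ m.primeFactors, rd p (V.chi (B.q a)) ≠ 1 → rd p (V.chi (B.q a)) = -1 := by
    intro p hpp h1
    have hd := Nat.dvd_of_mem_primeFactors hpp
    have : Fact p.Prime := ⟨Nat.prime_of_mem_primeFactors hpp⟩
    have h2 : rd p (V.chi (B.q a)) * rd p (V.chi (B.q a)) = 1 := by
      rw [← rd_mul hd, hchi, rd_one hd]
    exact (mul_self_eq_one_iff.1 h2).resolve_left h1
  have hpow : ∀ x ∈ zpowers (B.q a), ∃ i < M, B.q a ^ i = x := by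
    intro x hx
    rw [mem_zpowers_iff_mem_range_orderOf, Finset.mem_image] at hx
    obtain ⟨i, hi, e⟩ := hx
    exact ⟨i, Finset.mem_range.1 hi, e⟩
  have hall : ∀ x, (∃ i < M, B.q a ^ i = x) ∨ ∃ i < M, B.q a ^ i * y₀ = x := by
    intro x
    rcases hxy x with h | h
    · exact Or.inl (hpow x h)
    · right
      obtain ⟨i, hi, h2⟩ := hpow _ h
      exact ⟨i, hi, by rw [h2, inv_mul_cancel_right]⟩
  -- slots
  set w := m.primeFactors.card with hw
  set L := k * (2 * c + 4) with hL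
  have hL1 : 2 * c + 4 ≤ L := Nat.le_mul_of_pos_left _ hy.k0
  have hsl : ∀ p : m.primeFactors, ∃ t₁ t₂ : Slot B (B.q a) y₀ L × ZMod m × ZMod m,
      (SE V a (B.inv a) y₀ L t₁ ∧ SE V a (B.inv a) y₀ L t₂) ∧
      ((ClI V a p ∧ ∀ g, B.q g = y₀ → rd (p : ℕ) (V.n g) = 0) → rd (p : ℕ) t₁.2.1 ≠ 0) ∧
      ∀ p' ∈ m.primeFactors, rd p' (V.n a) = 0 → rd p' (V.chi (B.q a)) = -1 →
        ((rd p' t₁.2.1 ≠ 0 ∨ rd p' t₂.2.1 ≠ 0) ↔ (rd p' t₁.2.2 ≠ 0 ∨ rd p' t₂.2.2 ≠ 0)) := by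
    intro p
    by_cases h : ClI V a p ∧ ∀ g, B.q g = y₀ → rd (p : ℕ) (V.n g) = 0
    · obtain ⟨t₁, t₂, s1, s2, n1, hz⟩ := two_slots_b V hex hwin hc hL1 p.2 h.1.2.1 (hneg p p.2 h.1.1)
        (h.2 b₀ rfl) (by
          obtain ⟨b, hb⟩ := h.1.2.2
          rcases hlab b with h1 | h1 | h1 | ⟨δ, h1, h2, h3⟩
          · exact Or.inl ⟨b, h1, hb⟩
          · exact Or.inl ⟨B.inv b, by rw [B.q_inv, h1, inv_inv], rd_inv_ne V p.2 b hb⟩
          · exact absurd (h.2 b h1) hb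
          · exact Or.inr ⟨b, δ, h1, h2, h3, hb⟩)
      exact ⟨t₁, t₂, ⟨s1, s2⟩, fun _ => n1, hz⟩
    · obtain ⟨s, hs⟩ := se_triv V hex hc (by omega : 1 ≤ L)
      exact ⟨_, _, ⟨hs, hs⟩, fun h' => absurd h' h, fun p' _ _ _ => Iff.rfl⟩
  choose t₁ t₂ hSD hne hze using hsl
  set t : m.primeFactors × Bool → Slot B (B.q a) y₀ L × ZMod m × ZMod m := fun x => cond x.2 (t₁ x.1) (t₂ x.1)
    with ht
  have htSD : ∀ x, SE V a (B.inv a) y₀ L (t x) := by
    rintro ⟨p, b⟩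
    cases b
    · exact (hSD p).2
    · exact (hSD p).1
  have hcard : Fintype.card (m.primeFactors × Bool) = w * 2 := by
    rw [Fintype.card_prod, Fintype.card_coe, Fintype.card_bool]
  set N := 2 * w * Fintype.card (m.primeFactors × Bool) with hN
  have hLNM : L * N + 1 ≤ M := by rw [hN, hcard]; exact hLN
  have hvM : ∀ g : B.L, List.replicate (L * N) g ++ (List.replicate (M - 1 - L * N) g ++ [g]) =
      List.replicate M g := by
    intro g
    rw [← List.replicate_one (a := g), List.replicate_append_replicate, List.replicate_append_replicate]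
    congr 1; omega
  have hvert : ∀ (g : B.L) (x : Q), B.verts x (List.replicate (M - 1 - L * N) g) =
      (List.range (M - L * N)).map fun i => x * B.q g ^ i := by
    intro g x
    rw [verts_same g _ (fun g' hg => by rw [List.eq_of_mem_replicate hg]), List.length_replicate]
    congr 2; omega
  have hye : ∀ (n i : ℕ), B.q a ^ n * y₀ * B.q (B.inv a) ^ i = B.q a ^ (n + i) * y₀ := by
    intro n i
    rw [B.q_inv, mul_assoc, hpw, ← mul_assoc, ← pow_add]
  have hperm : (strip (B.q a) y₀ (L * N) ++ (B.verts (B.q a ^ (L * N)) (List.replicate (M - 1 - L * N) a) ++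
      B.verts (B.q a ^ (L * N) * y₀) (List.replicate (M - 1 - L * N) (B.inv a)))).Perm
      ((List.range M).map (fun i => B.q a ^ i) ++ (List.range M).map (fun i => B.q a ^ i * y₀)) := by
    rw [hvert, hvert]
    unfold strip
    obtain ⟨d, hd⟩ := Nat.exists_eq_add_of_le (show L * N ≤ M by omega)
    rw [hd, show L * N + d - L * N = d by omega, List.range_add, List.map_append, List.map_append,
      List.map_map, List.map_map]
    have e1 : (List.range d).map (fun i => B.q a ^ (L * N) * y₀ * B.q (B.inv a) ^ i) =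
        (List.range d).map ((fun i => B.q a ^ i * y₀) ∘ fun x => L * N + x) :=
      List.map_congr_left fun i _ => hye _ _
    have e2 : (List.range d).map (fun i => B.q a ^ (L * N) * B.q a ^ i) =
        (List.range d).map ((fun i => B.q a ^ i) ∘ fun x => L * N + x) :=
      List.map_congr_left fun i _ => (pow_add _ _ _).symm
    rw [e1, e2, List.append_assoc, List.append_assoc]
    refine List.Perm.append_left _ ?_
    rw [← List.append_assoc, ← List.append_assoc]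
    exact List.Perm.append_right _ List.perm_append_comm
  have hfin : ∀ (g : B.L) (x : Q), B.fin x (List.replicate (M - 1 - L * N) g) = x * B.q g ^ (M - 1 - L * N) := by
    intro g x
    rw [fin_same g _ (fun g' hg => by rw [List.eq_of_mem_replicate hg]), List.length_replicate]
  have hfin1 : ∀ (g : B.L) (x : Q), B.fin x (List.replicate (M - 1 - L * N) g ++ [g]) =
      x * B.q g ^ (M - L * N) := by
    intro g x
    rw [← List.replicate_one (a := g), List.replicate_append_replicate,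
      fin_same g _ (fun g' hg => by rw [List.eq_of_mem_replicate hg]), List.length_replicate]
    congr 2; omega
  have hAM : B.q a ^ (L * N) * B.q a ^ (M - L * N) = 1 := by
    rw [← pow_add, show L * N + (M - L * N) = M by omega, hMdef, pow_orderOf_eq_one]
  refine hasm Q B m V a (B.inv a) b₀ a (B.inv a) k c L N (m.primeFactors × Bool) (fun x => (t x).1)
    (fun x => (t x).2.1) (fun x => (t x).2.2) (List.replicate (M - 1 - L * N) a)
    (List.replicate (M - 1 - L * N) (B.inv a)) hy (Dvd.intro _ rfl) (by omega) rfl (inv_step hc)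
    (fun x => (htSD x).1) (fun x => (htSD x).2) ?_ ?_ ?_ ?_ ?_ ?_
  · rw [hperm.nodup_iff, List.nodup_append]
    refine ⟨?_, ?_, ?_⟩
    · refine (List.nodup_range).map_on ?_
      intro x hx y' hy' e
      exact pow_injOn_Iio_orderOf (Set.mem_Iio.2 (List.mem_range.1 hx)) (Set.mem_Iio.2 (List.mem_range.1 hy')) e
    · refine (List.nodup_range).map_on ?_
      intro x hx y' hy' e
      exact pow_injOn_Iio_orderOf (Set.mem_Iio.2 (List.mem_range.1 hx)) (Set.mem_Iio.2 (List.mem_range.1 hy'))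
        (mul_right_cancel e)
    · intro x hx y' hy' e
      obtain ⟨i, -, rfl⟩ := List.mem_map.1 hx
      obtain ⟨j, -, rfl⟩ := List.mem_map.1 hy'
      apply hyn
      have e2 : y₀ = (B.q a ^ j)⁻¹ * B.q a ^ i := by rw [e, inv_mul_cancel_left]
      rw [e2]
      exact Subgroup.mul_mem _ (Subgroup.inv_mem _ (Subgroup.pow_mem _ (Subgroup.mem_zpowers _) _))
        (Subgroup.pow_mem _ (Subgroup.mem_zpowers _) _)
  · intro x
    rw [hperm.mem_iff, List.mem_append, List.mem_map, List.mem_map]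
    rcases hall x with ⟨i, hi, e⟩ | ⟨i, hi, e⟩
    · exact Or.inl ⟨i, List.mem_range.2 hi, e⟩
    · exact Or.inr ⟨i, List.mem_range.2 hi, e⟩
  · rw [hfin1, hAM]
  · rw [hfin1, hye, pow_add, hAM, one_mul]
  · rw [hfin, hfin, hye, pow_add]
  · intro p hpp
    have hd := Nat.dvd_of_mem_primeFactors hpp
    have : Fact p.Prime := ⟨Nat.prime_of_mem_primeFactors hpp⟩
    rw [hvM, hvM]
    rcases hp p hpp with hI | ⟨e1, e3⟩
    · have hα := hneg p hpp hI.1
      have ha := hI.2.1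
      have hai := rd_n_inv_zero V hd ha
      by_cases hX : ∃ x, rd p (t x).2.1 ≠ 0
      · left
        refine ⟨Or.inr hX, Or.inr ?_⟩
        obtain ⟨⟨p', b⟩, hx⟩ := hX
        have h1 := (hze p' p hpp ha hα).1 (by
          cases b
          · exact Or.inr hx
          · exact Or.inl hx)
        rcases h1 with h1 | h1
        · exact ⟨(p', true), h1⟩
        · exact ⟨(p', false), h1⟩
      · right
        push Not at hX
        refine ⟨?_, ha, hai, rd_vol_replicate V hd _ ha _ _, rd_vol_replicate V hd _ hai _ _, ha, hai, ?_⟩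
        · rintro ⟨p', b⟩
          refine ⟨hX _, ?_⟩
          by_contra hY
          have h1 := (hze p' p hpp ha hα).2 (by
            cases b
            · exact Or.inr hY
            · exact Or.inl hY)
          rcases h1 with h1 | h1
          · exact h1 (hX (p', true))
          · exact h1 (hX (p', false))
        · -- a label over `y₀`
          have hlb : ∃ g, B.q g = y₀ ∧ rd p (V.n g) ≠ 0 := by
            by_contra hcon
            push Not at hcon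
            exact hne ⟨p, hpp⟩ ⟨hI, hcon⟩ (hX (⟨p, hpp⟩, true))
          obtain ⟨g, hg, hn⟩ := hlb
          by_cases hv : rd p (V.chi (B.fin (B.q a ^ (L * N)) (List.replicate (M - 1 - L * N) a)) * V.n g - V.n b₀) = 0
          · refine ⟨b₀, rfl, ?_⟩
            rw [rd_sub hd, rd_mul hd] at hv ⊢
            set x := rd p (V.chi (B.fin (B.q a ^ (L * N)) (List.replicate (M - 1 - L * N) a))) with hx
            have hx0 : x ≠ 0 := rd_chi_ne V hpp _
            have hx1 : x * rd p (V.chi (B.q a)) = 1 := by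
              rw [hx, ← rd_mul hd, ← map_mul, hfin, mul_assoc, ← pow_succ,
                show M - 1 - L * N + 1 = M - L * N by omega, hAM, map_one, rd_one hd]
            have hn0 : rd p (V.n b₀) ≠ 0 := by
              rw [← sub_eq_zero.1 hv]; exact mul_ne_zero hx0 hn
            intro h5
            have h6 : (x - 1) * rd p (V.n b₀) = 0 := by linear_combination h5
            rcases mul_eq_zero.1 h6 with h7 | h7
            · rw [sub_eq_zero.1 h7, one_mul] at hx1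
              exact hI.1 hx1
            · exact hn0 h7
          · exact ⟨g, hg, hv⟩
    · left
      have hM0 : (M : ZMod p) ≠ 0 := by
        rw [Ne, ZMod.natCast_eq_zero_iff]
        exact cop p hpp
      have h1 : rd p (V.chi (B.q (B.inv a))) = 1 := by
        have h2 : rd p (V.chi (B.q a)) * rd p (V.chi (B.q (B.inv a))) = 1 := by
          rw [← rd_mul hd, ← map_mul, B.q_inv, mul_inv_cancel, map_one, rd_one hd]
        rwa [e1, one_mul] at h2
      refine ⟨Or.inl ?_, Or.inl ?_⟩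
      · rw [rd_vol_one V hd a e1]
        exact mul_ne_zero hM0 (mul_ne_zero (rd_chi_ne V hpp _) e3)
      · rw [rd_vol_one V hd (B.inv a) h1]
        exact mul_ne_zero hM0 (mul_ne_zero (rd_chi_ne V hpp _) (rd_inv_ne V hpp a e3))

theorem r2b_core (hasm : AsmS) (hwin : WinS) (hex : ExS) (hzig : R2BZS) (Q : Type) [Group Q] (B : Lb.{0, 0} Q)
    (m : ℕ) (V : Vd B (ZMod m)) (a : B.L) (k c : ℕ) (y : Q) (hy : Hy V a k (2 * c))
    (cop : ∀ p ∈ m.primeFactors, ¬ p ∣ orderOf (B.q a)) (hc : y * B.q a * y⁻¹ = (B.q a)⁻¹) (hyy : y * y = 1)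
    (hxy : ∀ x, x ∈ zpowers (B.q a) ∨ x * y⁻¹ ∈ zpowers (B.q a))
    (hlab : ∀ b, B.q b = B.q a ∨ B.q b = (B.q a)⁻¹ ∨ ∃ i : ℤ, |i| ≤ c ∧ B.q b = B.q a ^ i * y)
    (hp : ∀ p ∈ m.primeFactors, ClI V a p ∨
      (rd p (V.chi (B.q a)) = 1 ∧ rd p (V.chi y) = 1 ∧ rd p (V.n a) ≠ 0)) : HP V := by
  classical
  have := hy.fin
  obtain ⟨-, hM3⟩ := r2b_num _ k (2 * c) _ hy.k0 hy.big
  have hA2 : B.q a * B.q a ≠ 1 := by
    intro h
    have h1 := orderOf_le_of_pow_eq_one (x := B.q a) (n := 2) (by norm_num) (by rw [pow_two, h])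
    omega
  -- the conjugates
  have hzp : ∀ i : ℤ, (B.q a ^ i * y) * B.q a * (B.q a ^ i * y)⁻¹ = (B.q a)⁻¹ := by
    intro i
    calc (B.q a ^ i * y) * B.q a * (B.q a ^ i * y)⁻¹ = B.q a ^ i * (y * B.q a * y⁻¹) * (B.q a ^ i)⁻¹ := by group
      _ = (B.q a)⁻¹ := by rw [hc]; group
  have hyn : ∀ i : ℤ, B.q a ^ i * y ∉ zpowers (B.q a) := by
    intro i h
    obtain ⟨j, hj⟩ := Subgroup.mem_zpowers_iff.1 h
    have h1 := hzp i
    rw [← hj] at h1
    have h2 : B.q a ^ j * B.q a * (B.q a ^ j)⁻¹ = B.q a := by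
      rw [((Commute.refl (B.q a)).zpow_left j).eq, mul_inv_cancel_right]
    rw [h2] at h1
    apply hA2
    nth_rewrite 2 [h1]
    exact mul_inv_cancel _
  have hsq : ∀ i : ℤ, (B.q a ^ i * y) * (B.q a ^ i * y) = 1 := by
    intro i
    have h1 : y * B.q a ^ i * y⁻¹ = (B.q a ^ i)⁻¹ := by
      rw [← conj_zpow, hc, inv_zpow]
    calc (B.q a ^ i * y) * (B.q a ^ i * y) = B.q a ^ i * (y * B.q a ^ i * y⁻¹) * (y * y) := by group
      _ = 1 := by rw [h1, hyy]; group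
  have hxi : ∀ (i : ℤ) (x : Q), x ∈ zpowers (B.q a) ∨ x * (B.q a ^ i * y)⁻¹ ∈ zpowers (B.q a) := by
    intro i x
    rcases hxy x with h | h
    · exact Or.inl h
    · right
      rw [mul_inv_rev, ← mul_assoc]
      exact Subgroup.mul_mem _ h (Subgroup.inv_mem _ (Subgroup.zpow_mem _ (Subgroup.mem_zpowers _) _))
  have hrel : ∀ i j : ℤ, B.q a ^ j * y = B.q a ^ (j - i) * (B.q a ^ i * y) := by
    intro i j
    rw [← mul_assoc, ← zpow_add, sub_add_cancel]
  by_cases hadj : ∃ (b₀ b₁ : B.L) (i : ℤ), |i| ≤ c ∧ B.q b₀ = B.q a ^ i * y ∧ B.q b₁ = B.q a ^ (i + 1) * y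
  · obtain ⟨b₀, b₁, i, hi, h0, h1⟩ := hadj
    refine hzig Q B m V a b₀ b₁ k (2 * c) hy ?_ ?_ ?_ ?_ ?_ ?_
    · rw [h0]; exact hzp i
    · rw [h0]; exact hsq i
    · rw [h1, h0, hrel i (i + 1), add_sub_cancel_left, zpow_one]
    · rw [h0]; exact hxi i
    · intro b
      rcases hlab b with h | h | ⟨j, hj, h⟩
      · exact Or.inl h
      · exact Or.inr (Or.inl h)
      · refine Or.inr (Or.inr ⟨j - i, ?_, by rw [h0, h, hrel i j]⟩)
        have a1 := abs_le.1 hi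
        have a2 := abs_le.1 hj
        rw [abs_le]; push_cast; constructor <;> omega
    · intro p hpp
      rcases hp p hpp with h | ⟨e1, e2, e3⟩
      · exact Or.inl h
      · refine Or.inr ⟨e1, ?_, e3⟩
        have hd := Nat.dvd_of_mem_primeFactors hpp
        have h2 : rd p (V.chi (B.q a)⁻¹) = 1 := by
          have h3 : rd p (V.chi (B.q a)) * rd p (V.chi (B.q a)⁻¹) = 1 := by
            rw [← rd_mul hd, ← map_mul, mul_inv_cancel, map_one, rd_one hd]
          rwa [e1, one_mul] at h3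
        have h4 : rd p (V.chi (B.q a ^ i)) = 1 := by
          obtain ⟨n, rfl | rfl⟩ := Int.eq_nat_or_neg i
          · rw [zpow_natCast, map_pow, rd_pow hd, e1, one_pow]
          · rw [zpow_neg, zpow_natCast, ← inv_pow, map_pow, rd_pow hd, h2, one_pow]
        rw [h0, map_mul, rd_mul hd, h4, e2, one_mul]
  · -- the smallest slope
    have hexo : ∃ n : ℕ, ∃ (b : B.L) (i : ℤ), |i| ≤ c ∧ B.q b = B.q a ^ i * y ∧ (i + c).toNat = n := by
      by_contra hcon
      push Not at hcon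
      apply hyn 0
      rw [zpow_zero, one_mul]
      have h1 : (⊤ : Subgroup Q) ≤ zpowers (B.q a) := by
        rw [← hy.gen, Subgroup.closure_le]
        rintro _ ⟨b, rfl⟩
        rcases hlab b with h | h | ⟨i, hi, h⟩
        · show B.q b ∈ zpowers (B.q a)
          rw [h]; exact Subgroup.mem_zpowers _
        · show B.q b ∈ zpowers (B.q a)
          rw [h]; exact Subgroup.inv_mem _ (Subgroup.mem_zpowers _)
        · exact absurd rfl (hcon _ b i hi h)
      exact h1 (Subgroup.mem_top y)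
    obtain ⟨b₀, i₀, hi₀, h₀, hJ⟩ := Nat.find_spec hexo
    have hmin : ∀ (b : B.L) (i : ℤ), |i| ≤ c → B.q b = B.q a ^ i * y → i₀ ≤ i := by
      intro b i hi h
      have h1 := Nat.find_min' hexo ⟨b, i, hi, h, rfl⟩
      rw [← hJ] at h1
      have a1 := abs_le.1 hi₀
      have a2 := abs_le.1 hi
      omega
    refine r2b_far hasm hwin hex Q B m V a k (2 * c) b₀ hy cop ?_ ?_ ?_ ?_ ?_
    · rw [h₀]; exact hzp i₀
    · rw [h₀]; exact hyn i₀
    · rw [h₀]; exact hxi i₀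
    · intro b
      rcases hlab b with h | h | ⟨j, hj, h⟩
      · exact Or.inl h
      · exact Or.inr (Or.inl h)
      · have h1 := hmin b j hj h
        have a1 := abs_le.1 hi₀
        have a2 := abs_le.1 hj
        obtain ⟨δ, hδ⟩ := Int.eq_ofNat_of_zero_le (show 0 ≤ j - i₀ by omega)
        have h3 : δ ≠ 1 := by
          rintro rfl
          exact hadj ⟨b₀, b, i₀, hi₀, h₀, by rw [h]; congr 2; push_cast at hδ; omega⟩
        rcases Nat.eq_zero_or_pos δ with h4 | h4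
        · subst h4
          refine Or.inr (Or.inr (Or.inl ?_))
          rw [h, h₀]; congr 2; push_cast at hδ; omega
        · refine Or.inr (Or.inr (Or.inr ⟨δ, by omega, by omega, ?_⟩))
          rw [h₀, h, hrel i₀ j, hδ]
          simp
    · intro p hpp
      rcases hp p hpp with h | ⟨e1, -, e3⟩
      · exact Or.inl h
      · exact Or.inr ⟨e1, e3⟩

theorem r2b (hasm : AsmS) (hwin : WinS) (hex : ExS) (hzig : R2BZS) : R2BS := fun Q _ B m V a k c y hy hc hyy hxy hlab hp =>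
  r2b_core hasm hwin hex hzig Q B m V a k c y hy hy.cop hc hyy hxy hlab hp

end Pool.Agent.Lib.MP_688fd0_co.SQ3.Small
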