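import Pool.Agent.Lib.MP_688fd0_co.SQ3.Small.Iface

/-!
Row R2BZ: two lines, type B, two adjacent slopes: the zigzag tour with local changes.
-/

set_option autoImplicit false

namespace Pool.Agent.Lib.MP_688fd0_co.SQ3.Small

open Pool.Agent.Lib.MP_688fd0_co.OSF Pool.Agent.Lib.MP_688fd0_co.SQ2
open Subgroup (zpowers)

namespace BZ

section vol

variable {Q : Type} [Group Q] {B : Lb.{0, 0} Q} {R : Type} [CommRing R] (V : Vd B R)

theorem vol_append (x : Q) (l l' : List B.L) : V.vol x (l ++ l') = V.vol x l + V.vol (B.fin x l) l' := by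
  induction l generalizing x with
  | nil => simp [Vd.vol, Lb.fin]
  | cons g l ih =>
    show V.chi x * V.n g + V.vol (x * B.q g) (l ++ l') = V.chi x * V.n g + V.vol (x * B.q g) l + _
    rw [ih, add_assoc]
    rfl

theorem vol_tr (y x : Q) (l : List B.L) : V.vol (y * x) l = V.chi y * V.vol x l := by
  induction l generalizing x with
  | nil => simp [Vd.vol]
  | cons g l ih =>
    show V.chi (y * x) * V.n g + V.vol (y * x * B.q g) l = V.chi y * (V.chi x * V.n g + V.vol (x * B.q g) l)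
    rw [mul_assoc, ih, map_mul]
    ring

theorem vol_eq_tr (x : Q) (l : List B.L) : V.vol x l = V.chi x * V.vol 1 l := by
  have := vol_tr V x 1 l
  rwa [mul_one] at this

theorem vol_map {R' : Type} [CommRing R'] (f : R →+* R') (x : Q) (l : List B.L) :
    (V.map f).vol x l = f (V.vol x l) := by
  induction l generalizing x with
  | nil => simp [Vd.vol]
  | cons g l ih =>
    show f (V.chi x) * f (V.n g) + (V.map f).vol (x * B.q g) l = f (V.chi x * V.n g + V.vol (x * B.q g) l)
    rw [ih, map_add, map_mul]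

theorem vol_zero (x : Q) (l : List B.L) (h : ∀ g ∈ l, V.n g = 0) : V.vol x l = 0 := by
  induction l generalizing x with
  | nil => rfl
  | cons g l ih =>
    show V.chi x * V.n g + V.vol (x * B.q g) l = 0
    rw [ih _ fun g' hg' => h g' (List.mem_cons_of_mem _ hg'), h g (List.mem_cons_self ..)]
    simp

end vol

section zig

variable {Q : Type} [Group Q] (A y : Q)

/-- The zigzag. -/
def zz (m : ℕ) : Q := if m % 2 = 0 then A ^ (m / 2) else A ^ ((m + 1) / 2) * y

theorem zz_even (l : ℕ) : zz A y (2 * l) = A ^ l := by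
  unfold zz
  rw [if_pos (by omega)]
  congr 1; omega

theorem zz_odd (l : ℕ) : zz A y (2 * l + 1) = A ^ (l + 1) * y := by
  unfold zz
  rw [if_neg (by omega)]
  congr 2; omega

theorem zz_zero : zz A y 0 = 1 := by simpa using zz_even A y 0

theorem zz_tr (s m : ℕ) : A ^ s * zz A y m = zz A y (2 * s + m) := by
  rcases Nat.even_or_odd' m with ⟨l, rfl | rfl⟩
  · rw [zz_even, ← mul_add, zz_even, pow_add]
  · rw [zz_odd, ← add_assoc, ← mul_add, zz_odd, ← mul_assoc, ← pow_add, add_assoc]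

variable {A y}

section steps

variable (h1 : y * A * y⁻¹ = A⁻¹) (h2 : y * y = 1)

include h1 h2

theorem yA : y * A = A⁻¹ * y := by rw [← h1]; group

theorem yAi : y * A⁻¹ = A * y := by
  have : y * A⁻¹ * y⁻¹ = A := by
    have := congrArg (·⁻¹) h1
    simp only [mul_inv_rev, inv_inv] at this
    rw [← mul_assoc] at this
    exact this
  calc y * A⁻¹ = y * A⁻¹ * y⁻¹ * y := by group
    _ = A * y := by rw [this]

theorem y_inv : y⁻¹ = y := inv_eq_of_mul_eq_one_right h2

theorem st_even (s : ℕ) : zz A y (2 * s) * A = zz A y (2 * s + 2) := by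
  rw [show 2 * s + 2 = 2 * (s + 1) by ring, zz_even, zz_even, pow_succ]

theorem st_even_inv (s : ℕ) : zz A y (2 * s + 2) * A⁻¹ = zz A y (2 * s) := by
  rw [← st_even h1 h2 s, mul_inv_cancel_right]

theorem st_odd_inv (s : ℕ) : zz A y (2 * s + 1) * A⁻¹ = zz A y (2 * s + 3) := by
  rw [show 2 * s + 3 = 2 * (s + 1) + 1 by ring, zz_odd, zz_odd, mul_assoc, yAi h1 h2, ← mul_assoc, ← pow_succ]

theorem st_odd (s : ℕ) : zz A y (2 * s + 3) * A = zz A y (2 * s + 1) := by
  rw [← st_odd_inv h1 h2 s, inv_mul_cancel_right]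

theorem st_r1 (s : ℕ) : zz A y (2 * s) * (A * y) = zz A y (2 * s + 1) := by
  rw [zz_even, zz_odd, pow_succ, mul_assoc]

theorem st_r0 (s : ℕ) : zz A y (2 * s + 1) * y = zz A y (2 * s + 2) := by
  rw [show 2 * s + 2 = 2 * (s + 1) by ring, zz_even, zz_odd, mul_assoc, h2, mul_one]

end steps

end zig

section walk

variable {Q : Type} [Group Q] {B : Lb.{0, 0} Q} {A y : Q}

theorem rep (f : ℕ → ℕ) (g : B.L) (h : ℕ) (hf : ∀ j < h, zz A y (f j) * B.q g = zz A y (f (j + 1))) :
    src B (zz A y (f 0)) (List.replicate h g) = (List.range h).map (fun j => zz A y (f j)) ∧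
      B.fin (zz A y (f 0)) (List.replicate h g) = zz A y (f h) := by
  induction h with
  | zero => exact ⟨rfl, rfl⟩
  | succ h ih =>
    obtain ⟨e1, e2⟩ := ih fun j hj => hf j (by omega)
    rw [List.replicate_succ', src_append, fin_append, e1, e2, List.range_succ, List.map_append]
    refine ⟨rfl, ?_⟩
    show zz A y (f h) * B.q g = _
    exact hf h (by omega)

variable (b₀ b₁ : B.L)

/-- The rungs. -/
def rung (m : ℕ) : B.L := if m % 2 = 0 then b₁ else b₀

/-- The first `r` rungs. -/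
def up (r : ℕ) : List B.L := (List.range r).map (rung b₀ b₁)

theorem up_add (s r : ℕ) : up b₀ b₁ (2 * s + r) = up b₀ b₁ (2 * s) ++ up b₀ b₁ r := by
  unfold up
  rw [List.range_add, List.map_append, List.map_map]
  congr 1
  refine List.map_congr_left fun i _ => ?_
  show rung b₀ b₁ (2 * s + i) = rung b₀ b₁ i
  unfold rung
  have : (2 * s + i) % 2 = i % 2 := by omega
  rw [this]

variable {b₀ b₁}

theorem rung_step (h1 : y * A * y⁻¹ = A⁻¹) (h2 : y * y = 1) (hb0 : B.q b₀ = y) (hb1 : B.q b₁ = A * y) (m : ℕ) :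
    zz A y m * B.q (rung b₀ b₁ m) = zz A y (m + 1) := by
  unfold rung
  rcases Nat.even_or_odd' m with ⟨l, rfl | rfl⟩
  · rw [if_pos (by omega), hb1, st_r1 h1 h2]
  · rw [if_neg (by omega), hb0, st_r0 h1 h2]

theorem up_walk (h1 : y * A * y⁻¹ = A⁻¹) (h2 : y * y = 1) (hb0 : B.q b₀ = y) (hb1 : B.q b₁ = A * y) (s r : ℕ) :
    src B (zz A y (2 * s)) (up b₀ b₁ r) = (List.range r).map (fun i => zz A y (2 * s + i)) ∧
      B.fin (zz A y (2 * s)) (up b₀ b₁ r) = zz A y (2 * s + r) := by
  induction r with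
  | zero => exact ⟨rfl, rfl⟩
  | succ r ih =>
    obtain ⟨e1, e2⟩ := ih
    have e3 : up b₀ b₁ (r + 1) = up b₀ b₁ r ++ [rung b₀ b₁ r] := by
      unfold up; rw [List.range_succ, List.map_append]; rfl
    rw [e3, src_append, fin_append, e1, e2, List.range_succ, List.map_append]
    refine ⟨rfl, ?_⟩
    show zz A y (2 * s + r) * B.q (rung b₀ b₁ r) = _
    have e4 : rung b₀ b₁ r = rung b₀ b₁ (2 * s + r) := by
      unfold rung
      have : (2 * s + r) % 2 = r % 2 := by omega
      rw [this]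
    rw [e4, rung_step h1 h2 hb0 hb1]
    rfl

variable (B A y)

/-- A piece: a path from `z_0` to `z_(2 s)` through all vertices between. -/
structure Pc where
  l : List B.L
  s : ℕ
  fin : B.fin 1 l = A ^ s
  perm : (src B 1 l).Perm ((List.range (2 * s)).map (zz A y))

variable {B A y} (b₀ b₁)

/-- Pieces with rungs between. -/
def wk (L : ℕ) (bl : List (Pc B A y)) : List B.L := bl.flatMap fun P => P.l ++ up b₀ b₁ (2 * (L - P.s))

variable {b₀ b₁}

theorem wk_walk (h1 : y * A * y⁻¹ = A⁻¹) (h2 : y * y = 1) (hb0 : B.q b₀ = y) (hb1 : B.q b₁ = A * y) (L : ℕ)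
    (bl : List (Pc B A y)) (hs : ∀ P ∈ bl, P.s ≤ L) (n : ℕ) (hn : 2 * L * bl.length ≤ n) :
    (src B 1 (wk b₀ b₁ L bl ++ up b₀ b₁ (n - 2 * L * bl.length))).Perm ((List.range n).map (zz A y)) ∧
      B.fin 1 (wk b₀ b₁ L bl ++ up b₀ b₁ (n - 2 * L * bl.length)) = zz A y n ∧
      ∀ (R : Type) [CommRing R] (V : Vd B R), V.chi A ^ L = 1 →
        V.vol 1 (wk b₀ b₁ L bl ++ up b₀ b₁ (n - 2 * L * bl.length)) = V.vol 1 (up b₀ b₁ n) +
          (bl.map fun P => V.vol 1 P.l - V.vol 1 (up b₀ b₁ (2 * P.s))).sum := by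
  induction bl generalizing n with
  | nil =>
    have e := up_walk (B := B) h1 h2 hb0 hb1 0 n
    rw [show 2 * 0 = 0 by rfl, zz_zero] at e
    simp only [wk, List.flatMap_nil, List.nil_append, List.length_nil, mul_zero, Nat.sub_zero, List.map_nil,
      List.sum_nil, add_zero]
    refine ⟨?_, ?_, fun R _ V _ => trivial⟩
    · rw [e.1]; simp
    · rw [e.2, zero_add]
  | cons P bl ih =>
    have hP := hs P (List.mem_cons_self ..)
    rw [List.length_cons, Nat.mul_succ] at hn
    obtain ⟨i1, i2, i3⟩ := ih (fun P' hP' => hs P' (List.mem_cons_of_mem _ hP')) (n - 2 * L) (by omega)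
    have en : n - 2 * L - 2 * L * bl.length = n - 2 * L * (P :: bl).length := by
      rw [List.length_cons, Nat.mul_succ]; omega
    rw [en] at i1 i2 i3
    have ew : wk b₀ b₁ L (P :: bl) ++ up b₀ b₁ (n - 2 * L * (P :: bl).length) =
        P.l ++ (up b₀ b₁ (2 * (L - P.s)) ++ (wk b₀ b₁ L bl ++ up b₀ b₁ (n - 2 * L * (P :: bl).length))) := by
      show (P.l ++ up b₀ b₁ (2 * (L - P.s)) ++ wk b₀ b₁ L bl) ++ _ = _
      simp only [List.append_assoc]
    rw [ew]
    set W := wk b₀ b₁ L bl ++ up b₀ b₁ (n - 2 * L * (P :: bl).length) with hW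
    obtain ⟨u1, u2⟩ := up_walk (B := B) h1 h2 hb0 hb1 P.s (2 * (L - P.s))
    rw [zz_even] at u1 u2
    have eL : 2 * P.s + 2 * (L - P.s) = 2 * L := by omega
    rw [eL, zz_even] at u2
    refine ⟨?_, ?_, ?_⟩
    · rw [src_append, P.fin, src_append, u1, u2]
      have e1 : src B (A ^ L) W = (src B 1 W).map (A ^ L * ·) := by
        have := src_tr (B := B) (A ^ L) 1 W
        rwa [mul_one] at this
      rw [e1]
      have e2 : (List.range n).map (zz A y) = (List.range (2 * P.s)).map (zz A y) ++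
          ((List.range (2 * (L - P.s))).map (fun i => zz A y (2 * P.s + i)) ++
            ((List.range (n - 2 * L)).map (zz A y)).map (A ^ L * ·)) := by
        have hn' : n = 2 * P.s + (2 * (L - P.s) + (n - 2 * L)) := by omega
        conv_lhs => rw [hn']
        rw [List.range_add, List.map_append, List.range_add, List.map_append, List.map_append, List.map_map,
          List.map_map, List.map_map, List.map_map]
        congr 2
        refine List.map_congr_left fun i _ => ?_
        show zz A y (2 * P.s + (2 * (L - P.s) + i)) = A ^ L * zz A y i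
        rw [zz_tr, ← add_assoc, eL]
      rw [e2]
      exact P.perm.append (List.Perm.append (List.Perm.refl _) (i1.map _))
    · rw [fin_append, P.fin, fin_append, u2]
      have := fin_tr (B := B) (A ^ L) 1 W
      rw [mul_one] at this
      rw [this, i2, zz_tr]
      congr 1; omega
    · intro R _ V hV
      have hV' : V.chi (A ^ L) = 1 := by rw [map_pow, hV]
      have hn' : n = 2 * P.s + (2 * (L - P.s) + (n - 2 * L)) := by omega
      have e5 : up b₀ b₁ n = up b₀ b₁ (2 * P.s) ++ (up b₀ b₁ (2 * (L - P.s)) ++ up b₀ b₁ (n - 2 * L)) := by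
        conv_lhs => rw [hn']
        rw [up_add, up_add]
      have u0 := up_walk (B := B) h1 h2 hb0 hb1 0 (2 * P.s)
      rw [show 2 * 0 = 0 by rfl, zz_zero, zero_add, zz_even] at u0
      rw [vol_append, P.fin, vol_append, u2, vol_eq_tr V (A ^ L) W, hV', one_mul, i3 R V hV, e5, vol_append, u0.2,
        vol_append, u2, vol_eq_tr V (A ^ L) (up b₀ b₁ (n - 2 * L)), hV', one_mul, List.map_cons, List.sum_cons]
      ring

end walk

section pieces

variable {Q : Type} [Group Q] {B : Lb.{0, 0} Q} {a b₀ b₁ : B.L}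

theorem perm_idx {I : List ℕ} {n : ℕ} (hI : I.Nodup) (hm : ∀ x, x ∈ I ↔ x < n) (f : ℕ → Q) :
    (I.map f).Perm ((List.range n).map f) :=
  ((List.perm_ext_iff_of_nodup hI List.nodup_range).2 (by simpa using hm)).map f

/-- The label `t` from `z_0` to `z_(2 h + 1)`, down, one rung, up. -/
theorem pcE0 (h1 : B.q b₀ * B.q a * (B.q b₀)⁻¹ = (B.q a)⁻¹) (h2 : B.q b₀ * B.q b₀ = 1) (t : B.L) (h : ℕ)
    (ht : B.q t = zz (B.q a) (B.q b₀) (2 * h + 1)) :
    ∃ P : Pc B (B.q a) (B.q b₀), P.s = h + 1 ∧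
      P.l = t :: (List.replicate h a ++ (b₀ :: List.replicate h a)) := by
  set A := B.q a with hA
  set y := B.q b₀ with hy
  have e1 := rep (B := B) (A := A) (y := y) (fun j => 2 * h + 1 - 2 * j) a h (by
    intro j hj
    show zz A y (2 * h + 1 - 2 * j) * B.q a = zz A y (2 * h + 1 - 2 * (j + 1))
    rw [← hA, show 2 * h + 1 - 2 * j = 2 * (h - 1 - j) + 3 by omega,
      show 2 * h + 1 - 2 * (j + 1) = 2 * (h - 1 - j) + 1 by omega]
    exact st_odd h1 h2 (h - 1 - j))
  have e2 := rep (B := B) (A := A) (y := y) (fun j => 2 + 2 * j) a h (by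
    intro j hj
    show zz A y (2 + 2 * j) * B.q a = zz A y (2 + 2 * (j + 1))
    rw [← hA, show 2 + 2 * j = 2 * (1 + j) by ring, show 2 + 2 * (j + 1) = 2 * (1 + j) + 2 by ring]
    exact st_even h1 h2 (1 + j))
  simp only [mul_zero, Nat.sub_zero, Nat.add_zero] at e1 e2
  have e3 : 2 * h + 1 - 2 * h = 1 := by omega
  rw [e3] at e1
  have e4 : zz A y 1 * B.q b₀ = zz A y 2 := st_r0 h1 h2 0
  refine ⟨⟨t :: (List.replicate h a ++ (b₀ :: List.replicate h a)), h + 1, ?_, ?_⟩, rfl, rfl⟩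
  · show B.fin (1 * B.q t) _ = _
    rw [one_mul, ht, fin_append, e1.2]
    show B.fin (zz A y 1 * B.q b₀) _ = _
    rw [e4, e2.2, show 2 + 2 * h = 2 * (h + 1) by ring, zz_even]
  · show (1 :: src B (1 * B.q t) _).Perm _
    rw [one_mul, ht, src_append, e1.1, e1.2]
    have e5 : src B (zz A y 1) (b₀ :: List.replicate h a) = zz A y 1 :: (List.range h).map (fun j => zz A y (2 + 2 * j)) := by
      show zz A y 1 :: src B (zz A y 1 * B.q b₀) _ = _
      rw [e4, e2.1]
    rw [e5]
    have e6 : (1 :: ((List.range h).map (fun j => zz A y (2 * h + 1 - 2 * j)) ++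
        zz A y 1 :: (List.range h).map (fun j => zz A y (2 + 2 * j)))) =
        (0 :: ((List.range h).map (fun j => 2 * h + 1 - 2 * j) ++ 1 :: (List.range h).map (fun j => 2 + 2 * j))).map
          (zz A y) := by
      simp [zz_zero, Function.comp_def]
    rw [e6]
    refine perm_idx ?_ ?_ _
    · rw [List.nodup_cons, List.nodup_append, List.nodup_cons]
      refine ⟨?_, ?_, ⟨?_, ?_⟩, ?_⟩
      · simp only [List.mem_append, List.mem_map, List.mem_range, List.mem_cons]; rintro (⟨j, hj, e⟩ | e | ⟨j, hj, e⟩) <;> omega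
      · refine (List.nodup_map_iff_inj_on List.nodup_range).2 ?_
        intro x hx x' hx' e
        rw [List.mem_range] at hx hx'; omega
      · simp only [List.mem_map, List.mem_range]; rintro ⟨j, hj, e⟩; omega
      · refine (List.nodup_map_iff_inj_on List.nodup_range).2 ?_
        intro x hx x' hx' e
        rw [List.mem_range] at hx hx'; omega
      · intro x hx x' hx'
        simp only [List.mem_map, List.mem_range, List.mem_cons] at hx hx'
        obtain ⟨j, hj, e⟩ := hx
        rcases hx' with e' | ⟨j', hj', e'⟩ <;> omega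
    · intro x
      simp only [List.mem_append, List.mem_map, List.mem_range, List.mem_cons]
      constructor
      · rintro (e | ⟨j, hj, e⟩ | e | ⟨j, hj, e⟩) <;> omega
      · intro hx
        by_cases hx0 : x = 0
        · exact Or.inl hx0
        by_cases hx1 : x = 1
        · exact Or.inr (Or.inr (Or.inl hx1))
        rcases Nat.even_or_odd' x with ⟨l, hl | hl⟩
        · exact Or.inr (Or.inr (Or.inr ⟨l - 1, by omega, by omega⟩))
        · exact Or.inr (Or.inl ⟨h - l, by omega, by omega⟩)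

/-- The label `t` from `z_1` to `z_(2 h + 2)`, down, one rung, up. -/
theorem pcE1 (h1 : B.q b₀ * B.q a * (B.q b₀)⁻¹ = (B.q a)⁻¹) (h2 : B.q b₀ * B.q b₀ = 1)
    (hb1 : B.q b₁ = B.q a * B.q b₀) (t : B.L) (h : ℕ)
    (ht : zz (B.q a) (B.q b₀) 1 * B.q t = zz (B.q a) (B.q b₀) (2 * h + 2)) :
    ∃ P : Pc B (B.q a) (B.q b₀), P.s = h + 2 ∧
      P.l = b₁ :: t :: (List.replicate h (B.inv a) ++ (b₁ :: (List.replicate h (B.inv a) ++ [b₀]))) := by
  set A := B.q a with hA
  set y := B.q b₀ with hy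
  have e1 := rep (B := B) (A := A) (y := y) (fun j => 2 * h + 2 - 2 * j) (B.inv a) h (by
    intro j hj
    show zz A y (2 * h + 2 - 2 * j) * B.q (B.inv a) = zz A y (2 * h + 2 - 2 * (j + 1))
    rw [B.q_inv, ← hA, show 2 * h + 2 - 2 * j = 2 * (h - j) + 2 by omega,
      show 2 * h + 2 - 2 * (j + 1) = 2 * (h - j) by omega]
    exact st_even_inv h1 h2 (h - j))
  have e2 := rep (B := B) (A := A) (y := y) (fun j => 3 + 2 * j) (B.inv a) h (by
    intro j hj
    show zz A y (3 + 2 * j) * B.q (B.inv a) = zz A y (3 + 2 * (j + 1))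
    rw [B.q_inv, ← hA, show 3 + 2 * j = 2 * (1 + j) + 1 by ring, show 3 + 2 * (j + 1) = 2 * (1 + j) + 3 by ring]
    exact st_odd_inv h1 h2 (1 + j))
  simp only [mul_zero, Nat.sub_zero, Nat.add_zero] at e1 e2
  have e3 : 2 * h + 2 - 2 * h = 2 := by omega
  rw [e3] at e1
  have e0 : zz A y 0 * B.q b₁ = zz A y 1 := by rw [hb1]; exact st_r1 h1 h2 0
  rw [zz_zero] at e0
  have e4 : zz A y 2 * B.q b₁ = zz A y 3 := by rw [hb1]; exact st_r1 h1 h2 1
  have e7 : zz A y (3 + 2 * h) * B.q b₀ = zz A y (2 * (h + 2)) := by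
    rw [show 3 + 2 * h = 2 * (1 + h) + 1 by ring, show 2 * (h + 2) = 2 * (1 + h) + 2 by ring]
    exact st_r0 h1 h2 (1 + h)
  refine ⟨⟨b₁ :: t :: (List.replicate h (B.inv a) ++ (b₁ :: (List.replicate h (B.inv a) ++ [b₀]))), h + 2, ?_, ?_⟩,
    rfl, rfl⟩
  · show B.fin (1 * B.q b₁ * B.q t) _ = _
    rw [e0, ht, fin_append, e1.2]
    show B.fin (zz A y 2 * B.q b₁) _ = _
    rw [e4, fin_append, e2.2]
    show zz A y (3 + 2 * h) * B.q b₀ = _
    rw [e7, zz_even]
  · show (1 :: (1 * B.q b₁) :: src B (1 * B.q b₁ * B.q t) _).Perm _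
    rw [e0, ht, src_append, e1.1, e1.2]
    have e5 : src B (zz A y 2) (b₁ :: (List.replicate h (B.inv a) ++ [b₀])) =
        zz A y 2 :: ((List.range h).map (fun j => zz A y (3 + 2 * j)) ++ [zz A y (3 + 2 * h)]) := by
      show zz A y 2 :: src B (zz A y 2 * B.q b₁) _ = _
      rw [e4, src_append, e2.1, e2.2]
      rfl
    rw [e5]
    have e6 : (1 :: zz A y 1 :: ((List.range h).map (fun j => zz A y (2 * h + 2 - 2 * j)) ++
        zz A y 2 :: ((List.range h).map (fun j => zz A y (3 + 2 * j)) ++ [zz A y (3 + 2 * h)]))) =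
        (0 :: 1 :: ((List.range h).map (fun j => 2 * h + 2 - 2 * j) ++
          2 :: ((List.range h).map (fun j => 3 + 2 * j) ++ [3 + 2 * h]))).map (zz A y) := by
      simp [zz_zero, Function.comp_def]
    rw [e6]
    refine perm_idx ?_ ?_ _
    · rw [List.nodup_cons, List.nodup_cons, List.nodup_append, List.nodup_cons, List.nodup_append]
      refine ⟨?_, ?_, ?_, ⟨?_, ?_, ?_, ?_⟩, ?_⟩
      · simp only [List.mem_append, List.mem_map, List.mem_range, List.mem_cons, List.not_mem_nil, or_false]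
        rintro (e | ⟨j, hj, e⟩ | e | ⟨j, hj, e⟩ | e) <;> omega
      · simp only [List.mem_append, List.mem_map, List.mem_range, List.mem_cons, List.not_mem_nil, or_false]
        rintro (⟨j, hj, e⟩ | e | ⟨j, hj, e⟩ | e) <;> omega
      · refine (List.nodup_map_iff_inj_on List.nodup_range).2 ?_
        intro x hx x' hx' e
        rw [List.mem_range] at hx hx'; omega
      · simp only [List.mem_append, List.mem_map, List.mem_range, List.mem_cons, List.not_mem_nil, or_false]
        rintro (⟨j, hj, e⟩ | e) <;> omega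
      · refine (List.nodup_map_iff_inj_on List.nodup_range).2 ?_
        intro x hx x' hx' e
        rw [List.mem_range] at hx hx'; omega
      · exact List.nodup_singleton _
      · intro x hx x' hx'
        simp only [List.mem_map, List.mem_range, List.mem_cons, List.not_mem_nil, or_false] at hx hx'
        obtain ⟨j, hj, e⟩ := hx
        omega
      · intro x hx x' hx'
        simp only [List.mem_append, List.mem_map, List.mem_range, List.mem_cons, List.not_mem_nil, or_false] at hx hx'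
        obtain ⟨j, hj, e⟩ := hx
        rcases hx' with e' | ⟨j', hj', e'⟩ | e' <;> omega
    · intro x
      simp only [List.mem_append, List.mem_map, List.mem_range, List.mem_cons, List.not_mem_nil, or_false]
      constructor
      · rintro (e | e | ⟨j, hj, e⟩ | e | ⟨j, hj, e⟩ | e) <;> omega
      · intro hx
        by_cases hx0 : x = 0
        · exact Or.inl hx0
        by_cases hx1 : x = 1
        · exact Or.inr (Or.inl hx1)
        by_cases hx2 : x = 2
        · exact Or.inr (Or.inr (Or.inr (Or.inl hx2)))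
        by_cases hx3 : x = 3 + 2 * h
        · exact Or.inr (Or.inr (Or.inr (Or.inr (Or.inr hx3))))
        rcases Nat.even_or_odd' x with ⟨l, hl | hl⟩
        · exact Or.inr (Or.inr (Or.inl ⟨h + 1 - l, by omega, by omega⟩))
        · exact Or.inr (Or.inr (Or.inr (Or.inr (Or.inl ⟨l - 1, by omega, by omega⟩))))

/-- `z_0, z_2, z_1, z_3, z_4`. -/
theorem pcF0 (h1 : B.q b₀ * B.q a * (B.q b₀)⁻¹ = (B.q a)⁻¹) (h2 : B.q b₀ * B.q b₀ = 1) (g : B.L)
    (hg : B.q g = B.q a) :
    ∃ P : Pc B (B.q a) (B.q b₀), P.s = 2 ∧ P.l = [g, B.inv b₀, B.inv a, b₀] := by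
  set A := B.q a with hA
  set y := B.q b₀ with hy
  have e1 : 1 * B.q g = zz A y 2 := by rw [hg, ← zz_zero A y]; exact st_even h1 h2 0
  have e2 : zz A y 2 * B.q (B.inv b₀) = zz A y 1 := by
    rw [B.q_inv, ← hy, ← st_r0 h1 h2 0, mul_inv_cancel_right]
  have e3 : zz A y 1 * B.q (B.inv a) = zz A y 3 := by
    rw [B.q_inv, ← hA]; exact st_odd_inv h1 h2 0
  have e4 : zz A y 3 * B.q b₀ = zz A y 4 := st_r0 h1 h2 1
  refine ⟨⟨[g, B.inv b₀, B.inv a, b₀], 2, ?_, ?_⟩, rfl, rfl⟩
  · show 1 * B.q g * B.q (B.inv b₀) * B.q (B.inv a) * B.q b₀ = _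
    rw [e1, e2, e3, e4]; exact zz_even A y 2
  · show [1, 1 * B.q g, 1 * B.q g * B.q (B.inv b₀), 1 * B.q g * B.q (B.inv b₀) * B.q (B.inv a)].Perm _
    rw [e1, e2, e3]
    have e6 : [1, zz A y 2, zz A y 1, zz A y 3] = [0, 2, 1, 3].map (zz A y) := by simp [zz_zero]
    rw [e6]
    exact perm_idx (by decide) (by intro x; simp; omega) _

/-- `z_0, z_1, z_3, z_2, z_4`. -/
theorem pcF1 (h1 : B.q b₀ * B.q a * (B.q b₀)⁻¹ = (B.q a)⁻¹) (h2 : B.q b₀ * B.q b₀ = 1)
    (hb1 : B.q b₁ = B.q a * B.q b₀) :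
    ∃ P : Pc B (B.q a) (B.q b₀), P.s = 2 ∧ P.l = [b₁, B.inv a, B.inv b₁, a] := by
  set A := B.q a with hA
  set y := B.q b₀ with hy
  have e1 : 1 * B.q b₁ = zz A y 1 := by rw [hb1, ← zz_zero A y]; exact st_r1 h1 h2 0
  have e2 : zz A y 1 * B.q (B.inv a) = zz A y 3 := by
    rw [B.q_inv, ← hA]; exact st_odd_inv h1 h2 0
  have e3 : zz A y 3 * B.q (B.inv b₁) = zz A y 2 := by
    have : zz A y 2 * B.q b₁ = zz A y 3 := by rw [hb1]; exact st_r1 h1 h2 1
    rw [B.q_inv, ← this, mul_inv_cancel_right]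
  have e4 : zz A y 2 * B.q a = zz A y 4 := st_even h1 h2 1
  refine ⟨⟨[b₁, B.inv a, B.inv b₁, a], 2, ?_, ?_⟩, rfl, rfl⟩
  · show 1 * B.q b₁ * B.q (B.inv a) * B.q (B.inv b₁) * B.q a = _
    rw [e1, e2, e3, e4]; exact zz_even A y 2
  · show [1, 1 * B.q b₁, 1 * B.q b₁ * B.q (B.inv a), 1 * B.q b₁ * B.q (B.inv a) * B.q (B.inv b₁)].Perm _
    rw [e1, e2, e3]
    have e6 : [1, zz A y 1, zz A y 3, zz A y 2] = [0, 1, 3, 2].map (zz A y) := by simp [zz_zero]
    rw [e6]
    exact perm_idx (by decide) (by intro x; simp; omega) _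

end pieces

section cls

variable {Q : Type} [Group Q] {B : Lb.{0, 0} Q} {a b₀ b₁ : B.L} {F : Type} [Field F] (V : Vd B F)

theorem chi_inv_mul (x : Q) : V.chi x⁻¹ * V.chi x = 1 := by rw [← map_mul, inv_mul_cancel, map_one]

theorem n_inv_zero {g : B.L} (h : V.n g = 0) : V.n (B.inv g) = 0 := by rw [V.n_inv, h]; simp

theorem chi_ne (x : Q) : V.chi x ≠ 0 := fun h => by
  have := chi_inv_mul V x
  rw [h, mul_zero] at this
  exact zero_ne_one this

theorem n_inv_ne {g : B.L} (h : V.n g ≠ 0) : V.n (B.inv g) ≠ 0 := by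
  rw [V.n_inv]
  exact neg_ne_zero.2 (mul_ne_zero (chi_ne V _) h)

theorem up_two (b₀ b₁ : B.L) : up b₀ b₁ (2 * 1) = [b₁, b₀] := rfl

theorem up_four (b₀ b₁ : B.L) : up b₀ b₁ (2 * 2) = [b₁, b₀, b₁, b₀] := rfl

theorem up_vol_zero (h0 : V.n b₀ = 0) (h1 : V.n b₁ = 0) (r : ℕ) : V.vol 1 (up b₀ b₁ r) = 0 := by
  refine vol_zero V 1 _ ?_
  intro g hg
  unfold up at hg
  rw [List.mem_map] at hg
  obtain ⟨i, -, rfl⟩ := hg
  unfold rung
  split_ifs <;> assumption

theorem class1 (h1 : B.q b₀ * B.q a * (B.q b₀)⁻¹ = (B.q a)⁻¹) (h2 : B.q b₀ * B.q b₀ = 1)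
    (hb1 : B.q b₁ = B.q a * B.q b₀) (c : ℕ)
    (hlab : ∀ b, B.q b = B.q a ∨ B.q b = (B.q a)⁻¹ ∨ ∃ i : ℤ, |i| ≤ c ∧ B.q b = B.q a ^ i * B.q b₀)
    (hα : V.chi (B.q a) ≠ 1) (htwo : (2 : F) ≠ 0) (hna : V.n a = 0) (hb : ∃ b, V.n b ≠ 0) :
    ∃ P : Pc B (B.q a) (B.q b₀), P.s ≤ c + 2 ∧ V.vol 1 P.l - V.vol 1 (up b₀ b₁ (2 * P.s)) ≠ 0 := by
  have hα1 : V.chi (B.q a) = -1 := by
    have e : V.chi (B.q a) = V.chi (B.q a)⁻¹ := by
      rw [← h1, map_mul, map_mul, mul_comm (V.chi (B.q b₀)), mul_assoc, mul_comm (V.chi (B.q b₀)),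
        chi_inv_mul, mul_one]
    have e2 : V.chi (B.q a) * V.chi (B.q a) = 1 := by
      nth_rw 1 [e]; exact chi_inv_mul V _
    rcases mul_self_eq_one_iff.1 e2 with h | h
    · exact absurd h hα
    · exact h
  have hη : V.chi (B.q b₀) * V.chi (B.q b₀) = 1 := by rw [← map_mul, h2, map_one]
  have hηi : V.chi (B.q b₀)⁻¹ = V.chi (B.q b₀) := by rw [inv_eq_of_mul_eq_one_right h2]
  have hnai : V.n (B.inv a) = 0 := n_inv_zero V hna
  have hηne : V.chi (B.q b₀) ≠ 0 := chi_ne V _
  -- the rungs `b₀`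
  have hF0 : ∀ g, B.q g = B.q a → V.vol 1 [g, B.inv b₀, B.inv a, b₀] - V.vol 1 (up b₀ b₁ (2 * 2)) =
      V.n g + 2 * V.chi (B.q b₀) * V.n b₀ := by
    intro g hg
    rw [up_four]
    simp only [Vd.vol, map_mul, B.q_inv, hb1, hg, one_mul, map_one, hα1, hηi, hnai, V.n_inv b₀]
    have e1 : V.chi (B.q a)⁻¹ = -1 := by
      have := chi_inv_mul V (B.q a)
      rw [hα1] at this
      linear_combination -this
    simp only [e1]
    linear_combination (V.n b₁ - V.chi (B.q b₀) * V.n b₀) * hη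
  by_cases hn0 : V.n b₀ = 0
  swap
  · obtain ⟨P, hs, hl⟩ := pcF0 h1 h2 a rfl
    refine ⟨P, by omega, ?_⟩
    rw [hl, hs, hF0 a rfl, hna, zero_add]
    exact mul_ne_zero (mul_ne_zero htwo hηne) hn0
  by_cases hn1 : V.n b₁ = 0
  swap
  · obtain ⟨P, hs, hl⟩ := pcF1 h1 h2 hb1
    refine ⟨P, by omega, ?_⟩
    rw [hl, hs]
    have e1 : V.chi (B.q a)⁻¹ = -1 := by
      have := chi_inv_mul V (B.q a)
      rw [hα1] at this
      linear_combination -this
    have e : V.vol 1 [b₁, B.inv a, B.inv b₁, a] - V.vol 1 (up b₀ b₁ (2 * 2)) = 2 * V.n b₁ := by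
      rw [up_four]
      simp only [Vd.vol, map_mul, B.q_inv, hb1, one_mul, map_one, hα1, hηi, hnai, V.n_inv b₁, mul_inv_rev, hna, hn0, e1]
      linear_combination (2 * V.n b₁) * hη
    rw [e]
    exact mul_ne_zero htwo hn1
  obtain ⟨b, hb⟩ := hb
  rcases hlab b with h | h | ⟨i, hi, h⟩
  · obtain ⟨P, hs, hl⟩ := pcF0 h1 h2 b h
    refine ⟨P, by omega, ?_⟩
    rw [hl, hs, hF0 b h, hn0, mul_zero, add_zero]
    exact hb
  · have h' : B.q (B.inv b) = B.q a := by rw [B.q_inv, h, inv_inv]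
    obtain ⟨P, hs, hl⟩ := pcF0 h1 h2 (B.inv b) h'
    refine ⟨P, by omega, ?_⟩
    rw [hl, hs, hF0 _ h', hn0, mul_zero, add_zero]
    exact n_inv_ne V hb
  · rw [abs_le] at hi
    by_cases hpos : 1 ≤ i
    · obtain ⟨h', rfl⟩ : ∃ h' : ℕ, i = h' + 1 := ⟨(i - 1).toNat, by omega⟩
      have ht : B.q b = zz (B.q a) (B.q b₀) (2 * h' + 1) := by
        rw [zz_odd, h]
        norm_cast
      obtain ⟨P, hs, hl⟩ := pcE0 h1 h2 b h' ht
      refine ⟨P, by omega, ?_⟩
      rw [hl, up_vol_zero V hn0 hn1, sub_zero]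
      show V.chi 1 * V.n b + V.vol _ _ ≠ 0
      rw [map_one, one_mul, vol_zero V _ _, add_zero]
      · exact hb
      · intro g hg
        rw [List.mem_append, List.mem_cons] at hg
        rcases hg with hg | rfl | hg
        · rw [List.eq_of_mem_replicate hg]; exact hna
        · exact hn0
        · rw [List.eq_of_mem_replicate hg]; exact hna
    · obtain ⟨h', rfl⟩ : ∃ h' : ℕ, i = -(h' : ℤ) := ⟨(-i).toNat, by omega⟩
      have ht : zz (B.q a) (B.q b₀) 1 * B.q (B.inv b) = zz (B.q a) (B.q b₀) (2 * h' + 2) := by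
        rw [B.q_inv, h, show 2 * h' + 2 = 2 * (h' + 1) by ring, zz_even, show (1 : ℕ) = 2 * 0 + 1 by rfl, zz_odd,
          zpow_neg, zpow_natCast]
        rw [show ((B.q a ^ h')⁻¹ * B.q b₀)⁻¹ = (B.q b₀)⁻¹ * B.q a ^ h' by group, zero_add, pow_one]
        rw [show B.q a * B.q b₀ * ((B.q b₀)⁻¹ * B.q a ^ h') = B.q a * B.q a ^ h' by group, ← pow_succ']
      obtain ⟨P, hs, hl⟩ := pcE1 h1 h2 hb1 (B.inv b) h' ht
      refine ⟨P, by omega, ?_⟩
      rw [hl, up_vol_zero V hn0 hn1, sub_zero]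
      show V.chi 1 * V.n b₁ + (V.chi (1 * B.q b₁) * V.n (B.inv b) + V.vol _ _) ≠ 0
      rw [hn1, mul_zero, zero_add, vol_zero V _ _, add_zero]
      · exact mul_ne_zero (chi_ne V _) (n_inv_ne V hb)
      · intro g hg
        rw [List.mem_append, List.mem_cons, List.mem_append, List.mem_singleton] at hg
        rcases hg with hg | rfl | hg | rfl
        · rw [List.eq_of_mem_replicate hg]; exact hnai
        · exact hn1
        · rw [List.eq_of_mem_replicate hg]; exact hnai
        · exact hn0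

theorem class2 (h1 : B.q b₀ * B.q a * (B.q b₀)⁻¹ = (B.q a)⁻¹) (h2 : B.q b₀ * B.q b₀ = 1)
    (hb1 : B.q b₁ = B.q a * B.q b₀) (hα : V.chi (B.q a) = 1) (hη : V.chi (B.q b₀) = 1) (htwo : (2 : F) ≠ 0)
    (hn : V.n b₀ ≠ 0 ∨ V.n b₁ ≠ 0) :
    ∃ P : Pc B (B.q a) (B.q b₀), P.s ≤ 2 ∧ V.vol 1 P.l - V.vol 1 (up b₀ b₁ (2 * P.s)) ≠ 0 := by
  have hη' : V.chi (B.q b₀)⁻¹ = 1 := by rw [inv_eq_of_mul_eq_one_right h2, hη]
  have hα' : V.chi (B.q a)⁻¹ = 1 := by
    have := chi_inv_mul V (B.q a)
    rwa [hα, mul_one] at this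
  rcases hn with hn | hn
  · have ht : zz (B.q a) (B.q b₀) 1 * B.q (B.inv b₀) = zz (B.q a) (B.q b₀) (2 * 0 + 2) := by
      rw [B.q_inv, inv_eq_of_mul_eq_one_right h2]
      exact st_r0 h1 h2 0
    obtain ⟨P, hs, hl⟩ := pcE1 h1 h2 hb1 (B.inv b₀) 0 ht
    refine ⟨P, by omega, ?_⟩
    rw [hl, hs]
    have e : V.vol 1 (b₁ :: B.inv b₀ :: (List.replicate 0 (B.inv a) ++ (b₁ :: (List.replicate 0 (B.inv a) ++ [b₀])))) -
        V.vol 1 (up b₀ b₁ (2 * (0 + 2))) = - (2 * V.n b₀) := by
      rw [show 2 * (0 + 2) = 2 * 2 by rfl, up_four]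
      simp only [List.replicate_zero, List.nil_append, Vd.vol, map_mul, B.q_inv, hb1, one_mul, map_one, hα, hη, hη',
        V.n_inv b₀]
      ring
    rw [e]
    exact neg_ne_zero.2 (mul_ne_zero htwo hn)
  · have ht : B.q (B.inv b₁) = zz (B.q a) (B.q b₀) (2 * 0 + 1) := by
      rw [B.q_inv, zz_odd, hb1, zero_add, pow_one]
      have : (B.q a * B.q b₀) * (B.q a * B.q b₀) = 1 := by
        calc (B.q a * B.q b₀) * (B.q a * B.q b₀) = B.q a * (B.q b₀ * B.q a * (B.q b₀)⁻¹) * (B.q b₀ * B.q b₀) := by group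
          _ = 1 := by rw [h1, h2]; group
      exact inv_eq_of_mul_eq_one_right this
    obtain ⟨P, hs, hl⟩ := pcE0 h1 h2 (B.inv b₁) 0 ht
    refine ⟨P, by omega, ?_⟩
    rw [hl, hs]
    have e : V.vol 1 (B.inv b₁ :: (List.replicate 0 a ++ (b₀ :: List.replicate 0 a))) -
        V.vol 1 (up b₀ b₁ (2 * (0 + 1))) = - (2 * V.n b₁) := by
      rw [show 2 * (0 + 1) = 2 * 1 by rfl, up_two]
      simp only [List.replicate_zero, List.nil_append, Vd.vol, map_mul, B.q_inv, hb1, one_mul, map_one, hα, hη, hη', hα',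
        V.n_inv b₁, mul_inv_rev]
      ring
    rw [e]
    exact neg_ne_zero.2 (mul_ne_zero htwo hn)

end cls

end BZ

open BZ in
/-- R2BZ. -/
theorem r2bz (hT : T2S) (hA : ArS) : R2BZS := by
  intro Q _ B m V a b₀ b₁ k c hy h1 h2 hb1 hall hlab hp
  have := hy.fin
  have : NeZero m := ⟨hy.m0⟩
  set A := B.q a with hAdef
  set y := B.q b₀ with hydef
  -- reduction at a prime
  have hrd : ∀ p (hp : p ∈ m.primeFactors) (x : ZMod m),
      rd p x = ZMod.castHom (Nat.dvd_of_mem_primeFactors hp) (ZMod p) x := fun p hp x => by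
    rw [ZMod.castHom_apply]; rfl
  -- the pieces
  have hpc : ∀ p : {p // p ∈ m.primeFactors}, ∃ P : Pc B A y, P.s ≤ c + 2 ∧
      (rd p.1 (V.vol 1 P.l - V.vol 1 (up b₀ b₁ (2 * P.s))) ≠ 0 ∨
        (rd p.1 (V.n a) ≠ 0 ∧ (∀ x, rd p.1 (V.chi x) = 1) ∧ rd p.1 (V.n b₀) = 0 ∧ rd p.1 (V.n b₁) = 0)) := by
    rintro ⟨p, hpm⟩
    haveI : Fact p.Prime := ⟨Nat.prime_of_mem_primeFactors hpm⟩
    have htwo : (2 : ZMod p) ≠ 0 := by
      have h8 := hy.prm p hpm
      intro h0
      have : p ∣ 2 := by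
        rw [← ZMod.natCast_eq_zero_iff]; exact_mod_cast h0
      have := Nat.le_of_dvd (by norm_num) this
      have h4 : 1 ≤ (m.primeFactors.card + 2) ^ 2 := Nat.one_le_iff_ne_zero.2 (by positivity)
      omega
    set f := ZMod.castHom (Nat.dvd_of_mem_primeFactors hpm) (ZMod p) with hf
    have hr : ∀ x : ZMod m, rd p x = f x := hrd p hpm
    rcases hp p hpm with ⟨c1, c2, c3⟩ | ⟨c1, c2, c3⟩
    · obtain ⟨P, hs, hP⟩ := class1 (V.map f) h1 h2 hb1 c hlab
        (by show f (V.chi (B.q a)) ≠ 1; rw [← hr]; exact c1) htwo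
        (by show f (V.n a) = 0; rw [← hr]; exact c2)
        (by obtain ⟨b, hb⟩ := c3; exact ⟨b, by show f (V.n b) ≠ 0; rw [← hr]; exact hb⟩)
      refine ⟨P, hs, Or.inl ?_⟩
      rw [hr, map_sub, ← vol_map, ← vol_map]
      exact hP
    · by_cases hn : rd p (V.n b₀) = 0 ∧ rd p (V.n b₁) = 0
      · refine ⟨⟨[], 0, (pow_zero _).symm, by simp [src]⟩, Nat.zero_le _, Or.inr ⟨c3, ?_, hn.1, hn.2⟩⟩
        have hya : ∀ i : ℤ, f (V.chi (A ^ i)) = 1 := by
          intro i
          have : f (V.chi (A ^ i)) = ((f.toMonoidHom.comp V.chi).toHomUnits (A ^ i) : (ZMod p)ˣ) := rfl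
          rw [this, map_zpow]
          have h0 : (f.toMonoidHom.comp V.chi).toHomUnits A = 1 := by
            ext
            show f (V.chi A) = 1
            rw [← hr]; exact c1
          rw [h0, one_zpow]; rfl
        intro x
        rw [hr]
        rcases hall x with hx | hx
        · obtain ⟨i, rfl⟩ := Subgroup.mem_zpowers_iff.1 hx
          exact hya i
        · obtain ⟨i, hi⟩ := Subgroup.mem_zpowers_iff.1 hx
          have : x = A ^ i * y := by rw [hi]; group
          rw [this, map_mul, map_mul, hya, one_mul, ← hr]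
          exact c2
      · obtain ⟨P, hs, hP⟩ := class2 (V.map f) h1 h2 hb1
          (by show f (V.chi (B.q a)) = 1; rw [← hr]; exact c1)
          (by show f (V.chi (B.q b₀)) = 1; rw [← hr]; exact c2) htwo
          (by
            show f (V.n b₀) ≠ 0 ∨ f (V.n b₁) ≠ 0
            rw [← hr, ← hr]
            by_contra hcon
            push Not at hcon
            exact hn hcon)
        refine ⟨P, by omega, Or.inl ?_⟩
        rw [hr, map_sub, ← vol_map, ← vol_map]
        exact hP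
  choose P hPs hPD using hpc
  set M := orderOf A with hM
  have hcard : Fintype.card m.primeFactors = m.primeFactors.card := Fintype.card_coe _
  have hA1 : ∀ {i j : ℕ}, A ^ i = A ^ j → i % M = j % M := fun h => (pow_inj_mod (x := A)).1 h
  have hbig := hy.big
  rw [← hAdef, ← hM] at hbig
  set ω := m.primeFactors.card with hω
  have hk := hy.k0
  have hMbig : ω * ω * (k * (c + 2)) + 10 ≤ M ∧ 3 ≤ M := by
    have : ω * ω * (k * (c + 2)) + 10 ≤ 1000 * (ω + 2) ^ 2 * k * (c + 10) := by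
      have e1 : ω * ω * (k * (c + 2)) ≤ (ω + 2) ^ 2 * k * (c + 10) := by
        have : ω * ω ≤ (ω + 2) ^ 2 := by nlinarith
        calc ω * ω * (k * (c + 2)) ≤ (ω + 2) ^ 2 * (k * (c + 10)) :=
              Nat.mul_le_mul this (Nat.mul_le_mul_left _ (by omega))
          _ = _ := by ring
      have e2 : 10 ≤ (ω + 2) ^ 2 * k * (c + 10) := by
        have : 1 ≤ (ω + 2) ^ 2 * k := Nat.one_le_iff_ne_zero.2 (by positivity)
        calc 10 ≤ 1 * (c + 10) := by omega
          _ ≤ _ := Nat.mul_le_mul_right _ this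
      nlinarith
    omega
  -- the copies
  set L := k * (c + 2) with hL
  set n := 2 * M - 3 with hn
  set d : Pc B A y → ZMod m := fun P => V.vol 1 P.l - V.vol 1 (up b₀ b₁ (2 * P.s)) with hd
  set base : ZMod m := V.vol (zz A y 1) (b₀ :: b₁ :: b₀ :: up b₀ b₁ n) with hbase
  obtain ⟨j, hj1, hj2⟩ := hA m.primeFactors m.primeFactors (fun c => c.1) (fun c => rd c.1 base)
    (fun i c => rd c.1 (V.chi (zz A y 4) * d (P i))) (fun c => ⟨Nat.prime_of_mem_primeFactors c.2, by
      have := hy.prm c.1 c.2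
      rw [hcard]
      nlinarith⟩)
  set bl : List (Pc B A y) := (Finset.univ : Finset m.primeFactors).toList.flatMap fun i => List.replicate (j i) (P i) with hbl
  have hbls : ∀ P' ∈ bl, P'.s ≤ L := by
    intro P' hP'
    rw [hbl, List.mem_flatMap] at hP'
    obtain ⟨i, -, hi⟩ := hP'
    rw [List.eq_of_mem_replicate hi, hL]
    calc (P i).s ≤ c + 2 := hPs i
      _ = 1 * (c + 2) := (one_mul _).symm
      _ ≤ k * (c + 2) := Nat.mul_le_mul_right _ hk
  have hlen : bl.length ≤ ω * ω := by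
    rw [hbl, List.length_flatMap]
    have e1 : ((Finset.univ : Finset m.primeFactors).toList.map fun i => (List.replicate (j i) (P i)).length).sum =
        ∑ i : m.primeFactors, j i := by
      rw [← Finset.sum_map_toList]
      simp
    have e2 : ∑ i : m.primeFactors, j i ≤ ω * ω := by
      calc ∑ i : m.primeFactors, j i ≤ ∑ _i : m.primeFactors, ω := Finset.sum_le_sum fun i _ => by
            have := hj1 i; rwa [hcard] at this
        _ = ω * ω := by rw [Finset.sum_const, Finset.card_univ, hcard, smul_eq_mul]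
    rw [e1]
    exact e2
  have hfit : 2 * L * bl.length ≤ n := by
    have : L * bl.length ≤ L * (ω * ω) := Nat.mul_le_mul_left _ hlen
    have e : L * (ω * ω) = ω * ω * L := by ring
    rw [e] at this
    have e2 : 2 * L * bl.length = 2 * (L * bl.length) := by ring
    rw [e2, hn]
    omega
  have hperL : V.chi A ^ L = 1 := by
    rw [hL, pow_mul, hy.per, one_pow]
  obtain ⟨w1, w2, w3⟩ := wk_walk (B := B) (b₀ := b₀) (b₁ := b₁) h1 h2 hydef.symm hb1 L bl hbls n hfit
  set W := wk b₀ b₁ L bl ++ up b₀ b₁ (n - 2 * L * bl.length) with hW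
  have w3 := w3 (ZMod m) V hperL
  have s1 : zz A y 1 * B.q b₀ = zz A y 2 := st_r0 h1 h2 0
  have s2 : zz A y 2 * B.q b₁ = zz A y 3 := by rw [hb1]; exact st_r1 h1 h2 1
  have s3 : zz A y 3 * B.q b₀ = zz A y 4 := st_r0 h1 h2 1
  have s4 : zz A y 4 = A ^ 2 := zz_even A y 2
  have hvol : ∀ l : List B.L, V.vol (zz A y 1) (b₀ :: b₁ :: b₀ :: l) =
      V.chi (zz A y 1) * V.n b₀ + (V.chi (zz A y 2) * V.n b₁ + (V.chi (zz A y 3) * V.n b₀ +
        V.chi (zz A y 4) * V.vol 1 l)) := by
    intro l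
    show V.chi (zz A y 1) * V.n b₀ + (V.chi (zz A y 1 * B.q b₀) * V.n b₁ +
      (V.chi (zz A y 1 * B.q b₀ * B.q b₁) * V.n b₀ + V.vol (zz A y 1 * B.q b₀ * B.q b₁ * B.q b₀) l)) = _
    rw [s1, s2, s3, vol_eq_tr V (zz A y 4) l]
  have hsrc : src B (zz A y 1) (b₀ :: b₁ :: b₀ :: W) =
      zz A y 1 :: zz A y 2 :: zz A y 3 :: (src B 1 W).map (A ^ 2 * ·) := by
    show zz A y 1 :: (zz A y 1 * B.q b₀) :: (zz A y 1 * B.q b₀ * B.q b₁) ::
      src B (zz A y 1 * B.q b₀ * B.q b₁ * B.q b₀) W = _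
    rw [s1, s2, s3, s4]
    have := src_tr (B := B) (A ^ 2) 1 W
    rw [mul_one] at this
    rw [this]
  have hperm : (src B (zz A y 1) (b₀ :: b₁ :: b₀ :: W)).Perm
      ((List.range (2 * M)).map fun i => zz A y (1 + i)) := by
    rw [hsrc]
    have e1 : (List.range (2 * M)).map (fun i => zz A y (1 + i)) =
        zz A y 1 :: zz A y 2 :: zz A y 3 :: ((List.range n).map (zz A y)).map (A ^ 2 * ·) := by
      have : 2 * M = 3 + n := by omega
      rw [this, List.range_add, List.map_append, List.map_map, List.map_map]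
      have e2 : (List.range 3).map (fun i => zz A y (1 + i)) = [zz A y 1, zz A y 2, zz A y 3] := rfl
      rw [e2]
      show _ = [zz A y 1, zz A y 2, zz A y 3] ++ _
      congr 1
      refine List.map_congr_left fun i _ => ?_
      show zz A y (1 + (3 + i)) = A ^ 2 * zz A y i
      rw [zz_tr, ← add_assoc]
    rw [e1]
    exact ((((w1.map _)).cons _).cons _).cons _
  -- the two lines are different
  have hny : y ∉ zpowers A := by
    intro h0
    have hc : y * A = A * y := by
      obtain ⟨i, hi⟩ := Subgroup.mem_zpowers_iff.1 h0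
      rw [← hi]
      exact (Commute.zpow_left (Commute.refl A) i).eq
    have hA2 : A ^ 2 = 1 := by
      have : A = A⁻¹ := by rw [← h1, hc]; group
      rw [pow_two]
      nth_rw 1 [this]
      exact inv_mul_cancel A
    have := Nat.le_of_dvd (by norm_num) (orderOf_dvd_of_pow_eq_one hA2)
    omega
  have hne : ∀ i j : ℕ, A ^ i ≠ A ^ j * y := by
    intro i j h0
    apply hny
    have : y = (A ^ j)⁻¹ * A ^ i := by rw [h0]; group
    rw [this]
    exact mul_mem (inv_mem (pow_mem (Subgroup.mem_zpowers A) _)) (pow_mem (Subgroup.mem_zpowers A) _)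
  have hnd : ((List.range (2 * M)).map fun i => zz A y (1 + i)).Nodup := by
    refine (List.nodup_map_iff_inj_on List.nodup_range).2 ?_
    intro x hx x' hx' e
    rw [List.mem_range] at hx hx'
    rcases Nat.even_or_odd' (1 + x) with ⟨l, hl | hl⟩ <;> rcases Nat.even_or_odd' (1 + x') with ⟨l', hl' | hl'⟩
    · rw [hl, hl', zz_even, zz_even] at e
      have := hA1 e
      have e3 : l = l' := by
        rcases Nat.lt_or_ge l M with h | h
        · rcases Nat.lt_or_ge l' M with h' | h'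
          · rwa [Nat.mod_eq_of_lt h, Nat.mod_eq_of_lt h'] at this
          · have : l' = M := by omega
            subst this
            rw [Nat.mod_self, Nat.mod_eq_of_lt h] at this
            omega
        · have hlM : l = M := by omega
          rcases Nat.lt_or_ge l' M with h' | h'
          · rw [hlM, Nat.mod_self, Nat.mod_eq_of_lt h'] at this
            omega
          · omega
      omega
    · rw [hl, hl', zz_even, zz_odd] at e
      exact absurd e (hne _ _)
    · rw [hl, hl', zz_even, zz_odd] at e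
      exact absurd e.symm (hne _ _)
    · rw [hl, hl', zz_odd, zz_odd] at e
      have := hA1 (mul_right_cancel e)
      have e3 : l = l' := by
        have hl1 : l + 1 ≤ M := by omega
        have hl1' : l' + 1 ≤ M := by omega
        rcases Nat.lt_or_ge (l + 1) M with h | h
        · rcases Nat.lt_or_ge (l' + 1) M with h' | h'
          · rw [Nat.mod_eq_of_lt h, Nat.mod_eq_of_lt h'] at this; omega
          · have h'' : l' + 1 = M := by omega
            rw [h'', Nat.mod_self, Nat.mod_eq_of_lt h] at this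
            omega
        · have hlM : l + 1 = M := by omega
          rcases Nat.lt_or_ge (l' + 1) M with h' | h'
          · rw [hlM, Nat.mod_self, Nat.mod_eq_of_lt h'] at this
            omega
          · omega
      omega
  have hcov : ∀ q : Q, q ∈ (List.range (2 * M)).map fun i => zz A y (1 + i) := by
    have hMpos : 0 < M := by omega
    have key : ∀ x : Q, x ∈ zpowers A → ∃ i : ℕ, 1 ≤ i ∧ i ≤ M ∧ x = A ^ i := by
      intro x hx
      obtain ⟨i, hi, rfl⟩ : ∃ i, i < M ∧ A ^ i = x := by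
        classical
        have h := mem_zpowers_iff_mem_range_orderOf.1 hx
        simpa using h
      by_cases h0 : i = 0
      · exact ⟨M, by omega, le_refl _, by rw [h0, pow_zero, hM, pow_orderOf_eq_one]⟩
      · exact ⟨i, by omega, hi.le, rfl⟩
    intro q
    rw [List.mem_map]
    rcases hall q with hq | hq
    · obtain ⟨i, hi1, hi2, rfl⟩ := key q hq
      refine ⟨2 * i - 1, List.mem_range.2 (by omega), ?_⟩
      rw [show 1 + (2 * i - 1) = 2 * i by omega, zz_even]
    · obtain ⟨i, hi1, hi2, hi⟩ := key _ hq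
      refine ⟨2 * i - 2, List.mem_range.2 (by omega), ?_⟩
      rw [show 1 + (2 * i - 2) = 2 * (i - 1) + 1 by omega, zz_odd, Nat.sub_add_cancel hi1, ← hi]
      group
  refine hT Q B m V (zz A y 1) b₀ b₁ b₀ W a hy.sq ?_ ?_ ?_ ?_ ?_ ?_
  · show B.fin (zz A y 1 * B.q b₀ * B.q b₁ * B.q b₀) W = _
    rw [s1, s2, s3, s4]
    have := fin_tr (B := B) (A ^ 2) 1 W
    rw [mul_one] at this
    rw [this, w2, zz_tr, show 2 * 2 + n = 2 * M + 1 by omega, ← zz_tr, hM, pow_orderOf_eq_one, one_mul]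
  · exact hperm.nodup_iff.2 hnd
  · exact fun q => hperm.mem_iff.2 (hcov q)
  · show y * A = y * B.q b₁ * y
    rw [hb1]
    calc y * A = y * A * (y * y) := by rw [h2, mul_one]
      _ = _ := by group
  · show y * B.q b₁ * A = 1
    rw [hb1]
    calc y * (A * y) * A = (y * A * y⁻¹) * (y * y) * A := by group
      _ = 1 := by rw [h1, h2]; group
  · intro p hpm
    have hr := hrd p hpm
    rcases hPD ⟨p, hpm⟩ with hD | hD
    · left
      have hmain := hj2 ⟨p, hpm⟩ (Or.inr ⟨⟨p, hpm⟩, by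
        show rd p (V.chi (zz A y 4) * d (P ⟨p, hpm⟩)) ≠ 0
        haveI : Fact p.Prime := ⟨Nat.prime_of_mem_primeFactors hpm⟩
        rw [hr, map_mul]
        refine mul_ne_zero ?_ (by rw [← hr]; exact hD)
        exact chi_ne (V.map (ZMod.castHom (Nat.dvd_of_mem_primeFactors hpm) (ZMod p))) _⟩)
      have hsum : V.vol (zz A y 1) (b₀ :: b₁ :: b₀ :: W) =
          base + ∑ i : m.primeFactors, (j i : ZMod m) * (V.chi (zz A y 4) * d (P i)) := by
        rw [hbase, hvol, hvol, w3]
        have e1 : (bl.map fun P => V.vol 1 P.l - V.vol 1 (up b₀ b₁ (2 * P.s))).sum =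
            ∑ i : m.primeFactors, (j i : ZMod m) * d (P i) := by
          rw [← Finset.sum_map_toList, hbl]
          generalize (Finset.univ : Finset m.primeFactors).toList = ll
          induction ll with
          | nil => rfl
          | cons i ll ih =>
            rw [List.flatMap_cons, List.map_append, List.sum_append, ih, List.map_cons, List.sum_cons,
              List.map_replicate, List.sum_replicate, nsmul_eq_mul]
        rw [e1]
        have e2 : ∑ i : m.primeFactors, (j i : ZMod m) * (V.chi (zz A y 4) * d (P i)) =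
            V.chi (zz A y 4) * ∑ i : m.primeFactors, (j i : ZMod m) * d (P i) := by
          rw [Finset.mul_sum]
          exact Finset.sum_congr rfl fun i _ => by ring
        rw [e2]
        ring
      rw [hsum, hr, map_add, map_sum]
      have e3 : ∀ i : m.primeFactors, ZMod.castHom (Nat.dvd_of_mem_primeFactors hpm) (ZMod p)
          ((j i : ZMod m) * (V.chi (zz A y 4) * d (P i))) =
          (j i : ZMod p) * rd p (V.chi (zz A y 4) * d (P i)) := by
        intro i
        rw [map_mul, map_natCast, hr]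
      rw [Finset.sum_congr rfl fun i _ => e3 i, ← hr]
      exact hmain
    · right
      exact ⟨hD.1, hD.2.1, hD.2.2.1, hD.2.2.2, hD.2.2.1⟩

end Pool.Agent.Lib.MP_688fd0_co.SQ3.Small
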