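import Pool.Agent.Lib.MP_688fd0_co.SQ3.Small.IfaceN
import Pool.Agent.Lib.MP_688fd0_co.SQ3.Small.R1A

/-!
Row N-RIG1: the rigid case with one line.
-/

set_option autoImplicit false

namespace Pool.Agent.Lib.MP_688fd0_co.SQ3.Small

open Pool.Agent.Lib.MP_688fd0_co.OSF Pool.Agent.Lib.MP_688fd0_co.SQ2
open Subgroup (zpowers)

/-- An element which does not vanish modulo any prime is a unit. -/
theorem isUnit_of_rd {m : ℕ} (hm : m ≠ 0) (x : ZMod m) (h : ∀ p ∈ m.primeFactors, rd p x ≠ 0) : IsUnit x := by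
  haveI : NeZero m := ⟨hm⟩
  have h1 : x = ((x.val : ℕ) : ZMod m) := (ZMod.natCast_zmod_val x).symm
  rw [h1, ZMod.isUnit_iff_coprime]
  refine Nat.coprime_of_dvd fun p hp hx hpm => ?_
  apply h p (Nat.mem_primeFactors.2 ⟨hp, hpm, hm⟩)
  unfold rd
  rw [← ZMod.natCast_val, ZMod.natCast_eq_zero_iff]
  exact hx

/-- Change of gauge. -/
def gg {Q : Type} [Group Q] {B : Lb.{0, 0} Q} {R : Type} [CommRing R] (V : Vd B R) (t : R) : Vd B R where
  chi := V.chi
  n := fun g => V.n g - t * (V.chi (B.q g) - 1)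
  n_inv := fun g => by
    have h : V.chi (B.q g)⁻¹ * V.chi (B.q g) = 1 := by rw [← map_mul, inv_mul_cancel, map_one]
    rw [V.n_inv, B.q_inv]
    linear_combination (-t) * h

theorem chi_pow_one {Q : Type} [Group Q] {B : Lb.{0, 0} Q} {a : B.L} {eps : Q →* ℤˣ} {D : Subgroup Q} {z : Q}
    {k : ℕ} (H : Hyp B a eps D z k) {R : Type} [CommRing R] (V : Vd B R) (hz : V.chi z = 1) :
    V.chi (B.q a) ^ k = 1 := by
  have h1 : V.chi (B.q a) = V.chi (z⁻¹ * B.q a) := by
    have h2 : B.q a = z * (z⁻¹ * B.q a) := by rw [mul_inv_cancel_left]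
    conv_lhs => rw [h2]
    rw [map_mul, hz, one_mul]
  rw [h1, ← map_pow]
  have h3 : (z⁻¹ * B.q a) ^ k = 1 := by
    have h4 : orderOf (z⁻¹ * B.q a) ∣ k := by
      have h5 := Subgroup.orderOf_dvd_natCard D H.mem
      exact h5.trans H.card
    exact orderOf_dvd_iff_pow_eq_one.1 h4
  rw [h3, map_one]

/-- `W` is large. -/
theorem W_ge (ρ r k c W : ℕ) (h : needW ρ r k c ≤ W) : 10000 * (r + 2) ^ 2 * (c + 1) ≤ W := by
  refine le_trans ?_ h
  unfold needW lam hgt
  have h1 : 1 ≤ 2 ^ r := Nat.one_le_two_pow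
  generalize 2 ^ r = e at h1
  generalize ((ρ + 2) ^ 4 * k) = σ
  generalize σ.factorial = f
  generalize σ * k * σ ^ σ = g
  have h2 : 100 * (c + 1) ≤ 1000 * (g + 10) * (4 * f + 4 * (c + k) + 8 + 4 * k + 4) + 4 * k := by nlinarith
  calc 10000 * (r + 2) ^ 2 * (c + 1) = 100 * (r + 2) ^ 2 * 1 * (100 * (c + 1)) := by ring
    _ ≤ _ := Nat.mul_le_mul (Nat.mul_le_mul_left _ h1) h2

theorem order_ge {Q : Type} [Group Q] [Finite Q] {B : Lb.{0, 0} Q} {a : B.L} {k c W m : ℕ} (hN : Nm B a k c W m)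
    (hk : 0 < k) : 10000 * (m.primeFactors.card + 2) ^ 2 * (c + 1) * k ≤ orderOf (B.q a) := by
  have h1 := W_ge _ _ _ _ _ hN.need
  have h2 := hN.big
  have h3 : orderOf (B.q a ^ k) ≤ orderOf (B.q a) :=
    Nat.le_of_dvd (orderOf_pos _) (orderOf_pow_dvd k)
  have h4 : 1 ≤ (Nat.card B.L + 2) ^ 20 := Nat.one_le_pow _ _ (by omega)
  have h5 : k ≤ k ^ 10 := Nat.le_self_pow (by norm_num) k
  have h6 : W ≤ W ^ 2 := Nat.le_self_pow (by norm_num) W
  have h7 : (m.primeFactors.card + 2) ^ 2 ≤ (2 * m.primeFactors.card + 2) ^ 2 := Nat.pow_le_pow_left (by omega) 2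
  calc 10000 * (m.primeFactors.card + 2) ^ 2 * (c + 1) * k
      ≤ 10000 * (2 * m.primeFactors.card + 2) ^ 2 * (c + 1) * k :=
        Nat.mul_le_mul_right _ (Nat.mul_le_mul_right _ (Nat.mul_le_mul_left _ h7))
    _ ≤ W * k := Nat.mul_le_mul_right _ h1
    _ = 1 * k * W := by ring
    _ ≤ (Nat.card B.L + 2) ^ 20 * k ^ 10 * W ^ 2 := Nat.mul_le_mul (Nat.mul_le_mul h4 h5) h6
    _ ≤ orderOf (B.q a) := h2.le.trans h3

/-- `Hy` from the numerical hypotheses. -/
theorem hy_of {Q : Type} [Group Q] {B : Lb.{0, 0} Q} {a : B.L} {eps : Q →* ℤˣ} {D : Subgroup Q} {z : Q}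
    {k c W m : ℕ} (H : Hyp B a eps D z k) (hN : Nm B a k c W m) (V : Vd B (ZMod m)) (hz : V.chi z = 1)
    (c' : ℕ) (hc : c' ≤ 2 * c) : Hy V a k c' := by
  haveI := H.fin
  refine ⟨H.fin, ?_, hN.sq, H.kpos, H.gen, chi_pow_one H V hz, fun p hp => (hN.prm p hp).2.1, ?_, fun p hp h => ?_⟩
  · rintro rfl
    exact absurd hN.sq (by simp)
  · refine le_trans ?_ (order_ge hN H.kpos)
    calc 1000 * (m.primeFactors.card + 2) ^ 2 * k * (c' + 10)
        ≤ 1000 * (m.primeFactors.card + 2) ^ 2 * k * (10 * (c + 1)) := Nat.mul_le_mul_left _ (by omega)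
      _ = 10000 * (m.primeFactors.card + 2) ^ 2 * (c + 1) * k := by ring
  · exact (hN.prm p hp).2.2 (h.trans (orderOf_dvd_natCard _))

theorem rg1 (hR : R1S) (hG : GauS) : Rg1S := by
  intro Q _ B a eps D z k H hidx ⟨τ, hτ, hlab⟩ c W m V hN hz hK
  haveI := H.fin
  have htop : ∀ x : Q, x ∈ zpowers (B.q a) := by
    intro x
    rw [Subgroup.index_eq_one.1 hidx]
    exact Subgroup.mem_top x
  have hm : m ≠ 0 := by
    rintro rfl
    exact absurd hN.sq (by simp)
  have hcl : ∀ p, ∀ hp : p ∈ m.primeFactors, rd p (V.chi (B.q a)) ≠ 1 ∧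
      ∃ s, rd p (V.kap a s) ≠ 0 := by
    intro p hp
    have hd := Nat.dvd_of_mem_primeFactors hp
    rcases hK p hp with ⟨h1, s, h2⟩ | ⟨h1, _, s, h3⟩
    · refine ⟨h1, s, ?_⟩
      have h4 : rd p (V.kap a s) = (V.map (red hd)).kap a s := by
        unfold Vd.kap
        rw [rd_sub hd, rd_mul hd, rd_mul hd, rd_sub hd, rd_sub hd, rd_one hd]
        rfl
      rw [h4]
      exact h2
    · exfalso
      apply h3
      obtain ⟨i, hi⟩ := htop (B.q s)
      have h4 : ∀ (W' : Vd B (ZMod p)), W'.chi (B.q a) = 1 → W'.chi (B.q s) = 1 := by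
        intro W' hW
        have h5 : W'.chi.toHomUnits (B.q s) = 1 := by
          rw [← hi]
          show W'.chi.toHomUnits (B.q a ^ i) = 1
          rw [map_zpow]
          have h6 : W'.chi.toHomUnits (B.q a) = 1 := by
            ext
            exact hW
          rw [h6, one_zpow]
        have h7 := congrArg Units.val h5
        exact h7
      rw [h4 _ h1]
      have h8 : eps (B.q s) = 1 := by
        rw [← hi]
        show eps (B.q a ^ i) = 1
        rw [map_zpow, H.ea, one_zpow]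
      rw [h8]
      simp
  have hu : IsUnit (V.chi (B.q a) - 1) := by
    refine isUnit_of_rd hm _ fun p hp h => ?_
    have hd := Nat.dvd_of_mem_primeFactors hp
    rw [rd_sub hd, rd_one hd, sub_eq_zero] at h
    exact (hcl p hp).1 h
  obtain ⟨w, hw⟩ := hu.exists_left_inv
  have hna : (gg V (V.n a * w)).n a = 0 := by
    show V.n a - V.n a * w * (V.chi (B.q a) - 1) = 0
    rw [mul_assoc, hw, mul_one, sub_self]
  refine hG Q B (ZMod m) V (gg V (V.n a * w)) (V.n a * w) rfl (fun _ => rfl) ?_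
  refine hR Q B m (gg V (V.n a * w)) a k 0 τ (hy_of H hN (gg V (V.n a * w)) hz 0 (Nat.zero_le _)) htop hτ hlab fun p hp => ?_
  have hd := Nat.dvd_of_mem_primeFactors hp
  obtain ⟨h1, s, h2⟩ := hcl p hp
  refine ⟨h1, ?_, s, fun h3 => h2 ?_⟩
  · rw [hna, rd_zero hd]
  · have h4 : V.kap a s = (V.chi (B.q a) - 1) * (gg V (V.n a * w)).n s -
        (V.chi (B.q s) - 1) * (gg V (V.n a * w)).n a := by
      show (V.chi (B.q a) - 1) * V.n s - (V.chi (B.q s) - 1) * V.n a =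
        (V.chi (B.q a) - 1) * (V.n s - V.n a * w * (V.chi (B.q s) - 1)) -
        (V.chi (B.q s) - 1) * (V.n a - V.n a * w * (V.chi (B.q a) - 1))
      ring
    rw [h4, hna, mul_zero, sub_zero, rd_mul hd, h3, mul_zero]

end Pool.Agent.Lib.MP_688fd0_co.SQ3.Small
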