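import Pool.Agent.Lib.MP_688fd0_co.SQ3.Small.IfaceN
import Pool.Agent.Lib.MP_688fd0_co.SQ3.V.HypDat
import Pool.Agent.Lib.MP_688fd0_co.SQ2.V.RealDefs

/-!
RIG2: rigid, two lines.
-/

set_option autoImplicit false

namespace Pool.Agent.Lib.MP_688fd0_co.SQ3.Small

open Pool.Agent.Lib.MP_688fd0_co.OSF Pool.Agent.Lib.MP_688fd0_co.SQ2
open Subgroup (zpowers)

namespace Rg2

section gen

variable {Q : Type} [Group Q] {B : Lb.{0, 0} Q} {a : B.L} {eps : Q →* ℤˣ} {D : Subgroup Q} {z : Q} {k : ℕ}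

/-- The numerical hypotheses. -/
theorem hy (H : Hyp B a eps D z k) {c W m : ℕ} (N : Nm B a k c W m) (V : Vd B (ZMod m)) (hz : V.chi z = 1)
    (t : ZMod m) : Hy (V.gauge t) a k (2 * c) := by
  have hfin := H.fin
  have hord : orderOf (B.q a ^ k) ∣ orderOf (B.q a) := orderOf_pow_dvd k
  have hpos : 0 < orderOf (B.q a) := orderOf_pos _
  refine ⟨H.fin, ?_, N.sq, H.kpos, H.gen, ?_, fun p hp => (N.prm p hp).2.1, ?_, fun p hp h =>
    (N.prm p hp).2.2 (h.trans (orderOf_dvd_natCard _))⟩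
  · rintro rfl
    exact not_squarefree_zero N.sq
  · show V.chi (B.q a) ^ k = 1
    rw [← map_pow, H.pow_k, map_pow, hz, one_pow]
  · set r := m.primeFactors.card with hr
    have h1 := N.need
    have h2 := N.big
    rw [← hr] at h1
    unfold needW at h1
    set σ := (Nat.card B.L + 2) ^ 4 * k with hσ
    have h3 : 10000 * (hgt σ (c + k) + 4 * k + 4) ≤ lam σ k c := by
      unfold lam
      have : 10000 ≤ 1000 * (σ * k * σ ^ σ + 10) := by omega
      exact Nat.mul_le_mul_right _ this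
    have h4 : 10000 * (c + k + 4) ≤ lam σ k c + 4 * k := by unfold hgt at h3; omega
    have h5 : 1 ≤ 2 ^ (2 * r) := Nat.one_le_two_pow
    have h6 : 100 * (r + 2) ^ 2 * (10000 * (c + k + 4)) ≤ W := by
      refine le_trans ?_ h1
      have h7 : (r + 2) ^ 2 ≤ (2 * r + 2) ^ 2 := Nat.pow_le_pow_left (by omega) 2
      calc 100 * (r + 2) ^ 2 * (10000 * (c + k + 4)) ≤ 100 * (2 * r + 2) ^ 2 * (lam σ k c + 4 * k) :=
            Nat.mul_le_mul (Nat.mul_le_mul_left _ h7) h4
        _ = 100 * (2 * r + 2) ^ 2 * 1 * (lam σ k c + 4 * k) := by rw [mul_one]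
        _ ≤ 100 * (2 * r + 2) ^ 2 * 2 ^ (2 * r) * (lam σ k c + 4 * k) :=
            Nat.mul_le_mul_right _ (Nat.mul_le_mul_left _ h5)
    have h8 : 1000 * (r + 2) ^ 2 * (2 * c + 10) ≤ W := by
      refine le_trans ?_ h6
      have h9 : 1000 * (2 * c + 10) ≤ 100 * (10000 * (c + k + 4)) := by omega
      calc 1000 * (r + 2) ^ 2 * (2 * c + 10) = (r + 2) ^ 2 * (1000 * (2 * c + 10)) := by ring
        _ ≤ (r + 2) ^ 2 * (100 * (10000 * (c + k + 4))) := Nat.mul_le_mul_left _ h9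
        _ = 100 * (r + 2) ^ 2 * (10000 * (c + k + 4)) := by ring
    have h10 : k ≤ W := by
      refine le_trans ?_ h6
      have h11 : 1 ≤ 100 * (r + 2) ^ 2 := Nat.mul_pos (by norm_num) (by positivity)
      calc k ≤ 10000 * (c + k + 4) := by omega
        _ = 1 * (10000 * (c + k + 4)) := (one_mul _).symm
        _ ≤ 100 * (r + 2) ^ 2 * (10000 * (c + k + 4)) := Nat.mul_le_mul_right _ h11
    have h12 : W ^ 2 ≤ (Nat.card B.L + 2) ^ 20 * k ^ 10 * W ^ 2 := by
      have h13 : 1 ≤ (Nat.card B.L + 2) ^ 20 * k ^ 10 :=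
        Nat.mul_pos (by positivity) (pow_pos H.kpos 10)
      calc W ^ 2 = 1 * W ^ 2 := (one_mul _).symm
        _ ≤ _ := Nat.mul_le_mul_right _ h13
    have h14 : orderOf (B.q a ^ k) ≤ orderOf (B.q a) := Nat.le_of_dvd hpos hord
    calc 1000 * (r + 2) ^ 2 * k * (2 * c + 10) = 1000 * (r + 2) ^ 2 * (2 * c + 10) * k := by ring
      _ ≤ W * W := Nat.mul_le_mul h8 h10
      _ = W ^ 2 := (sq W).symm
      _ ≤ orderOf (B.q a) := h12.trans (h2.le.trans h14)

/-- The Chinese remainder theorem. -/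
theorem crt {m : ℕ} (f : ∀ p : ℕ, ZMod p) :
    ∃ t : ZMod m, ∀ p, ∀ hp : p ∈ m.primeFactors, red (Nat.dvd_of_mem_primeFactors hp) t = f p := by
  obtain ⟨t, ht⟩ := Nat.chineseRemainderOfFinset (fun p => (f p).val) (fun p : ℕ => p) m.primeFactors
    (fun p hp => (Nat.prime_of_mem_primeFactors hp).ne_zero)
    (fun p hp q hq hpq => (Nat.coprime_primes (Nat.prime_of_mem_primeFactors hp)
      (Nat.prime_of_mem_primeFactors hq)).2 hpq)
  refine ⟨(t : ZMod m), fun p hp => ?_⟩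
  have hp' := (Nat.prime_of_mem_primeFactors hp)
  have : NeZero p := ⟨hp'.ne_zero⟩
  rw [map_natCast, (ZMod.natCast_eq_natCast_iff _ _ _).2 (ht p hp), ZMod.natCast_zmod_val]

theorem rd_red {m p : ℕ} (h : p ∣ m) (x : ZMod m) : rd p x = red h x := rfl

/-- The gauge. -/
theorem cl {m : ℕ} (V : Vd B (ZMod m))
    (hK : ∀ p, ∀ hp : p ∈ m.primeFactors, KapC (V.map (red (Nat.dvd_of_mem_primeFactors hp))) a eps) :
    ∃ t : ZMod m, ∀ p ∈ m.primeFactors, ClI (V.gauge t) a p ∨ (rd p (V.chi (B.q a)) = 1 ∧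
      rd p ((V.gauge t).n a) ≠ 0 ∧ ∃ s, rd p (V.chi (B.q s)) ≠ (((eps (B.q s) : ℤˣ) : ℤ) : ZMod p)) := by
  classical
  obtain ⟨t, ht⟩ := crt (m := m) (fun p => if hp : p ∈ m.primeFactors then
    have : Fact p.Prime := ⟨Nat.prime_of_mem_primeFactors hp⟩
    red (Nat.dvd_of_mem_primeFactors hp) (V.n a) / (red (Nat.dvd_of_mem_primeFactors hp) (V.chi (B.q a)) - 1)
    else 0)
  refine ⟨t, fun p hp => ?_⟩
  have : Fact p.Prime := ⟨Nat.prime_of_mem_primeFactors hp⟩
  have hd := Nat.dvd_of_mem_primeFactors hp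
  have htp := ht p hp
  rw [dif_pos hp] at htp
  have hg : ∀ s, red hd ((V.gauge t).n s) = red hd (V.n s) - red hd t * (red hd (V.chi (B.q s)) - 1) := by
    intro s
    show red hd (V.n s - t * (V.chi (B.q s) - 1)) = _
    rw [map_sub, map_mul, map_sub, map_one]
  rcases hK p hp with ⟨h1, s, h2⟩ | ⟨h1, h2, s, h3⟩
  · left
    have h1' : red hd (V.chi (B.q a)) - 1 ≠ 0 := sub_ne_zero.2 h1
    have h0 : red hd ((V.gauge t).n a) = 0 := by
      rw [hg, htp, div_mul_cancel₀ _ h1', sub_self]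
    refine ⟨h1, h0, s, fun h4 => h2 ?_⟩
    have h4' : red hd ((V.gauge t).n s) = 0 := h4
    show (red hd (V.chi (B.q a)) - 1) * red hd (V.n s) - (red hd (V.chi (B.q s)) - 1) * red hd (V.n a) = 0
    rw [hg] at h0 h4'
    linear_combination (red hd (V.chi (B.q a)) - 1) * h4' - (red hd (V.chi (B.q s)) - 1) * h0
  · right
    refine ⟨h1, ?_, s, h3⟩
    have h1' : red hd (V.chi (B.q a)) = 1 := h1
    rw [rd_red hd, hg, h1', sub_self, mul_zero, sub_zero]
    exact h2

end gen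

end Rg2

open Rg2

theorem rg2 (hA : R2AS) (hB : R2BS) (hG : GauS) : Rg2S := by
  intro Q _ B a eps D z k c W H hidx hR m V N hz hK
  have hfin := H.fin
  obtain ⟨t, ht⟩ := cl V hK
  obtain ⟨hR1, hR2, hR3⟩ := hR
  -- a label outside `<A>`
  obtain ⟨b₀, hb₀⟩ : ∃ b, B.q b ∉ zpowers (B.q a) := by
    by_contra hcon
    push Not at hcon
    have h1 : (⊤ : Subgroup Q) ≤ zpowers (B.q a) := by
      rw [← H.gen, Subgroup.closure_le]
      rintro _ ⟨b, rfl⟩
      exact hcon b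
    rw [top_le_iff.1 h1, Subgroup.index_top] at hidx
    omega
  have hcov : ∀ x, x ∈ zpowers (B.q a) ∨ x * (B.q b₀)⁻¹ ∈ zpowers (B.q a) := by
    intro x
    by_cases hx : x ∈ zpowers (B.q a)
    · exact Or.inl hx
    · refine Or.inr ((Subgroup.mul_mem_iff_of_index_two hidx).2 ?_)
      rw [inv_mem_iff]
      exact iff_of_false hx hb₀
  have hlab : ∀ b, B.q b = B.q a ∨ B.q b = (B.q a)⁻¹ ∨ ∃ i : ℤ, |i| ≤ c ∧ B.q b = B.q a ^ i * B.q b₀ := by
    intro b
    by_cases hb : B.q b ∈ zpowers (B.q a)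
    · rcases hR1 b hb with h | h
      · exact Or.inl h
      · exact Or.inr (Or.inl h)
    · exact Or.inr (Or.inr (hR3 b₀ b hb₀ hb))
  have hcm : (B.q b₀)⁻¹ * B.q a * B.q b₀ = B.q a ^ ((eps (B.q b₀) : ℤˣ) : ℤ) := hR2 b₀ hb₀
  -- the square of `b₀`
  obtain ⟨i, hi, hinv⟩ := hR3 b₀ (B.inv b₀) hb₀ (by rw [B.q_inv, inv_mem_iff]; exact hb₀)
  rw [B.q_inv] at hinv
  have hsq : B.q b₀ * B.q b₀ = B.q a ^ (-i) := by
    have h1 : B.q a ^ i * (B.q b₀ * B.q b₀) = 1 := by rw [← mul_assoc, ← hinv, inv_mul_cancel]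
    rw [zpow_neg]
    exact eq_inv_of_mul_eq_one_right h1
  -- the primes of class II
  have hII : ∀ p, ∀ hp : p ∈ m.primeFactors, rd p (V.chi (B.q a)) = 1 →
      (∃ s, rd p (V.chi (B.q s)) ≠ (((eps (B.q s) : ℤˣ) : ℤ) : ZMod p)) →
      rd p (V.chi (B.q b₀)) = - (((eps (B.q b₀) : ℤˣ) : ℤ) : ZMod p) := by
    intro p hp h1 ⟨s, hs⟩
    have hd := Nat.dvd_of_mem_primeFactors hp
    have hp' : Fact p.Prime := ⟨Nat.prime_of_mem_primeFactors hp⟩
    have hz1 : ∀ j : ℤ, rd p (V.chi (B.q a ^ j)) = 1 := by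
      have hn : ∀ j : ℕ, rd p (V.chi (B.q a ^ j)) = 1 := by
        intro j
        rw [map_pow, rd_red hd, map_pow]
        have h2 : red hd (V.chi (B.q a)) = 1 := h1
        rw [h2, one_pow]
      intro j
      rcases j.eq_nat_or_neg with ⟨n, rfl | rfl⟩
      · rw [zpow_natCast]; exact hn n
      · have h2 : red hd (V.chi (B.q a ^ (-(n : ℤ)))) * red hd (V.chi (B.q a ^ n)) = 1 := by
          rw [← map_mul, ← map_mul, zpow_neg, zpow_natCast, inv_mul_cancel, map_one, map_one]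
        have h3 : red hd (V.chi (B.q a ^ n)) = 1 := hn n
        rw [h3, mul_one] at h2
        exact h2
    have hy : red hd (V.chi (B.q b₀)) * red hd (V.chi (B.q b₀)) = 1 := by
      rw [← map_mul, ← map_mul, hsq]
      exact hz1 _
    have hne : rd p (V.chi (B.q b₀)) ≠ (((eps (B.q b₀) : ℤˣ) : ℤ) : ZMod p) := by
      intro hcon
      apply hs
      rcases hlab s with h | h | ⟨j, -, h⟩
      · rw [h, H.ea, h1]; simp
      · have h2 := hz1 (-1)
        rw [zpow_neg_one] at h2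
        rw [h, h2, map_inv eps, H.ea]; simp
      · have h2 : rd p (V.chi (B.q a ^ j * B.q b₀)) = rd p (V.chi (B.q b₀)) := by
          rw [map_mul, rd_red hd, map_mul]
          have h3 : red hd (V.chi (B.q a ^ j)) = 1 := hz1 j
          rw [h3, one_mul]
          rfl
        rw [h, h2, hcon, map_mul, map_zpow, H.ea, one_zpow, one_mul]
    rcases mul_self_eq_one_iff.1 hy with h4 | h4
    all_goals rw [← rd_red hd] at h4
    · rcases Int.units_eq_one_or (eps (B.q b₀)) with h5 | h5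
      · exact absurd (by rw [h5]; simpa using h4) hne
      · rw [h5]; simpa using h4
    · rcases Int.units_eq_one_or (eps (B.q b₀)) with h5 | h5
      · rw [h5]; simpa using h4
      · exact absurd (by rw [h5]; simpa using h4) hne
  refine hG Q B (ZMod m) V (V.gauge t) t rfl (fun g => rfl) ?_
  have hHy := hy H N V hz t
  rcases Int.units_eq_one_or (eps (B.q b₀)) with he | he
  · rw [he, Units.val_one, zpow_one] at hcm
    refine hA Q B m (V.gauge t) a k (2 * c) (B.q b₀) hHy ?_ hb₀ hcov ?_ ?_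
    · rw [mul_assoc, inv_mul_eq_iff_eq_mul] at hcm
      exact hcm
    · intro b
      rcases hlab b with h | h | ⟨j, hj, h⟩
      · exact Or.inl h
      · exact Or.inr (Or.inl h)
      · exact Or.inr (Or.inr ⟨j, hj.trans (by push_cast; omega), h⟩)
    · intro p hp
      rcases ht p hp with h | ⟨h1, h2, h3⟩
      · exact Or.inl h
      · refine Or.inr ⟨h1, ?_, h2⟩
        have h4 := hII p hp h1 h3
        rw [he] at h4
        show rd p (V.chi (B.q b₀)) = -1
        simpa using h4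
  · rw [he, Units.val_neg, Units.val_one, zpow_neg_one] at hcm
    have hconj : B.q b₀ * B.q a * (B.q b₀)⁻¹ = (B.q a)⁻¹ := by
      have h1 : B.q a * B.q b₀ = B.q b₀ * (B.q a)⁻¹ := by
        rw [← hcm]; group
      have h2 : B.q a * B.q b₀ * B.q a = B.q b₀ := by rw [h1, inv_mul_cancel_right]
      have h3 : B.q b₀ * B.q a = (B.q a)⁻¹ * B.q b₀ := by
        rw [eq_inv_mul_iff_mul_eq, ← mul_assoc]; exact h2
      rw [h3, mul_inv_cancel_right]
    have hsq1 : B.q b₀ * B.q b₀ = 1 := by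
      -- `A ^ (2 i) = 1`
      have h1 : B.q b₀ * (B.q b₀ * B.q b₀) * (B.q b₀)⁻¹ = B.q b₀ * B.q b₀ := by group
      have h2 : B.q b₀ * (B.q b₀ * B.q b₀) * (B.q b₀)⁻¹ = B.q a ^ i := by
        rw [hsq, ← conj_zpow, hconj, zpow_neg, inv_zpow, inv_inv]
      rw [h1, hsq] at h2
      have h3 : B.q a ^ (2 * i) = 1 := by
        have h4 : B.q a ^ (-i) * B.q a ^ i = B.q a ^ i * B.q a ^ i := by rw [h2]
        rw [← zpow_add, ← zpow_add, neg_add_cancel, zpow_zero] at h4
        rw [two_mul]; exact h4.symm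
      have h4 : (orderOf (B.q a) : ℤ) ∣ 2 * i := orderOf_dvd_iff_zpow_eq_one.2 h3
      have h5 : |2 * i| < orderOf (B.q a) := by
        have h6 := hHy.big
        have h7 : 2 * c + 10 ≤ 1000 * (m.primeFactors.card + 2) ^ 2 * k * (2 * c + 10) := by
          have h8 : 1 ≤ 1000 * (m.primeFactors.card + 2) ^ 2 * k :=
            Nat.mul_pos (Nat.mul_pos (by norm_num) (by positivity)) H.kpos
          calc 2 * c + 10 = 1 * (2 * c + 10) := (one_mul _).symm
            _ ≤ _ := Nat.mul_le_mul_right _ h8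
        have h9 : 2 * c + 10 ≤ orderOf (B.q a) := h7.trans h6
        have h10 : (2 * (c : ℤ) + 10) ≤ orderOf (B.q a) := by exact_mod_cast h9
        rw [abs_mul, abs_two]
        omega
      have h6 := Int.eq_zero_of_abs_lt_dvd h4 h5
      have h7 : i = 0 := by omega
      rw [hsq, h7, neg_zero, zpow_zero]
    refine hB Q B m (V.gauge t) a k c (B.q b₀) hHy hconj hsq1 hcov hlab ?_
    intro p hp
    rcases ht p hp with h | ⟨h1, h2, h3⟩
    · exact Or.inl h
    · refine Or.inr ⟨h1, ?_, h2⟩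
      have h4 := hII p hp h1 h3
      rw [he] at h4
      show rd p (V.chi (B.q b₀)) = 1
      simpa using h4

end Pool.Agent.Lib.MP_688fd0_co.SQ3.Small
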