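import Pool.Agent.Lib.MP_688fd0_co.SQ3.Small.Asm0
import Pool.Agent.Lib.MP_688fd0_co.SQ3.H98.GadN
import Pool.Agent.Lib.MP_688fd0_co.SQ3.V.CGad

/-!
S-SQ: the small cases at the level of the quotient.
-/

set_option autoImplicit false

namespace Pool.Agent.Lib.MP_688fd0_co.SQ3.Small

open Pool.Agent.Lib.MP_688fd0_co.OSF Pool.Agent.Lib.MP_688fd0_co.SQ2
open Subgroup (zpowers)
open V (Puz)

section gen

variable {Q : Type} [Group Q] {B : Lb.{0, 0} Q}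

/-- The weights are constant on the strands. -/
theorem spr_eq {U : Up B} {D : Subgroup Q} {W k : ℕ} {F : Finset Q} (hF : Fr U D W F) (hk : k ≤ W) {R : Type}
    [Zero R] (w : Q → R) {s : Q} (hs : s ∈ F) {t : ℕ} (ht : t < k) : spr U F k w ((U.U ^ t) s) = w s := by
  have h : ∃ s' ∈ F, ∃ t' < k, (U.U ^ t) s = (U.U ^ t') s' := ⟨s, hs, t, ht, rfl⟩
  unfold spr
  rw [dif_pos h]
  obtain ⟨h1, t', ht', h2⟩ := h.choose_spec
  have h3 : (U.U ^ (t : ℤ)) s = (U.U ^ (t' : ℤ)) h.choose := by rw [zpow_natCast, zpow_natCast]; exact h2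
  exact congrArg w (hF.eq hs h1 h3 (abs_le.2 ⟨by omega, by omega⟩)).2.symm

theorem spr_zero {U : Up B} {D : Subgroup Q} {W k : ℕ} {F : Finset Q} (hF : Fr U D W F) (hk : k ≤ W) (hk0 : 0 < k)
    {R : Type} [Zero R] (w : Q → R) {s : Q} (hs : s ∈ F) : spr U F k w s = w s := by
  have := spr_eq hF hk w hs hk0
  rwa [pow_zero, Equiv.Perm.one_apply] at this

theorem spr_lw {U : Up B} {D : Subgroup Q} {W k : ℕ} {F : Finset Q} (hF : Fr U D W F) (hk : k ≤ W) (w : Q → ℤ) (p : ℕ) :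
    LW U F k (fun y => ((spr U F k w y : ℤ) : ZMod p)) := by
  intro s hs t ht
  show ((spr U F k w ((U.U ^ t) s) : ℤ) : ZMod p) = ((spr U F k w s : ℤ) : ZMod p)
  rw [spr_eq hF hk w hs ht, spr_zero hF hk (by omega) w hs]

theorem pow_comm' {U : Up B} (m n : ℕ) (x : Q) : (U.U ^ m) ((U.U ^ n) x) = (U.U ^ n) ((U.U ^ m) x) := by
  rw [← U.U_pow_add, ← U.U_pow_add, add_comm]

variable [DecidableEq Q]

theorem mem_im' {U : Up B} {F : Finset Q} {t : ℕ} {v : Q} : (U.U ^ t) v ∈ im (U.U ^ t) F ↔ v ∈ F := by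
  rw [mem_im]
  have : (U.U ^ t)⁻¹ ((U.U ^ t) v) = v := (U.U ^ t).symm_apply_apply v
  rw [this]

theorem lvd {U : Up B} {D : Subgroup Q} {W : ℕ} {F : Finset Q} (hF : Fr U D W F) {n t : ℕ} (hn : n ≤ W) :
    LvD U n (im (U.U ^ t) F) := by
  intro x hx y hy s s' hs hs' h
  obtain ⟨x', rfl⟩ : ∃ x', x = (U.U ^ t) x' := ⟨(U.U ^ t)⁻¹ x, ((U.U ^ t).apply_symm_apply x).symm⟩
  obtain ⟨y', rfl⟩ : ∃ y', y = (U.U ^ t) y' := ⟨(U.U ^ t)⁻¹ y, ((U.U ^ t).apply_symm_apply y).symm⟩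
  rw [mem_im'] at hx hy
  rw [pow_comm', pow_comm' s'] at h
  have h1 := (U.U ^ t).injective h
  have h3 : (U.U ^ (s : ℤ)) x' = (U.U ^ (s' : ℤ)) y' := by rw [zpow_natCast, zpow_natCast]; exact h1
  have h4 := hF.eq hx hy h3 (abs_le.2 ⟨by omega, by omega⟩)
  exact ⟨by rw [h4.2], by omega⟩

end gen

section hyp

variable {Q : Type} [Group Q] {B : Lb.{0, 0} Q} {a : B.L} {eps : Q →* ℤˣ} {D : Subgroup Q} {z : Q} {k : ℕ}

theorem up_fix (H : Hyp B a eps D z k) (v : Q) (t : ℕ) : (H.up.U ^ t) v = v ↔ orderOf (B.q a) ∣ t := by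
  have h1 : (H.up.U ^ t) v = v * B.q a ^ (((eps v : ℤˣ) : ℤ) * t) := by
    rw [← zpow_natCast, H.zpow_eq]
  rw [h1, mul_eq_left, orderOf_dvd_iff_pow_eq_one]
  rcases Int.units_eq_one_or (eps v) with h | h
  · rw [h, Units.val_one, one_mul, zpow_natCast]
  · rw [h, Units.val_neg, Units.val_one, neg_one_mul, zpow_neg, zpow_natCast, inv_eq_one]

theorem up_inj (H : Hyp B a eps D z k) {v : Q} {t t' : ℕ} (h0 : 0 < t) (h1 : t ≤ orderOf (B.q a)) (h0' : 0 < t')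
    (h1' : t' ≤ orderOf (B.q a)) (h : (H.up.U ^ t) v = (H.up.U ^ t') v) : t = t' := by
  wlog hle : t ≤ t' generalizing t t' with H'
  · exact (H' h0' h1' h0 h1 h.symm (by omega)).symm
  obtain ⟨d, rfl⟩ := Nat.exists_eq_add_of_le hle
  rw [add_comm, H.up.U_pow_add] at h
  have h2 := ((up_fix H v d).1 ((H.up.U ^ t).injective h).symm)
  rcases Nat.eq_zero_or_pos d with h3 | h3
  · omega
  · have := Nat.le_of_dvd h3 h2
    omega

/-- The line of `x`. -/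
theorem line_iff (H : Hyp B a eps D z k) (x v : Q) :
    x⁻¹ * v ∈ zpowers (B.q a) ↔ ∃ t : ℕ, v = (H.up.U ^ t) x := by
  have := H.fin
  constructor
  · intro h
    have h1 : (x⁻¹ * v) ^ (((eps x : ℤˣ) : ℤ)) ∈ zpowers (B.q a) := Subgroup.zpow_mem _ h _
    rw [← (isOfFinOrder_of_finite (B.q a)).mem_powers_iff_mem_zpowers] at h1
    obtain ⟨n, hn⟩ := h1
    refine ⟨n, ?_⟩
    rw [← zpow_natCast, H.zpow_eq]
    rcases Int.units_eq_one_or (eps x) with h | h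
    · rw [h] at hn ⊢
      have h3 : B.q a ^ n = x⁻¹ * v := by simpa using hn
      rw [Units.val_one, one_mul, zpow_natCast, h3, mul_inv_cancel_left]
    · rw [h] at hn ⊢
      have h3 : B.q a ^ n = (x⁻¹ * v)⁻¹ := by simpa using hn
      rw [Units.val_neg, Units.val_one, neg_one_mul, zpow_neg, zpow_natCast, h3, inv_inv, mul_inv_cancel_left]
  · rintro ⟨t, rfl⟩
    rw [← zpow_natCast, H.zpow_eq, inv_mul_cancel_left]
    exact Subgroup.zpow_mem _ (Subgroup.mem_zpowers _) _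

/-- Index two. -/
theorem line_two (hi : (zpowers (B.q a)).index = 2) {x y v : Q} (h : x⁻¹ * y ∉ zpowers (B.q a))
    (hv : x⁻¹ * v ∉ zpowers (B.q a)) : y⁻¹ * v ∈ zpowers (B.q a) := by
  have h1 : (x⁻¹ * y)⁻¹ ∉ zpowers (B.q a) := fun h' => h (by rw [← inv_inv (x⁻¹ * y)]; exact Subgroup.inv_mem _ h')
  have h2 : (x⁻¹ * y)⁻¹ * (x⁻¹ * v) ∈ zpowers (B.q a) := (Subgroup.mul_mem_iff_of_index_two hi).2 (by tauto)
  have h3 : (x⁻¹ * y)⁻¹ * (x⁻¹ * v) = y⁻¹ * v := by group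
  rwa [h3] at h2

end hyp

/-! ### The tours -/

section tours

variable {Q : Type} [Group Q] [Fintype Q] [DecidableEq Q] {B : Lb.{0, 0} Q} {a : B.L} {eps : Q →* ℤˣ} {D : Subgroup Q}
  {z : Q} {k c W : ℕ} {H : Hyp B a eps D z k} {x s₁ s₂ : Q} {b₁ b₂ : B.L} {j : ℕ} {F : Finset Q}

omit [Fintype Q] [DecidableEq Q] in
theorem kW (C : SCtx B a H.up D k c W x s₁ s₂ b₁ b₂ j F) : k ≤ W := by
  have := cW' C
  have h1 : (0 : ℤ) ≤ c := Int.natCast_nonneg _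
  have h2 : (0 : ℤ) ≤ k := Int.natCast_nonneg _
  omega

/-- The weights of the case 1. -/
noncomputable def w1 (U : Up B) (x : Q) (d₁ d₂ : ℕ) (v : Q) : ℤ :=
  open Classical in
  if ∃ t : ℕ, 0 < t ∧ t ≤ d₁ ∧ v = (U.U ^ t) x then 1 else
    if ∃ t : ℕ, 0 < t ∧ t ≤ d₂ ∧ v = (U.U ^ t) x then -1 else 1

/-- The weights of the case 2. -/
noncomputable def w2 (U : Up B) (a : B.L) (x : Q) (d : ℕ) (v : Q) : ℤ :=
  open Classical in
  if ∃ t : ℕ, 0 < t ∧ t ≤ d ∧ v = (U.U ^ t) x then 1 else if x⁻¹ * v ∈ zpowers (B.q a) then -1 else 1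

/-- The weights of the case 3. -/
noncomputable def w3 (U : Up B) (a : B.L) (x l : Q) (d : ℕ) (γ : Bool) (v : Q) : ℤ :=
  open Classical in
  if x⁻¹ * v ∈ zpowers (B.q a) then (if γ then 0 else 1) else
    if ∃ t : ℕ, 0 < t ∧ t ≤ d ∧ v = (U.U ^ t) l then (if γ then 0 else -1) else (if γ then 1 else 0)

omit [Fintype Q] [DecidableEq Q] in
theorem ex_iff (H : Hyp B a eps D z k) {v : Q} {t n : ℕ} (h0 : 0 < t) (h1 : t ≤ orderOf (B.q a))
    (hn : n ≤ orderOf (B.q a)) : (∃ t' : ℕ, 0 < t' ∧ t' ≤ n ∧ (H.up.U ^ t) v = (H.up.U ^ t') v) ↔ t ≤ n := by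
  constructor
  · rintro ⟨t', h2, h3, h4⟩
    rw [up_inj H h0 h1 h2 (h3.trans hn) h4]
    exact h3
  · intro h
    exact ⟨t, h0, h, rfl⟩

/-- Case 1. -/
theorem tour1 (hn : HnS) (mk : Mk1S) (fw : FW1S) (C : SCtx B a H.up D k c W x s₁ s₂ b₁ b₂ j F) {d₁ d₂ : ℕ}
    (E : Pos1 B a H.up x s₁ s₂ d₁ d₂) (hi : (zpowers (B.q a)).index = 1) (hFc : F.card ≤ (Nat.card B.L + 2) ^ 4 * k)
    {m : ℕ} (V : Vd B (ZMod m)) (hN : Nm B a k c W m) (hz : V.chi z = 1)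
    (hK : ∀ p, ∀ hp : p ∈ m.primeFactors, KapC (V.map (red (Nat.dvd_of_mem_primeFactors hp))) a eps) :
    ∃ T : TourS B Bool, ∀ γ : Bool, (∃ x, T.cls x = γ) → IsUnit (T.vol V γ) := by
  have P : PS H C := (exists_PS SQ3.gadN1 SQ3.gadN2 cgadS C).some
  have hkW := kW C
  have htop : ∀ v : Q, v ∈ zpowers (B.q a) := fun v => by rw [Subgroup.index_eq_one.1 hi]; trivial
  refine asm0 hn Q B a eps D z k c W H x s₁ s₂ b₁ b₂ j F C P m V hFc hN hz hK (fun _ => w1 H.up x d₁ d₂)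
    (fun _ => false) ?_ ?_
  · intro n t hn0 hnW ht
    have h1 : (H.up.U ^ t) s₁ = (H.up.U ^ d₂) ((H.up.U ^ t) x) := by rw [pow_comm', E.h₁]
    have h2 : (H.up.U ^ t) s₂ = (H.up.U ^ d₁) ((H.up.U ^ t) x) := by rw [pow_comm', E.h₂]
    rw [h1, h2]
    refine mk Q B H.up (im (H.up.U ^ t) F) (orderOf (B.q a)) n d₁ d₂ ((H.up.U ^ t) x) _ hn0 (lvd C.fr (by omega))
      (up_fix H) (fun v => (line_iff H _ v).1 (htop _)) (mem_im'.2 C.fx) ?_ ?_ E.p₁ E.p₂ E.p₃ ?_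
    · rw [← h2]; exact mem_im'.2 C.lv.h₂
    · rw [← h1]; exact mem_im'.2 C.lv.h₁
    · intro t' h3 h4 h5
      rw [pow_comm'] at h5 ⊢
      rw [mem_im'] at h5
      show spr H.up F k (w1 H.up x d₁ d₂) ((H.up.U ^ t) ((H.up.U ^ t') x)) = _
      rw [spr_eq C.fr hkW _ h5 ht]
      unfold w1
      have e1 := ex_iff H (v := x) h3 h4 (le_of_lt (E.p₂.trans E.p₃))
      have e2 := ex_iff H (v := x) h3 h4 E.p₃.le
      by_cases c1 : t' ≤ d₁
      · rw [if_pos c1, if_pos (e1.2 c1)]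
      · rw [if_neg c1, if_neg (fun h => c1 (e1.1 h))]
        by_cases c2 : t' ≤ d₂
        · rw [if_pos c2, if_pos (e2.2 c2)]
        · rw [if_neg c2, if_neg (fun h => c2 (e2.1 h))]
  · intro p hp V' hz' γ hγ hc
    have hpp := Nat.prime_of_mem_primeFactors hp
    have hf : Fact p.Prime := ⟨hpp⟩
    rcases hc with ⟨t, hI, hI'⟩ | ⟨t, hα, ht, -⟩
    · refine fw Q B a eps D z k c W H x s₁ s₂ b₁ b₂ j F C P p hpp (hN.prm p hp).1 V' hz' _
        (spr_lw C.fr hkW _ p) ?_ E.com t hI hI'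
      intro s hs
      show ((spr H.up F k (w1 H.up x d₁ d₂) s : ℤ) : ZMod p) ≠ 0
      rw [spr_zero C.fr hkW H.kpos _ hs]
      unfold w1
      split_ifs <;> simp
    · exfalso
      apply ht
      obtain ⟨n, hn⟩ := Subgroup.mem_zpowers_iff.1 (htop (B.q t))
      rw [← hn, map_zpow eps, H.ea, one_zpow, chi_zp V' hα]
      simp

/-- Case 2. -/
theorem tour2 (hn : HnS) (mk : Mk2S) (fw : FW1S) (fw2 : FW2S) (C : SCtx B a H.up D k c W x s₁ s₂ b₁ b₂ j F) {d : ℕ}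
    (E : Pos2 B a H.up x s₁ s₂ b₂ d) (hi : (zpowers (B.q a)).index = 2) (hFc : F.card ≤ (Nat.card B.L + 2) ^ 4 * k)
    {m : ℕ} (V : Vd B (ZMod m)) (hN : Nm B a k c W m) (hz : V.chi z = 1)
    (hK : ∀ p, ∀ hp : p ∈ m.primeFactors, KapC (V.map (red (Nat.dvd_of_mem_primeFactors hp))) a eps) :
    ∃ T : TourS B Bool, ∀ γ : Bool, (∃ x, T.cls x = γ) → IsUnit (T.vol V γ) := by
  have P : PS H C := (exists_PS SQ3.gadN1 SQ3.gadN2 cgadS C).some
  have hkW := kW C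
  have hl : ∀ t t' : ℕ, (H.up.U ^ t') s₁ ≠ (H.up.U ^ t) x := by
    intro t t' h
    apply E.l₁
    have h1 : s₁⁻¹ * (H.up.U ^ t) x ∈ zpowers (B.q a) := (line_iff H _ _).2 ⟨t', h.symm⟩
    have h2 : x⁻¹ * (H.up.U ^ t) x ∈ zpowers (B.q a) := (line_iff H _ _).2 ⟨t, rfl⟩
    have h3 := Subgroup.mul_mem _ h2 (Subgroup.inv_mem _ h1)
    have h4 : x⁻¹ * (H.up.U ^ t) x * (s₁⁻¹ * (H.up.U ^ t) x)⁻¹ = x⁻¹ * s₁ := by group
    rwa [h4] at h3
  have hlx : ∀ t : ℕ, x⁻¹ * (H.up.U ^ t) x ∈ zpowers (B.q a) := fun t => (line_iff H _ _).2 ⟨t, rfl⟩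
  refine asm0 hn Q B a eps D z k c W H x s₁ s₂ b₁ b₂ j F C P m V hFc hN hz hK (fun _ => w2 H.up a x d)
    (fun _ => false) ?_ ?_
  · intro n t hn0 hnW ht
    have h2 : (H.up.U ^ t) s₂ = (H.up.U ^ d) ((H.up.U ^ t) x) := by rw [pow_comm', E.h₂]
    rw [h2]
    refine mk Q B H.up (im (H.up.U ^ t) F) (orderOf (B.q a)) n d ((H.up.U ^ t) x) ((H.up.U ^ t) s₁) _ hn0
      (lvd C.fr (by omega)) (up_fix H) ?_ ?_ (mem_im'.2 C.fx) ?_ (mem_im'.2 C.lv.h₁) E.p₁ E.p₂ ?_ ?_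
    · intro v
      rcases em (((H.up.U ^ t) x)⁻¹ * v ∈ zpowers (B.q a)) with h | h
      · exact Or.inl ((line_iff H _ v).1 h)
      · refine Or.inr ((line_iff H _ v).1 (line_two hi (x := (H.up.U ^ t) x) ?_ h))
        intro h3
        obtain ⟨t', ht'⟩ := (line_iff H _ _).1 h3
        rw [← H.up.U_pow_add] at ht'
        exact hl _ _ ht'
    · intro t' h
      rw [← H.up.U_pow_add] at h
      exact hl _ _ h
    · rw [← h2]; exact mem_im'.2 C.lv.h₂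
    · intro t' h3 h4 h5
      rw [pow_comm'] at h5 ⊢
      rw [mem_im'] at h5
      show spr H.up F k (w2 H.up a x d) ((H.up.U ^ t) ((H.up.U ^ t') x)) = _
      rw [spr_eq C.fr hkW _ h5 ht]
      unfold w2
      have e1 := ex_iff H (v := x) h3 h4 E.p₂.le
      by_cases c1 : t' ≤ d
      · rw [if_pos c1, if_pos (e1.2 c1)]
      · rw [if_neg c1, if_neg (fun h => c1 (e1.1 h)), if_pos (hlx _)]
    · intro t' h5
      rw [pow_comm'] at h5 ⊢
      rw [mem_im'] at h5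
      show spr H.up F k (w2 H.up a x d) ((H.up.U ^ t) ((H.up.U ^ t') s₁)) = _
      rw [spr_eq C.fr hkW _ h5 ht]
      unfold w2
      rw [if_neg, if_neg]
      · intro h
        obtain ⟨t'', h6⟩ := (line_iff H _ _).1 h
        exact hl _ _ h6
      · rintro ⟨t'', -, -, h6⟩
        exact hl _ _ h6
  · intro p hp V' hz' γ hγ hc
    have hpp := Nat.prime_of_mem_primeFactors hp
    have hf : Fact p.Prime := ⟨hpp⟩
    rcases hc with ⟨t, hI, hI'⟩ | ⟨t, -, -, hII⟩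
    · refine fw Q B a eps D z k c W H x s₁ s₂ b₁ b₂ j F C P p hpp (hN.prm p hp).1 V' hz' _
        (spr_lw C.fr hkW _ p) ?_ E.com t hI hI'
      intro s hs
      show ((spr H.up F k (w2 H.up a x d) s : ℤ) : ZMod p) ≠ 0
      rw [spr_zero C.fr hkW H.kpos _ hs]
      unfold w2
      split_ifs <;> simp
    · refine fw2 Q B a eps D z k c W H x s₁ s₂ b₁ b₂ j F C P d hi E p hpp (hN.prm p hp).1 V' hz' _
        (spr_lw C.fr hkW _ p) ?_ ?_ t hII
      · show ((spr H.up F k (w2 H.up a x d) s₂ : ℤ) : ZMod p) = 1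
        rw [spr_zero C.fr hkW H.kpos _ C.lv.h₂]
        unfold w2
        rw [if_pos ⟨d, E.p₁, le_rfl, E.h₂.symm⟩]
        simp
      · intro s hs h
        show ((spr H.up F k (w2 H.up a x d) s : ℤ) : ZMod p) = 1
        rw [spr_zero C.fr hkW H.kpos _ hs]
        unfold w2
        rw [if_neg, if_neg h]
        · simp
        · rintro ⟨t, -, -, h1⟩
          exact h (by rw [h1]; exact hlx t)

/-- Case 3. -/
theorem tour3 (hn : HnS) (mk : Mk3S) (f3a : F3AS) (f3n : F3NS) (f3b : F3BS)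
    (C : SCtx B a H.up D k c W x s₁ s₂ b₁ b₂ j F) {d : ℕ} {u : Q}
    (E : Pos3 B a H.up c F x s₁ s₂ u d) (hi : (zpowers (B.q a)).index = 2)
    (hFc : F.card ≤ (Nat.card B.L + 2) ^ 4 * k)
    {m : ℕ} (V : Vd B (ZMod m)) (hN : Nm B a k c W m) (hz : V.chi z = 1)
    (hK : ∀ p, ∀ hp : p ∈ m.primeFactors, KapC (V.map (red (Nat.dvd_of_mem_primeFactors hp))) a eps) :
    ∃ T : TourS B Bool, ∀ γ : Bool, (∃ x, T.cls x = γ) → IsUnit (T.vol V γ) := by
  have P : PS H C := (exists_PS SQ3.gadN1 SQ3.gadN2 cgadS C).some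
  have hkW := kW C
  have hfin := H.fin
  have hM : 0 < orderOf (B.q a) := orderOf_pos _
  have hl : ∀ t t' : ℕ, (H.up.U ^ t') s₂ ≠ (H.up.U ^ t) x := by
    intro t t' h
    apply E.l₂
    have h1 : s₂⁻¹ * (H.up.U ^ t) x ∈ zpowers (B.q a) := (line_iff H _ _).2 ⟨t', h.symm⟩
    have h2 : x⁻¹ * (H.up.U ^ t) x ∈ zpowers (B.q a) := (line_iff H _ _).2 ⟨t, rfl⟩
    have h3 := Subgroup.mul_mem _ h2 (Subgroup.inv_mem _ h1)
    have h4 : x⁻¹ * (H.up.U ^ t) x * (s₂⁻¹ * (H.up.U ^ t) x)⁻¹ = x⁻¹ * s₂ := by group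
    rwa [h4] at h3
  have hlx : ∀ t : ℕ, x⁻¹ * (H.up.U ^ t) x ∈ zpowers (B.q a) := fun t => (line_iff H _ _).2 ⟨t, rfl⟩
  have hls : ∀ t : ℕ, x⁻¹ * (H.up.U ^ t) s₂ ∉ zpowers (B.q a) := by
    intro t h
    obtain ⟨t', h1⟩ := (line_iff H _ _).1 h
    exact hl _ _ h1
  -- the strand `u`
  obtain ⟨e, he0, heM, heu⟩ : ∃ e : ℕ, 0 < e ∧ e < orderOf (B.q a) ∧ (H.up.U ^ e) x = u := by
    obtain ⟨t, ht⟩ := (line_iff H _ _).1 E.u_line
    have h1 : (H.up.U ^ (t % orderOf (B.q a))) x = u := by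
      rw [ht]
      conv_rhs => rw [← Nat.mod_add_div t (orderOf (B.q a)), H.up.U_pow_add]
      exact ((up_fix H _ _).2 (dvd_mul_right _ _)).symm
    refine ⟨t % orderOf (B.q a), Nat.pos_of_ne_zero fun h => ?_, Nat.mod_lt _ hM, h1⟩
    rw [h, pow_zero] at h1
    exact E.u_ne h1.symm
  have hdM : d < orderOf (B.q a) := by have := E.half; have := E.p₁; omega
  have hw₂ : ∀ t : ℕ, 0 < t → t ≤ orderOf (B.q a) →
      w3 H.up a x s₂ d false ((H.up.U ^ t) s₂) = (if t ≤ d then -1 else 0) ∧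
      w3 H.up a x s₂ d true ((H.up.U ^ t) s₂) = if t ≤ d then 0 else 1 := by
    intro t h1 h2
    have e1 := ex_iff H (v := s₂) h1 h2 hdM.le
    unfold w3
    rw [if_neg (hls t), if_neg (hls t)]
    by_cases c1 : t ≤ d
    · rw [if_pos (e1.2 c1), if_pos (e1.2 c1), if_pos c1, if_pos c1]
      simp
    · rw [if_neg (fun h => c1 (e1.1 h)), if_neg (fun h => c1 (e1.1 h)), if_neg c1, if_neg c1]
      simp
  have hw₁ : ∀ s, x⁻¹ * s ∈ zpowers (B.q a) → w3 H.up a x s₂ d false s = 1 ∧ w3 H.up a x s₂ d true s = 0 := by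
    intro s hs
    unfold w3
    rw [if_pos hs, if_pos hs]
    simp
  classical
  refine asm0 hn Q B a eps D z k c W H x s₁ s₂ b₁ b₂ j F C P m V hFc hN hz hK (w3 H.up a x s₂ d)
    (fun v => decide (x⁻¹ * v ∉ zpowers (B.q a))) ?_ ?_
  · intro n t hn0 hnW ht
    have h1 : (H.up.U ^ t) s₁ = (H.up.U ^ d) ((H.up.U ^ t) s₂) := by rw [pow_comm', E.h₁]
    have h2 : (H.up.U ^ t) u = (H.up.U ^ e) ((H.up.U ^ t) x) := by rw [pow_comm', heu]
    rw [h1]
    refine mk Q B H.up (im (H.up.U ^ t) F) (orderOf (B.q a)) n d e ((H.up.U ^ t) x) ((H.up.U ^ t) s₂) _ _ hn0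
      (lvd C.fr (by omega)) (up_fix H) ?_ ?_ (mem_im'.2 C.fx) ?_ he0 heM (mem_im'.2 C.lv.h₂) ?_ E.p₁ hdM ?_ ?_ ?_ ?_
    · intro v
      rcases em (((H.up.U ^ t) x)⁻¹ * v ∈ zpowers (B.q a)) with h | h
      · exact Or.inl ((line_iff H _ v).1 h)
      · refine Or.inr ((line_iff H _ v).1 (line_two hi (x := (H.up.U ^ t) x) ?_ h))
        intro h3
        obtain ⟨t', ht'⟩ := (line_iff H _ _).1 h3
        rw [← H.up.U_pow_add] at ht'
        exact hl _ _ ht'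
    · intro t' h
      rw [← H.up.U_pow_add] at h
      exact hl _ _ h
    · rw [← h2]; exact mem_im'.2 E.u_mem
    · rw [← h1]; exact mem_im'.2 C.lv.h₁
    · intro t' h5
      rw [pow_comm'] at h5 ⊢
      rw [mem_im'] at h5
      show spr H.up F k (w3 H.up a x s₂ d false) ((H.up.U ^ t) ((H.up.U ^ t') x)) = _ ∧
        spr H.up F k (w3 H.up a x s₂ d true) ((H.up.U ^ t) ((H.up.U ^ t') x)) = _
      rw [spr_eq C.fr hkW _ h5 ht, spr_eq C.fr hkW _ h5 ht]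
      exact hw₁ _ (hlx t')
    · intro t' h3 h4 h5
      rw [pow_comm'] at h5 ⊢
      rw [mem_im'] at h5
      show spr H.up F k (w3 H.up a x s₂ d false) ((H.up.U ^ t) ((H.up.U ^ t') s₂)) = _ ∧
        spr H.up F k (w3 H.up a x s₂ d true) ((H.up.U ^ t) ((H.up.U ^ t') s₂)) = _
      rw [spr_eq C.fr hkW _ h5 ht, spr_eq C.fr hkW _ h5 ht]
      exact hw₂ t' h3 h4
    · exact ⟨s₂, decide_eq_true E.l₂⟩
    · refine ⟨x, decide_eq_false fun h => h ?_⟩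
      rw [inv_mul_cancel]
      exact Subgroup.one_mem _
  · intro p hp V' hz' γ hγ hc
    have hpp := Nat.prime_of_mem_primeFactors hp
    have hf : Fact p.Prime := ⟨hpp⟩
    have hW3 : Wt3 B a H.up k F x s₂ d (fun γ y => ((spr H.up F k (w3 H.up a x s₂ d γ) y : ℤ) : ZMod p)) := by
      refine ⟨fun γ => spr_lw C.fr hkW _ p, ?_, ?_⟩
      · intro s hs h
        show ((spr H.up F k (w3 H.up a x s₂ d false) s : ℤ) : ZMod p) = 1 ∧
          ((spr H.up F k (w3 H.up a x s₂ d true) s : ℤ) : ZMod p) = 0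
        rw [spr_zero C.fr hkW H.kpos _ hs, spr_zero C.fr hkW H.kpos _ hs, (hw₁ s h).1, (hw₁ s h).2]
        simp
      · intro t h1 h2 h3
        show ((spr H.up F k (w3 H.up a x s₂ d false) ((H.up.U ^ t) s₂) : ℤ) : ZMod p) = _ ∧
          ((spr H.up F k (w3 H.up a x s₂ d true) ((H.up.U ^ t) s₂) : ℤ) : ZMod p) = _
        rw [spr_zero C.fr hkW H.kpos _ h3, spr_zero C.fr hkW H.kpos _ h3, (hw₂ t h1 h2).1, (hw₂ t h1 h2).2]
        constructor <;> split_ifs <;> simp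
    rcases hc with ⟨t, hI, hI'⟩ | ⟨t, -, -, hII⟩
    · by_cases hcom : Com H.up t
      · exact f3a Q B a eps D z k c W H x s₁ s₂ u b₁ b₂ j F C P d hi E p hpp (hN.prm p hp).1 V' hz' _ hW3 t hcom hI hI' γ
      · exact f3n Q B a eps D z k c W H x s₁ s₂ u b₁ b₂ j F C P d hi E p hpp (hN.prm p hp).1 V' hz' _ hW3 t hcom hI γ
    · exact f3b Q B a eps D z k c W H x s₁ s₂ u b₁ b₂ j F C P d hi E p hpp (hN.prm p hp).1 V' hz' _ hW3 t hII γ

end tours

/-- The small cases at the level of the quotient. -/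
theorem sq (rg1 : Rg1S) (rg2 : Rg2S) (hn : HnS) (mk1 : Mk1S) (mk2 : Mk2S) (mk3 : Mk3S) (cn1 : CN1S) (cn2 : CN2S)
    (cn3 : CN3S) (fw1 : FW1S) (fw2 : FW2S) (f3a : F3AS) (f3n : F3NS) (f3b : F3BS) : SqS := by
  intro Q _ _ _ B a eps D z k c W H hidx hev hod hSi hSe hLe m V hN hz hK
  have hfin := H.fin
  have hlam : lam ((Nat.card B.L + 2) ^ 4 * k) k c ≤ W := by
    have h1 := need_le (Λ := lam ((Nat.card B.L + 2) ^ 4 * k) k c) H.kpos le_rfl hN.need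
    have h2 : 1 * lam ((Nat.card B.L + 2) ^ 4 * k) k c ≤ ((2 * m.primeFactors.card) ^ 2 + 1) *
      lam ((Nat.card B.L + 2) ^ 4 * k) k c := Nat.mul_le_mul_right _ (by omega)
    omega
  have hi : (zpowers (B.q a)).index = 1 ∨ (zpowers (B.q a)).index = 2 := by
    have := Subgroup.index_ne_zero_of_finite (H := zpowers (B.q a))
    omega
  rcases hi with hi | hi
  · by_cases hr : Rig1 B a
    · exact Or.inl (rg1 Q B a eps D z k H hi hr c W m V hN hz hK)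
    · right
      obtain ⟨x, s₁, s₂, b₁, b₂, F, d₁, d₂, h1, C, E⟩ := cn1 Q B a eps D z k c W H hSi hSe hLe hlam hi hev hod hr
      exact tour1 hn mk1 fw1 C E hi h1 V hN hz hK
  · by_cases hcm : ∀ b, B.q b ∉ zpowers (B.q a) → Cm B a eps b
    · by_cases hfar : ∃ b, B.q b ∈ zpowers (B.q a) ∧ B.q b ≠ B.q a ∧ B.q b ≠ (B.q a)⁻¹
      · right
        obtain ⟨x, s₁, s₂, b₁, b₂, F, d, h1, C, E⟩ := cn2 Q B a eps D z k c W H hSi hSe hLe hlam hi hcm hfar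
        exact tour2 hn mk2 fw1 fw2 C E hi h1 V hN hz hK
      · by_cases h3 : ∃ b b', B.q b ∉ zpowers (B.q a) ∧ B.q b' ∉ zpowers (B.q a) ∧
          ∀ i : ℤ, |i| ≤ c → B.q b' ≠ B.q a ^ i * B.q b
        · right
          obtain ⟨x, s₁, s₂, u, b₁, b₂, j, F, d, h1, C, E⟩ := cn3 Q B a eps D z k c W H hSi hSe hLe hlam hi
            (Or.inr ⟨hcm, h3⟩)
          exact tour3 hn mk3 f3a f3n f3b C E hi h1 V hN hz hK
        · left
          refine rg2 Q B a eps D z k c W H hi ⟨?_, hcm, ?_⟩ m V hN hz hK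
          · intro b hb
            by_contra h
            push Not at h
            exact hfar ⟨b, hb, h⟩
          · intro b b' hb hb'
            by_contra h
            push Not at h
            exact h3 ⟨b, b', hb, hb', h⟩
    · right
      push Not at hcm
      obtain ⟨x, s₁, s₂, u, b₁, b₂, j, F, d, h1, C, E⟩ := cn3 Q B a eps D z k c W H hSi hSe hLe hlam hi (Or.inl hcm)
      exact tour3 hn mk3 f3a f3n f3b C E hi h1 V hN hz hK

end Pool.Agent.Lib.MP_688fd0_co.SQ3.Small
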