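import Pool.Agent.Lib.MP_688fd0_co.SQ3.Small.Iface

/-!
Row T1: two closed walks, traversed several times each, are the blocks of BW. (helper6)
-/

set_option autoImplicit false

namespace Pool.Agent.Lib.MP_688fd0_co.SQ3.Small

open Pool.Agent.Lib.MP_688fd0_co.OSF Pool.Agent.Lib.MP_688fd0_co.SQ2

namespace H6

universe u v w

section

variable {Q : Type u} [Group Q] {B : Lb.{u, v} Q} {R : Type w} [CommRing R] (V : Vd B R)

theorem vol_append (x : Q) (l l' : List B.L) : V.vol x (l ++ l') = V.vol x l + V.vol (B.fin x l) l' := by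
  induction l generalizing x with
  | nil => show V.vol x l' = 0 + V.vol x l'; rw [zero_add]
  | cons g l ih =>
    show V.chi x * V.n g + V.vol (x * B.q g) (l ++ l') = V.chi x * V.n g + V.vol (x * B.q g) l + _
    rw [ih, add_assoc]; rfl

theorem ef_rounds (x₀ : Q) (w : List B.L) (hw : B.fin x₀ w = x₀) (r : R) : ∀ n : ℕ,
    ef V (x₀, r) (List.replicate n w).flatten = (x₀, r + n * V.vol x₀ w)
  | 0 => by simp [ef]
  | n + 1 => by
    rw [List.replicate_succ', List.flatten_append, ef_append, ef_rounds x₀ w hw r n, List.flatten_singleton, ef_eq]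
    simp only [hw, Prod.mk.injEq, true_and]
    push_cast
    ring

theorem es_rounds (x₀ : Q) (w : List B.L) (hw : B.fin x₀ w = x₀) (r : R) : ∀ n : ℕ,
    es V (x₀, r) (List.replicate n w).flatten =
      (List.range n).flatMap fun i : ℕ => (es V (x₀, r) w).map fun y => (y.1, y.2 + (i : R) * V.vol x₀ w)
  | 0 => rfl
  | n + 1 => by
    have e := es_add V (x₀, r) (n * V.vol x₀ w) w
    simp only at e
    rw [List.replicate_succ', List.flatten_append, es_append, es_rounds x₀ w hw r n, List.range_succ,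
      List.flatMap_append, ef_rounds V x₀ w hw r n, List.flatten_singleton, e]
    simp

/-- The first components of the vertices of a walk determine them. -/
theorem es_inj (x : Q × R) (w : List B.L) (hnd : (src B x.1 w).Nodup) (y z : Q × R) (hy : y ∈ es V x w)
    (hz : z ∈ es V x w) (h : y.1 = z.1) : y = z := by
  rw [← es_fst V x w] at hnd
  exact List.inj_on_of_nodup_map hnd hy hz h

/-- The block: `n - 1` times the closed walk `lX ++ [g]`, and then `lX`. -/
def blk (lX : List B.L) (g : B.L) (n : ℕ) : List B.L := (List.replicate (n - 1) (lX ++ [g])).flatten ++ lX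

theorem es_snoc (x : Q × R) (lX : List B.L) (g : B.L) : es V x (lX ++ [g]) = ev V x lX := by
  rw [es_append, ev_eq]; rfl

theorem fin_eq_ef (x₀ : Q) (r : R) (l : List B.L) : B.fin x₀ l = (ef V (x₀, r) l).1 := by
  rw [ef_eq]

include V in
theorem fin_blk (x₀ : Q) (lX : List B.L) (g : B.L) (hw : B.fin x₀ (lX ++ [g]) = x₀) (n : ℕ) :
    B.fin x₀ (blk lX g n) = B.fin x₀ lX := by
  rw [fin_eq_ef V x₀ 0, blk, ef_append, ef_rounds V x₀ _ hw, ef_eq]

theorem vol_blk (x₀ : Q) (lX : List B.L) (g : B.L) (hw : B.fin x₀ (lX ++ [g]) = x₀) (n : ℕ) :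
    V.vol x₀ (blk lX g n) = ((n - 1 : ℕ) : R) * V.vol x₀ (lX ++ [g]) + V.vol x₀ lX := by
  have h1 := ef_rounds V x₀ (lX ++ [g]) hw 0 (n - 1)
  rw [ef_eq] at h1
  simp only [Prod.mk.injEq, zero_add] at h1
  rw [blk, vol_append, h1.1, h1.2]

theorem ev_blk (x₀ : Q) (lX : List B.L) (g : B.L) (hw : B.fin x₀ (lX ++ [g]) = x₀) (n : ℕ) (hn : 0 < n) :
    ev V (x₀, 0) (blk lX g n) =
      (List.range n).flatMap fun i : ℕ => (ev V (x₀, 0) lX).map fun y => (y.1, y.2 + (i : R) * V.vol x₀ (lX ++ [g])) := by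
  rw [← es_snoc V (x₀, 0) (blk lX g n) g, ← es_snoc V (x₀, 0) lX g, ← es_rounds V x₀ _ hw 0 n]
  congr 1
  rw [blk, List.append_assoc]
  obtain ⟨k, rfl⟩ : ∃ k, n = k + 1 := ⟨n - 1, by omega⟩
  rw [Nat.add_sub_cancel, List.replicate_succ', List.flatten_append, List.flatten_singleton]

theorem mem_blk [Finite R] (x₀ : Q) (lX : List B.L) (g : B.L) (hw : B.fin x₀ (lX ++ [g]) = x₀) (q : Q) (r : R) :
    (q, r) ∈ ev V (x₀, 0) (blk lX g (addOrderOf (V.vol x₀ (lX ++ [g])))) ↔
      ∃ r₀, (q, r₀) ∈ ev V (x₀, 0) lX ∧ r - r₀ ∈ AddSubgroup.zmultiples (V.vol x₀ (lX ++ [g])) := by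
  have hpos : 0 < addOrderOf (V.vol x₀ (lX ++ [g])) := addOrderOf_pos _
  rw [ev_blk V x₀ lX g hw _ hpos]
  simp only [List.mem_flatMap, List.mem_range, List.mem_map]
  classical
  constructor
  · rintro ⟨i, hi, ⟨a, b⟩, hab, he⟩
    simp only [Prod.mk.injEq] at he
    refine ⟨b, he.1 ▸ hab, ?_⟩
    rw [← he.2, add_sub_cancel_left, ← nsmul_eq_mul]
    exact AddSubgroup.nsmul_mem_zmultiples _ _
  · rintro ⟨r₀, h1, h2⟩
    rw [mem_zmultiples_iff_mem_range_addOrderOf] at h2
    simp only [Finset.mem_image, Finset.mem_range] at h2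
    obtain ⟨i, hi, he⟩ := h2
    refine ⟨i, hi, (q, r₀), h1, ?_⟩
    rw [nsmul_eq_mul] at he
    simp only [Prod.mk.injEq, true_and]
    rw [he]; ring

theorem ev_inj (x : Q × R) (lX : List B.L) (hnd : (B.verts x.1 lX).Nodup) (y z : Q × R) (hy : y ∈ ev V x lX)
    (hz : z ∈ ev V x lX) (h : y.1 = z.1) : y = z := by
  rw [← ev_fst V x lX] at hnd
  exact List.inj_on_of_nodup_map hnd hy hz h

theorem nodup_blk [Finite R] (x₀ : Q) (lX : List B.L) (g : B.L) (hw : B.fin x₀ (lX ++ [g]) = x₀)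
    (hnd : (B.verts x₀ lX).Nodup) :
    (ev V (x₀, 0) (blk lX g (addOrderOf (V.vol x₀ (lX ++ [g]))))).Nodup := by
  have hpos : 0 < addOrderOf (V.vol x₀ (lX ++ [g])) := addOrderOf_pos _
  rw [ev_blk V x₀ lX g hw _ hpos, List.nodup_flatMap]
  have hnd' : (ev V (x₀, (0 : R)) lX).Nodup := by
    refine List.Nodup.of_map Prod.fst ?_
    rw [ev_fst]; exact hnd
  constructor
  · intro i _
    refine hnd'.map ?_
    rintro ⟨a, b⟩ ⟨a', b'⟩ hab
    simpa using hab
  · have hr : (List.range (addOrderOf (V.vol x₀ (lX ++ [g])))).Pairwise (fun a b =>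
        a ≠ b ∧ a < addOrderOf (V.vol x₀ (lX ++ [g])) ∧ b < addOrderOf (V.vol x₀ (lX ++ [g]))) := by
      have h1 : (List.range (addOrderOf (V.vol x₀ (lX ++ [g])))).Pairwise (· ≠ ·) := List.nodup_range
      refine h1.imp_of_mem ?_
      intro a b ha hb hab
      exact ⟨hab, List.mem_range.1 ha, List.mem_range.1 hb⟩
    refine hr.imp ?_
    rintro i j ⟨hij, hi, hj⟩
    rw [Function.onFun, List.disjoint_left]
    rintro ⟨q, r⟩ h1 h2
    obtain ⟨⟨a, b⟩, hab, he⟩ := List.mem_map.1 h1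
    obtain ⟨⟨a', b'⟩, hab', he'⟩ := List.mem_map.1 h2
    simp only [Prod.mk.injEq] at he he'
    have h3 := ev_inj V (x₀, 0) lX hnd _ _ hab hab' (he.1.trans he'.1.symm)
    simp only [Prod.mk.injEq] at h3
    have h4 : i • V.vol x₀ (lX ++ [g]) = j • V.vol x₀ (lX ++ [g]) := by
      rw [nsmul_eq_mul, nsmul_eq_mul]
      have := he.2.trans he'.2.symm
      rw [h3.2] at this
      exact add_left_cancel this
    exact hij (nsmul_injOn_Iio_addOrderOf hi hj h4)

theorem period_blk [Finite R] (x₀ : Q) (lX : List B.L) (g : B.L) (hw : B.fin x₀ (lX ++ [g]) = x₀)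
    (hnd : (B.verts x₀ lX).Nodup) (q : Q) (r t : R)
    (h : (q, r) ∈ ev V (x₀, 0) (blk lX g (addOrderOf (V.vol x₀ (lX ++ [g]))))) :
    (q, r + t) ∈ ev V (x₀, 0) (blk lX g (addOrderOf (V.vol x₀ (lX ++ [g])))) ↔
      t ∈ AddSubgroup.zmultiples (V.vol x₀ (lX ++ [g])) := by
  rw [mem_blk V x₀ lX g hw] at h ⊢
  obtain ⟨r₀, h1, h2⟩ := h
  constructor
  · rintro ⟨r₁, h3, h4⟩
    have h5 := ev_inj V (x₀, 0) lX hnd _ _ h1 h3 rfl
    simp only [Prod.mk.injEq, true_and] at h5
    subst h5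
    have h6 := AddSubgroup.sub_mem _ h4 h2
    have h7 : r + t - r₀ - (r - r₀) = t := by ring
    rwa [h7] at h6
  · intro ht
    refine ⟨r₀, h1, ?_⟩
    have h7 : r + t - r₀ = (r - r₀) + t := by ring
    rw [h7]
    exact AddSubgroup.add_mem _ h2 ht

end

theorem rd_add {m p : ℕ} (h : p ∣ m) (x y : ZMod m) : rd p (x + y) = rd p x + rd p y := ZMod.cast_add h x y

theorem rd_mul {m p : ℕ} (h : p ∣ m) (x y : ZMod m) : rd p (x * y) = rd p x * rd p y := ZMod.cast_mul h x y

theorem rd_eq_zero {m : ℕ} [NeZero m] (p : ℕ) (x : ZMod m) : rd p x = 0 ↔ p ∣ x.val := by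
  rw [rd, ← ZMod.natCast_val, ZMod.natCast_eq_zero_iff]

/-- The subgroup generated by `v` is determined by the primes `p` with `rd p v = 0`. -/
theorem mem_zm (hz : ZmS) {m : ℕ} [NeZero m] (hsq : Squarefree m) (v v' : ZMod m)
    (h : ∀ p ∈ m.primeFactors, rd p v = 0 → rd p v' = 0) : v' ∈ AddSubgroup.zmultiples v := by
  have hm : m ≠ 0 := NeZero.ne m
  set K : AddSubgroup (ZMod m) := (AddSubgroup.zmultiples v).comap (AddMonoidHom.mulRight v') with hK
  have hKt : K = ⊤ := by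
    refine hz m K ?_
    intro p hp
    by_cases hv : rd p v = 0
    · refine ⟨((m / p : ℕ) : ZMod m), ?_, ?_⟩
      · rw [hK, AddSubgroup.mem_comap]
        have hp' := (rd_eq_zero p v').1 (h p hp hv)
        have e : (AddMonoidHom.mulRight v') ((m / p : ℕ) : ZMod m) = 0 := by
          show ((m / p : ℕ) : ZMod m) * v' = 0
          rw [← ZMod.natCast_zmod_val v', ← Nat.cast_mul, ZMod.natCast_eq_zero_iff]
          obtain ⟨t, ht⟩ := hp'
          rw [ht, ← mul_assoc, Nat.div_mul_cancel (Nat.dvd_of_mem_primeFactors hp)]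
          exact Dvd.intro _ rfl
        rw [e]
        exact AddSubgroup.zero_mem _
      · intro h0
        have hpp := Nat.prime_of_mem_primeFactors hp
        have hd := Nat.dvd_of_mem_primeFactors hp
        have e : rd p ((m / p : ℕ) : ZMod m) = ((m / p : ℕ) : ZMod p) := ZMod.cast_natCast hd _
        rw [e, ZMod.natCast_eq_zero_iff] at h0
        have h2 : p * p ∣ m := by
          have := Nat.mul_dvd_mul h0 (dvd_refl p)
          rwa [Nat.div_mul_cancel hd] at this
        exact hpp.one_lt.ne' (Nat.isUnit_iff.1 (hsq p h2))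
    · refine ⟨v, ?_, hv⟩
      rw [hK, AddSubgroup.mem_comap]
      show v * v' ∈ AddSubgroup.zmultiples v
      rw [← ZMod.natCast_zmod_val v', mul_comm, ← nsmul_eq_mul]
      exact AddSubgroup.nsmul_mem_zmultiples _ _
  have h1 : (1 : ZMod m) ∈ K := by rw [hKt]; trivial
  rw [hK, AddSubgroup.mem_comap] at h1
  have e : (AddMonoidHom.mulRight v') (1 : ZMod m) = v' := one_mul v'
  rwa [e] at h1

end H6

open H6

theorem t1 (hb : BwS) (hz : ZmS) : T1S := by
  intro Q _ _ B m _ V x₀ y₀ lX lY g h S s' hsq hX hY hnd hcov hS hs' hp _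
  have hm : m ≠ 0 := NeZero.ne m
  rw [List.nodup_append] at hnd
  obtain ⟨ndX, ndY, ndXY⟩ := hnd
  set vX := V.vol x₀ (lX ++ [g]) with hvX
  set vY := V.vol y₀ (lY ++ [h]) with hvY
  have hiff : ∀ p ∈ m.primeFactors, (rd p vX = 0 ↔ rd p vY = 0) := by
    intro p hp'
    rcases hp p hp' with ⟨h1, h2⟩ | ⟨h1, h2, _⟩
    · exact ⟨fun h => absurd h h1, fun h => absurd h h2⟩
    · exact ⟨fun _ => h2, fun _ => h1⟩
  have hH : AddSubgroup.zmultiples vX = AddSubgroup.zmultiples vY := by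
    apply le_antisymm
    · rw [AddSubgroup.zmultiples_le]
      exact mem_zm hz hsq _ _ fun p hp' => (hiff p hp').2
    · rw [AddSubgroup.zmultiples_le]
      exact mem_zm hz hsq _ _ fun p hp' => (hiff p hp').1
  refine hb Q B (ZMod m) V (AddSubgroup.zmultiples vX) x₀ y₀ (blk lX g (addOrderOf vX)) (blk lY h (addOrderOf vY))
    S s' (nodup_blk V x₀ lX g hX ndX) (nodup_blk V y₀ lY h hY ndY) ?_ ?_ ?_ ?_ ?_ ?_ ?_
  · intro q r t hq
    exact period_blk V x₀ lX g hX ndX q r t hq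
  · intro q r t hq
    rw [hH]
    exact period_blk V y₀ lY h hY ndY q r t hq
  · intro q r t h1 h2
    rw [mem_blk V x₀ lX g hX] at h1
    rw [mem_blk V y₀ lY h hY] at h2
    obtain ⟨r₀, h1, -⟩ := h1
    obtain ⟨t₀, h2, -⟩ := h2
    have e1 : q ∈ B.verts x₀ lX := by
      have := ev_fst V (x₀, (0 : ZMod m)) lX
      simp only at this
      rw [← this]
      exact List.mem_map.2 ⟨_, h1, rfl⟩
    have e2 : q ∈ B.verts y₀ lY := by
      have := ev_fst V (y₀, (0 : ZMod m)) lY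
      simp only at this
      rw [← this]
      exact List.mem_map.2 ⟨_, h2, rfl⟩
    exact ndXY q e1 q e2 rfl
  · intro q
    rcases hcov q with h1 | h1
    · have := ev_fst V (x₀, (0 : ZMod m)) lX
      simp only at this
      rw [← this, List.mem_map] at h1
      obtain ⟨⟨a, r⟩, h1, rfl⟩ := h1
      refine ⟨r, Or.inl ?_⟩
      rw [mem_blk V x₀ lX g hX]
      exact ⟨r, h1, by rw [sub_self]; exact AddSubgroup.zero_mem _⟩
    · have := ev_fst V (y₀, (0 : ZMod m)) lY
      simp only at this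
      rw [← this, List.mem_map] at h1
      obtain ⟨⟨a, r⟩, h1, rfl⟩ := h1
      refine ⟨r, Or.inr ?_⟩
      rw [mem_blk V y₀ lY h hY]
      exact ⟨r, h1, by rw [sub_self]; exact AddSubgroup.zero_mem _⟩
  · intro s hs
    rw [fin_blk V x₀ lX g hX]
    exact hS s hs
  · rw [fin_blk V y₀ lY h hY]
    exact hs'
  · intro K hK1 hK2
    refine hz m K ?_
    intro p hp'
    have hd := Nat.dvd_of_mem_primeFactors hp'
    rcases hp p hp' with ⟨h1, _⟩ | ⟨h1, h2, s, hs, h3⟩
    · exact ⟨vX, hK1 (AddSubgroup.mem_zmultiples _), h1⟩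
    · refine ⟨_, hK2 s hs, ?_⟩
      have e : V.vol x₀ (blk lX g (addOrderOf vX) ++ s :: (blk lY h (addOrderOf vY) ++ [s'])) =
          ((addOrderOf vX - 1 : ℕ) : ZMod m) * vX + ((addOrderOf vY - 1 : ℕ) : ZMod m) * vY +
            V.vol x₀ (lX ++ s :: (lY ++ [s'])) := by
        have hf : ∀ l : List B.L, B.fin x₀ l = B.fin x₀ lX → ∀ l' : List B.L,
            V.vol x₀ (l ++ s :: (l' ++ [s'])) =
              V.vol x₀ l + (V.chi (B.fin x₀ lX) * V.n s + (V.vol y₀ l' + V.vol (B.fin y₀ l') [s'])) := by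
          intro l hl l'
          rw [vol_append, hl]
          show V.vol x₀ l + (V.chi (B.fin x₀ lX) * V.n s + V.vol (B.fin x₀ lX * B.q s) (l' ++ [s'])) = _
          rw [hS s hs, vol_append]
        rw [hf _ (fin_blk V x₀ lX g hX _), hf lX rfl, vol_blk V x₀ lX g hX, vol_blk V y₀ lY h hY,
          fin_blk V y₀ lY h hY, ← hvX, ← hvY]
        ring
      rw [e, rd_add hd, rd_add hd, rd_mul hd, rd_mul hd, h1, h2, mul_zero, mul_zero, zero_add, zero_add]
      exact h3

end Pool.Agent.Lib.MP_688fd0_co.SQ3.Small
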