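import Pool.Agent.Lib.MP_688fd0_co.SQ3.Small.Fac

/-!
Row T2: the central walk. Go round `w` backwards from `p₀` to `p₁` (through all lifts modulo the primes at which the
volume of `w` is not zero), then `a` to `p₃`, round `w` forwards to `p₂`, then `a` to `p₀`, and so on. Modulo the other
primes every `a` adds the unit `n a`.
-/

set_option autoImplicit false

namespace Pool.Agent.Lib.MP_688fd0_co.SQ3.Small

open Pool.Agent.Lib.MP_688fd0_co.OSF Pool.Agent.Lib.MP_688fd0_co.SQ2

namespace H94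

universe u v w z

section

variable {Q : Type u} [Group Q] {B : Lb.{u, v} Q} {R : Type w} [CommRing R] (V : Vd B R)

theorem ef_rev (x : Q × R) (l : List B.L) : ef V (ef V x l) (B.rev l) = x := by
  induction l generalizing x with
  | nil => rfl
  | cons g l ih =>
    rw [rev_cons, ef_append]
    show ef V (ef V (ef V (x.1 * B.q g, x.2 + V.chi x.1 * V.n g) l) (B.rev l)) [B.inv g] = x
    rw [ih]
    show (x.1 * B.q g * B.q (B.inv g), x.2 + V.chi x.1 * V.n g + V.chi (x.1 * B.q g) * V.n (B.inv g)) = x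
    have h : V.chi (x.1 * B.q g) * V.n (B.inv g) = -(V.chi x.1 * V.n g) := by
      rw [V.n_inv, mul_neg, ← mul_assoc, ← map_mul, mul_inv_cancel_right]
    rw [h, B.q_inv, mul_inv_cancel_right, add_neg_cancel_right]

theorem ev_rev (x : Q × R) (l : List B.L) : ev V (ef V x l) (B.rev l) = (ev V x l).reverse := by
  induction l generalizing x with
  | nil => rfl
  | cons g l ih =>
    show ev V (ef V (x.1 * B.q g, x.2 + V.chi x.1 * V.n g) l) (B.rev (g :: l)) =
      (x :: ev V (x.1 * B.q g, x.2 + V.chi x.1 * V.n g) l).reverse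
    rw [List.reverse_cons, ← ih, rev_cons, ev_append, ef_rev, ev_eq V _ (B.rev l), ef_rev]
    show _ ++ [(x.1 * B.q g, x.2 + V.chi x.1 * V.n g), (x.1 * B.q g * B.q (B.inv g),
      x.2 + V.chi x.1 * V.n g + V.chi (x.1 * B.q g) * V.n (B.inv g))] = _
    have h : V.chi (x.1 * B.q g) * V.n (B.inv g) = -(V.chi x.1 * V.n g) := by
      rw [V.n_inv, mul_neg, ← mul_assoc, ← map_mul, mul_inv_cancel_right]
    rw [h, B.q_inv, mul_inv_cancel_right, add_neg_cancel_right, List.append_assoc]
    rfl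

theorem vol_rev (x : Q) (l : List B.L) : V.vol (B.fin x l) (B.rev l) = -V.vol x l := by
  have h := ef_rev V (x, 0) l
  rw [ef_eq V (x, 0) l, ef_eq] at h
  have h2 := congrArg Prod.snd h
  simp only [zero_add] at h2
  exact eq_neg_of_add_eq_zero_right h2

theorem mem_es_ev {x : Q × R} {l : List B.L} (hl : l ≠ []) (h : ef V x l = x) (y : Q × R) :
    y ∈ es V x l ↔ y ∈ ev V x l := by
  rw [ev_eq, h, List.mem_append, List.mem_singleton]
  constructor
  · exact Or.inl
  · rintro (h | rfl)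
    · exact h
    · cases l with
      | nil => exact absurd rfl hl
      | cons g l => exact List.mem_cons_self

theorem mem_es_rev {x : Q × R} {l : List B.L} (hl : l ≠ []) (h : ef V x l = x) (y : Q × R) :
    y ∈ es V x (B.rev l) ↔ y ∈ es V x l := by
  have h1 : ef V x (B.rev l) = x := by
    have := ef_rev V x l
    rwa [h] at this
  have h2 : B.rev l ≠ [] := by
    intro h
    exact hl (by simpa [Lb.rev] using h)
  have h3 := ev_rev V x l
  rw [h] at h3
  rw [mem_es_ev V h2 h1, mem_es_ev V hl h, h3, List.mem_reverse]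

theorem mem_es_rot {x y : Q × R} {l l' : List B.L} (h : ef V x l = y) (h' : ef V y l' = x) (t : Q × R) :
    t ∈ es V y (l' ++ l) ↔ t ∈ es V x (l ++ l') := by
  rw [es_append, es_append, h, h', List.mem_append, List.mem_append, or_comm]

theorem vol_map {R' : Type z} [CommRing R'] (f : R →+* R') (x : Q) (l : List B.L) :
    (V.map f).vol x l = f (V.vol x l) := by
  induction l generalizing x with
  | nil => exact (map_zero f).symm
  | cons g l ih =>
    show f (V.chi x) * f (V.n g) + (V.map f).vol (x * B.q g) l = f (V.chi x * V.n g + V.vol (x * B.q g) l)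
    rw [ih, map_add, map_mul]

theorem vol_append' (x : Q) (l l' : List B.L) : V.vol x (l ++ l') = V.vol x l + V.vol (B.fin x l) l' := by
  induction l generalizing x with
  | nil => exact (zero_add _).symm
  | cons g l ih =>
    show V.chi x * V.n g + V.vol (x * B.q g) (l ++ l') = V.chi x * V.n g + V.vol (x * B.q g) l + _
    rw [ih, add_assoc]
    rfl

/-- `n` blocks, each followed by `a`. -/
def pth (K : Bool → List B.L) (a : B.L) : Bool → ℕ → List B.L
  | _, 0 => []
  | b, n + 1 => K b ++ [a] ++ pth K a (!b) n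

theorem pth_length (K : Bool → List B.L) (a : B.L) (N : ℕ) (hN : ∀ b, (K b ++ [a]).length = N) (b : Bool) (n : ℕ) :
    (pth K a b n).length = n * N := by
  induction n generalizing b with
  | zero => simp [pth]
  | succ n ih => rw [pth, List.length_append, hN, ih, Nat.succ_mul, Nat.add_comm]

theorem pth_cover {R' : Type z} [CommRing R'] (f : R →+* R') (δ : R') (layer : R' → Q × R' → Prop) (P : Bool → Q)
    (K : Bool → List B.L) (a : B.L)
    (h1 : ∀ b c (y : Q × R), layer (f c) (y.1, f y.2) → y ∈ es V (P b, c) (K b ++ [a]))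
    (h2 : ∀ b c, ∃ t, ef V (P b, c) (K b ++ [a]) = (P (!b), t) ∧ f t = f c + δ) (n : ℕ) :
    ∀ (b : Bool) (c : R), ∀ j < n, ∀ y : Q × R, layer (f c + j * δ) (y.1, f y.2) → y ∈ es V (P b, c) (pth K a b n) := by
  induction n with
  | zero => intro b c j hj; exact absurd hj (Nat.not_lt_zero _)
  | succ n ih =>
    intro b c j hj y hy
    rw [pth, es_append, List.mem_append]
    rcases j with _ | j
    · left
      refine h1 b c y ?_
      simpa using hy
    · right
      obtain ⟨t, ht, ht'⟩ := h2 b c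
      rw [ht]
      refine ih (!b) t j (by omega) y ?_
      rw [ht']
      have e : f c + ((j + 1 : ℕ) : R') * δ = f c + δ + j * δ := by push_cast; ring
      rwa [e] at hy

theorem ef_flatten (x : Q × R) (l : List B.L) (h : ef V x l = x) (s : ℕ) :
    ef V x (List.replicate s l).flatten = x := by
  induction s with
  | zero => rfl
  | succ s ih => rw [List.replicate_succ, List.flatten_cons, ef_append, h, ih]

/-- `s + 1` rounds without the last label. -/
def blk (l₀ : List B.L) (g : B.L) (s : ℕ) : List B.L := (List.replicate s (l₀ ++ [g])).flatten ++ l₀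

theorem blk_last (l₀ : List B.L) (g : B.L) (s : ℕ) :
    blk l₀ g s ++ [g] = (List.replicate (s + 1) (l₀ ++ [g])).flatten := by
  rw [blk, List.replicate_succ', List.flatten_append, List.append_assoc]
  simp

theorem es_last (x : Q × R) (l : List B.L) (g a : B.L) : es V x (l ++ [a]) = es V x (l ++ [g]) := by
  rw [es_append, es_append]
  rfl

/-- The end of a block. -/
theorem ef_blk (x : Q × R) (l₀ : List B.L) (g a : B.L) (s : ℕ) (h : ef V x (l₀ ++ [g]) = x) (hg : V.n g = 0)
    (hc : ∀ y, V.chi y = 1) : ef V x (blk l₀ g s ++ [a]) = (x.1 * (B.q g)⁻¹ * B.q a, x.2 + V.n a) := by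
  have h1 : ef V x (blk l₀ g s ++ [g]) = x := by rw [blk_last]; exact ef_flatten V x _ h _
  rw [ef_append] at h1 ⊢
  obtain ⟨e, he⟩ : ∃ e, e = ef V x (blk l₀ g s) := ⟨_, rfl⟩
  rw [← he] at h1 ⊢
  have h2 : (e.1 * B.q g, e.2 + V.chi e.1 * V.n g) = x := h1
  show (e.1 * B.q a, e.2 + V.chi e.1 * V.n a) = _
  rw [hg, mul_zero, add_zero] at h2
  rw [← h2, hc, one_mul, mul_inv_cancel_right]

end

section

variable {Q : Type u} [Group Q] {B : Lb.{u, v} Q} {m r : ℕ} [NeZero m] (V : Vd B (ZMod m)) (hr : r ∣ m)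

/-- All lifts of a closed walk. -/
theorem cover (hsq : Squarefree m) (x : Q × ZMod m) (l : List B.L) (hfin : B.fin x.1 l = x.1)
    (hvol : ZMod.castHom hr (ZMod r) (V.vol x.1 l) = 0)
    (hp : ∀ p ∈ m.primeFactors, ¬ p ∣ r → rd p (V.vol x.1 l) ≠ 0) (y : Q × ZMod m)
    (hy : (y.1, ZMod.castHom hr (ZMod r) y.2) ∈ es (V.map (ZMod.castHom hr (ZMod r)))
      (x.1, ZMod.castHom hr (ZMod r) x.2) l) : y ∈ es V x (List.replicate (m / r) l).flatten := by
  rw [es_map] at hy
  obtain ⟨z, hz, hzy⟩ := List.mem_map.1 hy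
  rw [Prod.mk.injEq] at hzy
  have hd : ZMod.castHom hr (ZMod r) (y.2 - z.2) = 0 := by rw [map_sub, hzy.2, sub_self]
  obtain ⟨j, hj, hj'⟩ := mult hr hsq (V.vol x.1 l) (y.2 - z.2) hvol hd hp
  have := mem_rounds V x l hfin (m / r) j hj z hz
  rw [← hj', hzy.1, add_sub_cancel] at this
  exact this

theorem rd_neg_ne {p : ℕ} (hp : p ∣ m) {x : ZMod m} (h : rd p x ≠ 0) : rd p (-x) ≠ 0 := by
  have e : ∀ y : ZMod m, rd p y = ZMod.castHom hp (ZMod p) y := fun y => rfl
  rw [e, map_neg, ← e]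
  exact neg_ne_zero.2 h

/-- An element of `ZMod r` vanishes if it vanishes modulo all primes. -/
theorem eq_zero_of_rd (hsq : Squarefree m) (x : ZMod m) (h : ∀ p ∈ r.primeFactors, rd p x = 0) :
    ZMod.castHom hr (ZMod r) x = 0 := by
  have hsr : Squarefree r := hsq.squarefree_of_dvd hr
  rw [ZMod.castHom_apply, ← ZMod.natCast_val, ZMod.natCast_eq_zero_iff, ← Nat.prod_primeFactors_of_squarefree hsr]
  refine Finset.prod_primes_dvd _ (fun p hp => (Nat.prime_of_mem_primeFactors hp).prime) fun p hp => ?_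
  have h1 := h p hp
  unfold rd at h1
  rwa [← ZMod.natCast_val, ZMod.natCast_eq_zero_iff] at h1

end

end H94

open H94

theorem t2 : T2S := by
  intro Q _ _ B m _ V p₀ b₁ b₂ b₃ l a hsq hfin hnd hcov ha1 ha2 hpr
  classical
  have hm : m ≠ 0 := NeZero.ne m
  set w := b₁ :: b₂ :: b₃ :: l with hw
  -- the primes with volume zero
  obtain ⟨r, hrdef⟩ : ∃ r, r = Nat.gcd (V.vol p₀ w).val m := ⟨_, rfl⟩
  have hr : r ∣ m := hrdef ▸ Nat.gcd_dvd_right _ _
  have hr0 : r ≠ 0 := fun h => hm (by rw [h] at hr; exact Nat.eq_zero_of_zero_dvd hr)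
  have : NeZero r := ⟨hr0⟩
  have hrd : ∀ p, rd p (V.vol p₀ w) = 0 ↔ p ∣ (V.vol p₀ w).val := by
    intro p
    unfold rd
    rw [← ZMod.natCast_val, ZMod.natCast_eq_zero_iff]
  have hp1 : ∀ p ∈ m.primeFactors, ¬ p ∣ r → rd p (V.vol p₀ w) ≠ 0 := by
    intro p hp h1 h2
    exact h1 (hrdef ▸ Nat.dvd_gcd ((hrd p).1 h2) (Nat.dvd_of_mem_primeFactors hp))
  have hp2 : ∀ p ∈ r.primeFactors, rd p (V.vol p₀ w) = 0 := by
    intro p hp
    refine (hrd p).2 ((Nat.dvd_of_mem_primeFactors hp).trans ?_)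
    rw [hrdef]; exact Nat.gcd_dvd_left _ _
  have hp3 : ∀ p ∈ r.primeFactors, rd p (V.n a) ≠ 0 ∧ (∀ x, rd p (V.chi x) = 1) ∧ rd p (V.n b₁) = 0 ∧
      rd p (V.n b₂) = 0 ∧ rd p (V.n b₃) = 0 := by
    intro p hp
    exact (hpr p (Nat.primeFactors_mono hr hm hp)).resolve_left fun h => h (hp2 p hp)
  set f := ZMod.castHom hr (ZMod r) with hf
  set V' := V.map f with hV'
  have hvol : f (V.vol p₀ w) = 0 := eq_zero_of_rd hr hsq _ hp2
  have hn1 : V'.n b₁ = 0 := eq_zero_of_rd hr hsq _ fun p hp => (hp3 p hp).2.2.1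
  have hn2 : V'.n b₂ = 0 := eq_zero_of_rd hr hsq _ fun p hp => (hp3 p hp).2.2.2.1
  have hn3 : V'.n b₃ = 0 := eq_zero_of_rd hr hsq _ fun p hp => (hp3 p hp).2.2.2.2
  have hchi : ∀ x, V'.chi x = 1 := by
    intro x
    have h : f (V.chi x - 1) = 0 := by
      refine eq_zero_of_rd hr hsq _ fun p hp => ?_
      have hpm : p ∣ m := (Nat.dvd_of_mem_primeFactors hp).trans hr
      have h1 : rd p (V.chi x - 1) = rd p (V.chi x) - 1 := by
        have e : ∀ y : ZMod m, rd p y = ZMod.castHom hpm (ZMod p) y := fun y => rfl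
        rw [e, e, map_sub, map_one]
      rw [h1, (hp3 p hp).2.1 x, sub_self]
    rw [map_sub, map_one, sub_eq_zero] at h
    exact h
  -- the number of rounds
  have hmr : 0 < m / r := Nat.div_pos (Nat.le_of_dvd (Nat.pos_of_ne_zero hm) hr) (Nat.pos_of_ne_zero hr0)
  obtain ⟨s, hs⟩ : ∃ s, m / r = s + 1 := ⟨m / r - 1, by omega⟩
  -- the blocks
  set p₃ := p₀ * B.q b₁ * B.q b₂ * B.q b₃ with hp₃
  obtain ⟨P, hPt, hPf⟩ : ∃ P : Bool → Q, P true = p₀ ∧ P false = p₃ := ⟨fun b => cond b p₀ p₃, rfl, rfl⟩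
  obtain ⟨W, hWt, hWf⟩ : ∃ W : Bool → List B.L, W true = B.rev l ++ [B.inv b₃, B.inv b₂] ∧ W false = l ++ [b₁, b₂] :=
    ⟨fun b => cond b (B.rev l ++ [B.inv b₃, B.inv b₂]) (l ++ [b₁, b₂]), rfl, rfl⟩
  obtain ⟨g, hgt, hgf⟩ : ∃ g : Bool → B.L, g true = B.inv b₁ ∧ g false = b₃ := ⟨fun b => cond b (B.inv b₁) b₃, rfl, rfl⟩
  have hfinl : B.fin p₃ l = p₀ := hfin
  have hWt' : W true ++ [g true] = B.rev w := by
    rw [hWt, hgt, hw, rev_cons, rev_cons, rev_cons]
    simp
  have hWf' : W false ++ [g false] = l ++ [b₁, b₂, b₃] := by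
    rw [hWf, hgf]
    simp
  have hfinW : ∀ b, B.fin (P b) (W b ++ [g b]) = P b := by
    intro b
    cases b
    · rw [hWf', hPf, fin_append, hfinl]
      rfl
    · rw [hWt', hPt]
      have := fin_rev p₀ w
      rwa [hfin] at this
  have hvolf : V.vol p₃ (l ++ [b₁, b₂, b₃]) = V.vol p₀ w := by
    have e : w = [b₁, b₂, b₃] ++ l := rfl
    rw [e, vol_append', vol_append', hfinl, add_comm]
    rfl
  have hvolt : V.vol p₀ (B.rev w) = -V.vol p₀ w := by
    have := vol_rev V p₀ w
    rwa [hfin] at this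
  have hvolW : ∀ b, f (V.vol (P b) (W b ++ [g b])) = 0 := by
    intro b
    cases b
    · rw [hWf', hPf, hvolf, hvol]
    · rw [hWt', hPt, hvolt, map_neg, hvol, neg_zero]
  have hpW : ∀ b, ∀ p ∈ m.primeFactors, ¬ p ∣ r → rd p (V.vol (P b) (W b ++ [g b])) ≠ 0 := by
    intro b p hp h
    cases b
    · rw [hWf', hPf, hvolf]; exact hp1 p hp h
    · rw [hWt', hPt, hvolt]; exact rd_neg_ne (Nat.dvd_of_mem_primeFactors hp) (hp1 p hp h)
  have hefw : ∀ c, ef V' (p₀, c) w = (p₀, c) := by
    intro c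
    rw [ef_eq]
    show (B.fin p₀ w, c + V'.vol p₀ w) = _
    rw [hfin, hV', vol_map, hvol, add_zero]
  have hefW : ∀ b c, ef V' (P b, c) (W b ++ [g b]) = (P b, c) := by
    intro b c
    rw [ef_eq]
    show (B.fin (P b) (W b ++ [g b]), c + V'.vol (P b) (W b ++ [g b])) = _
    rw [hfinW, hV', vol_map, hvolW, add_zero]
  have hlay : ∀ b c (y : Q × ZMod r), y ∈ es V' (p₀, c) w → y ∈ es V' (P b, c) (W b ++ [g b]) := by
    intro b c y hy
    cases b
    · rw [hWf', hPf]
      have e3 : ef V' (p₀, c) [b₁, b₂, b₃] = (p₃, c) := by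
        simp only [ef, hn1, hn2, hn3, mul_zero, add_zero]
        rfl
      have e4 : ef V' (p₃, c) l = (p₀, c) := by
        have := hefw c
        have e : w = [b₁, b₂, b₃] ++ l := rfl
        rw [e, ef_append, e3] at this
        exact this
      exact (mem_es_rot V' e3 e4 y).2 hy
    · rw [hWt', hPt]
      exact (mem_es_rev V' (by simp [hw]) (hefw c) y).2 hy
  obtain ⟨K, hK⟩ : ∃ K : Bool → List B.L, ∀ b, K b = blk (W b) (g b) s := ⟨_, fun _ => rfl⟩
  have h1 : ∀ b c (y : Q × ZMod m), (y.1, f y.2) ∈ es V' (p₀, f c) w → y ∈ es V (P b, c) (K b ++ [a]) := by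
    intro b c y hy
    rw [es_last V _ _ (g b) a, hK, blk_last, ← hs]
    exact cover V hr hsq (P b, c) _ (hfinW b) (hvolW b) (hpW b) y (hlay b _ _ hy)
  have h2 : ∀ b c, ∃ t, ef V (P b, c) (K b ++ [a]) = (P (!b), t) ∧ f t = f c + f (V.n a) := by
    intro b c
    have e1 := ef_map V f (P b, c) (K b ++ [a])
    have hng : V'.n (g b) = 0 := by
      cases b
      · rw [hgf]; exact hn3
      · rw [hgt, V'.n_inv, hn1, mul_zero, neg_zero]
    have e2 := ef_blk V' (P b, f c) (W b) (g b) a s (hefW b _) hng hchi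
    rw [hK] at e1 ⊢
    rw [e2, Prod.mk.injEq] at e1
    refine ⟨(ef V (P b, c) (blk (W b) (g b) s ++ [a])).2, Prod.ext ?_ rfl, e1.2.symm⟩
    rw [← e1.1]
    show P b * (B.q (g b))⁻¹ * B.q a = P (!b)
    cases b
    · rw [Bool.not_false, hPf, hPt, hgf, hp₃, mul_inv_cancel_right, mul_assoc, mul_assoc, ← mul_assoc (B.q b₁), ha2,
        mul_one]
    · rw [Bool.not_true, hPf, hPt, hgt, B.q_inv, inv_inv, mul_assoc, ha1, hp₃]
      group
  have hcover := pth_cover V f (f (V.n a)) (fun c y => y ∈ es V' (p₀, c) w) P K a h1 h2 r true 0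
  -- `n a` is a unit
  have hu : IsUnit (f (V.n a)) := by
    have e : f (V.n a) = ((V.n a).val : ZMod r) := by
      rw [hf, ZMod.castHom_apply, ZMod.natCast_val]
    rw [e, ZMod.isUnit_iff_coprime]
    apply Nat.coprime_of_dvd
    intro p hp h3 h4
    refine (hp3 p (Nat.mem_primeFactors.2 ⟨hp, h4, hr0⟩)).1 ?_
    unfold rd
    rw [← ZMod.natCast_val, ZMod.natCast_eq_zero_iff]
    exact h3
  have hall : ∀ y : Q × ZMod m, y ∈ es V (P true, 0) (pth K a true r) := by
    intro y
    have h3 := hcov y.1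
    have e0 : src B p₀ w = (es V' (p₀, 0) w).map Prod.fst := (es_fst V' (p₀, 0) w).symm
    rw [e0, List.mem_map] at h3
    obtain ⟨t, ht, hty⟩ := h3
    obtain ⟨v, hv⟩ := hu
    refine hcover ((f y.2 - t.2) * ((v⁻¹ : (ZMod r)ˣ) : ZMod r)).val (ZMod.val_lt _) y ?_
    have e1 : (((f y.2 - t.2) * ((v⁻¹ : (ZMod r)ˣ) : ZMod r)).val : ZMod r) * f (V.n a) = f y.2 - t.2 := by
      rw [ZMod.natCast_zmod_val, ← hv, mul_assoc, Units.inv_mul, mul_one]
    show (y.1, f y.2) ∈ es V' (p₀, f 0 + _) w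
    rw [e1, map_zero]
    have e2 := es_add V' (p₀, 0) (f y.2 - t.2) w
    simp only at e2
    rw [e2, List.mem_map]
    refine ⟨t, ht, ?_⟩
    rw [hty]
    simp
  have hlenW : ∀ b, (W b ++ [g b]).length = w.length := by
    intro b
    cases b
    · rw [hWf']; simp [hw]
    · rw [hWt']; simp [Lb.rev]
  have hlenK : ∀ b, (K b ++ [a]).length = (m / r) * w.length := by
    intro b
    have e : (K b ++ [a]).length = (K b ++ [g b]).length := by simp
    rw [e, hK, blk_last, length_rounds, hlenW, ← hs]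
  have hlen := pth_length K a _ hlenK true r
  have := Fintype.ofFinite Q
  have hwlen : w.length = Fintype.card Q := by
    have a1 : (src B p₀ w).toFinset = Finset.univ := by
      ext y
      simp only [List.mem_toFinset, Finset.mem_univ, iff_true]
      exact hcov y
    have a2 := List.toFinset_card_of_nodup hnd
    have a3 : (src B p₀ w).length = w.length := by
      rw [← es_fst V (p₀, 0) w, List.length_map, es_length]
    rw [a1, a3, Finset.card_univ] at a2
    exact a2.symm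
  have hnd' : (es V (P true, 0) (pth K a true r)).Nodup := by
    have a1 : (es V (P true, 0) (pth K a true r)).toFinset = Finset.univ := by
      ext y
      simp only [List.mem_toFinset, Finset.mem_univ, iff_true]
      exact hall y
    have a2 : (es V (P true, 0) (pth K a true r)).toFinset.card = (es V (P true, 0) (pth K a true r)).length := by
      rw [a1, es_length, hlen, hwlen, Finset.card_univ, Fintype.card_prod, ZMod.card, ← Nat.mul_assoc,
        Nat.mul_div_cancel' hr, Nat.mul_comm]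
    exact Multiset.toFinset_card_eq_card_iff_nodup.1 a2
  exact hp_of_closed V _ _ hnd' hall

end Pool.Agent.Lib.MP_688fd0_co.SQ3.Small
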