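import Pool.Agent.Lib.MP_688fd0_co.SQ3.Small.Iface

/-!
Row WIN of board `sqs_modules`: the window with four rungs.

`x_l = A ^ l`, `y_l = A ^ l y₀`. X: `x_0 .. x_c`, `b` to `y_(u+δ)`, down to `y_(u+g+1)`, back to `x_(c+g+1)`, up.
Y: `y_0 .. y_(u+g)`, back to `x_(c+g)`, down to `x_(c+1)`, `b` to `y_(u+δ+1)`, up; `u = c + i`.
-/

set_option autoImplicit false

namespace Pool.Agent.Lib.MP_688fd0_co.SQ3.Small

open Pool.Agent.Lib.MP_688fd0_co.OSF Pool.Agent.Lib.MP_688fd0_co.SQ2

namespace WinAux

variable {Q : Type} [Group Q] {B : Lb.{0, 0} Q}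

theorem vol_append {R : Type} [CommRing R] (V : Vd B R) (x : Q) (l l' : List B.L) :
    V.vol x (l ++ l') = V.vol x l + V.vol (B.fin x l) l' := by
  induction l generalizing x with
  | nil => simp [Vd.vol, Lb.fin]
  | cons g l ih =>
    show V.chi x * V.n g + V.vol (x * B.q g) (l ++ l') = V.chi x * V.n g + V.vol (x * B.q g) l + _
    rw [ih, add_assoc]
    rfl

theorem vol_tr {R : Type} [CommRing R] (V : Vd B R) (y x : Q) (l : List B.L) :
    V.vol (y * x) l = V.chi y * V.vol x l := by
  induction l generalizing x with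
  | nil => simp [Vd.vol]
  | cons g l ih =>
    show V.chi (y * x) * V.n g + V.vol (y * x * B.q g) l = V.chi y * (V.chi x * V.n g + V.vol (x * B.q g) l)
    rw [mul_assoc y, ih, map_mul]
    ring

/-- A run along a sequence of vertices. -/
theorem run_fin (f : ℕ → Q) (g : B.L) (hf : ∀ j, f j * B.q g = f (j + 1)) (s n : ℕ) :
    B.fin (f s) (List.replicate n g) = f (s + n) := by
  induction n generalizing s with
  | zero => rfl
  | succ n ih =>
    show B.fin (f s * B.q g) (List.replicate n g) = _
    rw [hf, ih, Nat.add_right_comm, Nat.add_assoc]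

theorem run_src (f : ℕ → Q) (g : B.L) (hf : ∀ j, f j * B.q g = f (j + 1)) (s n : ℕ) :
    src B (f s) (List.replicate n g) = (List.range' s n).map f := by
  induction n generalizing s with
  | zero => rfl
  | succ n ih =>
    show f s :: src B (f s * B.q g) (List.replicate n g) = _
    rw [hf, ih, List.range'_succ]
    rfl

/-- A run downwards. -/
theorem down_fin (f : ℕ → Q) (g : B.L) (hf : ∀ j, f (j + 1) * B.q g = f j) (s n : ℕ) :
    B.fin (f (s + n)) (List.replicate n g) = f s := by
  induction n with
  | zero => rfl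
  | succ n ih =>
    show B.fin (f (s + n + 1) * B.q g) (List.replicate n g) = _
    rw [hf, ih]

theorem down_src (f : ℕ → Q) (g : B.L) (hf : ∀ j, f (j + 1) * B.q g = f j) (s n : ℕ) :
    (src B (f (s + n)) (List.replicate n g)).Perm ((List.range' (s + 1) n).map f) := by
  induction n with
  | zero => exact List.Perm.refl _
  | succ n ih =>
    show (f (s + n + 1) :: src B (f (s + n + 1) * B.q g) (List.replicate n g)).Perm _
    rw [hf, List.range'_concat, List.map_append]
    refine (List.Perm.cons _ ih).trans ?_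
    rw [Nat.mul_comm, Nat.mul_one, Nat.add_right_comm s 1 n]
    exact (List.perm_append_comm (l₁ := [f (s + n + 1)]))

end WinAux

open WinAux

theorem win : WinS := by
  intro Q _ B a e b b' y₀ i c δ g L he hi hb' hb hg1 hgδ hL
  obtain ⟨u, hu⟩ : ∃ u : ℕ, (u : ℤ) = c + i := ⟨(c + i).toNat, by
    have := neg_abs_le i
    omega⟩
  have hi2 := le_abs_self i
  -- levels
  set fx : ℕ → Q := fun j => B.q a ^ j with hfx
  set fy : ℕ → Q := fun j => B.q a ^ j * y₀ with hfy
  have hxa : ∀ j, fx j * B.q a = fx (j + 1) := fun j => (pow_succ _ _).symm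
  have hxa' : ∀ j, fx (j + 1) * B.q (B.inv a) = fx j := fun j => by
    rw [B.q_inv, ← hxa, mul_inv_cancel_right]
  have hye : ∀ j, fy j * B.q e = fy (j + 1) := fun j => by
    have := he j
    rw [← Int.natCast_succ, zpow_natCast, zpow_natCast] at this
    exact this
  have hye' : ∀ j, fy (j + 1) * B.q (B.inv e) = fy j := fun j => by
    rw [B.q_inv, ← hye, mul_inv_cancel_right]
  have hxb : ∀ j s : ℕ, (s : ℤ) = j + i + δ → fx j * B.q b = fy s := fun j s hs => by
    show B.q a ^ j * B.q b = B.q a ^ s * y₀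
    rw [hb, ← zpow_natCast, ← zpow_natCast, ← mul_assoc, ← zpow_add, hs, add_assoc]
  have hxb' : ∀ j s : ℕ, (s : ℤ) = j + i → fx j * B.q b' = fy s := fun j s hs => by
    show B.q a ^ j * B.q b' = B.q a ^ s * y₀
    rw [hb', ← zpow_natCast, ← zpow_natCast, ← mul_assoc, ← zpow_add, hs]
  have hyb' : ∀ j s : ℕ, (s : ℤ) = j + i → fy s * B.q (B.inv b') = fx j := fun j s hs => by
    rw [B.q_inv, ← hxb' j s hs, mul_inv_cancel_right]
  obtain ⟨r, hr⟩ : ∃ r, c + g + 1 + r = L := ⟨L - (c + g + 1), by omega⟩
  obtain ⟨t, ht⟩ : ∃ t, u + δ + 1 + t = L := ⟨L - (u + δ + 1), by omega⟩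
  obtain ⟨h, hh⟩ : ∃ h, g + 1 + h = δ := ⟨δ - g - 1, by omega⟩
  obtain ⟨k, hk⟩ : ∃ k, k + 1 = g := ⟨g - 1, by omega⟩
  have e1 : δ - g - 1 = h := by omega
  have e2 : g - 1 = k := by omega
  have x0 : (1 : Q) = fx 0 := (pow_zero _).symm
  have y0 : y₀ = fy 0 := by show y₀ = B.q a ^ 0 * y₀; rw [pow_zero, one_mul]
  -- the rungs
  have R1 : fx c * B.q b = fy (u + g + 1 + h) := hxb _ _ (by push_cast; omega)
  have R2 : fy (u + g + 1) * B.q (B.inv b') = fx (c + g + 1) := hyb' _ _ (by push_cast; omega)
  have R3 : fy (u + g) * B.q (B.inv b') = fx (c + 1 + k) := hyb' _ _ (by push_cast; omega)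
  have R4 : fx (c + 1) * B.q b = fy (u + δ + 1) := hxb _ _ (by push_cast; omega)
  -- the ends
  have c1 : B.fin 1 (List.replicate c a) = fx c := by rw [x0, run_fin fx a hxa, Nat.zero_add]
  have c2 := down_fin fy (B.inv e) hye' (u + g + 1) h
  have c3 := run_fin fx a hxa (c + g + 1) r
  have d1 : B.fin y₀ (List.replicate (u + g) e) = fy (u + g) := by
    conv_lhs => rw [y0]
    rw [run_fin fy e hye, Nat.zero_add]
  have d2 := down_fin fx (B.inv a) hxa' (c + 1) k
  have d3 := run_fin fy e hye (u + δ + 1) t
  have f1 : ∀ (x : Q) (g : B.L) (l : List B.L), B.fin x (g :: l) = B.fin (x * B.q g) l := fun _ _ _ => rfl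
  have f2 : ∀ (x : Q) (g : B.L) (l : List B.L), src B x (g :: l) = x :: src B (x * B.q g) l := fun _ _ _ => rfl
  have f3 : ∀ {R : Type} [CommRing R] (V : Vd B R) (x : Q) (g : B.L) (l : List B.L),
    V.vol x (g :: l) = V.chi x * V.n g + V.vol (x * B.q g) l := fun _ _ _ _ => rfl
  refine ⟨⟨List.replicate c a ++ b :: (List.replicate h (B.inv e) ++ B.inv b' :: List.replicate r a),
    List.replicate (u + g) e ++ B.inv b' :: (List.replicate k (B.inv a) ++ b :: List.replicate t e), ?_, ?_, ?_⟩, ?_⟩
  · rw [fin_append, c1, f1, R1, fin_append, c2, f1, R2, c3, hr]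
  · rw [fin_append, d1, f1, R3, fin_append, d2, f1, R4, d3, ht]
  · rw [src_append, c1, f2, R1, src_append, c2, f2, R2, run_src fx a hxa,
      src_append, d1, f2, R3, src_append, d2, f2, R4, run_src fy e hye]
    have s1 : src B 1 (List.replicate c a) = (List.range' 0 c).map fx := by rw [x0, run_src fx a hxa]
    have s2 : src B y₀ (List.replicate (u + g) e) = (List.range' 0 (u + g)).map fy := by
      conv_lhs => rw [y0]
      rw [run_src fy e hye]
    have s3 := down_src fy (B.inv e) hye' (u + g + 1) h
    have s4 := down_src fx (B.inv a) hxa' (c + 1) k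
    rw [s1, s2, ← Multiset.coe_eq_coe]
    rw [← Multiset.coe_eq_coe] at s3 s4
    have k1 : List.range L = List.range' 0 c ++ (c :: (c + 1) :: (List.range' (c + 1 + 1) k ++ List.range' (c + g + 1) r)) := by
      rw [List.range_eq_range', ← hr, ← hk]
      have : c + (k + 1) + 1 + r = c + (1 + 1 + k + r) := by omega
      rw [this, ← List.range'_append_1, ← List.range'_append_1 (s := 0 + c), ← List.range'_append_1 (s := 0 + c),
        ← List.range'_append_1 (s := 0 + c)]
      simp [List.range'_succ, Nat.add_comm, Nat.add_left_comm]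
    have k2 : List.range L = List.range' 0 (u + g) ++ ((u + g) :: (u + g + 1) :: (List.range' (u + g + 1 + 1) h ++
        List.range' (u + δ + 1) t)) := by
      rw [List.range_eq_range', ← ht, ← hh]
      have : u + (g + 1 + h) + 1 + t = (u + g) + (1 + 1 + h + t) := by omega
      rw [this, ← List.range'_append_1, ← List.range'_append_1 (s := 0 + (u + g)),
        ← List.range'_append_1 (s := 0 + (u + g)), ← List.range'_append_1 (s := 0 + (u + g))]
      simp [List.range'_succ, Nat.add_assoc, Nat.add_comm, Nat.add_left_comm]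
    have k3 : strip (B.q a) y₀ L = (List.range L).map fx ++ (List.range L).map fy := rfl
    rw [k3]
    nth_rw 1 [k1]
    rw [k2]
    simp only [← Multiset.coe_add, ← Multiset.cons_coe, s3, s4, List.map_append, List.map_cons,
      ← Multiset.singleton_add]
    abel
  · intro R _ V
    have v1 : ∀ j, V.chi (fx j) = V.chi (B.q a) ^ j := fun j => map_pow _ _ _
    have v2 : V.chi (fy (u + g + 1)) * V.n (B.inv b') = -(V.chi (B.q a) ^ (c + g + 1) * V.n b') := by
      rw [V.n_inv, mul_neg, ← mul_assoc, ← map_mul, ← B.q_inv, R2, v1]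
    have v3 : V.chi (fy (u + g)) * V.n (B.inv b') = -(V.chi (B.q a) ^ (c + g) * V.n b') := by
      rw [V.n_inv, mul_neg, ← mul_assoc, ← map_mul, ← B.q_inv, R3, v1, ← hk]
      congr 3
      omega
    constructor
    · show V.vol 1 (List.replicate c a ++ b :: (List.replicate h (B.inv e) ++ B.inv b' :: List.replicate r a)) = _
      rw [vol_append, c1, f3, R1, vol_append, c2, f3, R2, v1, v2, e1]
      have w1 : List.replicate L a = List.replicate c a ++ (List.replicate (g + 1) a ++ List.replicate r a) := by
        rw [← List.replicate_add, ← List.replicate_add, ← hr]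
        congr 1
        omega
      have w2 : fy (u + g + 1 + h) = fx c * (B.q a ^ (i + δ) * y₀) := by
        show B.q a ^ (u + g + 1 + h) * y₀ = B.q a ^ c * _
        rw [← mul_assoc, ← zpow_natCast, ← zpow_natCast, ← zpow_add]
        congr 2
        push_cast
        omega
      have w3 : V.vol (fx c) (List.replicate (g + 1) a) = V.chi (fx c) * V.vol 1 (List.replicate (g + 1) a) := by
        rw [← vol_tr, mul_one]
      rw [w1, vol_append, c1, vol_append, run_fin fx a hxa, w2, vol_tr, w3, v1, Nat.add_assoc c g 1]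
      ring
    · show V.vol y₀ (List.replicate (u + g) e ++ B.inv b' :: (List.replicate k (B.inv a) ++ b :: List.replicate t e)) = _
      rw [vol_append, d1, f3, R3, vol_append, d2, f3, R4, v1, v3, e2]
      have w1 : List.replicate L e = List.replicate (u + g) e ++ (List.replicate (δ + 1 - g) e ++ List.replicate t e) := by
        rw [← List.replicate_add, ← List.replicate_add, ← ht]
        congr 1
        omega
      have w2 : fx (c + 1 + k) = fx c * B.q a ^ g := by
        show B.q a ^ (c + 1 + k) = B.q a ^ c * _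
        rw [← pow_add, ← hk]
        congr 1
        omega
      have w3 : fy (u + g) = fx c * (B.q a ^ (i + g) * y₀) := by
        show B.q a ^ (u + g) * y₀ = B.q a ^ c * _
        rw [← mul_assoc, ← zpow_natCast, ← zpow_natCast, ← zpow_add]
        congr 2
        push_cast
        omega
      have w4 : B.fin (fy (u + g)) (List.replicate (δ + 1 - g) e) = fy (u + δ + 1) := by
        rw [run_fin fy e hye]
        congr 1
        omega
      rw [w1, vol_append, d1, vol_append, w4, w2, vol_tr]
      rw [w3, vol_tr V (fx c) (B.q a ^ (i + g) * y₀), v1]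
      ring

end Pool.Agent.Lib.MP_688fd0_co.SQ3.Small
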