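import Pool.Agent.Lib.MP_688fd0_co.SQ3.Small.Iface

/-!
Row ZM: a subgroup of `ZMod m` which is not contained in any `p ZMod m`, `p ∣ m`, is everything.
-/

set_option autoImplicit false

namespace Pool.Agent.Lib.MP_688fd0_co.SQ3.Small

theorem zm : ZmS := by
  intro m _ K hK
  have hm : m ≠ 0 := NeZero.ne m
  obtain ⟨n, hn⟩ := Int.subgroup_cyclic (K.comap (Int.castAddHom (ZMod m)))
  have hmem : ∀ x : ℤ, x ∈ K.comap (Int.castAddHom (ZMod m)) ↔ n ∣ x := by
    intro x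
    rw [hn, ← AddSubgroup.zmultiples_eq_closure, Int.mem_zmultiples_iff]
  have hK' : ∀ x : ZMod m, x ∈ K ↔ n ∣ (x.val : ℤ) := by
    intro x
    rw [← hmem, AddSubgroup.mem_comap]
    show _ ↔ ((x.val : ℤ) : ZMod m) ∈ K
    rw [Int.cast_natCast, ZMod.natCast_zmod_val]
  have hnm : n ∣ (m : ℤ) := by
    rw [← hmem, AddSubgroup.mem_comap]
    show ((m : ℤ) : ZMod m) ∈ K
    rw [Int.cast_natCast, ZMod.natCast_self]
    exact K.zero_mem
  by_cases h1 : n.natAbs = 1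
  · rw [eq_top_iff]
    intro x _
    rw [hK']
    exact (Int.isUnit_iff_natAbs_eq.2 h1).dvd
  · obtain ⟨p, hp, hpn⟩ := Nat.exists_prime_and_dvd h1
    have hpn' : (p : ℤ) ∣ n := Int.natCast_dvd.2 hpn
    have hpm : p ∣ m := by exact_mod_cast hpn'.trans hnm
    obtain ⟨x, hx, hx'⟩ := hK p (Nat.mem_primeFactors.2 ⟨hp, hpm, hm⟩)
    exfalso
    apply hx'
    have h2 : p ∣ x.val := by exact_mod_cast hpn'.trans ((hK' x).1 hx)
    unfold rd
    rw [← ZMod.natCast_val, ZMod.natCast_eq_zero_iff]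
    exact h2

end Pool.Agent.Lib.MP_688fd0_co.SQ3.Small
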