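import Pool.Agent.Lib.MP_688fd0_co.SQ3.Small.Sml
import Pool.Agent.Lib.MP_688fd0_co.SQ3.Small.Sq
import Pool.Agent.Lib.MP_688fd0_co.SQ3.Small.Rg1
import Pool.Agent.Lib.MP_688fd0_co.SQ3.Small.Rg2
import Pool.Agent.Lib.MP_688fd0_co.SQ3.Small.R1
import Pool.Agent.Lib.MP_688fd0_co.SQ3.Small.R1A
import Pool.Agent.Lib.MP_688fd0_co.SQ3.Small.R1C
import Pool.Agent.Lib.MP_688fd0_co.SQ3.Small.R1D
import Pool.Agent.Lib.MP_688fd0_co.SQ3.Small.R2A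
import Pool.Agent.Lib.MP_688fd0_co.SQ3.Small.R2B
import Pool.Agent.Lib.MP_688fd0_co.SQ3.Small.R2BZ
import Pool.Agent.Lib.MP_688fd0_co.SQ3.Small.Gau
import Pool.Agent.Lib.MP_688fd0_co.SQ3.Small.Asm
import Pool.Agent.Lib.MP_688fd0_co.SQ3.Small.H81.Slot
import Pool.Agent.Lib.MP_688fd0_co.SQ3.Small.H81.Ex
import Pool.Agent.Lib.MP_688fd0_co.SQ3.Small.Ar
import Pool.Agent.Lib.MP_688fd0_co.SQ3.Small.T1
import Pool.Agent.Lib.MP_688fd0_co.SQ3.Small.T1a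
import Pool.Agent.Lib.MP_688fd0_co.SQ3.Small.T2
import Pool.Agent.Lib.MP_688fd0_co.SQ3.Small.BW
import Pool.Agent.Lib.MP_688fd0_co.SQ3.Small.HS
import Pool.Agent.Lib.MP_688fd0_co.SQ3.Small.ZM
import Pool.Agent.Lib.MP_688fd0_co.SQ3.Small.Win
import Pool.Agent.Lib.MP_688fd0_co.SQ3.Small.Cr
import Pool.Agent.Lib.MP_688fd0_co.SQ3.Small.Fac
import Pool.Agent.Lib.MP_688fd0_co.SQ3.Small.Lift
import Pool.Agent.Lib.MP_688fd0_co.SQ3.Small.Hn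
import Pool.Agent.Lib.MP_688fd0_co.SQ3.Small.M3
import Pool.Agent.Lib.MP_688fd0_co.SQ3.Small.OneW
import Pool.Agent.Lib.MP_688fd0_co.SQ3.Small.Mk1
import Pool.Agent.Lib.MP_688fd0_co.SQ3.Small.Mk2
import Pool.Agent.Lib.MP_688fd0_co.SQ3.Small.Mk3
import Pool.Agent.Lib.MP_688fd0_co.SQ3.Small.Cn1
import Pool.Agent.Lib.MP_688fd0_co.SQ3.Small.Cn2
import Pool.Agent.Lib.MP_688fd0_co.SQ3.Small.Cn3
import Pool.Agent.Lib.MP_688fd0_co.SQ3.Small.Nc0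
import Pool.Agent.Lib.MP_688fd0_co.SQ3.Small.Fw1
import Pool.Agent.Lib.MP_688fd0_co.SQ3.Small.Fw2
import Pool.Agent.Lib.MP_688fd0_co.SQ3.Small.F3a
import Pool.Agent.Lib.MP_688fd0_co.SQ3.Small.F3b
import Pool.Agent.Lib.MP_688fd0_co.SQ3.Small.F3n

/-!
The small cases: the assembly.
-/

set_option autoImplicit false

namespace Pool.Agent.Lib.MP_688fd0_co.SQ3.Small

open Pool.Agent.Lib.MP_688fd0_co.OSF

theorem bwS : BwS := bw hs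

theorem asmS : AsmS := asm H81.slot ar (t1 bwS zm)

theorem rg1S : Rg1S := rg1 (r1 (r1a fac ar) (r1c asmS cr H81.ex) (r1d (t1a bwS zm) fac ar)) gau

theorem rg2S : Rg2S := rg2 (r2a asmS win cr H81.ex) (r2b asmS win H81.ex (r2bz t2 ar)) gau

theorem oneWS : OneWS := oneW merge3

theorem sqS : SqS :=
  sq rg1S rg2S hn (mk1 oneWS) (mk2 oneWS) (mk3 oneWS) cn1 cn2 cn3 fw1 fw2 f3a (f3n nc0) f3b

end Pool.Agent.Lib.MP_688fd0_co.SQ3.Small
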