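import Pool.Agent.Lib.MP_688fd0_co.SQ3.Small.IfaceN

/-!
Arcs of the special strands, from offsets on the lines.
-/

set_option autoImplicit false

namespace Pool.Agent.Lib.MP_688fd0_co.SQ3.Small

open Pool.Agent.Lib.MP_688fd0_co.OSF Pool.Agent.Lib.MP_688fd0_co.SQ2

section

variable {Q : Type} [Group Q] {B : Lb.{0, 0} Q} {U : Up B} {M : ℕ}

/-- The period. -/
def Per (U : Up B) (M : ℕ) : Prop := ∀ (v : Q) (t : ℕ), (U.U ^ t) v = v ↔ M ∣ t

theorem Per.add (h : Per U M) (a b : ℕ) (v : Q) : (U.U ^ (a + M * b)) v = (U.U ^ a) v := by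
  rw [add_comm, U.U_pow_add, (h v (M * b)).2 ⟨b, rfl⟩]

theorem Per.inj (h : Per U M) {a b : ℕ} {v : Q} (hab : (U.U ^ a) v = (U.U ^ b) v) (hle : a ≤ b) (hb : b < a + M) :
    a = b := by
  have h1 : (U.U ^ (b - a)) ((U.U ^ a) v) = (U.U ^ a) v := by
    rw [← U.U_pow_add, hab, Nat.add_sub_cancel' hle]
  have h2 := (h _ _).1 h1
  have h3 : b - a = 0 := Nat.eq_zero_of_dvd_of_lt h2 (by omega)
  omega

theorem Per.inj' (h : Per U M) {n a b : ℕ} {v : Q} (hab : (U.U ^ (n + a)) v = (U.U ^ (n + b)) v) (ha : a < M)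
    (hb : b < M) : a = b := by
  rcases Nat.le_total a b with h1 | h1
  · have := h.inj hab (by omega) (by omega)
    omega
  · have := h.inj hab.symm (by omega) (by omega)
    omega

/-- Every vertex of a line is met from the level `n` on. -/
theorem Per.from (h : Per U M) (hM : 0 < M) (n t : ℕ) (p : Q) : ∃ t' < M, (U.U ^ t) p = (U.U ^ (n + t')) p := by
  have h1 : n ≤ t + M * n := by
    have : n ≤ M * n := Nat.le_mul_of_pos_left n hM
    omega
  refine ⟨(t + M * n - n) % M, Nat.mod_lt _ hM, ?_⟩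
  have h2 : (U.U ^ t) p = (U.U ^ (t + M * n)) p := (h.add t n p).symm
  have h3 : t + M * n = n + (t + M * n - n) % M + M * ((t + M * n - n) / M) := by
    have := Nat.mod_add_div (t + M * n - n) M
    omega
  rw [h2]
  conv_lhs => rw [h3]
  rw [h.add]

/-- Representatives `0 < t ≤ M`. -/
theorem Per.pos (h : Per U M) (hM : 0 < M) (t : ℕ) (p : Q) : ∃ t', 0 < t' ∧ t' ≤ M ∧ (U.U ^ t) p = (U.U ^ t') p := by
  obtain ⟨t', ht', h1⟩ := h.from hM 1 t p
  exact ⟨1 + t', by omega, by omega, h1⟩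

/-- Lines are symmetric. -/
theorem Per.symm (h : Per U M) (hM : 0 < M) {a b : ℕ} {p q : Q} (hab : (U.U ^ a) p = (U.U ^ b) q) :
    ∃ t : ℕ, p = (U.U ^ t) q := by
  have h1 : a ≤ M * a := Nat.le_mul_of_pos_left a hM
  refine ⟨b + (M * a - a), ?_⟩
  rw [U.U_pow_add, ← hab, ← U.U_pow_add, Nat.add_sub_cancel' h1]
  exact ((h p (M * a)).2 ⟨a, rfl⟩).symm

/-- The arcs. -/
theorem exists_arcs (hper : Per U M) (hM : 0 < M) {κ : Type} (p : κ → Q)
    (hdis : ∀ c c' (t : ℕ), p c' = (U.U ^ t) (p c) → c = c') (hcov : ∀ v, ∃ c, ∃ t : ℕ, v = (U.U ^ t) (p c)) {n : ℕ}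
    {σ : Type} (b : σ → κ) (o : σ → ℕ) {s : σ → Q} {nx : Equiv.Perm σ} {g : σ → ℕ}
    (hs : ∀ i, s i = (U.U ^ o i) (p (b i))) (hle : ∀ i, o i + g i ≤ M)
    (hpart : ∀ c, ∀ t < M, ∃ i, b i = c ∧ o i ≤ t ∧ t < o i + g i)
    (hdj : ∀ i j, b i = b j → ∀ t, o i ≤ t → t < o i + g i → o j ≤ t → t < o j + g j → i = j)
    (n0 : 0 < n) (hpos : ∀ i, n < g i) (hnx : ∀ i, (U.U ^ g i) (s i) = s (nx i)) :
    ∃ ar : Q → σ, Arcs U n s nx g ar := by
  classical
  have key : ∀ i j t t', t < g i → t' < g j → (U.U ^ (n + t)) (s i) = (U.U ^ (n + t')) (s j) → i = j ∧ t = t' := by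
    intro i j t t' ht ht' h
    rw [hs, hs, ← U.U_pow_add, ← U.U_pow_add] at h
    have hb : b j = b i := by
      obtain ⟨u, hu⟩ := hper.symm hM h
      exact hdis _ _ u hu
    have h1 := hle i
    have h2 := hle j
    rw [hb, show o i + (n + t) = n + (o i + t) by omega, show o j + (n + t') = n + (o j + t') by omega] at h
    have h3 := hper.inj' h (by omega) (by omega)
    have h4 := hdj i j hb.symm (o i + t) (by omega) (by omega) (by omega) (by omega)
    subst h4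
    exact ⟨rfl, by omega⟩
  have hc : ∀ y, ∃ i, ∃ t < g i, y = (U.U ^ (n + t)) (s i) := by
    intro y
    obtain ⟨c, t, rfl⟩ := hcov y
    obtain ⟨t', ht', h1⟩ := hper.from hM n t (p c)
    obtain ⟨i, hi, h2, h3⟩ := hpart c t' ht'
    refine ⟨i, t' - o i, by omega, ?_⟩
    rw [h1, hs, hi, ← U.U_pow_add]
    congr 2
    omega
  choose ar har using hc
  refine ⟨ar, n0, hpos, hnx, ?_, har, ?_⟩
  · intro i t ht
    obtain ⟨t', ht', h1⟩ := har ((U.U ^ (n + t)) (s i))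
    exact (key _ _ _ _ ht ht' h1).1.symm
  · intro i t ht t' ht' h
    exact (key _ _ _ _ ht ht' h).2

/-- The arc of a strand. -/
theorem Arcs.at {n : ℕ} {σ : Type} {s : σ → Q} {nx : Equiv.Perm σ} {g : σ → ℕ} {ar : Q → σ}
    (hA : Arcs U n s nx g ar) {L₀ : Finset Q} (hL : LvD U n L₀) {i : σ} (hi : s i ∈ L₀) {t : ℕ} (ht : 0 < t)
    (htg : t ≤ g i) (hv : (U.U ^ t) (s i) ∈ L₀) : ar ((U.U ^ t) (s i)) = i := by
  have h1 : n < t := by
    by_contra h
    have h2 := hL (s i) hi _ hv t 0 (by omega) (by omega) (by rw [pow_zero]; rfl)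
    omega
  have h2 : t = n + (t - n) := by omega
  rw [h2]
  have := hA.n0
  exact hA.har i (t - n) (by omega)

/-- The heights of the arcs between strands of `L₀`. -/
theorem LvD.gap {n : ℕ} {L₀ : Finset Q} (hL : LvD U n L₀) {v : Q} {t : ℕ} (h1 : v ∈ L₀) (h2 : (U.U ^ t) v ∈ L₀)
    (ht : 0 < t) : n < t := by
  by_contra h
  have h3 := hL v h1 _ h2 t 0 (by omega) (by omega) (by rw [pow_zero]; rfl)
  omega

end

/-! ### The reversed window -/

section

variable {Q : Type} [Group Q] [DecidableEq Q] {B : Lb.{0, 0} Q}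

/-- Cup and cap reversed. -/
def rvW (X : TW B) : TW B := X.flipCup.flipCap

theorem rvW_tok (X : TW B) : (rvW X).tok₀ = X.tok₀ := by
  have h : (rvW X).tok₀ = X.flipCup.tok₀ := rfl
  rw [h, TW.flipCup_tok₀]

theorem rvW_R (X : TW B) : (rvW X).R = X.R := by
  unfold rvW
  rw [TW.flipCap_R, TW.flipCup_R]

end

end Pool.Agent.Lib.MP_688fd0_co.SQ3.Small
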