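import Pool.Agent.Lib.MP_688fd0_co.SQ3.Small.IfaceS
import Pool.Agent.Lib.MP_688fd0_co.SQ3.V.Flip
import Pool.Agent.Lib.MP_688fd0_co.SQ2.H23.HeartA

/-!
S-ASM0: one window, from the flips to the tours.
-/

set_option autoImplicit false

namespace Pool.Agent.Lib.MP_688fd0_co.SQ3.Small

open Pool.Agent.Lib.MP_688fd0_co.OSF Pool.Agent.Lib.MP_688fd0_co.SQ2
open Subgroup (zpowers)
open V (Puz)

theorem need_le {ρ ω k c W Λ : ℕ} (hk : 0 < k) (hΛ : Λ ≤ lam ((ρ + 2) ^ 4 * k) k c)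
    (h : needW ρ (2 * ω) k c ≤ W) : ((2 * ω) ^ 2 + 1) * Λ + k ≤ W := by
  refine le_trans ?_ h
  unfold needW
  generalize lam ((ρ + 2) ^ 4 * k) k c = L at hΛ ⊢
  have h1 : 1 ≤ 2 ^ (2 * ω) := Nat.one_le_two_pow
  calc ((2 * ω) ^ 2 + 1) * Λ + k ≤ (2 * ω + 2) ^ 2 * (L + 4 * k) := by
        have h2 : (2 * ω + 2) ^ 2 = (2 * ω) ^ 2 + 1 + (8 * ω + 3) := by ring
        rw [h2]
        have h3 : ((2 * ω) ^ 2 + 1) * Λ ≤ ((2 * ω) ^ 2 + 1) * L := Nat.mul_le_mul_left _ hΛ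
        have h4 : ((2 * ω) ^ 2 + 1 + (8 * ω + 3)) * (L + 4 * k) = ((2 * ω) ^ 2 + 1) * L + (8 * ω + 3) * L +
          ((2 * ω) ^ 2 + 1 + (8 * ω + 3)) * (4 * k) := by ring
        rw [h4]
        have h5 : 1 * k ≤ ((2 * ω) ^ 2 + 1 + (8 * ω + 3)) * (4 * k) := Nat.mul_le_mul (by omega) (by omega)
        omega
    _ = 1 * (2 * ω + 2) ^ 2 * 1 * (L + 4 * k) := by ring
    _ ≤ 100 * (2 * ω + 2) ^ 2 * 2 ^ (2 * ω) * (L + 4 * k) := by
        refine Nat.mul_le_mul_right _ (Nat.mul_le_mul (Nat.mul_le_mul_right _ (by norm_num)) h1)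

/-- Gauge for a prime: case I or case II. -/
theorem kap_cases {Q : Type} [Group Q] {B : Lb.{0, 0} Q} {a : B.L} {eps : Q →* ℤˣ} {D : Subgroup Q} {z : Q} {k : ℕ}
    (H : Hyp B a eps D z k) {p : ℕ} [Fact p.Prime] (V : Vd B (ZMod p)) (hK : KapC V a eps) :
    ∃ c₀ : ZMod p, ((∃ t : B.L, CaseI H.up (V.gauge c₀) t ∧ CaseI H.up (V.gauge c₀) (B.inv t)) ∨
        (∃ t : B.L, (V.gauge c₀).chi (B.q a) = 1 ∧
          (V.gauge c₀).chi (B.q t) ≠ (((eps (B.q t) : ℤˣ) : ℤ) : ZMod p) ∧ CaseII H.up (V.gauge c₀) t)) := by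
  rcases hK with ⟨hα, b, hb⟩ | ⟨hα, hna, b, hb⟩
  · set c₀ : ZMod p := V.n a * (V.chi (B.q a) - 1)⁻¹ with hc₀
    have hα' : V.chi (B.q a) - 1 ≠ 0 := sub_ne_zero.2 hα
    have ha : (V.gauge c₀).n a = 0 := by
      show V.n a - c₀ * (V.chi (B.q a) - 1) = 0
      rw [hc₀, mul_assoc, inv_mul_cancel₀ hα', mul_one, sub_self]
    have hnb : (V.gauge c₀).n b ≠ 0 := by
      intro h
      apply hb
      have h1 : V.n b - c₀ * (V.chi (B.q b) - 1) = 0 := h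
      have h2 : V.n a - c₀ * (V.chi (B.q a) - 1) = 0 := ha
      unfold Vd.kap
      linear_combination (V.chi (B.q a) - 1) * h1 - (V.chi (B.q b) - 1) * h2
    exact ⟨c₀, Or.inl ⟨b, caseI H (V.gauge c₀) ha hα hnb, caseI H (V.gauge c₀) ha hα (n_inv_ne _ hnb)⟩⟩
  · refine ⟨0, Or.inr ⟨b, hα, hb, caseII H (V.gauge 0) ?_ hα hb⟩⟩
    show V.n a - 0 * (V.chi (B.q a) - 1) ≠ 0
    rw [zero_mul, sub_zero]
    exact hna

theorem asm0 (h : HnS) : Asm0S := by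
  intro Q _ _ _ B a eps D z k c W H x s₁ s₂ b₁ b₂ j F C P m V hFc hN hz hK w cl htm hflip
  have hk : NeZero k := ⟨H.kpos.ne'⟩
  have ht₀ : tz k P.p₀ < k := ZMod.val_lt _
  refine h Q B a eps D z k H m V hN.odd hz ?_ (im (H.up.U ^ tz k P.p₀) F) ((H.up.U ^ tz k P.p₀) s₁)
    ((H.up.U ^ tz k P.p₀) x) ((H.up.U ^ tz k P.p₀) s₂) (lam F.card k c) (fun γ => spr H.up F k (w γ)) cl ?_ ?_ ?_
  · intro p hp
    have h1 := (hN.prm p hp).2.1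
    nlinarith [Nat.zero_le m.primeFactors.card]
  · rintro n hn - hle
    refine htm n _ hn ?_ ht₀
    refine le_trans (Nat.add_le_add_right hle k) ?_
    exact need_le H.kpos (lam_mono hFc) hN.need
  · obtain ⟨X, n, h1, h2⟩ := P.win
    exact ⟨X, n, h1, h2.dvd, h2.flat, h2.L₀, h2.u₀, h2.u₁⟩
  · intro p hp γ hγ
    have hpp := Nat.prime_of_mem_primeFactors hp
    have : Fact p.Prime := ⟨hpp⟩
    obtain ⟨c₀, hc⟩ := kap_cases H (V.map (red (Nat.dvd_of_mem_primeFactors hp))) (hK p hp)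
    have hz' : ((V.map (red (Nat.dvd_of_mem_primeFactors hp))).gauge c₀).chi z = 1 := by
      show red (Nat.dvd_of_mem_primeFactors hp) (V.chi z) = 1
      rw [hz, map_one]
    obtain ⟨X, X', n, g1, g2, g3, g4⟩ := (hflip p hp _ hz' γ hγ hc).conc
    exact ⟨X, X', n, g1, g2.dvd, g2.L₀, g2.u₀, g2.u₁, g3, by rwa [gauge_dvolw _ c₀ _ g3] at g4⟩

end Pool.Agent.Lib.MP_688fd0_co.SQ3.Small
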