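import Pool.Agent.Lib.MP_688fd0_co.SQ2.TW
import Pool.Agent.Lib.MP_688fd0_co.OSF.Iface

/-!
Small cases (`c₀ ≤ 2`): definitions. Everything happens in the extension `Q × R` (`R = ZMod m`): the vertex `(y, v)` is
joined to `(y q(g), v + χ(y) n(g))`. `HP V`: there is a Hamiltonian path in the extension.
-/

set_option autoImplicit false

namespace Pool.Agent.Lib.MP_688fd0_co.SQ3.Small

open Pool.Agent.Lib.MP_688fd0_co.OSF Pool.Agent.Lib.MP_688fd0_co.SQ2

universe u v w

section

variable {Q : Type u} [Group Q] {B : Lb.{u, v} Q} {R : Type w} [CommRing R] (V : Vd B R)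

/-- The end of the path with labels `l` from `x` in the extension. -/
def ef : Q × R → List B.L → Q × R
  | x, [] => x
  | x, g :: l => ef (x.1 * B.q g, x.2 + V.chi x.1 * V.n g) l

/-- The vertices of the path with labels `l` from `x` in the extension. -/
def ev : Q × R → List B.L → List (Q × R)
  | x, [] => [x]
  | x, g :: l => x :: ev (x.1 * B.q g, x.2 + V.chi x.1 * V.n g) l

/-- The same without the last vertex. -/
def es : Q × R → List B.L → List (Q × R)
  | _, [] => []
  | x, g :: l => x :: es (x.1 * B.q g, x.2 + V.chi x.1 * V.n g) l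

/-- A Hamiltonian path in the extension. -/
def HP : Prop :=
  ∃ (x : Q × R) (l : List B.L), (ev V x l).Nodup ∧ ∀ y : Q × R, y ∈ ev V x l

theorem ef_eq (x : Q × R) (l : List B.L) : ef V x l = (B.fin x.1 l, x.2 + V.vol x.1 l) := by
  induction l generalizing x with
  | nil => simp [ef, Lb.fin, Vd.vol]
  | cons g l ih =>
    rw [ef, ih]
    simp only [Lb.fin, Vd.vol, Prod.mk.injEq, true_and]
    ring

theorem ef_append (x : Q × R) (l l' : List B.L) : ef V x (l ++ l') = ef V (ef V x l) l' := by
  induction l generalizing x with
  | nil => rfl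
  | cons g l ih => exact ih _

theorem es_append (x : Q × R) (l l' : List B.L) : es V x (l ++ l') = es V x l ++ es V (ef V x l) l' := by
  induction l generalizing x with
  | nil => rfl
  | cons g l ih => exact congrArg (List.cons x) (ih _)

theorem ev_eq (x : Q × R) (l : List B.L) : ev V x l = es V x l ++ [ef V x l] := by
  induction l generalizing x with
  | nil => rfl
  | cons g l ih => exact congrArg (List.cons x) (ih _)

theorem ev_append (x : Q × R) (l l' : List B.L) : ev V x (l ++ l') = es V x l ++ ev V (ef V x l) l' := by
  rw [ev_eq, es_append, ev_eq, ef_append, List.append_assoc]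

/-- Translation by `r`. -/
theorem ef_add (x : Q × R) (r : R) (l : List B.L) :
    ef V (x.1, x.2 + r) l = ((ef V x l).1, (ef V x l).2 + r) := by
  rw [ef_eq, ef_eq]
  simp only [Prod.mk.injEq, true_and]
  ring

theorem es_add (x : Q × R) (r : R) (l : List B.L) :
    es V (x.1, x.2 + r) l = (es V x l).map fun y => (y.1, y.2 + r) := by
  induction l generalizing x with
  | nil => rfl
  | cons g l ih =>
    have h := ih (x.1 * B.q g, x.2 + V.chi x.1 * V.n g)
    simp only [es, List.map_cons, List.cons.injEq, true_and]
    rw [← h]
    congr 2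
    ring

theorem ev_add (x : Q × R) (r : R) (l : List B.L) :
    ev V (x.1, x.2 + r) l = (ev V x l).map fun y => (y.1, y.2 + r) := by
  rw [ev_eq, ev_eq, es_add, ef_add]; simp

theorem es_fst (x : Q × R) (l : List B.L) : (es V x l).map Prod.fst = src B x.1 l := by
  induction l generalizing x with
  | nil => rfl
  | cons g l ih => exact congrArg (List.cons x.1) (ih _)

theorem ev_fst (x : Q × R) (l : List B.L) : (ev V x l).map Prod.fst = B.verts x.1 l := by
  induction l generalizing x with
  | nil => rfl
  | cons g l ih => exact congrArg (List.cons x.1) (ih _)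

theorem es_length (x : Q × R) (l : List B.L) : (es V x l).length = l.length := by
  induction l generalizing x with
  | nil => rfl
  | cons g l ih => exact congrArg Nat.succ (ih _)

theorem ev_length (x : Q × R) (l : List B.L) : (ev V x l).length = l.length + 1 := by
  rw [ev_eq, List.length_append, es_length]; rfl

end

end Pool.Agent.Lib.MP_688fd0_co.SQ3.Small
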