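import Pool.Agent.Lib.MP_688fd0_co.SQ3.Small.IfaceS

/-!
Waiting (class II) in one window: the costs of waiting at `stb`, at `st₁` and at the end.
-/

set_option autoImplicit false

namespace Pool.Agent.Lib.MP_688fd0_co.SQ3.Small

open Pool.Agent.Lib.MP_688fd0_co.OSF Pool.Agent.Lib.MP_688fd0_co.SQ2
open Subgroup (zpowers)
open V (Puz)

section puz

variable {S R F : Type} [Fintype S] [DecidableEq S] [CommRing F] {P : Puz S R}

/-- A token counts once. -/
theorem sum_tok {f : R} {u : S} (hu : ¬ P.On f u) (a : P.TokOf f → F) :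
    (∑ t : P.TokOf f, if (t : S) = u then a t else 0) = a ⟨u, hu⟩ := by
  rw [Finset.sum_eq_single (⟨u, hu⟩ : P.TokOf f)]
  · rw [if_pos rfl]
  · intro t _ ht
    rw [if_neg (fun h => ht (Subtype.ext h))]
  · intro h
    exact absurd (Finset.mem_univ _) h

/-- Waiting at the state `stb`, before a rung at `v` with the other end `u`. -/
theorem gam_stb_u (χ d : S → F) {f g r : R} {l₀ v u : S} (hadj : P.Adj g f l₀) (hu : P.oth r v = u)
    (h1 : ¬ P.On f u) (h2 : u ≠ P.oth g l₀) :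
    P.gam χ (fun t : P.TokOf f => d t) (P.stb f g l₀) r v =
      (∑ t : P.TokOf f, d t * χ t) + d (P.oth g l₀) * (χ (P.oth f l₀) - χ (P.oth g l₀)) +
        d u * (χ (P.oth g v) - χ v) := by
  have hon : P.On f (P.oth f l₀) := Puz.on_oth f l₀
  unfold Puz.gam
  rw [← sum_tok hadj.not_on (fun t => d (t : S) * (χ (P.oth f l₀) - χ (P.oth g l₀))),
    ← sum_tok h1 (fun t => d (t : S) * (χ (P.oth g v) - χ v)), ← Finset.sum_add_distrib,
    ← Finset.sum_add_distrib]
  refine Finset.sum_congr rfl fun t _ => ?_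
  show d t * (χ (if (t : S) = P.oth g l₀ then P.oth f l₀ else t) +
    if (if (t : S) = P.oth g l₀ then P.oth f l₀ else t) = P.oth r v then χ (P.oth g v) - χ v else 0) = _
  rw [hu]
  by_cases ht : (t : S) = P.oth g l₀
  · have h3 : P.oth f l₀ ≠ u := fun h => h1 (h ▸ hon)
    rw [if_pos ht, if_pos ht, if_neg h3, if_neg (fun h => h2 (h.symm.trans ht)), ht]
    ring
  · rw [if_neg ht, if_neg ht]
    by_cases htu : (t : S) = u
    · rw [if_pos htu, if_pos htu]
      ring
    · rw [if_neg htu, if_neg htu]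
      ring

/-- Waiting at the end. -/
theorem gam_stb_f (χ d : S → F) {f g : R} {l₀ : S} (hadj : P.Adj g f l₀) :
    P.gam χ (fun t : P.TokOf f => d t) (P.stb f g l₀) f l₀ =
      (∑ t : P.TokOf f, d t * χ t) + d (P.oth g l₀) * (χ (P.oth f l₀) - χ l₀) := by
  have hon : P.On f (P.oth f l₀) := Puz.on_oth f l₀
  unfold Puz.gam
  rw [← sum_tok hadj.not_on (fun t => d (t : S) * (χ (P.oth f l₀) - χ l₀)), ← Finset.sum_add_distrib]
  refine Finset.sum_congr rfl fun t _ => ?_
  show d t * (χ (if (t : S) = P.oth g l₀ then P.oth f l₀ else t) +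
    if (if (t : S) = P.oth g l₀ then P.oth f l₀ else t) = P.oth f l₀ then χ (P.oth g l₀) - χ l₀ else 0) = _
  by_cases ht : (t : S) = P.oth g l₀
  · rw [if_pos ht, if_pos ht, if_pos rfl, ht]
    ring
  · rw [if_neg ht, if_neg ht, if_neg (fun h => t.2 (by rw [h]; exact hon))]
    ring

/-- Waiting at a state with all tokens home. -/
theorem gam_home (χ d : S → F) {f r r' : R} {v u : S} (hu : P.oth r v = u) (h1 : ¬ P.On f u) :
    P.gam χ (fun t : P.TokOf f => d t) (r', fun t => (t : S)) r v =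
      (∑ t : P.TokOf f, d t * χ t) + d u * (χ (P.oth r' v) - χ v) := by
  unfold Puz.gam
  rw [← sum_tok h1 (fun t => d (t : S) * (χ (P.oth r' v) - χ v)), ← Finset.sum_add_distrib]
  refine Finset.sum_congr rfl fun t _ => ?_
  show d t * (χ (t : S) + if (t : S) = P.oth r v then χ (P.oth r' v) - χ v else 0) = _
  rw [hu]
  by_cases htu : (t : S) = u
  · rw [if_pos htu, if_pos htu]
    ring
  · rw [if_neg htu, if_neg htu]
    ring

end puz

section lines

variable {Q : Type} [Group Q] {B : Lb.{0, 0} Q} {a : B.L} {eps : Q →* ℤˣ} {D : Subgroup Q} {z : Q} {k : ℕ}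

/-- The vertices of a line. -/
theorem same_line (H : Hyp B a eps D z k) {y y' : Q} (h : y⁻¹ * y' ∈ zpowers (B.q a)) :
    ∃ t : ℤ, y' = (H.up.U ^ t) y := by
  obtain ⟨n, hn⟩ := Subgroup.mem_zpowers_iff.1 h
  refine ⟨((eps y : ℤˣ) : ℤ) * n, ?_⟩
  rw [← H.mul_zpow, hn, mul_inv_cancel_left]

/-- Class II: the two lines have different volumes of one step up. -/
theorem wt_ne (H : Hyp B a eps D z k) (hi : (zpowers (B.q a)).index = 2) {p : ℕ} {V : Vd B (ZMod p)} {t : B.L}
    (hII : CaseII H.up V t) {y y' : Q} (h : y⁻¹ * y' ∉ zpowers (B.q a)) : H.up.wt V y ≠ H.up.wt V y' := by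
  have h1 : B.q t ∉ zpowers (B.q a) := by
    intro h1
    obtain ⟨n, hn⟩ := same_line H (y := y) (y' := y * B.q t) (by rwa [inv_mul_cancel_left])
    exact hII.ne y (by rw [hn]; exact dl_zpow hII.om y n)
  have h2 : (y * B.q t)⁻¹ * y' ∈ zpowers (B.q a) := by
    rw [mul_inv_rev, mul_assoc, Subgroup.mul_mem_iff_of_index_two hi, inv_mem_iff]
    exact ⟨fun h3 => absurd h3 h1, fun h3 => absurd h3 h⟩
  obtain ⟨n, hn⟩ := same_line H h2
  rw [hn]
  intro h3
  exact hII.ne y (by rw [h3]; exact (dl_zpow hII.om _ n).symm)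

end lines

end Pool.Agent.Lib.MP_688fd0_co.SQ3.Small
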