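import Pool.Agent.Lib.MP_688fd0_co.SQ3.Small.IfaceN
import Pool.Agent.Lib.MP_688fd0_co.SQ3.Block
import Pool.Agent.Lib.MP_688fd0_co.SQ3.H23.HeartA
import Pool.Agent.Lib.MP_688fd0_co.SQ3.H23.Select2

/-!
HN: versions of one flat window for all conditions, one above the other (`BLOCK`), and SELECT.
-/

set_option autoImplicit false

namespace Pool.Agent.Lib.MP_688fd0_co.SQ3.Small

open Pool.Agent.Lib.MP_688fd0_co.OSF Pool.Agent.Lib.MP_688fd0_co.SQ2

/-- A stack of windows with the same frontier, centre and leaves, each in two versions: all choices at once. -/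
theorem stack {Q : Type} [Group Q] [DecidableEq Q] {B : Lb.{0, 0} Q} (U : Up B) {κ : Type} [Fintype κ] [Nonempty κ]
    (L₀ : Finset Q) (u₀ u₁ xs : Q) (h : κ → ℕ) (g : κ → Q) (X X' : κ → TW B)
    (hV : ∀ k, Ver U (X k) (X' k) (h k) xs)
    (hX : ∀ k, (X k).L₀ = L₀ ∧ (X k).u₀ = u₀ ∧ (X k).u₁ = u₁) (hg : ∀ k, Tr U (h k) (g k)) :
    ∃ W : (κ → Bool) → TW B, (∀ c, Flat U (W c) (∑ k, h k) xs ∧ (W c).L₀ = L₀ ∧ (W c).u₀ = u₀ ∧ (W c).u₁ = u₁ ∧
      (W c).cup = (W fun _ => false).cup ∧ (W c).cap = (W fun _ => false).cap) ∧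
      ∀ (R : Type) [CommRing R] (V : Vd B R), (∀ k, V.chi (g k) = 1) → ∀ (w : Q → R) (c : κ → Bool),
        ∑ x ∈ (W c).tok₀, w x * V.vol x ((W c).path x) =
          ∑ x ∈ (W fun _ => false).tok₀, w x * V.vol x ((W fun _ => false).path x) +
            ∑ k, if c k then dvolw V w (X k) (X' k) else 0 := by
  classical
  let sl : (κ → Bool) → List (SQ3.Slot B) := fun c =>
    (Finset.univ : Finset κ).toList.map fun k => (if c k then X' k else X k, h k, g k)
  have hslne : ∀ c, sl c ≠ [] := by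
    intro c h0
    obtain ⟨k⟩ := ‹Nonempty κ›
    have h1 : k ∈ (Finset.univ : Finset κ).toList := by
      rw [Finset.mem_toList]
      exact Finset.mem_univ _
    have h2 := List.mem_map_of_mem (f := fun k => ((if c k then X' k else X k, h k, g k) : SQ3.Slot B)) h1
    have h3 : sl c = (Finset.univ : Finset κ).toList.map
      fun k => (if c k then X' k else X k, h k, g k) := rfl
    rw [← h3, h0] at h2
    exact absurd h2 List.not_mem_nil
  have hsl : ∀ c, ∀ p ∈ sl c, SlotOK U L₀ u₀ u₁ xs p := by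
    intro c p hp
    obtain ⟨k, -, rfl⟩ := List.mem_map.1 hp
    obtain ⟨g1, g2, g3⟩ := hX k
    refine ⟨?_, ?_, ?_, ?_, hg k⟩
    · show Flat U (if c k then X' k else X k) (h k) _
      by_cases hc : c k
      · rw [if_pos hc]; exact (hV k).flat'
      · rw [if_neg hc]; exact (hV k).flat
    · show (if c k then X' k else X k).L₀ = _
      by_cases hc : c k
      · rw [if_pos hc, (hV k).L₀]; exact g1
      · rw [if_neg hc]; exact g1
    · show (if c k then X' k else X k).u₀ = _
      by_cases hc : c k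
      · rw [if_pos hc, (hV k).u₀]; exact g2
      · rw [if_neg hc]; exact g2
    · show (if c k then X' k else X k).u₁ = _
      by_cases hc : c k
      · rw [if_pos hc, (hV k).u₁]; exact g3
      · rw [if_neg hc]; exact g3
  let c0 : κ → Bool := fun _ => false
  have hf : ∀ c : κ → Bool, ∀ k, ((if c k then X' k else X k, h k, g k) : SQ3.Slot B).1.cup =
      ((if c0 k then X' k else X k, h k, g k) : SQ3.Slot B).1.cup ∧
      ((if c k then X' k else X k, h k, g k) : SQ3.Slot B).1.cap =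
      ((if c0 k then X' k else X k, h k, g k) : SQ3.Slot B).1.cap := by
    intro c k
    have e4 : (if c0 k then X' k else X k) = X k := if_neg (by simp [c0])
    show (if c k then X' k else X k).cup = (if c0 k then X' k else X k).cup ∧
      (if c k then X' k else X k).cap = (if c0 k then X' k else X k).cap
    rw [e4]
    by_cases hc : c k
    · rw [if_pos hc]; exact ⟨(hV k).cup, (hV k).cap⟩
    · rw [if_neg hc]; exact ⟨rfl, rfl⟩
  have hhead : ∀ c, ((sl c).head (hslne c)).1.cup = ((sl c0).head (hslne c0)).1.cup := by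
    intro c
    have e : ∀ c, (sl c).head (hslne c) = (if c ((Finset.univ : Finset κ).toList.head
        (fun h0 => hslne c (by show List.map _ _ = []; rw [h0]; rfl))) then X' _ else X _, h _, g _) := fun c =>
      List.head_map ..
    rw [e c, e c0]
    exact (hf c _).1
  have hlast : ∀ c, ((sl c).getLast (hslne c)).1.cap = ((sl c0).getLast (hslne c0)).1.cap := by
    intro c
    have e : ∀ c, (sl c).getLast (hslne c) = (if c ((Finset.univ : Finset κ).toList.getLast
        (fun h0 => hslne c (by show List.map _ _ = []; rw [h0]; rfl))) then X' _ else X _, h _, g _) := fun c =>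
      List.getLast_map ..
    rw [e c, e c0]
    exact (hf c _).2
  have hsum : ∀ c, ((sl c).map fun p => p.2.1).sum = ∑ k, h k := by
    intro c
    show (((Finset.univ : Finset κ).toList.map _).map fun p : SQ3.Slot B => p.2.1).sum = _
    rw [List.map_map, Finset.sum_map_toList]
    rfl
  choose W w1 w2 w3 w4 w5 w6 w7 using fun c =>
    block_vol.{0, 0, 0} L₀ u₀ u₁ xs (sl c) (hslne c) (hsl c)
  have hW : ∀ c, Flat U (W c) (∑ k, h k) xs := fun c => by
    rw [← hsum c]; exact w1 c
  refine ⟨W, fun c => ⟨hW c, w2 c, w3 c, w4 c, by rw [w5, w5]; exact hhead c, by rw [w6, w6]; exact hlast c⟩, ?_⟩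
  intro R _ V hchi w c
  have hchi' : ∀ c, ∀ p ∈ sl c, V.chi p.2.2 = 1 := by
    intro c p hp
    obtain ⟨k, hk, rfl⟩ := List.mem_map.1 hp
    exact hchi k
  have hcc : ∀ c, ccost V u₀ u₁ (sl c) = ccost V u₀ u₁ (sl c0) := fun c =>
    ccost_congr V u₀ u₁ (fun k => (if c k then X' k else X k, h k, g k))
      (fun k => (if c0 k then X' k else X k, h k, g k)) (hf c) _
  have htok : ∀ c, (W c).tok₀ = (W c0).tok₀ := fun c => by
    ext x; rw [TW.mem_tok₀, TW.mem_tok₀, w2, w2, w3, w3, w4, w4]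
  have hvol : ∀ x ∈ (W c0).tok₀, V.vol x ((W c).path x) = V.vol x ((W c0).path x) +
      ∑ k, if c k then V.vol x ((X' k).path x) - V.vol x ((X k).path x) else 0 := by
    intro x hx
    have e1 := w7 c V (hchi' c) x (by rw [htok c]; exact hx)
    have e2 := w7 c0 V (hchi' c0) x hx
    rw [← sub_eq_iff_eq_add', e1, e2, hcc c]
    have e3 : ∀ c : κ → Bool, ((sl c).map fun p => V.vol x (p.1.path x)).sum =
        ∑ k, V.vol x ((if c k then X' k else X k).path x) := by
      intro c
      show (((Finset.univ : Finset κ).toList.map _).map _).sum = _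
      rw [List.map_map, Finset.sum_map_toList]
      rfl
    rw [e3, e3, add_sub_add_right_eq_sub, ← Finset.sum_sub_distrib]
    refine Finset.sum_congr rfl fun k _ => ?_
    have e4 : (if c0 k then X' k else X k) = X k := if_neg (by simp [c0])
    rw [e4]
    by_cases hc : c k
    · rw [if_pos hc, if_pos hc]
    · rw [if_neg hc, if_neg hc, sub_self]
  rw [htok c]
  have e5 : ∑ x ∈ (W c0).tok₀, w x * V.vol x ((W c).path x) =
      ∑ x ∈ (W c0).tok₀, w x * V.vol x ((W c0).path x) +
      ∑ x ∈ (W c0).tok₀, ∑ k, w x * (if c k then V.vol x ((X' k).path x) - V.vol x ((X k).path x) else 0) := by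
    rw [← Finset.sum_add_distrib]
    refine Finset.sum_congr rfl fun x hx => ?_
    rw [hvol x hx, mul_add, Finset.mul_sum]
  rw [e5, Finset.sum_comm (s := (W c0).tok₀)]
  show _ = ∑ x ∈ (W c0).tok₀, w x * V.vol x ((W c0).path x) + _
  congr 1
  refine Finset.sum_congr rfl fun k _ => ?_
  have e6 : (X k).tok₀ = (W c0).tok₀ := by
    ext x
    obtain ⟨g1, g2, g3⟩ := hX k
    rw [TW.mem_tok₀, TW.mem_tok₀, w2, w3, w4, g1, g2, g3]
  by_cases hc : c k
  · rw [if_pos hc]
    unfold dvolw
    rw [e6]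
    refine Finset.sum_congr rfl fun x _ => ?_
    rw [if_pos hc]
  · rw [if_neg hc]
    refine Finset.sum_eq_zero fun x _ => ?_
    rw [if_neg hc, mul_zero]

/-- HN. -/
theorem hn : HnS := by
  intro Q _ _ _ B a eps D z k H m V hodd hz hbig L₀ u₀ u₁ xs Λ w cl hTM hplain hver
  classical
  have hm : m ≠ 0 := by rintro rfl; exact absurd hodd (by decide)
  obtain ⟨X0, n0, hn0, hk0, hF0, e1, e2, e3⟩ := hplain
  have hv : ∀ q : {c : m.primeFactors × Bool // ∃ x, cl x = c.2}, ∃ (X X' : TW B) (n : ℕ), n ≤ Λ ∧ k ∣ n ∧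
      X.L₀ = L₀ ∧ X.u₀ = u₀ ∧ X.u₁ = u₁ ∧ Ver H.up X X' n xs ∧
        dvolw (V.map (red (Nat.dvd_of_mem_primeFactors q.1.1.2)))
          (fun y => ((w q.1.2 y : ℤ) : ZMod q.1.1)) X X' ≠ 0 :=
    fun q => hver q.1.1 q.1.1.2 q.1.2 q.2
  choose Xv Xv' nv hv1 hv2 hv3 hv4 hv5 hv6 hv7 using hv
  let X : Option ({c : m.primeFactors × Bool // ∃ x, cl x = c.2} × Fin (2 * m.primeFactors.card)) → TW B :=
    fun j => j.elim X0 fun p => Xv p.1
  let X' : Option ({c : m.primeFactors × Bool // ∃ x, cl x = c.2} × Fin (2 * m.primeFactors.card)) → TW B :=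
    fun j => j.elim X0 fun p => Xv' p.1
  let h : Option ({c : m.primeFactors × Bool // ∃ x, cl x = c.2} × Fin (2 * m.primeFactors.card)) → ℕ :=
    fun j => j.elim n0 fun p => nv p.1
  have hVer : ∀ j, Ver H.up (X j) (X' j) (h j) xs := by
    rintro (_ | ⟨q, i⟩)
    · exact Ver.refl hF0
    · exact hv6 q
  have hX : ∀ j, (X j).L₀ = L₀ ∧ (X j).u₀ = u₀ ∧ (X j).u₁ = u₁ := by
    rintro (_ | ⟨q, i⟩)
    · exact ⟨e1, e2, e3⟩
    · exact ⟨hv3 q, hv4 q, hv5 q⟩
  have hdv : ∀ j, k ∣ h j := by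
    rintro (_ | ⟨q, i⟩)
    · exact hk0
    · exact hv2 q
  have hle : ∀ j, h j ≤ Λ := by
    rintro (_ | ⟨q, i⟩)
    · exact hn0
    · exact hv1 q
  have hTr : ∀ j, Tr H.up (h j) (z ^ h j) := fun j => ⟨fun x => H.U_dvd (hdv j) x, fun x =>
    H.dat.upc _ (by
      show eps (z ^ h j) = 1
      rw [map_pow, H.eps_z, one_pow]) x⟩
  obtain ⟨W, hW, hvol⟩ := stack H.up L₀ u₀ u₁ xs h (fun j => z ^ h j) X X' hVer hX hTr
  have hcard : Fintype.card (Option ({c : m.primeFactors × Bool // ∃ x, cl x = c.2} × Fin (2 * m.primeFactors.card))) ≤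
      (2 * m.primeFactors.card) ^ 2 + 1 := by
    have h1 : Fintype.card {c : m.primeFactors × Bool // ∃ x, cl x = c.2} ≤ 2 * m.primeFactors.card := by
      refine (Fintype.card_subtype_le _).trans ?_
      rw [Fintype.card_prod, Fintype.card_coe, Fintype.card_bool, mul_comm]
    rw [Fintype.card_option, Fintype.card_prod, Fintype.card_fin, sq]
    have := Nat.mul_le_mul_right (2 * m.primeFactors.card) h1
    omega
  have htot : ∑ j, h j ≤ ((2 * m.primeFactors.card) ^ 2 + 1) * Λ := by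
    refine (Finset.sum_le_card_nsmul _ _ Λ fun j _ => hle j).trans ?_
    rw [Finset.card_univ, smul_eq_mul]
    exact Nat.mul_le_mul_right _ hcard
  obtain ⟨bv, hbv⟩ := hTM (∑ j, h j) (hW fun _ => false).1.pos (Finset.dvd_sum fun j _ => hdv j) htot
  choose T hT1 hT2 using fun c => hbv (W c) (hW c).1 (hW c).2.1 (hW c).2.2.1 (hW c).2.2.2.1
  -- classes which do not occur
  have hvol0 : ∀ (c) (R : Type) [CommRing R] (V' : Vd B R) (γ : Bool), (¬ ∃ y, cl y = γ) → (T c).vol V' γ = 0 := by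
    intro c R _ V' γ hγ
    unfold TourS.vol
    refine Finset.sum_eq_zero fun x _ => if_neg fun hx => hγ ?_
    obtain ⟨y, hy⟩ := hT1 c x
    exact ⟨y, by rw [← hy]; exact hx⟩
  refine select2 hm V cl hbig (fun q i => some (q, i)) ?_ (T fun _ => false)
    (fun j p hp γ => if ∃ y, cl y = γ then
      dvolw (V.map (red (Nat.dvd_of_mem_primeFactors hp))) (fun y => ((w γ y : ℤ) : ZMod p)) (X j) (X' j) else 0)
    (fun q p hp γ => if ∃ y, cl y = γ then
      dvolw (V.map (red (Nat.dvd_of_mem_primeFactors hp))) (fun y => ((w γ y : ℤ) : ZMod p)) (Xv q) (Xv' q) else 0)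
    ?_ ?_ ?_
  · intro q i q' i' hq
    have := Option.some.inj hq
    exact ⟨congrArg Prod.fst this, congrArg Prod.snd this⟩
  · intro q i p hp γ
    rfl
  · intro c
    show (if ∃ y, cl y = c.1.2 then _ else _) ≠ _
    rw [if_pos c.2]
    exact hv7 c
  · intro c
    refine ⟨T c, hT1 c, fun p hp γ => ?_⟩
    by_cases hγ : ∃ y, cl y = γ
    · rw [hT2 c _ _ γ hγ, hT2 _ _ _ γ hγ, (hW c).2.2.2.2.1, (hW c).2.2.2.2.2, add_assoc]
      congr 1
      rw [hvol (ZMod p) (V.map (red (Nat.dvd_of_mem_primeFactors hp))) ?_ (fun y => ((w γ y : ℤ) : ZMod p)) c]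
      · congr 1
        refine Finset.sum_congr rfl fun j _ => ?_
        show _ = if c j then (if ∃ y, cl y = γ then _ else _) else _
        rw [if_pos hγ]
      · intro j
        show red (Nat.dvd_of_mem_primeFactors hp) (V.chi (z ^ h j)) = 1
        rw [map_pow, hz, one_pow, map_one]
    · rw [hvol0 c _ _ γ hγ, hvol0 _ _ _ γ hγ, zero_add]
      symm
      refine Finset.sum_eq_zero fun j _ => ?_
      show (if c j then (if ∃ y, cl y = γ then _ else _) else _) = _
      rw [if_neg hγ, ite_self]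

end Pool.Agent.Lib.MP_688fd0_co.SQ3.Small
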