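import Pool.Agent.Lib.MP_688fd0_co.SQ3.Small.Hn

/-!
HN for an arbitrary `Up`: every `e` levels (`e ∣ n`) the lines are moved by a left multiplication `ζ n` which preserves the
labels and has `χ (ζ n) = 1`.
-/

set_option autoImplicit false

namespace Pool.Agent.Lib.MP_688fd0_co.SQ3.Small

open Pool.Agent.Lib.MP_688fd0_co.OSF Pool.Agent.Lib.MP_688fd0_co.SQ2

/-- HN for an arbitrary `Up`. -/
theorem hnU {Q : Type} [Group Q] [Fintype Q] [DecidableEq Q] {B : Lb.{0, 0} Q} (U : Up B) (e : ℕ) (ζ : ℕ → Q)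
    (m : ℕ) (V : Vd B (ZMod m)) (hodd : Odd m) (htr : ∀ n, e ∣ n → Tr U n (ζ n)) (hz : ∀ n, V.chi (ζ n) = 1)
    (hbig : ∀ p ∈ m.primeFactors, 2 * m.primeFactors.card < p)
    (L₀ : Finset Q) (u₀ u₁ xs : Q) (Λ : ℕ) (w : Bool → Q → ℤ) (cl : Q → Bool)
    (hTM : ∀ n : ℕ, 0 < n → e ∣ n → n ≤ ((2 * m.primeFactors.card) ^ 2 + 1) * Λ → TM U L₀ u₀ u₁ xs n w cl)
    (hplain : ∃ (X : TW B) (n : ℕ), n ≤ Λ ∧ e ∣ n ∧ Flat U X n xs ∧ X.L₀ = L₀ ∧ X.u₀ = u₀ ∧ X.u₁ = u₁)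
    (hver : ∀ p, ∀ hp : p ∈ m.primeFactors, ∀ γ : Bool, (∃ y, cl y = γ) →
      ∃ (X X' : TW B) (n : ℕ), n ≤ Λ ∧ e ∣ n ∧ X.L₀ = L₀ ∧ X.u₀ = u₀ ∧ X.u₁ = u₁ ∧ Ver U X X' n xs ∧
        dvolw (V.map (red (Nat.dvd_of_mem_primeFactors hp))) (fun y => ((w γ y : ℤ) : ZMod p)) X X' ≠ 0) :
    ∃ T : TourS B Bool, ∀ γ : Bool, (∃ x, T.cls x = γ) → IsUnit (T.vol V γ) := by
  classical
  have hm : m ≠ 0 := by rintro rfl; exact absurd hodd (by decide)
  obtain ⟨X0, n0, hn0, hk0, hF0, e1, e2, e3⟩ := hplain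
  have hv : ∀ q : {c : m.primeFactors × Bool // ∃ x, cl x = c.2}, ∃ (X X' : TW B) (n : ℕ), n ≤ Λ ∧ e ∣ n ∧
      X.L₀ = L₀ ∧ X.u₀ = u₀ ∧ X.u₁ = u₁ ∧ Ver U X X' n xs ∧
        dvolw (V.map (red (Nat.dvd_of_mem_primeFactors q.1.1.2)))
          (fun y => ((w q.1.2 y : ℤ) : ZMod q.1.1)) X X' ≠ 0 :=
    fun q => hver q.1.1 q.1.1.2 q.1.2 q.2
  choose Xv Xv' nv hv1 hv2 hv3 hv4 hv5 hv6 hv7 using hv
  let X : Option ({c : m.primeFactors × Bool // ∃ x, cl x = c.2} × Fin (2 * m.primeFactors.card)) → TW B :=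
    fun j => j.elim X0 fun p => Xv p.1
  let X' : Option ({c : m.primeFactors × Bool // ∃ x, cl x = c.2} × Fin (2 * m.primeFactors.card)) → TW B :=
    fun j => j.elim X0 fun p => Xv' p.1
  let h : Option ({c : m.primeFactors × Bool // ∃ x, cl x = c.2} × Fin (2 * m.primeFactors.card)) → ℕ :=
    fun j => j.elim n0 fun p => nv p.1
  have hVer : ∀ j, Ver U (X j) (X' j) (h j) xs := by
    rintro (_ | ⟨q, i⟩)
    · exact Ver.refl hF0
    · exact hv6 q
  have hX : ∀ j, (X j).L₀ = L₀ ∧ (X j).u₀ = u₀ ∧ (X j).u₁ = u₁ := by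
    rintro (_ | ⟨q, i⟩)
    · exact ⟨e1, e2, e3⟩
    · exact ⟨hv3 q, hv4 q, hv5 q⟩
  have hdv : ∀ j, e ∣ h j := by
    rintro (_ | ⟨q, i⟩)
    · exact hk0
    · exact hv2 q
  have hle : ∀ j, h j ≤ Λ := by
    rintro (_ | ⟨q, i⟩)
    · exact hn0
    · exact hv1 q
  obtain ⟨W, hW, hvol⟩ := stack U L₀ u₀ u₁ xs h (fun j => ζ (h j)) X X' hVer hX (fun j => htr _ (hdv j))
  have hcard : Fintype.card (Option ({c : m.primeFactors × Bool // ∃ x, cl x = c.2} × Fin (2 * m.primeFactors.card))) ≤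
      (2 * m.primeFactors.card) ^ 2 + 1 := by
    have h1 : Fintype.card {c : m.primeFactors × Bool // ∃ x, cl x = c.2} ≤ 2 * m.primeFactors.card := by
      refine (Fintype.card_subtype_le _).trans ?_
      rw [Fintype.card_prod, Fintype.card_coe, Fintype.card_bool, mul_comm]
    rw [Fintype.card_option, Fintype.card_prod, Fintype.card_fin, sq]
    have := Nat.mul_le_mul_right (2 * m.primeFactors.card) h1
    omega
  have htot : ∑ j, h j ≤ ((2 * m.primeFactors.card) ^ 2 + 1) * Λ := by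
    refine (Finset.sum_le_card_nsmul _ _ Λ fun j _ => hle j).trans ?_
    rw [Finset.card_univ, smul_eq_mul]
    exact Nat.mul_le_mul_right _ hcard
  obtain ⟨bv, hbv⟩ := hTM (∑ j, h j) (hW fun _ => false).1.pos (Finset.dvd_sum fun j _ => hdv j) htot
  choose T hT1 hT2 using fun c => hbv (W c) (hW c).1 (hW c).2.1 (hW c).2.2.1 (hW c).2.2.2.1
  -- classes which do not occur
  have hvol0 : ∀ (c) (R : Type) [CommRing R] (V' : Vd B R) (γ : Bool), (¬ ∃ y, cl y = γ) → (T c).vol V' γ = 0 := by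
    intro c R _ V' γ hγ
    unfold TourS.vol
    refine Finset.sum_eq_zero fun x _ => if_neg fun hx => hγ ?_
    obtain ⟨y, hy⟩ := hT1 c x
    exact ⟨y, by rw [← hy]; exact hx⟩
  refine select2 hm V cl hbig (fun q i => some (q, i)) ?_ (T fun _ => false)
    (fun j p hp γ => if ∃ y, cl y = γ then
      dvolw (V.map (red (Nat.dvd_of_mem_primeFactors hp))) (fun y => ((w γ y : ℤ) : ZMod p)) (X j) (X' j) else 0)
    (fun q p hp γ => if ∃ y, cl y = γ then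
      dvolw (V.map (red (Nat.dvd_of_mem_primeFactors hp))) (fun y => ((w γ y : ℤ) : ZMod p)) (Xv q) (Xv' q) else 0)
    ?_ ?_ ?_
  · intro q i q' i' hq
    have := Option.some.inj hq
    exact ⟨congrArg Prod.fst this, congrArg Prod.snd this⟩
  · intro q i p hp γ
    rfl
  · intro c
    show (if ∃ y, cl y = c.1.2 then _ else _) ≠ _
    rw [if_pos c.2]
    exact hv7 c
  · intro c
    refine ⟨T c, hT1 c, fun p hp γ => ?_⟩
    by_cases hγ : ∃ y, cl y = γ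
    · rw [hT2 c _ _ γ hγ, hT2 _ _ _ γ hγ, (hW c).2.2.2.2.1, (hW c).2.2.2.2.2, add_assoc]
      congr 1
      rw [hvol (ZMod p) (V.map (red (Nat.dvd_of_mem_primeFactors hp))) ?_ (fun y => ((w γ y : ℤ) : ZMod p)) c]
      · congr 1
        refine Finset.sum_congr rfl fun j _ => ?_
        show _ = if c j then (if ∃ y, cl y = γ then _ else _) else _
        rw [if_pos hγ]
      · intro j
        show red (Nat.dvd_of_mem_primeFactors hp) (V.chi (ζ (h j))) = 1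
        rw [hz, map_one]
    · rw [hvol0 c _ _ γ hγ, hvol0 _ _ _ γ hγ, zero_add]
      symm
      refine Finset.sum_eq_zero fun j _ => ?_
      show (if c j then (if ∃ y, cl y = γ then _ else _) else _) = _
      rw [if_neg hγ, ite_self]

end Pool.Agent.Lib.MP_688fd0_co.SQ3.Small
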