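import Pool.Agent.Lib.MP_688fd0_co.SQ3.Small.Defs

/-!
Board `sqs_modules`: the rigid cases with at most two lines (chapter SMALL, finding 4109). Statements of the rows.
-/

set_option autoImplicit false

namespace Pool.Agent.Lib.MP_688fd0_co.SQ3.Small

open Pool.Agent.Lib.MP_688fd0_co.OSF Pool.Agent.Lib.MP_688fd0_co.SQ2
open Subgroup (zpowers)

/-! ### Tools -/

/-- HS: a directed Hamiltonian path in a finite abelian group (Holsztynski - Strube). -/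
def HsS : Prop :=
  ∀ (Γ : Type) [AddCommGroup Γ] [Finite Γ] (S : Set Γ), AddSubgroup.closure S = ⊤ →
    ∃ l : List Γ, (∀ x ∈ l, x ∈ S) ∧ (l.scanl (fun x y : Γ => x + y) 0).Nodup ∧ ∀ y : Γ, y ∈ l.scanl (fun x y : Γ => x + y) 0

/-- BW: two blocks, traversed alternately. -/
def BwS : Prop :=
  ∀ (Q : Type) [Group Q] (B : Lb.{0, 0} Q) (R : Type) [CommRing R] [Finite R] (V : Vd B R) (H : AddSubgroup R)
    (x₀ y₀ : Q) (lX lY : List B.L) (S : Set B.L) (s' : B.L),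
    (ev V (x₀, 0) lX).Nodup → (ev V (y₀, 0) lY).Nodup →
    (∀ q r t, (q, r) ∈ ev V (x₀, 0) lX → ((q, r + t) ∈ ev V (x₀, 0) lX ↔ t ∈ H)) →
    (∀ q r t, (q, r) ∈ ev V (y₀, 0) lY → ((q, r + t) ∈ ev V (y₀, 0) lY ↔ t ∈ H)) →
    (∀ q r t, (q, r) ∈ ev V (x₀, 0) lX → (q, t) ∉ ev V (y₀, 0) lY) →
    (∀ q, ∃ r, (q, r) ∈ ev V (x₀, 0) lX ∨ (q, r) ∈ ev V (y₀, 0) lY) →
    (∀ s ∈ S, B.fin x₀ lX * B.q s = y₀) → B.fin y₀ lY * B.q s' = x₀ →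
    (∀ K : AddSubgroup R, H ≤ K → (∀ s ∈ S, V.vol x₀ (lX ++ s :: (lY ++ [s'])) ∈ K) → K = ⊤) → HP V

/-- Reduction modulo `p` of an element of `ZMod m`. -/
noncomputable def rd {m : ℕ} (p : ℕ) (x : ZMod m) : ZMod p := (x.cast : ZMod p)

/-- ZM: a subgroup of `ZMod m` which is not contained in any `p ZMod m` is everything. -/
def ZmS : Prop :=
  ∀ (m : ℕ) [NeZero m] (K : AddSubgroup (ZMod m)), (∀ p ∈ m.primeFactors, ∃ x ∈ K, rd p x ≠ 0) → K = ⊤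

/-- T1: two closed walks `lX ++ [g]`, `lY ++ [h]`, exits `s ∈ S` and `s'`. -/
def T1S : Prop :=
  ∀ (Q : Type) [Group Q] [Finite Q] (B : Lb.{0, 0} Q) (m : ℕ) [NeZero m] (V : Vd B (ZMod m)) (x₀ y₀ : Q)
    (lX lY : List B.L) (g h : B.L) (S : Set B.L) (s' : B.L), Squarefree m →
    B.fin x₀ (lX ++ [g]) = x₀ → B.fin y₀ (lY ++ [h]) = y₀ →
    (B.verts x₀ lX ++ B.verts y₀ lY).Nodup → (∀ q, q ∈ B.verts x₀ lX ∨ q ∈ B.verts y₀ lY) →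
    (∀ s ∈ S, B.fin x₀ lX * B.q s = y₀) → B.fin y₀ lY * B.q s' = x₀ →
    (∀ p ∈ m.primeFactors,
      (rd p (V.vol x₀ (lX ++ [g])) ≠ 0 ∧ rd p (V.vol y₀ (lY ++ [h])) ≠ 0) ∨
      (rd p (V.vol x₀ (lX ++ [g])) = 0 ∧ rd p (V.vol y₀ (lY ++ [h])) = 0 ∧
        ∃ s ∈ S, rd p (V.vol x₀ (lX ++ s :: (lY ++ [s']))) ≠ 0)) → S.Nonempty → HP V

/-- T1': two paths instead of two closed walks. -/
def T1aS : Prop :=
  ∀ (Q : Type) [Group Q] [Finite Q] (B : Lb.{0, 0} Q) (m : ℕ) [NeZero m] (V : Vd B (ZMod m)) (x₀ y₀ : Q)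
    (lX lY : List B.L) (S : Set B.L) (s' : B.L),
    (B.verts x₀ lX ++ B.verts y₀ lY).Nodup → (∀ q, q ∈ B.verts x₀ lX ∨ q ∈ B.verts y₀ lY) →
    (∀ s ∈ S, B.fin x₀ lX * B.q s = y₀) → B.fin y₀ lY * B.q s' = x₀ →
    (∀ p ∈ m.primeFactors, ∃ s ∈ S, rd p (V.vol x₀ (lX ++ s :: (lY ++ [s']))) ≠ 0) → S.Nonempty → HP V

/-- FAC: a closed walk through all vertices of the extension by `ZMod r` (`r = 1`: of `Q`), the volume is a unit at the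
other primes. -/
def FacS : Prop :=
  ∀ (Q : Type) [Group Q] [Finite Q] (B : Lb.{0, 0} Q) (m r : ℕ) [NeZero m] (V : Vd B (ZMod m)) (hr : r ∣ m)
    (x₀ : Q) (w : List B.L), Squarefree m →
    (es (V.map (ZMod.castHom hr (ZMod r))) (x₀, 0) w).Nodup →
    (∀ y, y ∈ es (V.map (ZMod.castHom hr (ZMod r))) (x₀, 0) w) →
    ef (V.map (ZMod.castHom hr (ZMod r))) (x₀, 0) w = (x₀, 0) →
    (∀ p ∈ m.primeFactors, ¬ p ∣ r → rd p (V.vol x₀ w) ≠ 0) → HP V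

/-- TWO: two closed walks of nonzero volumes. -/
def TwoS : Prop :=
  ∀ (Q : Type) [Group Q] [Finite Q] (B : Lb.{0, 0} Q) (m : ℕ) [NeZero m] (V : Vd B (ZMod m)) (x₀ y₀ : Q)
    (wX wY : List B.L), Squarefree m → Subgroup.closure (Set.range B.q) = ⊤ →
    B.fin x₀ wX = x₀ → B.fin y₀ wY = y₀ → wX ≠ [] → wY ≠ [] →
    (src B x₀ wX ++ src B y₀ wY).Nodup → (∀ q, q ∈ src B x₀ wX ∨ q ∈ src B y₀ wY) →
    (∀ p ∈ m.primeFactors, rd p (V.vol x₀ wX) ≠ 0 ∧ rd p (V.vol y₀ wY) ≠ 0) → HP V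

/-- T2: the central walk. `w` = `b₁ b₂ b₃ l` is a closed walk from `p₀` through all vertices, `p₁ a = p₃`, `p₂ a = p₀`. -/
def T2S : Prop :=
  ∀ (Q : Type) [Group Q] [Finite Q] (B : Lb.{0, 0} Q) (m : ℕ) [NeZero m] (V : Vd B (ZMod m)) (p₀ : Q)
    (b₁ b₂ b₃ : B.L) (l : List B.L) (a : B.L), Squarefree m →
    B.fin p₀ (b₁ :: b₂ :: b₃ :: l) = p₀ → (src B p₀ (b₁ :: b₂ :: b₃ :: l)).Nodup →
    (∀ q, q ∈ src B p₀ (b₁ :: b₂ :: b₃ :: l)) →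
    B.q b₁ * B.q a = B.q b₁ * B.q b₂ * B.q b₃ → B.q b₁ * B.q b₂ * B.q a = 1 →
    (∀ p ∈ m.primeFactors, rd p (V.vol p₀ (b₁ :: b₂ :: b₃ :: l)) ≠ 0 ∨
      (rd p (V.n a) ≠ 0 ∧ (∀ x, rd p (V.chi x) = 1) ∧ rd p (V.n b₁) = 0 ∧ rd p (V.n b₂) = 0 ∧ rd p (V.n b₃) = 0)) →
    HP V

/-- GAU: change of gauge. -/
def GauS : Prop :=
  ∀ (Q : Type) [Group Q] (B : Lb.{0, 0} Q) (R : Type) [CommRing R] (V V' : Vd B R) (t : R), V'.chi = V.chi →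
    (∀ g, V'.n g = V.n g - t * (V.chi (B.q g) - 1)) → HP V' → HP V

/-- LIFT: a Hamiltonian path of the extension gives a listing sequence. -/
def LiftS : Prop :=
  ∀ (G : Type) [Group G] [Finite G] (Q : Type) [Group Q] [Finite Q] (m : ℕ) (π : G →* Q)
    (s : Q →* G) (z : G) (chi : Q →* ZMod m) (ν : G → ZMod m),
    0 < m → (∀ q, π (s q) = q) → π z = 1 → orderOf z = m → (∀ g, π g = 1 → g ∈ Subgroup.zpowers z) →
    (∀ q, s q * z * (s q)⁻¹ = z ^ (chi q).val) → (∀ g, g = z ^ (ν g).val * s (π g)) →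
    ∀ (A : Set G) (B : Lb.{0, 0} Q) (V : Vd B (ZMod m)) (lab : B.L → G), (∀ g, lab g ∈ A) → Nonempty B.L →
      (∀ g, π (lab g) = B.q g) → (∀ g, ν (lab g) = V.n g) → V.chi = chi → HP V → Lst A

/-- AR: the choice of the numbers of copies. -/
def ArS : Prop :=
  ∀ (κ ι : Type) [Fintype κ] [Fintype ι] (p : κ → ℕ) (b : ∀ c, ZMod (p c)) (D : ι → ∀ c, ZMod (p c)),
    (∀ c, (p c).Prime ∧ Fintype.card κ < p c) →
    ∃ j : ι → ℕ, (∀ i, j i ≤ Fintype.card κ) ∧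
      ∀ c, (b c ≠ 0 ∨ ∃ i, D i c ≠ 0) → b c + ∑ i, (j i : ZMod (p c)) * D i c ≠ 0

/-! ### Strips -/

/-- Common hypotheses. -/
structure Hy {Q : Type} [Group Q] {B : Lb.{0, 0} Q} {m : ℕ} (V : Vd B (ZMod m)) (a : B.L) (k c : ℕ) : Prop where
  fin : Finite Q
  m0 : m ≠ 0
  sq : Squarefree m
  k0 : 0 < k
  gen : Subgroup.closure (Set.range B.q) = ⊤
  per : V.chi (B.q a) ^ k = 1
  prm : ∀ p ∈ m.primeFactors, 8 * (m.primeFactors.card + 2) ^ 2 < p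
  big : 1000 * (m.primeFactors.card + 2) ^ 2 * k * (c + 10) ≤ orderOf (B.q a)
  cop : ∀ p ∈ m.primeFactors, ¬ p ∣ orderOf (B.q a)

/-- Class I at `p`. -/
def ClI {Q : Type} [Group Q] {B : Lb.{0, 0} Q} {m : ℕ} (V : Vd B (ZMod m)) (a : B.L) (p : ℕ) : Prop :=
  rd p (V.chi (B.q a)) ≠ 1 ∧ rd p (V.n a) = 0 ∧ ∃ b, rd p (V.n b) ≠ 0

/-- The vertices of a strip of height `L`. -/
def strip {Q : Type} [Group Q] (A y₀ : Q) (L : ℕ) : List Q :=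
  (List.range L).map (fun i => A ^ i) ++ (List.range L).map (fun i => A ^ i * y₀)

/-- A version of a slot of the strip `A ^ i`, `A ^ i y₀` of height `L`. -/
structure Slot {Q : Type} [Group Q] (B : Lb.{0, 0} Q) (A y₀ : Q) (L : ℕ) where
  lx : List B.L
  ly : List B.L
  fx : B.fin 1 lx = A ^ L
  fy : B.fin y₀ ly = A ^ L * y₀
  perm : (src B 1 lx ++ src B y₀ ly).Perm (strip A y₀ L)

/-- SLOT: composition of slots. -/
def SlotS : Prop :=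
  ∀ (Q : Type) [Group Q] (B : Lb.{0, 0} Q) (A y₀ : Q) (L : ℕ) (l : List (Slot B A y₀ L)),
    B.fin 1 (l.flatMap Slot.lx) = A ^ (L * l.length) ∧
    B.fin y₀ (l.flatMap Slot.ly) = A ^ (L * l.length) * y₀ ∧
    (src B 1 (l.flatMap Slot.lx) ++ src B y₀ (l.flatMap Slot.ly)).Perm (strip A y₀ (L * l.length)) ∧
    ∀ (R : Type) [CommRing R] (V : Vd B R), V.chi A ^ L = 1 →
      V.vol 1 (l.flatMap Slot.lx) = (l.map fun s => V.vol 1 s.lx).sum ∧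
      V.vol y₀ (l.flatMap Slot.ly) = (l.map fun s => V.vol y₀ s.ly).sum

/-- WIN: the window with four rungs. `b` has slope `i + δ`, `b'` has slope `i` (`x_l b' = y_(l+i)`), `1 ≤ g ≤ δ - 1`; the
strip goes up by `a` on the `x`-side and by `e` on the `y`-side. -/
def WinS : Prop :=
  ∀ (Q : Type) [Group Q] (B : Lb.{0, 0} Q) (a e b b' : B.L) (y₀ : Q) (i : ℤ) (c δ g L : ℕ),
    (∀ j : ℤ, B.q a ^ j * y₀ * B.q e = B.q a ^ (j + 1) * y₀) → |i| ≤ c →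
    B.q b' = B.q a ^ i * y₀ → B.q b = B.q a ^ (i + δ) * y₀ → 1 ≤ g → g + 1 ≤ δ → 2 * c + δ + 4 ≤ L →
    ∃ s : Slot B (B.q a) y₀ L, ∀ (R : Type) [CommRing R] (V : Vd B R),
      V.vol 1 s.lx = V.vol 1 (List.replicate L a) + V.chi (B.q a) ^ c * (V.n b - V.chi (B.q a) ^ (g + 1) * V.n b'
        + V.vol (B.q a ^ (i + δ) * y₀) (List.replicate (δ - g - 1) (B.inv e)) - V.vol 1 (List.replicate (g + 1) a)) ∧
      V.vol y₀ s.ly = V.vol y₀ (List.replicate L e) + V.chi (B.q a) ^ c * (V.chi (B.q a) * V.n b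
        - V.chi (B.q a) ^ g * V.n b' + V.vol (B.q a ^ g) (List.replicate (g - 1) (B.inv a))
        - V.vol (B.q a ^ (i + g) * y₀) (List.replicate (δ + 1 - g) e))

/-- CR: two crossings at distance `g`; `b` has slope `1` on both sides. -/
def CrS : Prop :=
  ∀ (Q : Type) [Group Q] (B : Lb.{0, 0} Q) (a b : B.L) (y₀ : Q) (g L : ℕ),
    B.q a * y₀ = y₀ * B.q a → y₀ * y₀ = 1 → B.q b = B.q a * y₀ → 1 ≤ g → g + 2 ≤ L →
    ∃ s : Slot B (B.q a) y₀ L, ∀ (R : Type) [CommRing R] (V : Vd B R),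
      V.vol 1 s.lx = V.vol 1 (List.replicate L a) + (V.n b + V.chi y₀ * V.chi (B.q a) ^ g * V.n b
        + V.vol (B.q a * y₀) (List.replicate (g - 1) a) - V.vol 1 (List.replicate (g + 1) a)) ∧
      V.vol y₀ s.ly = V.vol y₀ (List.replicate L a) + (V.chi y₀ * V.n b + V.chi (B.q a) ^ g * V.n b
        + V.vol (B.q a) (List.replicate (g - 1) a) - V.vol y₀ (List.replicate (g + 1) a))

/-- EX: exchange of a straight label on the `x`-side, and on the `y`-side. -/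
def ExS : Prop :=
  ∀ (Q : Type) [Group Q] (B : Lb.{0, 0} Q) (a e a' e' : B.L) (y₀ : Q) (L : ℕ),
    (∀ j : ℤ, B.q a ^ j * y₀ * B.q e = B.q a ^ (j + 1) * y₀) → B.q a' = B.q a → B.q e' = B.q e → 1 ≤ L →
    ∃ s s' : Slot B (B.q a) y₀ L, ∀ (R : Type) [CommRing R] (V : Vd B R),
      V.vol 1 s.lx = V.vol 1 (List.replicate L a) + (V.n a' - V.n a) ∧
      V.vol y₀ s.ly = V.vol y₀ (List.replicate L e) ∧
      V.vol 1 s'.lx = V.vol 1 (List.replicate L a) ∧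
      V.vol y₀ s'.ly = V.vol y₀ (List.replicate L e) + V.chi y₀ * (V.n e' - V.n e)

/-- ASM: families of slots and a tail `tX`, `tY`; closing labels `gX`, `gY`; exits `s` (at the end) and `s₀`
(`q s₀ = y₀`, backwards, at the beginning). The tail begins at the level `L * N`. -/
def AsmS : Prop :=
  ∀ (Q : Type) [Group Q] [Finite Q] (B : Lb.{0, 0} Q) (m : ℕ) (V : Vd B (ZMod m)) (a e s₀ gX gY : B.L) (k c L N : ℕ)
    (ι : Type) [Fintype ι] (s : ι → Slot B (B.q a) (B.q s₀) L) (dX dY : ι → ZMod m) (tX tY : List B.L),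
    Hy V a k c → k ∣ L → 0 < L → N = 2 * m.primeFactors.card * Fintype.card ι →
    (∀ j : ℤ, B.q a ^ j * B.q s₀ * B.q e = B.q a ^ (j + 1) * B.q s₀) →
    (∀ i, V.vol 1 (s i).lx = V.vol 1 (List.replicate L a) + dX i) →
    (∀ i, V.vol (B.q s₀) (s i).ly = V.vol (B.q s₀) (List.replicate L e) + dY i) →
    (strip (B.q a) (B.q s₀) (L * N) ++ (B.verts (B.q a ^ (L * N)) tX ++ B.verts (B.q a ^ (L * N) * B.q s₀) tY)).Nodup →
    (∀ q, q ∈ strip (B.q a) (B.q s₀) (L * N) ++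
      (B.verts (B.q a ^ (L * N)) tX ++ B.verts (B.q a ^ (L * N) * B.q s₀) tY)) →
    B.fin (B.q a ^ (L * N)) (tX ++ [gX]) = 1 → B.fin (B.q a ^ (L * N) * B.q s₀) (tY ++ [gY]) = B.q s₀ →
    B.fin (B.q a ^ (L * N)) tX * B.q s₀ = B.fin (B.q a ^ (L * N) * B.q s₀) tY →
    (∀ p ∈ m.primeFactors,
      ((rd p (V.vol 1 (List.replicate (L * N) a ++ (tX ++ [gX]))) ≠ 0 ∨ ∃ i, rd p (dX i) ≠ 0) ∧
        (rd p (V.vol (B.q s₀) (List.replicate (L * N) e ++ (tY ++ [gY]))) ≠ 0 ∨ ∃ i, rd p (dY i) ≠ 0)) ∨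
      ((∀ i, rd p (dX i) = 0 ∧ rd p (dY i) = 0) ∧ rd p (V.n a) = 0 ∧ rd p (V.n e) = 0 ∧
        rd p (V.vol (B.q a ^ (L * N)) tX) = 0 ∧ rd p (V.vol (B.q a ^ (L * N) * B.q s₀) tY) = 0 ∧
        rd p (V.n gX) = 0 ∧ rd p (V.n gY) = 0 ∧
        ∃ t, B.q t = B.q s₀ ∧
          rd p (V.chi (B.fin (B.q a ^ (L * N)) tX) * V.n t - V.n s₀) ≠ 0)) → HP V

/-! ### The cases -/

/-- R2A: two lines, type A. -/
def R2AS : Prop :=
  ∀ (Q : Type) [Group Q] (B : Lb.{0, 0} Q) (m : ℕ) (V : Vd B (ZMod m)) (a : B.L) (k c : ℕ) (y : Q),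
    Hy V a k c → B.q a * y = y * B.q a → y ∉ zpowers (B.q a) →
    (∀ x, x ∈ zpowers (B.q a) ∨ x * y⁻¹ ∈ zpowers (B.q a)) →
    (∀ b, B.q b = B.q a ∨ B.q b = (B.q a)⁻¹ ∨ ∃ i : ℤ, |i| ≤ c ∧ B.q b = B.q a ^ i * y) →
    (∀ p ∈ m.primeFactors, ClI V a p ∨
      (rd p (V.chi (B.q a)) = 1 ∧ rd p (V.chi y) = -1 ∧ rd p (V.n a) ≠ 0)) → HP V

/-- R2B: two lines, type B. -/
def R2BS : Prop :=
  ∀ (Q : Type) [Group Q] (B : Lb.{0, 0} Q) (m : ℕ) (V : Vd B (ZMod m)) (a : B.L) (k c : ℕ) (y : Q),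
    Hy V a k (2 * c) → y * B.q a * y⁻¹ = (B.q a)⁻¹ → y * y = 1 →
    (∀ x, x ∈ zpowers (B.q a) ∨ x * y⁻¹ ∈ zpowers (B.q a)) →
    (∀ b, B.q b = B.q a ∨ B.q b = (B.q a)⁻¹ ∨ ∃ i : ℤ, |i| ≤ c ∧ B.q b = B.q a ^ i * y) →
    (∀ p ∈ m.primeFactors, ClI V a p ∨
      (rd p (V.chi (B.q a)) = 1 ∧ rd p (V.chi y) = 1 ∧ rd p (V.n a) ≠ 0)) → HP V

/-- R1: one line; all labels are straight or over `τ A ^ i`, `|i| ≤ 1`. -/
def R1S : Prop :=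
  ∀ (Q : Type) [Group Q] (B : Lb.{0, 0} Q) (m : ℕ) (V : Vd B (ZMod m)) (a : B.L) (k c : ℕ) (τ : Q),
    Hy V a k c → (∀ x, x ∈ zpowers (B.q a)) → τ * τ = 1 →
    (∀ b, B.q b = B.q a ∨ B.q b = (B.q a)⁻¹ ∨ ∃ i : ℤ, |i| ≤ 1 ∧ B.q b = B.q a ^ i * τ) →
    (∀ p ∈ m.primeFactors, ClI V a p) → HP V

/-- R2BZ: two lines, type B, two adjacent slopes (zigzag). -/
def R2BZS : Prop :=
  ∀ (Q : Type) [Group Q] (B : Lb.{0, 0} Q) (m : ℕ) (V : Vd B (ZMod m)) (a b₀ b₁ : B.L) (k c : ℕ),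
    Hy V a k c → B.q b₀ * B.q a * (B.q b₀)⁻¹ = (B.q a)⁻¹ → B.q b₀ * B.q b₀ = 1 → B.q b₁ = B.q a * B.q b₀ →
    (∀ x, x ∈ zpowers (B.q a) ∨ x * (B.q b₀)⁻¹ ∈ zpowers (B.q a)) →
    (∀ b, B.q b = B.q a ∨ B.q b = (B.q a)⁻¹ ∨ ∃ i : ℤ, |i| ≤ c ∧ B.q b = B.q a ^ i * B.q b₀) →
    (∀ p ∈ m.primeFactors, ClI V a p ∨
      (rd p (V.chi (B.q a)) = 1 ∧ rd p (V.chi (B.q b₀)) = 1 ∧ rd p (V.n a) ≠ 0)) → HP V

/-- R1A: one line, all labels are straight. -/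
def R1AS : Prop :=
  ∀ (Q : Type) [Group Q] (B : Lb.{0, 0} Q) (m : ℕ) (V : Vd B (ZMod m)) (a : B.L) (k c : ℕ),
    Hy V a k c → (∀ b, B.q b = B.q a ∨ B.q b = (B.q a)⁻¹) → (∀ p ∈ m.primeFactors, ClI V a p) → HP V

/-- R1C: one line, some label has slope `1`. -/
def R1CS : Prop :=
  ∀ (Q : Type) [Group Q] (B : Lb.{0, 0} Q) (m : ℕ) (V : Vd B (ZMod m)) (a b : B.L) (k c : ℕ) (τ : Q),
    Hy V a k c → (∀ x, x ∈ zpowers (B.q a)) → τ * τ = 1 → τ ≠ 1 → B.q b = B.q a * τ →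
    (∀ b, B.q b = B.q a ∨ B.q b = (B.q a)⁻¹ ∨ ∃ i : ℤ, |i| ≤ 1 ∧ B.q b = B.q a ^ i * τ) →
    (∀ p ∈ m.primeFactors, ClI V a p) → HP V

/-- R1D: one line, slope `0` only (Moebius ladder; half-line walk, or the ring string). -/
def R1DS : Prop :=
  ∀ (Q : Type) [Group Q] (B : Lb.{0, 0} Q) (m : ℕ) (V : Vd B (ZMod m)) (a b : B.L) (k c : ℕ) (τ : Q),
    Hy V a k c → (∀ x, x ∈ zpowers (B.q a)) → τ * τ = 1 → τ ≠ 1 → B.q b = τ →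
    (∀ b, B.q b = B.q a ∨ B.q b = (B.q a)⁻¹ ∨ B.q b = τ) →
    (∀ p ∈ m.primeFactors, ClI V a p) → HP V

end Pool.Agent.Lib.MP_688fd0_co.SQ3.Small
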