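import Pool.Agent.Lib.MP_688fd0_co.SQ3.Iface
import Pool.Agent.Lib.MP_688fd0_co.SQ3.Merge2
import Pool.Agent.Lib.MP_688fd0_co.SQ3.Small.Iface

/-!
Board `sqs_modules`, second part: the assembly of the rigid cases and the cases which are not rigid (one window).

`A = q a`, `c₀` = index of `<A>`. Not rigid: (1) `c₀ = 1`; (2) `c₀ = 2`, all outside labels commute with `U` and lead to
one strand, but there is a far label in `<A>`; (3) `c₀ = 2`, `x` has two neighbours on the other line.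
ONE flat window (centre `x`, leaves `s₁`, `s₂`), which contains all versions of all primes.
-/

set_option autoImplicit false

namespace Pool.Agent.Lib.MP_688fd0_co.SQ3.Small

open Pool.Agent.Lib.MP_688fd0_co.OSF Pool.Agent.Lib.MP_688fd0_co.SQ2
open Subgroup (zpowers)

/-! ### Rigid -/

section

variable {Q : Type} [Group Q] (B : Lb.{0, 0} Q) (a : B.L) (eps : Q →* ℤˣ)

/-- The label `b` commutes with `U`. -/
def Cm (b : B.L) : Prop := (B.q b)⁻¹ * B.q a * B.q b = B.q a ^ ((eps (B.q b) : ℤˣ) : ℤ)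

/-- Rigid, one line: all labels are straight or over `A ^ i τ`, `|i| ≤ 1`, where `τ * τ = 1`. -/
def Rig1 : Prop :=
  ∃ τ : Q, τ * τ = 1 ∧ ∀ b, B.q b = B.q a ∨ B.q b = (B.q a)⁻¹ ∨ ∃ i : ℤ, |i| ≤ 1 ∧ B.q b = B.q a ^ i * τ

/-- Rigid, two lines. -/
def Rig2 (c : ℕ) : Prop :=
  (∀ b, B.q b ∈ zpowers (B.q a) → B.q b = B.q a ∨ B.q b = (B.q a)⁻¹) ∧
  (∀ b, B.q b ∉ zpowers (B.q a) → Cm B a eps b) ∧
  ∀ b b', B.q b ∉ zpowers (B.q a) → B.q b' ∉ zpowers (B.q a) → ∃ i : ℤ, |i| ≤ c ∧ B.q b' = B.q a ^ i * B.q b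

end

/-- Numerical hypotheses of the small cases at the level of the quotient. -/
structure Nm {Q : Type} [Group Q] (B : Lb.{0, 0} Q) (a : B.L) (k c W m : ℕ) : Prop where
  sq : Squarefree m
  odd : Odd m
  prm : ∀ p ∈ m.primeFactors, 4 * k < p ∧ 8 * (m.primeFactors.card + 2) ^ 2 < p ∧ ¬ p ∣ Nat.card Q
  need : needW (Nat.card B.L) (2 * m.primeFactors.card) k c ≤ W
  big : (Nat.card B.L + 2) ^ 20 * k ^ 10 * W ^ 2 < orderOf (B.q a ^ k)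

/-- RIG1: rigid, one line. -/
def Rg1S : Prop :=
  ∀ (Q : Type) [Group Q] (B : Lb.{0, 0} Q) (a : B.L) (eps : Q →* ℤˣ) (D : Subgroup Q) (z : Q) (k : ℕ),
    Hyp B a eps D z k → (zpowers (B.q a)).index = 1 → Rig1 B a → ∀ (c W m : ℕ) (V : Vd B (ZMod m)),
    Nm B a k c W m → V.chi z = 1 →
    (∀ p, ∀ hp : p ∈ m.primeFactors, KapC (V.map (red (Nat.dvd_of_mem_primeFactors hp))) a eps) → HP V

/-- RIG2: rigid, two lines. -/
def Rg2S : Prop :=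
  ∀ (Q : Type) [Group Q] (B : Lb.{0, 0} Q) (a : B.L) (eps : Q →* ℤˣ) (D : Subgroup Q) (z : Q) (k c W : ℕ),
    Hyp B a eps D z k → (zpowers (B.q a)).index = 2 → Rig2 B a eps c → ∀ (m : ℕ) (V : Vd B (ZMod m)),
    Nm B a k c W m → V.chi z = 1 →
    (∀ p, ∀ hp : p ∈ m.primeFactors, KapC (V.map (red (Nat.dvd_of_mem_primeFactors hp))) a eps) → HP V

/-! ### One window: the tour -/

/-- MERGE3: as MERGE (`merge2`), and all labels of the tour have a property `P` if those outside the windows and those of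
the windows have it. -/
def Merge3S : Prop :=
  ∀ (Q : Type) [Group Q] [Fintype Q] [DecidableEq Q] (B : Lb.{0, 0} Q) (U : Up B) (Λ : Type) (ln : Q → Λ)
    (d : Q → Bool) (k : Q → Bool) (ι : Type) [Fintype ι] (X : ι → TW B) (n : ι → ℕ) (xs : ι → Q)
    (rk : ι → ℕ),
    (∀ x, ln (U.U x) = ln x) → (∀ x y, ln x = ln y → ∃ m : ℕ, y = (U.U ^ m) x) →
    Function.Surjective ln → (∀ x, d (U.U x) = d x) → (∀ x, k (U.U x) = k x) →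
    (∀ i, Flat U (X i) (n i) (xs i)) → (∀ i, d (X i).u₀ = !d (X i).u₁ ∧ d (xs i) = !d (X i).u₁) →
    PosU U.U (fun i => (X i).L₀) n (fun i => (X i).u₁) (fun i => (X i).u₀) xs →
    TreeK ln k (fun i => (X i).u₁) (fun i => (X i).u₀) xs rk →
    ∃ T : TourS B Bool, (∀ x, ∃ y, T.cls x = k y) ∧
      (∀ P : B.L → Prop, (∀ b, P b → P (B.inv b)) →
        (∀ x, (∀ i, ∀ y ∈ (X i).L₀, ∀ s < n i, x ≠ (U.U ^ s) y) → P (U.up x)) →
        (∀ i, (∀ b ∈ (X i).cup, P b) ∧ (∀ b ∈ (X i).cap, P b) ∧ ∀ x ∈ (X i).tok₀, ∀ b ∈ (X i).path x, P b) →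
        ∀ x, P (T.lab x)) ∧
      ∀ (R : Type) [CommRing R] (V : Vd B R) (γ : Bool),
        T.vol V γ = bvol V U d k (fun i => (X i).L₀) n γ + ∑ i, wvol V d k γ (X i)

/-- The arcs of the special strands `s i`: arc `i` consists of the `U ^ (n + t) (s i)`, `t < g i`. -/
structure Arcs {Q : Type} [Group Q] {B : Lb.{0, 0} Q} (U : Up B) (n : ℕ) {σ : Type} (s : σ → Q) (nx : Equiv.Perm σ)
    (g : σ → ℕ) (ar : Q → σ) : Prop where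
  n0 : 0 < n
  pos : ∀ i, n < g i
  nxt : ∀ i, (U.U ^ g i) (s i) = s (nx i)
  har : ∀ i, ∀ t < g i, ar ((U.U ^ (n + t)) (s i)) = i
  cov : ∀ y, ∃ t < g (ar y), y = (U.U ^ (n + t)) (s (ar y))
  inj : ∀ i, ∀ t < g i, ∀ t' < g i, (U.U ^ (n + t)) (s i) = (U.U ^ (n + t')) (s i) → t = t'

/-- The levels `L, U L, .., U ^ n L` are disjoint. -/
def LvD {Q : Type} [Group Q] {B : Lb.{0, 0} Q} (U : Up B) (n : ℕ) (L : Finset Q) : Prop :=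
  ∀ x ∈ L, ∀ y ∈ L, ∀ s t : ℕ, s ≤ n → t ≤ n → (U.U ^ s) x = (U.U ^ t) y → x = y ∧ s = t

/-- The sign of a class on an arc. -/
def sgc {σ : Type} (d cl : σ → Bool) (γ : Bool) (i : σ) : ℤ := if cl i = γ then (if d i then 1 else -1) else 0

/-- ONEW: one window whose cup joins `s i₀`, `s i₁` and whose cap joins the tops of the strands `nx⁻¹ i₁`, `nx⁻¹ i₂`; the
token of `s i₂` goes to the top of `nx⁻¹ i₀`, the token of every other special strand `s i` to the top of `nx⁻¹ i`. -/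
def OneWS : Prop :=
  ∀ (Q : Type) [Group Q] [Fintype Q] [DecidableEq Q] (B : Lb.{0, 0} Q) (U : Up B) (σ : Type) [Fintype σ] (s : σ → Q)
    (nx : Equiv.Perm σ) (g : σ → ℕ) (n : ℕ) (ar : Q → σ) (L₀ : Finset Q) (d cl : σ → Bool) (i₀ i₁ i₂ : σ),
    Arcs U n s nx g ar → LvD U n L₀ → (∀ i, s i ∈ L₀) → i₀ ≠ i₁ → i₂ ≠ i₀ → i₂ ≠ i₁ →
    d (nx.symm i₀) = !d (nx.symm i₁) → d (nx.symm i₂) = !d (nx.symm i₁) →
    cl (nx.symm i₀) = cl (nx.symm i₁) → cl (nx.symm i₂) = cl (nx.symm i₁) →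
    (∀ i j, cl i = cl j → i = j ∨ ((i = nx.symm i₀ ∨ i = nx.symm i₁ ∨ i = nx.symm i₂) ∧
      (j = nx.symm i₀ ∨ j = nx.symm i₁ ∨ j = nx.symm i₂))) →
    ∃ bv : ∀ (R : Type) [CommRing R], Vd B R → Bool → R, ∀ X : TW B, X.L₀ = L₀ → X.u₀ = s i₀ → X.u₁ = s i₁ →
      X.L₁ = im (U.U ^ n) L₀ → X.R = U.lev L₀ n → X.w₀ = (U.U ^ n) (s (nx.symm i₁)) →
      X.w₁ = (U.U ^ n) (s (nx.symm i₂)) → X.f (s i₂) = (U.U ^ n) (s (nx.symm i₀)) →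
      (∀ i, i ≠ i₀ → i ≠ i₁ → i ≠ i₂ → X.f (s i) = (U.U ^ n) (s (nx.symm i))) →
      (∀ x ∈ L₀, (∀ i, x ≠ s i) → X.f x = (U.U ^ n) x) →
      ∃ T : TourS B Bool, (∀ x, ∃ i, T.cls x = cl i) ∧ ∀ (R : Type) [CommRing R] (V : Vd B R) (γ : Bool),
        T.vol V γ = bv R V γ + ∑ x ∈ X.tok₀, (sgc d cl γ (ar x) : R) * V.vol x (X.path x) +
          (if cl (nx.symm i₁) = γ then (if d (nx.symm i₀) then 1 else -1) * (V.vol X.u₀ X.cup + V.vol X.w₀ X.cap)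
            else 0)

/-- A tour maker: every flat window of height `n` with the bottom `L₀` and the special strands `u₀`, `u₁` (centre), `xs`
gives a tour; `w` are the weights of the tokens. -/
def TM {Q : Type} [Group Q] [Fintype Q] [DecidableEq Q] {B : Lb.{0, 0} Q} (U : Up B) (L₀ : Finset Q) (u₀ u₁ xs : Q)
    (n : ℕ) (w : Bool → Q → ℤ) (cl : Q → Bool) : Prop :=
  ∃ bv : ∀ (R : Type) [CommRing R], Vd B R → Bool → List B.L → List B.L → R, ∀ X : TW B, Flat U X n xs →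
    X.L₀ = L₀ → X.u₀ = u₀ → X.u₁ = u₁ →
    ∃ T : TourS B Bool, (∀ x, ∃ y, T.cls x = cl y) ∧ ∀ (R : Type) [CommRing R] (V : Vd B R) (γ : Bool),
      (∃ y, cl y = γ) →
      T.vol V γ = bv R V γ X.cup X.cap + ∑ x ∈ X.tok₀, (w γ x : R) * V.vol x (X.path x)

/-- MK1: one line; `xs = U ^ d₁ x`, `u₀ = U ^ d₂ x`, `d₁ < d₂`: one tour. -/
def Mk1S : Prop :=
  ∀ (Q : Type) [Group Q] [Fintype Q] [DecidableEq Q] (B : Lb.{0, 0} Q) (U : Up B) (L₀ : Finset Q) (M n d₁ d₂ : ℕ)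
    (x : Q) (w : Bool → Q → ℤ), 0 < n → LvD U n L₀ → (∀ (v : Q) (t : ℕ), (U.U ^ t) v = v ↔ M ∣ t) →
    (∀ v, ∃ t : ℕ, v = (U.U ^ t) x) → x ∈ L₀ → (U.U ^ d₁) x ∈ L₀ → (U.U ^ d₂) x ∈ L₀ → 0 < d₁ → d₁ < d₂ → d₂ < M →
    (∀ t : ℕ, 0 < t → t ≤ M → (U.U ^ t) x ∈ L₀ →
      w false ((U.U ^ t) x) = if t ≤ d₁ then 1 else if t ≤ d₂ then -1 else 1) →
    TM U L₀ ((U.U ^ d₂) x) x ((U.U ^ d₁) x) n w (fun _ => false)

/-- MK2: two lines; `xs = U ^ d x`, `u₀` is on the other line: one tour. -/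
def Mk2S : Prop :=
  ∀ (Q : Type) [Group Q] [Fintype Q] [DecidableEq Q] (B : Lb.{0, 0} Q) (U : Up B) (L₀ : Finset Q) (M n d : ℕ)
    (x y : Q) (w : Bool → Q → ℤ), 0 < n → LvD U n L₀ → (∀ (v : Q) (t : ℕ), (U.U ^ t) v = v ↔ M ∣ t) →
    (∀ v, (∃ t : ℕ, v = (U.U ^ t) x) ∨ ∃ t : ℕ, v = (U.U ^ t) y) → (∀ t : ℕ, y ≠ (U.U ^ t) x) → x ∈ L₀ →
    (U.U ^ d) x ∈ L₀ → y ∈ L₀ → 0 < d → d < M →
    (∀ t : ℕ, 0 < t → t ≤ M → (U.U ^ t) x ∈ L₀ → w false ((U.U ^ t) x) = if t ≤ d then 1 else -1) →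
    (∀ t : ℕ, (U.U ^ t) y ∈ L₀ → w false ((U.U ^ t) y) = 1) →
    TM U L₀ y x ((U.U ^ d) x) n w (fun _ => false)

/-- MK3: two lines; `u₀ = U ^ d l`, `xs = l` are on the other line; there is another strand `s` on the line of `x`: two
tours. -/
def Mk3S : Prop :=
  ∀ (Q : Type) [Group Q] [Fintype Q] [DecidableEq Q] (B : Lb.{0, 0} Q) (U : Up B) (L₀ : Finset Q) (M n d e : ℕ)
    (x l : Q) (w : Bool → Q → ℤ) (cl : Q → Bool), 0 < n → LvD U n L₀ →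
    (∀ (v : Q) (t : ℕ), (U.U ^ t) v = v ↔ M ∣ t) →
    (∀ v, (∃ t : ℕ, v = (U.U ^ t) x) ∨ ∃ t : ℕ, v = (U.U ^ t) l) → (∀ t : ℕ, l ≠ (U.U ^ t) x) → x ∈ L₀ →
    (U.U ^ e) x ∈ L₀ → 0 < e → e < M → l ∈ L₀ → (U.U ^ d) l ∈ L₀ → 0 < d → d < M →
    (∀ t : ℕ, (U.U ^ t) x ∈ L₀ → w false ((U.U ^ t) x) = 1 ∧ w true ((U.U ^ t) x) = 0) →
    (∀ t : ℕ, 0 < t → t ≤ M → (U.U ^ t) l ∈ L₀ →
      w false ((U.U ^ t) l) = (if t ≤ d then -1 else 0) ∧ w true ((U.U ^ t) l) = if t ≤ d then 0 else 1) →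
    (∃ y, cl y = true) → (∃ y, cl y = false) →
    TM U L₀ ((U.U ^ d) l) x l n w cl

/-- HN: versions for all conditions, one above the other. `Λ` bounds the heights. -/
def HnS : Prop :=
  ∀ (Q : Type) [Group Q] [Fintype Q] [DecidableEq Q] (B : Lb.{0, 0} Q) (a : B.L) (eps : Q →* ℤˣ) (D : Subgroup Q)
    (z : Q) (k : ℕ) (H : Hyp B a eps D z k) (m : ℕ) (V : Vd B (ZMod m)), Odd m → V.chi z = 1 →
    (∀ p ∈ m.primeFactors, 2 * m.primeFactors.card < p) →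
    ∀ (L₀ : Finset Q) (u₀ u₁ xs : Q) (Λ : ℕ) (w : Bool → Q → ℤ) (cl : Q → Bool),
    (∀ n : ℕ, 0 < n → k ∣ n → n ≤ ((2 * m.primeFactors.card) ^ 2 + 1) * Λ → TM H.up L₀ u₀ u₁ xs n w cl) →
    (∃ (X : TW B) (n : ℕ), n ≤ Λ ∧ k ∣ n ∧ Flat H.up X n xs ∧ X.L₀ = L₀ ∧ X.u₀ = u₀ ∧ X.u₁ = u₁) →
    (∀ p, ∀ hp : p ∈ m.primeFactors, ∀ γ : Bool, (∃ y, cl y = γ) →
      ∃ (X X' : TW B) (n : ℕ), n ≤ Λ ∧ k ∣ n ∧ X.L₀ = L₀ ∧ X.u₀ = u₀ ∧ X.u₁ = u₁ ∧ Ver H.up X X' n xs ∧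
        dvolw (V.map (red (Nat.dvd_of_mem_primeFactors hp))) (fun y => ((w γ y : ℤ) : ZMod p)) X X' ≠ 0) →
    ∃ T : TourS B Bool, ∀ γ : Bool, (∃ x, T.cls x = γ) → IsUnit (T.vol V γ)

end Pool.Agent.Lib.MP_688fd0_co.SQ3.Small
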