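import Pool.Agent.Lib.MP_688fd0_co.SQ3.Small.SCtx
import Pool.Agent.Lib.MP_688fd0_co.SQ3.Small.IfaceN

/-!
Board `sqs_modules`, third part: the contexts and the flips of the cases which are not rigid, and the final assembly.
-/

set_option autoImplicit false

namespace Pool.Agent.Lib.MP_688fd0_co.SQ3.Small

open Pool.Agent.Lib.MP_688fd0_co.OSF Pool.Agent.Lib.MP_688fd0_co.SQ2
open Subgroup (zpowers)
open V (Puz)

/-- The label `b` commutes with `U`. -/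
abbrev Com {Q : Type} [Group Q] {B : Lb.{0, 0} Q} (U : Up B) (b : B.L) : Prop := ∀ x, U.U (x * B.q b) = U.U x * B.q b

/-- There is a rung (an edge of the label `b` at the level `m`) from the strand `s` to the strand `s'`. -/
def Rng {Q : Type} [Group Q] {B : Lb.{0, 0} Q} (U : Up B) (c : ℕ) (s s' : Q) : Prop :=
  ∃ (m : ℤ) (b : B.L) (o : ℤ), |o| ≤ 2 * c ∧ (U.U ^ m) s * B.q b = (U.U ^ (m + o)) s'

/-! ### The cases -/

/-- Case 1 (one line): `s₂ = U ^ d₁ x`, `s₁ = U ^ d₂ x`. -/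
structure Pos1 {Q : Type} [Group Q] (B : Lb.{0, 0} Q) (a : B.L) (U : Up B) (x s₁ s₂ : Q) (d₁ d₂ : ℕ) : Prop where
  com : ∀ b : B.L, Com U b
  p₁ : 0 < d₁
  p₂ : d₁ < d₂
  p₃ : d₂ < orderOf (B.q a)
  h₂ : (U.U ^ d₁) x = s₂
  h₁ : (U.U ^ d₂) x = s₁

/-- Case 2 (two lines, all labels commute with `U`): `s₂ = U ^ d x`, and `s₁` is on the other line. -/
structure Pos2 {Q : Type} [Group Q] (B : Lb.{0, 0} Q) (a : B.L) (U : Up B) (x s₁ s₂ : Q) (b₂ : B.L) (d : ℕ) : Prop where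
  com : ∀ b : B.L, Com U b
  l₁ : x⁻¹ * s₁ ∉ zpowers (B.q a)
  hb₂ : B.q b₂ ∈ zpowers (B.q a)
  n₁ : B.q b₂ ≠ B.q a
  n₂ : B.q b₂ ≠ (B.q a)⁻¹
  p₁ : 0 < d
  p₂ : d < orderOf (B.q a)
  h₂ : (U.U ^ d) x = s₂

/-- Case 3 (two lines, `x` has two neighbours on the other line): `s₁ = U ^ d s₂`, no neighbour of `x` is strictly
inside this arc; `u` is another strand on the line of `x` and a neighbour of `s₂`. -/
structure Pos3 {Q : Type} [Group Q] (B : Lb.{0, 0} Q) (a : B.L) (U : Up B) (c : ℕ) (F : Finset Q) (x s₁ s₂ u : Q)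
    (d : ℕ) : Prop where
  l₂ : x⁻¹ * s₂ ∉ zpowers (B.q a)
  p₁ : 0 < d
  h₁ : (U.U ^ d) s₂ = s₁
  half : 2 * d ≤ orderOf (B.q a)
  nb : ∀ s ∈ F, Rng U c x s → ∀ t : ℕ, 0 < t → t < d → s ≠ (U.U ^ t) s₂
  u_mem : u ∈ F
  u_ne : u ≠ x
  u_line : x⁻¹ * u ∈ zpowers (B.q a)
  u_rng : Rng U c s₂ u

/-- S-CN1. -/
def CN1S : Prop :=
  ∀ (Q : Type) [Group Q] (B : Lb.{0, 0} Q) (a : B.L) (eps : Q →* ℤˣ) (D : Subgroup Q) (z : Q) (k c W : ℕ)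
    (H : Hyp B a eps D z k), Sink B a D W → Sep B a D c W → Lev B a D W →
    lam ((Nat.card B.L + 2) ^ 4 * k) k c ≤ W → (zpowers (B.q a)).index = 1 → Even (Nat.card Q) → Odd (orderOf z) →
    ¬ Rig1 B a →
    ∃ (x s₁ s₂ : Q) (b₁ b₂ : B.L) (F : Finset Q) (d₁ d₂ : ℕ), F.card ≤ (Nat.card B.L + 2) ^ 4 * k ∧
      SCtx B a H.up D k c W x s₁ s₂ b₁ b₂ 0 F ∧ Pos1 B a H.up x s₁ s₂ d₁ d₂

/-- S-CN2. -/
def CN2S : Prop :=
  ∀ (Q : Type) [Group Q] (B : Lb.{0, 0} Q) (a : B.L) (eps : Q →* ℤˣ) (D : Subgroup Q) (z : Q) (k c W : ℕ)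
    (H : Hyp B a eps D z k), Sink B a D W → Sep B a D c W → Lev B a D W →
    lam ((Nat.card B.L + 2) ^ 4 * k) k c ≤ W → (zpowers (B.q a)).index = 2 →
    (∀ b, B.q b ∉ zpowers (B.q a) → Cm B a eps b) →
    (∃ b, B.q b ∈ zpowers (B.q a) ∧ B.q b ≠ B.q a ∧ B.q b ≠ (B.q a)⁻¹) →
    ∃ (x s₁ s₂ : Q) (b₁ b₂ : B.L) (F : Finset Q) (d : ℕ), F.card ≤ (Nat.card B.L + 2) ^ 4 * k ∧
      SCtx B a H.up D k c W x s₁ s₂ b₁ b₂ 0 F ∧ Pos2 B a H.up x s₁ s₂ b₂ d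

/-- S-CN3. -/
def CN3S : Prop :=
  ∀ (Q : Type) [Group Q] (B : Lb.{0, 0} Q) (a : B.L) (eps : Q →* ℤˣ) (D : Subgroup Q) (z : Q) (k c W : ℕ)
    (H : Hyp B a eps D z k), Sink B a D W → Sep B a D c W → Lev B a D W →
    lam ((Nat.card B.L + 2) ^ 4 * k) k c ≤ W → (zpowers (B.q a)).index = 2 →
    ((∃ b, B.q b ∉ zpowers (B.q a) ∧ ¬ Cm B a eps b) ∨
      ((∀ b, B.q b ∉ zpowers (B.q a) → Cm B a eps b) ∧ ∃ b b', B.q b ∉ zpowers (B.q a) ∧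
        B.q b' ∉ zpowers (B.q a) ∧ ∀ i : ℤ, |i| ≤ c → B.q b' ≠ B.q a ^ i * B.q b)) →
    ∃ (x s₁ s₂ u : Q) (b₁ b₂ : B.L) (j : ℕ) (F : Finset Q) (d : ℕ), F.card ≤ (Nat.card B.L + 2) ^ 4 * k ∧
      SCtx B a H.up D k c W x s₁ s₂ b₁ b₂ j F ∧ Pos3 B a H.up c F x s₁ s₂ u d

/-! ### The flips -/

/-- S-FW1: all labels commute with `U`, class I, all weights are not zero. -/
def FW1S : Prop :=
  ∀ (Q : Type) [Group Q] [DecidableEq Q] (B : Lb.{0, 0} Q) (a : B.L) (eps : Q →* ℤˣ) (D : Subgroup Q) (z : Q)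
    (k c W : ℕ) (H : Hyp B a eps D z k) (x s₁ s₂ : Q) (b₁ b₂ : B.L) (j : ℕ) (F : Finset Q)
    (C : SCtx B a H.up D k c W x s₁ s₂ b₁ b₂ j F) (P : PS H C) (p : ℕ), p.Prime → 4 * k < p →
    ∀ V : Vd B (ZMod p), V.chi z = 1 → ∀ w : Q → ZMod p, LW H.up F k w → (∀ s ∈ F, w s ≠ 0) →
    (∀ b : B.L, Com H.up b) → ∀ t : B.L, CaseI H.up V t → CaseI H.up V (B.inv t) → P.Suc V w

/-- S-FW2: case 2, class II. -/
def FW2S : Prop :=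
  ∀ (Q : Type) [Group Q] [DecidableEq Q] (B : Lb.{0, 0} Q) (a : B.L) (eps : Q →* ℤˣ) (D : Subgroup Q) (z : Q)
    (k c W : ℕ) (H : Hyp B a eps D z k) (x s₁ s₂ : Q) (b₁ b₂ : B.L) (j : ℕ) (F : Finset Q)
    (C : SCtx B a H.up D k c W x s₁ s₂ b₁ b₂ j F) (P : PS H C) (d : ℕ), (zpowers (B.q a)).index = 2 →
    Pos2 B a H.up x s₁ s₂ b₂ d → ∀ p : ℕ, p.Prime → 4 * k < p →
    ∀ V : Vd B (ZMod p), V.chi z = 1 → ∀ w : Q → ZMod p, LW H.up F k w → w s₂ = 1 →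
    (∀ s ∈ F, x⁻¹ * s ∉ zpowers (B.q a) → w s = 1) → ∀ t : B.L, CaseII H.up V t → P.Suc V w

/-- The weights of the case 3. -/
structure Wt3 {Q : Type} [Group Q] (B : Lb.{0, 0} Q) (a : B.L) (U : Up B) (k : ℕ) (F : Finset Q) (x s₂ : Q) (d : ℕ)
    {R : Type} [CommRing R] (w : Bool → Q → R) : Prop where
  lw : ∀ γ, LW U F k (w γ)
  w₁ : ∀ s ∈ F, x⁻¹ * s ∈ zpowers (B.q a) → w false s = 1 ∧ w true s = 0
  w₂ : ∀ t : ℕ, 0 < t → t ≤ orderOf (B.q a) → (U.U ^ t) s₂ ∈ F →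
    w false ((U.U ^ t) s₂) = (if t ≤ d then -1 else 0) ∧ w true ((U.U ^ t) s₂) = if t ≤ d then 0 else 1

/-- S-F3A: case 3, class I, a label which commutes with `U`. -/
def F3AS : Prop :=
  ∀ (Q : Type) [Group Q] [DecidableEq Q] (B : Lb.{0, 0} Q) (a : B.L) (eps : Q →* ℤˣ) (D : Subgroup Q) (z : Q)
    (k c W : ℕ) (H : Hyp B a eps D z k) (x s₁ s₂ u : Q) (b₁ b₂ : B.L) (j : ℕ) (F : Finset Q)
    (C : SCtx B a H.up D k c W x s₁ s₂ b₁ b₂ j F) (P : PS H C) (d : ℕ), (zpowers (B.q a)).index = 2 →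
    Pos3 B a H.up c F x s₁ s₂ u d → ∀ p : ℕ, p.Prime → 4 * k < p →
    ∀ V : Vd B (ZMod p), V.chi z = 1 → ∀ w : Bool → Q → ZMod p, Wt3 B a H.up k F x s₂ d w →
    ∀ t : B.L, Com H.up t → CaseI H.up V t → CaseI H.up V (B.inv t) → ∀ γ, P.Suc V (w γ)

/-- S-NC0: a label which does not commute with `U`, local weights, case I, two sheets (first part) or one sheet (second
part): a reachable state with cap in the component. -/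
def NC0S : Prop :=
  (∀ (Q : Type) [Group Q] [DecidableEq Q] (B : Lb.{0, 0} Q) (U : Up B) (P D : Subgroup Q) (z : Q)
    (F : Finset Q) (e : ℕ) (h : FrD U P D z F e) (ι : Type) (G : ι → BGad h.toFrt) (hm : ℕ)
    (f g : Rg ι (Sy h.toFrt)) (l₀ : F) (p : ℕ) (V : Vd B (ZMod p)) (w : Q → ZMod p), LC0 h G hm f g l₀ p V w →
    ∀ (i : ι) (b : B.L) (p₀ p₁ : ℕ) (Γ : Subgroup (Sy h.toFrt)), Γ = Subgroup.closure {h.cj ((G i).x : Q), h.cj ((G i).y : Q)} →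
      GOK h (G i) b p₀ p₁ Γ →
      (∀ k : Sy h.toFrt, k • (G i).x ≠ (G i).y) → (∀ x, U.U (x * B.q b) ≠ U.U x * B.q b) → CaseI U V b →
      ∀ (s : Puz.St F (Rg ι (Sy h.toFrt)) ((bigP G).TokOf f)) (k : Sy h.toFrt), k ∈ Γ →
        (bigP G).WReach ((bigP G).st₁ f) s → s.1 = ⟨i, k⟩ → Function.Injective s.2 →
        (∀ L, (∃ t, s.2 t = L) ↔ ¬ (bigP G).On s.1 L) →
        (∀ S : Set F, (∀ v, v ∈ S ↔ ∃ g ∈ Γ, g • (G i).x = v ∨ g • (G i).y = v) → ∀ [DecidablePred (· ∈ S)],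
          (∑ t : (bigP G).TokOf f, if s.2 t ∈ S then w ((t : F) : Q) else 0) ≠ 0) →
        LRes h G hm f g l₀ p V w) ∧
  (∀ (Q : Type) [Group Q] [DecidableEq Q] (B : Lb.{0, 0} Q) (U : Up B) (P D : Subgroup Q) (z : Q)
    (F : Finset Q) (e : ℕ) (h : FrD U P D z F e) (ι : Type) (G : ι → BGad h.toFrt) (hm : ℕ)
    (f g : Rg ι (Sy h.toFrt)) (l₀ : F) (p : ℕ) (V : Vd B (ZMod p)) (w : Q → ZMod p), LC0 h G hm f g l₀ p V w →
    ∀ (i : ι) (b : B.L) (p₀ p₁ : ℕ) (η : Sy h.toFrt) (Γ : Subgroup (Sy h.toFrt)), Γ = Subgroup.closure {h.cj ((G i).x : Q), η} →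
      GOK h (G i) b p₀ p₁ Γ → η • (G i).x = (G i).y → (∀ x, U.U (x * B.q b) ≠ U.U x * B.q b) → CaseI U V b →
      ∀ (s : Puz.St F (Rg ι (Sy h.toFrt)) ((bigP G).TokOf f)) (k : Sy h.toFrt), k ∈ Γ →
        (bigP G).WReach ((bigP G).st₁ f) s → s.1 = ⟨i, k⟩ → Function.Injective s.2 →
        (∀ L, (∃ t, s.2 t = L) ↔ ¬ (bigP G).On s.1 L) →
        (∀ S : Set F, (∀ v, v ∈ S ↔ ∃ g ∈ Γ, g • (G i).x = v ∨ g • (G i).y = v) → ∀ [DecidablePred (· ∈ S)],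
          (∑ t : (bigP G).TokOf f, if s.2 t ∈ S then w ((t : F) : Q) else 0) ≠ 0) →
        LRes h G hm f g l₀ p V w)

/-- S-F3N: case 3, class I, a label which does not commute with `U`. -/
def F3NS : Prop :=
  ∀ (Q : Type) [Group Q] [DecidableEq Q] (B : Lb.{0, 0} Q) (a : B.L) (eps : Q →* ℤˣ) (D : Subgroup Q) (z : Q)
    (k c W : ℕ) (H : Hyp B a eps D z k) (x s₁ s₂ u : Q) (b₁ b₂ : B.L) (j : ℕ) (F : Finset Q)
    (C : SCtx B a H.up D k c W x s₁ s₂ b₁ b₂ j F) (P : PS H C) (d : ℕ), (zpowers (B.q a)).index = 2 →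
    Pos3 B a H.up c F x s₁ s₂ u d → ∀ p : ℕ, p.Prime → 4 * k < p →
    ∀ V : Vd B (ZMod p), V.chi z = 1 → ∀ w : Bool → Q → ZMod p, Wt3 B a H.up k F x s₂ d w →
    ∀ t : B.L, ¬ Com H.up t → CaseI H.up V t → ∀ γ, P.Suc V (w γ)

/-- S-F3B: case 3, class II. -/
def F3BS : Prop :=
  ∀ (Q : Type) [Group Q] [DecidableEq Q] (B : Lb.{0, 0} Q) (a : B.L) (eps : Q →* ℤˣ) (D : Subgroup Q) (z : Q)
    (k c W : ℕ) (H : Hyp B a eps D z k) (x s₁ s₂ u : Q) (b₁ b₂ : B.L) (j : ℕ) (F : Finset Q)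
    (C : SCtx B a H.up D k c W x s₁ s₂ b₁ b₂ j F) (P : PS H C) (d : ℕ), (zpowers (B.q a)).index = 2 →
    Pos3 B a H.up c F x s₁ s₂ u d → ∀ p : ℕ, p.Prime → 4 * k < p →
    ∀ V : Vd B (ZMod p), V.chi z = 1 → ∀ w : Bool → Q → ZMod p, Wt3 B a H.up k F x s₂ d w →
    ∀ t : B.L, CaseII H.up V t → ∀ γ, P.Suc V (w γ)

/-! ### Assembly -/

open Classical in
/-- The weights on the levels `U ^ t F`, `t < k`. -/
noncomputable def spr {Q : Type} [Group Q] {B : Lb.{0, 0} Q} (U : Up B) (F : Finset Q) (k : ℕ) {R : Type} [Zero R]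
    (w : Q → R) (y : Q) : R :=
  if h : ∃ s ∈ F, ∃ t < k, y = (U.U ^ t) s then w h.choose else 0

/-- S-ASM0: one window, from the flips to the tours. -/
def Asm0S : Prop :=
  ∀ (Q : Type) [Group Q] [Fintype Q] [DecidableEq Q] (B : Lb.{0, 0} Q) (a : B.L) (eps : Q →* ℤˣ) (D : Subgroup Q)
    (z : Q) (k c W : ℕ) (H : Hyp B a eps D z k) (x s₁ s₂ : Q) (b₁ b₂ : B.L) (j : ℕ) (F : Finset Q)
    (C : SCtx B a H.up D k c W x s₁ s₂ b₁ b₂ j F) (P : PS H C) (m : ℕ) (V : Vd B (ZMod m)),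
    F.card ≤ (Nat.card B.L + 2) ^ 4 * k → Nm B a k c W m → V.chi z = 1 →
    (∀ p, ∀ hp : p ∈ m.primeFactors, KapC (V.map (red (Nat.dvd_of_mem_primeFactors hp))) a eps) →
    ∀ (w : Bool → Q → ℤ) (cl : Q → Bool),
    (∀ n t : ℕ, 0 < n → n + k ≤ W → t < k →
      TM H.up (im (H.up.U ^ t) F) ((H.up.U ^ t) s₁) ((H.up.U ^ t) x) ((H.up.U ^ t) s₂) n
        (fun γ => spr H.up F k (w γ)) cl) →
    (∀ p ∈ m.primeFactors, ∀ (V : Vd B (ZMod p)), V.chi z = 1 → ∀ γ : Bool, (∃ y, cl y = γ) →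
      ((∃ t : B.L, CaseI H.up V t ∧ CaseI H.up V (B.inv t)) ∨
        (∃ t : B.L, V.chi (B.q a) = 1 ∧ V.chi (B.q t) ≠ (((eps (B.q t) : ℤˣ) : ℤ) : ZMod p) ∧ CaseII H.up V t)) →
      P.Suc V (fun y => ((spr H.up F k (w γ) y : ℤ) : ZMod p))) →
    ∃ T : TourS B Bool, ∀ γ : Bool, (∃ x, T.cls x = γ) → IsUnit (T.vol V γ)

/-- S-SQ: the small cases at the level of the quotient. -/
def SqS : Prop :=
  ∀ (Q : Type) [Group Q] [Fintype Q] [DecidableEq Q] (B : Lb.{0, 0} Q) (a : B.L) (eps : Q →* ℤˣ) (D : Subgroup Q)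
    (z : Q) (k c W : ℕ), Hyp B a eps D z k → (zpowers (B.q a)).index ≤ 2 → Even (Nat.card Q) → Odd (orderOf z) →
    Sink B a D W → Sep B a D c W → Lev B a D W → ∀ (m : ℕ) (V : Vd B (ZMod m)), Nm B a k c W m → V.chi z = 1 →
    (∀ p, ∀ hp : p ∈ m.primeFactors, KapC (V.map (red (Nat.dvd_of_mem_primeFactors hp))) a eps) →
    HP V ∨ ∃ T : TourS B Bool, ∀ γ : Bool, (∃ x, T.cls x = γ) → IsUnit (T.vol V γ)

end Pool.Agent.Lib.MP_688fd0_co.SQ3.Small
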