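import Pool.Agent.Lib.MP_688fd0_co.SQ3.Small.IfaceS
import Pool.Agent.Lib.MP_688fd0_co.SQ3.V.NC1

/-!
S-NC0: labels which do not commute with `U`, local weights, case I.
-/

set_option autoImplicit false

namespace Pool.Agent.Lib.MP_688fd0_co.SQ3.Small

open Pool.Agent.Lib.MP_688fd0_co.OSF Pool.Agent.Lib.MP_688fd0_co.SQ2
open V (Puz)
open SQ2.V.Puz (St)

section

variable {Q : Type} [Group Q] [DecidableEq Q] {B : Lb.{0, 0} Q} {U : Up B} {P D : Subgroup Q} {z : Q} {F : Finset Q}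
  {e : ℕ}

/-- From a reachable state with cap in the component to the conclusion. -/
theorem ncore0 (h : FrD U P D z F e) {ι : Type} (G : ι → BGad h.toFrt) (hm : ℕ)
    (f g : Rg ι (Sy h.toFrt)) (l₀ : F) (p : ℕ) (V : Vd B (ZMod p)) (w : Q → ZMod p) (lc : LC0 h G hm f g l₀ p V w)
    (i : ι) (b : B.L) (p₀ p₁ : ℕ) (Γ : Subgroup (Sy h.toFrt)) (gok : GOK h (G i) b p₀ p₁ Γ)
    {Sb Rb : Type} [Fintype Sb] [DecidableEq Sb] [Fintype Rb] (Pb : Puz Sb Rb) (E : SQ2.V.Sub (bigP G) Pb)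
    (hi : ∀ r, ∃ k ∈ Γ, E.iR r = ⟨i, k⟩)
    (hS : ∀ s : F, (∃ k ∈ Γ, k • (G i).x = s ∨ k • (G i).y = s) → s ∈ Set.range E.iS)
    (s : St F (Rg ι (Sy h.toFrt)) ((bigP G).TokOf f)) (r : Rb)
    (hs : (bigP G).WReach ((bigP G).st₁ f) s) (hsr : s.1 = E.iR r) (hinj : Function.Injective s.2)
    (hgood : ∀ L, (∃ t, s.2 t = L) ↔ ¬ (bigP G).On s.1 L)
    (hsum : (∑ t : (bigP G).TokOf f, if s.2 t ∈ Set.range E.iS then w ((t : F) : Q) else 0) ≠ 0)
    (h1 : Pb.Full) (h2 : Pb.TwoN) (h3 : Pb.NoCut) (h4 : Pb.ConnS) (h5 : Fintype.card Sb < p)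
    (h6 : ∃ δ : ℕ, (δ : ZMod p) ≠ 0 ∧ ∀ L, {r | Pb.On r L}.ncard = δ) (hI : CaseI U V b)
    (h9 : ¬ ∃ β : Sb → ZMod p, ∀ r, Xc V (E.iR r).h * (V.chi ((U.U ^ p₀) ((G i).x : Q)) * V.n b) =
      β (Pb.y r) - β (Pb.x r)) :
    LRes h G hm f g l₀ p V w := by
  intro W n₀ hW
  have : Fact p.Prime := ⟨lc.prime⟩
  have : Finite ι := lc.finι
  have : Finite Q := lc.finQ
  have hNe : NeZero e := ⟨h.he.ne'⟩
  have : Fintype (Rg ι (Sy h.toFrt)) := Fintype.ofFinite _
  have hp2 : (2 : ZMod p) ≠ 0 := by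
    intro h0
    have hep := h.he
    have hbig := lc.big
    have h0' : ((2 : ℕ) : ZMod p) = 0 := by exact_mod_cast h0
    have := Nat.le_of_dvd (by norm_num) ((ZMod.natCast_eq_zero_iff 2 p).1 h0')
    omega
  have hsym : ∀ s s' : St F (Rg ι (Sy h.toFrt)) ((bigP G).TokOf f),
      (bigP G).WReach s s' → (bigP G).WReach s' s := SQ2.V.ret _ _ _ (bigP G) (bigHom G)
  have hal : V.chi z ^ e = 1 := by rw [lc.al, one_pow]
  have hflip := nflipA h G f g l₀ p V w lc.adj hp2 i b p₀ p₁ Γ gok hI.up Pb E hi hS s r hs hsr hinj hgood hsum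
    h1 h2 h3 h4 h5 h6 h9
  have hca := big_ca G V hal (fun i => lc.cap i V hI.up hal)
  obtain ⟨X, X', n, k1, k2, k3, k4, k5⟩ := realA0 F (Rg ι (Sy h.toFrt)) (bigP G) Q B U (bigZ G) (z ^ e) (ZMod p) V
    _ _ _ w f g l₀ hm W n₀ h.toFrt.Per (fun r => lc.ht r.i) lc.adj hsym (bigVols G V hal) hI.up hca lc.wlev hW hflip
  refine ⟨X, X', n, k1, k2, k4.trans ?_, k5⟩
  have : (bigZ G).e = e := rfl
  rw [this]
  omega

end

open Classical in
theorem nc0 : NC0S := by
  refine ⟨?_, ?_⟩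
  · intro Q _ _ B U P D z F e h ι G hm f g l₀ p V w lc i b p₀ p₁ Γ hΓ gok hxy hcomm hI s k hk hs hsk hinj hgood hsum
    subst hΓ
    have : Finite Q := lc.finQ
    have : Fact p.Prime := ⟨lc.prime⟩
    have hNe : NeZero e := ⟨h.he.ne'⟩
    have hep : 0 < e := h.he
    have hbig := lc.big
    set x := (G i).x with hx
    set y := (G i).y with hy
    have hDe : Nat.card D ≤ e := Nat.le_of_dvd hep lc.card
    have hDpos : 0 < Nat.card D := Nat.card_pos
    have hal : V.chi z ^ e = 1 := by rw [lc.al, one_pow]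
    obtain ⟨tau, T, hT, E, hER, hES⟩ := comp2 h G i b p₀ p₁ gok hxy
    have hofa : orderOf (gx h x y) = e := by
      rw [gx, Subgroup.orderOf_mk]; exact h.cj_order x
    have hofc : orderOf (gy h x y) = e := by
      rw [gy, Subgroup.orderOf_mk]; exact h.cj_order y
    have hane : gx h x y ∉ Subgroup.zpowers (gy h x y) := by
      intro hmem
      have h1 := (h.stab_sub (Gc2 h x y) y (cy_mem h x y) (gx h x y)).2 hmem
      exact gen_ne h.dat gok.edge hcomm (cj_fix h x y h1)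
    have hG : Subgroup.closure ({gx h x y, gy h x y} : Set (Gc2 h x y)) = ⊤ := by
      have h1 := Subgroup.closure_closure_coe_preimage (k := ({h.cj (x : Q), h.cj (y : Q)} : Set (Sy h.toFrt)))
      have h2 : (Subtype.val ⁻¹' ({h.cj (x : Q), h.cj (y : Q)} : Set (Sy h.toFrt)) : Set (Gc2 h x y)) =
          {gx h x y, gy h x y} := by
        ext z
        constructor
        · rintro (hz | hz)
          · exact Or.inl (Subtype.ext hz)
          · exact Or.inr (Subtype.ext hz)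
        · rintro (hz | hz)
          · exact Or.inl (congrArg Subtype.val hz)
          · exact Or.inr (congrArg Subtype.val hz)
      rw [← h2]
      exact h1
    obtain ⟨hFull, hTwo, hNo, hCo, hdeg⟩ := coset2 (Gc2 h x y) (gx h x y) (gy h x y) tau T hT hane
      (hofa.trans hofc.symm) hG
    have : Fintype (Gc2 h x y) := Fintype.ofFinite _
    have : Fintype (SQ2.V.S2 (gx h x y) (gy h x y)) := Fintype.ofFinite _
    have hcx : Nat.card (Gc2 h x y ⧸ Subgroup.zpowers (gx h x y)) ≤ Nat.card D :=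
      h.card_quot _ x _ fun g hg => (h.stab_sub (Gc2 h x y) x (cx_mem h x y) g).1 hg
    have hcy : Nat.card (Gc2 h x y ⧸ Subgroup.zpowers (gy h x y)) ≤ Nat.card D :=
      h.card_quot _ y _ fun g hg => (h.stab_sub (Gc2 h x y) y (cy_mem h x y) g).1 hg
    have hcS : Fintype.card (SQ2.V.S2 (gx h x y) (gy h x y)) =
        Nat.card (Gc2 h x y ⧸ Subgroup.zpowers (gx h x y)) + Nat.card (Gc2 h x y ⧸ Subgroup.zpowers (gy h x y)) := by
      rw [← Nat.card_eq_fintype_card, Nat.card_sum]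
    have hcSp : Fintype.card (SQ2.V.S2 (gx h x y) (gy h x y)) < p := by omega
    have heF : ((e : ℕ) : ZMod p) ≠ 0 := by
      rw [Ne, ZMod.natCast_eq_zero_iff]
      intro h0
      have := Nat.le_of_dvd hep h0
      omega
    have hrng : ∀ v, v ∈ Set.range E.iS ↔ ∃ g ∈ Gc2 h x y, g • x = v ∨ g • y = v := fun v => by
      rw [hES]; exact iS2_range h x y v
    refine ncore0 h G hm f g l₀ p V w lc i b p₀ p₁ (Gc2 h x y) gok (SQ2.V.puz2 (gx h x y) (gy h x y) tau T hT) E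
      (fun r => ⟨r, r.2, hER r⟩) (fun s hs => (hrng s).2 hs) s ⟨k, hk⟩ hs (by rw [hER]; exact hsk) hinj hgood
      (hsum (Set.range E.iS) hrng) hFull hTwo hNo hCo hcSp ⟨e, heF, fun L => by rw [hdeg, hofa]⟩ hI ?_
    rintro ⟨β, hβ⟩
    have hcne0 : V.chi ((U.U ^ p₀) (x : Q)) ≠ 0 := by
      intro h0
      have h1 : V.chi ((U.U ^ p₀) (x : Q)) * V.chi ((U.U ^ p₀) (x : Q))⁻¹ = 1 := by
        rw [← map_mul, mul_inv_cancel, map_one]
      rw [h0, zero_mul] at h1
      exact zero_ne_one h1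
    have h1 := notExact2 (Gc2 h x y) (ZMod p) (gx h x y) (gy h x y) ((Xh V hal x).comp (Gc2 h x y).subtype)
      (V.chi ((U.U ^ p₀) (x : Q)) * V.n b) (fun q => β (Sum.inl q)) (fun q => β (Sum.inr q)) (fun r => by
        have h2 := hβ r
        rw [hER] at h2
        exact h2) (Nat.card D) (by
        apply Subtype.ext
        show ((h.cj (x : Q) * h.cj (y : Q))⁻¹ * (h.cj (y : Q) * h.cj (x : Q))) ^ Nat.card D = 1
        apply lv0_pow
        rw [lv_mul, lv_inv, lv_mul, lv_mul, h.cj_lv, h.cj_lv, neg_add_cancel])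
    have hDF : ((Nat.card D : ℕ) : ZMod p) ≠ 0 := by
      rw [Ne, ZMod.natCast_eq_zero_iff]
      intro h0
      have := Nat.le_of_dvd hDpos h0
      omega
    have h3 : ((Xh V hal x).comp (Gc2 h x y).subtype) (gx h x y) = V.chi (B.q (U.up (x : Q))) :=
      Xc_cj_self V h hal x
    have h4 : ((Xh V hal x).comp (Gc2 h x y).subtype) (gy h x y) = V.chi (B.q (U.up (y : Q))) :=
      Xc_cj_self V h hal y
    rw [h3, h4] at h1
    rcases mul_eq_zero.1 h1 with h5 | h5
    · rcases mul_eq_zero.1 h5 with h6 | h6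
      · rcases mul_eq_zero.1 h6 with h7 | h7
        · exact hDF h7
        · exact (mul_ne_zero hcne0 hI.nb) h7
      · exact hI.al _ (sub_eq_zero.1 h6)
    · exact hI.al _ (sub_eq_zero.1 h5)
  · intro Q _ _ B U P D z F e h ι G hm f g l₀ p V w lc i b p₀ p₁ η Γ hΓ gok hη hcomm hI s k hk hs hsk hinj hgood hsum
    have : Finite Q := lc.finQ
    have : Fact p.Prime := ⟨lc.prime⟩
    have hNe : NeZero e := ⟨h.he.ne'⟩
    have hep : 0 < e := h.he
    have hbig := lc.big
    set x := (G i).x with hx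
    set y := (G i).y with hy
    have hDe : Nat.card D ≤ e := Nat.le_of_dvd hep lc.card
    have hDpos : 0 < Nat.card D := Nat.card_pos
    have hal : V.chi z ^ e = 1 := by rw [lc.al, one_pow]
    have hc1 : h.cj (x : Q) ∈ Γ := by rw [hΓ]; exact Subgroup.subset_closure (Or.inl rfl)
    have hc2 : η ∈ Γ := by rw [hΓ]; exact Subgroup.subset_closure (Or.inr rfl)
    obtain ⟨a', ha'⟩ : ∃ a' : Γ, (a' : Sy h.toFrt) = h.cj (x : Q) := ⟨⟨_, hc1⟩, rfl⟩
    obtain ⟨b', hb'⟩ : ∃ b' : Γ, (b' : Sy h.toFrt) = η := ⟨⟨_, hc2⟩, rfl⟩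
    obtain ⟨hb, tau, T, hT, E, hiR, hiS⟩ := exists_sub1 (G := G) (i := i) (Γ := Γ) (a' := a') (b' := b') ha'
      (by rw [hb']; exact hη) gok.out gok.del
    have hord : orderOf a' = e := by
      rw [← Subgroup.orderOf_coe, ha']
      exact h.cj_order x
    have hna : b'⁻¹ * a' * b' ∉ Subgroup.zpowers a' := by
      intro hmem
      rw [mem_zp (h := h)] at hmem
      have e1 : ((b'⁻¹ * a' * b' : Γ) : Sy h.toFrt) = η⁻¹ * h.cj (x : Q) * η := by
        rw [← ha', ← hb']; rfl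
      rw [e1, ha'] at hmem
      have h1 := (h.stab x _).2 hmem
      rw [mul_smul, mul_smul, hη, inv_smul_eq_iff, hη] at h1
      exact gen_ne h.dat gok.edge hcomm (cj_fix h x y h1)
    have htop : Subgroup.closure ({a', b'} : Set Γ) = ⊤ := by
      rw [eq_top_iff]
      rintro ⟨γ, hγ⟩ -
      have hγ' := hγ
      rw [hΓ] at hγ'
      have key : ∀ γ' (h1 : γ' ∈ Subgroup.closure {h.cj (x : Q), η}) (h2 : γ' ∈ Γ),
          (⟨γ', h2⟩ : Γ) ∈ Subgroup.closure ({a', b'} : Set Γ) := by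
        intro γ' h1
        induction h1 using Subgroup.closure_induction with
        | mem γ hγ =>
          intro h2
          refine Subgroup.subset_closure ?_
          rcases hγ with hγ | hγ
          · exact Or.inl (Subtype.ext (hγ.trans ha'.symm))
          · exact Or.inr (Subtype.ext ((show γ = η from hγ).trans hb'.symm))
        | one => intro h2; exact Subgroup.one_mem _
        | mul γ γ' hg hg' ih ih' =>
          intro h2
          exact Subgroup.mul_mem _ (ih (by rw [hΓ]; exact hg)) (ih' (by rw [hΓ]; exact hg'))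
        | inv γ hg ih => intro h2; exact Subgroup.inv_mem _ (ih (by rw [hΓ]; exact hg))
      exact key γ hγ' hγ
    obtain ⟨hFull, hTwo, hNo, hCo, hdeg⟩ := coset1 Γ a' b' hb tau T hT hna htop
    have : Fintype Γ := Fintype.ofFinite _
    have : Fintype (SQ2.V.S1 a') := Fintype.ofFinite _
    have hcard : Fintype.card (SQ2.V.S1 a') ≤ e := by
      rw [← Nat.card_eq_fintype_card]
      refine le_trans (h.card_quot Γ x (Subgroup.zpowers a') fun g hg => ?_) hDe
      rw [mem_zp (h := h), ha']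
      exact (h.stab x g).1 hg
    have hpe : ((2 * orderOf a' : ℕ) : ZMod p) ≠ 0 := by
      rw [hord, Ne, ZMod.natCast_eq_zero_iff]
      intro h0
      have := Nat.le_of_dvd (by omega) h0
      omega
    have hiSb : ∀ r : Γ, E.iS ((r * b' : Γ) : Γ ⧸ Subgroup.zpowers a') = (r : Sy h.toFrt) • y := by
      intro r
      rw [hiS]
      show ((r : Sy h.toFrt) * (b' : Sy h.toFrt)) • x = _
      rw [mul_smul, hb', hη]
    have hrange : ∀ s, s ∈ Set.range E.iS ↔ ∃ g ∈ Γ, g • x = s ∨ g • y = s := by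
      intro s
      constructor
      · rintro ⟨q, rfl⟩
        obtain ⟨r, rfl⟩ := QuotientGroup.mk_surjective q
        exact ⟨r, r.2, Or.inl (hiS r).symm⟩
      · rintro ⟨k, hk1, hk2 | hk2⟩
        · exact ⟨((⟨k, hk1⟩ : Γ) : Γ ⧸ Subgroup.zpowers a'), (hiS _).trans hk2⟩
        · exact ⟨(((⟨k, hk1⟩ : Γ) * b' : Γ) : Γ ⧸ Subgroup.zpowers a'), (hiSb _).trans hk2⟩
    refine ncore0 h G hm f g l₀ p V w lc i b p₀ p₁ Γ gok (SQ2.V.puz1 a' b' hb tau T hT) E
      (fun r => ⟨r, r.2, hiR r⟩) (fun s hs => (hrange s).2 hs) s ⟨k, hk⟩ hs (by rw [hiR]; exact hsk) hinj hgood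
      (hsum (Set.range E.iS) hrange) hFull hTwo hNo hCo (by omega) ⟨2 * orderOf a', hpe, hdeg⟩ hI ?_
    rintro ⟨β, hβ⟩
    have hcne0 : V.chi ((U.U ^ p₀) (x : Q)) ≠ 0 := by
      intro h0
      have h1 : V.chi ((U.U ^ p₀) (x : Q)) * V.chi ((U.U ^ p₀) (x : Q))⁻¹ = 1 := by
        rw [← map_mul, mul_inv_cancel, map_one]
      rw [h0, zero_mul] at h1
      exact zero_ne_one h1
    have h1 := SQ2.V.not_exact1 (a := a') (b := b') ((Xh V hal x).comp Γ.subtype)
      (V.chi ((U.U ^ p₀) (x : Q)) * V.n b) β (fun r => by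
        have h2 := hβ r
        rw [hiR r] at h2
        exact h2) (Nat.card D) (by
        apply Subtype.ext
        show ((b' : Sy h.toFrt)⁻¹ * (a' : Sy h.toFrt) * (b' : Sy h.toFrt) * (a' : Sy h.toFrt)⁻¹) ^ Nat.card D = 1
        apply lv0_pow
        rw [lv_mul, lv_mul, lv_mul, lv_inv, lv_inv]
        ring)
    have hDF : ((Nat.card D : ℕ) : ZMod p) ≠ 0 := by
      rw [Ne, ZMod.natCast_eq_zero_iff]
      intro h0
      have := Nat.le_of_dvd hDpos h0
      omega
    have h4 : ((Xh V hal x).comp Γ.subtype) a' = V.chi (B.q (U.up (x : Q))) := by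
      show Xc V (a' : Sy h.toFrt) = _
      rw [ha']
      exact Xc_cj_self V h hal x
    rw [h4] at h1
    rcases mul_eq_zero.1 h1 with h5 | h5
    · rcases mul_eq_zero.1 h5 with h6 | h6
      · exact hDF h6
      · exact mul_ne_zero hcne0 hI.nb h6
    · exact hI.al _ (sub_eq_zero.1 h5)

end Pool.Agent.Lib.MP_688fd0_co.SQ3.Small
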