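import Pool.Agent.Lib.MP_688fd0_co.SQ3.Small.R1A

/-!
R2A: two lines, type A (2A of finding 4109).
-/

set_option autoImplicit false

namespace Pool.Agent.Lib.MP_688fd0_co.SQ3.Small

open Pool.Agent.Lib.MP_688fd0_co.OSF Pool.Agent.Lib.MP_688fd0_co.SQ2
open Subgroup (zpowers)

theorem verts_same {Q : Type} [Group Q] {B : Lb.{0, 0} Q} (a : B.L) (w : List B.L) (h : ∀ g ∈ w, B.q g = B.q a) (x : Q) :
    B.verts x w = (List.range (w.length + 1)).map fun i => x * B.q a ^ i := by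
  rw [verts_eq, src_same a w h, fin_same a w h, List.range_succ, List.map_append]
  rfl

/-- `A ^ i = A ^ j` with small exponents. -/
theorem zpow_small {Q : Type} [Group Q] {A : Q} {i j : ℤ} (h : A ^ i = A ^ j) (hs : |i - j| < orderOf A) : i = j := by
  have h1 : A ^ (i - j) = 1 := by rw [zpow_sub, h, mul_inv_cancel]
  have h2 := orderOf_dvd_iff_zpow_eq_one.2 h1
  have h3 := Int.eq_zero_of_abs_lt_dvd h2 hs
  omega

/-- Two full lines, cut at the level `n`. -/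
theorem perm_lines {Q : Type} [Group Q] (A y : Q) (n M : ℕ) (h : n ≤ M) :
    (strip A y n ++ ((List.range (M - n)).map (fun i => A ^ n * A ^ i) ++
      (List.range (M - n)).map (fun i => A ^ n * y * A ^ i))).Perm
    ((List.range M).map (fun i => A ^ i) ++ ((List.range n).map (fun i => A ^ i * y) ++
      (List.range (M - n)).map (fun i => A ^ n * y * A ^ i))) := by
  unfold strip
  obtain ⟨d, rfl⟩ := Nat.exists_eq_add_of_le h
  have e : n + d - n = d := by omega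
  rw [e, List.range_add, List.map_append, List.map_map]
  have e2 : (List.range d).map ((fun i => A ^ i) ∘ fun x => n + x) = (List.range d).map (fun i => A ^ n * A ^ i) :=
    List.map_congr_left fun i _ => pow_add A n i
  rw [e2, List.append_assoc, List.append_assoc]
  refine List.Perm.append_left _ ?_
  rw [← List.append_assoc, ← List.append_assoc]
  exact List.Perm.append_right _ List.perm_append_comm

/-! ### Setting -/

section

variable {Q : Type} [Group Q] {B : Lb.{0, 0} Q} {m : ℕ} (V : Vd B (ZMod m)) (a : B.L)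

/-- The label `b` has slope `i`, its inverse has slope `i'`. -/
def Out (y : Q) (c : ℕ) (b : B.L) (i i' : ℤ) : Prop :=
  |i| ≤ c ∧ |i'| ≤ c ∧ B.q b = B.q a ^ i * y ∧ (B.q b)⁻¹ = B.q a ^ i' * y

variable {a}

theorem Out.inv {y : Q} {c : ℕ} {b : B.L} {i i' : ℤ} (h : Out a y c b i i') : Out a y c (B.inv b) i' i :=
  ⟨h.2.1, h.1, by rw [B.q_inv]; exact h.2.2.2, by rw [B.q_inv, inv_inv]; exact h.2.2.1⟩

theorem out_eq {y : Q} {c : ℕ} (hc : B.q a * y = y * B.q a) {b : B.L} {i i' : ℤ} (h : Out a y c b i i') :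
    B.q a ^ (i + i') * (y * y) = 1 := by
  have hcz : Commute (B.q a ^ i') y := (show Commute (B.q a) y from hc).zpow_left i'
  have h1 : B.q a ^ i * y * (B.q a ^ i' * y) = 1 := by
    rw [← h.2.2.1, ← h.2.2.2, mul_inv_cancel]
  calc B.q a ^ (i + i') * (y * y) = B.q a ^ i * (B.q a ^ i' * y) * y := by rw [zpow_add]; group
    _ = B.q a ^ i * (y * B.q a ^ i') * y := by rw [hcz.eq]
    _ = B.q a ^ i * y * (B.q a ^ i' * y) := by group
    _ = 1 := h1

theorem out_sum {y : Q} {c : ℕ} (hc : B.q a * y = y * B.q a) (hM : 4 * c < orderOf (B.q a)) {b b' : B.L}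
    {i i' j j' : ℤ} (h : Out a y c b i i') (h' : Out a y c b' j j') : i + i' = j + j' := by
  refine zpow_small (A := B.q a) (mul_right_cancel ((out_eq hc h).trans (out_eq hc h').symm)) ?_
  have h1 := abs_le.1 h.1
  have h2 := abs_le.1 h.2.1
  have h3 := abs_le.1 h'.1
  have h4 := abs_le.1 h'.2.1
  rw [abs_lt]
  constructor <;> omega

end

/-- A slot with its local changes. -/
def SD {Q : Type} [Group Q] {B : Lb.{0, 0} Q} {m : ℕ} (V : Vd B (ZMod m)) (a : B.L) (y₀ : Q) (L : ℕ)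
    (t : Slot B (B.q a) y₀ L × ZMod m × ZMod m) : Prop :=
  V.vol 1 t.1.lx = V.vol 1 (List.replicate L a) + t.2.1 ∧
    V.vol y₀ t.1.ly = V.vol y₀ (List.replicate L a) + t.2.2

section

variable {Q : Type} [Group Q] {B : Lb.{0, 0} Q} {m : ℕ} (V : Vd B (ZMod m)) {a : B.L}

theorem comm_step {y₀ : Q} (hc : B.q a * y₀ = y₀ * B.q a) (j : ℤ) :
    B.q a ^ j * y₀ * B.q a = B.q a ^ (j + 1) * y₀ := by
  rw [zpow_add, zpow_one, mul_assoc, mul_assoc, hc]

/-- The straight slot. -/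
theorem sd_triv (hex : ExS) {y₀ : Q} (hc : B.q a * y₀ = y₀ * B.q a) {L : ℕ} (hL : 1 ≤ L) :
    ∃ s : Slot B (B.q a) y₀ L, SD V a y₀ L (s, 0, 0) := by
  obtain ⟨s, s', h⟩ := hex Q B a a a a y₀ L (comm_step hc) rfl rfl hL
  obtain ⟨h1, h2, -, -⟩ := h (ZMod m) V
  exact ⟨s, by rw [h1, sub_self], by rw [h2, add_zero]⟩

/-- Straight labels. -/
theorem sd_ex (hex : ExS) {y₀ : Q} (hc : B.q a * y₀ = y₀ * B.q a) {L : ℕ} (hL : 1 ≤ L) (g : B.L)
    (hg : B.q g = B.q a) :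
    ∃ s s' : Slot B (B.q a) y₀ L, SD V a y₀ L (s, V.n g - V.n a, 0) ∧
      SD V a y₀ L (s', 0, V.chi y₀ * (V.n g - V.n a)) := by
  obtain ⟨s, s', h⟩ := hex Q B a a g g y₀ L (comm_step hc) hg hg hL
  obtain ⟨h1, h2, h3, h4⟩ := h (ZMod m) V
  exact ⟨s, s', ⟨h1, by rw [h2, add_zero]⟩, by rw [h3, add_zero], h4⟩

theorem rd_n_inv {p : ℕ} (hd : p ∣ m) (b : B.L) :
    rd p (V.n (B.inv b)) = -(rd p (V.chi (B.q b)⁻¹) * rd p (V.n b)) := by
  rw [V.n_inv, rd_neg hd, rd_mul hd]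

theorem rd_n_inv_zero {p : ℕ} (hd : p ∣ m) {b : B.L} (h : rd p (V.n b) = 0) : rd p (V.n (B.inv b)) = 0 := by
  rw [rd_n_inv V hd, h, mul_zero, neg_zero]

theorem sd_win (hwin : WinS) {y₀ : Q} (hc : B.q a * y₀ = y₀ * B.q a) (b b' : B.L) (i : ℤ) (c δ g L : ℕ)
    (hi : |i| ≤ c) (hb' : B.q b' = B.q a ^ i * y₀) (hb : B.q b = B.q a ^ (i + δ) * y₀) (hg : 1 ≤ g) (hg' : g + 1 ≤ δ)
    (hL : 2 * c + δ + 4 ≤ L) :
    ∃ t : Slot B (B.q a) y₀ L × ZMod m × ZMod m, SD V a y₀ L t ∧ ∀ p, p ∣ m → rd p (V.n a) = 0 →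
      rd p t.2.1 = rd p (V.chi (B.q a)) ^ c * (rd p (V.n b) - rd p (V.chi (B.q a)) ^ (g + 1) * rd p (V.n b')) ∧
      rd p t.2.2 = rd p (V.chi (B.q a)) ^ c *
        (rd p (V.chi (B.q a)) * rd p (V.n b) - rd p (V.chi (B.q a)) ^ g * rd p (V.n b')) := by
  obtain ⟨s, h⟩ := hwin Q B a a b b' y₀ i c δ g L (comm_step hc) hi hb' hb hg hg' hL
  obtain ⟨h1, h2⟩ := h (ZMod m) V
  refine ⟨⟨s, _, _⟩, ⟨h1, h2⟩, fun p hd ha => ?_⟩
  have hai := rd_n_inv_zero V hd ha
  constructor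
  · show rd p (V.chi (B.q a) ^ c * (V.n b - V.chi (B.q a) ^ (g + 1) * V.n b'
        + V.vol (B.q a ^ (i + δ) * y₀) (List.replicate (δ - g - 1) (B.inv a)) - V.vol 1 (List.replicate (g + 1) a))) = _
    rw [rd_mul hd, rd_sub hd, rd_add hd, rd_sub hd, rd_mul hd, rd_pow hd, rd_pow hd,
      rd_vol_replicate V hd _ hai, rd_vol_replicate V hd _ ha]
    ring
  · show rd p (V.chi (B.q a) ^ c * (V.chi (B.q a) * V.n b
        - V.chi (B.q a) ^ g * V.n b' + V.vol (B.q a ^ g) (List.replicate (g - 1) (B.inv a))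
        - V.vol (B.q a ^ (i + g) * y₀) (List.replicate (δ + 1 - g) a))) = _
    rw [rd_mul hd, rd_sub hd, rd_add hd, rd_sub hd, rd_mul hd, rd_mul hd, rd_pow hd, rd_pow hd,
      rd_vol_replicate V hd _ hai, rd_vol_replicate V hd _ ha]
    ring

theorem sd_cr (hcr : CrS) {y₀ : Q} (hc : B.q a * y₀ = y₀ * B.q a) (hy : y₀ * y₀ = 1) (b : B.L) (g L : ℕ)
    (hb : B.q b = B.q a * y₀) (hg : 1 ≤ g) (hL : g + 2 ≤ L) :
    ∃ t : Slot B (B.q a) y₀ L × ZMod m × ZMod m, SD V a y₀ L t ∧ ∀ p, p ∣ m → rd p (V.n a) = 0 →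
      rd p t.2.1 = rd p (V.n b) * (1 + rd p (V.chi y₀) * rd p (V.chi (B.q a)) ^ g) ∧
      rd p t.2.2 = rd p (V.n b) * (rd p (V.chi y₀) + rd p (V.chi (B.q a)) ^ g) := by
  obtain ⟨s, h⟩ := hcr Q B a b y₀ g L hc hy hb hg hL
  obtain ⟨h1, h2⟩ := h (ZMod m) V
  refine ⟨⟨s, _, _⟩, ⟨h1, h2⟩, fun p hd ha => ?_⟩
  constructor
  · show rd p (V.n b + V.chi y₀ * V.chi (B.q a) ^ g * V.n b
        + V.vol (B.q a * y₀) (List.replicate (g - 1) a) - V.vol 1 (List.replicate (g + 1) a)) = _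
    rw [rd_sub hd, rd_add hd, rd_add hd, rd_mul hd, rd_mul hd, rd_pow hd,
      rd_vol_replicate V hd _ ha, rd_vol_replicate V hd _ ha]
    ring
  · show rd p (V.chi y₀ * V.n b + V.chi (B.q a) ^ g * V.n b
        + V.vol (B.q a) (List.replicate (g - 1) a) - V.vol y₀ (List.replicate (g + 1) a)) = _
    rw [rd_sub hd, rd_add hd, rd_add hd, rd_mul hd, rd_mul hd, rd_pow hd,
      rd_vol_replicate V hd _ ha, rd_vol_replicate V hd _ ha]
    ring

/-! ### Arithmetic -/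

theorem ar_win {F : Type*} [Field F] {α u n : F} (c : ℕ) (hα : α ≠ 1) (hα0 : α ≠ 0) (hu : u ≠ 0) (hn : n ≠ 0) :
    (α ^ c * (n - α ^ (1 + 1) * (-(u * n))) ≠ 0 ∨ α ^ c * (n - α ^ (2 + 1) * (-(u * n))) ≠ 0) ∧
      (α ^ c * (α * n - α ^ 1 * (-(u * n))) ≠ 0 ∨ α ^ c * (α * n - α ^ 2 * (-(u * n))) ≠ 0) := by
  have hc := pow_ne_zero c hα0
  constructor
  · by_contra h
    push Not at h
    obtain ⟨h1, h2⟩ := h
    have h1 := (mul_eq_zero.1 h1).resolve_left hc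
    have h2 := (mul_eq_zero.1 h2).resolve_left hc
    have h3 : α ^ 2 * u * n * (1 - α) = 0 := by linear_combination h1 - h2
    rcases mul_eq_zero.1 h3 with h4 | h4
    · exact mul_ne_zero (mul_ne_zero (pow_ne_zero 2 hα0) hu) hn h4
    · exact hα (sub_eq_zero.1 h4).symm
  · by_contra h
    push Not at h
    obtain ⟨h1, h2⟩ := h
    have h1 := (mul_eq_zero.1 h1).resolve_left hc
    have h2 := (mul_eq_zero.1 h2).resolve_left hc
    have h3 : α * u * n * (1 - α) = 0 := by linear_combination h1 - h2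
    rcases mul_eq_zero.1 h3 with h4 | h4
    · exact mul_ne_zero (mul_ne_zero hα0 hu) hn h4
    · exact hα (sub_eq_zero.1 h4).symm

theorem ar_cr {F : Type*} [Field F] {α η n : F} (hα : α ≠ 1) (hα0 : α ≠ 0) (hη : η ≠ 0) (hn : n ≠ 0) :
    (n * (1 + η * α ^ 1) ≠ 0 ∨ n * (1 + η * α ^ 2) ≠ 0) ∧ (n * (η + α ^ 1) ≠ 0 ∨ n * (η + α ^ 2) ≠ 0) := by
  constructor
  · by_contra h
    push Not at h
    obtain ⟨h1, h2⟩ := h
    have h3 : n * η * α * (1 - α) = 0 := by linear_combination h1 - h2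
    rcases mul_eq_zero.1 h3 with h4 | h4
    · exact mul_ne_zero (mul_ne_zero hn hη) hα0 h4
    · exact hα (sub_eq_zero.1 h4).symm
  · by_contra h
    push Not at h
    obtain ⟨h1, h2⟩ := h
    have h3 : n * α * (1 - α) = 0 := by linear_combination h1 - h2
    rcases mul_eq_zero.1 h3 with h4 | h4
    · exact mul_ne_zero hn hα0 h4
    · exact hα (sub_eq_zero.1 h4).symm

end

/-! ### The two slots of a prime -/

section

variable {Q : Type} [Group Q] {B : Lb.{0, 0} Q} {m : ℕ} (V : Vd B (ZMod m)) (a : B.L)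

/-- All labels that can be used in slots vanish at `p`. -/
def Nil (y : Q) (c J p : ℕ) : Prop :=
  (∀ g, B.q g = B.q a → rd p (V.n g) = 0) ∧
    ∀ b i i', Out a y c b i i' → J < (i - i').natAbs → rd p (V.n b) = 0

variable {a}

theorem two_slots (hex : ExS) (hwin : WinS) (hcr : CrS) {y : Q} {c L : ℕ} (hc : B.q a * y = y * B.q a)
    (hM : 4 * c < orderOf (B.q a)) {b₀ : B.L} {i₀ i₀' : ℤ} (h₀ : Out a y c b₀ i₀ i₀') (hL : 6 * c + 20 ≤ L)
    {p : ℕ} (hp : p ∈ m.primeFactors) (hα : rd p (V.chi (B.q a)) ≠ 1) (ha : rd p (V.n a) = 0)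
    (h : ¬ Nil V a y c (i₀ - i₀').natAbs p) :
    ∃ t₁ t₂ : Slot B (B.q a) (B.q b₀) L × ZMod m × ZMod m, SD V a (B.q b₀) L t₁ ∧ SD V a (B.q b₀) L t₂ ∧
      (rd p t₁.2.1 ≠ 0 ∨ rd p t₂.2.1 ≠ 0) ∧ (rd p t₁.2.2 ≠ 0 ∨ rd p t₂.2.2 ≠ 0) ∧
      ∀ p', p' ∣ m → rd p' (V.n a) = 0 → Nil V a y c (i₀ - i₀').natAbs p' →
        rd p' t₁.2.1 = 0 ∧ rd p' t₁.2.2 = 0 ∧ rd p' t₂.2.1 = 0 ∧ rd p' t₂.2.2 = 0 := by
  have hd := Nat.dvd_of_mem_primeFactors hp
  have : Fact p.Prime := ⟨Nat.prime_of_mem_primeFactors hp⟩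
  have hc₀ : B.q a * B.q b₀ = B.q b₀ * B.q a := by
    rw [h₀.2.2.1]
    have h1 : Commute (B.q a) (B.q a ^ i₀ * y) := (Commute.refl (B.q a)).zpow_right i₀ |>.mul_right hc
    exact h1.eq
  by_cases h1 : ∃ g, B.q g = B.q a ∧ rd p (V.n g) ≠ 0
  · obtain ⟨g, hg, hn⟩ := h1
    obtain ⟨s, s', e1, e2⟩ := sd_ex V hex hc₀ (by omega : 1 ≤ L) g hg
    have hne : rd p (V.n g - V.n a) ≠ 0 := by
      rw [rd_sub hd, ha, sub_zero]; exact hn
    refine ⟨_, _, e1, e2, Or.inl hne, Or.inr ?_, fun p' hd' ha' hN => ?_⟩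
    · show rd p (V.chi (B.q b₀) * (V.n g - V.n a)) ≠ 0
      rw [rd_mul hd]
      exact mul_ne_zero (rd_chi_ne V hp _) hne
    · have h2 : rd p' (V.n g - V.n a) = 0 := by
        rw [rd_sub hd', ha', sub_zero]; exact hN.1 g hg
      refine ⟨h2, rd_zero hd', rd_zero hd', ?_⟩
      show rd p' (V.chi (B.q b₀) * (V.n g - V.n a)) = 0
      rw [rd_mul hd', h2, mul_zero]
  have h2 : ∃ b i i', Out a y c b i i' ∧ (i₀ - i₀').natAbs < (i - i').natAbs ∧ i' < i ∧ rd p (V.n b) ≠ 0 := by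
    by_contra h2
    push Not at h1 h2
    refine h ⟨h1, fun b i i' ho hJ => ?_⟩
    rcases lt_trichotomy i' i with h3 | h3 | h3
    · exact h2 b i i' ho hJ h3
    · rw [h3, sub_self] at hJ; exact absurd hJ (Nat.not_lt_zero _)
    · by_contra h4
      refine rd_inv_ne V hp b h4 (h2 _ _ _ ho.inv ?_ h3)
      rw [show (i' - i).natAbs = (i - i').natAbs by rw [← Int.natAbs_neg]; congr 1; ring]
      exact hJ
  obtain ⟨b, i, i', ho, hJ, hlt, hn⟩ := h2
  have hsum := out_sum hc hM ho h₀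
  have hbA : ∀ j : ℤ, B.q a ^ j * y = B.q a ^ (j - i₀) * B.q b₀ := by
    intro j
    rw [h₀.2.2.1, ← mul_assoc, ← zpow_add, sub_add_cancel]
  have hN : ∀ p', p' ∣ m → Nil V a y c (i₀ - i₀').natAbs p' → rd p' (V.n b) = 0 := fun p' _ hN =>
    hN.2 b i i' ho hJ
  have hα0 : rd p (V.chi (B.q a)) ≠ 0 := rd_chi_ne V hp _
  by_cases hδ : i - i' ≤ 2
  · -- crossings
    have e1 : i = i₀ + 1 := by omega
    have e2 : i₀ = i₀' := by omega
    have hyy : B.q b₀ * B.q b₀ = 1 := by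
      have h3 : (B.q b₀)⁻¹ = B.q b₀ := by rw [h₀.2.2.2, ← e2, ← h₀.2.2.1]
      nth_rewrite 1 [← h3]
      exact inv_mul_cancel _
    have hb : B.q b = B.q a * B.q b₀ := by
      rw [ho.2.2.1, hbA, e1, add_sub_cancel_left, zpow_one]
    obtain ⟨t₁, s1, f1⟩ := sd_cr V hcr hc₀ hyy b 1 L hb le_rfl (by omega)
    obtain ⟨t₂, s2, f2⟩ := sd_cr V hcr hc₀ hyy b 2 L hb (by omega) (by omega)
    have hz := ar_cr (α := rd p (V.chi (B.q a))) (η := rd p (V.chi (B.q b₀))) (n := rd p (V.n b)) hα hα0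
      (rd_chi_ne V hp _) hn
    refine ⟨t₁, t₂, s1, s2, ?_, ?_, fun p' hd' ha' hN' => ?_⟩
    · rw [(f1 p hd ha).1, (f2 p hd ha).1]; exact hz.1
    · rw [(f1 p hd ha).2, (f2 p hd ha).2]; exact hz.2
    · rw [(f1 p' hd' ha').1, (f2 p' hd' ha').1, (f1 p' hd' ha').2, (f2 p' hd' ha').2, hN p' hd' hN']
      simp
  · -- windows
    push Not at hδ
    obtain ⟨δ, hδe⟩ := Int.eq_ofNat_of_zero_le (show 0 ≤ i - i' by omega)
    have hb' : B.q (B.inv b) = B.q a ^ (i' - i₀) * B.q b₀ := by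
      rw [B.q_inv, ho.2.2.2, hbA]
    have hb : B.q b = B.q a ^ (i' - i₀ + δ) * B.q b₀ := by
      rw [ho.2.2.1, hbA]
      congr 2
      omega
    have a1 := abs_le.1 ho.1
    have a2 := abs_le.1 ho.2.1
    have a3 := abs_le.1 h₀.1
    have hi : |i' - i₀| ≤ ((2 * c : ℕ) : ℤ) := by
      rw [abs_le]; push_cast; constructor <;> omega
    obtain ⟨t₁, s1, f1⟩ := sd_win V hwin hc₀ b (B.inv b) (i' - i₀) (2 * c) δ 1 L hi hb' hb le_rfl (by omega) (by omega)
    obtain ⟨t₂, s2, f2⟩ := sd_win V hwin hc₀ b (B.inv b) (i' - i₀) (2 * c) δ 2 L hi hb' hb (by omega) (by omega)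
      (by omega)
    have hz := ar_win (α := rd p (V.chi (B.q a))) (u := rd p (V.chi (B.q b)⁻¹)) (n := rd p (V.n b)) (2 * c) hα hα0
      (rd_chi_ne V hp _) hn
    refine ⟨t₁, t₂, s1, s2, ?_, ?_, fun p' hd' ha' hN' => ?_⟩
    · rw [(f1 p hd ha).1, (f2 p hd ha).1, rd_n_inv V hd]; exact hz.1
    · rw [(f1 p hd ha).2, (f2 p hd ha).2, rd_n_inv V hd]; exact hz.2
    · rw [(f1 p' hd' ha').1, (f2 p' hd' ha').1, (f1 p' hd' ha').2, (f2 p' hd' ha').2, rd_n_inv V hd', hN p' hd' hN']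
      simp

end

theorem rd_vol_one {Q : Type} [Group Q] {B : Lb.{0, 0} Q} {m : ℕ} (V : Vd B (ZMod m)) {p : ℕ} (hd : p ∣ m) (a : B.L)
    (h : rd p (V.chi (B.q a)) = 1) (x : Q) (l : ℕ) :
    rd p (V.vol x (List.replicate l a)) = l * (rd p (V.chi x) * rd p (V.n a)) := by
  induction l generalizing x with
  | zero =>
    rw [Nat.cast_zero, zero_mul]
    exact rd_zero hd
  | succ l ih =>
    rw [List.replicate_succ, Vd.vol, rd_add hd, rd_mul hd, ih, map_mul, rd_mul hd, h]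
    push_cast
    ring

theorem r2a_num (w k c M : ℕ) (hk : 0 < k) (h : 1000 * (w + 2) ^ 2 * k * (c + 10) ≤ M) :
    k * (6 * c + 20) * (2 * w * (w * 2)) + 1 ≤ M ∧ 4 * c < M := by
  have h1 : w * w ≤ (w + 2) ^ 2 := by nlinarith
  have h2 : 1 ≤ (w + 2) ^ 2 * k := Nat.mul_pos (by positivity) hk
  have e1 : k * (6 * c + 20) * (2 * w * (w * 2)) = (w * w) * (k * (24 * c + 80)) := by ring
  have h3 : (w * w) * (k * (24 * c + 80)) ≤ (w + 2) ^ 2 * (k * (24 * c + 80)) := Nat.mul_le_mul_right _ h1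
  have h4 : (w + 2) ^ 2 * k * (24 * c + 81) ≤ (w + 2) ^ 2 * k * (1000 * (c + 10)) :=
    Nat.mul_le_mul_left _ (by omega)
  have e2 : (w + 2) ^ 2 * k * (24 * c + 81) = (w + 2) ^ 2 * (k * (24 * c + 80)) + (w + 2) ^ 2 * k := by ring
  have e3 : (w + 2) ^ 2 * k * (1000 * (c + 10)) = 1000 * (w + 2) ^ 2 * k * (c + 10) := by ring
  have h5 : 1 * (1000 * (c + 10)) ≤ (w + 2) ^ 2 * k * (1000 * (c + 10)) := Nat.mul_le_mul_right _ h2
  constructor
  · omega
  · omega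

theorem r2a_core (hasm : AsmS) (hwin : WinS) (hcr : CrS) (hex : ExS) (Q : Type) [Group Q] (B : Lb.{0, 0} Q) (m : ℕ)
    (V : Vd B (ZMod m)) (a : B.L) (k c : ℕ) (y : Q) (hy : Hy V a k c)
    (cop : ∀ p ∈ m.primeFactors, ¬ p ∣ orderOf (B.q a)) (hc : B.q a * y = y * B.q a)
    (hyn : y ∉ zpowers (B.q a)) (hxy : ∀ x, x ∈ zpowers (B.q a) ∨ x * y⁻¹ ∈ zpowers (B.q a))
    (hlab : ∀ b, B.q b = B.q a ∨ B.q b = (B.q a)⁻¹ ∨ ∃ i : ℤ, |i| ≤ c ∧ B.q b = B.q a ^ i * y)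
    (hp : ∀ p ∈ m.primeFactors, ClI V a p ∨
      (rd p (V.chi (B.q a)) = 1 ∧ rd p (V.chi y) = -1 ∧ rd p (V.n a) ≠ 0)) : HP V := by
  classical
  have := hy.fin
  set M := orderOf (B.q a) with hMdef
  obtain ⟨hLN, hM4⟩ := r2a_num _ k c M hy.k0 hy.big
  -- labels
  have hout : ∀ b, (B.q b = B.q a ∨ B.q b = (B.q a)⁻¹) ∨ ∃ i i', Out a y c b i i' := by
    intro b
    rcases hlab b with h | h | ⟨i, hi, h⟩
    · exact Or.inl (Or.inl h)
    · exact Or.inl (Or.inr h)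
    · have hyb : y = (B.q a ^ i)⁻¹ * B.q b := by rw [h, inv_mul_cancel_left]
      have hai : B.q a ^ i ∈ zpowers (B.q a) := Subgroup.zpow_mem _ (Subgroup.mem_zpowers _) _
      rcases hlab (B.inv b) with h' | h' | ⟨i', hi', h'⟩
      · exfalso; apply hyn
        rw [B.q_inv, inv_eq_iff_eq_inv] at h'
        rw [hyb, h']
        exact Subgroup.mul_mem _ (Subgroup.inv_mem _ hai) (Subgroup.inv_mem _ (Subgroup.mem_zpowers _))
      · exfalso; apply hyn
        rw [B.q_inv, inv_inj] at h'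
        rw [hyb, h']
        exact Subgroup.mul_mem _ (Subgroup.inv_mem _ hai) (Subgroup.mem_zpowers _)
      · exact Or.inr ⟨i, i', hi, hi', h, by rw [← B.q_inv]; exact h'⟩
  have hexo : ∃ n, ∃ b i i', Out a y c b i i' ∧ (i - i').natAbs = n := by
    by_contra hcon
    push Not at hcon
    apply hyn
    have h1 : (⊤ : Subgroup Q) ≤ zpowers (B.q a) := by
      rw [← hy.gen, Subgroup.closure_le]
      rintro _ ⟨b, rfl⟩
      rcases hout b with (h | h) | ⟨i, i', h⟩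
      · show B.q b ∈ zpowers (B.q a)
        rw [h]; exact Subgroup.mem_zpowers _
      · show B.q b ∈ zpowers (B.q a)
        rw [h]; exact Subgroup.inv_mem _ (Subgroup.mem_zpowers _)
      · exact absurd rfl (hcon _ b i i' h)
    exact h1 (Subgroup.mem_top y)
  obtain ⟨b₀, i₀, i₀', h₀, hJ⟩ := Nat.find_spec hexo
  have hmin : ∀ b i i', Out a y c b i i' → (i₀ - i₀').natAbs ≤ (i - i').natAbs := fun b i i' h => by
    rw [hJ]; exact Nat.find_min' hexo ⟨b, i, i', h, rfl⟩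
  set J := (i₀ - i₀').natAbs with hJdef
  clear hJ
  set y₀ := B.q b₀ with hy₀
  have hc₀ : B.q a * y₀ = y₀ * B.q a := by
    rw [hy₀, h₀.2.2.1]
    have h1 : Commute (B.q a) (B.q a ^ i₀ * y) := (Commute.refl (B.q a)).zpow_right i₀ |>.mul_right hc
    exact h1.eq
  have hcp : ∀ i : ℕ, y₀ * B.q a ^ i = B.q a ^ i * y₀ := fun i => ((show Commute (B.q a) y₀ from hc₀).pow_left i).eq.symm
  have hy₀n : y₀ ∉ zpowers (B.q a) := by
    intro h; apply hyn
    have e : y = (B.q a ^ i₀)⁻¹ * y₀ := by rw [hy₀, h₀.2.2.1, inv_mul_cancel_left]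
    rw [e]
    exact Subgroup.mul_mem _ (Subgroup.inv_mem _ (Subgroup.zpow_mem _ (Subgroup.mem_zpowers _) _)) h
  have hpow : ∀ x ∈ zpowers (B.q a), ∃ i < M, B.q a ^ i = x := by
    intro x hx
    rw [mem_zpowers_iff_mem_range_orderOf, Finset.mem_image] at hx
    obtain ⟨i, hi, e⟩ := hx
    exact ⟨i, Finset.mem_range.1 hi, e⟩
  have hall : ∀ x, (∃ i < M, B.q a ^ i = x) ∨ ∃ i < M, B.q a ^ i * y₀ = x := by
    intro x
    rcases hxy x with h | h
    · exact Or.inl (hpow x h)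
    · right
      have e : x = (x * y⁻¹ * (B.q a ^ i₀)⁻¹) * y₀ := by
        have hcy : Commute (B.q a ^ i₀) y := (show Commute (B.q a) y from hc).zpow_left i₀
        rw [hy₀, h₀.2.2.1]; group
      have h1 : x * y⁻¹ * (B.q a ^ i₀)⁻¹ ∈ zpowers (B.q a) :=
        Subgroup.mul_mem _ h (Subgroup.inv_mem _ (Subgroup.zpow_mem _ (Subgroup.mem_zpowers _) _))
      obtain ⟨i, hi, h2⟩ := hpow _ h1
      exact ⟨i, hi, by rw [h2]; exact e.symm⟩
  -- slots
  set w := m.primeFactors.card with hw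
  set L := k * (6 * c + 20) with hL
  have hL1 : 6 * c + 20 ≤ L := Nat.le_mul_of_pos_left _ hy.k0
  have hsl : ∀ p : m.primeFactors, ∃ t₁ t₂ : Slot B (B.q a) y₀ L × ZMod m × ZMod m,
      (SD V a y₀ L t₁ ∧ SD V a y₀ L t₂) ∧
      ((ClI V a p ∧ ¬ Nil V a y c J p) →
        (rd (p : ℕ) t₁.2.1 ≠ 0 ∨ rd (p : ℕ) t₂.2.1 ≠ 0) ∧ (rd (p : ℕ) t₁.2.2 ≠ 0 ∨ rd (p : ℕ) t₂.2.2 ≠ 0)) ∧
      ∀ p', p' ∣ m → rd p' (V.n a) = 0 → Nil V a y c J p' →
        rd p' t₁.2.1 = 0 ∧ rd p' t₁.2.2 = 0 ∧ rd p' t₂.2.1 = 0 ∧ rd p' t₂.2.2 = 0 := by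
    intro p
    by_cases h : ClI V a p ∧ ¬ Nil V a y c J p
    · obtain ⟨t₁, t₂, s1, s2, n1, n2, hz⟩ := two_slots V hex hwin hcr hc hM4 h₀ hL1 p.2 h.1.1 h.1.2.1 h.2
      exact ⟨t₁, t₂, ⟨s1, s2⟩, fun _ => ⟨n1, n2⟩, hz⟩
    · obtain ⟨s, hs⟩ := sd_triv V hex hc₀ (by omega : 1 ≤ L)
      exact ⟨_, _, ⟨hs, hs⟩, fun h' => absurd h' h, fun p' hd' _ _ =>
        ⟨rd_zero hd', rd_zero hd', rd_zero hd', rd_zero hd'⟩⟩
  choose t₁ t₂ hSD hne hze using hsl
  set t : m.primeFactors × Bool → Slot B (B.q a) y₀ L × ZMod m × ZMod m := fun x => cond x.2 (t₁ x.1) (t₂ x.1)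
    with ht
  have htSD : ∀ x, SD V a y₀ L (t x) := by
    rintro ⟨p, b⟩
    cases b
    · exact (hSD p).2
    · exact (hSD p).1
  have hcard : Fintype.card (m.primeFactors × Bool) = w * 2 := by
    rw [Fintype.card_prod, Fintype.card_coe, Fintype.card_bool]
  set N := 2 * w * Fintype.card (m.primeFactors × Bool) with hN
  have hLNM : L * N + 1 ≤ M := by rw [hN, hcard]; exact hLN
  have hvM : List.replicate (L * N) a ++ (List.replicate (M - 1 - L * N) a ++ [a]) = List.replicate M a := by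
    rw [← List.replicate_one (a := a), List.replicate_append_replicate, List.replicate_append_replicate]
    congr 1; omega
  have hvert : ∀ x, B.verts x (List.replicate (M - 1 - L * N) a) =
      (List.range (M - L * N)).map fun i => x * B.q a ^ i := by
    intro x
    rw [verts_same a _ (fun g hg => by rw [List.eq_of_mem_replicate hg]), List.length_replicate]
    congr 2; omega
  have hperm : (strip (B.q a) y₀ (L * N) ++ (B.verts (B.q a ^ (L * N)) (List.replicate (M - 1 - L * N) a) ++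
      B.verts (B.q a ^ (L * N) * y₀) (List.replicate (M - 1 - L * N) a))).Perm
      ((List.range M).map (fun i => B.q a ^ i) ++ (List.range M).map (fun i => B.q a ^ i * y₀)) := by
    rw [hvert, hvert]
    refine (perm_lines (B.q a) y₀ (L * N) M (by omega)).trans (List.Perm.append_left _ ?_)
    obtain ⟨d, hd⟩ := Nat.exists_eq_add_of_le (show L * N ≤ M by omega)
    rw [hd, show L * N + d - L * N = d by omega, List.range_add, List.map_append, List.map_map]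
    refine List.Perm.append_left _ (List.Perm.of_eq (List.map_congr_left fun i _ => ?_))
    show B.q a ^ (L * N) * y₀ * B.q a ^ i = B.q a ^ (L * N + i) * y₀
    rw [mul_assoc, hcp, pow_add, ← mul_assoc]
  have hfin : ∀ x, B.fin x (List.replicate (M - 1 - L * N) a) = x * B.q a ^ (M - 1 - L * N) := by
    intro x
    rw [fin_same a _ (fun g hg => by rw [List.eq_of_mem_replicate hg]), List.length_replicate]
  have hfin1 : ∀ x, B.fin x (List.replicate (M - 1 - L * N) a ++ [a]) = x * B.q a ^ (M - L * N) := by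
    intro x
    rw [← List.replicate_one (a := a), List.replicate_append_replicate,
      fin_same a _ (fun g hg => by rw [List.eq_of_mem_replicate hg]), List.length_replicate]
    congr 2; omega
  have hAM : B.q a ^ (L * N) * B.q a ^ (M - L * N) = 1 := by
    rw [← pow_add, show L * N + (M - L * N) = M by omega, hMdef, pow_orderOf_eq_one]
  refine hasm Q B m V a a b₀ a a k c L N (m.primeFactors × Bool) (fun x => (t x).1) (fun x => (t x).2.1)
    (fun x => (t x).2.2) (List.replicate (M - 1 - L * N) a) (List.replicate (M - 1 - L * N) a) hy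
    (Dvd.intro _ rfl) (by omega) rfl (comm_step hc₀) (fun x => (htSD x).1) (fun x => (htSD x).2) ?_ ?_ ?_ ?_ ?_ ?_
  · rw [hperm.nodup_iff, List.nodup_append]
    refine ⟨?_, ?_, ?_⟩
    · refine (List.nodup_range).map_on ?_
      intro x hx y' hy' e
      exact pow_injOn_Iio_orderOf (Set.mem_Iio.2 (List.mem_range.1 hx)) (Set.mem_Iio.2 (List.mem_range.1 hy')) e
    · refine (List.nodup_range).map_on ?_
      intro x hx y' hy' e
      exact pow_injOn_Iio_orderOf (Set.mem_Iio.2 (List.mem_range.1 hx)) (Set.mem_Iio.2 (List.mem_range.1 hy'))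
        (mul_right_cancel e)
    · intro x hx y' hy' e
      obtain ⟨i, -, rfl⟩ := List.mem_map.1 hx
      obtain ⟨j, -, rfl⟩ := List.mem_map.1 hy'
      apply hy₀n
      have e2 : y₀ = (B.q a ^ j)⁻¹ * B.q a ^ i := by rw [e, inv_mul_cancel_left]
      rw [e2]
      exact Subgroup.mul_mem _ (Subgroup.inv_mem _ (Subgroup.pow_mem _ (Subgroup.mem_zpowers _) _))
        (Subgroup.pow_mem _ (Subgroup.mem_zpowers _) _)
  · intro x
    rw [hperm.mem_iff, List.mem_append, List.mem_map, List.mem_map]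
    rcases hall x with ⟨i, hi, e⟩ | ⟨i, hi, e⟩
    · exact Or.inl ⟨i, List.mem_range.2 hi, e⟩
    · exact Or.inr ⟨i, List.mem_range.2 hi, e⟩
  · rw [hfin1, hAM]
  · rw [hfin1, mul_assoc, hcp, ← mul_assoc, hAM, one_mul]
  · rw [hfin, hfin, mul_assoc (B.q a ^ (L * N)) y₀, hcp, mul_assoc]
  · intro p hpp
    have hd := Nat.dvd_of_mem_primeFactors hpp
    have : Fact p.Prime := ⟨Nat.prime_of_mem_primeFactors hpp⟩
    rw [hvM]
    rcases hp p hpp with hI | ⟨e1, e2, e3⟩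
    · by_cases hNil : Nil V a y c J p
      · right
        have hz : ∀ x : m.primeFactors × Bool, rd p (t x).2.1 = 0 ∧ rd p (t x).2.2 = 0 := by
          rintro ⟨p', b⟩
          obtain ⟨z1, z2, z3, z4⟩ := hze p' p hd hI.2.1 hNil
          cases b
          · exact ⟨z3, z4⟩
          · exact ⟨z1, z2⟩
        refine ⟨hz, hI.2.1, hI.2.1, rd_vol_replicate V hd _ hI.2.1 _ _, rd_vol_replicate V hd _ hI.2.1 _ _, hI.2.1,
          hI.2.1, ?_⟩
        -- a label over `y₀`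
        have hlb : ∃ g, B.q g = y₀ ∧ rd p (V.n g) ≠ 0 := by
          obtain ⟨-, -, b, hb⟩ := hI
          rcases hout b with (h | h) | ⟨i, i', h⟩
          · exact absurd (hNil.1 b h) hb
          · exact absurd (hNil.1 (B.inv b) (by rw [B.q_inv, h, inv_inv])) (rd_inv_ne V hpp b hb)
          · have h1 : ¬ J < (i - i').natAbs := fun h1 => hb (hNil.2 b i i' h h1)
            have h2 := hmin b i i' h
            have h3 := out_sum hc hM4 h h₀
            have h4 : (i = i₀ ∧ i' = i₀') ∨ (i = i₀' ∧ i' = i₀) := by omega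
            rcases h4 with ⟨rfl, rfl⟩ | ⟨rfl, rfl⟩
            · exact ⟨b, by rw [h.2.2.1, hy₀, h₀.2.2.1], hb⟩
            · exact ⟨B.inv b, by rw [B.q_inv, h.2.2.2, hy₀, h₀.2.2.1], rd_inv_ne V hpp b hb⟩
        obtain ⟨g, hg, hn⟩ := hlb
        by_cases hv : rd p (V.chi (B.fin (B.q a ^ (L * N)) (List.replicate (M - 1 - L * N) a)) * V.n g - V.n b₀) = 0
        · refine ⟨b₀, rfl, ?_⟩
          rw [rd_sub hd, rd_mul hd] at hv ⊢
          set x := rd p (V.chi (B.fin (B.q a ^ (L * N)) (List.replicate (M - 1 - L * N) a))) with hx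
          have hx0 : x ≠ 0 := rd_chi_ne V hpp _
          have hx1 : x * rd p (V.chi (B.q a)) = 1 := by
            rw [hx, ← rd_mul hd, ← map_mul, hfin, mul_assoc, ← pow_succ,
              show M - 1 - L * N + 1 = M - L * N by omega, hAM, map_one, rd_one hd]
          have hn0 : rd p (V.n b₀) ≠ 0 := by
            rw [← sub_eq_zero.1 hv]; exact mul_ne_zero hx0 hn
          intro h5
          have h6 : (x - 1) * rd p (V.n b₀) = 0 := by linear_combination h5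
          rcases mul_eq_zero.1 h6 with h7 | h7
          · rw [sub_eq_zero.1 h7, one_mul] at hx1
            exact hI.1 hx1
          · exact hn0 h7
        · exact ⟨g, hg, hv⟩
      · left
        obtain ⟨n1, n2⟩ := hne ⟨p, hpp⟩ ⟨hI, hNil⟩
        refine ⟨Or.inr ?_, Or.inr ?_⟩
        · rcases n1 with n1 | n1
          · exact ⟨(⟨p, hpp⟩, true), n1⟩
          · exact ⟨(⟨p, hpp⟩, false), n1⟩
        · rcases n2 with n2 | n2
          · exact ⟨(⟨p, hpp⟩, true), n2⟩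
          · exact ⟨(⟨p, hpp⟩, false), n2⟩
    · left
      have hM0 : (M : ZMod p) ≠ 0 := by
        rw [Ne, ZMod.natCast_eq_zero_iff]
        exact cop p hpp
      refine ⟨Or.inl ?_, Or.inl ?_⟩
      · rw [rd_vol_one V hd a e1]
        exact mul_ne_zero hM0 (mul_ne_zero (rd_chi_ne V hpp _) e3)
      · rw [rd_vol_one V hd a e1]
        exact mul_ne_zero hM0 (mul_ne_zero (rd_chi_ne V hpp _) e3)

/-- R2A. -/
theorem r2a (hasm : AsmS) (hwin : WinS) (hcr : CrS) (hex : ExS) : R2AS :=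
  fun Q _ B m V a k c y hy hc hyn hxy hlab hp => r2a_core hasm hwin hcr hex Q B m V a k c y hy hy.cop hc hyn hxy hlab hp

end Pool.Agent.Lib.MP_688fd0_co.SQ3.Small
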