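import Pool.Agent.Lib.MP_688fd0_co.SQ3.V.LC0
import Pool.Agent.Lib.MP_688fd0_co.SQ3.V.FlipCtx

/-!
One window: the context, the gadgets of the path, success for local weights.
-/

set_option autoImplicit false

namespace Pool.Agent.Lib.MP_688fd0_co.SQ3.Small

open Pool.Agent.Lib.MP_688fd0_co.OSF Pool.Agent.Lib.MP_688fd0_co.SQ2
open V (Puz)

/-- The context of one path of length two: centre `x`, leaves `s₁` (over `b₁`) and `s₂` (over `b₂`, at the level `j`). -/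
structure SCtx {Q : Type} [Group Q] (B : Lb.{0, 0} Q) (a : B.L) (U : Up B) (D : Subgroup Q) (k c W : ℕ)
    (x s₁ s₂ : Q) (b₁ b₂ : B.L) (j : ℕ) (F : Finset Q) : Prop where
  sink : Sink B a D W
  sep : Sep B a D c W
  lev : Lev B a D W
  hlam : lam F.card k c ≤ W
  fr : Fr U D W F
  fx : x ∈ F
  fsh : ∀ l : List B.L, l.length ≤ 4 → ∃ o : ℤ, |o| ≤ c ∧ (U.U ^ o) (B.fin x l) ∈ F
  j_lt : j < k
  lv : Leaves U F x b₁ b₂ j c s₁ s₂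
  n₀₁ : s₁ ≠ x
  n₀₂ : s₂ ≠ x
  n₁₂ : s₂ ≠ s₁

section path

variable {Q : Type} [Group Q] [DecidableEq Q] {B : Lb.{0, 0} Q} {U : Up B} {P D : Subgroup Q} {z : Q} {k : ℕ}
  {F : Finset Q} {h : FrD U P D z F k} {x : F} {b₁ b₂ : B.L} {G : Fin 5 → BGad h.toFrt}
  {p₀ p₀' p₁ p₁' hm : ℕ} {o₀ o₁ : ℤ}

theorem pg_adj (W : PG h x b₁ b₂ G p₀ p₀' p₁ p₁' hm o₀ o₁) (j : ℕ)
    (hne : (bigP G).y (rg h x p₁ j) ≠ (bigP G).y (rf h x p₀)) :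
    (bigP G).Adj (rg h x p₁ j) (rf h x p₀) x := by
  refine ⟨Or.inl (W.xg j).symm, Or.inl W.xf.symm, ?_⟩
  rw [W.othf, W.othg]
  exact hne

/-- Windows of the path. -/
theorem pg_real (W : PG h x b₁ b₂ G p₀ p₀' p₁ p₁' hm o₀ o₁) (j : ℕ)
    (hadj : (bigP G).Adj (rg h x p₁ j) (rf h x p₀) x) :
    ∃ (E : TW B) (n : ℕ), EWr (bigZ G) (rf h x p₀) (rg h x p₁ j) x E n ∧
      n ≤ (NW F (Rg (Fin 5) (Sy h.toFrt)) + 2) * (k + hm) := by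
  have := sy_finite h
  have := Fintype.ofFinite (Rg (Fin 5) (Sy h.toFrt))
  have h0 : (bigP G).WReach ((bigP G).stb (rf h x p₀) (rg h x p₁ j) x) ((bigP G).st₁ (rf h x p₀)) :=
    ⟨[(rf h x p₀, x)], ⟨hadj, trivial⟩, Puz.stb_step (bigP G) hadj⟩
  exact real0 F (Rg (Fin 5) (Sy h.toFrt)) (bigP G) Q B U (bigZ G) (z ^ k) (rf h x p₀) (rg h x p₁ j) x hm
    h.toFrt.Per (fun r => (W.ok r.i).ht) hadj (bigRet h G _ _ _ h0)

/-- The conclusion. -/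
theorem pg_conc (W : PG h x b₁ b₂ G p₀ p₀' p₁ p₁' hm o₀ o₁) (j : ℕ)
    (hadj : (bigP G).Adj (rg h x p₁ j) (rf h x p₀) x) {p : ℕ} {w : Q → ZMod p}
    {V : Vd B (ZMod p)} {Λ : ℕ} (hΛ : (4 * NW F (Rg (Fin 5) (Sy h.toFrt)) + 8) * (k + hm) ≤ Λ)
    (hL : LRes h G hm (rf h x p₀) (rg h x p₁ j) x p V w) :
    ∃ (X X' : TW B) (n : ℕ), n ≤ Λ ∧ FWin U k F (tz k p₀) x
      ((bigP G).y (rf h x p₀)) ((bigP G).y (rg h x p₁ j)) X n ∧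
      Ver U X X' n ((U.U ^ tz k p₀) ((bigP G).y (rg h x p₁ j) : Q)) ∧
      dvolw V w X X' ≠ 0 := by
  obtain ⟨E, n₀, h1, h2⟩ := pg_real W j hadj
  obtain ⟨X, X', n, g1, g2, g4, g5⟩ := hL E n₀ h1
  refine ⟨X, X', n, ?_, W.fwin j g2, ?_, g5⟩
  · refine le_trans (g4.trans ?_) hΛ
    calc 2 * n₀ + (2 * NW F (Rg (Fin 5) (Sy h.toFrt)) + 4) * (k + hm)
        ≤ 2 * ((NW F (Rg (Fin 5) (Sy h.toFrt)) + 2) * (k + hm)) +
          (2 * NW F (Rg (Fin 5) (Sy h.toFrt)) + 4) * (k + hm) := by gcongr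
      _ = _ := by ring
  · rw [W.lev_f, W.othg] at g1
    exact g1

end path

section ctx

variable {Q : Type} [Group Q] [DecidableEq Q] {B : Lb.{0, 0} Q} {a : B.L} {eps : Q →* ℤˣ} {D : Subgroup Q} {z : Q}
  {k c W : ℕ} {H : Hyp B a eps D z k} {x s₁ s₂ : Q} {b₁ b₂ : B.L} {j : ℕ} {F : Finset Q}

/-- Gadgets for all labels. -/
theorem anyGad' (g1 : GadN1S.{0}) (g2 : GadN2S.{0}) (gc : CGadS.{0}) (H : Hyp B a eps D z k) {W c : ℕ} {F : Finset Q}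
    (hF : Fr H.up D W F) (hW : hgt F.card c + c ≤ W) (hS : Sink B a D W) (h : FrD H.up eps.ker D z F k) (b : B.L)
    (s₀ s₁ : F) (hne : s₀ ≠ s₁) (o : ℤ) (ho : |o| ≤ c) (hb : (s₀ : Q) * B.q b = (H.up.U ^ o) (s₁ : Q)) :
    ∃ (G : BGad h.toFrt) (p p' : ℕ), G.x = s₀ ∧ AG h G b p p' (hgt F.card c) o ∧
      ((∀ x, H.up.U (x * B.q b) = H.up.U x * B.q b) → COK h G b p p') := by
  have hs₁ : (H.up.U ^ (-o)) ((s₀ : Q) * B.q b) = s₁ := by rw [hb, H.up.zneg]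
  by_cases hcom : ∀ x, H.up.U (x * B.q b) = H.up.U x * B.q b
  · obtain ⟨G, p, p', h1, h2, h3, h4, h5⟩ := gc Q B H.up eps.ker D z F k h b hcom s₀ s₁ o hne hb
    refine ⟨G, p, p', h1, ⟨h5.okg (h3.trans ?_), h4, h5.edge⟩, fun _ => h5⟩
    have h0 : (o.natAbs : ℤ) ≤ c := by rw [Int.natCast_natAbs]; exact ho
    unfold hgt; omega
  · by_cases hD : (s₀ : Q)⁻¹ * (s₁ : Q) ∈ D
    · rw [← hs₁] at hD
      have ho1 := H.small_lev hS (by omega : c ≤ W) b s₀ o ho hD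
      obtain ⟨G, p, p', η, h1, h2, h3, h4, h5, h6⟩ := g1 Q B H.up eps.ker D z F k h c b o ho1 s₀ hD (by
        rw [hs₁]; exact fun h => hne (Subtype.ext h.symm))
      exact ⟨G, p, p', h1, ⟨h6.okg h2, h3, h6.edge⟩, fun h => absurd h hcom⟩
    · rw [← hs₁] at hD
      obtain ⟨G, p, p', h1, h2, h3, h4, h5⟩ := g2 Q B H.up eps.ker D z F k h c W hF.disj (by omega) b s₀ o ho
        (by rw [hs₁]; exact s₁.2) hD
      exact ⟨G, p, p', h1, ⟨h5.okg h2, h3, h5.edge⟩, fun h => absurd h hcom⟩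

/-- The two gadgets of the path. -/
structure PS (H : Hyp B a eps D z k) (C : SCtx B a H.up D k c W x s₁ s₂ b₁ b₂ j F) where
  G₀ : BGad (H.frd C.fr).toFrt
  G₁ : BGad (H.frd C.fr).toFrt
  p₀ : ℕ
  p₀' : ℕ
  p₁ : ℕ
  p₁' : ℕ
  o₀ : ℤ
  o₁ : ℤ
  ho₀ : |o₀| ≤ c
  ho₁ : |o₁| ≤ c
  x₀ : G₀.x = ⟨x, C.fx⟩
  x₁ : G₁.x = ⟨x, C.fx⟩
  g₀ : AG (H.frd C.fr) G₀ b₁ p₀ p₀' (hgt F.card (2 * c + 2 * k)) o₀
  g₁ : AG (H.frd C.fr) G₁ b₂ p₁ p₁' (hgt F.card (2 * c + 2 * k)) o₁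
  co₀ : (∀ x, H.up.U (x * B.q b₁) = H.up.U x * B.q b₁) → COK (H.frd C.fr) G₀ b₁ p₀ p₀'
  co₁ : (∀ x, H.up.U (x * B.q b₂) = H.up.U x * B.q b₂) → COK (H.frd C.fr) G₁ b₂ p₁ p₁'

omit [DecidableEq Q] in
theorem hgtW (C : SCtx B a H.up D k c W x s₁ s₂ b₁ b₂ j F) :
    hgt F.card (2 * c + 2 * k) + (2 * c + 2 * k) ≤ W := (hgt_le _ _ _).trans C.hlam

omit [DecidableEq Q] in
theorem cW' (C : SCtx B a H.up D k c W x s₁ s₂ b₁ b₂ j F) : 10 * (c : ℤ) + 10 * k ≤ W := by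
  have hW : 10000 * (hgt F.card (c + k) + 4 * k + 4) ≤ W := (lam_ge _ _ _).trans C.hlam
  have hW2 : 10 * c + 10 * k ≤ W := by unfold hgt at hW; omega
  exact_mod_cast hW2

theorem exists_PS (g1 : GadN1S.{0}) (g2 : GadN2S.{0}) (gc : CGadS.{0})
    (C : SCtx B a H.up D k c W x s₁ s₂ b₁ b₂ j F) : Nonempty (PS H C) := by
  have hW := hgtW C
  have hcW := cW' C
  obtain ⟨o₀, h1, h2⟩ := C.fsh [b₁] (by simp)
  obtain ⟨o₁, h3, h4⟩ := C.fsh [b₂] (by simp)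
  have e1 : B.fin x [b₁] = x * B.q b₁ := rfl
  have e2 : B.fin x [b₂] = x * B.q b₂ := rfl
  rw [e1] at h2
  rw [e2] at h4
  have hb₁ : x * B.q b₁ = (H.up.U ^ (-o₀)) ((H.up.U ^ o₀) (x * B.q b₁)) := by rw [H.up.zneg]
  have hb₂ : x * B.q b₂ = (H.up.U ^ (-o₁)) ((H.up.U ^ o₁) (x * B.q b₂)) := by rw [H.up.zneg]
  have hj : (j : ℤ) < k := by exact_mod_cast C.j_lt
  have hne₁ : (⟨x, C.fx⟩ : F) ≠ ⟨_, h2⟩ := by
    intro h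
    have h5 : x = (H.up.U ^ o₀) (x * B.q b₁) := congrArg Subtype.val h
    obtain ⟨o, ho, h6⟩ := C.lv.e₁
    refine C.n₀₁ ((C.fr.eq C.fx C.lv.h₁ (u := -o₀) (v := o) ?_ ?_).2).symm
    · rw [← h6, ← H.up.zneg o₀ (x * B.q b₁), ← h5]
    · have := abs_le.1 h1
      have := abs_le.1 ho
      exact abs_le.2 ⟨by omega, by omega⟩
  have hne₂ : (⟨x, C.fx⟩ : F) ≠ ⟨_, h4⟩ := by
    intro h
    have h5 : x = (H.up.U ^ o₁) (x * B.q b₂) := congrArg Subtype.val h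
    obtain ⟨o, ho, h6⟩ := C.lv.e₂
    have h7 := line_loop (b := B.q b₂) (m := 0) (m' := (j : ℤ)) (o := -o₁) (s := x) H (by
      rw [H.up.zero, zero_add]
      conv_rhs => rw [h5]
      rw [H.up.zneg])
    rw [zpow_natCast, h6] at h7
    refine C.n₀₂ (C.fr.eq C.lv.h₂ C.fx h7 ?_).2
    have := abs_le.1 h3
    have := abs_le.1 ho
    exact abs_le.2 ⟨by omega, by omega⟩
  obtain ⟨G₀, p₀, p₀', a1, a2, a5⟩ := anyGad' g1 g2 gc H C.fr (c := 2 * c + 2 * k) hW C.sink (H.frd C.fr)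
    b₁ ⟨x, C.fx⟩ ⟨_, h2⟩ hne₁ (-o₀) (by rw [abs_neg]; push_cast; omega) hb₁
  obtain ⟨G₁, p₁, p₁', a3, a4, a6⟩ := anyGad' g1 g2 gc H C.fr (c := 2 * c + 2 * k) hW C.sink (H.frd C.fr)
    b₂ ⟨x, C.fx⟩ ⟨_, h4⟩ hne₂ (-o₁) (by rw [abs_neg]; push_cast; omega) hb₂
  exact ⟨⟨G₀, G₁, p₀, p₀', p₁, p₁', -o₀, -o₁, by rw [abs_neg]; exact h1, by rw [abs_neg]; exact h3, a1, a3, a2,
    a4, a5, a6⟩⟩

variable {C : SCtx B a H.up D k c W x s₁ s₂ b₁ b₂ j F}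

/-- The gadgets of a path and three other ones. -/
def fam0 (P : PS H C) (G₂ G₃ G₄ : BGad (H.frd C.fr).toFrt) : Fin 5 → BGad (H.frd C.fr).toFrt :=
  ![P.G₀, P.G₁, G₂, G₃, G₄]

theorem PS.pg (P : PS H C)
    {G₂ G₃ G₄ : BGad (H.frd C.fr).toFrt} (h₂ : OKG (H.frd C.fr) (hgt F.card (2 * c + 2 * k)) G₂)
    (h₃ : OKG (H.frd C.fr) (hgt F.card (2 * c + 2 * k)) G₃)
    (h₄ : OKG (H.frd C.fr) (hgt F.card (2 * c + 2 * k)) G₄) :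
    PG (H.frd C.fr) ⟨x, C.fx⟩ b₁ b₂ (fam0 P G₂ G₃ G₄) P.p₀ P.p₀' P.p₁ P.p₁'
      (hgt F.card (2 * c + 2 * k)) P.o₀ P.o₁ where
  x₀ := P.x₀
  x₁ := P.x₁
  g₀ := P.g₀
  g₁ := P.g₁
  ok := by
    intro n
    fin_cases n
    · exact P.g₀.toOKG
    · exact P.g₁.toOKG
    · exact h₂
    · exact h₃
    · exact h₄

/-- The centre. -/
def PS.l₀ (_ : PS H C) : F := ⟨x, C.fx⟩

/-- The first leaf. -/
def PS.l₁ (_ : PS H C) : F := ⟨s₁, C.lv.h₁⟩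

/-- The second leaf. -/
def PS.l₂ (_ : PS H C) : F := ⟨s₂, C.lv.h₂⟩

/-- The cup rung. -/
noncomputable def PS.f (P : PS H C) : Rg (Fin 5) (Sy (H.frd C.fr).toFrt) :=
  rf (H.frd C.fr) ⟨x, C.fx⟩ P.p₀

/-- The cap rung. -/
noncomputable def PS.g (P : PS H C) : Rg (Fin 5) (Sy (H.frd C.fr).toFrt) :=
  rg (H.frd C.fr) ⟨x, C.fx⟩ P.p₁ j

theorem PS.ok₀ (P : PS H C) : OKG (H.frd C.fr) (hgt F.card (2 * c + 2 * k)) P.G₀ := P.g₀.toOKG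

theorem PS.pg₀ (P : PS H C) :
    PG (H.frd C.fr) ⟨x, C.fx⟩ b₁ b₂ (fam0 P P.G₀ P.G₀ P.G₀) P.p₀ P.p₀' P.p₁ P.p₁'
      (hgt F.card (2 * c + 2 * k)) P.o₀ P.o₁ := P.pg P.ok₀ P.ok₀ P.ok₀

theorem PS.n₀₁ (P : PS H C) : P.l₁ ≠ P.l₀ := fun h => C.n₀₁ (congrArg Subtype.val h)

theorem PS.n₀₂ (P : PS H C) : P.l₂ ≠ P.l₀ := fun h => C.n₀₂ (congrArg Subtype.val h)

theorem PS.n₁₂ (P : PS H C) : P.l₂ ≠ P.l₁ := fun h => C.n₁₂ (congrArg Subtype.val h)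

section fam

variable (P : PS H C) (G₂ G₃ G₄ : BGad (H.frd C.fr).toFrt)

theorem PS.xf : (bigP (fam0 P G₂ G₃ G₄)).x P.f = P.l₀ := P.pg₀.xf

theorem PS.xg : (bigP (fam0 P G₂ G₃ G₄)).x P.g = P.l₀ := P.pg₀.xg j

theorem PS.yf : (bigP (fam0 P G₂ G₃ G₄)).y P.f = P.l₁ := by
  obtain ⟨o, ho, e1⟩ := C.lv.e₁
  have hcW := cW' C
  have a1 := abs_le.1 ho
  have a2 := abs_le.1 P.ho₀
  exact Subtype.ext (P.pg₀.leaf₁ C.fr C.lv.h₁ e1 (abs_le.2 ⟨by omega, by omega⟩)).symm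

theorem PS.yg : (bigP (fam0 P G₂ G₃ G₄)).y P.g = P.l₂ := by
  obtain ⟨o, ho, e1⟩ := C.lv.e₂
  have hcW := cW' C
  have hj : (j : ℤ) < k := by exact_mod_cast C.j_lt
  have a1 := abs_le.1 ho
  have a2 := abs_le.1 P.ho₁
  exact Subtype.ext (P.pg₀.leaf₂ j C.fr C.lv.h₂ e1 (abs_le.2 ⟨by omega, by omega⟩)).symm

theorem PS.othf : (bigP (fam0 P G₂ G₃ G₄)).oth P.f P.l₀ = P.l₁ := P.pg₀.othf.trans (P.yf _ _ _)

theorem PS.othg : (bigP (fam0 P G₂ G₃ G₄)).oth P.g P.l₀ = P.l₂ := (P.pg₀.othg j).trans (P.yg _ _ _)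

theorem PS.othf₁ : (bigP (fam0 P G₂ G₃ G₄)).oth P.f P.l₁ = P.l₀ := by
  unfold Puz.oth
  rw [if_neg (by rw [P.xf]; exact P.n₀₁)]
  exact P.xf _ _ _

theorem PS.othg₂ : (bigP (fam0 P G₂ G₃ G₄)).oth P.g P.l₂ = P.l₀ := by
  unfold Puz.oth
  rw [if_neg (by rw [P.xg]; exact P.n₀₂)]
  exact P.xg _ _ _

theorem PS.onf : (bigP (fam0 P G₂ G₃ G₄)).On P.f P.l₀ := Or.inl (P.xf G₂ G₃ G₄).symm

theorem PS.onf₁ : (bigP (fam0 P G₂ G₃ G₄)).On P.f P.l₁ := Or.inr (P.yf G₂ G₃ G₄).symm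

theorem PS.ong : (bigP (fam0 P G₂ G₃ G₄)).On P.g P.l₀ := Or.inl (P.xg G₂ G₃ G₄).symm

theorem PS.ong₂ : (bigP (fam0 P G₂ G₃ G₄)).On P.g P.l₂ := Or.inr (P.yg G₂ G₃ G₄).symm

theorem PS.onf_iff (s : F) : (bigP (fam0 P G₂ G₃ G₄)).On P.f s ↔ s = P.l₀ ∨ s = P.l₁ := by
  show s = (bigP (fam0 P G₂ G₃ G₄)).x P.f ∨ s = (bigP (fam0 P G₂ G₃ G₄)).y P.f ↔ _
  rw [P.xf, P.yf]

theorem PS.ong_iff (s : F) : (bigP (fam0 P G₂ G₃ G₄)).On P.g s ↔ s = P.l₀ ∨ s = P.l₂ := by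
  show s = (bigP (fam0 P G₂ G₃ G₄)).x P.g ∨ s = (bigP (fam0 P G₂ G₃ G₄)).y P.g ↔ _
  rw [P.xg, P.yg]

theorem PS.adj : (bigP (fam0 P G₂ G₃ G₄)).Adj P.g P.f P.l₀ :=
  pg_adj (P.pg₀) j (by
    have h1 := P.yf P.G₀ P.G₀ P.G₀
    have h2 := P.yg P.G₀ P.G₀ P.G₀
    intro h
    exact P.n₁₂ ((h2.symm.trans h).trans h1))

/-- The local context. -/
theorem PS.lc {G₂ G₃ G₄ : BGad (H.frd C.fr).toFrt} (P : PS H C)
    (h₂ : OKG (H.frd C.fr) (hgt F.card (2 * c + 2 * k)) G₂)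
    (h₃ : OKG (H.frd C.fr) (hgt F.card (2 * c + 2 * k)) G₃)
    (h₄ : OKG (H.frd C.fr) (hgt F.card (2 * c + 2 * k)) G₄) {p : ℕ} (hp : p.Prime) (hkp : 4 * k < p)
    (V : Vd B (ZMod p)) (hz : V.chi z = 1) {w : Q → ZMod p} (hw : LW H.up F k w) :
    LC0 (H.frd C.fr) (fam0 P G₂ G₃ G₄) (hgt F.card (2 * c + 2 * k)) P.f P.g P.l₀ p V w where
  finQ := H.fin
  finι := inferInstance
  card := H.card
  prime := hp
  big := hkp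
  al := hz
  ht := fun i => ((P.pg h₂ h₃ h₄).ok i).ht
  cap := fun i V' => ((P.pg h₂ h₃ h₄).ok i).cap _ V'
  adj := P.adj G₂ G₃ G₄
  wl := hw

/-- Steps can be undone. -/
theorem PS.ret (s s' : Puz.St F (Rg (Fin 5) (Sy (H.frd C.fr).toFrt)) ((bigP (fam0 P G₂ G₃ G₄)).TokOf P.f)) :
    (bigP (fam0 P G₂ G₃ G₄)).WReach s s' → (bigP (fam0 P G₂ G₃ G₄)).WReach s' s :=
  bigRet (H.frd C.fr) (fam0 P G₂ G₃ G₄) _ s s'

/-- The state `stb` is reachable. -/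
theorem PS.rb : (bigP (fam0 P G₂ G₃ G₄)).WReach ((bigP (fam0 P G₂ G₃ G₄)).st₁ P.f)
    ((bigP (fam0 P G₂ G₃ G₄)).stb P.f P.g P.l₀) :=
  SQ3.V.r1 (P.ret G₂ G₃ G₄) (P.adj G₂ G₃ G₄)

end fam

/-! ### The goal -/

/-- Success for the weight `w`. -/
def PS.Suc (P : PS H C) {p : ℕ} (V : Vd B (ZMod p)) (w : Q → ZMod p) : Prop :=
  ∃ G₂ G₃ G₄ : BGad (H.frd C.fr).toFrt,
    OKG (H.frd C.fr) (hgt F.card (2 * c + 2 * k)) G₂ ∧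
    OKG (H.frd C.fr) (hgt F.card (2 * c + 2 * k)) G₃ ∧
    OKG (H.frd C.fr) (hgt F.card (2 * c + 2 * k)) G₄ ∧
    LRes (H.frd C.fr) (fam0 P G₂ G₃ G₄) (hgt F.card (2 * c + 2 * k)) P.f P.g P.l₀ p V w

theorem PS.Suc.conc {P : PS H C} {p : ℕ} {V : Vd B (ZMod p)} {w : Q → ZMod p} (h : P.Suc V w) :
    ∃ (X X' : TW B) (n : ℕ), n ≤ lam F.card k c ∧ FWin H.up k F (tz k P.p₀) x s₁ s₂ X n ∧
      Ver H.up X X' n ((H.up.U ^ tz k P.p₀) s₂) ∧ dvolw V w X X' ≠ 0 := by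
  obtain ⟨G₂, G₃, G₄, h₂, h₃, h₄, hL⟩ := h
  obtain ⟨X, X', n, g1, g2, g3, g4⟩ := pg_conc (P.pg h₂ h₃ h₄) j (P.adj G₂ G₃ G₄)
    (bnd (H.frd C.fr) ⟨_, C.fx⟩ c) hL
  have e1 : ((bigP (fam0 P G₂ G₃ G₄)).y P.f : Q) = s₁ := congrArg Subtype.val (P.yf G₂ G₃ G₄)
  have e2 : ((bigP (fam0 P G₂ G₃ G₄)).y P.g : Q) = s₂ := congrArg Subtype.val (P.yg G₂ G₃ G₄)
  refine ⟨X, X', n, g1, ?_, ?_, g4⟩
  · have := g2
    unfold PS.f at e1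
    unfold PS.g at e2
    rw [e1, e2] at this
    exact this
  · unfold PS.g at e2
    rw [e2] at g3
    exact g3

/-- There is a window. -/
theorem PS.win (P : PS H C) : ∃ (X : TW B) (n : ℕ), n ≤ lam F.card k c ∧
    FWin H.up k F (tz k P.p₀) x s₁ s₂ X n := by
  obtain ⟨E, n, h1, h2⟩ := pg_real P.pg₀ j (P.adj P.G₀ P.G₀ P.G₀)
  have h3 := bnd (H.frd C.fr) ⟨_, C.fx⟩ c
  refine ⟨E, n, le_trans (h2.trans ?_) h3, ?_⟩
  · exact Nat.mul_le_mul_right _ (by omega)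
  · have e1 : ((bigP (fam0 P P.G₀ P.G₀ P.G₀)).y P.f : Q) = s₁ := congrArg Subtype.val (P.yf _ _ _)
    have e2 : ((bigP (fam0 P P.G₀ P.G₀ P.G₀)).y P.g : Q) = s₂ := congrArg Subtype.val (P.yg _ _ _)
    have := P.pg₀.fwin j h1
    unfold PS.f at e1
    unfold PS.g at e2
    rw [e1, e2] at this
    exact this

/-! ### Strands -/

omit [DecidableEq Q] in
theorem dep_x (C : SCtx B a H.up D k c W x s₁ s₂ b₁ b₂ j F) : Dep H.up D F x c 0 x := by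
  refine ⟨C.fx, [], le_rfl, 0, by simp, ?_⟩
  show x⁻¹ * (H.up.U ^ (0 : ℤ)) x ∈ D
  rw [H.up.zero, inv_mul_cancel]
  exact D.one_mem

omit [DecidableEq Q] in
/-- Neighbours of a strand. -/
theorem dep_next (C : SCtx B a H.up D k c W x s₁ s₂ b₁ b₂ j F) {n : ℕ} {s : Q}
    (hs : Dep H.up D F x c n s) (hn : n + 1 ≤ 4) (b : B.L) (m : ℤ) :
    ∃ s', Dep H.up D F x c (n + 1) s' ∧ ∃ o : ℤ, |o| ≤ 2 * c ∧
      (H.up.U ^ m) s * B.q b = (H.up.U ^ (m + o)) s' := by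
  obtain ⟨-, l, hl, t, ht, hat⟩ := hs
  have hfin : B.fin x (l ++ [b]) = B.fin x l * B.q b := by rw [fin_append]; rfl
  obtain ⟨s', hs', o, t', h1, h2, h3, h4⟩ := H.next C.fr hat (B.q b) (by
    obtain ⟨o, h1, h2⟩ := C.fsh (l ++ [b]) (by simp; omega)
    rw [hfin] at h2
    exact ⟨o, h1, h2⟩) m
  rw [← hfin] at h4
  exact ⟨s', ⟨hs', l ++ [b], by simp; omega, t', h2, h4⟩, o, by omega, h3⟩

omit [DecidableEq Q] in
theorem dep₁ (C : SCtx B a H.up D k c W x s₁ s₂ b₁ b₂ j F) : Dep H.up D F x c 1 s₁ := by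
  obtain ⟨o, ho, e1⟩ := C.lv.e₁
  refine ⟨C.lv.h₁, [b₁], le_rfl, o, ho, ?_⟩
  show (x * B.q b₁)⁻¹ * (H.up.U ^ o) s₁ ∈ D
  rw [← e1, inv_mul_cancel]
  exact D.one_mem

omit [DecidableEq Q] in
theorem dep₂ (C : SCtx B a H.up D k c W x s₁ s₂ b₁ b₂ j F) : Dep H.up D F x c 1 s₂ := by
  have := H.nrm
  have hcW := cW' C
  have hj : (j : ℤ) < k := by exact_mod_cast C.j_lt
  obtain ⟨o, ho, e1⟩ := C.lv.e₂
  obtain ⟨s', h1, o', h2, h3⟩ := dep_next C (dep_x C) (by omega) b₂ (j : ℤ)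
  rw [zpow_natCast] at h3
  have h4 := (C.fr.eq C.lv.h₂ h1.1 (e1.symm.trans h3) (by
    have := abs_le.1 ho
    have := abs_le.1 h2
    exact abs_le.2 ⟨by omega, by omega⟩)).2
  rw [h4]
  exact h1

omit [DecidableEq Q] in
/-- A strand of a commuting label. -/
theorem ne_strand (C : SCtx B a H.up D k c W x s₁ s₂ b₁ b₂ j F) {s s' : Q} {b : B.L} (h₁ : B.q b ≠ B.q a)
    (h₂ : B.q b ≠ (B.q a)⁻¹) {m o : ℤ} (ho : |o| ≤ 2 * c) (he : (H.up.U ^ m) s * B.q b = (H.up.U ^ (m + o)) s') :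
    s' ≠ s := by
  rintro rfl
  have hcW := cW' C
  have h3 := line_loop (m' := 0) H he
  rw [H.up.zero, zero_add, H.zpow_eq] at h3
  refine not_small C.sink b h₁ h₂ _ ?_ (mul_left_cancel h3)
  have h2 : |((eps s' : ℤˣ) : ℤ) * o| = |o| := by
    rcases Int.units_eq_one_or (eps s') with hx | hx
    · rw [hx]; simp
    · rw [hx]; simp
  omega

/-- A gadget with a rung from `s` to `s'`. -/
theorem exists_GR0 (g1 : GadN1S.{0}) (g2 : GadN2S.{0}) (gc : CGadS.{0})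
    (C : SCtx B a H.up D k c W x s₁ s₂ b₁ b₂ j F) {s s' : F} {n : ℕ} (hs : Dep H.up D F x c n (s : Q))
    (hn : n + 1 ≤ 4) (hne : s ≠ s') {m : ℤ} {b : B.L} {o : ℤ} (ho : |o| ≤ 2 * c)
    (he : (H.up.U ^ m) (s : Q) * B.q b = (H.up.U ^ (m + o)) (s' : Q)) :
    ∃ (G : BGad (H.frd C.fr).toFrt) (g : Sy (H.frd C.fr).toFrt), g • G.x = s ∧ g • G.y = s' ∧
      OKG (H.frd C.fr) (hgt F.card (2 * c + 2 * k)) G := by
  have hW := hgtW C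
  have hcW := cW' C
  obtain ⟨s₁, hs₁, o₀, ho₀, e₀⟩ := dep_next C hs hn b 0
  rw [H.up.zero, zero_add] at e₀
  have hne' : s ≠ ⟨s₁, hs₁.1⟩ := by
    intro h
    have h1 : (s : Q) = s₁ := congrArg Subtype.val h
    have h2 := line_loop (b := B.q b) (m := 0) (m' := m) (o := o₀) H (by rw [H.up.zero, zero_add, e₀, h1])
    rw [he] at h2
    have := C.fr.eq s'.2 s.2 h2 (by
      have := abs_le.1 ho
      have := abs_le.1 ho₀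
      exact abs_le.2 ⟨by omega, by omega⟩)
    exact hne (Subtype.ext this.2.symm)
  obtain ⟨G, p, p', a1, a2⟩ := anyGad g1 g2 gc H C.fr (c := 2 * c + 2 * k) hW C.sink (H.frd C.fr)
    b s ⟨s₁, hs₁.1⟩ hne' o₀ (by push_cast; omega) e₀
  obtain ⟨m', q, -, hmq⟩ := H.level m
  have h := H.frd C.fr
  have he' : (H.up.U ^ (m' : ℤ)) (s : Q) * B.q b = (H.up.U ^ ((m' : ℤ) + o)) (s' : Q) := by
    have h4 : (H.up.U ^ m) (s : Q) = z ^ ((k : ℤ) * q) * (H.up.U ^ (m' : ℤ)) (s : Q) := by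
      rw [hmq, add_comm, H.up.zadd, H.per_z]
    have h5 : (H.up.U ^ (m + o)) (s' : Q) = z ^ ((k : ℤ) * q) * (H.up.U ^ ((m' : ℤ) + o)) (s' : Q) := by
      rw [hmq, show (m' : ℤ) + k * q + o = k * q + (m' + o) by ring, H.up.zadd, H.per_z]
    rw [h4, h5, mul_assoc] at he
    exact mul_left_cancel he
  rw [zpow_natCast] at he'
  refine ⟨G, (H.frd C.fr).cj (s : Q) ^ ((k - 1) * p + m'), ?_, ?_, a2.toOKG⟩
  · rw [a1, (H.frd C.fr).cj_pow_self]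
  · have h1 := a2.edge
    rw [a1] at h1
    have h3 : (k - 1) * p + m' + p = k * p + m' := by have := k_eq H.kpos p; omega
    have h2 := (H.frd C.fr).rungY (n := (k - 1) * p + m') (m := m') (q := p) h1 h3
    rw [a2.off, he'] at h2
    have := C.fr.eq s'.2 (Subtype.property _) h2 (by
      have := abs_le.1 ho
      have := abs_le.1 ho₀
      exact abs_le.2 ⟨by omega, by omega⟩)
    exact Subtype.ext this.2.symm

/-- A commuting gadget from `s` to `s'`. -/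
theorem exists_CG0 (gc : CGadS.{0}) (C : SCtx B a H.up D k c W x s₁ s₂ b₁ b₂ j F)
    {s s' : F} {b : B.L} (hcom : ∀ x, H.up.U (x * B.q b) = H.up.U x * B.q b) (hne : s ≠ s') {o : ℤ}
    (ho : |o| ≤ 2 * c) (he : (s : Q) * B.q b = (H.up.U ^ o) (s' : Q)) :
    ∃ (G : BGad (H.frd C.fr).toFrt) (p p' : ℕ), G.x = s ∧ G.y = s' ∧ COK (H.frd C.fr) G b p p' ∧
      OKG (H.frd C.fr) (hgt F.card (2 * c + 2 * k)) G := by
  obtain ⟨G, p, p', h1, h2, h3, -, h5⟩ := gc Q B H.up eps.ker D z F k (H.frd C.fr) b hcom s s' o hne he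
  have h0 : (o.natAbs : ℤ) ≤ 2 * c := by rw [Int.natCast_natAbs]; exact ho
  exact ⟨G, p, p', h1, h2, h5, h5.okg (h3.trans (by unfold hgt; omega))⟩

end ctx

end Pool.Agent.Lib.MP_688fd0_co.SQ3.Small
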