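import Pool.Agent.Lib.MP_688fd0_co.SQ3.Small.IfaceS
import Pool.Agent.Lib.MP_688fd0_co.SQ3.H23.Str

/-!
Row S-SMALL: from the quotient to the group.
-/

set_option autoImplicit false

namespace Pool.Agent.Lib.MP_688fd0_co.SQ3.Small

open Pool.Agent.Lib.MP_688fd0_co.OSF Pool.Agent.Lib.MP_688fd0_co.SQ2
open Subgroup

theorem small (hSq : SqS) (hK : KapS) (hH : HdataS.{0}) (hF : FactorS) (hL : LiftS) : SmallS := by
  classical
  intro G _ _ N C eps k P A hsym C₁ hC₁n hA1' a eps' D z u c W heven hg hgen hA1 hPa hC₁ heps' huN huz hyp hidx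
    hSi hSe hLe hW1 hW2
  have := hg.Cn
  have := hg.Nn
  have hCle := hg.CN
  have hk := hyp.kpos
  have hCsq : Squarefree (Nat.card C) := hg.Nsq.squarefree_of_dvd (card_dvd_of_le hCle)
  have hNodd : Odd (Nat.card N) := by
    rw [← Nat.not_even_iff_odd]
    intro he
    have h1 := (hg.big 2 (Nat.mem_primeFactors.2 ⟨Nat.prime_two, even_iff_two_dvd.1 he, Nat.card_pos.ne'⟩)).1
    omega
  have hea : eps a.1 = 1 := eps_one hg.toGNE hPa
  have hC₁C : C₁ ≤ C := by rw [hC₁]; exact inf_le_left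
  have hC₁E : C₁ ≤ Ecl eps a.1 := by rw [hC₁]; exact inf_le_right
  have hC₁N := hC₁C.trans hCle
  have := hg.Nc
  have hcyc : IsCyclic C₁ := isCyclic_of_injective (inclusion hC₁N) (inclusion_injective hC₁N)
  have hC₁d : Nat.card C₁ ∣ Nat.card C := card_dvd_of_le hC₁C
  have hcop : (Nat.card C₁).Coprime C₁.index := by
    rw [← relIndex_mul_index hC₁C]
    refine Nat.Coprime.mul_right ?_ (hg.Ccop.coprime_dvd_left hC₁d)
    have h1 : Nat.card C₁ * C₁.relIndex C = Nat.card C := by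
      have h2 := (C₁.subgroupOf C).card_mul_index
      rwa [Nat.card_congr (subgroupOfEquivOfLe hC₁C).toEquiv] at h2
    have hsq := hCsq
    rw [← h1] at hsq
    exact Nat.coprime_of_squarefree_mul hsq
  have hr : (Nat.card C₁).primeFactors.card ≤ (Nat.card G).primeFactorsList.length :=
    (Finset.card_le_card (Nat.primeFactors_mono (card_subgroup_dvd_card _) Nat.card_pos.ne')).trans
      (List.toFinset_card_le _)
  obtain ⟨s, zz, chi, ν, h1, h2, h3, h4, h5, h6, h7, h8⟩ := hH G C₁ hC₁n hcyc hcop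
  have hm0 : 0 < Nat.card C₁ := Nat.card_pos
  have : NeZero (Nat.card C₁) := ⟨hm0.ne'⟩
  have : Fintype (G ⧸ C₁) := Fintype.ofFinite _
  have : DecidableEq (G ⧸ C₁) := Classical.decEq _
  let V : Vd (qLb C₁ A hsym hA1') (ZMod (Nat.card C₁)) :=
    { chi := chi
      n := fun g => ν g.1
      n_inv := fun g => h6 g.1 }
  have hecomp : eps'.comp (QuotientGroup.mk' C₁) = eps := MonoidHom.ext heps'
  have hC₁odd : Odd (Nat.card C₁) := Odd.of_dvd_nat hNodd (card_dvd_of_le hC₁N)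
  have hkap : ∀ p, ∀ hp : p ∈ (Nat.card C₁).primeFactors,
      KapC (V.map (red (Nat.dvd_of_mem_primeFactors hp))) a eps' := by
    intro p hp
    have hν1 : ν 1 = 0 := by
      have h10 := h5 1
      rw [map_one, map_one, mul_one] at h10
      have h11 := orderOf_dvd_of_pow_eq_one h10.symm
      rw [h3] at h11
      have h12 : (ν 1).val < Nat.card C₁ := ZMod.val_lt _
      have h13 := Nat.eq_zero_of_dvd_of_lt h11 h12
      exact (ZMod.val_eq_zero _).1 h13
    have := hK G C₁ hC₁n eps' A a.1 s zz chi ν h1 h2 h3 h4 h5 hgen a.2.1 (hCsq.squarefree_of_dvd hC₁d) hC₁odd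
      (by rw [heps', hea]) (fun c hc h => hg.nact c (hC₁C hc) fun g => by rw [h g, heps'])
      (by rw [hecomp]; exact hC₁E) p hp
    rcases this with ⟨k1, t, htA, ht⟩ | ⟨k1, k2, t, htA, ht⟩
    · left
      refine ⟨k1, ?_⟩
      have ht1 : t ≠ 1 := by
        rintro rfl
        apply ht
        rw [hν1, map_one, map_one]
        simp
      refine ⟨(⟨t, htA, ht1⟩ : {g : G // g ∈ A ∧ g ≠ 1}), ?_⟩
      rw [Str.map_kap]
      exact ht
    · right
      refine ⟨k1, k2, ?_⟩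
      have ht1 : t ≠ 1 := by
        rintro rfl
        apply ht
        rw [map_one, map_one, map_one, map_one]
        simp
      exact ⟨(⟨t, htA, ht1⟩ : {g : G // g ∈ A ∧ g ≠ 1}), ht⟩
  have hzchi : V.chi z = 1 := by
    show chi z = 1
    rw [← huz]
    refine h8 u fun c hc => ?_
    have hcn := hC₁N hc
    obtain ⟨w, hw⟩ := IsCyclic.exists_generator (α := N)
    obtain ⟨i, hi⟩ := mem_zpowers_iff.1 (hw ⟨u, huN⟩)
    obtain ⟨j, hj⟩ := mem_zpowers_iff.1 (hw ⟨c, hcn⟩)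
    have h9 : (⟨u, huN⟩ : N) * ⟨c, hcn⟩ = ⟨c, hcn⟩ * ⟨u, huN⟩ := by
      rw [← hi, ← hj, ← zpow_add, ← zpow_add, add_comm]
    exact congrArg Subtype.val h9
  have hcardQ : Nat.card (G ⧸ C₁) = C₁.index := rfl
  have hprm : ∀ p ∈ (Nat.card C₁).primeFactors, 4 * k < p ∧ 8 * ((Nat.card C₁).primeFactors.card + 2) ^ 2 < p ∧
      ¬ p ∣ Nat.card (G ⧸ C₁) := by
    intro p hp
    have hpN := Nat.primeFactors_mono (hC₁d.trans (card_dvd_of_le hCle)) Nat.card_pos.ne' hp
    refine ⟨(hg.big p hpN).1, lt_of_le_of_lt ?_ (hg.marg p hpN), fun hd => ?_⟩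
    · obtain ⟨y, hy⟩ : ∃ y, y = (Nat.card G).primeFactorsList.length + 2 := ⟨_, rfl⟩
      rw [← hy]
      have h11 : 2 ≤ y := by omega
      calc 8 * ((Nat.card C₁).primeFactors.card + 2) ^ 2 ≤ 2 ^ 8 * y ^ 2 :=
            Nat.mul_le_mul (by norm_num) (Nat.pow_le_pow_left (by omega) 2)
        _ ≤ y ^ 8 * y ^ 2 := Nat.mul_le_mul_right _ (Nat.pow_le_pow_left h11 8)
        _ = y ^ 10 := by rw [← pow_add]
    · rw [hcardQ] at hd
      have hpp := Nat.prime_of_mem_primeFactors hp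
      have := Nat.dvd_gcd (Nat.dvd_of_mem_primeFactors hp) hd
      rw [hcop] at this
      exact hpp.one_lt.ne' (Nat.dvd_one.1 this)
  have hNm : Nm (qLb C₁ A hsym hA1') a k c W (Nat.card C₁) :=
    ⟨hCsq.squarefree_of_dvd hC₁d, hC₁odd, hprm, hW1, hW2⟩
  have hevQ : Even (Nat.card (G ⧸ C₁)) := by
    rw [Subgroup.card_eq_card_quotient_mul_card_subgroup C₁, Nat.even_mul] at heven
    rcases heven with h | h
    · exact h
    · exact absurd hC₁odd (Nat.not_odd_iff_even.2 h)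
  have hzodd : Odd (orderOf z) := by
    rw [← huz]
    refine Odd.of_dvd_nat ?_ (orderOf_map_dvd (QuotientGroup.mk' C₁) u)
    have h9 := orderOf_dvd_natCard (⟨u, huN⟩ : N)
    rw [Subgroup.orderOf_mk] at h9
    exact Odd.of_dvd_nat hNodd h9
  have hz1 : QuotientGroup.mk' C₁ zz = 1 := by
    rw [QuotientGroup.mk'_apply, QuotientGroup.eq_one_iff, ← h2]; exact mem_zpowers zz
  have hker : ∀ g : G, QuotientGroup.mk' C₁ g = 1 → g ∈ zpowers zz := fun g hg => by
    rw [h2]; exact (QuotientGroup.eq_one_iff g).1 hg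
  rcases hSq (G ⧸ C₁) (qLb C₁ A hsym hA1') a eps' D z k c W hyp hidx hevQ hzodd hSi hSe hLe (Nat.card C₁) V hNm
    hzchi hkap with hHP | ⟨T, hT⟩
  · exact hL G (G ⧸ C₁) (Nat.card C₁) (QuotientGroup.mk' C₁) s zz chi ν hm0 h1 hz1 h3 hker h4 h5 A
      (qLb C₁ A hsym hA1') V (fun g => g.1) (fun g => g.2.1) ⟨a⟩ (fun _ => rfl) (fun _ => rfl) rfl hHP
  · exact hF G (G ⧸ C₁) (Nat.card C₁) (QuotientGroup.mk' C₁) s zz chi ν hm0 h1 hz1 h3 hker h4 h5 A
      (fun x => (T.lab x).1) T.cls hgen (fun x => (T.lab x).2.1) T.bij T.step T.trans hT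

end Pool.Agent.Lib.MP_688fd0_co.SQ3.Small
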