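import Pool.Agent.Lib.MP_688fd0_co.SQ3.Small.Iface

/-!
Board `sqs_modules`, row T1A (helper46).
-/

set_option autoImplicit false

namespace Pool.Agent.Lib.MP_688fd0_co.SQ3.Small

open Pool.Agent.Lib.MP_688fd0_co.OSF Pool.Agent.Lib.MP_688fd0_co.SQ2

theorem t1a (hb : BwS) (hz : ZmS) : T1aS := by
  intro Q _ _ B m _ V x₀ y₀ lX lY S s' hnd hcov hS hs' hp _
  have hX : ((ev V (x₀, 0) lX).map Prod.fst).Nodup := by
    rw [ev_fst]
    exact (List.nodup_append.1 hnd).1
  have hY : ((ev V (y₀, 0) lY).map Prod.fst).Nodup := by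
    rw [ev_fst]
    exact (List.nodup_append.1 hnd).2.1
  have hbot : ∀ (l : List (Q × ZMod m)), (l.map Prod.fst).Nodup → ∀ q r t, (q, r) ∈ l →
      ((q, r + t) ∈ l ↔ t ∈ (⊥ : AddSubgroup (ZMod m))) := by
    intro l hl q r t hr
    rw [AddSubgroup.mem_bot]
    constructor
    · intro ht
      have h1 := List.inj_on_of_nodup_map hl ht hr rfl
      simpa using h1
    · rintro rfl
      rwa [add_zero]
  refine hb Q B (ZMod m) V ⊥ x₀ y₀ lX lY S s' (List.Nodup.of_map _ hX) (List.Nodup.of_map _ hY)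
    (hbot _ hX) (hbot _ hY) ?_ ?_ hS hs' ?_
  · intro q r t h1 h2
    have h3 : q ∈ B.verts x₀ lX := by
      have := List.mem_map_of_mem (f := Prod.fst) h1
      rwa [ev_fst] at this
    have h4 : q ∈ B.verts y₀ lY := by
      have := List.mem_map_of_mem (f := Prod.fst) h2
      rwa [ev_fst] at this
    exact (List.nodup_append.1 hnd).2.2 q h3 q h4 rfl
  · intro q
    rcases hcov q with h | h
    · have h1 : q ∈ (ev V (x₀, 0) lX).map Prod.fst := by rwa [ev_fst]
      obtain ⟨⟨q', r⟩, h2, rfl⟩ := List.mem_map.1 h1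
      exact ⟨r, Or.inl h2⟩
    · have h1 : q ∈ (ev V (y₀, 0) lY).map Prod.fst := by rwa [ev_fst]
      obtain ⟨⟨q', r⟩, h2, rfl⟩ := List.mem_map.1 h1
      exact ⟨r, Or.inr h2⟩
  · intro K _ hK
    refine hz m K fun p hpp => ?_
    obtain ⟨s, hs, h1⟩ := hp p hpp
    exact ⟨_, hK s hs, h1⟩

end Pool.Agent.Lib.MP_688fd0_co.SQ3.Small
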